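import Mathlib

/-!
# Linear reductive groups and local geometric fibrations

Definitions for the row MP_f31343_gt.
-/

open Matrix NormedSpace Filter Topology Module
open scoped Matrix.Norms.Operator ContDiff

namespace F31343

/-- A real linear reductive group in the form used for reductive homogeneous spaces: a closed
subgroup `grp` of `GL(ι, ℝ)` with the Cartan decomposition `grp = K · exp 𝔭`, where
`K = grp ∩ O(ι)` and `𝔭` is a space of symmetric matrices with `exp 𝔭 ⊆ grp`.  (In particular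
`grp` is stable under the Cartan involution `g ↦ (gᵀ)⁻¹`, and `𝔭` is determined by `grp`.) -/
structure LinRed (ι : Type*) [Fintype ι] [DecidableEq ι] where
  /-- the group -/
  grp : Subgroup (GL ι ℝ)
  /-- it is closed in `GL(ι, ℝ)` -/
  isClosed : IsClosed (grp : Set (GL ι ℝ))
  /-- the symmetric part of the Lie algebra -/
  𝔭 : Submodule ℝ (Matrix ι ι ℝ)
  symm : ∀ X ∈ 𝔭, Xᵀ = X
  exp_mem : ∀ X ∈ 𝔭, ∀ g : GL ι ℝ, g.val = exp X → g ∈ grp
  /-- Cartan decomposition -/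
  cartan : ∀ g ∈ grp, ∃ k ∈ grp, ∃ X ∈ 𝔭, k.valᵀ * k.val = 1 ∧ g.val = k.val * exp X

variable {ι : Type*} [Fintype ι] [DecidableEq ι]

/-- The maximal compact subgroup `K = G ∩ O(ι)`. -/
def LinRed.K (G : LinRed ι) : Subgroup (GL ι ℝ) where
  carrier := {k | k ∈ G.grp ∧ k.valᵀ * k.val = 1}
  one_mem' := ⟨G.grp.one_mem, by simp⟩
  mul_mem' := by
    rintro a b ⟨ha, ha'⟩ ⟨hb, hb'⟩
    refine ⟨G.grp.mul_mem ha hb, ?_⟩
    calc (a * b).valᵀ * (a * b).val = b.valᵀ * (a.valᵀ * a.val) * b.val := by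
          simp only [Units.val_mul, transpose_mul, mul_assoc]
      _ = 1 := by rw [ha', mul_one, hb']
  inv_mem' := by
    rintro a ⟨ha, ha'⟩
    refine ⟨G.grp.inv_mem ha, ?_⟩
    have h1 : (a⁻¹).val = a.valᵀ := by
      calc (a⁻¹).val = (a.valᵀ * a.val) * (a⁻¹).val := by rw [ha', one_mul]
        _ = a.valᵀ * (a.val * (a⁻¹).val) := by rw [mul_assoc]
        _ = a.valᵀ := by rw [Units.mul_inv, mul_one]
    rw [h1, transpose_transpose, ← h1, Units.mul_inv]

/-- The Lie algebra of `K`: matrices `A` with `exp (t A) ∈ K` for all `t`. -/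
def LinRed.𝔨 (G : LinRed ι) : Set (Matrix ι ι ℝ) :=
  {A | ∀ t : ℝ, ∀ g : GL ι ℝ, g.val = exp (t • A) → g ∈ G.K}

/-- The dimension of the base of a local geometric fibration of `G/H`, that is
`dim G/H - dim K·o = dim 𝔭_G - dim 𝔭_H`. -/
noncomputable def codim (G H : LinRed ι) : ℕ := finrank ℝ G.𝔭 - finrank ℝ H.𝔭

/-- `π` is smooth near the matrix `x`. -/
def SmoothAt {m : ℕ} (π : Matrix ι ι ℝ → EuclideanSpace ℝ (Fin m)) (x : Matrix ι ι ℝ) : Prop :=
  ContDiffAt ℝ ∞ π x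

/-- The derivative of `π` at `x` in the direction `v`. -/
noncomputable def dirDeriv {m : ℕ} (π : Matrix ι ι ℝ → EuclideanSpace ℝ (Fin m))
    (x v : Matrix ι ι ℝ) : EuclideanSpace ℝ (Fin m) :=
  fderiv ℝ π x v

/-- The map from `U/H` to `ℝᵐ` defined by `π` is proper near the value `π g`: the points of `U`
which `π` maps to a suitable neighbourhood `V` of `π g` lie in `C H` for a compact subset `C`
of `U`. -/
def ProperAt {m : ℕ} (H : LinRed ι) (U : Set (GL ι ℝ))
    (π : Matrix ι ι ℝ → EuclideanSpace ℝ (Fin m)) (g : GL ι ℝ) : Prop :=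
  ∃ V ∈ 𝓝 (π g.val), ∃ C : Set (GL ι ℝ), IsCompact C ∧ C ⊆ U ∧
    ∀ g' ∈ U, π g'.val ∈ V → ∃ c ∈ C, ∃ h ∈ H.grp, g' = c * h

/-- A local geometric fibration of `G/H`.

It is given by a nonempty open subset of `G/H`, i.e. a nonempty right `H`-invariant open subset
`U` of `G`, and a smooth map `π` from it to `ℝᵐ`, `m = dim 𝔭_G - dim 𝔭_H = dim G/H - dim K·o`
(the base, an open subset of `ℝᵐ`; every base is of this form after shrinking it to a chart),
which is a proper submersion (on `U/H`), hence a smooth fibre bundle, and whose fibres are all of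
the form `g₀ K · o` with `g₀ ∈ G`.  The tangent space of `G` at `g` is `g (𝔨 + 𝔭)`. -/
structure LocalGeometricFibration (G H : LinRed ι) where
  /-- the total space, as an `H`-invariant subset of `G` -/
  U : Set (GL ι ℝ)
  isOpen : ∃ O : Set (GL ι ℝ), IsOpen O ∧ U = O ∩ G.grp
  nonempty : U.Nonempty
  mul_mem : ∀ g ∈ U, ∀ h ∈ H.grp, g * h ∈ U
  /-- the projection -/
  π : Matrix ι ι ℝ → EuclideanSpace ℝ (Fin (codim G H))
  smooth : ∀ g ∈ U, SmoothAt π g.val
  fibre : ∀ g ∈ U, ∃ g₀ ∈ G.grp, ∀ g' : GL ι ℝ,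
    g' ∈ U ∧ π g'.val = π g.val ↔ ∃ k ∈ G.K, ∃ h ∈ H.grp, g' = g₀ * k * h
  submersion : ∀ g ∈ U, ∀ v, ∃ A ∈ G.𝔨, ∃ X ∈ G.𝔭, dirDeriv π g.val (g.val * (A + X)) = v
  proper : ∀ g ∈ U, ProperAt H U π g

/-- The commutator of two matrices. -/
def brk (A B : Matrix ι ι ℝ) : Matrix ι ι ℝ := A * B - B * A

/-- The matrix `B` normalises `𝔭_H`. -/
def Normalises (H : LinRed ι) (B : Matrix ι ι ℝ) : Prop := ∀ X ∈ H.𝔭, brk B X ∈ H.𝔭

/-- The noncompact part `𝔷(𝔤) ∩ 𝔭` of the centre of the Lie algebra `𝔤 = 𝔨 + 𝔭`: the elements `X`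
of `𝔭` which commute with `𝔭`.  (They commute with `𝔨` too: for `A ∈ 𝔨` and `Y ∈ 𝔭` one has
`tr ([A, X] Y) = tr (A [X, Y]) = 0`, and `[A, X] ∈ 𝔭`.)  It is `{0}` if and only if the centre of
the identity component of the group is compact, for instance if `𝔤` is semisimple. -/
def noncompactCentre (G : LinRed ι) : Set (Matrix ι ι ℝ) :=
  {X | X ∈ G.𝔭 ∧ ∀ Y ∈ G.𝔭, X * Y = Y * X}

end F31343
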