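import Mathlib

/-!
# Exponentials of symmetric real matrices

* `le_of_sq_le`: `P² ≤ Q²` implies `P ≤ Q` for positive definite `P`, `Q` (as quadratic forms);
* `exp_bound`: `|e^X v| ≤ e^c |e^Y v|` for all `v` implies `X ≤ Y + c`;
* `exp_symm_injective`: `exp` is injective on symmetric matrices.
-/

open Matrix NormedSpace Filter Topology
open scoped Matrix.Norms.Operator

namespace F31343

variable {ι : Type*} [Fintype ι] [DecidableEq ι]

/-- The quadratic form of a matrix. -/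
def qf (A : Matrix ι ι ℝ) (v : ι → ℝ) : ℝ := v ⬝ᵥ A *ᵥ v

omit [DecidableEq ι] in
lemma qf_sq (A : Matrix ι ι ℝ) (hA : Aᵀ = A) (v : ι → ℝ) :
    qf (A * A) v = (A *ᵥ v) ⬝ᵥ (A *ᵥ v) := by
  unfold qf
  rw [← mulVec_mulVec, dotProduct_mulVec, ← mulVec_transpose, hA]

/-- A symmetric matrix which is negative somewhere has an eigenvector with negative
eigenvalue. -/
lemma exists_neg_eigenvector (D : Matrix ι ι ℝ) (hD : Dᵀ = D) (v : ι → ℝ) (hv : qf D v < 0) :
    ∃ (μ : ℝ) (x : ι → ℝ), μ < 0 ∧ x ≠ 0 ∧ D *ᵥ x = μ • x := by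
  have hH : D.IsHermitian := by
    rw [IsHermitian, conjTranspose_eq_transpose_of_trivial]; exact hD
  by_contra hcon
  push Not at hcon
  have hpsd : D.PosSemidef := by
    rw [hH.posSemidef_iff_eigenvalues_nonneg]
    intro i
    by_contra hi
    have hi' : hH.eigenvalues i < 0 := lt_of_not_ge hi
    have hx := hH.mulVec_eigenvectorBasis i
    refine hcon (hH.eigenvalues i) (hH.eigenvectorBasis i) hi' ?_ hx
    intro h0
    have : hH.eigenvectorBasis i = 0 := by
      ext j; exact congrFun h0 j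
    exact (hH.eigenvectorBasis.orthonormal.ne_zero i) this
  have := hpsd.dotProduct_mulVec_nonneg v
  simp only [star_trivial] at this
  exact absurd this (not_le.mpr hv)

/-- Operator monotonicity of the square root, for positive definite matrices. -/
lemma le_of_sq_le (P Q : Matrix ι ι ℝ) (hP : Pᵀ = P) (hQ : Qᵀ = Q)
    (hP0 : ∀ v, v ≠ 0 → 0 < qf P v) (hQ0 : ∀ v, v ≠ 0 → 0 < qf Q v)
    (h : ∀ v, qf (P * P) v ≤ qf (Q * Q) v) (v : ι → ℝ) : qf P v ≤ qf Q v := by
  by_contra hcon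
  have hneg : qf (Q - P) v < 0 := by
    have : qf (Q - P) v = qf Q v - qf P v := by simp [qf, sub_mulVec, dotProduct_sub]
    rw [this]; linarith
  obtain ⟨μ, x, hμ, hx, hDx⟩ := exists_neg_eigenvector (Q - P) (by simp [hP, hQ]) v hneg
  have hx' := h x
  rw [qf_sq P hP, qf_sq Q hQ] at hx'
  -- `|Qx|² - |Px|² = ⟨(Q-P)x, (Q+P)x⟩ = μ ⟨x, (Q+P)x⟩`
  have e1 : (Q *ᵥ x) ⬝ᵥ (Q *ᵥ x) - (P *ᵥ x) ⬝ᵥ (P *ᵥ x)
      = ((Q - P) *ᵥ x) ⬝ᵥ (Q *ᵥ x + P *ᵥ x) := by
    rw [sub_mulVec]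
    simp only [sub_dotProduct, dotProduct_add]
    rw [dotProduct_comm (P *ᵥ x) (Q *ᵥ x)]
    ring
  rw [hDx] at e1
  have e2 : (μ • x) ⬝ᵥ (Q *ᵥ x + P *ᵥ x) = μ * (qf Q x + qf P x) := by
    simp [qf, dotProduct_add, smul_dotProduct, mul_add]
  have e3 : 0 < qf Q x + qf P x := add_pos (hQ0 x hx) (hP0 x hx)
  have e4 : μ * (qf Q x + qf P x) < 0 := mul_neg_of_neg_of_pos hμ e3
  linarith [e1, e2]

lemma exp_symm_transpose (X : Matrix ι ι ℝ) (hX : Xᵀ = X) : (exp X)ᵀ = exp X := by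
  rw [← exp_transpose, hX]

lemma exp_half_mul (X : Matrix ι ι ℝ) (t : ℝ) :
    exp ((t / 2) • X) * exp ((t / 2) • X) = exp (t • X) := by
  rw [← Matrix.exp_add_of_commute _ _ (Commute.refl _), ← add_smul]
  congr 2; ring

lemma mulVec_exp_ne_zero (X : Matrix ι ι ℝ) (v : ι → ℝ) (hv : v ≠ 0) : exp X *ᵥ v ≠ 0 := by
  intro h
  have hu := Matrix.isUnit_exp X
  have : Function.Injective (exp X).mulVec := Matrix.mulVec_injective_of_isUnit hu
  exact hv (this (by rw [h, mulVec_zero]))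

lemma qf_exp_pos (X : Matrix ι ι ℝ) (hX : Xᵀ = X) (v : ι → ℝ) (hv : v ≠ 0) :
    0 < qf (exp X) v := by
  have h1 := exp_half_mul X 1
  rw [one_smul] at h1
  have hs : (exp ((1 / 2 : ℝ) • X))ᵀ = exp ((1 / 2 : ℝ) • X) :=
    exp_symm_transpose _ (by rw [transpose_smul, hX])
  rw [← h1, qf_sq _ hs]
  have hne := mulVec_exp_ne_zero ((1 / 2 : ℝ) • X) v hv
  have h0 : 0 ≤ (exp ((1 / 2 : ℝ) • X) *ᵥ v) ⬝ᵥ (exp ((1 / 2 : ℝ) • X) *ᵥ v) :=
    Finset.sum_nonneg fun i _ => mul_self_nonneg _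
  rcases h0.lt_or_eq with h | h
  · exact h
  · exact absurd (dotProduct_self_eq_zero.mp h.symm) hne

/-- From `e^{2X} ≤ e^{2Y}` to `e^{X/2^j} ≤ e^{Y/2^j}`. -/
lemma exp_iter (X Y : Matrix ι ι ℝ) (hX : Xᵀ = X) (hY : Yᵀ = Y)
    (h : ∀ v, qf (exp X * exp X) v ≤ qf (exp Y * exp Y) v) (j : ℕ) (v : ι → ℝ) :
    qf (exp ((1 / 2 ^ j : ℝ) • X)) v ≤ qf (exp ((1 / 2 ^ j : ℝ) • Y)) v := by
  have sX : ∀ t : ℝ, (t • X)ᵀ = t • X := fun t => by rw [transpose_smul, hX]
  have sY : ∀ t : ℝ, (t • Y)ᵀ = t • Y := fun t => by rw [transpose_smul, hY]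
  induction j generalizing v with
  | zero =>
    simp only [pow_zero, div_one, one_smul]
    exact le_of_sq_le _ _ (exp_symm_transpose _ hX) (exp_symm_transpose _ hY)
      (qf_exp_pos X hX) (qf_exp_pos Y hY) h v
  | succ j ih =>
    have e : (1 / 2 ^ (j + 1) : ℝ) = (1 / 2 ^ j) / 2 := by rw [pow_succ]; field_simp
    rw [e]
    refine le_of_sq_le _ _ (exp_symm_transpose _ (sX _)) (exp_symm_transpose _ (sY _))
      (qf_exp_pos _ (sX _)) (qf_exp_pos _ (sY _)) ?_ v
    intro v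
    rw [exp_half_mul, exp_half_mul]
    exact ih v

set_option backward.isDefEq.respectTransparency false in
lemma hasDerivAt_exp_zero (X : Matrix ι ι ℝ) :
    HasDerivAt (fun t : ℝ => exp (t • X)) X 0 := by
  have := hasDerivAt_exp_smul_const (𝕂 := ℝ) X (0 : ℝ)
  rw [zero_smul, exp_zero, one_mul] at this
  exact this

lemma tendsto_slope_exp (X : Matrix ι ι ℝ) (v : ι → ℝ) :
    Tendsto (fun j : ℕ => (2 ^ j : ℝ) * (qf (exp ((1 / 2 ^ j : ℝ) • X)) v - v ⬝ᵥ v)) atTop
      (𝓝 (qf X v)) := by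
  have h1 : HasDerivAt (fun t : ℝ => exp (t • X)) X 0 := hasDerivAt_exp_zero X
  -- apply the linear functional `A ↦ qf A v`
  let L : Matrix ι ι ℝ →ₗ[ℝ] ℝ :=
    { toFun := fun A => qf A v
      map_add' := fun A B => by simp [qf, add_mulVec, dotProduct_add]
      map_smul' := fun c A => by simp [qf, smul_mulVec, dotProduct_smul] }
  have h2 : HasDerivAt (fun t : ℝ => qf (exp (t • X)) v) (qf X v) 0 := by
    have := (LinearMap.toContinuousLinearMap L).hasFDerivAt.comp_hasDerivAt (0 : ℝ) h1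
    exact this
  have h3 := h2.tendsto_slope_zero
  have h4 : Tendsto (fun j : ℕ => (1 / 2 ^ j : ℝ)) atTop (𝓝[≠] 0) := by
    rw [tendsto_nhdsWithin_iff]
    constructor
    · have : Tendsto (fun j : ℕ => ((1 / 2 : ℝ)) ^ j) atTop (𝓝 0) :=
        tendsto_pow_atTop_nhds_zero_of_lt_one (by norm_num) (by norm_num)
      refine this.congr fun j => ?_
      rw [div_pow, one_pow]
    · exact Eventually.of_forall fun j => by simp
  have h5 := h3.comp h4
  refine h5.congr fun j => ?_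
  have : (1 / 2 ^ j : ℝ)⁻¹ = 2 ^ j := by simp
  simp only [Function.comp, zero_add, smul_eq_mul, this, zero_smul, exp_zero]
  simp [qf]

/-- `e^{2X} ≤ e^{2Y}` implies `X ≤ Y`. -/
lemma exp_le (X Y : Matrix ι ι ℝ) (hX : Xᵀ = X) (hY : Yᵀ = Y)
    (h : ∀ v, qf (exp X * exp X) v ≤ qf (exp Y * exp Y) v) (v : ι → ℝ) : qf X v ≤ qf Y v := by
  refine le_of_tendsto_of_tendsto' (tendsto_slope_exp X v) (tendsto_slope_exp Y v) fun j => ?_
  have := exp_iter X Y hX hY h j v
  have hp : (0 : ℝ) ≤ 2 ^ j := by positivity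
  exact mul_le_mul_of_nonneg_left (by linarith) hp

/-- `|e^X v|² ≤ e^{2c} |e^Y v|²` implies `X ≤ Y + c`. -/
lemma exp_bound (X Y : Matrix ι ι ℝ) (hX : Xᵀ = X) (hY : Yᵀ = Y) (c : ℝ)
    (h : ∀ v, (exp X *ᵥ v) ⬝ᵥ (exp X *ᵥ v)
      ≤ Real.exp (2 * c) * ((exp Y *ᵥ v) ⬝ᵥ (exp Y *ᵥ v))) (v : ι → ℝ) :
    qf X v ≤ qf Y v + c * (v ⬝ᵥ v) := by
  have hexp : exp (Y + c • (1 : Matrix ι ι ℝ)) = Real.exp c • exp Y := by
    have hcomm : Commute Y (c • (1 : Matrix ι ι ℝ)) := (Commute.one_right Y).smul_right c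
    rw [Matrix.exp_add_of_commute _ _ hcomm]
    have : exp (c • (1 : Matrix ι ι ℝ)) = Real.exp c • (1 : Matrix ι ι ℝ) := by
      have h1 : c • (1 : Matrix ι ι ℝ) = diagonal (fun _ => c) := by
        ext i j; simp [Matrix.one_apply, diagonal_apply]
      rw [h1, Matrix.exp_diagonal]
      ext i j
      rw [diagonal_apply]
      by_cases hij : i = j
      · subst hij
        simp [Real.exp_eq_exp_ℝ]
      · simp [hij]
    rw [this]; simp
  have hYc : (Y + c • (1 : Matrix ι ι ℝ))ᵀ = Y + c • (1 : Matrix ι ι ℝ) := by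
    rw [transpose_add, transpose_smul, transpose_one, hY]
  have key := exp_le X (Y + c • (1 : Matrix ι ι ℝ)) hX hYc (fun v => by
    rw [qf_sq _ (exp_symm_transpose _ hX), qf_sq _ (exp_symm_transpose _ hYc), hexp]
    refine (h v).trans (le_of_eq ?_)
    simp only [smul_mulVec, dotProduct_smul, smul_dotProduct, smul_eq_mul]
    rw [two_mul, Real.exp_add]; ring) v
  refine key.trans (le_of_eq ?_)
  simp [qf, add_mulVec, dotProduct_add, smul_mulVec]

/-- A symmetric matrix with zero quadratic form vanishes. -/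
lemma eq_zero_of_qf (Z : Matrix ι ι ℝ) (hZ : Zᵀ = Z) (h : ∀ v, qf Z v = 0) : Z = 0 := by
  by_contra hne
  have entry : ∀ i j, Z i j = 0 := by
    intro i j
    have hii := h (Pi.single i 1)
    have hjj := h (Pi.single j 1)
    have hij := h (Pi.single i 1 + Pi.single j 1)
    simp only [qf, mulVec_add, add_dotProduct, dotProduct_add, mulVec_single_one,
      single_one_dotProduct, col_apply] at hii hjj hij
    have : Z j i = Z i j := by
      have := congrFun (congrFun hZ i) j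
      simpa using this
    linarith
  exact hne (by ext i j; simpa using entry i j)

lemma entry_bound (Z : Matrix ι ι ℝ) (hZ : Zᵀ = Z) (c : ℝ)
    (h : ∀ v, |qf Z v| ≤ c * (v ⬝ᵥ v)) (i j : ι) : |Z i j| ≤ 4 * c := by
  have hii := h (Pi.single i 1)
  have hjj := h (Pi.single j 1)
  have hij := h (Pi.single i 1 + Pi.single j 1)
  simp only [qf, mulVec_add, add_dotProduct, dotProduct_add, mulVec_single_one,
    single_one_dotProduct, col_apply] at hii hjj hij
  have hs : Z j i = Z i j := by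
    have := congrFun (congrFun hZ i) j
    simpa using this
  have hc : 0 ≤ c := by
    have := (abs_nonneg _).trans hii
    simpa using this
  by_cases hne : i = j
  · subst hne
    simp at hii
    linarith
  · have h1 : (Pi.single j (1 : ℝ) : ι → ℝ) i = 0 := by simp [hne]
    have h2 : (Pi.single i (1 : ℝ) : ι → ℝ) j = 0 := by
      simp [Ne.symm hne]
    simp only [h1, h2, Pi.single_eq_same, hs] at hii hjj hij
    have a1 := abs_le.mp hii
    have a2 := abs_le.mp hjj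
    have a3 := abs_le.mp hij
    rw [abs_le]
    constructor <;> linarith [a1.1, a1.2, a2.1, a2.2, a3.1, a3.2]

/-- The exponential is injective on symmetric matrices. -/
lemma exp_symm_injective (X Y : Matrix ι ι ℝ) (hX : Xᵀ = X) (hY : Yᵀ = Y)
    (h : exp X = exp Y) : X = Y := by
  have h1 : ∀ v, qf X v ≤ qf Y v := exp_le X Y hX hY (fun v => by rw [h])
  have h2 : ∀ v, qf Y v ≤ qf X v := exp_le Y X hY hX (fun v => by rw [h])
  have h3 : X - Y = 0 := eq_zero_of_qf _ (by rw [transpose_sub, hX, hY]) (fun v => by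
    have : qf (X - Y) v = qf X v - qf Y v := by simp [qf, sub_mulVec, dotProduct_sub]
    rw [this]; linarith [h1 v, h2 v])
  exact sub_eq_zero.mp h3

/-- Uniqueness in the polar decomposition. -/
lemma polar_unique (k k' X Y : Matrix ι ι ℝ) (hk : kᵀ * k = 1) (hk' : k'ᵀ * k' = 1)
    (hX : Xᵀ = X) (hY : Yᵀ = Y) (h : k * exp X = k' * exp Y) : X = Y := by
  have h1 : (k * exp X)ᵀ * (k * exp X) = exp X * exp X := by
    rw [transpose_mul, exp_symm_transpose X hX]
    calc exp X * kᵀ * (k * exp X) = exp X * (kᵀ * k) * exp X := by simp only [mul_assoc]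
      _ = exp X * exp X := by rw [hk, mul_one]
  have h2 : (k' * exp Y)ᵀ * (k' * exp Y) = exp Y * exp Y := by
    rw [transpose_mul, exp_symm_transpose Y hY]
    calc exp Y * k'ᵀ * (k' * exp Y) = exp Y * (k'ᵀ * k') * exp Y := by simp only [mul_assoc]
      _ = exp Y * exp Y := by rw [hk', mul_one]
  have h3 : exp X * exp X = exp Y * exp Y := by rw [← h1, ← h2, h]
  have h4 : ∀ v, qf X v ≤ qf Y v := exp_le X Y hX hY (fun v => by rw [h3])
  have h5 : ∀ v, qf Y v ≤ qf X v := exp_le Y X hY hX (fun v => by rw [h3])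
  have h6 : X - Y = 0 := eq_zero_of_qf _ (by rw [transpose_sub, hX, hY]) (fun v => by
    have : qf (X - Y) v = qf X v - qf Y v := by simp [qf, sub_mulVec, dotProduct_sub]
    rw [this]; linarith [h4 v, h5 v])
  exact sub_eq_zero.mp h6

end F31343
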