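import Mathlib
import Pool.Agent.Lib_MP_f31343.Defs
import Pool.Agent.Lib_MP_f31343.MatExp

/-!
# Basic facts on linear reductive groups
-/

open Matrix NormedSpace Filter Topology Module
open scoped Matrix.Norms.Operator

namespace F31343

variable {ι : Type*} [Fintype ι] [DecidableEq ι]

/-- `exp X` as an element of `GL`. -/
noncomputable def expU (X : Matrix ι ι ℝ) : GL ι ℝ := (Matrix.isUnit_exp X).unit

@[simp] lemma expU_val (X : Matrix ι ι ℝ) : (expU X).val = exp X := rfl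

lemma expU_add (X Y : Matrix ι ι ℝ) (h : Commute X Y) : expU (X + Y) = expU X * expU Y := by
  apply Units.ext
  rw [Units.val_mul, expU_val, expU_val, expU_val, Matrix.exp_add_of_commute _ _ h]

lemma expU_zero : expU (0 : Matrix ι ι ℝ) = 1 := by
  apply Units.ext; simp

lemma expU_neg (X : Matrix ι ι ℝ) : expU (-X) = (expU X)⁻¹ := by
  rw [eq_inv_iff_mul_eq_one, ← expU_add _ _ (Commute.refl X).neg_left, neg_add_cancel, expU_zero]

lemma isOpenEmbedding_val : IsOpenEmbedding (fun g : GL ι ℝ => g.val) :=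
  Units.isOpenEmbedding_val (R := Matrix ι ι ℝ)

lemma continuous_expU : Continuous (expU : Matrix ι ι ℝ → GL ι ℝ) := by
  rw [isOpenEmbedding_val.isEmbedding.continuous_iff]
  exact NormedSpace.exp_continuous

variable {G H : LinRed ι}

lemma orth_mul_transpose {k : Matrix ι ι ℝ} (hk : kᵀ * k = 1) : k * kᵀ = 1 :=
  mul_eq_one_comm.mp hk

lemma K_orth {k : GL ι ℝ} (hk : k ∈ G.K) : k.valᵀ * k.val = 1 := hk.2

lemma K_orth' {k : GL ι ℝ} (hk : k ∈ G.K) : k.val * k.valᵀ = 1 := orth_mul_transpose hk.2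

lemma K_inv_val {k : GL ι ℝ} (hk : k ∈ G.K) : (k⁻¹).val = k.valᵀ := by
  calc (k⁻¹).val = (k.valᵀ * k.val) * (k⁻¹).val := by rw [hk.2, one_mul]
    _ = k.valᵀ * (k.val * (k⁻¹).val) := by rw [mul_assoc]
    _ = k.valᵀ := by rw [Units.mul_inv, mul_one]

lemma K_le : G.K ≤ G.grp := fun _ h => h.1

lemma expU_mem {X : Matrix ι ι ℝ} (hX : X ∈ G.𝔭) : expU X ∈ G.grp := G.exp_mem X hX _ rfl

lemma mem_p_of_exp_mem {X : Matrix ι ι ℝ} (hX : Xᵀ = X) (h : expU X ∈ G.grp) : X ∈ G.𝔭 := by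
  obtain ⟨k, -, Y, hY, hk, hg⟩ := G.cartan _ h
  have : X = Y := polar_unique 1 k.val X Y (by simp) hk hX (G.symm Y hY)
    (by rw [one_mul]; exact hg)
  rw [this]; exact hY

lemma conj_exp {k : GL ι ℝ} (hk : k ∈ G.K) (X : Matrix ι ι ℝ) :
    exp (k.val * X * k.valᵀ) = k.val * exp X * k.valᵀ := by
  rw [← K_inv_val hk]
  exact Matrix.exp_units_conj k X

lemma conj_expU {k : GL ι ℝ} (hk : k ∈ G.K) (X : Matrix ι ι ℝ) :
    expU (k.val * X * k.valᵀ) = k * expU X * k⁻¹ := by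
  apply Units.ext
  rw [expU_val, conj_exp hk, Units.val_mul, Units.val_mul, K_inv_val hk, expU_val]

lemma conj_mem_p {k : GL ι ℝ} (hk : k ∈ G.K) {X : Matrix ι ι ℝ} (hX : X ∈ G.𝔭) :
    k.val * X * k.valᵀ ∈ G.𝔭 := by
  apply mem_p_of_exp_mem
  · rw [transpose_mul, transpose_mul, transpose_transpose, G.symm X hX, mul_assoc]
  · rw [conj_expU hk]
    exact G.grp.mul_mem (G.grp.mul_mem hk.1 (expU_mem hX)) (G.grp.inv_mem hk.1)

lemma conj_mem_p' {k : GL ι ℝ} (hk : k ∈ G.K) {X : Matrix ι ι ℝ} (hX : X ∈ G.𝔭) :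
    k.valᵀ * X * k.val ∈ G.𝔭 := by
  have h := conj_mem_p (G.K.inv_mem hk) hX
  rw [K_inv_val hk, transpose_transpose] at h
  exact h

lemma p_mono (hHG : H.grp ≤ G.grp) {X : Matrix ι ι ℝ} (hX : X ∈ H.𝔭) : X ∈ G.𝔭 :=
  mem_p_of_exp_mem (H.symm X hX) (hHG (expU_mem hX))

lemma K_mono (hHG : H.grp ≤ G.grp) : H.K ≤ G.K := fun _ h => ⟨hHG h.1, h.2⟩

/-- The polar decomposition with the symmetric factor on the left. -/
lemma left_polar {g : GL ι ℝ} (hg : g ∈ G.grp) :
    ∃ X ∈ G.𝔭, ∃ k ∈ G.K, g = expU X * k := by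
  obtain ⟨k, hk, X, hX, hk1, hgv⟩ := G.cartan g hg
  have hkK : k ∈ G.K := ⟨hk, hk1⟩
  refine ⟨k.val * X * k.valᵀ, conj_mem_p hkK hX, k, hkK, ?_⟩
  rw [conj_expU hkK, inv_mul_cancel_right]
  apply Units.ext
  rw [hgv, Units.val_mul, expU_val]

/-- The polar decomposition. -/
lemma right_polar {g : GL ι ℝ} (hg : g ∈ G.grp) :
    ∃ k ∈ G.K, ∃ X ∈ G.𝔭, g = k * expU X := by
  obtain ⟨k, hk, X, hX, hk1, hgv⟩ := G.cartan g hg
  refine ⟨k, ⟨hk, hk1⟩, X, hX, ?_⟩
  apply Units.ext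
  rw [hgv, Units.val_mul, expU_val]

/-- `K` is compact. -/
lemma isCompact_K (G : LinRed ι) : IsCompact (G.K : Set (GL ι ℝ)) := by
  rw [isOpenEmbedding_val.isEmbedding.isCompact_iff]
  have hT : IsCompact {A : Matrix ι ι ℝ | ∀ i j, A i j ∈ Set.Icc (-1 : ℝ) 1} := by
    have : IsCompact (Set.pi Set.univ (fun _ : ι => Set.pi Set.univ
        (fun _ : ι => Set.Icc (-1 : ℝ) 1))) :=
      isCompact_univ_pi fun _ => isCompact_univ_pi fun _ => isCompact_Icc
    have e : {A : Matrix ι ι ℝ | ∀ i j, A i j ∈ Set.Icc (-1 : ℝ) 1}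
        = (Set.pi Set.univ (fun _ : ι => Set.pi Set.univ (fun _ : ι => Set.Icc (-1 : ℝ) 1)) :
          Set (ι → ι → ℝ)) := by
      ext A
      constructor
      · intro hA i _ j _
        exact hA i j
      · intro hA i j
        exact hA i (Set.mem_univ i) j (Set.mem_univ j)
    rw [e]; exact this
  refine hT.of_isClosed_subset ?_ ?_
  · -- closedness
    have hcl : ∀ A ∈ closure ((fun g : GL ι ℝ => g.val) '' (G.K : Set (GL ι ℝ))),
        A ∈ (fun g : GL ι ℝ => g.val) '' (G.K : Set (GL ι ℝ)) := by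
      intro A hA
      have h1 : Aᵀ * A = 1 := by
        have hclosed : IsClosed {B : Matrix ι ι ℝ | Bᵀ * B = 1} := by
          apply isClosed_eq
          · fun_prop
          · exact continuous_const
        refine closure_minimal ?_ hclosed hA
        rintro _ ⟨k, hk, rfl⟩
        exact hk.2
      let u : GL ι ℝ := ⟨A, Aᵀ, orth_mul_transpose h1, h1⟩
      have hu : u ∈ closure (G.K : Set (GL ι ℝ)) := by
        rw [isOpenEmbedding_val.isEmbedding.closure_eq_preimage_closure_image]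
        exact hA
      have hu2 : u ∈ G.grp := by
        have : closure (G.K : Set (GL ι ℝ)) ⊆ G.grp :=
          closure_minimal (fun _ h => h.1) G.isClosed
        exact this hu
      exact ⟨u, ⟨hu2, h1⟩, rfl⟩
    exact isClosed_of_closure_subset hcl
  · rintro _ ⟨k, hk, rfl⟩ i j
    have h1 : (k.valᵀ * k.val) j j = 1 := by rw [hk.2]; simp
    rw [mul_apply] at h1
    have h2 : k.val i j * k.val i j ≤ 1 := by
      rw [← h1]
      exact Finset.single_le_sum (f := fun x => k.valᵀ j x * k.val x j)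
        (fun x _ => by simpa using mul_self_nonneg (k.val x j)) (Finset.mem_univ i)
    constructor
    · nlinarith [h2]
    · nlinarith [h2]

instance instCompactK (G : LinRed ι) : CompactSpace G.K :=
  isCompact_iff_compactSpace.mp (isCompact_K G)

end F31343
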