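import Mathlib
import Pool.Agent.Lib_MP_f31343.Group

/-!
# The adjoint action of `𝔨` on `𝔭`
-/

open Matrix NormedSpace Filter Topology Module
open scoped Matrix.Norms.Operator ContDiff

namespace F31343

variable {ι : Type*} [Fintype ι] [DecidableEq ι] {G H : LinRed ι}

lemma isClosed_p (G : LinRed ι) : IsClosed (G.𝔭 : Set (Matrix ι ι ℝ)) :=
  G.𝔭.closed_of_finiteDimensional

lemma expU_mem_K {A : Matrix ι ι ℝ} (hA : A ∈ G.𝔨) (t : ℝ) : expU (t • A) ∈ G.K := hA t _ rfl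

lemma exp_transpose_k {A : Matrix ι ι ℝ} (hA : A ∈ G.𝔨) (t : ℝ) :
    (exp (t • A))ᵀ = exp (t • (-A)) := by
  have h1 := K_inv_val (expU_mem_K hA t)
  rw [← expU_neg, expU_val, expU_val, ← smul_neg] at h1
  exact h1.symm

set_option backward.isDefEq.respectTransparency false in
lemma hasDerivAt_exp_left (A : Matrix ι ι ℝ) (t : ℝ) :
    HasDerivAt (fun t : ℝ => exp (t • A)) (A * exp (t • A)) t :=
  hasDerivAt_exp_smul_const' (𝕂 := ℝ) A t

set_option backward.isDefEq.respectTransparency false in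
lemma hasDerivAt_exp_right (A : Matrix ι ι ℝ) (t : ℝ) :
    HasDerivAt (fun t : ℝ => exp (t • A)) (exp (t • A) * A) t :=
  hasDerivAt_exp_smul_const (𝕂 := ℝ) A t

lemma transpose_of_mem_k {A : Matrix ι ι ℝ} (hA : A ∈ G.𝔨) : Aᵀ = -A := by
  have h1 : HasDerivAt (fun t : ℝ => exp (t • (-A))) (-A) 0 := hasDerivAt_exp_zero (-A)
  have h2 : HasDerivAt (fun t : ℝ => (exp (t • A))ᵀ) Aᵀ 0 := by
    let L : Matrix ι ι ℝ →L[ℝ] Matrix ι ι ℝ :=
      LinearMap.toContinuousLinearMap (Matrix.transposeLinearEquiv ι ι ℝ ℝ).toLinearMap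
    exact L.hasFDerivAt.comp_hasDerivAt (0 : ℝ) (hasDerivAt_exp_zero A)
  have h3 : (fun t : ℝ => (exp (t • A))ᵀ) = fun t : ℝ => exp (t • (-A)) := by
    funext t; exact exp_transpose_k hA t
  rw [h3] at h2
  exact h2.unique h1

set_option backward.isDefEq.respectTransparency false in
lemma hasDerivAt_conj {A : Matrix ι ι ℝ} (hA : A ∈ G.𝔨) (X : Matrix ι ι ℝ) (t : ℝ) :
    HasDerivAt (fun t : ℝ => exp (t • A) * (X * (exp (t • A))ᵀ))
      (A * (exp (t • A) * (X * (exp (t • A))ᵀ)) - (exp (t • A) * (X * (exp (t • A))ᵀ)) * A) t := by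
  have h1 := hasDerivAt_exp_left A t
  have h2 := (hasDerivAt_exp_right (-A) t).const_mul X
  have h3 := h1.mul h2
  have e1 : (fun t : ℝ => exp (t • A) * (X * (exp (t • A))ᵀ))
      = fun t : ℝ => exp (t • A) * (X * exp (t • (-A))) := by
    funext s; rw [exp_transpose_k hA]
  rw [e1, exp_transpose_k hA]
  refine h3.congr_deriv ?_
  noncomm_ring

/-- If a curve stays in a subspace then so does its derivative. -/
lemma deriv_mem {M : Type*} [NormedAddCommGroup M] [NormedSpace ℝ M] (S : Submodule ℝ M)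
    (hS : IsClosed (S : Set M)) {f : ℝ → M} {f' : M} {t : ℝ} (h : HasDerivAt f f' t)
    (hf : ∀ s, f s ∈ S) : f' ∈ S := by
  have h1 := hasDerivAt_iff_tendsto_slope.mp h
  refine hS.mem_of_tendsto h1 (Eventually.of_forall fun s => ?_)
  rw [slope_def_module]
  exact S.smul_mem _ (S.sub_mem (hf s) (hf t))

lemma conj_mem_p2 {k : GL ι ℝ} (hk : k ∈ G.K) {X : Matrix ι ι ℝ} (hX : X ∈ G.𝔭) :
    k.val * (X * k.valᵀ) ∈ G.𝔭 := by
  rw [← mul_assoc]; exact conj_mem_p hk hX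

lemma ad_mem_p {A : Matrix ι ι ℝ} (hA : A ∈ G.𝔨) {X : Matrix ι ι ℝ} (hX : X ∈ G.𝔭) :
    A * X - X * A ∈ G.𝔭 := by
  have h1 := hasDerivAt_conj hA X 0
  have h2 := deriv_mem G.𝔭 (isClosed_p G) h1 (fun s => conj_mem_p2 (expU_mem_K hA s) hX)
  simpa using h2

end F31343
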