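import Mathlib

/-!
# Averages of derivatives over a compact group

`integral_deriv_eq_zero`: on a compact group `K` with Haar measure, the derivative of a function
along left translations by a curve through the identity has integral zero.
-/

open MeasureTheory Set Filter Topology

namespace F31343

variable {K : Type*} [Group K] [TopologicalSpace K] [IsTopologicalGroup K] [CompactSpace K]
  [MeasurableSpace K] [BorelSpace K]

/-- The integral over a compact group of the derivative of `u` along the curves
`t ↦ κ t * k` vanishes. -/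
theorem integral_deriv_eq_zero (μ : Measure K) [μ.IsHaarMeasure] (κ : ℝ → K)
    (hκ : Continuous κ) (u u' : K → ℝ) (hu : Continuous u) (hu' : Continuous u')
    (hd : ∀ (k : K) (t : ℝ), HasDerivAt (fun s => u (κ s * k)) (u' (κ t * k)) t) :
    ∫ k, u' k ∂μ = 0 := by
  have _ : IsFiniteMeasure μ := inferInstance
  have hF : Continuous (fun p : K × ℝ => u' (κ p.2 * p.1)) := by fun_prop
  obtain ⟨C, hC⟩ : ∃ C, ∀ k, ‖u' k‖ ≤ C := by
    obtain ⟨C, hC⟩ := (isCompact_range hu'.norm).bddAbove
    exact ⟨C, fun k => hC ⟨k, rfl⟩⟩
  have hint : Integrable (fun p : K × ℝ => u' (κ p.2 * p.1))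
      (μ.prod (volume.restrict (Ioc (0 : ℝ) 1))) := by
    refine Integrable.of_bound (C := C) hF.aestronglyMeasurable ?_
    exact Eventually.of_forall fun p => hC _
  have hswap := integral_integral_swap (μ := μ) (ν := volume.restrict (Ioc (0 : ℝ) 1))
    (f := fun k t => u' (κ t * k)) hint
  have hinner : ∀ k : K, ∫ t in Ioc (0 : ℝ) 1, u' (κ t * k) = u (κ 1 * k) - u (κ 0 * k) := by
    intro k
    rw [← intervalIntegral.integral_of_le zero_le_one]
    refine intervalIntegral.integral_eq_sub_of_hasDerivAt (fun t _ => hd k t) ?_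
    apply Continuous.intervalIntegrable
    fun_prop
  have hleft : ∫ k, (∫ t in Ioc (0 : ℝ) 1, u' (κ t * k)) ∂μ = 0 := by
    simp_rw [hinner]
    have h1 : ∀ g : K, Integrable (fun k => u (g * k)) μ := by
      intro g
      have hc : Continuous (fun k => u (g * k)) := by fun_prop
      exact hc.integrable_of_hasCompactSupport (HasCompactSupport.of_compactSpace _)
    rw [integral_sub (h1 _) (h1 _), integral_mul_left_eq_self, integral_mul_left_eq_self, sub_self]
  have hright : ∫ t in Ioc (0 : ℝ) 1, (∫ k, u' (κ t * k) ∂μ) = ∫ k, u' k ∂μ := by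
    simp_rw [integral_mul_left_eq_self (μ := μ) (fun k => u' k)]
    simp
  rw [← hright, ← hswap, hleft]

end F31343
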