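import Mathlib
import Pool.Agent.Lib_MP_f31343.Ad

/-!
# Brackets of elements of `𝔭` lie in `𝔨`
-/

open Matrix NormedSpace Filter Topology Module
open scoped Matrix.Norms.Operator ContDiff

namespace F31343

section general

variable {A : Type*} [NormedRing A] [NormedAlgebra ℝ A]

omit [NormedAlgebra ℝ A] in
lemma norm_one_add_pow_le (R : A) (i : ℕ) : ‖(1 + R) ^ i‖ ≤ ‖(1 : A)‖ * (1 + ‖R‖) ^ i := by
  induction i with
  | zero => simp
  | succ i ih =>
    calc ‖(1 + R) ^ (i + 1)‖ = ‖(1 + R) ^ i + (1 + R) ^ i * R‖ := by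
          rw [pow_succ, mul_add, mul_one]
      _ ≤ ‖(1 + R) ^ i‖ + ‖(1 + R) ^ i‖ * ‖R‖ :=
          (norm_add_le _ _).trans (add_le_add le_rfl (norm_mul_le _ _))
      _ = ‖(1 + R) ^ i‖ * (1 + ‖R‖) := by ring
      _ ≤ ‖(1 : A)‖ * (1 + ‖R‖) ^ i * (1 + ‖R‖) :=
          mul_le_mul_of_nonneg_right ih (by positivity)
      _ = ‖(1 : A)‖ * (1 + ‖R‖) ^ (i + 1) := by rw [pow_succ]; ring

omit [NormedAlgebra ℝ A] in
lemma pow_bound {M : A} {c : ℝ} {N : ℕ} (hc : 0 ≤ c) (hN : 0 < N) (h : (N : ℝ) * ‖M - 1‖ ≤ c)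
    {i : ℕ} (hi : i ≤ N) : ‖M ^ i‖ ≤ ‖(1 : A)‖ * Real.exp c := by
  have h1 := norm_one_add_pow_le (M - 1) i
  rw [add_sub_cancel] at h1
  refine h1.trans (mul_le_mul_of_nonneg_left ?_ (norm_nonneg _))
  have hN' : (0 : ℝ) < N := by exact_mod_cast hN
  have h2 : 1 + ‖M - 1‖ ≤ Real.exp (c / N) := by
    have h3 : ‖M - 1‖ ≤ c / N := by
      rw [le_div_iff₀ hN', mul_comm]; exact h
    have h4 := Real.add_one_le_exp (c / N)
    linarith
  calc (1 + ‖M - 1‖) ^ i ≤ Real.exp (c / N) ^ i :=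
        pow_le_pow_left₀ (by positivity) h2 i
    _ = Real.exp (i * (c / N)) := by rw [← Real.exp_nat_mul]
    _ ≤ Real.exp c := by
        apply Real.exp_le_exp.mpr
        have h5 : (i : ℝ) ≤ N := by exact_mod_cast hi
        calc (i : ℝ) * (c / N) ≤ N * (c / N) := mul_le_mul_of_nonneg_right h5 (by positivity)
          _ = c := by field_simp

omit [NormedAlgebra ℝ A] in
lemma pow_sub_pow_bound {M E : A} {B : ℝ} {N : ℕ} (hB : 0 ≤ B) (hM : ∀ i ≤ N, ‖M ^ i‖ ≤ B)
    (hE : ∀ i ≤ N, ‖E ^ i‖ ≤ B) (i : ℕ) (hi : i ≤ N) :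
    ‖M ^ i - E ^ i‖ ≤ i * (B * ‖M - E‖ * B) := by
  have key : ∀ n : ℕ, M ^ n - E ^ n = ∑ j ∈ Finset.range n, M ^ j * (M - E) * E ^ (n - 1 - j) := by
    intro n
    induction n with
    | zero => simp
    | succ n ih =>
      rw [Finset.sum_range_succ]
      have e1 : ∑ j ∈ Finset.range n, M ^ j * (M - E) * E ^ (n + 1 - 1 - j)
          = (∑ j ∈ Finset.range n, M ^ j * (M - E) * E ^ (n - 1 - j)) * E := by
        rw [Finset.sum_mul]
        refine Finset.sum_congr rfl fun j hj => ?_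
        have hj' := Finset.mem_range.mp hj
        have e2 : n + 1 - 1 - j = (n - 1 - j) + 1 := by omega
        rw [e2, pow_succ, mul_assoc (M ^ j * (M - E))]
      rw [e1, ← ih]
      have e3 : n + 1 - 1 - n = 0 := by omega
      rw [e3, pow_zero, mul_one, pow_succ, pow_succ, sub_mul, mul_sub]
      abel
  rw [key i]
  refine (norm_sum_le _ _).trans ?_
  calc ∑ j ∈ Finset.range i, ‖M ^ j * (M - E) * E ^ (i - 1 - j)‖
      ≤ ∑ _j ∈ Finset.range i, B * ‖M - E‖ * B := by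
        refine Finset.sum_le_sum fun j hj => ?_
        have hj' := Finset.mem_range.mp hj
        have h1 : ‖M ^ j‖ ≤ B := hM j (by omega)
        have h2 : ‖E ^ (i - 1 - j)‖ ≤ B := hE _ (by omega)
        calc ‖M ^ j * (M - E) * E ^ (i - 1 - j)‖
            ≤ ‖M ^ j‖ * ‖M - E‖ * ‖E ^ (i - 1 - j)‖ :=
              (norm_mul_le _ _).trans (mul_le_mul_of_nonneg_right (norm_mul_le _ _)
                (norm_nonneg _))
          _ ≤ B * ‖M - E‖ * B := by
              refine mul_le_mul (mul_le_mul_of_nonneg_right h1 (norm_nonneg _)) h2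
                (norm_nonneg _) (by positivity)
    _ = i * (B * ‖M - E‖ * B) := by rw [Finset.sum_const, Finset.card_range, nsmul_eq_mul]

/-- If `N (M - 1)` and `N (E - 1)` have the same limit then `M^N - E^N` tends to zero. -/
lemma tendsto_pow_sub_pow {M E : ℕ → A} {N : ℕ → ℕ} {L : A} (hN : ∀ n, 0 < N n)
    (hM : Tendsto (fun n => (N n : ℝ) • (M n - 1)) atTop (𝓝 L))
    (hE : Tendsto (fun n => (N n : ℝ) • (E n - 1)) atTop (𝓝 L)) :
    Tendsto (fun n => M n ^ N n - E n ^ N n) atTop (𝓝 0) := by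
  obtain ⟨c1, hc1⟩ := hM.norm.bddAbove_range
  obtain ⟨c2, hc2⟩ := hE.norm.bddAbove_range
  let c : ℝ := max 0 (max c1 c2)
  have hc : 0 ≤ c := le_max_left _ _
  have h1 : ∀ n, (N n : ℝ) * ‖M n - 1‖ ≤ c := fun n => by
    have : ‖(N n : ℝ) • (M n - 1)‖ ≤ c1 := hc1 ⟨n, rfl⟩
    rw [norm_smul, Real.norm_of_nonneg (Nat.cast_nonneg _)] at this
    exact this.trans ((le_max_left _ _).trans (le_max_right _ _))
  have h2 : ∀ n, (N n : ℝ) * ‖E n - 1‖ ≤ c := fun n => by
    have : ‖(N n : ℝ) • (E n - 1)‖ ≤ c2 := hc2 ⟨n, rfl⟩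
    rw [norm_smul, Real.norm_of_nonneg (Nat.cast_nonneg _)] at this
    exact this.trans ((le_max_right _ _).trans (le_max_right _ _))
  let B : ℝ := ‖(1 : A)‖ * Real.exp c
  have hB : 0 ≤ B := by positivity
  have h3 : ∀ n, ‖M n ^ N n - E n ^ N n‖ ≤ B * B * ‖(N n : ℝ) • (M n - 1)
      - (N n : ℝ) • (E n - 1)‖ := by
    intro n
    have h4 := pow_sub_pow_bound (M := M n) (E := E n) hB (fun i hi => pow_bound hc (hN n) (h1 n) hi)
      (fun i hi => pow_bound hc (hN n) (h2 n) hi) (N n) le_rfl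
    refine h4.trans (le_of_eq ?_)
    rw [← smul_sub, norm_smul, Real.norm_of_nonneg (Nat.cast_nonneg _)]
    have e : M n - 1 - (E n - 1) = M n - E n := by abel
    rw [e]; ring
  have h5 : Tendsto (fun n => B * B * ‖(N n : ℝ) • (M n - 1) - (N n : ℝ) • (E n - 1)‖) atTop
      (𝓝 0) := by
    have := ((hM.sub hE).norm).const_mul (B * B)
    simpa using this
  exact squeeze_zero_norm h3 h5

end general

variable {ι : Type*} [Fintype ι] [DecidableEq ι] {G H : LinRed ι}

/-- `(exp(sX) - 1)/s → X`. -/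
lemma tendsto_exp_quot (X : Matrix ι ι ℝ) {s : ℕ → ℝ} (hs : Tendsto s atTop (𝓝 0))
    (hs0 : ∀ n, s n ≠ 0) :
    Tendsto (fun n => (s n)⁻¹ • (exp (s n • X) - 1)) atTop (𝓝 X) := by
  have h1 := (hasDerivAt_exp_zero X).tendsto_slope_zero
  have h2 : Tendsto s atTop (𝓝[≠] 0) :=
    tendsto_nhdsWithin_iff.mpr ⟨hs, Eventually.of_forall hs0⟩
  have h3 := h1.comp h2
  refine h3.congr fun n => ?_
  simp only [Function.comp, zero_add, zero_smul, exp_zero]

lemma tendsto_exp_smul (X : Matrix ι ι ℝ) {s : ℕ → ℝ} (hs : Tendsto s atTop (𝓝 0)) :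
    Tendsto (fun n => exp (s n • X)) atTop (𝓝 1) := by
  have h1 : Tendsto (fun n => s n • X) atTop (𝓝 ((0 : ℝ) • X)) := hs.smul_const X
  rw [zero_smul] at h1
  have h2 : Continuous (exp : Matrix ι ι ℝ → Matrix ι ι ℝ) := NormedSpace.exp_continuous
  have h3 := (h2.tendsto 0).comp h1
  rw [exp_zero] at h3
  exact h3

/-- The group commutator of `exp(X/n)` and `exp(Y/n)`. -/
noncomputable def gcomm (X Y : Matrix ι ι ℝ) (s : ℝ) : GL ι ℝ :=
  expU (s • X) * expU (s • Y) * (expU (s • X))⁻¹ * (expU (s • Y))⁻¹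

lemma gcomm_val (X Y : Matrix ι ι ℝ) (s : ℝ) :
    (gcomm X Y s).val = exp (s • X) * exp (s • Y) * exp (s • (-X)) * exp (s • (-Y)) := by
  unfold gcomm
  rw [← expU_neg, ← expU_neg]
  simp only [Units.val_mul, expU_val, smul_neg]

lemma exp_smul_neg_mul (X : Matrix ι ι ℝ) (s : ℝ) : exp (s • X) * exp (s • (-X)) = 1 := by
  have h1 := congrArg Units.val (expU_neg (s • X))
  rw [expU_val] at h1
  rw [smul_neg, h1, ← expU_val (s • X), Units.mul_inv]

lemma tendsto_gcomm (X Y : Matrix ι ι ℝ) {s : ℕ → ℝ} (hs : Tendsto s atTop (𝓝 0))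
    (hs0 : ∀ n, s n ≠ 0) :
    Tendsto (fun n => ((s n)⁻¹ * (s n)⁻¹) • ((gcomm X Y (s n)).val - 1)) atTop
      (𝓝 (X * Y - Y * X)) := by
  have ha := tendsto_exp_quot X hs hs0
  have hb := tendsto_exp_quot Y hs hs0
  have hc := (tendsto_exp_smul (-X) hs).mul (tendsto_exp_smul (-Y) hs)
  have h1 := ((ha.mul hb).sub (hb.mul ha)).mul hc
  rw [mul_one, mul_one] at h1
  refine h1.congr fun n => ?_
  have e1 : (gcomm X Y (s n)).val - 1
      = (exp (s n • X) * exp (s n • Y) - exp (s n • Y) * exp (s n • X))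
        * (exp (s n • (-X)) * exp (s n • (-Y))) := by
    rw [gcomm_val, sub_mul]
    have e2 : exp (s n • Y) * exp (s n • X) * (exp (s n • (-X)) * exp (s n • (-Y))) = 1 := by
      calc exp (s n • Y) * exp (s n • X) * (exp (s n • (-X)) * exp (s n • (-Y)))
          = exp (s n • Y) * (exp (s n • X) * exp (s n • (-X))) * exp (s n • (-Y)) := by
            simp only [mul_assoc]
        _ = 1 := by rw [exp_smul_neg_mul, mul_one, exp_smul_neg_mul]
    rw [e2]
    simp only [mul_assoc]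
  rw [e1]
  have e3 : (s n)⁻¹ • (exp (s n • X) - 1) * ((s n)⁻¹ • (exp (s n • Y) - 1))
      - (s n)⁻¹ • (exp (s n • Y) - 1) * ((s n)⁻¹ • (exp (s n • X) - 1))
      = ((s n)⁻¹ * (s n)⁻¹) • (exp (s n • X) * exp (s n • Y) - exp (s n • Y) * exp (s n • X)) := by
    simp only [smul_mul_assoc, mul_smul_comm, smul_smul, ← smul_sub]
    congr 1
    noncomm_ring
  rw [e3, smul_mul_assoc]

/-- **Brackets of elements of `𝔭` lie in `𝔨`.** -/
theorem brk_mem_k {X Y : Matrix ι ι ℝ} (hX : X ∈ G.𝔭) (hY : Y ∈ G.𝔭) :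
    X * Y - Y * X ∈ G.𝔨 := by
  -- the case `t = 1`
  have main : ∀ X ∈ G.𝔭, expU (X * Y - Y * X) ∈ G.grp := by
    intro X hX
    let s : ℕ → ℝ := fun n => 1 / ((n : ℝ) + 1)
    have hs : Tendsto s atTop (𝓝 0) := tendsto_one_div_add_atTop_nhds_zero_nat
    have hs0 : ∀ n, s n ≠ 0 := fun n => by simp only [s]; positivity
    let N : ℕ → ℕ := fun n => (n + 1) * (n + 1)
    have hN : ∀ n, 0 < N n := fun n => by simp only [N]; positivity
    have hNs : ∀ n, ((s n)⁻¹ * (s n)⁻¹) = (N n : ℝ) := fun n => by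
      simp only [s, N]; push_cast; field_simp
    have hM := tendsto_gcomm X Y hs hs0
    simp only [hNs] at hM
    have hE : Tendsto (fun n => (N n : ℝ) • (exp (((N n : ℝ)⁻¹) • (X * Y - Y * X)) - 1)) atTop
        (𝓝 (X * Y - Y * X)) := by
      have h1 : Tendsto (fun n => ((N n : ℝ)⁻¹)) atTop (𝓝 0) := by
        have h2 := hs.mul hs
        rw [mul_zero] at h2
        refine h2.congr fun n => ?_
        rw [← hNs n, mul_inv, inv_inv]
      have h3 := tendsto_exp_quot (X * Y - Y * X) h1 (fun n => by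
        have := hN n; positivity)
      simpa only [inv_inv] using h3
    have h4 := tendsto_pow_sub_pow hN hM hE
    have h5 : ∀ n, exp (((N n : ℝ)⁻¹) • (X * Y - Y * X)) ^ N n = exp (X * Y - Y * X) := by
      intro n
      rw [← Matrix.exp_nsmul]
      congr 1
      have hpos : (N n : ℝ) ≠ 0 := by have := hN n; positivity
      rw [← Nat.cast_smul_eq_nsmul ℝ, smul_smul, mul_inv_cancel₀ hpos, one_smul]
    simp only [h5] at h4
    have h6 : Tendsto (fun n => ((gcomm X Y (s n)) ^ N n).val) atTop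
        (𝓝 (exp (X * Y - Y * X))) := by
      have h7 := h4.add_const (exp (X * Y - Y * X))
      simp only [sub_add_cancel, zero_add] at h7
      refine h7.congr fun n => ?_
      rw [Units.val_pow_eq_pow_val]
    have h8 : Tendsto (fun n => (gcomm X Y (s n)) ^ N n) atTop (𝓝 (expU (X * Y - Y * X))) := by
      rw [isOpenEmbedding_val.isEmbedding.tendsto_nhds_iff]
      exact h6
    refine G.isClosed.mem_of_tendsto h8 (Eventually.of_forall fun n => ?_)
    have hg : gcomm X Y (s n) ∈ G.grp := by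
      have a1 : expU (s n • X) ∈ G.grp := expU_mem (G.𝔭.smul_mem _ hX)
      have a2 : expU (s n • Y) ∈ G.grp := expU_mem (G.𝔭.smul_mem _ hY)
      exact G.grp.mul_mem (G.grp.mul_mem (G.grp.mul_mem a1 a2) (G.grp.inv_mem a1))
        (G.grp.inv_mem a2)
    exact G.grp.pow_mem hg _
  intro t g hg
  have e1 : t • (X * Y - Y * X) = (t • X) * Y - Y * (t • X) := by
    rw [smul_sub, smul_mul_assoc, mul_smul_comm]
  have hgU : g = expU ((t • X) * Y - Y * (t • X)) := by
    apply Units.ext; rw [hg, expU_val, e1]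
  refine ⟨?_, ?_⟩
  · rw [hgU]; exact main _ (G.𝔭.smul_mem t hX)
  · have hskew : (t • (X * Y - Y * X))ᵀ = -(t • (X * Y - Y * X)) := by
      rw [transpose_smul, transpose_sub, transpose_mul, transpose_mul, G.symm X hX, G.symm Y hY,
        ← smul_neg, neg_sub]
    rw [hg, ← Matrix.exp_transpose, hskew]
    have h1 := congrArg Units.val (expU_neg (t • (X * Y - Y * X)))
    rw [expU_val] at h1
    rw [h1, ← expU_val (t • (X * Y - Y * X)), Units.inv_mul]

end F31343
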