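import Mathlib
import Pool.Agent.Lib_MP_f31343.Commutator

/-!
# The kernel of a pair

`ker0 G H` is the largest `K`-invariant subspace of `𝔭_G` contained in `𝔭_H`, and `red G H` its
orthogonal complement in `𝔭_G`.  The two commute.
-/

open Matrix NormedSpace Filter Topology Module
open scoped Matrix.Norms.Operator ContDiff

namespace F31343

/-- Orthonormal families for a positive definite form. -/
lemma exists_onb {V : Type*} [AddCommGroup V] [Module ℝ V] [FiniteDimensional ℝ V]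
    (B : V →ₗ[ℝ] V →ₗ[ℝ] ℝ) (hs : ∀ x y, B x y = B y x) (hp : ∀ x, x ≠ 0 → 0 < B x x) :
    ∃ (n : ℕ) (b : Fin n → V), (∀ x, x = ∑ i, B (b i) x • b i) ∧
      ∀ a : V →ₗ[ℝ] V, LinearMap.trace ℝ V a = ∑ i, B (b i) (a (b i)) := by
  let c : InnerProductSpace.Core ℝ V :=
    { inner := fun x y => B x y
      conj_inner_symm := fun x y => by
        show B y x = B x y
        exact hs y x
      re_inner_nonneg := fun x => by
        show 0 ≤ B x x
        rcases eq_or_ne x 0 with h | h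
        · rw [h]; simp
        · exact (hp x h).le
      add_left := fun x y z => by
        show B (x + y) z = B x z + B y z
        simp
      smul_left := fun x y r => by
        show B (r • x) y = r * B x y
        simp
      definite := fun x hx => by
        by_contra h
        have h1 := hp x h
        have h2 : B x x = 0 := hx
        rw [h2] at h1
        exact lt_irrefl _ h1 }
  let _ : NormedAddCommGroup V := c.toNormedAddCommGroup
  let _ : InnerProductSpace ℝ V := InnerProductSpace.ofCore c.toCore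
  let b := stdOrthonormalBasis ℝ V
  refine ⟨_, b, fun x => ?_, fun a => ?_⟩
  · exact (b.sum_repr' x).symm
  · exact LinearMap.trace_eq_sum_inner a b

variable {ι : Type*} [Fintype ι] [DecidableEq ι]

omit [DecidableEq ι] in
lemma trace_tm_nonneg (X : Matrix ι ι ℝ) : 0 ≤ (Xᵀ * X).trace := by
  rw [Matrix.trace]
  refine Finset.sum_nonneg fun i _ => ?_
  rw [diag_apply, mul_apply]
  exact Finset.sum_nonneg fun j _ => by rw [transpose_apply]; exact mul_self_nonneg _

omit [DecidableEq ι] in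
lemma eq_zero_of_trace_tm {X : Matrix ι ι ℝ} (h : (Xᵀ * X).trace = 0) : X = 0 := by
  rw [Matrix.trace] at h
  have h1 := (Finset.sum_eq_zero_iff_of_nonneg (fun i _ => by
    rw [diag_apply, mul_apply]
    exact Finset.sum_nonneg fun j _ => by rw [transpose_apply]; exact mul_self_nonneg _)).mp h
  ext j i
  have h2 := h1 i (Finset.mem_univ i)
  rw [diag_apply, mul_apply] at h2
  have h3 := (Finset.sum_eq_zero_iff_of_nonneg (fun j _ => by
    rw [transpose_apply]; exact mul_self_nonneg _)).mp h2 j (Finset.mem_univ j)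
  rw [transpose_apply] at h3
  simpa using h3

/-- The trace form on a space of matrices. -/
noncomputable def trS (S : Submodule ℝ (Matrix ι ι ℝ)) : S →ₗ[ℝ] S →ₗ[ℝ] ℝ :=
  LinearMap.mk₂ ℝ (fun X Y => (X.1 * Y.1).trace)
    (fun X X' Y => by simp [add_mul])
    (fun c X Y => by simp)
    (fun X Y Y' => by simp [mul_add])
    (fun c X Y => by simp)

lemma trS_apply (S : Submodule ℝ (Matrix ι ι ℝ)) (X Y : S) :
    trS S X Y = (X.1 * Y.1).trace := rfl

lemma trS_pos (S : Submodule ℝ (Matrix ι ι ℝ)) (hS : ∀ X ∈ S, Xᵀ = X) (X : S) (hX : X ≠ 0) :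
    0 < trS S X X := by
  rw [trS_apply]
  have h1 := hS X.1 X.2
  have h2 := trace_tm_nonneg X.1
  rw [h1] at h2
  rcases h2.lt_or_eq with h | h
  · exact h
  · exfalso
    have h3 : (X.1ᵀ * X.1).trace = 0 := by rw [h1]; exact h.symm
    exact hX (Subtype.ext (eq_zero_of_trace_tm h3))

variable (G H : LinRed ι)

/-- The largest `K`-invariant subspace of `𝔭_G` contained in `𝔭_H`. -/
def ker0 : Submodule ℝ (Matrix ι ι ℝ) where
  carrier := {X | X ∈ G.𝔭 ∧ ∀ k ∈ G.K, k.valᵀ * X * k.val ∈ H.𝔭}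
  add_mem' := by
    rintro X Y ⟨hX, hX'⟩ ⟨hY, hY'⟩
    refine ⟨G.𝔭.add_mem hX hY, fun k hk => ?_⟩
    rw [mul_add, add_mul]
    exact H.𝔭.add_mem (hX' k hk) (hY' k hk)
  zero_mem' := ⟨G.𝔭.zero_mem, fun k _ => by rw [mul_zero, zero_mul]; exact H.𝔭.zero_mem⟩
  smul_mem' := by
    rintro c X ⟨hX, hX'⟩
    refine ⟨G.𝔭.smul_mem c hX, fun k hk => ?_⟩
    rw [mul_smul_comm, smul_mul_assoc]
    exact H.𝔭.smul_mem c (hX' k hk)

/-- Its orthogonal complement in `𝔭_G`. -/
def red : Submodule ℝ (Matrix ι ι ℝ) where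
  carrier := {X | X ∈ G.𝔭 ∧ ∀ Y ∈ ker0 G H, (X * Y).trace = 0}
  add_mem' := by
    rintro X Y ⟨hX, hX'⟩ ⟨hY, hY'⟩
    refine ⟨G.𝔭.add_mem hX hY, fun Z hZ => ?_⟩
    rw [add_mul, trace_add, hX' Z hZ, hY' Z hZ, add_zero]
  zero_mem' := ⟨G.𝔭.zero_mem, fun Z _ => by rw [zero_mul, trace_zero]⟩
  smul_mem' := by
    rintro c X ⟨hX, hX'⟩
    refine ⟨G.𝔭.smul_mem c hX, fun Z hZ => ?_⟩
    rw [smul_mul_assoc, trace_smul, hX' Z hZ, smul_zero]

variable {G H}

lemma red_le {X : Matrix ι ι ℝ} (hX : X ∈ red G H) : X ∈ G.𝔭 := hX.1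

lemma isClosed_red (G H : LinRed ι) : IsClosed (red G H : Set (Matrix ι ι ℝ)) :=
  (red G H).closed_of_finiteDimensional

/-- An element of both is zero. -/
lemma eq_zero_of_ker0_red {X : Matrix ι ι ℝ} (h0 : X ∈ ker0 G H) (h : X ∈ red G H) : X = 0 := by
  apply eq_zero_of_trace_tm
  rw [G.symm X h.1]
  exact h.2 X h0

lemma exists_dec {X : Matrix ι ι ℝ} (hX : X ∈ G.𝔭) :
    ∃ Y ∈ ker0 G H, ∃ Z ∈ red G H, X = Z + Y := by
  obtain ⟨n, b, hb, -⟩ := exists_onb (trS (ker0 G H))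
    (fun x y => by rw [trS_apply, trS_apply, trace_mul_comm])
    (trS_pos _ fun X hX => G.symm X hX.1)
  have hY : ∑ i, (X * (b i).1).trace • (b i).1 ∈ ker0 G H :=
    Submodule.sum_mem _ fun i _ => Submodule.smul_mem _ _ (b i).2
  refine ⟨_, hY, X - ∑ i, (X * (b i).1).trace • (b i).1, ⟨G.𝔭.sub_mem hX hY.1, ?_⟩,
    (sub_add_cancel _ _).symm⟩
  intro y hy
  have h1 := congrArg Subtype.val (hb ⟨y, hy⟩)
  rw [AddSubmonoidClass.coe_finsetSum] at h1
  have h2 : y = ∑ i, ((b i).1 * y).trace • (b i).1 := h1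
  have h3 : (X * y).trace = ∑ i, ((b i).1 * y).trace * (X * (b i).1).trace := by
    conv_lhs => rw [h2]
    rw [Finset.mul_sum, trace_sum]
    refine Finset.sum_congr rfl fun i _ => ?_
    rw [mul_smul_comm, trace_smul, smul_eq_mul]
  rw [sub_mul, trace_sub, h3, Finset.sum_mul, trace_sum, sub_eq_zero]
  refine Finset.sum_congr rfl fun i _ => ?_
  rw [smul_mul_assoc, trace_smul, smul_eq_mul, mul_comm]

lemma ker0_conj {Y : Matrix ι ι ℝ} (hY : Y ∈ ker0 G H) {k : GL ι ℝ} (hk : k ∈ G.K) :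
    k.valᵀ * Y * k.val ∈ ker0 G H := by
  refine ⟨conj_mem_p' hk hY.1, fun k' hk' => ?_⟩
  have h1 := hY.2 (k * k') (G.K.mul_mem hk hk')
  rw [Units.val_mul, transpose_mul] at h1
  have e : k'.valᵀ * (k.valᵀ * Y * k.val) * k'.val
      = k'.valᵀ * k.valᵀ * Y * (k.val * k'.val) := by simp only [mul_assoc]
  rw [e]; exact h1

lemma ker0_ad {A : Matrix ι ι ℝ} (hA : A ∈ G.𝔨) {Y : Matrix ι ι ℝ} (hY : Y ∈ ker0 G H) :
    A * Y - Y * A ∈ ker0 G H := by
  have h1 := hasDerivAt_conj hA Y 0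
  have h2 := deriv_mem (ker0 G H) (ker0 G H).closed_of_finiteDimensional h1 (fun s => by
    have h3 := ker0_conj hY (G.K.inv_mem (expU_mem_K hA s))
    rw [K_inv_val (expU_mem_K hA s), transpose_transpose, expU_val, mul_assoc] at h3
    exact h3)
  simpa using h2

/-- The kernel commutes with its orthogonal complement. -/
lemma ker0_comm {Y Z : Matrix ι ι ℝ} (hY : Y ∈ ker0 G H) (hZ : Z ∈ red G H) :
    Y * Z = Z * Y := by
  rw [← sub_eq_zero]
  apply eq_zero_of_trace_tm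
  have hA : Y * Z - Z * Y ∈ G.𝔨 := brk_mem_k hY.1 hZ.1
  have h1 := hZ.2 _ (ker0_ad hA hY)
  have hT : (Y * Z - Z * Y)ᵀ = -(Y * Z - Z * Y) := transpose_of_mem_k hA
  rw [hT]
  have h2 : ∀ A : Matrix ι ι ℝ, (Z * (A * Y - Y * A)).trace = 0 →
      (-A * (Y * Z - Z * Y)).trace = 0 := by
    intro A hA0
    have e1 : (A * (Y * Z)).trace = (Z * (A * Y)).trace := by
      rw [← mul_assoc, trace_mul_comm]
    have e2 : (A * (Z * Y)).trace = (Z * (Y * A)).trace := by
      rw [trace_mul_comm, mul_assoc]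
    rw [mul_sub, trace_sub] at hA0
    rw [neg_mul, trace_neg, mul_sub, trace_sub, e1, e2, hA0, neg_zero]
  exact h2 _ h1

lemma ker0_le {Y : Matrix ι ι ℝ} (hY : Y ∈ ker0 G H) {k : GL ι ℝ} (hk : k ∈ G.K) :
    k.valᵀ * Y * k.val ∈ H.𝔭 := hY.2 k hk

end F31343
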