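import Mathlib
import Pool.Agent.Lib_MP_f31343.Kernel

/-!
# The linear maps attached to a fibre of a local geometric fibration
-/

open Matrix NormedSpace Filter Topology Module
open scoped Matrix.Norms.Operator ContDiff

namespace F31343

variable {ι : Type*} [Fintype ι] [DecidableEq ι] {G H : LinRed ι}

/-- The base fibre `g₀ K · o` over the point `b₀`. -/
structure BaseFibre (F : LocalGeometricFibration G H) where
  g₀ : GL ι ℝ
  b₀ : EuclideanSpace ℝ (Fin (codim G H))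
  mem_G : g₀ ∈ G.grp
  mem : ∀ k ∈ G.K, ∀ h ∈ H.grp, g₀ * k * h ∈ F.U ∧ F.π (g₀ * k * h).val = b₀
  conv : ∀ g ∈ F.U, F.π g.val = b₀ → ∃ k ∈ G.K, ∃ h ∈ H.grp, g = g₀ * k * h

lemma exists_baseFibre (F : LocalGeometricFibration G H) : Nonempty (BaseFibre F) := by
  obtain ⟨g, hg⟩ := F.nonempty
  obtain ⟨g₀, hg₀, hset⟩ := F.fibre g hg
  refine ⟨⟨g₀, F.π g.val, hg₀, ?_, ?_⟩⟩
  · intro k hk h hh
    exact (hset _).mpr ⟨k, hk, h, hh, rfl⟩
  · intro g' hg' hπ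
    exact (hset g').mp ⟨hg', hπ⟩

variable {F : LocalGeometricFibration G H}

/-- The derivative of `π` at `g₀ k` in the direction `g₀ X k`. -/
noncomputable def ell (B : BaseFibre F) (k : GL ι ℝ) :
    Matrix ι ι ℝ →ₗ[ℝ] EuclideanSpace ℝ (Fin (codim G H)) :=
  (fderiv ℝ F.π (B.g₀ * k).val : Matrix ι ι ℝ →ₗ[ℝ] _) ∘ₗ
    (LinearMap.mulLeft ℝ B.g₀.val) ∘ₗ (LinearMap.mulRight ℝ k.val)

lemma ell_apply (B : BaseFibre F) (k : GL ι ℝ) (X : Matrix ι ι ℝ) :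
    ell B k X = fderiv ℝ F.π (B.g₀ * k).val (B.g₀.val * (X * k.val)) := rfl

lemma base_mem (B : BaseFibre F) {k : GL ι ℝ} (hk : k ∈ G.K) :
    B.g₀ * k ∈ F.U ∧ F.π (B.g₀ * k).val = B.b₀ := by
  have := B.mem k hk 1 H.grp.one_mem
  rwa [mul_one] at this

lemma hasFDerivAt_pi (F : LocalGeometricFibration G H) {g : GL ι ℝ} (hg : g ∈ F.U) :
    HasFDerivAt F.π (fderiv ℝ F.π g.val) g.val :=
  (ContDiffAt.differentiableAt (F.smooth g hg) (by simp)).hasFDerivAt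

set_option backward.isDefEq.respectTransparency false in
lemma hasDerivAt_mul_exp (M Z : Matrix ι ι ℝ) :
    HasDerivAt (fun t : ℝ => M * exp (t • Z)) (M * Z) 0 :=
  (hasDerivAt_exp_zero Z).const_mul M

/-- A direction which stays in the fibre is killed by the derivative of `π`. -/
lemma fderiv_eq_zero (B : BaseFibre F) {k : GL ι ℝ} (hk : k ∈ G.K) (Z : Matrix ι ι ℝ)
    (h : ∀ t : ℝ, F.π ((B.g₀ * k).val * exp (t • Z)) = B.b₀) :
    fderiv ℝ F.π (B.g₀ * k).val ((B.g₀ * k).val * Z) = 0 := by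
  have h1 := hasFDerivAt_pi F (base_mem B hk).1
  have h2 := hasDerivAt_mul_exp (B.g₀ * k).val Z
  have h3 : HasFDerivAt F.π (fderiv ℝ F.π (B.g₀ * k).val)
      ((fun t : ℝ => (B.g₀ * k).val * exp (t • Z)) 0) := by
    simpa using h1
  have h4 := h3.comp_hasDerivAt (0 : ℝ) h2
  have h5 : HasDerivAt (F.π ∘ fun t : ℝ => (B.g₀ * k).val * exp (t • Z)) 0 0 := by
    have : (F.π ∘ fun t : ℝ => (B.g₀ * k).val * exp (t • Z)) = fun _ => B.b₀ := by
      funext t; exact h t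
    rw [this]; exact hasDerivAt_const _ _
  exact h4.unique h5

lemma fderiv_p_eq_zero (B : BaseFibre F) {k : GL ι ℝ} (hk : k ∈ G.K) {Y : Matrix ι ι ℝ}
    (hY : Y ∈ H.𝔭) : fderiv ℝ F.π (B.g₀ * k).val ((B.g₀ * k).val * Y) = 0 := by
  refine fderiv_eq_zero B hk Y fun t => ?_
  exact (B.mem k hk (expU (t • Y)) (expU_mem (H.𝔭.smul_mem t hY))).2

lemma fderiv_k_eq_zero (B : BaseFibre F) {k : GL ι ℝ} (hk : k ∈ G.K) {A : Matrix ι ι ℝ}
    (hA : A ∈ G.𝔨) : fderiv ℝ F.π (B.g₀ * k).val ((B.g₀ * k).val * A) = 0 := by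
  refine fderiv_eq_zero B hk A fun t => ?_
  have hkA : k * expU (t • A) ∈ G.K := G.K.mul_mem hk (hA t _ rfl)
  have := (base_mem B hkA).2
  rw [← mul_assoc] at this
  exact this

lemma ell_surj (B : BaseFibre F) {k : GL ι ℝ} (hk : k ∈ G.K)
    (v : EuclideanSpace ℝ (Fin (codim G H))) :
    ∃ X ∈ G.𝔭, ell B k X = v := by
  obtain ⟨A, hA, X, hX, h⟩ := F.submersion _ (base_mem B hk).1 v
  unfold dirDeriv at h
  refine ⟨k.val * X * k.valᵀ, conj_mem_p hk hX, ?_⟩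
  rw [ell_apply]
  have e : B.g₀.val * (k.val * X * k.valᵀ * k.val) = (B.g₀ * k).val * X := by
    rw [mul_assoc (k.val * X), K_orth hk, mul_one, Units.val_mul, mul_assoc]
  rw [e, ← h, mul_add, map_add, fderiv_k_eq_zero B hk hA, zero_add]

lemma ell_eq_zero_of_mem (B : BaseFibre F) {k : GL ι ℝ} (hk : k ∈ G.K) {X : Matrix ι ι ℝ}
    (hX : k.valᵀ * X * k.val ∈ H.𝔭) : ell B k X = 0 := by
  rw [ell_apply]
  have e : B.g₀.val * (X * k.val) = (B.g₀ * k).val * (k.valᵀ * X * k.val) := by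
    rw [Units.val_mul]
    calc B.g₀.val * (X * k.val) = B.g₀.val * ((k.val * k.valᵀ) * (X * k.val)) := by
          rw [K_orth' hk, one_mul]
      _ = _ := by simp only [mul_assoc]
  rw [e]
  exact fderiv_p_eq_zero B hk hX

/-- The kernel of `ell B k` on `𝔭_G` is `Ad(k) 𝔭_H`. -/
lemma mem_of_ell_eq_zero (hHG : H.grp ≤ G.grp) (B : BaseFibre F) {k : GL ι ℝ} (hk : k ∈ G.K)
    {X : Matrix ι ι ℝ} (hX : X ∈ G.𝔭) (h : ell B k X = 0) : k.valᵀ * X * k.val ∈ H.𝔭 := by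
  -- the restriction to `𝔭_G`
  let A : G.𝔭 →ₗ[ℝ] EuclideanSpace ℝ (Fin (codim G H)) :=
    (ell B k).domRestrict G.𝔭
  have hA : LinearMap.range A = ⊤ := by
    rw [LinearMap.range_eq_top]
    intro v
    obtain ⟨X, hX, h⟩ := ell_surj B hk v
    exact ⟨⟨X, hX⟩, h⟩
  let cj : Matrix ι ι ℝ →ₗ[ℝ] Matrix ι ι ℝ :=
    (LinearMap.mulLeft ℝ k.valᵀ) ∘ₗ (LinearMap.mulRight ℝ k.val)
  have cj_apply : ∀ X, cj X = k.valᵀ * (X * k.val) := fun X => rfl
  let S : Submodule ℝ G.𝔭 := (H.𝔭.comap cj).comap G.𝔭.subtype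
  have hSk : S ≤ LinearMap.ker A := by
    intro X hX
    rw [LinearMap.mem_ker]
    have hX' : k.valᵀ * (X.1 * k.val) ∈ H.𝔭 := hX
    rw [← mul_assoc] at hX'
    exact ell_eq_zero_of_mem B hk hX'
  -- an injection from `𝔭_H` into `S`
  let cj' : Matrix ι ι ℝ →ₗ[ℝ] Matrix ι ι ℝ :=
    (LinearMap.mulLeft ℝ k.val) ∘ₗ (LinearMap.mulRight ℝ k.valᵀ)
  have hcc : ∀ Y, cj (cj' Y) = Y := by
    intro Y
    show k.valᵀ * ((k.val * (Y * k.valᵀ)) * k.val) = Y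
    calc k.valᵀ * ((k.val * (Y * k.valᵀ)) * k.val)
        = (k.valᵀ * k.val) * Y * (k.valᵀ * k.val) := by simp only [mul_assoc]
      _ = Y := by rw [K_orth hk, one_mul, mul_one]
  let j : H.𝔭 →ₗ[ℝ] S :=
    LinearMap.codRestrict S
      (LinearMap.codRestrict G.𝔭 (cj' ∘ₗ H.𝔭.subtype) (fun Y => by
        have := conj_mem_p hk (p_mono hHG Y.2)
        rw [mul_assoc] at this
        exact this))
      (fun Y => by
        show cj (cj' Y.1) ∈ H.𝔭
        rw [hcc]; exact Y.2)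
  have hj : Function.Injective j := by
    intro Y Y' hYY
    have h1 : cj' Y.1 = cj' Y'.1 := congrArg (fun z : S => (z.1.1 : Matrix ι ι ℝ)) hYY
    have h2 := congrArg cj h1
    rw [hcc, hcc] at h2
    exact Subtype.ext h2
  have h1 : finrank ℝ H.𝔭 ≤ finrank ℝ S := LinearMap.finrank_le_finrank_of_injective hj
  have h2 : finrank ℝ H.𝔭 ≤ finrank ℝ G.𝔭 :=
    h1.trans (Submodule.finrank_le S)
  have h3 := LinearMap.finrank_range_add_finrank_ker A
  rw [hA, finrank_top, finrank_euclideanSpace_fin] at h3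
  have hcd : codim G H = finrank ℝ G.𝔭 - finrank ℝ H.𝔭 := rfl
  have h4 : finrank ℝ (LinearMap.ker A) = finrank ℝ H.𝔭 := by omega
  have h5 : S = LinearMap.ker A :=
    Submodule.eq_of_le_of_finrank_le hSk (by rw [h4]; exact h1)
  have h6 : (⟨X, hX⟩ : G.𝔭) ∈ LinearMap.ker A := by
    rw [LinearMap.mem_ker]; exact h
  rw [← h5] at h6
  have h7 : k.valᵀ * (X * k.val) ∈ H.𝔭 := h6
  rw [mul_assoc]; exact h7

/-- The linear maps `ell B k` together control the reduced part of `𝔭_G`. -/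
lemma exists_coercive (hHG : H.grp ≤ G.grp) (B : BaseFibre F) :
    ∃ (T : Finset (GL ι ℝ)) (c : ℝ), 0 < c ∧ (∀ k ∈ T, k ∈ G.K) ∧
      ∀ X ∈ red G H, c * ‖X‖ ≤ ∑ k ∈ T, ‖ell B k X‖ := by
  classical
  have hcont : ∀ k : GL ι ℝ, Continuous (fun X : red G H => ell B k X.1) := fun k =>
    (LinearMap.continuous_of_finiteDimensional (ell B k)).comp continuous_subtype_val
  have hne : ∀ X : red G H, X ≠ 0 → ∃ k ∈ G.K, ell B k X.1 ≠ 0 := by
    intro X hX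
    by_contra hcon
    push Not at hcon
    apply hX
    apply Subtype.ext
    exact eq_zero_of_ker0_red ⟨X.2.1, fun k hk => mem_of_ell_eq_zero hHG B hk X.2.1 (hcon k hk)⟩
      X.2
  have hcomp : IsCompact (Metric.sphere (0 : red G H) 1) := isCompact_sphere _ _
  obtain ⟨T, hT⟩ := hcomp.elim_finite_subcover
    (fun k : G.K => {X : red G H | ell B k.1 X.1 ≠ 0})
    (fun k => isOpen_ne_fun (hcont k.1) continuous_const)
    (by
      intro X hX
      have hX0 : X ≠ 0 := by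
        rintro rfl
        simp at hX
      obtain ⟨k, hk, h⟩ := hne X hX0
      exact Set.mem_iUnion.mpr ⟨⟨k, hk⟩, h⟩)
  let T' : Finset (GL ι ℝ) := T.image Subtype.val
  have hT' : ∀ k ∈ T', k ∈ G.K := by
    intro k hk
    obtain ⟨k', -, rfl⟩ := Finset.mem_image.mp hk
    exact k'.2
  have hΦ : Continuous (fun X : red G H => ∑ k ∈ T', ‖ell B k X.1‖) :=
    continuous_finsetSum _ fun k _ => (hcont k).norm
  have hpos : ∀ X ∈ Metric.sphere (0 : red G H) 1, 0 < ∑ k ∈ T', ‖ell B k X.1‖ := by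
    intro X hX
    obtain ⟨k, hk, h⟩ := Set.mem_iUnion₂.mp (hT hX)
    refine Finset.sum_pos' (fun _ _ => norm_nonneg _) ⟨k.1, ?_, ?_⟩
    · exact Finset.mem_image.mpr ⟨k, hk, rfl⟩
    · exact norm_pos_iff.mpr h
  -- lower bound on the sphere
  obtain ⟨c, hc, hcb⟩ : ∃ c, 0 < c ∧ ∀ X ∈ Metric.sphere (0 : red G H) 1,
      c ≤ ∑ k ∈ T', ‖ell B k X.1‖ := by
    rcases (Metric.sphere (0 : red G H) 1).eq_empty_or_nonempty with he | hn
    · exact ⟨1, one_pos, fun X hX => by rw [he] at hX; exact absurd hX (Set.notMem_empty X)⟩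
    · obtain ⟨X₀, hX₀, hmin⟩ := hcomp.exists_isMinOn hn hΦ.continuousOn
      exact ⟨_, hpos X₀ hX₀, fun X hX => hmin hX⟩
  refine ⟨T', c, hc, hT', fun X hX => ?_⟩
  by_cases h0 : X = 0
  · subst h0; simp
  · have hn : ‖X‖ ≠ 0 := norm_ne_zero_iff.mpr h0
    have hs : (‖X‖⁻¹ • (⟨X, hX⟩ : red G H)) ∈ Metric.sphere (0 : red G H) 1 := by
      rw [mem_sphere_zero_iff_norm, norm_smul, norm_inv, norm_norm]
      exact inv_mul_cancel₀ hn
    have h1 := hcb _ hs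
    have h2 : ∑ k ∈ T', ‖ell B k (‖X‖⁻¹ • (⟨X, hX⟩ : red G H)).1‖
        = ‖X‖⁻¹ * ∑ k ∈ T', ‖ell B k X‖ := by
      rw [Finset.mul_sum]
      refine Finset.sum_congr rfl fun k _ => ?_
      have : (‖X‖⁻¹ • (⟨X, hX⟩ : red G H)).1 = ‖X‖⁻¹ • X := rfl
      rw [this, map_smul, norm_smul, norm_inv, norm_norm]
    rw [h2] at h1
    have hpos' : 0 < ‖X‖ := norm_pos_iff.mpr h0
    rw [inv_mul_eq_div, le_div_iff₀ hpos'] at h1
    exact h1

end F31343
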