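import Mathlib
import Pool.Agent.Lib_MP_f31343.Ell

/-!
# Nearby fibres of a local geometric fibration
-/

open Matrix NormedSpace Filter Topology Module
open scoped Matrix.Norms.Operator ContDiff

namespace F31343

variable {ι : Type*} [Fintype ι] [DecidableEq ι] {G H : LinRed ι} {F : LocalGeometricFibration G H}

/-- `w` is reduced and `g₀ exp(w) K · o` lies in the fibre over `b`. -/
def Hit (B : BaseFibre F) (b : EuclideanSpace ℝ (Fin (codim G H)))
    (w : Matrix ι ι ℝ) : Prop :=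
  w ∈ red G H ∧ ∀ k ∈ G.K, B.g₀ * expU w * k ∈ F.U ∧ F.π (B.g₀ * expU w * k).val = b

set_option backward.isDefEq.respectTransparency false in
lemma hasStrictFDerivAt_exp0 :
    HasStrictFDerivAt (exp : Matrix ι ι ℝ → Matrix ι ι ℝ)
      (ContinuousLinearMap.id ℝ (Matrix ι ι ℝ)) 0 :=
  hasStrictFDerivAt_exp_zero (𝕂 := ℝ)

/-- `X ↦ A X B` as a continuous linear map. -/
noncomputable def sand (A B : Matrix ι ι ℝ) : Matrix ι ι ℝ →L[ℝ] Matrix ι ι ℝ :=
  LinearMap.toContinuousLinearMap ((LinearMap.mulLeft ℝ A) ∘ₗ (LinearMap.mulRight ℝ B))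

lemma sand_apply (A B X : Matrix ι ι ℝ) : sand A B X = A * (X * B) := rfl

lemma hasStrictFDerivAt_sand_exp (A B : Matrix ι ι ℝ) :
    HasStrictFDerivAt (fun X : Matrix ι ι ℝ => A * (exp X * B)) (sand A B) 0 := by
  have h := (sand A B).hasStrictFDerivAt.comp (0 : Matrix ι ι ℝ)
    (hasStrictFDerivAt_exp0 (ι := ι))
  exact h

lemma hasStrictFDerivAt_pi (F : LocalGeometricFibration G H) {g : GL ι ℝ} (hg : g ∈ F.U) :
    HasStrictFDerivAt F.π (fderiv ℝ F.π g.val) g.val :=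
  ContDiffAt.hasStrictFDerivAt (F.smooth g hg) (by simp)

/-- The derivative of `w ↦ π(g₀ exp(w) k)` at `0`. -/
lemma hasStrictFDerivAt_pi_exp (B : BaseFibre F) {k : GL ι ℝ} (hk : k ∈ G.K) :
    HasStrictFDerivAt (fun X : Matrix ι ι ℝ => F.π (B.g₀.val * (exp X * k.val)))
      (LinearMap.toContinuousLinearMap (ell B k)) 0 := by
  have h1 := hasStrictFDerivAt_pi F (base_mem B hk).1
  have h2 := hasStrictFDerivAt_sand_exp B.g₀.val k.val
  have h3 : HasStrictFDerivAt F.π (fderiv ℝ F.π (B.g₀ * k).val)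
      ((fun X : Matrix ι ι ℝ => B.g₀.val * (exp X * k.val)) 0) := by
    simpa using h1
  have h4 := h3.comp (0 : Matrix ι ι ℝ) h2
  exact h4

lemma exists_hit (B : BaseFibre F) : ∀ᶠ b in 𝓝 B.b₀, ∃ w, Hit B b w := by
  -- the map `X ↦ π(g₀ exp X)` on `𝔭_G`
  let φ : G.𝔭 → EuclideanSpace ℝ (Fin (codim G H)) :=
    fun X => F.π (B.g₀.val * (exp X.1 * (1 : GL ι ℝ).val))
  let L := (LinearMap.toContinuousLinearMap (ell B 1)).comp G.𝔭.subtypeL
  have hφ : HasStrictFDerivAt φ L 0 := by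
    have h1 := hasStrictFDerivAt_pi_exp B G.K.one_mem
    have h2 : HasStrictFDerivAt (G.𝔭.subtypeL : G.𝔭 → Matrix ι ι ℝ) G.𝔭.subtypeL 0 :=
      G.𝔭.subtypeL.hasStrictFDerivAt
    have h3 : HasStrictFDerivAt (fun X : Matrix ι ι ℝ => F.π (B.g₀.val * (exp X *
        (1 : GL ι ℝ).val))) (LinearMap.toContinuousLinearMap (ell B 1)) (G.𝔭.subtypeL 0) := by
      rw [map_zero]; exact h1
    exact h3.comp (0 : G.𝔭) h2
  have hsurj : L.range = ⊤ := by
    rw [LinearMap.range_eq_top]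
    intro v
    obtain ⟨X, hX, h⟩ := ell_surj B G.K.one_mem v
    exact ⟨⟨X, hX⟩, h⟩
  have hmap := hφ.map_nhds_eq_of_surj hsurj
  have h0 : φ 0 = B.b₀ := by
    have := (base_mem B G.K.one_mem).2
    simpa [φ] using this
  rw [h0] at hmap
  -- the open condition
  obtain ⟨O, hO, hUO⟩ := F.isOpen
  have hmem : {X : G.𝔭 | B.g₀ * expU X.1 ∈ F.U} ∈ 𝓝 (0 : G.𝔭) := by
    have hc : Continuous (fun X : G.𝔭 => B.g₀ * expU X.1) :=
      continuous_const.mul (continuous_expU.comp continuous_subtype_val)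
    have h1 : (fun X : G.𝔭 => B.g₀ * expU X.1) ⁻¹' O ∈ 𝓝 (0 : G.𝔭) := by
      apply hc.continuousAt.preimage_mem_nhds
      apply hO.mem_nhds
      have := (base_mem B G.K.one_mem).1
      rw [hUO] at this
      have h2 : B.g₀ * expU ((0 : G.𝔭) : Matrix ι ι ℝ) = B.g₀ * 1 := by
        rw [Submodule.coe_zero, expU_zero]
      rw [h2]; exact this.1
    filter_upwards [h1] with X hX
    show B.g₀ * expU X.1 ∈ F.U
    rw [hUO]
    exact ⟨hX, G.grp.mul_mem B.mem_G (expU_mem X.2)⟩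
  have h2 : φ '' {X : G.𝔭 | B.g₀ * expU X.1 ∈ F.U} ∈ 𝓝 B.b₀ := by
    rw [← hmap]; exact image_mem_map hmem
  filter_upwards [h2] with b hb
  obtain ⟨X, hX, hXb⟩ := hb
  have hX' : B.g₀ * expU X.1 ∈ F.U := hX
  obtain ⟨g₁, hg₁, hset⟩ := F.fibre _ hX'
  obtain ⟨w', hw', k₁, hk₁, hwk⟩ := left_polar (G.grp.mul_mem (G.grp.inv_mem B.mem_G) hg₁)
  obtain ⟨y, hy, w, hw, hdec⟩ := exists_dec (H := H) hw'
  refine ⟨w, hw, fun k hk => ?_⟩
  have h3 : B.g₀ * expU w * k ∈ F.U ∧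
      F.π (B.g₀ * expU w * k).val = F.π (B.g₀ * expU X.1).val := by
    have hy2 : k.valᵀ * y * k.val ∈ H.𝔭 := hy.2 k hk
    refine (hset _).mpr ⟨k₁⁻¹ * k, G.K.mul_mem (G.K.inv_mem hk₁) hk,
      (expU (k.valᵀ * y * k.val))⁻¹, H.grp.inv_mem (expU_mem hy2), ?_⟩
    have e1 : g₁ = B.g₀ * (expU w' * k₁) := by rw [← hwk, mul_inv_cancel_left]
    have e2 : expU w' = expU w * expU y := by
      rw [hdec]
      exact expU_add _ _ (ker0_comm hy hw).symm
    have e3 : expU (k.valᵀ * y * k.val) = k⁻¹ * expU y * k := by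
      have := conj_expU (G.K.inv_mem hk) y
      rw [K_inv_val hk, transpose_transpose, inv_inv] at this
      exact this
    rw [e1, e2, e3]; group
  refine ⟨h3.1, h3.2.trans ?_⟩
  rw [← hXb]
  show F.π (B.g₀ * expU X.1).val = F.π (B.g₀.val * (exp X.1 * (1 : GL ι ℝ).val))
  rw [Units.val_one, mul_one, Units.val_mul, expU_val]

end F31343
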