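import Mathlib
import Pool.Agent.Lib_MP_f31343.Limit1

/-!
# Nearby fibres stay in a bounded set
-/

open Matrix NormedSpace Filter Topology Module
open scoped Matrix.Norms.Operator ContDiff Pointwise

namespace F31343

variable {ι : Type*} [Fintype ι] [DecidableEq ι] {G H : LinRed ι} {F : LocalGeometricFibration G H}

/-- The square of the Frobenius norm. -/
def fro (D : Matrix ι ι ℝ) : ℝ := ∑ i, ∑ j, D i j ^ 2

omit [DecidableEq ι] in
lemma continuous_fro : Continuous (fro : Matrix ι ι ℝ → ℝ) := by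
  unfold fro
  fun_prop

omit [DecidableEq ι] in
lemma mulVec_sq_le (D : Matrix ι ι ℝ) (v : ι → ℝ) :
    (D *ᵥ v) ⬝ᵥ (D *ᵥ v) ≤ fro D * (v ⬝ᵥ v) := by
  unfold fro
  rw [Finset.sum_mul]
  unfold dotProduct
  refine Finset.sum_le_sum fun i _ => ?_
  have h := Finset.sum_mul_sq_le_sq_mul_sq Finset.univ (fun j => D i j) v
  have e1 : (D *ᵥ v) i = ∑ j, D i j * v j := rfl
  rw [e1, ← pow_two]
  refine h.trans (le_of_eq ?_)
  congr 1
  exact Finset.sum_congr rfl fun j _ => by ring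

lemma exists_fro_bound {C : Set (GL ι ℝ)} (hC : IsCompact C) :
    ∃ M, ∀ g ∈ C, fro g.val ≤ M ∧ fro (g⁻¹).val ≤ M := by
  have h1 : Continuous (fun g : GL ι ℝ => fro g.val) :=
    continuous_fro.comp isOpenEmbedding_val.continuous
  have h2 : Continuous (fun g : GL ι ℝ => fro (g⁻¹).val) :=
    h1.comp continuous_inv
  obtain ⟨M1, hM1⟩ := (hC.image h1).bddAbove
  obtain ⟨M2, hM2⟩ := (hC.image h2).bddAbove
  refine ⟨max M1 M2, fun g hg => ⟨?_, ?_⟩⟩
  · exact (hM1 ⟨g, hg, rfl⟩).trans (le_max_left _ _)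
  · exact (hM2 ⟨g, hg, rfl⟩).trans (le_max_right _ _)

lemma orth_dot {k : Matrix ι ι ℝ} (hk : kᵀ * k = 1) (v : ι → ℝ) :
    (k *ᵥ v) ⬝ᵥ (k *ᵥ v) = v ⬝ᵥ v := by
  rw [dotProduct_mulVec, vecMul_mulVec, ← dotProduct_mulVec, hk, one_mulVec]

lemma sym_close (D : GL ι ℝ) (k Z Y : Matrix ι ι ℝ) (hk : kᵀ * k = 1) (hZ : Zᵀ = Z)
    (hY : Yᵀ = Y) (h : k * exp Z = D.val * exp Y) (c : ℝ)
    (h1 : fro D.val ≤ Real.exp (2 * c)) (h2 : fro (D⁻¹).val ≤ Real.exp (2 * c)) (i j : ι) :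
    |(Z - Y) i j| ≤ 4 * c := by
  have a1 : ∀ v, qf Z v ≤ qf Y v + c * (v ⬝ᵥ v) := by
    refine exp_bound Z Y hZ hY c fun v => ?_
    calc (exp Z *ᵥ v) ⬝ᵥ (exp Z *ᵥ v) = (k *ᵥ (exp Z *ᵥ v)) ⬝ᵥ (k *ᵥ (exp Z *ᵥ v)) :=
          (orth_dot hk _).symm
      _ = (D.val *ᵥ (exp Y *ᵥ v)) ⬝ᵥ (D.val *ᵥ (exp Y *ᵥ v)) := by
          rw [mulVec_mulVec, mulVec_mulVec, h]
      _ ≤ fro D.val * ((exp Y *ᵥ v) ⬝ᵥ (exp Y *ᵥ v)) := mulVec_sq_le _ _
      _ ≤ _ := by
          refine mul_le_mul_of_nonneg_right h1 ?_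
          exact Finset.sum_nonneg fun i _ => mul_self_nonneg _
  have a2 : ∀ v, qf Y v ≤ qf Z v + c * (v ⬝ᵥ v) := by
    refine exp_bound Y Z hY hZ c fun v => ?_
    have e : exp Y = (D⁻¹).val * (k * exp Z) := by
      rw [h, ← mul_assoc, Units.inv_mul, one_mul]
    calc (exp Y *ᵥ v) ⬝ᵥ (exp Y *ᵥ v)
        = ((D⁻¹).val *ᵥ (k *ᵥ (exp Z *ᵥ v))) ⬝ᵥ ((D⁻¹).val *ᵥ (k *ᵥ (exp Z *ᵥ v))) := by
          rw [mulVec_mulVec, mulVec_mulVec, mul_assoc, ← e]
      _ ≤ fro (D⁻¹).val * ((k *ᵥ (exp Z *ᵥ v)) ⬝ᵥ (k *ᵥ (exp Z *ᵥ v))) := mulVec_sq_le _ _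
      _ ≤ Real.exp (2 * c) * ((k *ᵥ (exp Z *ᵥ v)) ⬝ᵥ (k *ᵥ (exp Z *ᵥ v))) := by
          refine mul_le_mul_of_nonneg_right h2 ?_
          exact Finset.sum_nonneg fun i _ => mul_self_nonneg _
      _ = _ := by rw [orth_dot hk]
  refine entry_bound (Z - Y) (by rw [transpose_sub, hZ, hY]) c (fun v => ?_) i j
  have e : qf (Z - Y) v = qf Z v - qf Y v := by simp [qf, sub_mulVec, dotProduct_sub]
  rw [e, abs_le]
  constructor
  · linarith [a2 v]
  · linarith [a1 v]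

omit [Fintype ι] [DecidableEq ι] in
lemma isCompact_box (r : ℝ) : IsCompact {A : Matrix ι ι ℝ | ∀ i j, |A i j| ≤ r} := by
  have : IsCompact (Set.pi Set.univ (fun _ : ι => Set.pi Set.univ
      (fun _ : ι => Set.Icc (-r : ℝ) r))) :=
    isCompact_univ_pi fun _ => isCompact_univ_pi fun _ => isCompact_Icc
  have e : {A : Matrix ι ι ℝ | ∀ i j, |A i j| ≤ r}
      = (Set.pi Set.univ (fun _ : ι => Set.pi Set.univ (fun _ : ι => Set.Icc (-r : ℝ) r)) :
        Set (ι → ι → ℝ)) := by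
    ext A
    constructor
    · intro hA i _ j _
      exact abs_le.mp (hA i j)
    · intro hA i j
      exact abs_le.mpr (hA i (Set.mem_univ i) j (Set.mem_univ j))
  rw [e]; exact this

/-- The compact set which controls the points over a neighbourhood of `b₀`. -/
lemma proper_at (B : BaseFibre F) : ∃ V ∈ 𝓝 B.b₀, ∃ C : Set (GL ι ℝ), IsCompact C ∧ C ⊆ F.U ∧
    ∀ g' ∈ F.U, F.π g'.val ∈ V → ∃ c ∈ C, ∃ h ∈ H.grp, g' = c * h := by
  have h := F.proper _ (base_mem B G.K.one_mem).1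
  unfold ProperAt at h
  rw [(base_mem B G.K.one_mem).2] at h
  exact h

theorem exists_bound (hHG : H.grp ≤ G.grp) (B : BaseFibre F) :
    ∃ R : ℝ, ∀ᶠ b in 𝓝 B.b₀, ∀ w, Hit B b w → ‖w‖ ≤ R := by
  obtain ⟨T, c₀, hc₀, hT, hco⟩ := exists_coercive hHG B
  obtain ⟨V, hV, C, hC, hCU, hprop⟩ := proper_at B
  -- the compact set of `g₀⁻¹ c k_H`
  have hD : IsCompact ({B.g₀⁻¹} * C * (H.K : Set (GL ι ℝ))) :=
    (isCompact_singleton.mul hC).mul (isCompact_K H)
  obtain ⟨M, hM⟩ := exists_fro_bound hD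
  -- the constant
  let c : ℝ := Real.log (max M 1) / 2
  have hcM : M ≤ Real.exp (2 * c) := by
    have : 2 * c = Real.log (max M 1) := by simp only [c]; ring
    rw [this, Real.exp_log (lt_of_lt_of_le one_pos (le_max_right _ _))]
    exact le_max_left _ _
  -- bounds for the linear maps
  have hN : ∀ k : GL ι ℝ, ∃ N : ℝ, ∀ A : Matrix ι ι ℝ, (∀ i j, |A i j| ≤ 4 * c) →
      ‖ell B k (k.val * A * k.valᵀ)‖ ≤ N := by
    intro k
    have hcont : Continuous (fun A : Matrix ι ι ℝ => ell B k (k.val * A * k.valᵀ)) := by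
      have h1 : Continuous (fun A : Matrix ι ι ℝ => k.val * A * k.valᵀ) := by fun_prop
      exact (LinearMap.continuous_of_finiteDimensional (ell B k)).comp h1
    obtain ⟨N, hN⟩ := (isCompact_box (ι := ι) (4 * c)).exists_bound_of_continuousOn
      hcont.continuousOn
    exact ⟨N, fun A hA => hN A hA⟩
  choose N hN using hN
  refine ⟨(∑ k ∈ T, N k) / c₀, ?_⟩
  filter_upwards [hV] with b hb w hw
  rw [le_div_iff₀ hc₀, mul_comm]
  refine (hco w hw.1).trans (Finset.sum_le_sum fun k hkT => ?_)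
  have hk := hT k hkT
  obtain ⟨hU, hπ⟩ := hw.2 k hk
  obtain ⟨d, hd, h, hh, e1⟩ := hprop _ hU (by rw [hπ]; exact hb)
  obtain ⟨kH, hkH, Y, hY, e2⟩ := right_polar hh
  have hDmem : B.g₀⁻¹ * d * kH ∈ ({B.g₀⁻¹} * C * (H.K : Set (GL ι ℝ))) :=
    Set.mul_mem_mul (Set.mul_mem_mul rfl hd) hkH
  obtain ⟨b1, b2⟩ := hM _ hDmem
  have hZ := conj_mem_p' hk (red_le hw.1)
  have e3 : k * expU (k.valᵀ * w * k.val) = (B.g₀⁻¹ * d * kH) * expU Y := by
    have h1 : expU (k.valᵀ * w * k.val) = k⁻¹ * expU w * k := by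
      have := conj_expU (G.K.inv_mem hk) w
      rw [K_inv_val hk, transpose_transpose, inv_inv] at this
      exact this
    rw [h1]
    have h2 : expU w * k = B.g₀⁻¹ * (d * h) := by
      rw [← e1]; group
    calc k * (k⁻¹ * expU w * k) = expU w * k := by group
      _ = B.g₀⁻¹ * (d * h) := h2
      _ = _ := by rw [e2]; group
  have e4 : k.val * exp (k.valᵀ * w * k.val) = (B.g₀⁻¹ * d * kH).val * exp Y := by
    have := congrArg Units.val e3
    simpa only [Units.val_mul, expU_val] using this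
  have hclose := sym_close (B.g₀⁻¹ * d * kH) k.val (k.valᵀ * w * k.val) Y (K_orth hk)
    (G.symm _ hZ) (H.symm _ hY) e4 c (b1.trans hcM) (b2.trans hcM)
  have e5 : ell B k w = ell B k (k.val * (k.valᵀ * w * k.val - Y) * k.valᵀ) := by
    have h1 : ell B k (k.val * Y * k.valᵀ) = 0 := by
      apply ell_eq_zero_of_mem B hk
      have : k.valᵀ * (k.val * Y * k.valᵀ) * k.val = Y := by
        calc k.valᵀ * (k.val * Y * k.valᵀ) * k.val
            = (k.valᵀ * k.val) * Y * (k.valᵀ * k.val) := by simp only [mul_assoc]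
          _ = Y := by rw [K_orth hk, one_mul, mul_one]
      rw [this]; exact hY
    have h2 : k.val * (k.valᵀ * w * k.val) * k.valᵀ = w := by
      calc k.val * (k.valᵀ * w * k.val) * k.valᵀ
          = (k.val * k.valᵀ) * w * (k.val * k.valᵀ) := by simp only [mul_assoc]
        _ = w := by rw [K_orth' hk, one_mul, mul_one]
    rw [mul_sub, sub_mul, h2, map_sub, h1, sub_zero]
  rw [e5]
  exact hN k _ hclose

end F31343
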