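import Mathlib
import Pool.Agent.Lib_MP_f31343.Limit2

/-!
# Nearby fibres converge, and the limit directions
-/

open Matrix NormedSpace Filter Topology Module
open scoped Matrix.Norms.Operator ContDiff Pointwise

namespace F31343

variable {ι : Type*} [Fintype ι] [DecidableEq ι] {G H : LinRed ι} {F : LocalGeometricFibration G H}

theorem eventually_small (hHG : H.grp ≤ G.grp) (B : BaseFibre F)
    {ε : ℝ} (hε : 0 < ε) : ∀ᶠ b in 𝓝 B.b₀, ∀ w, Hit B b w → ‖w‖ < ε := by
  by_contra hcon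
  obtain ⟨R, hR⟩ := exists_bound hHG B
  obtain ⟨V, hV, C, hC, hCU, hprop⟩ := proper_at B
  have hfreq : ∃ᶠ b in 𝓝 B.b₀, (∃ w, Hit B b w ∧ ε ≤ ‖w‖ ∧ ‖w‖ ≤ R) ∧ b ∈ V := by
    have h1 : ∃ᶠ b in 𝓝 B.b₀, ¬ ∀ w, Hit B b w → ‖w‖ < ε := Filter.not_eventually.mp hcon
    refine (h1.and_eventually (hR.and hV)).mono ?_
    rintro b ⟨hb, hbR, hbV⟩
    push Not at hb
    obtain ⟨w, hw, hwε⟩ := hb
    exact ⟨⟨w, hw, hwε, hbR w hw⟩, hbV⟩
  obtain ⟨b, hb, hbw⟩ := exists_seq_forall_of_frequently hfreq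
  choose w hw using fun n => (hbw n).1
  have hbV : ∀ n, b n ∈ V := fun n => (hbw n).2
  have hball : ∀ n, w n ∈ Metric.closedBall (0 : Matrix ι ι ℝ) R := fun n => by
    rw [mem_closedBall_zero_iff]; exact (hw n).2.2
  obtain ⟨w₀, -, φ, hφ, hlim⟩ := (isCompact_closedBall (0 : Matrix ι ι ℝ) R).tendsto_subseq hball
  have hw₀r : w₀ ∈ red G H :=
    (isClosed_red G H).mem_of_tendsto hlim (Eventually.of_forall fun n => (hw (φ n)).1.1)
  have hw₀ : w₀ ∈ G.𝔭 := red_le hw₀r
  have hblim : Tendsto (fun n => b (φ n)) atTop (𝓝 B.b₀) := hb.comp hφ.tendsto_atTop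
  -- every translate lies in the base fibre
  have hzero : w₀ = 0 := by
    refine eq_zero_of_ker0_red ⟨hw₀, fun k hk => ?_⟩ hw₀r
    have hglim : Tendsto (fun n => B.g₀ * expU (w (φ n)) * k) atTop (𝓝 (B.g₀ * expU w₀ * k)) := by
      have h1 : Continuous (fun X : Matrix ι ι ℝ => B.g₀ * expU X * k) :=
        (continuous_const.mul continuous_expU).mul continuous_const
      exact (h1.tendsto w₀).comp hlim
    have hclosed : IsClosed (C * (H.grp : Set (GL ι ℝ))) := H.isClosed.mul_left_of_isCompact hC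
    have hmem : B.g₀ * expU w₀ * k ∈ C * (H.grp : Set (GL ι ℝ)) := by
      refine hclosed.mem_of_tendsto hglim (Eventually.of_forall fun n => ?_)
      obtain ⟨hU, hπ⟩ := (hw (φ n)).1.2 k hk
      obtain ⟨c, hc, h, hh, e⟩ := hprop _ hU (by rw [hπ]; exact hbV _)
      rw [e]
      exact Set.mul_mem_mul hc hh
    have hU : B.g₀ * expU w₀ * k ∈ F.U := by
      obtain ⟨c, hc, h, hh, e⟩ := Set.mem_mul.mp hmem
      rw [← e]
      exact F.mul_mem c (hCU hc) h hh
    have hπ : F.π (B.g₀ * expU w₀ * k).val = B.b₀ := by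
      have h1 : Tendsto (fun n => F.π (B.g₀ * expU (w (φ n)) * k).val) atTop
          (𝓝 (F.π (B.g₀ * expU w₀ * k).val)) := by
        have hc : ContinuousAt F.π (B.g₀ * expU w₀ * k).val := ContDiffAt.continuousAt (F.smooth _ hU)
        exact hc.tendsto.comp ((isOpenEmbedding_val.continuous.tendsto _).comp hglim)
      have h2 : Tendsto (fun n => F.π (B.g₀ * expU (w (φ n)) * k).val) atTop (𝓝 B.b₀) := by
        refine hblim.congr fun n => ?_
        exact ((hw (φ n)).1.2 k hk).2.symm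
      exact tendsto_nhds_unique h1 h2
    obtain ⟨k', hk', h, hh, e⟩ := B.conv _ hU hπ
    obtain ⟨kH, hkH, Y, hY, e2⟩ := right_polar hh
    have e3 : k * expU (k.valᵀ * w₀ * k.val) = (k' * kH) * expU Y := by
      have h1 : expU (k.valᵀ * w₀ * k.val) = k⁻¹ * expU w₀ * k := by
        have := conj_expU (G.K.inv_mem hk) w₀
        rw [K_inv_val hk, transpose_transpose, inv_inv] at this
        exact this
      have h2 : expU w₀ * k = k' * h := by
        have : B.g₀ * (expU w₀ * k) = B.g₀ * (k' * h) := by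
          rw [← mul_assoc, e, mul_assoc]
        exact mul_left_cancel this
      rw [h1]
      calc k * (k⁻¹ * expU w₀ * k) = expU w₀ * k := by group
        _ = k' * h := h2
        _ = _ := by rw [e2, mul_assoc]
    have e4 : k.val * exp (k.valᵀ * w₀ * k.val) = (k' * kH).val * exp Y := by
      have := congrArg Units.val e3
      simpa only [Units.val_mul, expU_val] using this
    have hkk : (k' * kH) ∈ G.K := G.K.mul_mem hk' (K_mono hHG hkH)
    have := polar_unique k.val (k' * kH).val _ Y (K_orth hk) (K_orth hkk)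
      (G.symm _ (conj_mem_p' hk hw₀)) (H.symm _ hY) e4
    rw [this]; exact hY
  have hnorm : ε ≤ ‖w₀‖ :=
    ge_of_tendsto' (hlim.norm) fun n => (hw (φ n)).2.1
  rw [hzero, norm_zero] at hnorm
  linarith

/-- The first order expansion, uniform over a fibre near the base. -/
lemma eventually_expand (hHG : H.grp ≤ G.grp) (B : BaseFibre F)
    {k : GL ι ℝ} (hk : k ∈ G.K) {ε : ℝ} (hε : 0 < ε) :
    ∀ᶠ b in 𝓝 B.b₀, ∀ w, Hit B b w → ‖(b - B.b₀) - ell B k w‖ ≤ ε * ‖w‖ := by
  have h1 := (hasStrictFDerivAt_pi_exp B hk).hasFDerivAt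
  have h2 := h1.isLittleO.def hε
  rw [Metric.eventually_nhds_iff] at h2
  obtain ⟨δ, hδ, h3⟩ := h2
  filter_upwards [eventually_small hHG B hδ] with b hb w hw
  have h4 := h3 (y := w) (by rw [dist_zero_right]; exact hb w hw)
  have e1 : F.π (B.g₀.val * (exp w * k.val)) = b := by
    have := (hw.2 k hk).2
    rw [Units.val_mul, Units.val_mul, expU_val, mul_assoc] at this
    exact this
  have e2 : F.π (B.g₀.val * (exp (0 : Matrix ι ι ℝ) * k.val)) = B.b₀ := by
    have := (base_mem B hk).2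
    simpa using this
  rw [e1, e2, sub_zero] at h4
  exact h4

/-- Linear growth of `w`. -/
lemma eventually_linear (hHG : H.grp ≤ G.grp) (B : BaseFibre F) :
    ∃ M : ℝ, ∀ᶠ b in 𝓝 B.b₀, ∀ w, Hit B b w → ‖w‖ ≤ M * ‖b - B.b₀‖ := by
  obtain ⟨T, c, hc, hT, hco⟩ := exists_coercive hHG B
  have hcard : (0 : ℝ) < T.card + 1 := by positivity
  have hε : 0 < c / (2 * (T.card + 1)) := by positivity
  have h1 : ∀ᶠ b in 𝓝 B.b₀, ∀ k ∈ T, ∀ w, Hit B b w →
      ‖(b - B.b₀) - ell B k w‖ ≤ c / (2 * (T.card + 1)) * ‖w‖ := by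
    rw [Filter.eventually_all_finset]
    intro k hk
    exact eventually_expand hHG B (hT k hk) hε
  refine ⟨2 * T.card / c, ?_⟩
  filter_upwards [h1] with b hb w hw
  have h2 : ∀ k ∈ T, ‖ell B k w‖ ≤ ‖b - B.b₀‖ + c / (2 * (T.card + 1)) * ‖w‖ := by
    intro k hk
    have h3 := hb k hk w hw
    have h4 : ell B k w = (b - B.b₀) - ((b - B.b₀) - ell B k w) := by abel
    calc ‖ell B k w‖ = ‖(b - B.b₀) - ((b - B.b₀) - ell B k w)‖ := by rw [← h4]
      _ ≤ ‖b - B.b₀‖ + ‖(b - B.b₀) - ell B k w‖ := norm_sub_le _ _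
      _ ≤ _ := by linarith
  have h5 := hco w hw.1
  have h6 : ∑ k ∈ T, ‖ell B k w‖
      ≤ T.card * (‖b - B.b₀‖ + c / (2 * (T.card + 1)) * ‖w‖) := by
    refine (Finset.sum_le_sum h2).trans (le_of_eq ?_)
    rw [Finset.sum_const, nsmul_eq_mul]
  have h7 : (T.card : ℝ) * (c / (2 * (T.card + 1)) * ‖w‖) ≤ c / 2 * ‖w‖ := by
    have h8 : (T.card : ℝ) * (c / (2 * (T.card + 1))) ≤ c / 2 := by
      rw [mul_div_assoc', div_le_div_iff₀ (by positivity) (by positivity)]
      nlinarith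
    calc (T.card : ℝ) * (c / (2 * (T.card + 1)) * ‖w‖)
        = ((T.card : ℝ) * (c / (2 * (T.card + 1)))) * ‖w‖ := by ring
      _ ≤ _ := mul_le_mul_of_nonneg_right h8 (norm_nonneg _)
  have h9 : c / 2 * ‖w‖ ≤ T.card * ‖b - B.b₀‖ := by nlinarith [h5, h6, h7]
  rw [div_mul_eq_mul_div, le_div_iff₀ hc]
  nlinarith [h9]

/-- Every tangent vector of the base is hit by a direction which does not depend on `k`. -/
theorem exists_direction (hHG : H.grp ≤ G.grp) (B : BaseFibre F)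
    (v : EuclideanSpace ℝ (Fin (codim G H))) :
    ∃ w ∈ red G H, ∀ k ∈ G.K, ell B k w = v := by
  obtain ⟨M, hM⟩ := eventually_linear hHG B
  -- the sequence of base points
  let t : ℕ → ℝ := fun n => 1 / ((n : ℝ) + 1)
  have ht0 : Tendsto t atTop (𝓝 0) := tendsto_one_div_add_atTop_nhds_zero_nat
  have htpos : ∀ n, 0 < t n := fun n => by simp only [t]; positivity
  have hb : Tendsto (fun n => B.b₀ + t n • v) atTop (𝓝 B.b₀) := by
    have : Tendsto (fun n => B.b₀ + t n • v) atTop (𝓝 (B.b₀ + (0 : ℝ) • v)) :=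
      tendsto_const_nhds.add (ht0.smul_const v)
    rwa [zero_smul, add_zero] at this
  have hev : ∀ᶠ n in atTop, ∃ w, Hit B (B.b₀ + t n • v) w ∧ ‖w‖ ≤ M * ‖t n • v‖ := by
    filter_upwards [hb.eventually (exists_hit B), hb.eventually hM] with n h1 h2
    obtain ⟨w, hw⟩ := h1
    refine ⟨w, hw, ?_⟩
    have := h2 w hw
    rwa [add_sub_cancel_left] at this
  obtain ⟨N, hN⟩ := eventually_atTop.mp hev
  choose w hw using fun n : ℕ => hN (n + N) (Nat.le_add_left N n)
  -- rescaled directions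
  let u : ℕ → Matrix ι ι ℝ := fun n => (t (n + N))⁻¹ • w n
  have hu : ∀ n, u n ∈ Metric.closedBall (0 : Matrix ι ι ℝ) (M * ‖v‖) := by
    intro n
    rw [mem_closedBall_zero_iff]
    simp only [u]
    have hp := htpos (n + N)
    rw [norm_smul, norm_inv, Real.norm_of_nonneg hp.le, inv_mul_le_iff₀ hp]
    have := (hw n).2
    rw [norm_smul, Real.norm_of_nonneg hp.le] at this
    calc ‖w n‖ ≤ M * (t (n + N) * ‖v‖) := this
      _ = _ := by ring
  obtain ⟨w₀, -, φ, hφ, hlim⟩ :=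
    (isCompact_closedBall (0 : Matrix ι ι ℝ) (M * ‖v‖)).tendsto_subseq hu
  refine ⟨w₀, ?_, fun k hk => ?_⟩
  · refine (isClosed_red G H).mem_of_tendsto hlim (Eventually.of_forall fun n => ?_)
    exact (red G H).smul_mem _ (hw (φ n)).1.1
  · -- the limit
    have h1 : Tendsto (fun n => ell B k (u (φ n))) atTop (𝓝 (ell B k w₀)) :=
      ((LinearMap.continuous_of_finiteDimensional (ell B k)).tendsto w₀).comp hlim
    have h2 : Tendsto (fun n => ell B k (u (φ n))) atTop (𝓝 v) := by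
      rw [Metric.tendsto_atTop]
      intro ε hε
      have hK : 0 < |M| * ‖v‖ + 1 := by positivity
      have hε' : 0 < ε / (2 * (|M| * ‖v‖ + 1)) := by positivity
      have h3 := hb.eventually (eventually_expand hHG B hk hε')
      obtain ⟨N₁, hN₁⟩ := eventually_atTop.mp h3
      refine ⟨N₁, fun n hn => ?_⟩
      have hn' : N₁ ≤ φ n + N := hn.trans ((hφ.id_le n).trans (Nat.le_add_right _ _))
      have h4 := hN₁ _ hn' _ (hw (φ n)).1
      rw [add_sub_cancel_left] at h4
      have hp := htpos (φ n + N)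
      have h5 : ell B k (u (φ n)) - v = -((t (φ n + N))⁻¹ • (t (φ n + N) • v - ell B k (w (φ n)))) := by
        simp only [u]
        rw [map_smul, smul_sub, smul_smul, inv_mul_cancel₀ hp.ne', one_smul]
        abel
      rw [dist_eq_norm, h5, norm_neg, norm_smul, norm_inv, Real.norm_of_nonneg hp.le,
        inv_mul_lt_iff₀ hp]
      have h6 := (hw (φ n)).2
      rw [norm_smul, Real.norm_of_nonneg hp.le] at h6
      have h7 : ‖w (φ n)‖ ≤ t (φ n + N) * (|M| * ‖v‖) := by
        refine h6.trans ?_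
        have h8 : M * (t (φ n + N) * ‖v‖) ≤ |M| * (t (φ n + N) * ‖v‖) :=
          mul_le_mul_of_nonneg_right (le_abs_self M) (by positivity)
        calc M * (t (φ n + N) * ‖v‖) ≤ |M| * (t (φ n + N) * ‖v‖) := h8
          _ = _ := by ring
      calc ‖t (φ n + N) • v - ell B k (w (φ n))‖
          ≤ ε / (2 * (|M| * ‖v‖ + 1)) * ‖w (φ n)‖ := h4
        _ ≤ ε / (2 * (|M| * ‖v‖ + 1)) * (t (φ n + N) * (|M| * ‖v‖)) :=
            mul_le_mul_of_nonneg_left h7 hε'.le
        _ < t (φ n + N) * ε := by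
            have e1 : ε / (2 * (|M| * ‖v‖ + 1)) * (t (φ n + N) * (|M| * ‖v‖))
                = t (φ n + N) * (ε * ((|M| * ‖v‖) / (2 * (|M| * ‖v‖ + 1)))) := by ring
            rw [e1]
            refine mul_lt_mul_of_pos_left ?_ hp
            have e2 : (|M| * ‖v‖) / (2 * (|M| * ‖v‖ + 1)) < 1 := by
              rw [div_lt_one (by positivity)]
              nlinarith [abs_nonneg M, norm_nonneg v, mul_nonneg (abs_nonneg M) (norm_nonneg v)]
            calc ε * ((|M| * ‖v‖) / (2 * (|M| * ‖v‖ + 1))) < ε * 1 :=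
                  mul_lt_mul_of_pos_left e2 hε
              _ = ε := mul_one ε
    exact tendsto_nhds_unique h1 h2

/-- **The complement**: a local geometric fibration yields a subspace `W` of `𝔭_G` which is a
complement of `Ad(k) 𝔭_H` for every `k ∈ K`. -/
theorem exists_complement (hHG : H.grp ≤ G.grp)
    (F : LocalGeometricFibration G H) : ∃ W : Submodule ℝ (Matrix ι ι ℝ), W ≤ G.𝔭 ∧
      ∀ k ∈ G.K, (∀ X ∈ W, k.valᵀ * X * k.val ∈ H.𝔭 → X = 0) ∧
        ∀ X ∈ G.𝔭, ∃ w ∈ W, k.valᵀ * (X - w) * k.val ∈ H.𝔭 := by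
  obtain ⟨B⟩ := exists_baseFibre F
  let W : Submodule ℝ (Matrix ι ι ℝ) :=
    { carrier := {X | X ∈ red G H ∧ ∀ k ∈ G.K, ell B k X = ell B 1 X}
      add_mem' := by
        rintro X Y ⟨hX, hX'⟩ ⟨hY, hY'⟩
        refine ⟨(red G H).add_mem hX hY, fun k hk => ?_⟩
        rw [map_add, map_add, hX' k hk, hY' k hk]
      zero_mem' := ⟨(red G H).zero_mem, fun k _ => by rw [map_zero, map_zero]⟩
      smul_mem' := by
        rintro c X ⟨hX, hX'⟩
        refine ⟨(red G H).smul_mem c hX, fun k hk => ?_⟩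
        rw [map_smul, map_smul, hX' k hk] }
  refine ⟨W, fun X hX => red_le hX.1, fun k hk => ⟨?_, ?_⟩⟩
  · rintro X ⟨hX, hX'⟩ hXk
    have h0 : ell B k X = 0 := ell_eq_zero_of_mem B hk hXk
    rw [hX' k hk] at h0
    refine eq_zero_of_ker0_red ⟨red_le hX, fun k' hk' => ?_⟩ hX
    exact mem_of_ell_eq_zero hHG B hk' (red_le hX) (by rw [hX' k' hk', h0])
  · intro X hX
    obtain ⟨w, hw, hwk⟩ := exists_direction hHG B (ell B k X)
    refine ⟨w, ⟨hw, fun k' hk' => ?_⟩, ?_⟩
    · rw [hwk k' hk', hwk 1 G.K.one_mem]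
    · refine mem_of_ell_eq_zero hHG B hk (G.𝔭.sub_mem hX (red_le hw)) ?_
      rw [map_sub, hwk k hk, sub_self]

end F31343
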