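import Mathlib
import Pool.Agent.Lib_MP_f31343.Commutator
import Pool.Agent.Lib_MP_f31343.Kernel

/-!
# Centralisers in `𝔭` meet all orbits
-/

open Matrix NormedSpace Filter Topology Module
open scoped Matrix.Norms.Operator ContDiff

namespace F31343

variable {ι : Type*} [Fintype ι] [DecidableEq ι] {G H : LinRed ι}

/-- The centraliser of `Y` in `𝔭_G`. -/
def centraliser (G : LinRed ι) (Y : Matrix ι ι ℝ) : Submodule ℝ (Matrix ι ι ℝ) where
  carrier := {X | X ∈ G.𝔭 ∧ X * Y = Y * X}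
  add_mem' := by
    rintro X X' ⟨h1, h2⟩ ⟨h1', h2'⟩
    exact ⟨G.𝔭.add_mem h1 h1', by rw [add_mul, mul_add, h2, h2']⟩
  zero_mem' := ⟨G.𝔭.zero_mem, by rw [zero_mul, mul_zero]⟩
  smul_mem' := by
    rintro c X ⟨h1, h2⟩
    exact ⟨G.𝔭.smul_mem c h1, by rw [smul_mul_assoc, mul_smul_comm, h2]⟩

/-- The real rank of `G`: the least dimension of the centraliser in `𝔭_G` of an element of `𝔭_G`
(this is attained at the regular elements, whose centralisers are the maximal abelian subspaces of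
`𝔭_G`). -/
noncomputable def realRank (G : LinRed ι) : ℕ :=
  sInf {d | ∃ Y ∈ G.𝔭, finrank ℝ (centraliser G Y) = d}

lemma exists_realRank (G : LinRed ι) :
    ∃ Y ∈ G.𝔭, finrank ℝ (centraliser G Y) = realRank G :=
  Nat.sInf_mem (s := {d | ∃ Y ∈ G.𝔭, finrank ℝ (centraliser G Y) = d})
    ⟨_, 0, G.𝔭.zero_mem, rfl⟩

lemma continuous_K_val (G : LinRed ι) : Continuous (fun k : G.K => k.1.val) :=
  isOpenEmbedding_val.continuous.comp continuous_subtype_val

lemma continuous_orbit (G : LinRed ι) (X Y : Matrix ι ι ℝ) :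
    Continuous (fun k : G.K => (k.1.valᵀ * X * k.1.val * Y).trace) := by
  have h1 := continuous_K_val G
  exact ((((h1.matrix_transpose.matrix_mul continuous_const).matrix_mul h1).matrix_mul
    continuous_const)).matrix_trace

/-- Every element of `𝔭_G` is `K`-conjugate to an element of the centraliser of `Y`. -/
theorem exists_conj_centraliser {X Y : Matrix ι ι ℝ} (hX : X ∈ G.𝔭) (hY : Y ∈ G.𝔭) :
    ∃ k ∈ G.K, k.valᵀ * X * k.val ∈ centraliser G Y := by
  obtain ⟨k₀, -, hmax⟩ := isCompact_univ.exists_isMaxOn (Set.univ_nonempty (α := G.K))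
    (continuous_orbit G X Y).continuousOn
  set Z : Matrix ι ι ℝ := k₀.1.valᵀ * X * k₀.1.val with hZ
  have hZp : Z ∈ G.𝔭 := conj_mem_p' k₀.2 hX
  refine ⟨k₀.1, k₀.2, hZp, ?_⟩
  -- the derivative of the height along a one-parameter group vanishes
  have key : ∀ A ∈ G.𝔨, ((A * Z - Z * A) * Y).trace = 0 := by
    intro A hA
    let tl : Matrix ι ι ℝ →L[ℝ] ℝ := LinearMap.toContinuousLinearMap
      (Matrix.traceLinearMap ι ℝ ℝ ∘ₗ LinearMap.mulRight ℝ Y)
    have h1 := tl.hasFDerivAt.comp_hasDerivAt (0 : ℝ) (hasDerivAt_conj hA Z 0)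
    have h2 : IsLocalMax (tl ∘ fun t : ℝ => exp (t • A) * (Z * (exp (t • A))ᵀ)) 0 := by
      refine Eventually.of_forall fun t => ?_
      have h3 : (expU (t • A))⁻¹ ∈ G.K := G.K.inv_mem (expU_mem_K hA t)
      have h4 : k₀.1 * (expU (t • A))⁻¹ ∈ G.K := G.K.mul_mem k₀.2 h3
      have h5 := hmax (Set.mem_univ (⟨k₀.1 * (expU (t • A))⁻¹, h4⟩ : G.K))
      have h6 : (k₀.1 * (expU (t • A))⁻¹).val = k₀.1.val * (exp (t • A))ᵀ := by
        rw [Units.val_mul, K_inv_val (expU_mem_K hA t)]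
        rfl
      show ((exp (t • A) * (Z * (exp (t • A))ᵀ)) * Y).trace
        ≤ ((exp ((0 : ℝ) • A) * (Z * (exp ((0 : ℝ) • A))ᵀ)) * Y).trace
      rw [zero_smul, NormedSpace.exp_zero, transpose_one, one_mul, mul_one]
      have h7 : ((k₀.1 * (expU (t • A))⁻¹).valᵀ * X * (k₀.1 * (expU (t • A))⁻¹).val * Y).trace
          ≤ (Z * Y).trace := h5
      rw [h6, transpose_mul, transpose_transpose] at h7
      have h8 : exp (t • A) * (Z * (exp (t • A))ᵀ)
          = exp (t • A) * k₀.1.valᵀ * X * (k₀.1.val * (exp (t • A))ᵀ) := by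
        rw [hZ]; simp only [mul_assoc]
      rw [h8]
      exact h7
    have h9 := h2.hasDerivAt_eq_zero h1
    have h10 : tl (A * (exp ((0 : ℝ) • A) * (Z * (exp ((0 : ℝ) • A))ᵀ))
        - (exp ((0 : ℝ) • A) * (Z * (exp ((0 : ℝ) • A))ᵀ)) * A) = ((A * Z - Z * A) * Y).trace := by
      rw [zero_smul, NormedSpace.exp_zero, transpose_one, one_mul, mul_one]
      rfl
    rw [← h10]
    exact h9
  have hA := brk_mem_k hZp hY
  have h1 := key _ hA
  have h2 := transpose_of_mem_k hA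
  have h3 : (((Z * Y - Y * Z) * Z - Z * (Z * Y - Y * Z)) * Y).trace
      = ((Z * Y - Y * Z) * (Z * Y - Y * Z)).trace := by
    rw [sub_mul, trace_sub, mul_sub (Z * Y - Y * Z), trace_sub]
    congr 1
    · rw [mul_assoc]
    · rw [mul_assoc, trace_mul_comm, mul_assoc]
  have h4 : ((Z * Y - Y * Z)ᵀ * (Z * Y - Y * Z)).trace = 0 := by
    rw [h2, neg_mul, trace_neg, ← h3, h1, neg_zero]
  have h5 := eq_zero_of_trace_tm h4
  exact sub_eq_zero.mp h5

end F31343
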