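import Mathlib

/-!
# Reduction of the number of functions

Finitely many Lipschitz functions `F`, homogeneous of degree one, on a space of dimension `r` can be
replaced by `r` linear combinations of them with the same common zeros (the image of `F` is a cone
of Hausdorff dimension at most `r`, so a projection along a line outside of it loses no zeros).
-/

open Module Set MeasureTheory
open scoped NNReal ENNReal

namespace F31343

theorem exists_reduction {A : Type*} [NormedAddCommGroup A] [NormedSpace ℝ A]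
    [FiniteDimensional ℝ A] (N : ℕ) (F : A → Fin N → ℝ) (hF : ∃ C, LipschitzWith C F)
    (hsmul : ∀ (c : ℝ) (Y : A), F (c • Y) = c • F Y) :
    ∃ L : (Fin N → ℝ) →ₗ[ℝ] (Fin (finrank ℝ A) → ℝ), ∀ Y, L (F Y) = 0 → F Y = 0 := by
  induction N with
  | zero => exact ⟨0, fun Y _ => Subsingleton.elim _ _⟩
  | succ N ih =>
    rcases le_or_gt (N + 1) (finrank ℝ A) with h | h
    · refine ⟨LinearMap.pi fun j => if hj : (j : ℕ) < N + 1 then LinearMap.proj ⟨j, hj⟩ else 0,
        fun Y hY => ?_⟩
      ext i
      have h1 := congrFun hY ⟨i, lt_of_lt_of_le i.2 h⟩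
      rw [LinearMap.pi_apply, dif_pos i.2] at h1
      exact h1
    · obtain ⟨C, hC⟩ := hF
      have hdim : dimH (range F) < (finrank ℝ (Fin (N + 1) → ℝ) : ℝ≥0∞) := by
        refine lt_of_le_of_lt hC.dimH_range_le ?_
        rw [Real.dimH_univ_eq_finrank, Module.finrank_fin_fun]
        exact_mod_cast h
      obtain ⟨u, hu⟩ := (dense_compl_of_dimH_lt_finrank hdim).nonempty
      have hF0 : F 0 = 0 := by
        have := hsmul 0 0
        simpa using this
      have hu0 : u ≠ 0 := by
        rintro rfl
        exact hu ⟨0, hF0⟩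
      have hq : finrank ℝ ((Fin (N + 1) → ℝ) ⧸ Submodule.span ℝ {u}) = finrank ℝ (Fin N → ℝ) := by
        have h1 := Submodule.finrank_quotient_add_finrank (Submodule.span ℝ {u})
        rw [finrank_span_singleton hu0, Module.finrank_fin_fun] at h1
        rw [Module.finrank_fin_fun]
        omega
      let e : ((Fin (N + 1) → ℝ) ⧸ Submodule.span ℝ {u}) ≃ₗ[ℝ] (Fin N → ℝ) :=
        LinearEquiv.ofFinrankEq _ _ hq
      let P : (Fin (N + 1) → ℝ) →ₗ[ℝ] (Fin N → ℝ) :=
        e.toLinearMap ∘ₗ (Submodule.span ℝ {u}).mkQ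
      have hP : ∀ Y, P (F Y) = 0 → F Y = 0 := by
        intro Y hY
        have h1 : (Submodule.span ℝ {u}).mkQ (F Y) = 0 := e.injective (hY.trans (map_zero e).symm)
        rw [Submodule.mkQ_apply, Submodule.Quotient.mk_eq_zero, Submodule.mem_span_singleton] at h1
        obtain ⟨c, hc⟩ := h1
        by_cases hc0 : c = 0
        · rw [← hc, hc0, zero_smul]
        · exact absurd ⟨c⁻¹ • Y, by rw [hsmul, ← hc, smul_smul, inv_mul_cancel₀ hc0, one_smul]⟩ hu
      obtain ⟨L, hL⟩ := ih (fun Y => P (F Y))
        ⟨_, (LinearMap.toContinuousLinearMap P).lipschitz.comp hC⟩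
        (fun c Y => by rw [hsmul, map_smul])
      exact ⟨L ∘ₗ P, fun Y hY => hP Y (hL Y hY)⟩

end F31343
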