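import Mathlib
import Pool.Agent.Lib_MP_22bcea_gt.BU
import Pool.Agent.Lib_MP_f31343.Polar
import Pool.Agent.Lib_MP_f31343.Reduce
import Pool.Agent.Lib_MP_f31343.Limit3

/-!
# Benoist's obstruction for local geometric fibrations
-/

open Matrix NormedSpace Filter Topology Module
open scoped Matrix.Norms.Operator ContDiff NNReal

namespace F31343

variable {ι : Type*} [Fintype ι] [DecidableEq ι] {G H : LinRed ι}

/-! ### Borsuk-Ulam on the complement -/

/-- The complement has the dimension of the base. -/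
lemma finrank_complement (hHG : H.grp ≤ G.grp) {W : Submodule ℝ (Matrix ι ι ℝ)} (hWG : W ≤ G.𝔭)
    (hW : ∀ k ∈ G.K, (∀ X ∈ W, k.valᵀ * X * k.val ∈ H.𝔭 → X = 0) ∧
      ∀ X ∈ G.𝔭, ∃ w ∈ W, k.valᵀ * (X - w) * k.val ∈ H.𝔭) : finrank ℝ W = codim G H := by
  obtain ⟨h1, h2⟩ := hW 1 G.K.one_mem
  simp only [Units.val_one, transpose_one, one_mul, mul_one] at h1 h2
  have hinf : W ⊓ H.𝔭 = ⊥ := by
    rw [Submodule.eq_bot_iff]
    rintro X ⟨hX, hX'⟩
    exact h1 X hX hX'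
  have hsup : W ⊔ H.𝔭 = G.𝔭 := by
    apply le_antisymm
    · exact sup_le hWG fun X hX => p_mono hHG hX
    · intro X hX
      obtain ⟨w, hw, hwX⟩ := h2 X hX
      exact Submodule.mem_sup.mpr ⟨w, hw, X - w, hwX, by abel⟩
  have h3 := Submodule.finrank_sup_add_finrank_inf_eq W H.𝔭
  rw [hinf, hsup, finrank_bot] at h3
  unfold codim
  omega

/-- A continuous odd map from a subspace of dimension larger than `s` to `ℝˢ` has a zero. -/
lemma borsuk_ulam_sub {s : ℕ} {W : Submodule ℝ (Matrix ι ι ℝ)} (hWG : W ≤ G.𝔭)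
    (hs : s < finrank ℝ W) (f : G.𝔭 → Fin s → ℝ) (hf : Continuous f)
    (hodd : ∀ X, f (-X) = - f X) : ∃ X : G.𝔭, X.1 ∈ W ∧ X ≠ 0 ∧ f X = 0 := by
  let φ : EuclideanSpace ℝ (Fin (finrank ℝ W)) ≃ₗ[ℝ] W := LinearEquiv.ofFinrankEq _ _ (by simp)
  let ψ : EuclideanSpace ℝ (Fin (finrank ℝ W)) →ₗ[ℝ] G.𝔭 :=
    Submodule.inclusion hWG ∘ₗ φ.toLinearMap
  have hψ : Continuous ψ := LinearMap.continuous_of_finiteDimensional ψ
  have hinj : Function.Injective ψ := (Submodule.inclusion_injective hWG).comp φ.injective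
  obtain ⟨x, hx, hx0⟩ := Pool.Agent.Lib_MP_22bcea_gt.borsuk_ulam
    (E := EuclideanSpace ℝ (Fin (finrank ℝ W))) (by simpa using hs) (fun x => f (ψ x))
    (hf.comp hψ).continuousOn (by
      intro x _
      show f (ψ (-x)) = _
      rw [map_neg]
      exact hodd _)
  refine ⟨ψ x, (φ x).2, ?_, hx0⟩
  intro h0
  have h2 : x = 0 := hinj (h0.trans (map_zero ψ).symm)
  rw [h2, mem_sphere_zero_iff_norm, norm_zero] at hx
  exact zero_ne_one hx

/-- **Odd functions**: fewer odd functions than the dimension of the base, whose common zeros are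
conjugate into `𝔭_H`, exclude local geometric fibrations. -/
theorem noFib_of_odd (hHG : H.grp ≤ G.grp) {s : ℕ} (hs : s < codim G H)
    (f : G.𝔭 → Fin s → ℝ) (hf : Continuous f) (hodd : ∀ X, f (-X) = - f X)
    (hzero : ∀ X : G.𝔭, f X = 0 → ∃ k ∈ G.K, k.valᵀ * X.1 * k.val ∈ H.𝔭) :
    IsEmpty (LocalGeometricFibration G H) := by
  refine ⟨fun F => ?_⟩
  obtain ⟨W, hWG, hW⟩ := exists_complement hHG F
  obtain ⟨X, hX, hX0, hfX⟩ := borsuk_ulam_sub hWG (by rwa [finrank_complement hHG hWG hW]) f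
    hf hodd
  obtain ⟨k, hk, hkX⟩ := hzero X hfX
  exact hX0 (Subtype.ext ((hW k hk).1 X hX hkX))

/-! ### The functions -/

/-- The height of the orbit of `X` in the direction `Y`. -/
noncomputable def hgt (G : LinRed ι) (Y X : Matrix ι ι ℝ) : ℝ :=
  ⨆ k : G.K, (k.1.valᵀ * X * k.1.val * Y).trace

lemma bdd_hgt (G : LinRed ι) (Y X : Matrix ι ι ℝ) :
    BddAbove (Set.range fun k : G.K => (k.1.valᵀ * X * k.1.val * Y).trace) :=
  (isCompact_range (continuous_orbit G X Y)).bddAbove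

lemma le_hgt (Y X : Matrix ι ι ℝ) {k : GL ι ℝ} (hk : k ∈ G.K) :
    (k.valᵀ * X * k.val * Y).trace ≤ hgt G Y X :=
  le_ciSup (bdd_hgt G Y X) (⟨k, hk⟩ : G.K)

lemma exists_hgt (G : LinRed ι) (Y X : Matrix ι ι ℝ) :
    ∃ k ∈ G.K, hgt G Y X = (k.valᵀ * X * k.val * Y).trace := by
  obtain ⟨k₀, -, hmax⟩ := isCompact_univ.exists_isMaxOn (Set.univ_nonempty (α := G.K))
    (continuous_orbit G X Y).continuousOn
  exact ⟨k₀.1, k₀.2, le_antisymm (ciSup_le fun k => hmax (Set.mem_univ k)) (le_hgt Y X k₀.2)⟩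

lemma hgt_conj (Y X : Matrix ι ι ℝ) {k : GL ι ℝ} (hk : k ∈ G.K) :
    hgt G Y (k.valᵀ * X * k.val) = hgt G Y X := by
  have h : ∀ (X : Matrix ι ι ℝ) {k : GL ι ℝ}, k ∈ G.K →
      hgt G Y (k.valᵀ * X * k.val) ≤ hgt G Y X := by
    intro X k hk
    refine ciSup_le fun k' => ?_
    have h1 := le_hgt Y X (G.K.mul_mem hk k'.2)
    rw [Units.val_mul, transpose_mul] at h1
    calc (k'.1.valᵀ * (k.valᵀ * X * k.val) * k'.1.val * Y).trace
        = (k'.1.valᵀ * k.valᵀ * X * (k.val * k'.1.val) * Y).trace := by simp only [mul_assoc]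
      _ ≤ hgt G Y X := h1
  refine le_antisymm (h X hk) ?_
  have h1 := h (k.valᵀ * X * k.val) (G.K.inv_mem hk)
  rw [K_inv_val hk, transpose_transpose] at h1
  have h2 : k.val * (k.valᵀ * X * k.val) * k.valᵀ = X := by
    calc k.val * (k.valᵀ * X * k.val) * k.valᵀ
        = (k.val * k.valᵀ) * X * (k.val * k.valᵀ) := by simp only [mul_assoc]
      _ = X := by rw [K_orth' hk, one_mul, mul_one]
  rwa [h2] at h1

lemma hgt_smul (Y X : Matrix ι ι ℝ) {c : ℝ} (hc : 0 ≤ c) : hgt G Y (c • X) = c * hgt G Y X := by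
  unfold hgt
  rw [Real.mul_iSup_of_nonneg hc]
  congr 1
  funext k
  rw [mul_smul_comm, smul_mul_assoc, smul_mul_assoc, trace_smul, smul_eq_mul]

/-- The Lipschitz property of the height. -/
lemma exists_hgt_lip (G : LinRed ι) (Y : Matrix ι ι ℝ) :
    ∃ C : ℝ, 0 ≤ C ∧ ∀ X X', hgt G Y X ≤ hgt G Y X' + C * ‖X - X'‖ := by
  obtain ⟨R, hR⟩ := (isCompact_range (continuous_K_val G).norm).bddAbove
  have hR' : ∀ k : G.K, ‖k.1.val‖ ≤ R := fun k => hR ⟨k, rfl⟩
  have hRt : ∀ k : G.K, ‖k.1.valᵀ‖ ≤ R := by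
    intro k
    have := hR' k⁻¹
    have h1 : ((k⁻¹ : G.K).1).val = k.1.valᵀ := K_inv_val k.2
    rwa [h1] at this
  have hR0 : 0 ≤ R := (norm_nonneg _).trans (hR' 1)
  let T : Matrix ι ι ℝ →L[ℝ] ℝ := LinearMap.toContinuousLinearMap (Matrix.traceLinearMap ι ℝ ℝ)
  obtain ⟨c, hc, hT⟩ := T.bound
  refine ⟨c * (R * R * ‖Y‖), by positivity, fun X X' => ciSup_le fun k => ?_⟩
  have h1 : (k.1.valᵀ * X * k.1.val * Y).trace
      = (k.1.valᵀ * X' * k.1.val * Y).trace + T (k.1.valᵀ * (X - X') * k.1.val * Y) := by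
    show _ = _ + (k.1.valᵀ * (X - X') * k.1.val * Y).trace
    rw [← trace_add]
    congr 1
    noncomm_ring
  rw [h1]
  refine add_le_add (le_hgt Y X' k.2) ?_
  calc T (k.1.valᵀ * (X - X') * k.1.val * Y) ≤ ‖T (k.1.valᵀ * (X - X') * k.1.val * Y)‖ :=
        Real.le_norm_self _
    _ ≤ c * ‖k.1.valᵀ * (X - X') * k.1.val * Y‖ := hT _
    _ ≤ c * (((R * ‖X - X'‖) * R) * ‖Y‖) := by
        refine mul_le_mul_of_nonneg_left ?_ hc.le
        refine (norm_mul_le _ _).trans (mul_le_mul_of_nonneg_right ?_ (norm_nonneg _))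
        refine (norm_mul_le _ _).trans (mul_le_mul ?_ (hR' k) (norm_nonneg _) (by positivity))
        exact (norm_mul_le _ _).trans (mul_le_mul_of_nonneg_right (hRt k) (norm_nonneg _))
    _ = c * (R * R * ‖Y‖) * ‖X - X'‖ := by ring

/-- The odd part of the height. -/
noncomputable def ohg (G : LinRed ι) (Y X : Matrix ι ι ℝ) : ℝ := hgt G Y X - hgt G Y (-X)

lemma ohg_neg (Y X : Matrix ι ι ℝ) : ohg G Y (-X) = - ohg G Y X := by
  unfold ohg
  rw [neg_neg]
  ring

lemma ohg_smul (Y X : Matrix ι ι ℝ) (c : ℝ) : ohg G Y (c • X) = c * ohg G Y X := by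
  have h : ∀ c : ℝ, 0 ≤ c → ohg G Y (c • X) = c * ohg G Y X := by
    intro c hc
    unfold ohg
    rw [← smul_neg, hgt_smul Y X hc, hgt_smul Y (-X) hc]
    ring
  rcases le_total 0 c with hc | hc
  · exact h c hc
  · have h1 := h (-c) (by linarith)
    rw [neg_smul, ohg_neg] at h1
    linarith

lemma ohg_conj (Y X : Matrix ι ι ℝ) {k : GL ι ℝ} (hk : k ∈ G.K) :
    ohg G Y (k.valᵀ * X * k.val) = ohg G Y X := by
  unfold ohg
  rw [hgt_conj Y X hk]
  congr 1
  rw [← hgt_conj Y (-X) hk]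
  congr 1
  noncomm_ring

lemma exists_ohg_lip (G : LinRed ι) (Y : Matrix ι ι ℝ) :
    ∃ C : ℝ≥0, LipschitzWith C (ohg G Y) := by
  obtain ⟨C, hC, h⟩ := exists_hgt_lip G Y
  refine ⟨(2 * C).toNNReal, LipschitzWith.of_le_add_mul _ fun X X' => ?_⟩
  rw [Real.coe_toNNReal _ (by positivity), dist_eq_norm]
  have h1 := h X X'
  have h2 := h (-X') (-X)
  have h3 : ‖-X' - -X‖ = ‖X - X'‖ := by
    congr 1
    abel
  rw [h3] at h2
  unfold ohg
  linarith

/-- `ohg X X > 0` unless `X` is conjugate to `-X`. -/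
lemma ohg_self_pos {X : Matrix ι ι ℝ} (hX : X ∈ G.𝔭)
    (h : ¬ ∃ k ∈ G.K, k.valᵀ * X * k.val = -X) : 0 < ohg G X X := by
  by_contra hcon
  push Not at hcon
  apply h
  obtain ⟨k, hk, hkX⟩ := exists_hgt G X (-X)
  have h1 := le_hgt X X G.K.one_mem
  simp only [Units.val_one, transpose_one, one_mul, mul_one] at h1
  unfold ohg at hcon
  rw [hkX] at hcon
  refine ⟨k, hk, ?_⟩
  set Z := k.valᵀ * X * k.val with hZ
  have hXs : Xᵀ = X := G.symm X hX
  have hZs : Zᵀ = Z := G.symm Z (conj_mem_p' hk hX)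
  have hZZ : (Z * Z).trace = (X * X).trace := by
    have e : Z * Z = k.valᵀ * (X * X * k.val) := by
      calc Z * Z = k.valᵀ * X * (k.val * k.valᵀ) * X * k.val := by
            rw [hZ]; simp only [mul_assoc]
        _ = k.valᵀ * (X * X * k.val) := by rw [K_orth' hk, mul_one]; simp only [mul_assoc]
    rw [e, trace_mul_comm, mul_assoc, mul_assoc, K_orth' hk, mul_one]
  have hneg : k.valᵀ * (-X) * k.val = -Z := by
    rw [hZ]; noncomm_ring
  rw [hneg, neg_mul, trace_neg] at hcon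
  have h2 : ((Z + X)ᵀ * (Z + X)).trace ≤ 0 := by
    rw [transpose_add, hXs, hZs]
    have e : (Z + X) * (Z + X) = Z * Z + Z * X + X * Z + X * X := by noncomm_ring
    rw [e, trace_add, trace_add, trace_add, hZZ, trace_mul_comm X Z]
    linarith
  have h3 := eq_zero_of_trace_tm (le_antisymm h2 (trace_tm_nonneg _))
  exact eq_neg_of_add_eq_zero_left h3

/-! ### The theorem -/

/-- **Benoist's obstruction**: if every `X ∈ 𝔭_G` which is `K`-conjugate to `-X` is conjugate into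
`𝔭_H`, and the dimension of the base is larger than the real rank of `G`, then there is no local
geometric fibration. -/
theorem noFib_benoist (hHG : H.grp ≤ G.grp)
    (hb : ∀ X ∈ G.𝔭, (∃ k ∈ G.K, k.valᵀ * X * k.val = -X) →
      ∃ k ∈ G.K, k.valᵀ * X * k.val ∈ H.𝔭)
    (hrank : realRank G < codim G H) : IsEmpty (LocalGeometricFibration G H) := by
  refine ⟨fun F => ?_⟩
  obtain ⟨W, hWG, hW⟩ := exists_complement hHG F
  have hWr := finrank_complement hHG hWG hW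
  -- no element of `W` is conjugate to its negative
  have hpos : ∀ X ∈ W, X ≠ 0 → 0 < ohg G X X := by
    intro X hX hX0
    refine ohg_self_pos (hWG hX) fun h => ?_
    obtain ⟨k, hk, hkX⟩ := hb X (hWG hX) h
    exact hX0 ((hW k hk).1 X hX hkX)
  -- a finite number of functions without common zeros on `W`
  have hcont : ∀ Y, Continuous (ohg G Y) := fun Y => by
    obtain ⟨C, hC⟩ := exists_ohg_lip G Y
    exact hC.continuous
  let S : Set (Matrix ι ι ℝ) := (W : Set (Matrix ι ι ℝ)) ∩ Metric.sphere 0 1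
  have hS : IsCompact S := (isCompact_sphere (0 : Matrix ι ι ℝ) 1).inter_left
    W.closed_of_finiteDimensional
  obtain ⟨t, ht⟩ := hS.elim_finite_subcover (fun Y : S => {X | ohg G Y.1 X ≠ 0})
    (fun Y => isOpen_ne_fun (hcont Y.1) continuous_const) (by
      intro X hX
      rw [Set.mem_iUnion]
      refine ⟨⟨X, hX⟩, (hpos X hX.1 ?_).ne'⟩
      rintro rfl
      have := hX.2
      simp at this)
  let e := t.equivFin
  let Fn : Matrix ι ι ℝ → Fin t.card → ℝ := fun X i => ohg G (e.symm i).1.1 X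
  have hFlip : ∃ C, LipschitzWith C Fn := by
    choose C hC using fun i : Fin t.card => exists_ohg_lip G (e.symm i).1.1
    refine ⟨Finset.univ.sup C, fun X X' => edist_pi_le_iff.mpr fun i => ?_⟩
    exact ((hC i).weaken (Finset.le_sup (Finset.mem_univ i))) X X'
  have hFsmul : ∀ (c : ℝ) X, Fn (c • X) = c • Fn X := fun c X => by
    ext i
    exact ohg_smul _ _ _
  have hFneg : ∀ X, Fn (-X) = - Fn X := fun X => by
    ext i
    exact ohg_neg _ _
  have hFconj : ∀ (X : Matrix ι ι ℝ) {k : GL ι ℝ}, k ∈ G.K → Fn (k.valᵀ * X * k.val) = Fn X :=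
    fun X k hk => by
      ext i
      exact ohg_conj _ _ hk
  have hFne : ∀ X ∈ W, X ≠ 0 → Fn X ≠ 0 := by
    intro X hX hX0 h0
    have hn : 0 < ‖X‖ := norm_pos_iff.mpr hX0
    have h1 : ‖X‖⁻¹ • X ∈ S := by
      refine ⟨W.smul_mem _ hX, ?_⟩
      rw [mem_sphere_zero_iff_norm, norm_smul, norm_inv, norm_norm]
      exact inv_mul_cancel₀ hn.ne'
    have h2 := ht h1
    simp only [Set.mem_iUnion] at h2
    obtain ⟨Y, hY, h3⟩ := h2
    apply h3
    have h4 := congrFun (hFsmul ‖X‖⁻¹ X) (e ⟨Y, hY⟩)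
    rw [h0, smul_zero] at h4
    have h5 : Fn (‖X‖⁻¹ • X) (e ⟨Y, hY⟩) = ohg G Y.1 (‖X‖⁻¹ • X) := by
      show ohg G (e.symm (e ⟨Y, hY⟩)).1.1 _ = _
      rw [Equiv.symm_apply_apply]
    rw [← h5, h4]
    rfl
  -- reduction to the real rank
  obtain ⟨Y₀, hY₀, hr⟩ := exists_realRank G
  obtain ⟨C, hC⟩ := hFlip
  obtain ⟨L, hL⟩ := exists_reduction (A := centraliser G Y₀) t.card (fun Y => Fn Y.1)
    ⟨C * 1, hC.comp (LipschitzWith.subtype_val _)⟩ (fun c Y => hFsmul c Y.1)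
  obtain ⟨X, hX, hX0, hfX⟩ := borsuk_ulam_sub hWG (s := finrank ℝ (centraliser G Y₀))
    (by rw [hr, hWr]; exact hrank) (fun X => L (Fn X.1))
    ((LinearMap.continuous_of_finiteDimensional L).comp
      (hC.continuous.comp continuous_subtype_val))
    (fun X => by
      show L (Fn (-X.1)) = _
      rw [hFneg, map_neg])
  obtain ⟨k, hk, hkX⟩ := exists_conj_centraliser X.2 hY₀
  apply hFne X.1 hX (fun h => hX0 (Subtype.ext h))
  rw [← hFconj X.1 hk]
  apply hL ⟨_, hkX⟩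
  show L (Fn (k.valᵀ * X.1 * k.val)) = 0
  rw [hFconj X.1 hk]
  exact hfX

end F31343
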