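import Mathlib
import Pool.Agent.Lib_MP_f31343.Benoist

/-!
# Benoist's obstruction with a Weyl chamber
-/

open Matrix NormedSpace Filter Topology Module
open scoped Matrix.Norms.Operator ContDiff NNReal

namespace F31343

variable {ι : Type*} [Fintype ι] [DecidableEq ι] {G H : LinRed ι}

/-- A closed Weyl chamber `C` in a subspace `𝔞` of `𝔭_G`, whose dimension is the real rank of `G`,
with its opposition involution. (For the Weyl chambers of a maximal abelian subspace `𝔞` of `𝔭_G`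
one takes for `K₀` the identity component of `K`.) -/
structure WeylChamber (G : LinRed ι) where
  /-- a closed subgroup of `K`, for instance the identity component -/
  K₀ : Subgroup (GL ι ℝ)
  K₀_le : K₀ ≤ G.K
  isClosed_K₀ : IsClosed (K₀ : Set (GL ι ℝ))
  /-- the subspace -/
  𝔞 : Submodule ℝ (Matrix ι ι ℝ)
  𝔞_le : 𝔞 ≤ G.𝔭
  finrank_𝔞 : finrank ℝ 𝔞 = realRank G
  /-- the closed Weyl chamber -/
  C : Set (Matrix ι ι ℝ)
  C_subset : C ⊆ 𝔞
  isClosed_C : IsClosed C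
  /-- it meets every orbit of `K₀` on `𝔭_G` in exactly one point -/
  existsUnique : ∀ X ∈ G.𝔭, ∃! Y, Y ∈ C ∧ ∃ k ∈ K₀, k.valᵀ * X * k.val = Y
  /-- the opposition involution -/
  opp : 𝔞 →ₗ[ℝ] 𝔞
  /-- it maps each `Y ∈ C` to the element of `C` which is conjugate to `-Y` -/
  opp_mem : ∀ Y : 𝔞, Y.1 ∈ C → (opp Y).1 ∈ C ∧ ∃ k ∈ K₀, k.valᵀ * (-Y.1) * k.val = (opp Y).1

namespace WeylChamber

variable (w : WeylChamber G)

lemma isCompact_K₀ : IsCompact (w.K₀ : Set (GL ι ℝ)) :=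
  (isCompact_K G).of_isClosed_subset w.isClosed_K₀ w.K₀_le

/-- The projection to the chamber. -/
noncomputable def μ (X : G.𝔭) : w.𝔞 :=
  ⟨(w.existsUnique X.1 X.2).choose, w.C_subset (w.existsUnique X.1 X.2).choose_spec.1.1⟩

lemma μ_mem (X : G.𝔭) : (w.μ X).1 ∈ w.C := (w.existsUnique X.1 X.2).choose_spec.1.1

lemma μ_conj (X : G.𝔭) : ∃ k ∈ w.K₀, k.valᵀ * X.1 * k.val = (w.μ X).1 :=
  (w.existsUnique X.1 X.2).choose_spec.1.2

lemma eq_μ (X : G.𝔭) {Y : Matrix ι ι ℝ} (hY : Y ∈ w.C)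
    (h : ∃ k ∈ w.K₀, k.valᵀ * X.1 * k.val = Y) : Y = (w.μ X).1 :=
  (w.existsUnique X.1 X.2).choose_spec.2 Y ⟨hY, h⟩

set_option backward.isDefEq.respectTransparency false in
lemma continuous_μ : Continuous w.μ := by
  rw [continuous_iff_continuousAt]
  intro X
  rw [ContinuousAt, tendsto_subtype_rng]
  refine tendsto_of_subseq_tendsto fun ns hns => ?_
  choose k hk hkμ using fun n => w.μ_conj (ns n)
  have : FirstCountableTopology (GL ι ℝ) :=
    (isOpenEmbedding_val (ι := ι)).isInducing.firstCountableTopology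
  obtain ⟨k₀, hk₀, φ, hφ, hlim⟩ := w.isCompact_K₀.tendsto_subseq hk
  refine ⟨φ, ?_⟩
  have h1 : Tendsto (fun n => (k (φ n)).val) atTop (𝓝 k₀.val) :=
    (isOpenEmbedding_val.continuous.tendsto k₀).comp hlim
  have h2 : Tendsto (fun n => (k (φ n)).valᵀ) atTop (𝓝 k₀.valᵀ) :=
    ((continuous_id.matrix_transpose).tendsto k₀.val).comp h1
  have h3 : Tendsto (fun n => (ns (φ n)).1) atTop (𝓝 X.1) :=
    (continuous_subtype_val.tendsto X).comp (hns.comp hφ.tendsto_atTop)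
  have h4 : Tendsto (fun n => (w.μ (ns (φ n))).1) atTop (𝓝 (k₀.valᵀ * X.1 * k₀.val)) := by
    have h5 := (h2.mul h3).mul h1
    refine h5.congr fun n => ?_
    exact hkμ (φ n)
  have h6 : k₀.valᵀ * X.1 * k₀.val ∈ w.C :=
    w.isClosed_C.mem_of_tendsto h4 (Eventually.of_forall fun n => w.μ_mem _)
  rw [← w.eq_μ X h6 ⟨k₀, hk₀, rfl⟩]
  exact h4

lemma opp_μ (X : G.𝔭) : w.opp (w.μ X) = w.μ (-X) := by
  obtain ⟨h1, k', hk', h2⟩ := w.opp_mem (w.μ X) (w.μ_mem X)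
  obtain ⟨k, hk, hkX⟩ := w.μ_conj X
  refine Subtype.ext (w.eq_μ (-X) h1 ⟨k * k', w.K₀.mul_mem hk hk', ?_⟩)
  rw [← h2, ← hkX, Units.val_mul, transpose_mul]
  show k'.valᵀ * k.valᵀ * (-X.1) * (k.val * k'.val) = _
  noncomm_ring

end WeylChamber

/-- **Benoist's obstruction**, with a Weyl chamber: the fixed points of the opposition involution
are contained in a subspace of elements conjugate into `𝔭_H`. -/
theorem noFib_chamber (hHG : H.grp ≤ G.grp) (w : WeylChamber G)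
    (V : Submodule ℝ (Matrix ι ι ℝ)) (hV : V ≤ w.𝔞)
    (hconj : ∀ Y ∈ V, ∃ k ∈ G.K, k.valᵀ * Y * k.val ∈ H.𝔭)
    (hfix : ∀ Y : w.𝔞, w.opp Y = Y → Y.1 ∈ V)
    (hdim : finrank ℝ w.𝔞 < codim G H + finrank ℝ V) : IsEmpty (LocalGeometricFibration G H) := by
  let V' : Submodule ℝ w.𝔞 := V.comap w.𝔞.subtype
  have hV' : finrank ℝ V' = finrank ℝ V :=
    (Submodule.comapSubtypeEquivOfLe hV).finrank_eq
  have hq := Submodule.finrank_quotient_add_finrank V'
  let e : (w.𝔞 ⧸ V') ≃ₗ[ℝ] (Fin (finrank ℝ (w.𝔞 ⧸ V')) → ℝ) :=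
    LinearEquiv.ofFinrankEq _ _ (by rw [Module.finrank_fin_fun])
  let L : w.𝔞 →ₗ[ℝ] (Fin (finrank ℝ (w.𝔞 ⧸ V')) → ℝ) := e.toLinearMap ∘ₗ V'.mkQ
  have hL : ∀ Y, L Y = 0 → Y.1 ∈ V := by
    intro Y hY
    have h1 : V'.mkQ Y = 0 := e.injective (hY.trans (map_zero e).symm)
    rw [Submodule.mkQ_apply, Submodule.Quotient.mk_eq_zero] at h1
    exact h1
  refine noFib_of_odd hHG (s := finrank ℝ (w.𝔞 ⧸ V')) (by omega)
    (fun X => L (w.μ X - w.opp (w.μ X))) ?_ ?_ ?_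
  · exact (LinearMap.continuous_of_finiteDimensional L).comp
      (w.continuous_μ.sub ((LinearMap.continuous_of_finiteDimensional w.opp).comp w.continuous_μ))
  · intro X
    show L (w.μ (-X) - w.opp (w.μ (-X))) = - L (w.μ X - w.opp (w.μ X))
    rw [w.opp_μ (-X), neg_neg, w.opp_μ X, ← map_neg, neg_sub]
  · intro X hX
    have h1 : (w.μ X - w.opp (w.μ X)).1 ∈ V := hL _ hX
    have h2 : (w.μ X + w.opp (w.μ X)).1 ∈ V := by
      refine hfix _ ?_
      rw [map_add, w.opp_μ X, w.opp_μ (-X), neg_neg, add_comm]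
    have h3 : (w.μ X).1 ∈ V := by
      have h4 := V.add_mem h1 h2
      have h5 : (w.μ X - w.opp (w.μ X)).1 + (w.μ X + w.opp (w.μ X)).1 = (2 : ℝ) • (w.μ X).1 := by
        show (w.μ X).1 - (w.opp (w.μ X)).1 + ((w.μ X).1 + (w.opp (w.μ X)).1) = _
        rw [two_smul]
        abel
      rw [h5] at h4
      exact (V.smul_mem_iff (by norm_num : (2 : ℝ) ≠ 0)).mp h4
    obtain ⟨k, hk, hkY⟩ := hconj _ h3
    obtain ⟨k', hk', hk'X⟩ := w.μ_conj X
    refine ⟨k' * k, G.K.mul_mem (w.K₀_le hk') hk, ?_⟩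
    rw [Units.val_mul, transpose_mul]
    have h6 : k.valᵀ * k'.valᵀ * X.1 * (k'.val * k.val)
        = k.valᵀ * (k'.valᵀ * X.1 * k'.val) * k.val := by simp only [mul_assoc]
    rw [h6, hk'X]
    exact hkY

end F31343
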