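import Mathlib
import Pool.Agent.Lib_MP_f31343.Polar

/-!
# The dimension of the base and the real ranks

If `G` has no noncompact centre then `dim 𝔭_G - dim 𝔭_H > rank G - rank H`, unless `𝔭_H = 𝔭_G`.
-/

open Matrix NormedSpace Filter Topology Module
open scoped Matrix.Norms.Operator ContDiff

namespace F31343

variable {ι : Type*} [Fintype ι] [DecidableEq ι] {G H : LinRed ι}

/-! ### Orthogonal complements in `𝔭` -/

/-- The orthogonal complement of `A` in `𝔭_G` for the trace form. -/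
def perp (G : LinRed ι) (A : Submodule ℝ (Matrix ι ι ℝ)) : Submodule ℝ (Matrix ι ι ℝ) where
  carrier := {X | X ∈ G.𝔭 ∧ ∀ Y ∈ A, (X * Y).trace = 0}
  add_mem' := by
    rintro X Y ⟨hX, hX'⟩ ⟨hY, hY'⟩
    refine ⟨G.𝔭.add_mem hX hY, fun Z hZ => ?_⟩
    rw [add_mul, trace_add, hX' Z hZ, hY' Z hZ, add_zero]
  zero_mem' := ⟨G.𝔭.zero_mem, fun Z _ => by rw [zero_mul, trace_zero]⟩
  smul_mem' := by
    rintro c X ⟨hX, hX'⟩
    refine ⟨G.𝔭.smul_mem c hX, fun Z hZ => ?_⟩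
    rw [smul_mul_assoc, trace_smul, hX' Z hZ, smul_zero]

lemma eq_zero_of_trace_sq {X : Matrix ι ι ℝ} (hX : X ∈ G.𝔭) (h : (X * X).trace = 0) : X = 0 := by
  apply eq_zero_of_trace_tm
  rw [G.symm X hX]
  exact h

lemma exists_perp {A : Submodule ℝ (Matrix ι ι ℝ)} (hA : A ≤ G.𝔭) {X : Matrix ι ι ℝ}
    (hX : X ∈ G.𝔭) : ∃ Y ∈ A, ∃ Z ∈ perp G A, X = Y + Z := by
  obtain ⟨n, b, hb, -⟩ := exists_onb (trS A)
    (fun x y => by rw [trS_apply, trS_apply, trace_mul_comm])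
    (trS_pos _ fun X hX => G.symm X (hA hX))
  have hY : ∑ i, (X * (b i).1).trace • (b i).1 ∈ A :=
    Submodule.sum_mem _ fun i _ => Submodule.smul_mem _ _ (b i).2
  refine ⟨_, hY, X - ∑ i, (X * (b i).1).trace • (b i).1, ⟨G.𝔭.sub_mem hX (hA hY), ?_⟩,
    (add_sub_cancel _ _).symm⟩
  intro y hy
  have h1 := congrArg Subtype.val (hb ⟨y, hy⟩)
  rw [AddSubmonoidClass.coe_finsetSum] at h1
  have h2 : y = ∑ i, ((b i).1 * y).trace • (b i).1 := h1
  have h3 : (X * y).trace = ∑ i, ((b i).1 * y).trace * (X * (b i).1).trace := by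
    conv_lhs => rw [h2]
    rw [Finset.mul_sum, trace_sum]
    refine Finset.sum_congr rfl fun i _ => ?_
    rw [mul_smul_comm, trace_smul, smul_eq_mul]
  rw [sub_mul, trace_sub, h3, Finset.sum_mul, trace_sum, sub_eq_zero]
  refine Finset.sum_congr rfl fun i _ => ?_
  rw [smul_mul_assoc, trace_smul, smul_eq_mul, mul_comm]

lemma perp_inf {A : Submodule ℝ (Matrix ι ι ℝ)} : A ⊓ perp G A = ⊥ := by
  rw [Submodule.eq_bot_iff]
  rintro X ⟨hX, hX'⟩
  exact eq_zero_of_trace_sq hX'.1 (hX'.2 X hX)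

lemma perp_le {A : Submodule ℝ (Matrix ι ι ℝ)} : perp G A ≤ G.𝔭 := fun _ h => h.1

lemma finrank_perp {A : Submodule ℝ (Matrix ι ι ℝ)} (hA : A ≤ G.𝔭) :
    finrank ℝ A + finrank ℝ (perp G A) = finrank ℝ G.𝔭 := by
  have h1 := Submodule.finrank_sup_add_finrank_inf_eq A (perp G A)
  have h2 : A ⊔ perp G A = G.𝔭 := by
    apply le_antisymm (sup_le hA perp_le)
    intro X hX
    obtain ⟨Y, hY, Z, hZ, rfl⟩ := exists_perp hA hX
    exact Submodule.add_mem_sup hY hZ
  rw [perp_inf, h2, finrank_bot, add_zero] at h1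
  exact h1.symm

/-! ### Centralisers -/

lemma centraliser_le (X : Matrix ι ι ℝ) : centraliser G X ≤ G.𝔭 := fun _ h => h.1

lemma realRank_le {X : Matrix ι ι ℝ} (hX : X ∈ G.𝔭) : realRank G ≤ finrank ℝ (centraliser G X) :=
  Nat.sInf_le ⟨X, hX, rfl⟩

omit [DecidableEq ι] in
lemma trace_brk_mul (B X U : Matrix ι ι ℝ) : (brk B X * U).trace = (B * brk X U).trace := by
  unfold brk
  rw [sub_mul, mul_sub, trace_sub, trace_sub, mul_assoc]
  congr 1
  rw [mul_assoc, trace_mul_comm, mul_assoc]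

/-- `tr ([[Y, X], X] U) = tr ([Y, X] [X, U])`. -/
lemma trace_ad2 (X Y U : Matrix ι ι ℝ) :
    (brk (brk Y X) X * U).trace = (brk Y X * brk X U).trace := trace_brk_mul _ _ _

lemma brk_self_zero {X Y : Matrix ι ι ℝ} (hX : X ∈ G.𝔭) (hY : Y ∈ G.𝔭)
    (h : (brk (brk Y X) X * Y).trace = 0) : Y * X = X * Y := by
  rw [trace_ad2] at h
  have hA : brk Y X ∈ G.𝔨 := brk_mem_k hY hX
  have h1 : brk X Y = (brk Y X)ᵀ := by
    rw [transpose_of_mem_k hA]
    unfold brk
    rw [neg_sub]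
  rw [h1, trace_mul_comm] at h
  exact sub_eq_zero.mp (eq_zero_of_trace_tm h)

lemma ad2_mem {X Y : Matrix ι ι ℝ} (hX : X ∈ G.𝔭) (hY : Y ∈ G.𝔭) : brk (brk Y X) X ∈ G.𝔭 :=
  ad_mem_p (brk_mem_k hY hX) hX

lemma ad2_perp {X Y : Matrix ι ι ℝ} (hX : X ∈ G.𝔭) (hY : Y ∈ G.𝔭) :
    brk (brk Y X) X ∈ perp G (centraliser G X) := by
  refine ⟨ad2_mem hX hY, fun U hU => ?_⟩
  rw [trace_ad2]
  have h1 : brk X U = 0 := by
    unfold brk
    rw [hU.2, sub_self]
  rw [h1, mul_zero, trace_zero]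

/-- Every element orthogonal to the centraliser of `X` is of the form `[[Y, X], X]`. -/
lemma exists_ad2 {X Z : Matrix ι ι ℝ} (hX : X ∈ G.𝔭) (hZ : Z ∈ perp G (centraliser G X)) :
    ∃ Y ∈ G.𝔭, Z = brk (brk Y X) X := by
  let T : Matrix ι ι ℝ →ₗ[ℝ] Matrix ι ι ℝ :=
    (LinearMap.mulRight ℝ X - LinearMap.mulLeft ℝ X) ∘ₗ
      (LinearMap.mulRight ℝ X - LinearMap.mulLeft ℝ X)
  have hT : ∀ Y, T Y = brk (brk Y X) X := fun Y => rfl
  have hmaps : ∀ Y ∈ perp G (centraliser G X), T Y ∈ perp G (centraliser G X) := fun Y hY => by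
    rw [hT]; exact ad2_perp hX hY.1
  let R := T.restrict hmaps
  have hinj : Function.Injective R := by
    rw [injective_iff_map_eq_zero]
    intro Y hY
    have h1 : brk (brk Y.1 X) X = 0 := congrArg Subtype.val hY
    have h2 : Y.1 * X = X * Y.1 := brk_self_zero hX Y.2.1 (by rw [h1, zero_mul, trace_zero])
    exact Subtype.ext (eq_zero_of_trace_sq Y.2.1 (Y.2.2 Y.1 ⟨Y.2.1, h2⟩))
  have hsurj : Function.Surjective R := LinearMap.injective_iff_surjective.mp hinj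
  obtain ⟨Y, hY⟩ := hsurj ⟨Z, hZ⟩
  exact ⟨Y.1, Y.2.1, (congrArg Subtype.val hY).symm⟩

lemma perp_mono (hHG : H.grp ≤ G.grp) {X : Matrix ι ι ℝ} (hX : X ∈ H.𝔭) :
    perp H (centraliser H X) ≤ perp G (centraliser G X) := by
  intro Z hZ
  obtain ⟨Y, hY, rfl⟩ := exists_ad2 hX hZ
  exact ad2_perp (p_mono hHG hX) (p_mono hHG hY)

/-- The dimension of the centraliser does not increase under small perturbations. -/
lemma exists_small' (G : LinRed ι) (X Z : Matrix ι ι ℝ) : ∃ ε : ℝ, 0 < ε ∧ ∀ t : ℝ, 0 < t →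
    t ≤ ε → centraliser G (X + t • Z) ⊓ perp G (centraliser G X) = ⊥ := by
  let D : perp G (centraliser G X) →ₗ[ℝ] Matrix ι ι ℝ :=
    (LinearMap.mulRight ℝ X - LinearMap.mulLeft ℝ X) ∘ₗ (perp G (centraliser G X)).subtype
  have hD : ∀ Y, D Y = Y.1 * X - X * Y.1 := fun Y => rfl
  have hker : LinearMap.ker D = ⊥ := by
    rw [LinearMap.ker_eq_bot']
    intro Y hY
    rw [hD, sub_eq_zero] at hY
    exact Subtype.ext (eq_zero_of_trace_sq Y.2.1 (Y.2.2 Y.1 ⟨Y.2.1, hY⟩))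
  obtain ⟨C, hC, hanti⟩ := D.exists_antilipschitzWith hker
  refine ⟨1 / (2 * C * (‖Z‖ + 1)), by positivity, fun t ht hte => ?_⟩
  set ε : ℝ := 1 / (2 * C * (‖Z‖ + 1)) with hε
  have hε0 : 0 < ε := by positivity
  rw [Submodule.eq_bot_iff]
  rintro Y ⟨hY, hY'⟩
  have h1 : Y * (X + t • Z) = (X + t • Z) * Y := hY.2
  have h2 : D ⟨Y, hY'⟩ = t • (Z * Y - Y * Z) := by
    rw [hD, smul_sub, sub_eq_sub_iff_add_eq_add]
    rw [mul_add, add_mul, mul_smul_comm, smul_mul_assoc] at h1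
    rw [h1, add_comm]
  have h3 : ‖Y‖ ≤ C * ‖D ⟨Y, hY'⟩‖ := by
    have := hanti.le_mul_dist ⟨Y, hY'⟩ 0
    rw [map_zero, dist_zero_right, dist_zero_right] at this
    exact this
  have h4 : ‖D ⟨Y, hY'⟩‖ ≤ ε * (2 * (‖Z‖ * ‖Y‖)) := by
    rw [h2, norm_smul, Real.norm_of_nonneg ht.le]
    refine mul_le_mul hte ?_ (norm_nonneg _) hε0.le
    calc ‖Z * Y - Y * Z‖ ≤ ‖Z * Y‖ + ‖Y * Z‖ := norm_sub_le _ _
      _ ≤ ‖Z‖ * ‖Y‖ + ‖Y‖ * ‖Z‖ := add_le_add (norm_mul_le _ _) (norm_mul_le _ _)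
      _ = 2 * (‖Z‖ * ‖Y‖) := by ring
  have h5 : ‖Y‖ ≤ C * (ε * (2 * (‖Z‖ * ‖Y‖))) := h3.trans (by gcongr)
  have h6 : C * (ε * (2 * (‖Z‖ * ‖Y‖))) = ‖Z‖ / (‖Z‖ + 1) * ‖Y‖ := by
    rw [hε]
    have : (C : ℝ) ≠ 0 := by positivity
    field_simp
  rw [h6] at h5
  by_contra hne
  have h7 : 0 < ‖Y‖ := norm_pos_iff.mpr hne
  have h8 : ‖Z‖ / (‖Z‖ + 1) < 1 := by
    rw [div_lt_one (by positivity)]
    linarith
  nlinarith

lemma exists_small {X Z : Matrix ι ι ℝ} : ∃ ε : ℝ, 0 < ε ∧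
    centraliser G (X + ε • Z) ⊓ perp G (centraliser G X) = ⊥ := by
  obtain ⟨ε, hε, h⟩ := exists_small' G X Z
  exact ⟨ε, hε, h ε hε le_rfl⟩

lemma finrank_le_of_inf {A B : Submodule ℝ (Matrix ι ι ℝ)} (hA : A ≤ G.𝔭) (hB : B ≤ G.𝔭)
    (hAB : A ⊓ perp G B = ⊥) : finrank ℝ A ≤ finrank ℝ B := by
  have h1 := Submodule.finrank_sup_add_finrank_inf_eq A (perp G B)
  have h2 : finrank ℝ ↑(A ⊔ perp G B) ≤ finrank ℝ G.𝔭 :=
    Submodule.finrank_mono (sup_le hA perp_le)
  have h3 := finrank_perp hB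
  rw [hAB, finrank_bot] at h1
  omega

/-- The centraliser of a regular element is abelian. -/
lemma comm_of_regular {X Y U : Matrix ι ι ℝ} (hX : X ∈ G.𝔭)
    (hr : finrank ℝ (centraliser G X) = realRank G) (hY : Y ∈ centraliser G X)
    (hU : U ∈ centraliser G X) : U * Y = Y * U := by
  obtain ⟨ε, hε, hbot⟩ := exists_small (G := G) (X := X) (Z := Y)
  have hXY : X + ε • Y ∈ G.𝔭 := G.𝔭.add_mem hX (G.𝔭.smul_mem _ hY.1)
  have hYX : Y * X = X * Y := hY.2
  have key : centraliser G (X + ε • Y) ≤ centraliser G X ⊓ centraliser G Y := by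
    intro V hV
    obtain ⟨V1, hV1, V2, hV2, rfl⟩ := exists_perp (centraliser_le X) hV.1
    have hV1X : V1 * X = X * V1 := hV1.2
    obtain ⟨P, hP⟩ : ∃ P, P = V1 * Y - Y * V1 := ⟨_, rfl⟩
    have hPk : P ∈ G.𝔨 := by rw [hP]; exact brk_mem_k hV1.1 hY.1
    have hPX : P * X = X * P := by
      have e1 : V1 * Y * X = X * (V1 * Y) := by
        rw [mul_assoc, hYX, ← mul_assoc, hV1X, mul_assoc]
      have e2 : Y * V1 * X = X * (Y * V1) := by
        rw [mul_assoc, hV1X, ← mul_assoc, hYX, mul_assoc]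
      rw [hP, sub_mul, mul_sub, e1, e2]
    have hQ : ε • P = -(V2 * (X + ε • Y) - (X + ε • Y) * V2) := by
      have h1 : (V1 + V2) * (X + ε • Y) = (X + ε • Y) * (V1 + V2) := hV.2
      have h2 : V1 * (X + ε • Y) - (X + ε • Y) * V1 = ε • P := by
        rw [mul_add, add_mul, mul_smul_comm, smul_mul_assoc, hV1X, hP, smul_sub]
        abel
      rw [← h2, neg_sub, sub_eq_sub_iff_add_eq_add]
      rw [add_mul V1 V2, mul_add (X + ε • Y) V1 V2] at h1
      rw [h1, add_comm]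
    have e1 : (P * (V2 * X - X * V2)).trace = 0 := by
      rw [mul_sub, trace_sub, sub_eq_zero]
      calc (P * (V2 * X)).trace = (P * V2 * X).trace := by rw [mul_assoc]
        _ = (X * (P * V2)).trace := trace_mul_comm _ _
        _ = (P * (X * V2)).trace := by rw [← mul_assoc, ← hPX, mul_assoc]
    have e2 : (P * (V2 * Y - Y * V2)).trace = 0 := by
      have hW : P * Y - Y * P ∈ centraliser G X := by
        refine ⟨ad_mem_p hPk hY.1, ?_⟩
        have e1 : P * Y * X = X * (P * Y) := by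
          rw [mul_assoc, hYX, ← mul_assoc, hPX, mul_assoc]
        have e2 : Y * P * X = X * (Y * P) := by
          rw [mul_assoc, hPX, ← mul_assoc, hYX, mul_assoc]
        rw [sub_mul, mul_sub, e1, e2]
      have h3 := hV2.2 _ hW
      rw [mul_sub V2, trace_sub] at h3
      rw [mul_sub P, trace_sub]
      have e3 : (P * (V2 * Y)).trace = (V2 * (Y * P)).trace := by
        rw [trace_mul_comm, mul_assoc]
      have e4 : (P * (Y * V2)).trace = (V2 * (P * Y)).trace := by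
        rw [← mul_assoc, trace_mul_comm]
      rw [e3, e4]
      linarith
    have e5 : (P * P).trace = 0 := by
      have h3 : (P * (ε • P)).trace = 0 := by
        rw [hQ, mul_neg, trace_neg]
        have h4 : V2 * (X + ε • Y) - (X + ε • Y) * V2
            = (V2 * X - X * V2) + ε • (V2 * Y - Y * V2) := by
          rw [mul_add, add_mul, mul_smul_comm, smul_mul_assoc, smul_sub]
          abel
        rw [h4, mul_add, mul_smul_comm, trace_add, trace_smul, e1, e2, smul_zero, add_zero,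
          neg_zero]
      rw [mul_smul_comm, trace_smul, smul_eq_mul] at h3
      exact (mul_eq_zero.mp h3).resolve_left hε.ne'
    have hP0 : P = 0 := by
      apply eq_zero_of_trace_tm
      rw [transpose_of_mem_k hPk, neg_mul, trace_neg, e5, neg_zero]
    have hV2c : V2 ∈ centraliser G (X + ε • Y) := by
      refine ⟨hV2.1, ?_⟩
      rw [hP0, smul_zero] at hQ
      exact sub_eq_zero.mp (neg_eq_zero.mp hQ.symm)
    have hV20 : V2 = 0 := by
      have : V2 ∈ centraliser G (X + ε • Y) ⊓ perp G (centraliser G X) := ⟨hV2c, hV2⟩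
      rw [hbot] at this
      simpa using this
    rw [hV20, add_zero]
    exact ⟨hV1, hV1.1, sub_eq_zero.mp (hP.symm.trans hP0)⟩
  have h1 : finrank ℝ (centraliser G X) ≤ finrank ℝ ↑(centraliser G X ⊓ centraliser G Y) := by
    rw [hr]
    exact (realRank_le hXY).trans (Submodule.finrank_mono key)
  have h2 : centraliser G X ⊓ centraliser G Y = centraliser G X :=
    Submodule.eq_of_le_of_finrank_le inf_le_left h1
  have h3 : U ∈ centraliser G X ⊓ centraliser G Y := by rw [h2]; exact hU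
  exact h3.2.2

/-- **The dimension of the base is larger than the difference of the real ranks**, unless `𝔭_G` is
the sum of `𝔭_H` and the noncompact centre of `G`. -/
theorem realRank_lt' (hHG : H.grp ≤ G.grp)
    (hne : ∃ X ∈ G.𝔭, ∀ Z ∈ noncompactCentre G, X - Z ∉ H.𝔭) :
    realRank G < codim G H + realRank H := by
  by_contra hcon
  push Not at hcon
  have hle : H.𝔭 ≤ G.𝔭 := fun X hX => p_mono hHG hX
  have hcod : finrank ℝ G.𝔭 = codim G H + finrank ℝ H.𝔭 := by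
    have := Submodule.finrank_mono hle
    unfold codim
    omega
  -- the regular elements of `𝔭_H`
  have key : ∀ X ∈ H.𝔭, finrank ℝ (centraliser H X) = realRank H →
      finrank ℝ (centraliser G X) = realRank G ∧
        ∀ Z ∈ perp G H.𝔭, Z * X = X * Z := by
    intro X hX hr
    have hXG := hle hX
    have h1 := finrank_perp (G := G) (centraliser_le X)
    have h2 := finrank_perp (G := H) (centraliser_le X)
    have h3 := realRank_le hXG
    have h4 := perp_mono hHG hX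
    have h5 := Submodule.finrank_mono h4
    have h6 : perp H (centraliser H X) = perp G (centraliser G X) :=
      Submodule.eq_of_le_of_finrank_le h4 (by omega)
    refine ⟨by omega, fun Z hZ => ?_⟩
    have h7 : brk (brk Z X) X ∈ perp H (centraliser H X) := by
      rw [h6]
      exact ad2_perp hXG hZ.1
    refine brk_self_zero hXG hZ.1 ?_
    rw [trace_mul_comm]
    exact hZ.2 _ h7.1
  obtain ⟨X₀, hX₀, hr₀⟩ := exists_realRank H
  have hperp : ∀ Z ∈ perp G H.𝔭, ∀ V ∈ H.𝔭, Z * V = V * Z := by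
    intro Z hZ V hV
    obtain ⟨ε, hε, hbot⟩ := exists_small (G := H) (X := X₀) (Z := V)
    have hXV : X₀ + ε • V ∈ H.𝔭 := H.𝔭.add_mem hX₀ (H.𝔭.smul_mem _ hV)
    have h1 := finrank_le_of_inf (centraliser_le _) (centraliser_le _) hbot
    have h2 := realRank_le hXV
    have h3 := (key _ hXV (by omega)).2 Z hZ
    have h4 := (key _ hX₀ hr₀).2 Z hZ
    rw [mul_add, add_mul, h4, add_right_inj, mul_smul_comm, smul_mul_assoc] at h3
    exact smul_right_injective _ hε.ne' h3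
  have hperp2 : ∀ Z ∈ perp G H.𝔭, ∀ Z' ∈ perp G H.𝔭, Z * Z' = Z' * Z := by
    intro Z hZ Z' hZ'
    obtain ⟨h1, h2⟩ := key _ hX₀ hr₀
    exact comm_of_regular (hle hX₀) h1 ⟨hZ'.1, h2 Z' hZ'⟩ ⟨hZ.1, h2 Z hZ⟩
  obtain ⟨Y, hY, hYne⟩ := hne
  obtain ⟨V, hV, Z, hZ, rfl⟩ := exists_perp hle hY
  have hZ0 : Z ∈ noncompactCentre G := by
    refine ⟨hZ.1, fun Y' hY' => ?_⟩
    obtain ⟨V', hV', Z', hZ', rfl⟩ := exists_perp hle hY'
    rw [mul_add, add_mul, hperp Z hZ V' hV', hperp2 Z hZ Z' hZ']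
  refine hYne Z hZ0 ?_
  rw [add_sub_cancel_right]
  exact hV

/-- The case of a group without noncompact centre. -/
theorem realRank_lt (hHG : H.grp ≤ G.grp) (hG : noncompactCentre G = {0}) (hne : H.𝔭 ≠ G.𝔭) :
    realRank G < codim G H + realRank H := by
  refine realRank_lt' hHG ?_
  by_contra hcon
  push Not at hcon
  apply hne
  apply le_antisymm fun X hX => p_mono hHG hX
  intro Y hY
  obtain ⟨Z, hZ, hYZ⟩ := hcon Y hY
  rw [hG] at hZ
  have : Z = 0 := hZ
  rw [this, sub_zero] at hYZ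
  exact hYZ

end F31343
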