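import Mathlib

/-!
# Simultaneous diagonalisation, and subspaces invariant under commuting brackets
-/

open Matrix Module

namespace F31343

variable {ι : Type*} [Fintype ι] [DecidableEq ι]

/-- Two commuting symmetric matrices are diagonal in a common orthonormal basis. -/
theorem exists_joint_diag {v y : Matrix ι ι ℝ} (hv : vᵀ = v) (hy : yᵀ = y) (h : v * y = y * v) :
    ∃ (O : Matrix ι ι ℝ) (d e : ι → ℝ), Oᵀ * O = 1 ∧ v * O = O * diagonal d
      ∧ y * O = O * diagonal e := by
  classical
  let A : EuclideanSpace ℝ ι →ₗ[ℝ] EuclideanSpace ℝ ι := toEuclideanLin v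
  let B : EuclideanSpace ℝ ι →ₗ[ℝ] EuclideanSpace ℝ ι := toEuclideanLin y
  have hA : A.IsSymmetric := isSymmetric_toEuclideanLin_iff.mpr (by
    rw [IsHermitian, conjTranspose_eq_transpose_of_trivial]; exact hv)
  have hB : B.IsSymmetric := isSymmetric_toEuclideanLin_iff.mpr (by
    rw [IsHermitian, conjTranspose_eq_transpose_of_trivial]; exact hy)
  have hAB : Commute A B := by
    apply LinearMap.ext
    intro x
    show toEuclideanLin v (toEuclideanLin y x) = toEuclideanLin y (toEuclideanLin v x)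
    rw [toLpLin_apply, toLpLin_apply, toLpLin_apply, toLpLin_apply]
    simp only [mulVec_mulVec, h]
  let V : ℝ × ℝ → Submodule ℝ (EuclideanSpace ℝ ι) := fun i =>
    Module.End.eigenspace A i.2 ⊓ Module.End.eigenspace B i.1
  have hint : DirectSum.IsInternal V := LinearMap.IsSymmetric.directSum_isInternal_of_commute hA hB hAB
  let S := {i : ℝ × ℝ // V i ≠ ⊥}
  have hint' : DirectSum.IsInternal (fun i : S => V i.1) := DirectSum.isInternal_ne_bot_iff.mpr hint
  have : Fintype S := iSupIndep.fintypeNeBotOfFiniteDimensional hint.submodule_iSupIndep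
  have horth : OrthogonalFamily ℝ (fun i : S => V i.1) fun i => (V i.1).subtypeₗᵢ :=
    (LinearMap.IsSymmetric.orthogonalFamily_eigenspace_inf_eigenspace hA hB).comp
      Subtype.val_injective
  have hn : finrank ℝ (EuclideanSpace ℝ ι) = Fintype.card ι := finrank_euclideanSpace
  let b := (hint'.subordinateOrthonormalBasis hn horth).reindex (Fintype.equivFin ι).symm
  have hb : ∀ i, ∃ p : ℝ × ℝ, b i ∈ V p := by
    intro i
    have h1 := hint'.subordinateOrthonormalBasis_subordinate hn (Fintype.equivFin ι i) horth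
    refine ⟨(hint'.subordinateOrthonormalBasisIndex hn (Fintype.equivFin ι i) horth).1, ?_⟩
    have h2 : b i = hint'.subordinateOrthonormalBasis hn horth (Fintype.equivFin ι i) := by
      simp [b]
    rw [h2]
    exact h1
  choose p hp using hb
  have hvb : ∀ i, v *ᵥ (b i).ofLp = (p i).2 • (b i).ofLp := by
    intro i
    have h1 := Module.End.mem_eigenspace_iff.mp (hp i).1
    have h2 : toEuclideanLin v (b i) = (p i).2 • b i := h1
    rw [toLpLin_apply] at h2
    have h3 := congrArg WithLp.ofLp h2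
    exact h3
  have hyb : ∀ i, y *ᵥ (b i).ofLp = (p i).1 • (b i).ofLp := by
    intro i
    have h1 := Module.End.mem_eigenspace_iff.mp (hp i).2
    have h2 : toEuclideanLin y (b i) = (p i).1 • b i := h1
    rw [toLpLin_apply] at h2
    have h3 := congrArg WithLp.ofLp h2
    exact h3
  refine ⟨Matrix.of fun a c => (b c).ofLp a, fun i => (p i).2, fun i => (p i).1, ?_, ?_, ?_⟩
  · ext i l
    have h1 := orthonormal_iff_ite.mp b.orthonormal i l
    rw [EuclideanSpace.inner_eq_star_dotProduct] at h1
    rw [mul_apply, one_apply, ← h1]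
    simp only [dotProduct, transpose_apply, of_apply, star_trivial]
    exact Finset.sum_congr rfl fun a _ => mul_comm _ _
  · ext a c
    rw [mul_diagonal, mul_apply]
    have h1 := congrFun (hvb c) a
    rw [mulVec, dotProduct] at h1
    simp only [of_apply]
    rw [h1, Pi.smul_apply, smul_eq_mul, mul_comm]
  · ext a c
    rw [mul_diagonal, mul_apply]
    have h1 := congrFun (hyb c) a
    rw [mulVec, dotProduct] at h1
    simp only [of_apply]
    rw [h1, Pi.smul_apply, smul_eq_mul, mul_comm]

/-- The bracket with `y`. -/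
def adm (y : Matrix ι ι ℝ) : Module.End ℝ (Matrix ι ι ℝ) :=
  LinearMap.mulLeft ℝ y - LinearMap.mulRight ℝ y

lemma adm_apply (y x : Matrix ι ι ℝ) : adm y x = y * x - x * y := rfl

/-- The bracket with a symmetric matrix is diagonalisable. -/
lemma iSup_eigenspace_adm {y : Matrix ι ι ℝ} (hy : yᵀ = y) :
    ⨆ μ : ℝ, Module.End.eigenspace (adm y) μ = ⊤ := by
  obtain ⟨O, d, -, hO, hyO, -⟩ := exists_joint_diag hy hy rfl
  have hO' : O * Oᵀ = 1 := mul_eq_one_comm.mp hO
  have hOy : Oᵀ * y = diagonal d * Oᵀ := by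
    have := congrArg transpose hyO
    rw [transpose_mul, transpose_mul, hy, diagonal_transpose] at this
    exact this
  rw [eq_top_iff]
  intro x _
  have hx : x = O * (Oᵀ * x * O) * Oᵀ := by
    calc x = (O * Oᵀ) * x * (O * Oᵀ) := by rw [hO', one_mul, mul_one]
      _ = O * (Oᵀ * x * O) * Oᵀ := by simp only [mul_assoc]
  rw [hx, matrix_eq_sum_single (Oᵀ * x * O), Finset.mul_sum, Finset.sum_mul]
  refine Submodule.sum_mem _ fun i _ => ?_
  rw [Finset.mul_sum, Finset.sum_mul]
  refine Submodule.sum_mem _ fun l _ => ?_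
  refine Submodule.mem_iSup_of_mem (d i - d l) ?_
  rw [Module.End.mem_eigenspace_iff, adm_apply]
  set s := single i l ((Oᵀ * x * O) i l) with hs
  have e1 : diagonal d * s = d i • s := by
    ext a c
    rw [diagonal_mul, Matrix.smul_apply, smul_eq_mul, hs]
    by_cases h : a = i
    · rw [h]
    · rw [single_apply_of_row_ne (Ne.symm h)]
      simp
  have e2 : s * diagonal d = d l • s := by
    ext a c
    rw [mul_diagonal, Matrix.smul_apply, smul_eq_mul, hs, mul_comm]
    by_cases h : c = l
    · rw [h]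
    · rw [single_apply_of_col_ne _ _ (Ne.symm h)]
      simp
  calc y * (O * s * Oᵀ) - O * s * Oᵀ * y = (y * O) * s * Oᵀ - O * s * (Oᵀ * y) := by
        simp only [mul_assoc]
    _ = O * (diagonal d * s) * Oᵀ - O * (s * diagonal d) * Oᵀ := by
        rw [hyO, hOy]; simp only [mul_assoc]
    _ = (d i - d l) • (O * s * Oᵀ) := by
        rw [e1, e2, mul_smul_comm, smul_mul_assoc, mul_smul_comm, smul_mul_assoc, sub_smul]

/-- A subspace invariant under the brackets with two commuting symmetric matrices is spanned by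
joint eigenvectors. -/
lemma le_span_joint {v y : Matrix ι ι ℝ} (hv : vᵀ = v) (hy : yᵀ = y) (h : v * y = y * v)
    (p : Submodule ℝ (Matrix ι ι ℝ)) (hpv : ∀ x ∈ p, adm v x ∈ p) (hpy : ∀ x ∈ p, adm y x ∈ p) :
    p ≤ Submodule.span ℝ {x | x ∈ p ∧ ∃ α β : ℝ, adm v x = α • x ∧ adm y x = β • x} := by
  have hcomm : ∀ x, adm v (adm y x) = adm y (adm v x) := by
    intro x
    have e1 : v * (y * x) = y * (v * x) := by rw [← mul_assoc, h, mul_assoc]
    have e2 : x * (y * v) = x * (v * y) := by rw [h]
    simp only [adm_apply, mul_sub, sub_mul, mul_assoc]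
    rw [e1, e2]
    abel
  have h1 : p = ⨆ α : ℝ, p ⊓ Module.End.eigenspace (adm v) α := by
    have h2 := Submodule.inf_iSup_genEigenspace (f := adm v) hpv 1
    have h3 : (⨆ μ : ℝ, (adm v).genEigenspace μ 1) = ⊤ := iSup_eigenspace_adm hv
    rw [h3, inf_top_eq] at h2
    exact h2
  intro x hx
  rw [h1] at hx
  refine (iSup_le fun α => ?_ : (⨆ α : ℝ, p ⊓ Module.End.eigenspace (adm v) α) ≤ _) hx
  set q := p ⊓ Module.End.eigenspace (adm v) α with hq
  have hqy : ∀ x ∈ q, adm y x ∈ q := by
    rintro x ⟨hx1, hx2⟩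
    refine ⟨hpy x hx1, ?_⟩
    show adm y x ∈ Module.End.eigenspace (adm v) α
    rw [Module.End.mem_eigenspace_iff, hcomm, Module.End.mem_eigenspace_iff.mp hx2, map_smul]
  have h2 : q = ⨆ β : ℝ, q ⊓ Module.End.eigenspace (adm y) β := by
    have h2 := Submodule.inf_iSup_genEigenspace (f := adm y) hqy 1
    have h3 : (⨆ μ : ℝ, (adm y).genEigenspace μ 1) = ⊤ := iSup_eigenspace_adm hy
    rw [h3, inf_top_eq] at h2
    exact h2
  rw [h2]
  refine iSup_le fun β => ?_
  rintro z ⟨⟨hz1, hz2⟩, hz3⟩
  exact Submodule.subset_span ⟨hz1, α, β, Module.End.mem_eigenspace_iff.mp hz2,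
    Module.End.mem_eigenspace_iff.mp hz3⟩

end F31343
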