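import Mathlib

/-!
# The action of matrices on tensors

`Ten ι j` is the `j`-th tensor power of `ℝ^ι`, `TT g` the action of a matrix `g` and `tau x` the
derived action.
-/

open Matrix Finset

namespace F31343

variable {ι : Type*} [Fintype ι] {j : ℕ}

/-- The tensor power. -/
abbrev Ten (ι : Type*) (j : ℕ) : Type _ := (Fin j → ι) → ℝ

/-- The action of a matrix. -/
def TT (g : Matrix ι ι ℝ) : Ten ι j →ₗ[ℝ] Ten ι j where
  toFun u a := ∑ b : Fin j → ι, (∏ i, g (a i) (b i)) * u b
  map_add' u v := by
    funext a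
    simp only [Pi.add_apply, mul_add, sum_add_distrib]
  map_smul' c u := by
    funext a
    simp only [Pi.smul_apply, smul_eq_mul, RingHom.id_apply, mul_sum]
    exact sum_congr rfl fun b _ => by ring

lemma TT_apply (g : Matrix ι ι ℝ) (u : Ten ι j) (a : Fin j → ι) :
    TT g u a = ∑ b : Fin j → ι, (∏ i, g (a i) (b i)) * u b := rfl

/-- The derived action. -/
def tau (x : Matrix ι ι ℝ) : Ten ι j →ₗ[ℝ] Ten ι j where
  toFun u a := ∑ i, ∑ c, x (a i) c * u (Function.update a i c)
  map_add' u v := by
    funext a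
    simp only [Pi.add_apply, mul_add, sum_add_distrib]
  map_smul' c u := by
    funext a
    simp only [Pi.smul_apply, smul_eq_mul, RingHom.id_apply, mul_sum]
    exact sum_congr rfl fun i _ => sum_congr rfl fun b _ => by ring

lemma tau_apply (x : Matrix ι ι ℝ) (u : Ten ι j) (a : Fin j → ι) :
    tau x u a = ∑ i, ∑ c, x (a i) c * u (Function.update a i c) := rfl

lemma tau_add (x y : Matrix ι ι ℝ) (u : Ten ι j) : tau (x + y) u = tau x u + tau y u := by
  funext a
  simp only [tau_apply, Matrix.add_apply, add_mul, sum_add_distrib, Pi.add_apply]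

lemma tau_smul (r : ℝ) (x : Matrix ι ι ℝ) (u : Ten ι j) : tau (r • x) u = r • tau x u := by
  funext a
  simp only [tau_apply, Matrix.smul_apply, smul_eq_mul, Pi.smul_apply, mul_sum]
  exact sum_congr rfl fun i _ => sum_congr rfl fun b _ => by ring

/-- The action is multiplicative. -/
lemma TT_mul (g h : Matrix ι ι ℝ) (u : Ten ι j) : TT (g * h) u = TT g (TT h u) := by
  funext a
  simp only [TT_apply, Matrix.mul_apply, mul_sum]
  rw [sum_comm]
  refine sum_congr rfl fun b _ => ?_
  rw [Finset.prod_univ_sum, sum_mul]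
  rw [Fintype.piFinset_univ]
  refine sum_congr rfl fun c _ => ?_
  rw [prod_mul_distrib]
  ring

lemma TT_one [DecidableEq ι] (u : Ten ι j) : TT (1 : Matrix ι ι ℝ) u = u := by
  funext a
  rw [TT_apply]
  rw [sum_eq_single a]
  · simp
  · intro b _ hb
    obtain ⟨i, hi⟩ := Function.ne_iff.mp hb
    have h1 : (1 : Matrix ι ι ℝ) (a i) (b i) = 0 := Matrix.one_apply_ne (Ne.symm hi)
    rw [prod_eq_zero (mem_univ i) h1, zero_mul]
  · intro h
    exact absurd (mem_univ a) h

/-- The pairing of tensors. -/
def ip (u v : Ten ι j) : ℝ := ∑ a, u a * v a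

lemma ip_TT (g : Matrix ι ι ℝ) (u v : Ten ι j) : ip u (TT g v) = ip (TT gᵀ u) v := by
  unfold ip
  simp only [TT_apply, mul_sum, sum_mul]
  rw [sum_comm]
  refine sum_congr rfl fun b _ => sum_congr rfl fun a _ => ?_
  simp only [transpose_apply]
  ring

/-- The involution which exchanges the entry at `l` with the second argument. -/
def swp (l : Fin j) : ((Fin j → ι) × ι) ≃ ((Fin j → ι) × ι) where
  toFun p := (Function.update p.1 l p.2, p.1 l)
  invFun p := (Function.update p.1 l p.2, p.1 l)
  left_inv p := by simp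
  right_inv p := by simp

lemma prod_split (l : Fin j) (f : Fin j → ℝ) : ∏ i, f i = f l * ∏ i ∈ univ.erase l, f i :=
  (mul_prod_erase univ f (mem_univ l)).symm

/-- The formula for both composites. -/
lemma tau_TT (z g : Matrix ι ι ℝ) (u : Ten ι j) (a : Fin j → ι) :
    tau z (TT g u) a
      = ∑ b : Fin j → ι, (∑ l, (z * g) (a l) (b l) * ∏ i ∈ univ.erase l, g (a i) (b i)) * u b := by
  simp only [tau_apply, TT_apply, sum_mul]
  rw [sum_comm (s := (univ : Finset (Fin j → ι)))]
  refine sum_congr rfl fun l _ => ?_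
  simp only [mul_sum]
  rw [sum_comm]
  refine sum_congr rfl fun b _ => ?_
  rw [Matrix.mul_apply, sum_mul, sum_mul]
  refine sum_congr rfl fun c _ => ?_
  rw [prod_split l, Function.update_self]
  have h : ∏ i ∈ univ.erase l, g (Function.update a l c i) (b i)
      = ∏ i ∈ univ.erase l, g (a i) (b i) :=
    prod_congr rfl fun i hi => by rw [Function.update_of_ne (ne_of_mem_erase hi)]
  rw [h]
  ring

lemma TT_tau (x g : Matrix ι ι ℝ) (u : Ten ι j) (a : Fin j → ι) :
    TT g (tau x u) a
      = ∑ b : Fin j → ι, (∑ l, (g * x) (a l) (b l) * ∏ i ∈ univ.erase l, g (a i) (b i)) * u b := by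
  simp only [tau_apply, TT_apply, sum_mul, mul_sum]
  rw [sum_comm]
  rw [sum_comm (s := (univ : Finset (Fin j → ι))) (t := (univ : Finset (Fin j)))]
  refine sum_congr rfl fun l _ => ?_
  -- use the involution
  have h1 : ∑ b : Fin j → ι, ∑ c, (∏ i, g (a i) (b i)) * (x (b l) c * u (Function.update b l c))
      = ∑ p : (Fin j → ι) × ι, (∏ i, g (a i) (p.1 i)) * (x (p.1 l) p.2
        * u (Function.update p.1 l p.2)) :=
    (Fintype.sum_prod_type' (fun b c => (∏ i, g (a i) (b i)) * (x (b l) c
      * u (Function.update b l c)))).symm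
  rw [h1, ← Equiv.sum_comp (swp l)]
  have h2 : ∀ p : (Fin j → ι) × ι, (∏ i, g (a i) ((swp l p).1 i)) * (x ((swp l p).1 l) (swp l p).2
      * u (Function.update (swp l p).1 l (swp l p).2))
      = (g (a l) p.2 * x p.2 (p.1 l)) * (∏ i ∈ univ.erase l, g (a i) (p.1 i)) * u p.1 := by
    intro p
    have e1 : (swp l p).1 = Function.update p.1 l p.2 := rfl
    have e2 : (swp l p).2 = p.1 l := rfl
    rw [e1, e2, prod_split l, Function.update_self, Function.update_idem,
      Function.update_eq_self]
    have h : ∏ i ∈ univ.erase l, g (a i) (Function.update p.1 l p.2 i)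
        = ∏ i ∈ univ.erase l, g (a i) (p.1 i) :=
      prod_congr rfl fun i hi => by rw [Function.update_of_ne (ne_of_mem_erase hi)]
    rw [h]
    ring
  rw [sum_congr rfl fun p _ => h2 p, Fintype.sum_prod_type]
  refine sum_congr rfl fun b _ => ?_
  rw [Matrix.mul_apply, sum_mul, sum_mul]

/-- Intertwining. -/
lemma TT_tau_comm {x z g : Matrix ι ι ℝ} (h : g * x = z * g) (u : Ten ι j) :
    TT g (tau x u) = tau z (TT g u) := by
  funext a
  rw [TT_tau, tau_TT, h]

/-- The derived action is an action of the Lie algebra. -/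
lemma tau_brk (x y : Matrix ι ι ℝ) (u : Ten ι j) :
    tau x (tau y u) = tau y (tau x u) + tau (x * y - y * x) u := by
  funext a
  let A : Matrix ι ι ℝ → Matrix ι ι ℝ → Fin j → Fin j → ℝ := fun x y i l =>
    ∑ c, ∑ d, x (a i) c * (y (Function.update a i c l) d
      * u (Function.update (Function.update a i c) l d))
  have h1 : ∀ x y : Matrix ι ι ℝ, tau x (tau y u) a = ∑ i, ∑ l, A x y i l := by
    intro x y
    rw [tau_apply]
    refine sum_congr rfl fun i _ => ?_
    simp only [tau_apply, mul_sum, A]
    rw [sum_comm]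
  have h2 : ∀ i l, i ≠ l → A x y i l = A y x l i := by
    intro i l hil
    simp only [A]
    rw [sum_comm]
    refine sum_congr rfl fun d _ => sum_congr rfl fun c _ => ?_
    rw [Function.update_of_ne (Ne.symm hil), Function.update_of_ne hil,
      Function.update_comm hil]
    ring
  have h3 : ∀ x y : Matrix ι ι ℝ, ∀ i, A x y i i
      = ∑ d, (x * y) (a i) d * u (Function.update a i d) := by
    intro x y i
    simp only [A]
    rw [sum_comm]
    refine sum_congr rfl fun d _ => ?_
    rw [Matrix.mul_apply, sum_mul]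
    refine sum_congr rfl fun c _ => ?_
    rw [Function.update_self, Function.update_idem]
    ring
  rw [Pi.add_apply, h1 x y, h1 y x, sum_comm (f := fun i l => A y x i l), ← sub_eq_iff_eq_add',
    ← sum_sub_distrib, tau_apply]
  refine sum_congr rfl fun i _ => ?_
  rw [← sum_sub_distrib, sum_eq_single i]
  · rw [h3, h3, ← sum_sub_distrib]
    refine sum_congr rfl fun d _ => ?_
    rw [Matrix.sub_apply]
    ring
  · intro l _ hl
    rw [h2 i l (Ne.symm hl), sub_self]
  · intro h
    exact absurd (mem_univ i) h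

end F31343
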