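import Mathlib
import Pool.Agent.Lib_MP_f31343.Ad
import Pool.Agent.Lib_MP_f31343.Tensor

/-!
# Group elements preserve the modules of the Lie algebra
-/

open Matrix NormedSpace Filter Topology Module
open scoped Matrix.Norms.Operator ContDiff

namespace F31343

variable {ι : Type*} [Fintype ι] [DecidableEq ι] {j : ℕ}

/-- The matrix `g` preserves every subspace of tensors which `𝔤` preserves. -/
def Good (𝔤 : Submodule ℝ (Matrix ι ι ℝ)) (j : ℕ) (g : Matrix ι ι ℝ) : Prop :=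
  ∀ M : Submodule ℝ (Ten ι j), (∀ x ∈ 𝔤, ∀ u ∈ M, tau x u ∈ M) → ∀ u ∈ M, TT g u ∈ M

lemma good_one (𝔤 : Submodule ℝ (Matrix ι ι ℝ)) : Good 𝔤 j 1 := fun M _ u hu => by
  rw [TT_one]; exact hu

omit [DecidableEq ι] in
lemma good_mul {𝔤 : Submodule ℝ (Matrix ι ι ℝ)} {g h : Matrix ι ι ℝ} (hg : Good 𝔤 j g)
    (hh : Good 𝔤 j h) : Good 𝔤 j (g * h) := fun M hM u hu => by
  rw [TT_mul]; exact hg M hM _ (hh M hM u hu)

omit [DecidableEq ι] in
lemma continuous_TT (u : Ten ι j) : Continuous fun g : Matrix ι ι ℝ => TT g u := by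
  refine continuous_pi fun a => ?_
  show Continuous fun g : Matrix ι ι ℝ => ∑ b : Fin j → ι, (∏ i, g (a i) (b i)) * u b
  refine continuous_finsetSum _ fun b _ => Continuous.mul ?_ continuous_const
  refine continuous_finsetProd _ fun i _ => ?_
  exact (continuous_apply (b i)).comp (continuous_apply (a i))

omit [DecidableEq ι] in
lemma isClosed_good (𝔤 : Submodule ℝ (Matrix ι ι ℝ)) (j : ℕ) :
    IsClosed {g : Matrix ι ι ℝ | Good 𝔤 j g} := by
  have h : {g : Matrix ι ι ℝ | Good 𝔤 j g} = ⋂ (M : Submodule ℝ (Ten ι j))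
      (_ : ∀ x ∈ 𝔤, ∀ u ∈ M, tau x u ∈ M) (u : Ten ι j) (_ : u ∈ M),
      (fun g : Matrix ι ι ℝ => TT g u) ⁻¹' (M : Set (Ten ι j)) := by
    ext g
    simp only [Good, Set.mem_ofPred_eq, Set.mem_iInter, Set.mem_preimage, SetLike.mem_coe]
  rw [h]
  refine isClosed_iInter fun M => isClosed_iInter fun _ => isClosed_iInter fun u =>
    isClosed_iInter fun _ => ?_
  exact M.closed_of_finiteDimensional.preimage (continuous_TT u)

lemma lin_deriv' {M N : Type*} [NormedAddCommGroup M] [NormedSpace ℝ M] [FiniteDimensional ℝ M]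
    [NormedAddCommGroup N] [NormedSpace ℝ N] (L : M →ₗ[ℝ] N) {u : ℝ → M} {v : M} {t : ℝ}
    (h : HasDerivAt u v t) : HasDerivAt (fun s => L (u s)) (L v) t :=
  (LinearMap.toContinuousLinearMap L).hasFDerivAt.comp_hasDerivAt t h

/-- The derivative of the action of a one-parameter group. -/
lemma hasDerivAt_TT (A : Matrix ι ι ℝ) (u : Ten ι j) (t : ℝ) :
    HasDerivAt (fun t : ℝ => TT (exp (t • A)) u) (tau A (TT (exp (t • A)) u)) t := by
  rw [hasDerivAt_pi]
  intro a
  rw [tau_TT]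
  show HasDerivAt (fun t : ℝ => ∑ b : Fin j → ι, (∏ i, exp (t • A) (a i) (b i)) * u b) _ t
  refine HasDerivAt.fun_sum fun b _ => HasDerivAt.mul_const ?_ (u b)
  have h1 : ∀ i : Fin j, HasDerivAt (fun t : ℝ => exp (t • A) (a i) (b i))
      ((A * exp (t • A)) (a i) (b i)) t := fun i =>
    lin_deriv' (Matrix.entryLinearMap ℝ ℝ (a i) (b i)) (hasDerivAt_exp_left A t)
  have h2 := HasDerivAt.fun_finsetProd (u := Finset.univ) (fun i _ => h1 i)
  refine h2.congr_deriv ?_
  exact Finset.sum_congr rfl fun l _ => by rw [smul_eq_mul, mul_comm]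

lemma exp_mem_of_inv {E : Type*} [NormedAddCommGroup E] [NormedSpace ℝ E] [FiniteDimensional ℝ E]
    [CompleteSpace E] (S : E →L[ℝ] E) (M : Submodule ℝ E) (hS : ∀ u ∈ M, S u ∈ M) {u : E}
    (hu : u ∈ M) : NormedSpace.exp S u ∈ M := by
  have hpow : ∀ n : ℕ, (S ^ n) u ∈ M := by
    intro n
    induction n with
    | zero => simpa using hu
    | succ n ih =>
      rw [pow_succ']
      exact hS _ ih
  have h := (NormedSpace.exp_series_hasSum_exp' (𝕂 := ℝ) S).mapL (ContinuousLinearMap.apply ℝ E u)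
  refine M.closed_of_finiteDimensional.mem_of_tendsto h (Eventually.of_forall fun s => ?_)
  refine M.sum_mem fun n _ => ?_
  show ((n.factorial : ℝ)⁻¹ • S ^ n) u ∈ M
  exact M.smul_mem _ (hpow n)

lemma exp_mul_exp_neg' {E : Type*} [NormedAddCommGroup E] [NormedSpace ℝ E] [CompleteSpace E]
    (a : E →L[ℝ] E) (t : ℝ) :
    NormedSpace.exp (t • a) * NormedSpace.exp (t • (-a)) = 1 := by
  let _ : NormedAlgebra ℚ (E →L[ℝ] E) := NormedAlgebra.restrictScalars ℚ ℝ _
  rw [smul_neg, ← NormedSpace.exp_add_of_commute (Commute.refl (t • a)).neg_right,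
    add_neg_cancel, NormedSpace.exp_zero]

/-- Exponentials are good. -/
lemma good_exp {𝔤 : Submodule ℝ (Matrix ι ι ℝ)} {A : Matrix ι ι ℝ} (hA : A ∈ 𝔤) :
    Good 𝔤 j (exp A) := by
  intro M hM u hu
  let S : Ten ι j →L[ℝ] Ten ι j := LinearMap.toContinuousLinearMap (tau A)
  have hSM : ∀ u ∈ M, S u ∈ M := fun u hu => hM A hA u hu
  let y : ℝ → Ten ι j := fun t => NormedSpace.exp (t • (-S)) (TT (exp (t • A)) u)
  have hy : ∀ t, HasDerivAt y 0 t := by
    intro t
    have h1 := hasDerivAt_TT A u t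
    have h2 : HasDerivAt (fun t : ℝ => NormedSpace.exp (t • (-S)))
        (NormedSpace.exp (t • (-S)) * (-S)) t :=
      hasDerivAt_exp_smul_const (𝕂 := ℝ) (-S) t
    have h3 := h2.clm_apply h1
    refine h3.congr_deriv ?_
    have e : tau A (TT (exp (t • A)) u) = S (TT (exp (t • A)) u) := rfl
    rw [e]
    simp
  have hconst : y 1 = y 0 :=
    is_const_of_deriv_eq_zero (fun s => (hy s).differentiableAt) (fun s => (hy s).deriv) 1 0
  have h4 : y 0 = u := by
    show NormedSpace.exp ((0 : ℝ) • (-S)) (TT (exp ((0 : ℝ) • A)) u) = u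
    rw [zero_smul ℝ A, NormedSpace.exp_zero, TT_one, zero_smul ℝ (-S), NormedSpace.exp_zero]
    rfl
  have h5 : NormedSpace.exp ((1 : ℝ) • S) (y 1) = TT (exp A) u := by
    have h6 := exp_mul_exp_neg' S 1
    have h7 : NormedSpace.exp ((1 : ℝ) • S) (y 1)
        = (NormedSpace.exp ((1 : ℝ) • S) * NormedSpace.exp ((1 : ℝ) • (-S)))
          (TT (exp ((1 : ℝ) • A)) u) := rfl
    rw [h7, h6, one_smul ℝ A]
    rfl
  rw [← h5, hconst, h4, one_smul]
  exact exp_mem_of_inv S M hSM hu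

end F31343
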