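import Mathlib
import Pool.Agent.Lib_MP_f31343.Tensor

/-!
# The alternating tensor of a coordinate subspace
-/

open Matrix Finset

namespace F31343

variable {ι : Type*} [Fintype ι] [DecidableEq ι] {j : ℕ}

/-- The alternating tensor of the coordinates `e 0, e 1, ...`. -/
def omg (e : Fin j → ι) : Ten ι j := fun a =>
  (Matrix.of fun i l : Fin j => if a i = e l then (1 : ℝ) else 0).det

section

variable {e : Fin j → ι}

omit [Fintype ι] in
lemma omg_out {a : Fin j → ι} {i : Fin j} (h : ∀ l, a i ≠ e l) : omg e a = 0 :=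
  det_eq_zero_of_row_eq_zero i fun l => by simp [h l]

omit [Fintype ι] in
lemma omg_rep {a : Fin j → ι} {p q : Fin j} (hpq : p ≠ q) (h : a p = a q) : omg e a = 0 :=
  det_zero_of_row_eq hpq (by
    funext l
    simp [h])

omit [Fintype ι] in
lemma omg_swap (a : Fin j → ι) {p q : Fin j} (hpq : p ≠ q) :
    omg e (a ∘ Equiv.swap p q) = - omg e a := by
  have h1 : omg e (a ∘ Equiv.swap p q)
      = ((Matrix.of fun i l : Fin j => if a i = e l then (1 : ℝ) else 0).submatrix
        (Equiv.swap p q) id).det := rfl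
  rw [h1, det_permute, Equiv.Perm.sign_swap hpq]
  simp [omg]

omit [Fintype ι] in
lemma omg_self (he : Function.Injective e) : omg e e = 1 := by
  have h1 : (Matrix.of fun i l : Fin j => if e i = e l then (1 : ℝ) else 0) = 1 := by
    ext i l
    rw [Matrix.one_apply]
    by_cases h : i = l
    · simp [h]
    · simp [h, he.ne h]
  show (Matrix.of fun i l : Fin j => if e i = e l then (1 : ℝ) else 0).det = 1
  rw [h1, det_one]

omit [Fintype ι] in
/-- Where `omg` does not vanish the tuple is a permutation of `e`. -/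
lemma omg_support {a : Fin j → ι} (h : omg e a ≠ 0) :
    Function.Injective a ∧ (∀ i, ∃ l, a i = e l) ∧ ∀ l, ∃ i, e l = a i := by
  have h1 : Function.Injective a := by
    intro p q hpq
    by_contra hne
    exact h (omg_rep hne hpq)
  have h2 : ∀ i, ∃ l, a i = e l := by
    intro i
    by_contra hcon
    push Not at hcon
    exact h (omg_out hcon)
  refine ⟨h1, h2, ?_⟩
  choose f hf using h2
  have hfi : Function.Injective f := by
    intro p q hpq
    apply h1
    rw [hf p, hf q, hpq]
  intro l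
  obtain ⟨i, hi⟩ := (Finite.injective_iff_surjective.mp hfi) l
  exact ⟨i, by rw [hf i, hi]⟩

omit [Fintype ι] in
/-- The sum over the tuple. -/
lemma sum_tuple {a : Fin j → ι} (h : omg e a ≠ 0) (f : ι → ℝ) :
    ∑ i, f (a i) = ∑ l, f (e l) := by
  obtain ⟨h1, h2, h3⟩ := omg_support h
  choose g hg using h2
  have hgi : Function.Injective g := by
    intro p q hpq
    apply h1
    rw [hg p, hg q, hpq]
  have hb : Function.Bijective g := Finite.injective_iff_bijective.mp hgi
  rw [← Equiv.sum_comp (Equiv.ofBijective g hb) (fun l => f (e l))]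
  exact sum_congr rfl fun i _ => by rw [hg i]; rfl

/-- The value of `tau x omg` at a permutation of `e`. -/
lemma tau_omg_of_ne (x : Matrix ι ι ℝ) {a : Fin j → ι}
    (h : omg e a ≠ 0) : tau x (omg e) a = (∑ l, x (e l) (e l)) * omg e a := by
  obtain ⟨h1, h2, h3⟩ := omg_support h
  rw [tau_apply]
  have key : ∀ i, ∑ c, x (a i) c * omg e (Function.update a i c) = x (a i) (a i) * omg e a := by
    intro i
    rw [sum_eq_single (a i)]
    · rw [Function.update_eq_self]
    · intro c _ hc
      have h0 : omg e (Function.update a i c) = 0 := by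
        by_cases hcE : ∃ l, c = e l
        · obtain ⟨l, hl⟩ := hcE
          obtain ⟨m, hm⟩ := h3 l
          have hmi : m ≠ i := by
            rintro rfl
            exact hc (hl.trans hm)
          refine omg_rep hmi ?_
          rw [Function.update_of_ne hmi, Function.update_self, ← hm, hl]
        · push Not at hcE
          exact omg_out (i := i) fun l => by rw [Function.update_self]; exact hcE l
      rw [h0, mul_zero]
    · intro h
      exact absurd (mem_univ _) h
  rw [sum_congr rfl fun i _ => key i, ← sum_mul, sum_tuple h fun b => x b b]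

/-- The expectation of `tau x` in `omg`. -/
lemma ip_omg_tau (x : Matrix ι ι ℝ) :
    ip (omg e) (tau x (omg e)) = (∑ l, x (e l) (e l)) * ip (omg e) (omg e) := by
  unfold ip
  rw [mul_sum]
  refine sum_congr rfl fun a _ => ?_
  by_cases h : omg e a = 0
  · rw [h, zero_mul, zero_mul, mul_zero]
  · rw [tau_omg_of_ne x h]
    ring

lemma ip_omg_pos (he : Function.Injective e) : 0 < ip (omg e) (omg e) := by
  unfold ip
  refine sum_pos' (fun a _ => mul_self_nonneg _) ⟨e, mem_univ _, ?_⟩
  rw [omg_self he]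
  norm_num

/-- A matrix which preserves the coordinate subspace of `e` multiplies `omg e` by a scalar. -/
lemma tau_omg_of_pres (he : Function.Injective e) {x : Matrix ι ι ℝ}
    (hx : ∀ a, (∀ l, a ≠ e l) → ∀ l, x a (e l) = 0) :
    tau x (omg e) = (∑ l, x (e l) (e l)) • omg e := by
  funext a
  rw [Pi.smul_apply, smul_eq_mul]
  by_cases h : omg e a = 0
  · rw [h, mul_zero, tau_apply]
    by_cases h1 : ∃ m, ∀ l, a m ≠ e l
    · obtain ⟨m, hm⟩ := h1
      refine sum_eq_zero fun i _ => sum_eq_zero fun c _ => ?_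
      by_cases him : i = m
      · subst him
        by_cases hc : ∃ l, c = e l
        · obtain ⟨l, rfl⟩ := hc
          rw [hx _ hm, zero_mul]
        · push Not at hc
          rw [omg_out (i := i) fun l => by rw [Function.update_self]; exact hc l, mul_zero]
      · rw [omg_out (i := m) fun l => by
          rw [Function.update_of_ne (Ne.symm him)]; exact hm l, mul_zero]
    · push Not at h1
      -- two entries agree
      have h2 : ¬ Function.Injective a := by
        intro hinj
        choose f hf using h1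
        have hfi : Function.Injective f := by
          intro p q hpq
          apply hinj
          rw [hf p, hf q, hpq]
        have hb : Function.Bijective f := Finite.injective_iff_bijective.mp hfi
        have h3 : omg e a = ((Matrix.of fun i l : Fin j => if e i = e l then (1 : ℝ)
            else 0).submatrix (Equiv.ofBijective f hb) id).det := by
          unfold omg
          congr 1
          ext i l
          simp [hf i]
        rw [h3, det_permute] at h
        have h4 : (Matrix.of fun i l : Fin j => if e i = e l then (1 : ℝ) else 0).det = 1 :=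
          omg_self he
        rw [h4, mul_one] at h
        simp at h
      unfold Function.Injective at h2
      push Not at h2
      obtain ⟨p, q, hpq, hne⟩ := h2
      have hz : ∀ i, i ≠ p → i ≠ q → ∑ c, x (a i) c * omg e (Function.update a i c) = 0 := by
        intro i hip hiq
        refine sum_eq_zero fun c _ => ?_
        rw [omg_rep hne (by rw [Function.update_of_ne (Ne.symm hip),
          Function.update_of_ne (Ne.symm hiq), hpq]), mul_zero]
      rw [← sum_subset (subset_univ ({p, q} : Finset (Fin j))) (fun i _ hi => by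
        rw [mem_insert, mem_singleton, not_or] at hi
        exact hz i hi.1 hi.2), sum_pair hne, ← sum_add_distrib]
      refine sum_eq_zero fun c _ => ?_
      have h5 : Function.update a q c = Function.update a p c ∘ Equiv.swap p q := by
        funext i
        rw [Function.comp_apply]
        by_cases hip : i = p
        · subst hip
          rw [Equiv.swap_apply_left, Function.update_of_ne hne, Function.update_of_ne (Ne.symm hne),
            hpq]
        · by_cases hiq : i = q
          · subst hiq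
            rw [Equiv.swap_apply_right, Function.update_self, Function.update_self]
          · rw [Equiv.swap_apply_of_ne_of_ne hip hiq, Function.update_of_ne hiq,
              Function.update_of_ne hip]
      rw [h5, omg_swap _ hne, hpq]
      ring
  · rw [tau_omg_of_ne x h]

end

/-! ### Weights -/

/-- Tensors all of whose weights for the diagonal matrix `d` are at most `s`. -/
def wt (d : ι → ℝ) (s : ℝ) : Submodule ℝ (Ten ι j) where
  carrier := {u | ∀ a, u a ≠ 0 → ∑ i, d (a i) ≤ s}
  add_mem' := by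
    intro u v hu hv a ha
    by_cases h : u a = 0
    · refine hv a fun h' => ha ?_
      rw [Pi.add_apply, h, h', add_zero]
    · exact hu a h
  zero_mem' := fun a ha => absurd rfl ha
  smul_mem' := by
    intro c u hu a ha
    refine hu a fun h => ha ?_
    rw [Pi.smul_apply, h, smul_zero]

omit [DecidableEq ι] in
lemma tau_wt {d : ι → ℝ} {s : ℝ} {q : Matrix ι ι ℝ} (hq : ∀ a b, q a b ≠ 0 → d a ≤ d b)
    {u : Ten ι j} (hu : u ∈ wt d s) : tau q u ∈ wt d s := by
  intro a ha
  rw [tau_apply] at ha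
  obtain ⟨i, -, hi⟩ := exists_ne_zero_of_sum_ne_zero ha
  obtain ⟨c, -, hc⟩ := exists_ne_zero_of_sum_ne_zero hi
  have h1 := hq _ _ (left_ne_zero_of_mul hc)
  have h2 := hu _ (right_ne_zero_of_mul hc)
  have h3 : ∑ l, d (Function.update a i c l) = d c + ∑ l ∈ univ.erase i, d (a l) := by
    rw [← add_sum_erase univ _ (mem_univ i), Function.update_self]
    congr 1
    exact sum_congr rfl fun l hl => by rw [Function.update_of_ne (ne_of_mem_erase hl)]
  have h4 : ∑ l, d (a l) = d (a i) + ∑ l ∈ univ.erase i, d (a l) :=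
    (add_sum_erase univ _ (mem_univ i)).symm
  rw [h3] at h2
  rw [h4]
  linarith

omit [Fintype ι] in
lemma omg_wt (e : Fin j → ι) (d : ι → ℝ) :
    omg e ∈ wt d (∑ l, d (e l)) := fun _ ha => (sum_tuple ha d).le

lemma tau_diagonal (d : ι → ℝ) (u : Ten ι j) (a : Fin j → ι) :
    tau (diagonal d) u a = (∑ i, d (a i)) * u a := by
  rw [tau_apply, sum_mul]
  refine sum_congr rfl fun i _ => ?_
  rw [sum_eq_single (a i)]
  · rw [diagonal_apply_eq, Function.update_eq_self]
  · intro c _ hc
    rw [diagonal_apply_ne _ (Ne.symm hc), zero_mul]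
  · intro h
    exact absurd (mem_univ _) h

lemma ip_tau_le {d : ι → ℝ} {s : ℝ} {u : Ten ι j} (hu : u ∈ wt d s) :
    ip u (tau (diagonal d) u) ≤ s * ip u u := by
  unfold ip
  rw [mul_sum]
  refine sum_le_sum fun a _ => ?_
  rw [tau_diagonal]
  by_cases h : u a = 0
  · rw [h]; simp
  · have h1 := hu a h
    have h2 : 0 ≤ u a * u a := mul_self_nonneg _
    nlinarith

/-! ### The enveloping algebra lemma -/

omit [DecidableEq ι] in
/-- If `𝔤 ⊆ 𝔮 + 𝔟`, `𝔟` acts on `w` by scalars and `𝔮` preserves `V₀ ∋ w`, then the `𝔤`-module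
generated by `w` is contained in `V₀`. -/
lemma exists_module (𝔤 : Submodule ℝ (Matrix ι ι ℝ)) (hbr : ∀ x ∈ 𝔤, ∀ y ∈ 𝔤, x * y - y * x ∈ 𝔤)
    {Q B : Set (Matrix ι ι ℝ)} (hQ : Q ⊆ 𝔤)
    (hdec : 𝔤 ≤ Submodule.span ℝ (Q ∪ B)) (w : Ten ι j)
    (hB : ∀ b ∈ B, ∃ c : ℝ, tau b w = c • w) (V₀ : Submodule ℝ (Ten ι j)) (hw : w ∈ V₀)
    (hV₀ : ∀ q ∈ Q, ∀ u ∈ V₀, tau q u ∈ V₀) :
    ∃ M : Submodule ℝ (Ten ι j), M ≤ V₀ ∧ w ∈ M ∧ ∀ x ∈ 𝔤, ∀ u ∈ M, tau x u ∈ M := by
  -- the smallest subspace which contains `w` and is preserved by `Q`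
  let M : Submodule ℝ (Ten ι j) :=
    sInf {N : Submodule ℝ (Ten ι j) | w ∈ N ∧ ∀ q ∈ Q, ∀ u ∈ N, tau q u ∈ N}
  have hwM : w ∈ M := by
    rw [Submodule.mem_sInf]
    exact fun N hN => hN.1
  have hQM : ∀ q ∈ Q, ∀ u ∈ M, tau q u ∈ M := by
    intro q hq u hu
    rw [Submodule.mem_sInf] at hu ⊢
    exact fun N hN => hN.2 q hq u (hu N hN)
  have hMle : ∀ N : Submodule ℝ (Ten ι j), w ∈ N → (∀ q ∈ Q, ∀ u ∈ N, tau q u ∈ N) → M ≤ N :=
    fun N h1 h2 => sInf_le ⟨h1, h2⟩
  refine ⟨M, hMle V₀ hw hV₀, hwM, ?_⟩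
  let N : Submodule ℝ (Ten ι j) :=
    { carrier := {u | u ∈ M ∧ ∀ x ∈ 𝔤, tau x u ∈ M}
      add_mem' := by
        rintro u v ⟨hu, hu'⟩ ⟨hv, hv'⟩
        exact ⟨M.add_mem hu hv, fun x hx => by rw [map_add]; exact M.add_mem (hu' x hx) (hv' x hx)⟩
      zero_mem' := ⟨M.zero_mem, fun x _ => by rw [map_zero]; exact M.zero_mem⟩
      smul_mem' := by
        rintro c u ⟨hu, hu'⟩
        exact ⟨M.smul_mem c hu, fun x hx => by rw [map_smul]; exact M.smul_mem c (hu' x hx)⟩ }
  have hN : M ≤ N := by
    refine hMle N ⟨hwM, fun x hx => ?_⟩ ?_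
    · have h1 := hdec hx
      refine Submodule.span_induction (p := fun x _ => tau x w ∈ M) ?_ ?_ ?_ ?_ h1
      · rintro x (hx | hx)
        · exact hQM x hx w hwM
        · obtain ⟨c, hc⟩ := hB x hx
          rw [hc]
          exact M.smul_mem c hwM
      · have h2 : tau (0 : Matrix ι ι ℝ) w = 0 := by
          have := tau_smul 0 (0 : Matrix ι ι ℝ) w
          rwa [zero_smul, zero_smul] at this
        rw [h2]
        exact M.zero_mem
      · intro x y _ _ hx hy
        rw [tau_add]
        exact M.add_mem hx hy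
      · intro c x _ hx
        rw [tau_smul]
        exact M.smul_mem c hx
    · rintro q hq u ⟨hu, hu'⟩
      refine ⟨hQM q hq u hu, fun x hx => ?_⟩
      rw [tau_brk x q u]
      exact M.add_mem (hQM q hq _ (hu' x hx)) (hu' _ (hbr x hx q (hQ hq)))
  exact fun x hx u hu => (hN hu).2 x hx

/-- **The inequality for one threshold.** -/
theorem threshold (𝔤 : Submodule ℝ (Matrix ι ι ℝ)) (hbr : ∀ x ∈ 𝔤, ∀ y ∈ 𝔤, x * y - y * x ∈ 𝔤)
    {Q B : Set (Matrix ι ι ℝ)} (hQ : Q ⊆ 𝔤) (hdec : 𝔤 ≤ Submodule.span ℝ (Q ∪ B)) (d : ι → ℝ)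
    (hQd : ∀ q ∈ Q, ∀ a b, q a b ≠ 0 → d a ≤ d b) (E : Finset ι)
    (hBE : ∀ b ∈ B, ∀ a ∉ E, ∀ c ∈ E, b a c = 0) (k : Matrix ι ι ℝ) (hk : kᵀ * k = 1)
    (hgood : ∀ M : Submodule ℝ (Ten ι E.card), (∀ x ∈ 𝔤, ∀ u ∈ M, tau x u ∈ M) →
      ∀ u ∈ M, TT kᵀ u ∈ M) :
    ∑ a ∈ E, (k * diagonal d * kᵀ) a a ≤ ∑ a ∈ E, d a := by
  let e : Fin E.card → ι := fun l => (E.equivFin.symm l).1
  have he : Function.Injective e := Subtype.val_injective.comp E.equivFin.symm.injective
  have hsum : ∀ f : ι → ℝ, ∑ l, f (e l) = ∑ a ∈ E, f a := by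
    intro f
    rw [← Finset.sum_coe_sort E f, ← Equiv.sum_comp E.equivFin.symm]
  have hmem : ∀ l, e l ∈ E := fun l => (E.equivFin.symm l).2
  have hex : ∀ a ∈ E, ∃ l, a = e l := fun a ha =>
    ⟨E.equivFin ⟨a, ha⟩, by simp [e]⟩
  obtain ⟨M, hM, hwM, hMinv⟩ := exists_module 𝔤 hbr hQ hdec (omg e) (fun b hb =>
    ⟨_, tau_omg_of_pres he fun a ha l => hBE b hb a (fun haE => by
      obtain ⟨l', hl'⟩ := hex a haE
      exact ha l' hl') _ (hmem l)⟩) (wt d (∑ l, d (e l))) (omg_wt e d)
    (fun q hq u hu => tau_wt (hQd q hq) hu)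
  have hu := hM (hgood M hMinv _ hwM)
  have h1 := ip_tau_le hu
  -- move `k` to the other side
  have hkk : k * kᵀ = 1 := mul_eq_one_comm.mp hk
  have h2 : ip (TT kᵀ (omg e)) (TT kᵀ (omg e)) = ip (omg e) (omg e) := by
    rw [ip_TT, transpose_transpose, ← TT_mul, hkk, TT_one]
  have h3 : ip (TT kᵀ (omg e)) (tau (diagonal d) (TT kᵀ (omg e)))
      = (∑ l, (k * diagonal d * kᵀ) (e l) (e l)) * ip (omg e) (omg e) := by
    rw [← ip_TT, ← TT_tau_comm (x := kᵀᵀ * diagonal d * kᵀ) (z := diagonal d) (g := kᵀ),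
      ← TT_mul, transpose_transpose, hkk, TT_one, ip_omg_tau]
    rw [transpose_transpose, ← mul_assoc, ← mul_assoc, hk, one_mul]
  rw [h2, h3] at h1
  have h4 := le_of_mul_le_mul_right h1 (ip_omg_pos he)
  rw [hsum d, hsum fun a => (k * diagonal d * kᵀ) a a] at h4
  exact h4

end F31343
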