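import Mathlib
import Pool.Agent.Lib_MP_f31343.Omega
import Pool.Agent.Lib_MP_f31343.Good

/-!
# The rearrangement inequality in coordinates
-/

open Matrix Module

namespace F31343

/-- Abel summation over the values. -/
lemma abel_values (W : ℝ → ℝ) (s : Finset ℝ) :
    (∀ c, ∑ t ∈ s with c ≤ t, W t ≤ 0) → ∀ m, (∀ t ∈ s, m ≤ t) → ∑ t ∈ s, (t - m) * W t ≤ 0 := by
  induction s using Finset.induction_on_min with
  | empty => intro _ m _; simp
  | insert a s has ih =>
    intro hc m hm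
    have ha : a ∉ s := fun h => lt_irrefl _ (has a h)
    have htot : W a + ∑ t ∈ s, W t ≤ 0 := by
      have h1 := hc a
      rw [Finset.filter_true_of_mem (fun t ht => by
        rcases Finset.mem_insert.mp ht with rfl | h
        · exact le_rfl
        · exact (has t h).le), Finset.sum_insert ha] at h1
      exact h1
    have hs : ∀ c, ∑ t ∈ s with c ≤ t, W t ≤ 0 := by
      intro c
      rcases s.eq_empty_or_nonempty with h0 | h0
      · rw [h0]; simp
      · -- a threshold above `a`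
        have h1 := hc (max c (s.min' h0))
        rw [Finset.filter_insert, if_neg] at h1
        · have h2 : (s.filter fun t => max c (s.min' h0) ≤ t) = s.filter fun t => c ≤ t := by
            refine Finset.filter_congr fun t ht => ?_
            rw [max_le_iff]
            exact and_iff_left (s.min'_le t ht)
          rwa [h2] at h1
        · push Not
          exact lt_max_of_lt_right (has _ (s.min'_mem h0))
    have h1 := ih hs a (fun t ht => (has t ht).le)
    rw [Finset.sum_insert ha]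
    have h2 : ∑ t ∈ s, (t - m) * W t = ∑ t ∈ s, (t - a) * W t + (a - m) * ∑ t ∈ s, W t := by
      rw [Finset.mul_sum, ← Finset.sum_add_distrib]
      exact Finset.sum_congr rfl fun t _ => by ring
    have h3 : 0 ≤ a - m := by linarith [hm a (Finset.mem_insert_self a s)]
    have h4 := mul_nonpos_of_nonneg_of_nonpos h3 htot
    rw [h2]
    linarith

/-- Abel summation. -/
lemma abel_sum {ι : Type*} [Fintype ι] (y w : ι → ℝ) (h : ∀ c, ∑ a with c ≤ y a, w a ≤ 0)
    (h0 : ∑ a, w a = 0) : ∑ a, y a * w a ≤ 0 := by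
  classical
  let W : ℝ → ℝ := fun t => ∑ a with y a = t, w a
  let s : Finset ℝ := Finset.univ.image y
  have key : ∀ (f : ℝ → ℝ), ∑ t ∈ s, f t * W t = ∑ a, f (y a) * w a := by
    intro f
    rw [← Finset.sum_fiberwise_of_maps_to (s := Finset.univ) (t := s) (g := y)
      (fun a _ => Finset.mem_image_of_mem y (Finset.mem_univ a))]
    refine Finset.sum_congr rfl fun t _ => ?_
    rw [Finset.mul_sum]
    refine Finset.sum_congr rfl fun a ha => ?_
    rw [(Finset.mem_filter.mp ha).2]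
  have h1 : ∀ c, ∑ t ∈ s with c ≤ t, W t ≤ 0 := by
    intro c
    have h2 := key fun t => if c ≤ t then 1 else 0
    simp only [ite_mul, one_mul, zero_mul] at h2
    rw [Finset.sum_filter, h2, ← Finset.sum_filter]
    exact h c
  obtain ⟨m, hm⟩ : ∃ m, ∀ t ∈ s, m ≤ t := by
    obtain ⟨m, hm⟩ := s.bddBelow
    exact ⟨m, fun t ht => hm ht⟩
  have h2 := abel_values W s h1 m hm
  rw [key fun t => t - m] at h2
  have h3 : ∑ a, (y a - m) * w a = ∑ a, y a * w a - m * ∑ a, w a := by
    rw [Finset.mul_sum, ← Finset.sum_sub_distrib]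
    exact Finset.sum_congr rfl fun a _ => by ring
  rw [h3, h0, mul_zero, sub_zero] at h2
  exact h2

variable {ι : Type*} [Fintype ι] [DecidableEq ι]

/-- **The rearrangement inequality**, for diagonal matrices. -/
theorem star_diag (𝔤 : Submodule ℝ (Matrix ι ι ℝ)) (hbr : ∀ x ∈ 𝔤, ∀ y ∈ 𝔤, x * y - y * x ∈ 𝔤)
    (d y : ι → ℝ)
    (hdec : 𝔤 ≤ Submodule.span ℝ {x | x ∈ 𝔤 ∧ ((∀ a b, x a b ≠ 0 → d a ≤ d b) ∨
      (∀ a b, x a b ≠ 0 → y b ≤ y a))}) (k : Matrix ι ι ℝ) (hk : kᵀ * k = 1)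
    (hgood : ∀ j, Good 𝔤 j kᵀ) :
    (k * diagonal d * kᵀ * diagonal y).trace ≤ (diagonal d * diagonal y).trace := by
  classical
  have hkk : k * kᵀ = 1 := mul_eq_one_comm.mp hk
  let Q : Set (Matrix ι ι ℝ) := {x | x ∈ 𝔤 ∧ ∀ a b, x a b ≠ 0 → d a ≤ d b}
  let B : Set (Matrix ι ι ℝ) := {x | x ∈ 𝔤 ∧ ∀ a b, x a b ≠ 0 → y b ≤ y a}
  have hdec' : 𝔤 ≤ Submodule.span ℝ (Q ∪ B) := by
    refine hdec.trans (Submodule.span_mono ?_)
    rintro x ⟨hx, h | h⟩
    · exact Or.inl ⟨hx, h⟩
    · exact Or.inr ⟨hx, h⟩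
  let w : ι → ℝ := fun a => (k * diagonal d * kᵀ) a a - d a
  have h1 : ∀ c, ∑ a with c ≤ y a, w a ≤ 0 := by
    intro c
    have h2 := threshold 𝔤 hbr (Q := Q) (B := B) (fun x hx => hx.1) hdec' d (fun q hq => hq.2)
      (Finset.univ.filter fun a => c ≤ y a) (fun b hb a ha c' hc' => by
        by_contra hne
        have h3 := hb.2 a c' hne
        rw [Finset.mem_filter] at ha hc'
        exact ha ⟨Finset.mem_univ _, hc'.2.trans h3⟩) k hk (hgood _)
    rw [Finset.sum_sub_distrib]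
    linarith
  have h0 : ∑ a, w a = 0 := by
    rw [Finset.sum_sub_distrib]
    have h3 : ∑ a, (k * diagonal d * kᵀ) a a = (k * diagonal d * kᵀ).trace := rfl
    rw [h3, trace_mul_cycle, hk, one_mul, trace_diagonal, sub_self]
  have h2 := abel_sum y w h1 h0
  have h3 : (k * diagonal d * kᵀ * diagonal y).trace = ∑ a, (k * diagonal d * kᵀ) a a * y a := by
    rw [Matrix.trace]
    exact Finset.sum_congr rfl fun a _ => by rw [diag_apply, mul_diagonal]
  have h4 : (diagonal d * diagonal y).trace = ∑ a, d a * y a := by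
    rw [diagonal_mul_diagonal, trace_diagonal]
  rw [h3, h4, ← sub_nonpos, ← Finset.sum_sub_distrib]
  refine le_trans (le_of_eq ?_) h2
  exact Finset.sum_congr rfl fun a _ => by simp only [w]; ring

/-- Good matrices in other coordinates. -/
lemma good_conj {𝔤 : Submodule ℝ (Matrix ι ι ℝ)} {j : ℕ} {g O : Matrix ι ι ℝ} (hO : Oᵀ * O = 1)
    (hg : Good 𝔤 j g) :
    Good (𝔤.map (LinearMap.mulLeft ℝ Oᵀ ∘ₗ LinearMap.mulRight ℝ O)) j (Oᵀ * g * O) := by
  intro M' hM' u' hu'
  have hO' : O * Oᵀ = 1 := mul_eq_one_comm.mp hO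
  let M : Submodule ℝ (Ten ι j) := M'.comap (TT Oᵀ)
  have hM : ∀ x ∈ 𝔤, ∀ u ∈ M, tau x u ∈ M := by
    intro x hx u hu
    show TT Oᵀ (tau x u) ∈ M'
    rw [TT_tau_comm (x := x) (z := Oᵀ * (x * O)) (g := Oᵀ)]
    · exact hM' _ ⟨x, hx, rfl⟩ _ hu
    · rw [mul_assoc, mul_assoc, hO', mul_one]
  have hu : TT O u' ∈ M := by
    show TT Oᵀ (TT O u') ∈ M'
    rw [← TT_mul, hO, TT_one]
    exact hu'
  have h1 := hg M hM _ hu
  have h2 : TT Oᵀ (TT g (TT O u')) ∈ M' := h1
  rw [← TT_mul, ← TT_mul] at h2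
  exact h2

/-- **The rearrangement inequality.** -/
theorem star_general (𝔤 : Submodule ℝ (Matrix ι ι ℝ))
    (hbr : ∀ x ∈ 𝔤, ∀ y ∈ 𝔤, x * y - y * x ∈ 𝔤) {v y O : Matrix ι ι ℝ} {d e : ι → ℝ}
    (hO : Oᵀ * O = 1) (hv : v * O = O * diagonal d) (hy : y * O = O * diagonal e)
    (hdec : 𝔤 ≤ Submodule.span ℝ {x | x ∈ 𝔤 ∧ ∃ α β : ℝ, v * x - x * v = α • x ∧
      y * x - x * y = β • x ∧ (α ≤ 0 ∨ 0 ≤ β)}) (k : Matrix ι ι ℝ) (hk : kᵀ * k = 1)
    (hgood : ∀ j, Good 𝔤 j k) : (kᵀ * v * k * y).trace ≤ (v * y).trace := by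
  have hO' : O * Oᵀ = 1 := mul_eq_one_comm.mp hO
  let c : Matrix ι ι ℝ →ₗ[ℝ] Matrix ι ι ℝ := LinearMap.mulLeft ℝ Oᵀ ∘ₗ LinearMap.mulRight ℝ O
  have hc : ∀ x, c x = Oᵀ * (x * O) := fun x => rfl
  have hcmul : ∀ x z, c x * c z = c (x * z) := by
    intro x z
    rw [hc, hc, hc]
    calc Oᵀ * (x * O) * (Oᵀ * (z * O)) = Oᵀ * (x * ((O * Oᵀ) * (z * O))) := by
          simp only [mul_assoc]
      _ = Oᵀ * (x * z * O) := by rw [hO', one_mul, mul_assoc]
  have hvc : c v = diagonal d := by rw [hc, hv, ← mul_assoc, hO, one_mul]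
  have hyc : c y = diagonal e := by rw [hc, hy, ← mul_assoc, hO, one_mul]
  have htr : ∀ x, (c x).trace = x.trace := by
    intro x
    rw [hc, trace_mul_comm, mul_assoc, hO', mul_one]
  have hct : ∀ x, (c x)ᵀ = c xᵀ := by
    intro x
    rw [hc, hc, transpose_mul, transpose_mul, transpose_transpose, mul_assoc]
  have h1 := star_diag (𝔤.map c) (by
    rintro _ ⟨x, hx, rfl⟩ _ ⟨z, hz, rfl⟩
    rw [hcmul, hcmul, ← map_sub]
    exact ⟨_, hbr x hx z hz, rfl⟩) d e (by
    have h2 := Submodule.map_mono (f := c) hdec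
    rw [Submodule.map_span] at h2
    refine h2.trans (Submodule.span_mono ?_)
    rintro _ ⟨x, ⟨hx, α, β, hα, hβ, hab⟩, rfl⟩
    refine ⟨⟨x, hx, rfl⟩, ?_⟩
    have e1 : diagonal d * c x - c x * diagonal d = α • c x := by
      rw [← hvc, hcmul, hcmul, ← map_sub, hα, map_smul]
    have e2 : diagonal e * c x - c x * diagonal e = β • c x := by
      rw [← hyc, hcmul, hcmul, ← map_sub, hβ, map_smul]
    have f1 : ∀ a b, c x a b ≠ 0 → d a - d b = α := by
      intro a b hne
      have h3 := congrFun (congrFun e1 a) b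
      rw [Matrix.sub_apply, diagonal_mul, mul_diagonal, Matrix.smul_apply, smul_eq_mul] at h3
      have h4 : (d a - d b) * c x a b = α * c x a b := by linarith
      exact mul_right_cancel₀ hne h4
    have f2 : ∀ a b, c x a b ≠ 0 → e a - e b = β := by
      intro a b hne
      have h3 := congrFun (congrFun e2 a) b
      rw [Matrix.sub_apply, diagonal_mul, mul_diagonal, Matrix.smul_apply, smul_eq_mul] at h3
      have h4 : (e a - e b) * c x a b = β * c x a b := by linarith
      exact mul_right_cancel₀ hne h4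
    rcases hab with h | h
    · left
      intro a b hne
      have := f1 a b hne
      linarith
    · right
      intro a b hne
      have := f2 a b hne
      linarith) (c kᵀ) (by
    rw [hct, transpose_transpose, hcmul, mul_eq_one_comm.mp hk, hc, one_mul, hO]) (fun j => by
    rw [hct, transpose_transpose]
    have h3 := good_conj hO (hgood j)
    rw [mul_assoc] at h3
    exact h3)
  rw [← hvc, ← hyc, hct, transpose_transpose, hcmul, hcmul, hcmul, hcmul, htr, htr] at h1
  exact h1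

end F31343
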