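import Mathlib
import Pool.Agent.Lib_MP_f31343.Star
import Pool.Agent.Lib_MP_f31343.Joint
import Pool.Agent.Lib_MP_f31343.Corank

/-!
# Weyl chambers: the rearrangement inequality for linear reductive groups
-/

open Matrix NormedSpace Filter Topology Module
open scoped Matrix.Norms.Operator ContDiff

namespace F31343

variable {ι : Type*} [Fintype ι] [DecidableEq ι]

/-- The closed subgroup of `K` generated by the elements `exp [X, Y]`, `X, Y ∈ 𝔭`. (If `G` is
semisimple without compact factors this is the identity component of `K`; in general the identity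
component of `K` is the product of this group and of a group which acts trivially on `𝔭`.) -/
noncomputable def K₀ (G : LinRed ι) : Subgroup (GL ι ℝ) :=
  (Subgroup.closure {g : GL ι ℝ | ∃ X ∈ G.𝔭, ∃ Y ∈ G.𝔭, g.val = exp (brk X Y)}).topologicalClosure

variable {G H : LinRed ι}

lemma isClosed_K (G : LinRed ι) : IsClosed (G.K : Set (GL ι ℝ)) := by
  have : T2Space (GL ι ℝ) := isOpenEmbedding_val.isEmbedding.t2Space
  exact (isCompact_K G).isClosed

lemma K₀_le (G : LinRed ι) : K₀ G ≤ G.K := by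
  refine Subgroup.topologicalClosure_minimal _ ?_ (isClosed_K G)
  rw [Subgroup.closure_le]
  rintro g ⟨X, hX, Y, hY, hg⟩
  have h1 := brk_mem_k hX hY 1 g
  rw [one_smul] at h1
  exact h1 hg

lemma isClosed_K₀ (G : LinRed ι) : IsClosed (K₀ G : Set (GL ι ℝ)) :=
  Subgroup.isClosed_topologicalClosure _

lemma isCompact_K₀ (G : LinRed ι) : IsCompact (K₀ G : Set (GL ι ℝ)) :=
  (isCompact_K G).of_isClosed_subset (isClosed_K₀ G) (K₀_le G)

lemma expU_mem_K₀ {X Y : Matrix ι ι ℝ} (hX : X ∈ G.𝔭) (hY : Y ∈ G.𝔭) (t : ℝ) :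
    expU (t • brk X Y) ∈ K₀ G := by
  refine Subgroup.le_topologicalClosure _ (Subgroup.subset_closure
    ⟨t • X, G.𝔭.smul_mem t hX, Y, hY, ?_⟩)
  rw [expU_val]
  congr 1
  unfold brk
  rw [smul_sub, smul_mul_assoc, mul_smul_comm]

/-! ### The Lie algebra generated by `𝔭` -/

/-- The span of the brackets of elements of `𝔭`. -/
def kLie (G : LinRed ι) : Submodule ℝ (Matrix ι ι ℝ) :=
  Submodule.span ℝ {A | ∃ X ∈ G.𝔭, ∃ Y ∈ G.𝔭, A = brk X Y}

/-- The Lie algebra generated by `𝔭`. -/
def gLie (G : LinRed ι) : Submodule ℝ (Matrix ι ι ℝ) := G.𝔭 ⊔ kLie G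

omit [Fintype ι] [DecidableEq ι] in
lemma brk_mem_kLie [Fintype ι] [DecidableEq ι] {G : LinRed ι} {X Y : Matrix ι ι ℝ} (hX : X ∈ G.𝔭)
    (hY : Y ∈ G.𝔭) : brk X Y ∈ kLie G := Submodule.subset_span ⟨X, hX, Y, hY, rfl⟩

lemma kLie_p {A X : Matrix ι ι ℝ} (hA : A ∈ kLie G) (hX : X ∈ G.𝔭) : brk A X ∈ G.𝔭 := by
  refine Submodule.span_induction (p := fun A _ => brk A X ∈ G.𝔭) ?_ ?_ ?_ ?_ hA
  · rintro _ ⟨Y, hY, Z, hZ, rfl⟩
    exact ad_mem_p (brk_mem_k hY hZ) hX
  · show (0 : Matrix ι ι ℝ) * X - X * 0 ∈ G.𝔭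
    rw [zero_mul, mul_zero, sub_self]
    exact G.𝔭.zero_mem
  · intro A B _ _ hA hB
    have e : brk (A + B) X = brk A X + brk B X := by unfold brk; noncomm_ring
    rw [e]
    exact G.𝔭.add_mem hA hB
  · intro c A _ hA
    have e : brk (c • A) X = c • brk A X := by
      unfold brk
      rw [smul_sub, smul_mul_assoc, mul_smul_comm]
    rw [e]
    exact G.𝔭.smul_mem c hA

lemma kLie_k {A B : Matrix ι ι ℝ} (hA : A ∈ kLie G) (hB : B ∈ kLie G) : brk A B ∈ kLie G := by
  refine Submodule.span_induction (p := fun B _ => brk A B ∈ kLie G) ?_ ?_ ?_ ?_ hB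
  · rintro _ ⟨Y, hY, Z, hZ, rfl⟩
    have e : brk A (brk Y Z) = brk (brk A Y) Z + brk Y (brk A Z) := by unfold brk; noncomm_ring
    rw [e]
    exact (kLie G).add_mem (brk_mem_kLie (kLie_p hA hY) hZ) (brk_mem_kLie hY (kLie_p hA hZ))
  · show A * (0 : Matrix ι ι ℝ) - 0 * A ∈ kLie G
    rw [zero_mul, mul_zero, sub_self]
    exact (kLie G).zero_mem
  · intro B C _ _ hB hC
    have e : brk A (B + C) = brk A B + brk A C := by unfold brk; noncomm_ring
    rw [e]
    exact (kLie G).add_mem hB hC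
  · intro c B _ hB
    have e : brk A (c • B) = c • brk A B := by
      unfold brk
      rw [smul_sub, smul_mul_assoc, mul_smul_comm]
    rw [e]
    exact (kLie G).smul_mem c hB

omit [DecidableEq ι] in
lemma brk_swap (A B : Matrix ι ι ℝ) : brk A B = -brk B A := by
  unfold brk
  rw [neg_sub]

lemma gLie_brk {x y : Matrix ι ι ℝ} (hx : x ∈ gLie G) (hy : y ∈ gLie G) :
    x * y - y * x ∈ gLie G := by
  show brk x y ∈ gLie G
  obtain ⟨X, hX, A, hA, rfl⟩ := Submodule.mem_sup.mp hx
  obtain ⟨Y, hY, B, hB, rfl⟩ := Submodule.mem_sup.mp hy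
  have e : brk (X + A) (Y + B) = (brk X B + brk A Y) + (brk X Y + brk A B) := by
    unfold brk; noncomm_ring
  rw [e]
  refine Submodule.add_mem_sup (G.𝔭.add_mem ?_ (kLie_p hA hY))
    ((kLie G).add_mem (brk_mem_kLie hX hY) (kLie_k hA hB))
  rw [brk_swap]
  exact G.𝔭.neg_mem (kLie_p hB hX)

lemma kLie_skew {A : Matrix ι ι ℝ} (hA : A ∈ kLie G) : Aᵀ = -A := by
  refine Submodule.span_induction (p := fun A _ => Aᵀ = -A) ?_ ?_ ?_ ?_ hA
  · rintro _ ⟨Y, hY, Z, hZ, rfl⟩
    exact transpose_of_mem_k (brk_mem_k hY hZ)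
  · rw [transpose_zero, neg_zero]
  · intro A B _ _ hA hB
    rw [transpose_add, hA, hB, neg_add]
  · intro c A _ hA
    rw [transpose_smul, hA, smul_neg]

/-- The two parts of an eigenvector of the bracket with an element of `𝔭`. -/
lemma parts {v p κ : Matrix ι ι ℝ} {α : ℝ} (hv : v ∈ G.𝔭) (hp : p ∈ G.𝔭) (hκ : κ ∈ kLie G)
    (h : adm v (p + κ) = α • (p + κ)) : brk v p = α • κ ∧ brk v κ = α • p := by
  have h1 : brk v p + brk v κ = α • p + α • κ := by
    rw [← smul_add, ← h, adm_apply]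
    unfold brk
    noncomm_ring
  have h2 : (brk v p)ᵀ = -brk v p := kLie_skew (brk_mem_kLie hv hp)
  have h3 : (brk v κ)ᵀ = brk v κ := by
    have : brk v κ ∈ G.𝔭 := by
      rw [brk_swap]
      exact G.𝔭.neg_mem (kLie_p hκ hv)
    exact G.symm _ this
  have h4 := congrArg transpose h1
  rw [transpose_add, transpose_add, transpose_smul, transpose_smul, h2, h3, G.symm p hp,
    kLie_skew hκ] at h4
  have h5 : (2 : ℝ) • brk v κ = (2 : ℝ) • (α • p) := by
    have h6 : (brk v p + brk v κ) + (-brk v p + brk v κ)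
        = (α • p + α • κ) + (α • p + α • -κ) := by rw [h1, h4]
    have e1 : (brk v p + brk v κ) + (-brk v p + brk v κ) = (2 : ℝ) • brk v κ := by
      rw [two_smul]; abel
    have e2 : (α • p + α • κ) + (α • p + α • -κ) = (2 : ℝ) • (α • p) := by
      rw [two_smul, smul_neg]; abel
    rw [e1, e2] at h6
    exact h6
  have h6 : brk v κ = α • p := smul_right_injective _ (two_ne_zero' ℝ) h5
  refine ⟨?_, h6⟩
  rw [h6] at h1
  rw [add_comm] at h1
  exact add_left_cancel h1

/-! ### The same chamber -/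

/-- `v` and `y` lie in a common closed Weyl chamber: no root takes values of opposite sign. -/
def SC (G : LinRed ι) (v y : Matrix ι ι ℝ) : Prop :=
  ∀ x ∈ gLie G, ∀ α β : ℝ, adm v x = α • x → adm y x = β • x → α * β < 0 → x = 0

/-- Elements of `K₀` are good. -/
lemma good_K₀ {k : GL ι ℝ} (hk : k ∈ K₀ G) (j : ℕ) : Good (gLie G) j k.val := by
  let S : Subgroup (GL ι ℝ) :=
    { carrier := {g | Good (gLie G) j g.val}
      one_mem' := good_one _
      mul_mem' := fun hg hh => by
        show Good (gLie G) j (_ * _ : GL ι ℝ).val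
        rw [Units.val_mul]
        exact good_mul hg hh
      inv_mem' := by
        intro g hg M hM u hu
        let R : M →ₗ[ℝ] M := (TT g.val).restrict (hg M hM)
        have hinj : Function.Injective R := by
          intro a b hab
          have h1 : TT g.val a.1 = TT g.val b.1 := congrArg Subtype.val hab
          have h2 := congrArg (TT (g⁻¹ : GL ι ℝ).val) h1
          rw [← TT_mul, ← TT_mul, Units.inv_mul, TT_one, TT_one] at h2
          exact Subtype.ext h2
        obtain ⟨a, ha⟩ := (LinearMap.injective_iff_surjective.mp hinj) ⟨u, hu⟩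
        have h1 : TT g.val a.1 = u := congrArg Subtype.val ha
        rw [← h1, ← TT_mul, Units.inv_mul, TT_one]
        exact a.2 }
  have hclosed : IsClosed (S : Set (GL ι ℝ)) :=
    (isClosed_good (gLie G) j).preimage isOpenEmbedding_val.continuous
  have hle : K₀ G ≤ S := by
    refine Subgroup.topologicalClosure_minimal _ ?_ hclosed
    rw [Subgroup.closure_le]
    rintro g ⟨X, hX, Y, hY, hg⟩
    show Good (gLie G) j g.val
    rw [hg]
    exact good_exp (Submodule.mem_sup_right (brk_mem_kLie hX hY))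
  exact hle hk

/-- **The rearrangement inequality**: if `v` and `y` lie in a common closed Weyl chamber then
`v` is the point of its `K₀`-orbit with the largest scalar product with `y`. -/
theorem star {v y : Matrix ι ι ℝ} (hv : v ∈ G.𝔭) (hy : y ∈ G.𝔭) (hvy : v * y = y * v)
    (hsc : SC G v y) {k : GL ι ℝ} (hk : k ∈ K₀ G) :
    (k.valᵀ * v * k.val * y).trace ≤ (v * y).trace := by
  obtain ⟨O, d, e, hO, hvO, hyO⟩ := exists_joint_diag (G.symm v hv) (G.symm y hy) hvy
  have hvg : v ∈ gLie G := Submodule.mem_sup_left hv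
  have hyg : y ∈ gLie G := Submodule.mem_sup_left hy
  refine star_general (gLie G) (fun x hx z hz => gLie_brk hx hz) hO hvO hyO ?_ k.val
    (K_orth (K₀_le G hk)) (good_K₀ hk)
  refine (le_span_joint (G.symm v hv) (G.symm y hy) hvy (gLie G)
    (fun x hx => gLie_brk hvg hx) (fun x hx => gLie_brk hyg hx)).trans (Submodule.span_mono ?_)
  rintro x ⟨hx, α, β, hα, hβ⟩
  by_cases h1 : α ≤ 0
  · exact ⟨hx, α, β, hα, hβ, Or.inl h1⟩
  · by_cases h2 : 0 ≤ β
    · exact ⟨hx, α, β, hα, hβ, Or.inr h2⟩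
    · push Not at h1 h2
      have h3 := hsc x hx α β hα hβ (mul_neg_of_pos_of_neg h1 h2)
      refine ⟨hx, 0, 0, ?_, ?_, Or.inl le_rfl⟩
      · rw [h3, mul_zero, zero_mul, sub_self, smul_zero]
      · rw [h3, mul_zero, zero_mul, sub_self, smul_zero]

end F31343
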