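import Mathlib
import Pool.Agent.Lib_MP_f31343.Weyl1

/-!
# Weyl chambers: the projection to a chamber
-/

open Matrix NormedSpace Filter Topology Module
open scoped Matrix.Norms.Operator ContDiff

namespace F31343

variable {ι : Type*} [Fintype ι] [DecidableEq ι] {G H : LinRed ι}

/-- `Z` is the point of its `K₀`-orbit with the largest scalar product with `Y`. -/
def IsMaxP (G : LinRed ι) (Y Z : Matrix ι ι ℝ) : Prop :=
  ∀ k ∈ K₀ G, (k.valᵀ * Z * k.val * Y).trace ≤ (Z * Y).trace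

/-- The height along a one-parameter group. -/
lemma hasDerivAt_height {A : Matrix ι ι ℝ} (hA : A ∈ G.𝔨) (Z Y : Matrix ι ι ℝ) (t : ℝ) :
    HasDerivAt (fun t : ℝ => ((exp (t • A) * (Z * (exp (t • A))ᵀ)) * Y).trace)
      ((brk A (exp (t • A) * (Z * (exp (t • A))ᵀ)) * Y).trace) t := by
  let tl : Matrix ι ι ℝ →L[ℝ] ℝ := LinearMap.toContinuousLinearMap
    (Matrix.traceLinearMap ι ℝ ℝ ∘ₗ LinearMap.mulRight ℝ Y)
  exact tl.hasFDerivAt.comp_hasDerivAt t (hasDerivAt_conj hA Z t)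

lemma hasDerivAt_height2 {A : Matrix ι ι ℝ} (hA : A ∈ G.𝔨) (Z Y : Matrix ι ι ℝ) (t : ℝ) :
    HasDerivAt (fun t : ℝ => (brk A (exp (t • A) * (Z * (exp (t • A))ᵀ)) * Y).trace)
      ((brk A (brk A (exp (t • A) * (Z * (exp (t • A))ᵀ))) * Y).trace) t := by
  let tl : Matrix ι ι ℝ →L[ℝ] ℝ := LinearMap.toContinuousLinearMap
    (Matrix.traceLinearMap ι ℝ ℝ ∘ₗ LinearMap.mulRight ℝ Y ∘ₗ
      (LinearMap.mulLeft ℝ A - LinearMap.mulRight ℝ A))
  exact tl.hasFDerivAt.comp_hasDerivAt t (hasDerivAt_conj hA Z t)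

lemma height_le {X X' Y Z : Matrix ι ι ℝ} (hX : X ∈ G.𝔭) (hX' : X' ∈ G.𝔭) (hmax : IsMaxP G Y Z)
    (t : ℝ) : ((exp (t • brk X X') * (Z * (exp (t • brk X X'))ᵀ)) * Y).trace
      ≤ ((exp ((0 : ℝ) • brk X X') * (Z * (exp ((0 : ℝ) • brk X X'))ᵀ)) * Y).trace := by
  rw [zero_smul, NormedSpace.exp_zero, transpose_one, one_mul, mul_one]
  have h1 := expU_mem_K₀ hX hX' t
  have h2 := hmax _ ((K₀ G).inv_mem h1)
  rw [K_inv_val (K₀_le G h1), transpose_transpose, expU_val] at h2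
  rw [← mul_assoc]
  exact h2

lemma height_zero (A Z Y : Matrix ι ι ℝ) :
    ((exp ((0 : ℝ) • A) * (Z * (exp ((0 : ℝ) • A))ᵀ)) * Y).trace = (Z * Y).trace := by
  rw [zero_smul, NormedSpace.exp_zero, transpose_one, one_mul, mul_one]

/-- A maximal point commutes with `Y`. -/
lemma IsMaxP.comm {Y Z : Matrix ι ι ℝ} (hY : Y ∈ G.𝔭) (hZ : Z ∈ G.𝔭) (hmax : IsMaxP G Y Z) :
    Z * Y = Y * Z := by
  have hA : brk Z Y ∈ G.𝔨 := brk_mem_k hZ hY
  have h2 : IsLocalMax (fun t : ℝ => ((exp (t • brk Z Y) * (Z * (exp (t • brk Z Y))ᵀ)) * Y).trace)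
      0 := Eventually.of_forall fun t => height_le hZ hY hmax t
  have h1 := h2.hasDerivAt_eq_zero (hasDerivAt_height hA Z Y 0)
  rw [zero_smul, NormedSpace.exp_zero, transpose_one, one_mul, mul_one, trace_brk_mul] at h1
  have h4 : ((brk Z Y)ᵀ * brk Z Y).trace = 0 := by
    rw [transpose_of_mem_k hA, neg_mul, trace_neg, h1, neg_zero]
  exact sub_eq_zero.mp (eq_zero_of_trace_tm h4)

/-- A maximal point lies in a common chamber with `Y` (second order condition). -/
lemma IsMaxP.sc {Y Z : Matrix ι ι ℝ} (hY : Y ∈ G.𝔭) (hZ : Z ∈ G.𝔭) (hmax : IsMaxP G Y Z) :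
    SC G Z Y := by
  intro x hx α β hα hβ hαβ
  obtain ⟨p, hp, κ, hκ, rfl⟩ := Submodule.mem_sup.mp hx
  obtain ⟨a1, a2⟩ := parts hZ hp hκ hα
  obtain ⟨b1, b2⟩ := parts hY hp hκ hβ
  have hα0 : α ≠ 0 := by
    rintro rfl
    simp at hαβ
  -- the second derivative
  have hA : brk Z p ∈ G.𝔨 := brk_mem_k hZ hp
  let φ : ℝ → ℝ := fun t => ((exp (t • brk Z p) * (Z * (exp (t • brk Z p))ᵀ)) * Y).trace
  have hd1 : deriv φ = fun t : ℝ =>
      (brk (brk Z p) (exp (t • brk Z p) * (Z * (exp (t • brk Z p))ᵀ)) * Y).trace :=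
    funext fun t => (hasDerivAt_height hA Z Y t).deriv
  have hd2 : deriv (deriv φ) 0 = (brk (brk Z p) (brk (brk Z p) Z) * Y).trace := by
    rw [hd1, (hasDerivAt_height2 hA Z Y 0).deriv]
    rw [zero_smul, NormedSpace.exp_zero, transpose_one, one_mul, mul_one]
  have hval : (brk (brk Z p) (brk (brk Z p) Z) * Y).trace = -(α ^ 3 * β) * (κᵀ * κ).trace := by
    have e1 : brk (brk Z p) Z = -(α ^ 2) • p := by
      rw [a1, brk_swap]
      have : brk Z (α • κ) = α • brk Z κ := by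
        unfold brk
        rw [smul_sub, smul_mul_assoc, mul_smul_comm]
      rw [this, a2, smul_smul, neg_smul, pow_two]
    rw [e1, a1]
    have e2 : brk (α • κ) (-(α ^ 2) • p) = -(α ^ 3) • brk κ p := by
      unfold brk
      rw [smul_sub, smul_mul_smul_comm, smul_mul_smul_comm]
      congr 2 <;> ring
    rw [e2, smul_mul_assoc, trace_smul, trace_brk_mul, smul_eq_mul]
    have e3 : brk p Y = -(β • κ) := by rw [brk_swap, b1]
    have e4 : (κᵀ * κ).trace = -(κ * κ).trace := by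
      rw [kLie_skew hκ, neg_mul, trace_neg]
    rw [e3, e4, mul_neg, mul_smul_comm, trace_neg, trace_smul, smul_eq_mul]
    ring
  by_contra hne
  have hκ0 : κ ≠ 0 := by
    intro h0
    apply hne
    rw [h0] at a2 ⊢
    have h1 : brk Z (0 : Matrix ι ι ℝ) = 0 := by
      unfold brk
      rw [mul_zero, zero_mul, sub_self]
    rw [h1] at a2
    have h2 : p = 0 := (smul_eq_zero.mp a2.symm).resolve_left hα0
    rw [h2, add_zero]
  have hpos : 0 < deriv (deriv φ) 0 := by
    rw [hd2, hval]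
    have h1 : 0 < (κᵀ * κ).trace := lt_of_le_of_ne (trace_tm_nonneg κ)
      fun h => hκ0 (eq_zero_of_trace_tm h.symm)
    have h2 : 0 < -(α ^ 3 * β) := by
      have h3 : 0 < α ^ 2 := by positivity
      have h4 : -(α ^ 3 * β) = α ^ 2 * (-(α * β)) := by ring
      rw [h4]
      exact mul_pos h3 (by linarith)
    exact mul_pos h2 h1
  have hmax0 : ∀ t, φ t ≤ φ 0 := fun t => height_le hZ hp hmax t
  have hd0 : deriv φ 0 = 0 := by
    have h2 : IsLocalMax φ 0 := Eventually.of_forall hmax0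
    exact h2.deriv_eq_zero
  have hmin := isLocalMin_of_deriv_deriv_pos hpos hd0
    (hasDerivAt_height hA Z Y 0).continuousAt
  have hconst : φ =ᶠ[𝓝 0] fun _ => φ 0 := hmin.mono fun t ht => le_antisymm (hmax0 t) ht
  have h3 : deriv (deriv φ) 0 = 0 := by
    have h4 : deriv φ =ᶠ[𝓝 0] fun _ => 0 := by
      have h5 := hconst.deriv
      refine h5.trans (Eventually.of_forall fun t => ?_)
      simp
    rw [h4.deriv_eq]
    simp
  linarith

/-- Two elements which lie in a chamber of a regular element lie in a common chamber. -/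
lemma sc_trans {Y v v' : Matrix ι ι ℝ} (hY : Y ∈ G.𝔭)
    (hreg : finrank ℝ (centraliser G Y) = realRank G) (hv : v ∈ centraliser G Y)
    (hv' : v' ∈ centraliser G Y) (h : SC G v Y) (h' : SC G v' Y) : SC G v v' := by
  intro x hx α α' hα hα' hneg
  have hα0 : α ≠ 0 := by
    rintro rfl
    simp at hneg
  let p : Submodule ℝ (Matrix ι ι ℝ) :=
    gLie G ⊓ (Module.End.eigenspace (adm v) α ⊓ Module.End.eigenspace (adm v') α')
  have hYs : Yᵀ = Y := G.symm Y hY
  have comm : ∀ {u : Matrix ι ι ℝ}, u ∈ centraliser G Y → ∀ x, adm u (adm Y x) = adm Y (adm u x) := by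
    intro u hu x
    have huY : u * Y = Y * u := hu.2
    have e1 : u * (Y * x) = Y * (u * x) := by rw [← mul_assoc, huY, mul_assoc]
    have e2 : x * (Y * u) = x * (u * Y) := by rw [huY]
    simp only [adm_apply, mul_sub, sub_mul, mul_assoc]
    rw [e1, e2]
    abel
  have hpY : ∀ z ∈ p, adm Y z ∈ p := by
    rintro z ⟨h1, h2, h3⟩
    refine ⟨gLie_brk (Submodule.mem_sup_left hY) h1, ?_, ?_⟩
    · show adm Y z ∈ Module.End.eigenspace (adm v) α
      rw [Module.End.mem_eigenspace_iff, comm hv, Module.End.mem_eigenspace_iff.mp h2, map_smul]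
    · show adm Y z ∈ Module.End.eigenspace (adm v') α'
      rw [Module.End.mem_eigenspace_iff, comm hv', Module.End.mem_eigenspace_iff.mp h3, map_smul]
  have hbot : ∀ β : ℝ, p ⊓ Module.End.eigenspace (adm Y) β = ⊥ := by
    intro β
    rw [Submodule.eq_bot_iff]
    rintro z ⟨⟨h1, h2, h3⟩, h4⟩
    have e2 := Module.End.mem_eigenspace_iff.mp h2
    have e3 := Module.End.mem_eigenspace_iff.mp h3
    have e4 := Module.End.mem_eigenspace_iff.mp h4
    rcases eq_or_ne β 0 with hβ | hβ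
    · -- the component in the centraliser of `Y`
      subst hβ
      obtain ⟨q, hq, κ, hκ, rfl⟩ := Submodule.mem_sup.mp h1
      obtain ⟨b1, b2⟩ := parts hY hq hκ e4
      obtain ⟨a1, a2⟩ := parts hv.1 hq hκ e2
      rw [zero_smul] at b1
      have hqc : q ∈ centraliser G Y := ⟨hq, (sub_eq_zero.mp b1).symm⟩
      have h5 := comm_of_regular hY hreg hqc hv
      have h6 : brk v q = 0 := by
        unfold brk
        rw [h5, sub_self]
      rw [h6] at a1
      have hκ0 : κ = 0 := (smul_eq_zero.mp a1.symm).resolve_left hα0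
      rw [hκ0] at a2 ⊢
      have h7 : brk v (0 : Matrix ι ι ℝ) = 0 := by
        unfold brk
        rw [mul_zero, zero_mul, sub_self]
      rw [h7] at a2
      rw [(smul_eq_zero.mp a2.symm).resolve_left hα0, add_zero]
    · by_cases h5 : α * β < 0
      · exact h z h1 α β e2 e4 h5
      · refine h' z h1 α' β e3 e4 ?_
        push Not at h5
        have h6 : 0 < α * β := lt_of_le_of_ne h5 (Ne.symm (mul_ne_zero hα0 hβ))
        by_contra h7
        push Not at h7
        have h8 : 0 ≤ (α * β) * (α' * β) := mul_nonneg h6.le h7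
        have h9 : (α * β) * (α' * β) = (α * α') * β ^ 2 := by ring
        rw [h9] at h8
        have h10 : 0 < β ^ 2 := by positivity
        nlinarith
  have hp : p = ⊥ := by
    have h2 := Submodule.inf_iSup_genEigenspace (f := adm Y) hpY 1
    have h3 : (⨆ μ : ℝ, (adm Y).genEigenspace μ 1) = ⊤ := iSup_eigenspace_adm hYs
    rw [h3, inf_top_eq] at h2
    rw [h2]
    rw [iSup_eq_bot]
    exact hbot
  have hxp : x ∈ p := ⟨hx, Module.End.mem_eigenspace_iff.mpr hα, Module.End.mem_eigenspace_iff.mpr hα'⟩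
  rw [hp] at hxp
  simpa using hxp

/-- Every `K₀`-orbit has a maximal point. -/
lemma exists_isMaxP (Y X : Matrix ι ι ℝ) : ∃ k ∈ K₀ G, IsMaxP G Y (k.valᵀ * X * k.val) := by
  have hc : Continuous (fun k : GL ι ℝ => (k.valᵀ * X * k.val * Y).trace) := by
    have h1 : Continuous (fun k : GL ι ℝ => k.val) := isOpenEmbedding_val.continuous
    exact ((((h1.matrix_transpose.matrix_mul continuous_const).matrix_mul h1).matrix_mul
      continuous_const)).matrix_trace
  obtain ⟨k, hk, hmax⟩ := (isCompact_K₀ G).exists_isMaxOn ⟨1, (K₀ G).one_mem⟩ hc.continuousOn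
  refine ⟨k, hk, fun k' hk' => ?_⟩
  have h1 := hmax ((K₀ G).mul_mem hk hk')
  have h2 : ((k * k').valᵀ * X * (k * k').val * Y).trace ≤ (k.valᵀ * X * k.val * Y).trace := h1
  rw [Units.val_mul, transpose_mul] at h2
  calc (k'.valᵀ * (k.valᵀ * X * k.val) * k'.val * Y).trace
      = (k'.valᵀ * k.valᵀ * X * (k.val * k'.val) * Y).trace := by simp only [mul_assoc]
    _ ≤ _ := h2

/-- The maximal point is unique if `Y` is regular. -/
lemma isMaxP_unique {Y Z Z' : Matrix ι ι ℝ} (hY : Y ∈ G.𝔭)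
    (hreg : finrank ℝ (centraliser G Y) = realRank G) (hZ : Z ∈ G.𝔭)
    (h : IsMaxP G Y Z) (h' : IsMaxP G Y Z') {k : GL ι ℝ} (hk : k ∈ K₀ G)
    (hkZ : k.valᵀ * Z * k.val = Z') : Z' = Z := by
  have hkK := K₀_le G hk
  have hZ' : Z' ∈ G.𝔭 := by rw [← hkZ]; exact conj_mem_p' hkK hZ
  have hZc : Z ∈ centraliser G Y := ⟨hZ, h.comm hY hZ⟩
  have hZc' : Z' ∈ centraliser G Y := ⟨hZ', h'.comm hY hZ'⟩
  have hsc := sc_trans hY hreg hZc hZc' (h.sc hY hZ) (h'.sc hY hZ')
  have hcomm : Z * Z' = Z' * Z := comm_of_regular hY hreg hZc' hZc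
  have h1 := star hZ hZ' hcomm hsc hk
  rw [hkZ] at h1
  have hZZ : (Z' * Z').trace = (Z * Z).trace := by
    have e : Z' * Z' = k.valᵀ * (Z * Z * k.val) := by
      calc Z' * Z' = k.valᵀ * Z * (k.val * k.valᵀ) * Z * k.val := by
            rw [← hkZ]; simp only [mul_assoc]
        _ = k.valᵀ * (Z * Z * k.val) := by rw [K_orth' hkK, mul_one]; simp only [mul_assoc]
    rw [e, trace_mul_comm, mul_assoc, mul_assoc, K_orth' hkK, mul_one]
  have h2 : ((Z' - Z)ᵀ * (Z' - Z)).trace ≤ 0 := by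
    rw [transpose_sub, G.symm Z hZ, G.symm Z' hZ']
    have e : (Z' - Z) * (Z' - Z) = Z' * Z' - Z' * Z - Z * Z' + Z * Z := by noncomm_ring
    rw [e, trace_add, trace_sub, trace_sub, ← hZZ, trace_mul_comm Z' Z]
    linarith
  have h3 := eq_zero_of_trace_tm (le_antisymm h2 (trace_tm_nonneg _))
  exact sub_eq_zero.mp h3

end F31343
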