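import Mathlib
import Pool.Agent.Lib_MP_f31343.Weyl2
import Pool.Agent.Lib_MP_f31343.Chamber

/-!
# Weyl chambers: the opposition involution
-/

open Matrix NormedSpace Filter Topology Module
open scoped Matrix.Norms.Operator ContDiff

namespace F31343

variable {ι : Type*} [Fintype ι] [DecidableEq ι] {G H : LinRed ι}

/-- The action of an element of `K` on matrices. -/
def conjL (k : GL ι ℝ) : Matrix ι ι ℝ →ₗ[ℝ] Matrix ι ι ℝ :=
  LinearMap.mulRight ℝ k.val ∘ₗ LinearMap.mulLeft ℝ k.valᵀ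

lemma conjL_apply (k : GL ι ℝ) (X : Matrix ι ι ℝ) : conjL k X = k.valᵀ * X * k.val := rfl

lemma conj_cancel {k : GL ι ℝ} (hk : k ∈ G.K) (X : Matrix ι ι ℝ) :
    k.val * (k.valᵀ * X * k.val) * k.valᵀ = X := by
  calc k.val * (k.valᵀ * X * k.val) * k.valᵀ
      = (k.val * k.valᵀ) * X * (k.val * k.valᵀ) := by simp only [mul_assoc]
    _ = X := by rw [K_orth' hk, one_mul, mul_one]

lemma conj_cancel' {k : GL ι ℝ} (hk : k ∈ G.K) (X : Matrix ι ι ℝ) :
    k.valᵀ * (k.val * X * k.valᵀ) * k.val = X := by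
  calc k.valᵀ * (k.val * X * k.valᵀ) * k.val
      = (k.valᵀ * k.val) * X * (k.valᵀ * k.val) := by simp only [mul_assoc]
    _ = X := by rw [K_orth hk, one_mul, mul_one]

lemma conj_mul {k : GL ι ℝ} (hk : k ∈ G.K) (X Y : Matrix ι ι ℝ) :
    (k.valᵀ * X * k.val) * (k.valᵀ * Y * k.val) = k.valᵀ * (X * Y) * k.val := by
  calc (k.valᵀ * X * k.val) * (k.valᵀ * Y * k.val)
      = k.valᵀ * X * (k.val * k.valᵀ) * Y * k.val := by simp only [mul_assoc]
    _ = k.valᵀ * (X * Y) * k.val := by rw [K_orth' hk, mul_one]; simp only [mul_assoc]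

lemma trace_conj {k : GL ι ℝ} (hk : k ∈ G.K) (X : Matrix ι ι ℝ) :
    (k.valᵀ * X * k.val).trace = X.trace := by
  rw [mul_assoc, trace_mul_comm, mul_assoc, K_orth' hk, mul_one]

/-- Conjugation maps centralisers to centralisers. -/
lemma centraliser_conj {k : GL ι ℝ} (hk : k ∈ G.K) {X Y : Matrix ι ι ℝ}
    (hX : X ∈ centraliser G Y) : k.valᵀ * X * k.val ∈ centraliser G (k.valᵀ * Y * k.val) := by
  refine ⟨conj_mem_p' hk hX.1, ?_⟩
  rw [conj_mul hk, conj_mul hk, hX.2]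

lemma finrank_centraliser_conj {k : GL ι ℝ} (hk : k ∈ G.K) (Y : Matrix ι ι ℝ) :
    finrank ℝ (centraliser G (k.valᵀ * Y * k.val)) = finrank ℝ (centraliser G Y) := by
  let f : centraliser G Y →ₗ[ℝ] centraliser G (k.valᵀ * Y * k.val) :=
    (conjL k).restrict fun X hX => centraliser_conj hk hX
  have hinj : Function.Injective f := by
    intro X X' h
    have h1 : k.valᵀ * X.1 * k.val = k.valᵀ * X'.1 * k.val := congrArg Subtype.val h
    have h2 := conj_cancel hk X.1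
    rw [h1, conj_cancel hk] at h2
    exact Subtype.ext h2.symm
  have hsurj : Function.Surjective f := by
    intro Z
    have h1 := centraliser_conj (G.K.inv_mem hk) Z.2
    rw [K_inv_val hk, transpose_transpose, conj_cancel hk] at h1
    refine ⟨⟨_, h1⟩, Subtype.ext ?_⟩
    exact conj_cancel' hk Z.1
  exact (LinearEquiv.ofBijective f ⟨hinj, hsurj⟩).finrank_eq.symm

lemma centraliser_neg (Y : Matrix ι ι ℝ) : centraliser G (-Y) = centraliser G Y := by
  ext X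
  constructor
  · rintro ⟨h1, h2⟩
    exact ⟨h1, by rw [mul_neg, neg_mul, neg_inj] at h2; exact h2⟩
  · rintro ⟨h1, h2⟩
    exact ⟨h1, by rw [mul_neg, neg_mul, h2]⟩

/-- The relation of being maximal is symmetric. -/
lemma IsMaxP.symm {Y Z : Matrix ι ι ℝ} (h : IsMaxP G Y Z) : IsMaxP G Z Y := by
  intro k hk
  have h1 := h k⁻¹ ((K₀ G).inv_mem hk)
  rw [K_inv_val (K₀_le G hk), transpose_transpose] at h1
  have e : (k.valᵀ * Y * k.val * Z).trace = (k.val * Z * k.valᵀ * Y).trace := by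
    rw [trace_mul_comm, ← mul_assoc, ← mul_assoc, trace_mul_comm, ← mul_assoc, ← mul_assoc]
  rw [e, trace_mul_comm Y Z]
  exact h1

/-- The centraliser of the sum of two elements of a common chamber. -/
lemma centraliser_add_le {Y Z : Matrix ι ι ℝ} (hY : Y ∈ G.𝔭) (hZ : Z ∈ G.𝔭)
    (hc : Z * Y = Y * Z) (hsc : SC G Z Y) : centraliser G (Y + Z) ≤ centraliser G Y := by
  intro U hU
  let p : Submodule ℝ (Matrix ι ι ℝ) := gLie G ⊓ Module.End.eigenspace (adm (Y + Z)) 0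
  have hadd : ∀ x, adm (Y + Z) x = adm Y x + adm Z x := by
    intro x
    simp only [adm_apply, add_mul, mul_add]
    abel
  have comm : ∀ x, adm Z (adm Y x) = adm Y (adm Z x) := by
    intro x
    have e1 : Z * (Y * x) = Y * (Z * x) := by rw [← mul_assoc, hc, mul_assoc]
    have e2 : x * (Y * Z) = x * (Z * Y) := by rw [hc]
    simp only [adm_apply, mul_sub, sub_mul, mul_assoc]
    rw [e1, e2]
    abel
  have hpZ : ∀ x ∈ p, adm Z x ∈ p := by
    rintro x ⟨h1, h2⟩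
    refine ⟨gLie_brk (Submodule.mem_sup_left hZ) h1, ?_⟩
    show adm Z x ∈ Module.End.eigenspace (adm (Y + Z)) 0
    have h3 := Module.End.mem_eigenspace_iff.mp h2
    rw [Module.End.mem_eigenspace_iff, hadd, ← comm, ← map_add, ← hadd, h3, zero_smul, map_zero,
      zero_smul]
  have hpY : ∀ x ∈ p, adm Y x ∈ p := by
    rintro x ⟨h1, h2⟩
    refine ⟨gLie_brk (Submodule.mem_sup_left hY) h1, ?_⟩
    show adm Y x ∈ Module.End.eigenspace (adm (Y + Z)) 0
    have h3 := Module.End.mem_eigenspace_iff.mp h2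
    rw [Module.End.mem_eigenspace_iff, hadd, comm, ← map_add, ← hadd, h3, zero_smul, map_zero,
      zero_smul]
  have key : p ≤ Module.End.eigenspace (adm Y) 0 := by
    refine (le_span_joint (G.symm Z hZ) (G.symm Y hY) hc p hpZ hpY).trans ?_
    rw [Submodule.span_le]
    rintro x ⟨⟨h1, h2⟩, α, β, hα, hβ⟩
    show x ∈ Module.End.eigenspace (adm Y) 0
    rw [Module.End.mem_eigenspace_iff, zero_smul, hβ]
    have h3 := Module.End.mem_eigenspace_iff.mp h2
    rw [hadd, hα, hβ, zero_smul, ← add_smul] at h3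
    rcases smul_eq_zero.mp h3 with h4 | h4
    · rcases eq_or_ne β 0 with h5 | h5
      · rw [h5, zero_smul]
      · rw [hsc x h1 α β hα hβ (by
          have : α = -β := by linarith
          rw [this]
          have : 0 < β ^ 2 := by positivity
          nlinarith), smul_zero]
    · rw [h4, smul_zero]
  have hUp : U ∈ p := by
    refine ⟨Submodule.mem_sup_left hU.1, ?_⟩
    show U ∈ Module.End.eigenspace (adm (Y + Z)) 0
    rw [Module.End.mem_eigenspace_iff, zero_smul, adm_apply, hU.2, sub_self]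
  have h1 := Module.End.mem_eigenspace_iff.mp (key hUp)
  rw [zero_smul, adm_apply] at h1
  exact ⟨hU.1, (sub_eq_zero.mp h1).symm⟩

/-- **The opposition element**: there are a regular `Y₀ ∈ 𝔭` and `k₀ ∈ K₀` with
`Ad(k₀) Y₀ = -Y₀`. -/
theorem exists_opposition (G : LinRed ι) : ∃ Y₀ ∈ G.𝔭, finrank ℝ (centraliser G Y₀) = realRank G ∧
    ∃ k₀ ∈ K₀ G, k₀.valᵀ * Y₀ * k₀.val = -Y₀ := by
  obtain ⟨Y, hY, hreg⟩ := exists_realRank G
  obtain ⟨k, hk, hmax⟩ := exists_isMaxP (G := G) Y (-Y)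
  have hkK := K₀_le G hk
  obtain ⟨Z, hZdef⟩ : ∃ Z, Z = k.valᵀ * (-Y) * k.val := ⟨_, rfl⟩
  rw [← hZdef] at hmax
  have hZ : Z ∈ G.𝔭 := by rw [hZdef]; exact conj_mem_p' hkK (G.𝔭.neg_mem hY)
  have hZreg : finrank ℝ (centraliser G Z) = realRank G := by
    rw [hZdef, finrank_centraliser_conj hkK, centraliser_neg, hreg]
  have hYk : k.valᵀ * Y * k.val = -Z := by
    rw [hZdef]; noncomm_ring
  -- the image of `Z`
  have hW : IsMaxP G Z (k.valᵀ * (-Z) * k.val) := by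
    intro g hg
    have h1 := hmax (k * g * k⁻¹) ((K₀ G).mul_mem ((K₀ G).mul_mem hk hg) ((K₀ G).inv_mem hk))
    have e0 : (k * g * k⁻¹).val = k.val * g.val * k.valᵀ := by
      rw [Units.val_mul, Units.val_mul, K_inv_val hkK]
    rw [e0] at h1
    have e1 : (g.valᵀ * (k.valᵀ * (-Z) * k.val) * g.val * Z).trace
        = ((k.val * g.val * k.valᵀ)ᵀ * Z * (k.val * g.val * k.valᵀ) * Y).trace := by
      have e2 : Z = -(k.valᵀ * Y * k.val) := by rw [hYk, neg_neg]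
      have e3 : g.valᵀ * (k.valᵀ * (-Z) * k.val) * g.val * Z
          = k.valᵀ * (k.val * (g.valᵀ * (k.valᵀ * Z * k.val) * g.val * (k.valᵀ * Y * k.val))
            * k.valᵀ) * k.val := by
        rw [conj_cancel' hkK]
        nth_rewrite 2 [e2]
        noncomm_ring
      rw [e3, trace_conj hkK]
      congr 1
      rw [transpose_mul, transpose_mul, transpose_transpose]
      calc k.val * (g.valᵀ * (k.valᵀ * Z * k.val) * g.val * (k.valᵀ * Y * k.val)) * k.valᵀ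
          = k.val * (g.valᵀ * k.valᵀ) * Z * (k.val * g.val * k.valᵀ) * Y * (k.val * k.valᵀ) := by
            simp only [mul_assoc]
        _ = k.val * (g.valᵀ * k.valᵀ) * Z * (k.val * g.val * k.valᵀ) * Y := by
            rw [K_orth' hkK, mul_one]
    have e4 : (k.valᵀ * (-Z) * k.val * Z).trace = (Z * Y).trace := by
      have e2 : k.valᵀ * (-Z) * k.val * Z = k.valᵀ * (Z * Y) * k.val := by
        have e5 : Z = -(k.valᵀ * Y * k.val) := by rw [hYk, neg_neg]
        rw [← conj_mul hkK]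
        nth_rewrite 2 [e5]
        noncomm_ring
      rw [e2, trace_conj hkK]
    rw [e1, e4]
    exact h1
  -- `-Ad(k) Z` and `Y` are conjugate and maximal for `Z`
  have hconj : (k * k).valᵀ * Y * (k * k).val = k.valᵀ * (-Z) * k.val := by
    rw [Units.val_mul, transpose_mul, ← hYk]
    simp only [mul_assoc]
  have hWY := isMaxP_unique hZ hZreg hY hmax.symm hW ((K₀ G).mul_mem hk hk) hconj
  have hZk : k.valᵀ * Z * k.val = -Y := by
    rw [← hWY]; noncomm_ring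
  have hle := centraliser_add_le hY hZ (hmax.comm hY hZ) (hmax.sc hY hZ)
  have hYZ : Y + Z ∈ G.𝔭 := G.𝔭.add_mem hY hZ
  refine ⟨Y + Z, hYZ, ?_, k, hk, ?_⟩
  · refine le_antisymm ?_ (realRank_le hYZ)
    rw [← hreg]
    exact Submodule.finrank_mono hle
  · rw [mul_add, add_mul, hYk, hZk]
    abel

/-- The opposition preserves maximal points. -/
lemma IsMaxP.opp {Y₀ Z : Matrix ι ι ℝ} {k₀ : GL ι ℝ} (hk₀ : k₀ ∈ K₀ G)
    (hk₀Y : k₀.valᵀ * Y₀ * k₀.val = -Y₀) (h : IsMaxP G Y₀ Z) :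
    IsMaxP G Y₀ (-(k₀.valᵀ * Z * k₀.val)) := by
  have hkK := K₀_le G hk₀
  intro k hk
  have h1 := h (k₀ * k * k₀⁻¹) ((K₀ G).mul_mem ((K₀ G).mul_mem hk₀ hk) ((K₀ G).inv_mem hk₀))
  have e0 : (k₀ * k * k₀⁻¹).val = k₀.val * k.val * k₀.valᵀ := by
    rw [Units.val_mul, Units.val_mul, K_inv_val hkK]
  rw [e0] at h1
  have e1 : (k.valᵀ * -(k₀.valᵀ * Z * k₀.val) * k.val * Y₀).trace
      = ((k₀.val * k.val * k₀.valᵀ)ᵀ * Z * (k₀.val * k.val * k₀.valᵀ) * Y₀).trace := by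
    have e2 : Y₀ = -(k₀.valᵀ * Y₀ * k₀.val) := by rw [hk₀Y, neg_neg]
    have e3 : k.valᵀ * -(k₀.valᵀ * Z * k₀.val) * k.val * Y₀
        = k₀.valᵀ * (k₀.val * (k.valᵀ * (k₀.valᵀ * Z * k₀.val) * k.val
          * (k₀.valᵀ * Y₀ * k₀.val)) * k₀.valᵀ) * k₀.val := by
      rw [conj_cancel' hkK]
      nth_rewrite 1 [e2]
      noncomm_ring
    rw [e3, trace_conj hkK]
    congr 1
    rw [transpose_mul, transpose_mul, transpose_transpose]
    calc k₀.val * (k.valᵀ * (k₀.valᵀ * Z * k₀.val) * k.val * (k₀.valᵀ * Y₀ * k₀.val)) * k₀.valᵀ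
        = k₀.val * (k.valᵀ * k₀.valᵀ) * Z * (k₀.val * k.val * k₀.valᵀ) * Y₀
          * (k₀.val * k₀.valᵀ) := by simp only [mul_assoc]
      _ = k₀.val * (k.valᵀ * k₀.valᵀ) * Z * (k₀.val * k.val * k₀.valᵀ) * Y₀ := by
          rw [K_orth' hkK, mul_one]
  have e4 : (-(k₀.valᵀ * Z * k₀.val) * Y₀).trace = (Z * Y₀).trace := by
    have e2 : -(k₀.valᵀ * Z * k₀.val) * Y₀ = k₀.valᵀ * (Z * Y₀) * k₀.val := by
      rw [← conj_mul hkK, hk₀Y]
      noncomm_ring
    rw [e2, trace_conj hkK]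
  rw [e1, e4]
  exact h1

/-- The Weyl chamber of a regular element which an element of `K₀` maps to its negative. -/
noncomputable def chamber {Y₀ : Matrix ι ι ℝ} (hY₀ : Y₀ ∈ G.𝔭)
    (hreg : finrank ℝ (centraliser G Y₀) = realRank G) {k₀ : GL ι ℝ} (hk₀ : k₀ ∈ K₀ G)
    (hk₀Y : k₀.valᵀ * Y₀ * k₀.val = -Y₀) : WeylChamber G where
  K₀ := K₀ G
  K₀_le := K₀_le G
  isClosed_K₀ := isClosed_K₀ G
  𝔞 := centraliser G Y₀
  𝔞_le := centraliser_le Y₀
  finrank_𝔞 := hreg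
  C := {Z | Z ∈ G.𝔭 ∧ IsMaxP G Y₀ Z}
  C_subset := fun Z hZ => ⟨hZ.1, hZ.2.comm hY₀ hZ.1⟩
  isClosed_C := by
    have h : {Z | Z ∈ G.𝔭 ∧ IsMaxP G Y₀ Z} = (G.𝔭 : Set (Matrix ι ι ℝ)) ∩ ⋂ k ∈ K₀ G,
        {Z | (k.valᵀ * Z * k.val * Y₀).trace ≤ (Z * Y₀).trace} := by
      ext Z
      simp only [IsMaxP, Set.mem_inter_iff, Set.mem_iInter]
      rfl
    rw [h]
    refine (isClosed_p G).inter (isClosed_biInter fun k _ => isClosed_le ?_ ?_)
    · exact LinearMap.continuous_of_finiteDimensional (Matrix.traceLinearMap ι ℝ ℝ ∘ₗ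
        LinearMap.mulRight ℝ Y₀ ∘ₗ conjL k)
    · exact LinearMap.continuous_of_finiteDimensional (Matrix.traceLinearMap ι ℝ ℝ ∘ₗ
        LinearMap.mulRight ℝ Y₀)
  existsUnique := by
    intro X hX
    obtain ⟨k, hk, hmax⟩ := exists_isMaxP (G := G) Y₀ X
    have hkK := K₀_le G hk
    refine ⟨k.valᵀ * X * k.val, ⟨⟨conj_mem_p' hkK hX, hmax⟩, k, hk, rfl⟩, ?_⟩
    rintro _ ⟨⟨hZ, hZmax⟩, k', hk', rfl⟩
    refine isMaxP_unique hY₀ hreg (conj_mem_p' hkK hX) hmax hZmax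
      ((K₀ G).mul_mem ((K₀ G).inv_mem hk) hk') ?_
    rw [Units.val_mul, K_inv_val hkK, transpose_mul, transpose_transpose]
    calc k'.valᵀ * k.val * (k.valᵀ * X * k.val) * (k.valᵀ * k'.val)
        = k'.valᵀ * (k.val * (k.valᵀ * X * k.val) * k.valᵀ) * k'.val := by simp only [mul_assoc]
      _ = k'.valᵀ * X * k'.val := by rw [conj_cancel hkK]
  opp := -(conjL k₀).restrict (fun X hX => by
    have h1 := centraliser_conj (K₀_le G hk₀) hX
    rw [hk₀Y, centraliser_neg] at h1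
    exact h1)
  opp_mem := by
    intro Y hY
    have hkK := K₀_le G hk₀
    have e : (k₀.valᵀ * (-Y.1) * k₀.val) = -(k₀.valᵀ * Y.1 * k₀.val) := by noncomm_ring
    exact ⟨⟨G.𝔭.neg_mem (conj_mem_p' hkK hY.1), hY.2.opp hk₀ hk₀Y⟩, k₀, hk₀, e⟩

end F31343
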