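import Mathlib
import Pool.Agent.Lib_MP_f31343.Weyl3

/-!
# Benoist's theorem for local geometric fibrations
-/

open Matrix NormedSpace Filter Topology Module
open scoped Matrix.Norms.Operator ContDiff

namespace F31343

variable {ι : Type*} [Fintype ι] [DecidableEq ι] {G H : LinRed ι}

lemma exists_gap (S : Set ℝ) (hS : S.Finite) :
    ∃ δ > 0, ∀ a ∈ S, ∀ b ∈ S, a ≠ b → δ ≤ |a - b| := by
  have hT : {t : ℝ | ∃ a ∈ S, ∃ b ∈ S, a ≠ b ∧ t = |a - b|}.Finite := by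
    refine ((hS.prod hS).image fun p : ℝ × ℝ => |p.1 - p.2|).subset ?_
    rintro _ ⟨a, ha, b, hb, -, rfl⟩
    exact ⟨(a, b), ⟨ha, hb⟩, rfl⟩
  rcases Set.eq_empty_or_nonempty {t : ℝ | ∃ a ∈ S, ∃ b ∈ S, a ≠ b ∧ t = |a - b|} with h | h
  · refine ⟨1, one_pos, fun a ha b hb hab => ?_⟩
    exfalso
    have : |a - b| ∈ {t : ℝ | ∃ a ∈ S, ∃ b ∈ S, a ≠ b ∧ t = |a - b|} := ⟨a, ha, b, hb, hab, rfl⟩
    rw [h] at this
    exact this
  · obtain ⟨t, ⟨a, ha, b, hb, hab, rfl⟩, hmin⟩ := Set.exists_min_image _ id hT h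
    refine ⟨|a - b|, abs_pos.mpr (sub_ne_zero.mpr hab), fun a' ha' b' hb' hab' => ?_⟩
    exact hmin _ ⟨a', ha', b', hb', hab', rfl⟩

/-- A symmetric matrix is isolated among the isospectral matrices which commute with it. -/
theorem isolated {v : Matrix ι ι ℝ} (hv : vᵀ = v) : ∃ δ > 0, ∀ (v' g : Matrix ι ι ℝ),
    gᵀ * g = 1 → v' = g * v * gᵀ → v * v' = v' * v → ‖v - v'‖ < δ → v' = v := by
  obtain ⟨O₀, d₀, -, hO₀, hvO₀, -⟩ := exists_joint_diag hv hv rfl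
  have hO₀' : O₀ * O₀ᵀ = 1 := mul_eq_one_comm.mp hO₀
  have heig : ∀ (x : ι → ℝ) (μ : ℝ), x ≠ 0 → v *ᵥ x = μ • x → μ ∈ Set.range d₀ := by
    intro x μ hx h
    have h1 : O₀ᵀ *ᵥ x ≠ 0 := by
      intro h0
      apply hx
      have : O₀ *ᵥ (O₀ᵀ *ᵥ x) = x := by rw [mulVec_mulVec, hO₀', one_mulVec]
      rw [← this, h0, mulVec_zero]
    have h2 : diagonal d₀ *ᵥ (O₀ᵀ *ᵥ x) = μ • (O₀ᵀ *ᵥ x) := by
      have h3 : O₀ᵀ * v = diagonal d₀ * O₀ᵀ := by
        have := congrArg transpose hvO₀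
        rw [transpose_mul, transpose_mul, hv, diagonal_transpose] at this
        exact this
      rw [mulVec_mulVec, ← h3, ← mulVec_mulVec, h, mulVec_smul]
    obtain ⟨i, hi⟩ := Function.ne_iff.mp h1
    have h3 := congrFun h2 i
    rw [mulVec_diagonal, Pi.smul_apply, smul_eq_mul] at h3
    exact ⟨i, mul_right_cancel₀ hi h3⟩
  obtain ⟨δ, hδ, hgap⟩ := exists_gap (Set.range d₀) (Set.finite_range d₀)
  refine ⟨δ, hδ, fun v' g hg hv'g hcomm hnorm => ?_⟩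
  have hgg : g * gᵀ = 1 := mul_eq_one_comm.mp hg
  have hv' : v'ᵀ = v' := by
    rw [hv'g, transpose_mul, transpose_mul, transpose_transpose, hv, mul_assoc]
  obtain ⟨O, d, e, hO, hvO, hvO'⟩ := exists_joint_diag hv hv' hcomm
  have hO' : O * Oᵀ = 1 := mul_eq_one_comm.mp hO
  have hcol : ∀ i, O *ᵥ Pi.single i 1 ≠ 0 := by
    intro i h0
    have h1 : Oᵀ *ᵥ (O *ᵥ Pi.single i (1 : ℝ)) = Pi.single i 1 := by
      rw [mulVec_mulVec, hO, one_mulVec]
    rw [h0, mulVec_zero] at h1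
    have := congrFun h1 i
    simp at this
  have hd : ∀ i, v *ᵥ (O *ᵥ Pi.single i (1 : ℝ)) = d i • (O *ᵥ Pi.single i (1 : ℝ)) := by
    intro i
    rw [mulVec_mulVec, hvO, ← mulVec_mulVec, ← mulVec_smul]
    congr 1
    ext j
    rw [mulVec_diagonal, Pi.smul_apply, smul_eq_mul]
    by_cases h : j = i
    · rw [h]
    · simp [h]
  have he : ∀ i, v' *ᵥ (O *ᵥ Pi.single i (1 : ℝ)) = e i • (O *ᵥ Pi.single i (1 : ℝ)) := by
    intro i
    rw [mulVec_mulVec, hvO', ← mulVec_mulVec, ← mulVec_smul]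
    congr 1
    ext j
    rw [mulVec_diagonal, Pi.smul_apply, smul_eq_mul]
    by_cases h : j = i
    · rw [h]
    · simp [h]
  have hde : d = e := by
    funext i
    by_contra hne
    have h1 : d i ∈ Set.range d₀ := heig _ _ (hcol i) (hd i)
    have h2 : e i ∈ Set.range d₀ := by
      refine heig (gᵀ *ᵥ (O *ᵥ Pi.single i (1 : ℝ))) _ ?_ ?_
      · intro h0
        apply hcol i
        have : g *ᵥ (gᵀ *ᵥ (O *ᵥ Pi.single i (1 : ℝ))) = O *ᵥ Pi.single i (1 : ℝ) := by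
          rw [mulVec_mulVec, hgg, one_mulVec]
        rw [← this, h0, mulVec_zero]
      · have h3 := congrArg (gᵀ *ᵥ ·) (he i)
        rw [hv'g, mulVec_smul, mulVec_mulVec] at h3
        rw [← h3, mulVec_mulVec]
        congr 1
        rw [← mul_assoc, ← mul_assoc, hg, one_mul]
    have h3 := hgap _ h1 _ h2 hne
    have h4 : (v - v') *ᵥ (O *ᵥ Pi.single i (1 : ℝ))
        = (d i - e i) • (O *ᵥ Pi.single i (1 : ℝ)) := by
      rw [sub_mulVec, hd, he, sub_smul]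
    have h5 := Matrix.linfty_opNorm_mulVec (v - v') (O *ᵥ Pi.single i (1 : ℝ))
    rw [h4, norm_smul, Real.norm_eq_abs] at h5
    have h6 : 0 < ‖O *ᵥ Pi.single i (1 : ℝ)‖ := norm_pos_iff.mpr (hcol i)
    have h7 := le_of_mul_le_mul_right h5 h6
    linarith
  have h1 : v' * O = v * O := by rw [hvO', hvO, hde]
  calc v' = v' * O * Oᵀ := by rw [mul_assoc, hO', mul_one]
    _ = v := by rw [h1, mul_assoc, hO', mul_one]

end F31343
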