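import Mathlib
import Pool.Agent.Lib_MP_f31343.Weyl4

/-!
# Benoist's theorem for local geometric fibrations
-/

open Matrix NormedSpace Filter Topology Module
open scoped Matrix.Norms.Operator ContDiff

namespace F31343

variable {ι : Type*} [Fintype ι] [DecidableEq ι] {G H : LinRed ι}

/-- `Ad(k) A` for a subspace `A`. -/
def mv (k : GL ι ℝ) (A : Submodule ℝ (Matrix ι ι ℝ)) : Submodule ℝ (Matrix ι ι ℝ) :=
  A.map (conjL k⁻¹)

lemma mem_mv {k : GL ι ℝ} (hk : k ∈ G.K) {A : Submodule ℝ (Matrix ι ι ℝ)} {X : Matrix ι ι ℝ} :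
    X ∈ mv k A ↔ k.valᵀ * X * k.val ∈ A := by
  constructor
  · rintro ⟨U, hU, rfl⟩
    rw [conjL_apply, K_inv_val hk, transpose_transpose, conj_cancel' hk]
    exact hU
  · intro h
    refine ⟨_, h, ?_⟩
    rw [conjL_apply, K_inv_val hk, transpose_transpose, conj_cancel hk]

lemma finrank_mv {k : GL ι ℝ} (hk : k ∈ G.K) (A : Submodule ℝ (Matrix ι ι ℝ)) :
    finrank ℝ (mv k A) = finrank ℝ A := by
  have hinj : Function.Injective (conjL k⁻¹ : Matrix ι ι ℝ →ₗ[ℝ] Matrix ι ι ℝ) := by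
    intro X Y h
    rw [conjL_apply, conjL_apply, K_inv_val hk, transpose_transpose] at h
    have h1 := conj_cancel' hk X
    rw [h, conj_cancel' hk] at h1
    exact h1.symm
  exact (Submodule.equivMapOfInjective _ hinj A).finrank_eq.symm

variable (hHG : H.grp ≤ G.grp) {X₀ Y₀ : Matrix ι ι ℝ} (hX₀ : X₀ ∈ H.𝔭)
  (hX₀r : finrank ℝ (centraliser H X₀) = realRank H) (hY₀ : Y₀ ∈ G.𝔭)
  (hreg : finrank ℝ (centraliser G Y₀) = realRank G)

include hHG hX₀ hX₀r in
/-- If `X` is regular and `X ∈ Ad(k) 𝔞_H` then `Ad(k) 𝔞_H` is contained in the centraliser of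
`X`. -/
lemma mv_le {X : Matrix ι ι ℝ} {k : GL ι ℝ} (hk : k ∈ G.K)
    (hX : k.valᵀ * X * k.val ∈ centraliser H X₀) : mv k (centraliser H X₀) ≤ centraliser G X := by
  intro U hU
  rw [mem_mv hk] at hU
  have h1 := comm_of_regular hX₀ hX₀r hX hU
  have h2 := conj_mem_p2 hk (p_mono hHG hU.1)
  rw [← mul_assoc, conj_cancel hk] at h2
  refine ⟨h2, ?_⟩
  rw [conj_mul hk, conj_mul hk] at h1
  rw [← conj_cancel hk (U * X), h1, conj_cancel hk]

include hY₀ hreg in
/-- Two conjugates of `𝔞_H` in `𝔞` are equal if the conjugating elements are close. -/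
lemma mv_eventually (A : Submodule ℝ (Matrix ι ι ℝ)) (hA : ∀ U ∈ A, Uᵀ = U) {k : GL ι ℝ}
    (hk : k ∈ G.K) (hkA : mv k A ≤ centraliser G Y₀) : ∀ᶠ k' in 𝓝 k, k' ∈ G.K →
      mv k' A ≤ centraliser G Y₀ → mv k' A = mv k A := by
  -- it is enough to treat the elements of a finite spanning set
  obtain ⟨s, hs⟩ := (Submodule.fg_iff_finiteDimensional A).mpr inferInstance
  have key : ∀ u ∈ s, ∀ᶠ k' in 𝓝 k, k' ∈ G.K → mv k' A ≤ centraliser G Y₀ →
      k'.val * u * k'.valᵀ = k.val * u * k.valᵀ := by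
    intro u hu
    have huA : u ∈ A := by rw [← hs]; exact Submodule.subset_span hu
    have hus := hA u huA
    have hv : (k.val * u * k.valᵀ)ᵀ = k.val * u * k.valᵀ := by
      rw [transpose_mul, transpose_mul, transpose_transpose, hus, mul_assoc]
    obtain ⟨δ, hδ, hiso⟩ := isolated hv
    have hc : Continuous fun k' : GL ι ℝ => k'.val * u * k'.valᵀ := by
      have h1 : Continuous (fun k : GL ι ℝ => k.val) := isOpenEmbedding_val.continuous
      exact (h1.matrix_mul continuous_const).matrix_mul h1.matrix_transpose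
    have h1 : ∀ᶠ k' in 𝓝 k, ‖k.val * u * k.valᵀ - k'.val * u * k'.valᵀ‖ < δ := by
      have h2 := (continuous_const.sub hc).norm.tendsto (x := k)
        (f := fun k' : GL ι ℝ => ‖k.val * u * k.valᵀ - k'.val * u * k'.valᵀ‖)
      simp only [sub_self, norm_zero] at h2
      exact h2.eventually (eventually_lt_nhds hδ)
    filter_upwards [h1] with k' hk'δ hk' hk'A
    have m1 : k.val * u * k.valᵀ ∈ centraliser G Y₀ := hkA (by
      rw [mem_mv hk, conj_cancel' hk]; exact huA)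
    have m2 : k'.val * u * k'.valᵀ ∈ centraliser G Y₀ := hk'A (by
      rw [mem_mv hk', conj_cancel' hk']; exact huA)
    refine hiso _ (k'.val * k.valᵀ) ?_ ?_ (comm_of_regular hY₀ hreg m2 m1) hk'δ
    · rw [transpose_mul, transpose_transpose]
      calc k.val * k'.valᵀ * (k'.val * k.valᵀ) = k.val * (k'.valᵀ * k'.val) * k.valᵀ := by
            simp only [mul_assoc]
        _ = 1 := by rw [K_orth hk', mul_one, K_orth' hk]
    · rw [transpose_mul, transpose_transpose]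
      calc k'.val * u * k'.valᵀ = k'.val * (k.valᵀ * k.val) * u * (k.valᵀ * k.val) * k'.valᵀ := by
            rw [K_orth hk, mul_one, mul_one]
        _ = _ := by simp only [mul_assoc]
  have key' : ∀ᶠ k' in 𝓝 k, ∀ u ∈ s, k' ∈ G.K → mv k' A ≤ centraliser G Y₀ →
      k'.val * u * k'.valᵀ = k.val * u * k.valᵀ := by
    rw [Filter.eventually_all_finset]
    exact key
  filter_upwards [key'] with k' h hk' hk'A
  unfold mv
  rw [← hs, Submodule.map_span, Submodule.map_span]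
  congr 1
  refine Set.image_congr fun u hu => ?_
  rw [conjL_apply, conjL_apply, K_inv_val hk, K_inv_val hk', transpose_transpose,
    transpose_transpose]
  exact h u hu hk' hk'A

/-- Regularity of nearby elements of `𝔞`. -/
lemma regular_near {X : Matrix ι ι ℝ} (hY₀ : Y₀ ∈ G.𝔭)
    (hreg : finrank ℝ (centraliser G Y₀) = realRank G) (hX : X ∈ centraliser G Y₀) :
    ∃ ε > 0, ∀ t : ℝ, 0 < t → t ≤ ε → centraliser G (Y₀ + t • X) = centraliser G Y₀ := by
  obtain ⟨ε, hε, h⟩ := exists_small' G Y₀ X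
  refine ⟨ε, hε, fun t ht hte => ?_⟩
  have h1 := finrank_le_of_inf (centraliser_le _) (centraliser_le _) (h t ht hte)
  symm
  refine Submodule.eq_of_le_of_finrank_le ?_ h1
  intro U hU
  have h2 := comm_of_regular hY₀ hreg hX hU
  have h3 : U * Y₀ = Y₀ * U := hU.2
  exact ⟨hU.1, by rw [mul_add, add_mul, mul_smul_comm, smul_mul_assoc, h2, h3]⟩

include hHG hX₀ hX₀r hY₀ hreg in
/-- The subspace `B` of `𝔞` is covered by the conjugates of `𝔞_H` in `𝔞`. -/
lemma exists_mv (B : Submodule ℝ (Matrix ι ι ℝ)) (hB : B ≤ centraliser G Y₀) (hYB : Y₀ ∈ B)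
    (hcov : ∀ X ∈ B, ∃ k ∈ G.K, k.valᵀ * X * k.val ∈ centraliser H X₀) {X : Matrix ι ι ℝ}
    (hX : X ∈ B) : ∃ k ∈ G.K, k.valᵀ * Y₀ * k.val ∈ centraliser H X₀ ∧
      X ∈ mv k (centraliser H X₀) := by
  obtain ⟨ε, hε, hnear⟩ := regular_near hY₀ hreg (hB hX)
  let t : ℕ → ℝ := fun n => ε / ((n : ℝ) + 1)
  have ht0 : ∀ n, 0 < t n := fun n => by simp only [t]; positivity
  have hte : ∀ n, t n ≤ ε := fun n => by
    simp only [t]
    rw [div_le_iff₀ (by positivity)]
    have : (0 : ℝ) ≤ n := by positivity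
    nlinarith
  have hlim0 : Tendsto t atTop (𝓝 0) := by
    have h1 := tendsto_one_div_add_atTop_nhds_zero_nat (𝕜 := ℝ)
    have h2 := h1.const_mul ε
    rw [mul_zero] at h2
    refine h2.congr fun n => ?_
    simp only [t]
    ring
  have hXn : ∀ n, Y₀ + t n • X ∈ B := fun n => B.add_mem hYB (B.smul_mem _ hX)
  choose k hk hkX using fun n => hcov _ (hXn n)
  have : FirstCountableTopology (Matrix ι ι ℝ) :=
    inferInstanceAs (FirstCountableTopology (ι → ι → ℝ))
  have : FirstCountableTopology (GL ι ℝ) :=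
    (isOpenEmbedding_val (ι := ι)).isInducing.firstCountableTopology
  obtain ⟨k₁, hk₁, φ, hφ, hlim⟩ := (isCompact_K G).tendsto_subseq hk
  have h1 : Tendsto (fun n => (k (φ n)).val) atTop (𝓝 k₁.val) :=
    (isOpenEmbedding_val.continuous.tendsto k₁).comp hlim
  have h2 : Tendsto (fun n => (k (φ n)).valᵀ) atTop (𝓝 k₁.valᵀ) :=
    ((continuous_id.matrix_transpose).tendsto k₁.val).comp h1
  have h3 : Tendsto (fun n => Y₀ + t (φ n) • X) atTop (𝓝 Y₀) := by
    have h4 := (hlim0.comp hφ.tendsto_atTop).smul_const X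
    rw [zero_smul] at h4
    have h5 := h4.const_add Y₀
    rw [add_zero] at h5
    exact h5
  have h4 : Tendsto (fun n => (k (φ n)).valᵀ * (Y₀ + t (φ n) • X) * (k (φ n)).val) atTop
      (𝓝 (k₁.valᵀ * Y₀ * k₁.val)) := (h2.mul h3).mul h1
  have hA : k₁.valᵀ * Y₀ * k₁.val ∈ centraliser H X₀ :=
    (centraliser H X₀).closed_of_finiteDimensional.mem_of_tendsto h4
      (Eventually.of_forall fun n => hkX (φ n))
  refine ⟨k₁, hk₁, hA, ?_⟩
  have hle := mv_le hHG hX₀ hX₀r hk₁ hA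
  have hev := hlim.eventually (mv_eventually hY₀ hreg (centraliser H X₀)
    (fun U hU => H.symm U hU.1) hk₁ hle)
  obtain ⟨n, hn⟩ := hev.exists
  have hle' : mv (k (φ n)) (centraliser H X₀) ≤ centraliser G Y₀ := by
    rw [← hnear (t (φ n)) (ht0 _) (hte _)]
    exact mv_le hHG hX₀ hX₀r (hk _) (hkX _)
  have heq : mv (k (φ n)) (centraliser H X₀) = mv k₁ (centraliser H X₀) := hn (hk _) hle'
  have m1 : Y₀ + t (φ n) • X ∈ mv k₁ (centraliser H X₀) := by
    rw [← heq, mem_mv (hk _)]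
    exact hkX _
  have m2 : Y₀ ∈ mv k₁ (centraliser H X₀) := by
    rw [mem_mv hk₁]; exact hA
  have m3 := (mv k₁ (centraliser H X₀)).sub_mem m1 m2
  rw [add_sub_cancel_left] at m3
  exact ((mv k₁ (centraliser H X₀)).smul_mem_iff (ht0 _).ne').mp m3

include hHG hX₀ hX₀r hY₀ hreg in
/-- One conjugate of `𝔞_H` contains the whole subspace. -/
theorem exists_mv_le (B : Submodule ℝ (Matrix ι ι ℝ)) (hB : B ≤ centraliser G Y₀) (hYB : Y₀ ∈ B)
    (hcov : ∀ X ∈ B, ∃ k ∈ G.K, k.valᵀ * X * k.val ∈ centraliser H X₀) :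
    ∃ k ∈ G.K, k.valᵀ * Y₀ * k.val ∈ centraliser H X₀ ∧ B ≤ mv k (centraliser H X₀) := by
  let 𝒦 : Set (GL ι ℝ) := {k | k ∈ G.K ∧ k.valᵀ * Y₀ * k.val ∈ centraliser H X₀}
  have hc : Continuous fun k : GL ι ℝ => k.valᵀ * Y₀ * k.val := by
    have h1 : Continuous (fun k : GL ι ℝ => k.val) := isOpenEmbedding_val.continuous
    exact (h1.matrix_transpose.matrix_mul continuous_const).matrix_mul h1
  have h𝒦 : IsCompact 𝒦 := (isCompact_K G).inter_right
    ((centraliser H X₀).closed_of_finiteDimensional.preimage hc)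
  have hle : ∀ k ∈ 𝒦, mv k (centraliser H X₀) ≤ centraliser G Y₀ := fun k hk =>
    mv_le hHG hX₀ hX₀r hk.1 hk.2
  obtain ⟨s, hs, hcover⟩ := h𝒦.elim_nhds_subcover
    (fun k => {k' | k' ∈ G.K → mv k' (centraliser H X₀) ≤ centraliser G Y₀ →
      mv k' (centraliser H X₀) = mv k (centraliser H X₀)})
    (fun k hk => mv_eventually hY₀ hreg (centraliser H X₀) (fun U hU => H.symm U hU.1) hk.1
      (hle k hk))
  let p : s → Submodule ℝ B := fun k => (mv k.1 (centraliser H X₀)).comap B.subtype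
  have hp : ⋃ i, (p i : Set B) = Set.univ := by
    rw [Set.eq_univ_iff_forall]
    intro X
    obtain ⟨k', hk', hk'Y, hXk'⟩ := exists_mv hHG hX₀ hX₀r hY₀ hreg B hB hYB hcov X.2
    have h1 := hcover (show k' ∈ 𝒦 from ⟨hk', hk'Y⟩)
    rw [Set.mem_iUnion₂] at h1
    rw [Set.mem_iUnion]
    obtain ⟨k, hk, h2⟩ := h1
    refine ⟨⟨k, hk⟩, ?_⟩
    show X.1 ∈ mv k (centraliser H X₀)
    rw [← h2 hk' (hle k' ⟨hk', hk'Y⟩)]
    exact hXk'
  obtain ⟨k, hk⟩ := Subspace.exists_eq_top_of_iUnion_eq_univ hp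
  refine ⟨k.1, (hs k.1 k.2).1, (hs k.1 k.2).2, fun X hX => ?_⟩
  have h1 : (⟨X, hX⟩ : B) ∈ p k := by rw [hk]; exact Submodule.mem_top
  exact h1

end F31343
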