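import Mathlib
import Pool.Agent.Lib_MP_f31343.Weyl5

/-!
# Benoist's theorem for local geometric fibrations
-/

open Matrix NormedSpace Filter Topology Module
open scoped Matrix.Norms.Operator ContDiff

namespace F31343

variable {ι : Type*} [Fintype ι] [DecidableEq ι] {G H : LinRed ι}

/-- **Benoist's theorem for local geometric fibrations.** Let `𝔭_G` not be the sum of `𝔭_H` and the
noncompact centre of `G` (for `G` semisimple this means `𝔭_H ≠ 𝔭_G`). If every `X ∈ 𝔭_G` which is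
`K₀`-conjugate to `-X` is `K`-conjugate to an element of `𝔭_H` then `G/H` has no local geometric
fibration. -/
theorem noFib_benoist_full (hHG : H.grp ≤ G.grp)
    (hne : ∃ X ∈ G.𝔭, ∀ Z ∈ noncompactCentre G, X - Z ∉ H.𝔭) (hb : ∀ X ∈ G.𝔭, (∃ k ∈ K₀ G, k.valᵀ * X * k.val = -X) →
      ∃ k ∈ G.K, k.valᵀ * X * k.val ∈ H.𝔭) : IsEmpty (LocalGeometricFibration G H) := by
  obtain ⟨Y₀, hY₀, hreg, k₀, hk₀, hk₀Y⟩ := exists_opposition G
  obtain ⟨X₀, hX₀, hX₀r⟩ := exists_realRank H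
  have hk₀K := K₀_le G hk₀
  -- the fixed points of the opposition involution
  let B : Submodule ℝ (Matrix ι ι ℝ) :=
    { carrier := {X | X ∈ centraliser G Y₀ ∧ k₀.valᵀ * X * k₀.val = -X}
      add_mem' := by
        rintro X X' ⟨h1, h2⟩ ⟨h1', h2'⟩
        exact ⟨(centraliser G Y₀).add_mem h1 h1', by rw [mul_add, add_mul, h2, h2', neg_add]⟩
      zero_mem' := ⟨(centraliser G Y₀).zero_mem, by rw [mul_zero, zero_mul, neg_zero]⟩
      smul_mem' := by
        rintro c X ⟨h1, h2⟩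
        exact ⟨(centraliser G Y₀).smul_mem c h1, by
          rw [mul_smul_comm, smul_mul_assoc, h2, smul_neg]⟩ }
  have hBle : B ≤ centraliser G Y₀ := fun X hX => hX.1
  have hYB : Y₀ ∈ B := ⟨⟨hY₀, rfl⟩, hk₀Y⟩
  have hcov : ∀ X ∈ B, ∃ k ∈ G.K, k.valᵀ * X * k.val ∈ centraliser H X₀ := by
    intro X hX
    obtain ⟨k, hk, hkX⟩ := hb X hX.1.1 ⟨k₀, hk₀, hX.2⟩
    obtain ⟨k', hk', hk'X⟩ := exists_conj_centraliser hkX hX₀
    refine ⟨k * k', G.K.mul_mem hk (K_mono hHG hk'), ?_⟩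
    rw [Units.val_mul, transpose_mul]
    have e : k'.valᵀ * k.valᵀ * X * (k.val * k'.val) = k'.valᵀ * (k.valᵀ * X * k.val) * k'.val := by
      simp only [mul_assoc]
    rw [e]
    exact hk'X
  obtain ⟨k, hk, hkY, hBk⟩ := exists_mv_le hHG hX₀ hX₀r hY₀ hreg B hBle hYB hcov
  refine noFib_chamber hHG (chamber hY₀ hreg hk₀ hk₀Y) (mv k (centraliser H X₀))
    (mv_le hHG hX₀ hX₀r hk hkY) ?_ ?_ ?_
  · intro Y hY
    exact ⟨k, hk, ((mem_mv hk).mp hY).1⟩
  · intro Y hY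
    refine hBk ⟨Y.2, ?_⟩
    have h1 : -(k₀.valᵀ * Y.1 * k₀.val) = Y.1 := congrArg Subtype.val hY
    rw [← neg_eq_iff_eq_neg]
    exact h1
  · rw [finrank_mv hk, hX₀r]
    show finrank ℝ (centraliser G Y₀) < _
    rw [hreg]
    exact realRank_lt' hHG hne

end F31343
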