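import Mathlib

/-!
# The family of projections attached to a moving complement

`E` is a finite-dimensional real space, `ρ` a representation of a group `K` on `E`, and `Q`, `W`
are subspaces with `E = Q ⊕ ρ(k) W` for every `k`.  `Pk k` is the projection onto `Q` along
`ρ(k) W`; it depends continuously on `k` and satisfies a Riccati equation along one-parameter
subgroups.
-/

open Filter Topology

namespace F31343

variable {E : Type*} [NormedAddCommGroup E] [NormedSpace ℝ E] [FiniteDimensional ℝ E]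
variable {K : Type*} [Group K]
variable (ρ : K →* (E →L[ℝ] E)) (Q W : Submodule ℝ E)
  (h : ∀ k, IsCompl Q (W.map (ρ k : E →ₗ[ℝ] E)))

/-- The projection onto `Q` along `ρ(k) W`. -/
noncomputable def Pk (k : K) : E →L[ℝ] E :=
  LinearMap.toContinuousLinearMap (Q.projection _ (h k))

lemma Pk_mem (k : K) (x : E) : Pk ρ Q W h k x ∈ Q := by
  simp [Pk, Submodule.projection_apply_mem]

lemma Pk_of_mem (k : K) {x : E} (hx : x ∈ Q) : Pk ρ Q W h k x = x := by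
  simpa [Pk] using Submodule.projection_apply_of_mem_left (h k) hx

lemma Pk_of_mem_map (k : K) {x : E} (hx : x ∈ W.map (ρ k : E →ₗ[ℝ] E)) :
    Pk ρ Q W h k x = 0 := by
  simpa [Pk] using Submodule.projection_apply_of_mem_right (h k) hx

lemma Pk_sub_mem (k : K) (x : E) : x - Pk ρ Q W h k x ∈ W.map (ρ k : E →ₗ[ℝ] E) := by
  simpa [Pk] using Submodule.sub_projection_mem (h k) x

lemma Pk_mul_Pk (k k' : K) : Pk ρ Q W h k * Pk ρ Q W h k' = Pk ρ Q W h k' := by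
  ext x
  exact Pk_of_mem ρ Q W h k (Pk_mem ρ Q W h k' x)

/-- The comparison operator. -/
noncomputable def Bk (k k' : K) : E →L[ℝ] E :=
  Pk ρ Q W h k + ρ k' * (1 - Pk ρ Q W h k)

lemma Pk_mul_Bk (k k' : K) :
    Pk ρ Q W h (k' * k) * Bk ρ Q W h k k' = Pk ρ Q W h k := by
  ext x
  have h1 : Pk ρ Q W h (k' * k) (Pk ρ Q W h k x) = Pk ρ Q W h k x :=
    Pk_of_mem ρ Q W h _ (Pk_mem ρ Q W h k x)
  have h2 : Pk ρ Q W h (k' * k) (ρ k' (x - Pk ρ Q W h k x)) = 0 := by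
    apply Pk_of_mem_map
    obtain ⟨w, hw, hwx⟩ := Pk_sub_mem ρ Q W h k x
    refine ⟨w, hw, ?_⟩
    simp only [map_mul]
    rw [← hwx]
    rfl
  have h3 : (Pk ρ Q W h (k' * k) * Bk ρ Q W h k k') x
      = Pk ρ Q W h (k' * k) (Pk ρ Q W h k x)
        + Pk ρ Q W h (k' * k) (ρ k' (x - Pk ρ Q W h k x)) := by
    simp [Bk]
  rw [h3, h1, h2, add_zero]

lemma Pk_eq_of_isUnit (k k' : K) (hu : IsUnit (Bk ρ Q W h k k')) :
    Pk ρ Q W h (k' * k) = Pk ρ Q W h k * Ring.inverse (Bk ρ Q W h k k') := by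
  rw [← Pk_mul_Bk ρ Q W h k k', mul_assoc, Ring.mul_inverse_cancel _ hu, mul_one]

lemma Bk_one (k : K) : Bk ρ Q W h k 1 = 1 := by
  simp [Bk]

variable [TopologicalSpace K] [IsTopologicalGroup K]

lemma continuous_Pk (hρ : Continuous ρ) : Continuous (Pk ρ Q W h) := by
  have _ : CompleteSpace E := FiniteDimensional.complete ℝ E
  rw [continuous_iff_continuousAt]
  intro k₀
  have hB : Continuous (fun k : K => Bk ρ Q W h k₀ (k * k₀⁻¹)) := by
    unfold Bk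
    have : Continuous (fun k : K => ρ (k * k₀⁻¹)) := hρ.comp (continuous_mul_const _)
    fun_prop
  have hB0 : Bk ρ Q W h k₀ (k₀ * k₀⁻¹) = 1 := by rw [mul_inv_cancel, Bk_one]
  have hev : ∀ᶠ k in 𝓝 k₀, IsUnit (Bk ρ Q W h k₀ (k * k₀⁻¹)) := by
    have hopen : IsOpen {x : E →L[ℝ] E | IsUnit x} := Units.isOpen
    have hmem : Bk ρ Q W h k₀ (k₀ * k₀⁻¹) ∈ {x : E →L[ℝ] E | IsUnit x} := by
      rw [hB0]; exact isUnit_one
    exact hB.continuousAt.eventually (hopen.mem_nhds hmem)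
  have hc : ContinuousAt
      (fun k : K => Pk ρ Q W h k₀ * Ring.inverse (Bk ρ Q W h k₀ (k * k₀⁻¹))) k₀ := by
    refine continuousAt_const.mul ?_
    have h1 : ContinuousAt Ring.inverse (Bk ρ Q W h k₀ (k₀ * k₀⁻¹)) := by
      rw [hB0]
      exact NormedRing.inverse_continuousAt (1 : (E →L[ℝ] E)ˣ)
    exact ContinuousAt.comp (f := fun k : K => Bk ρ Q W h k₀ (k * k₀⁻¹)) h1 hB.continuousAt
  refine hc.congr ?_
  filter_upwards [hev] with k hk
  rw [← Pk_eq_of_isUnit ρ Q W h k₀ (k * k₀⁻¹) hk, inv_mul_cancel_right]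

/-- The Riccati equation at time zero. -/
lemma hasDerivAt_Pk_zero (κ : ℝ → K) (f : E →L[ℝ] E)
    (hκρ : ∀ t, ρ (κ t) = NormedSpace.exp (t • f)) (k : K) :
    HasDerivAt (fun t => Pk ρ Q W h (κ t * k))
      (-(Pk ρ Q W h k * f * (1 - Pk ρ Q W h k))) 0 := by
  have _ : CompleteSpace E := FiniteDimensional.complete ℝ E
  have hB : HasDerivAt (fun t => Bk ρ Q W h k (κ t)) (f * (1 - Pk ρ Q W h k)) 0 := by
    have h1 : HasDerivAt (fun t : ℝ => NormedSpace.exp (t • f)) (NormedSpace.exp ((0:ℝ) • f) * f)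
        (0 : ℝ) := hasDerivAt_exp_smul_const f (0 : ℝ)
    rw [zero_smul, NormedSpace.exp_zero, one_mul] at h1
    have h2 := (h1.mul_const (1 - Pk ρ Q W h k)).const_add (Pk ρ Q W h k)
    refine h2.congr_of_eventuallyEq (Eventually.of_forall fun t => ?_)
    simp only [Bk, hκρ]
  have hB0 : Bk ρ Q W h k (κ 0) = 1 := by
    simp [Bk, hκρ]
  have hev : ∀ᶠ t in 𝓝 (0 : ℝ), IsUnit (Bk ρ Q W h k (κ t)) := by
    have hopen : IsOpen {x : E →L[ℝ] E | IsUnit x} := Units.isOpen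
    have hmem : Bk ρ Q W h k (κ 0) ∈ {x : E →L[ℝ] E | IsUnit x} := by
      rw [hB0]; exact isUnit_one
    exact hB.continuousAt.eventually (hopen.mem_nhds hmem)
  have hinv : HasFDerivAt (Ring.inverse : (E →L[ℝ] E) → (E →L[ℝ] E))
      (-ContinuousLinearMap.mulLeftRight ℝ (E →L[ℝ] E) ↑((1 : (E →L[ℝ] E)ˣ)⁻¹)
        ↑((1 : (E →L[ℝ] E)ˣ)⁻¹)) (Bk ρ Q W h k (κ 0)) := by
    rw [hB0]
    exact hasFDerivAt_ringInverse (𝕜 := ℝ) (1 : (E →L[ℝ] E)ˣ)
  have h3 := hinv.comp_hasDerivAt (0 : ℝ) hB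
  have h4 := h3.const_mul (Pk ρ Q W h k)
  have h5 : Pk ρ Q W h k *
      ((-ContinuousLinearMap.mulLeftRight ℝ (E →L[ℝ] E) ↑((1 : (E →L[ℝ] E)ˣ)⁻¹)
        ↑((1 : (E →L[ℝ] E)ˣ)⁻¹)) (f * (1 - Pk ρ Q W h k)))
      = -(Pk ρ Q W h k * f * (1 - Pk ρ Q W h k)) := by
    simp [mul_assoc]
  rw [h5] at h4
  refine h4.congr_of_eventuallyEq ?_
  filter_upwards [hev] with t ht
  rw [Pk_eq_of_isUnit ρ Q W h k (κ t) ht]
  rfl

/-- The Riccati equation along a one-parameter subgroup. -/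
lemma hasDerivAt_Pk (κ : ℝ → K) (f : E →L[ℝ] E) (hκadd : ∀ s t, κ (s + t) = κ s * κ t)
    (hκρ : ∀ t, ρ (κ t) = NormedSpace.exp (t • f)) (k : K) (t : ℝ) :
    HasDerivAt (fun s => Pk ρ Q W h (κ s * k))
      (-(Pk ρ Q W h (κ t * k) * f * (1 - Pk ρ Q W h (κ t * k)))) t := by
  have h0 := hasDerivAt_Pk_zero ρ Q W h κ f hκρ (κ t * k)
  have h1 : HasDerivAt (fun r => Pk ρ Q W h (κ r * (κ t * k)))
      (-(Pk ρ Q W h (κ t * k) * f * (1 - Pk ρ Q W h (κ t * k)))) (t - t) := by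
    rw [sub_self]; exact h0
  have h2 := h1.comp_sub_const t t
  refine h2.congr_of_eventuallyEq (Eventually.of_forall fun s => ?_)
  simp only
  rw [← mul_assoc, ← hκadd, sub_add_cancel]

end F31343
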