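import Mathlib

/-!
# Two trace identities

`closed_identity` is the closedness of the three-form `tr (A ∧ A ∧ A)` for the flat connection
form of a family of projections, written out for four elements of a ring.
-/

namespace F31343

variable {A : Type*} [Ring A]

/-- The (old) derivative of the projection `N` in the direction `w`. -/
def dN (N w : A) : A := N * w * (1 - N)

/-- The derivative of `tr (N x N y N z)` in the direction `w`. -/
def dT (tr : A →+ ℝ) (N w x y z : A) : ℝ :=
  tr (dN N w * x * N * y * N * z) + tr (N * x * dN N w * y * N * z)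
    + tr (N * x * N * y * dN N w * z)

/-- `tr (N x N y N z)`. -/
def T3 (tr : A →+ ℝ) (N x y z : A) : ℝ := tr (N * x * N * y * N * z)

/-- The three-form `tr (N x [N y N, N z N])`. -/
def C3 (tr : A →+ ℝ) (N x y z : A) : ℝ := T3 tr N x y z - T3 tr N x z y

/-- The derivative of `C3` in the direction `w`. -/
def dC (tr : A →+ ℝ) (N w x y z : A) : ℝ := dT tr N w x y z - dT tr N w x z y

/-- The commutator. -/
def br (x y : A) : A := x * y - y * x

private lemma dT_eq (tr : A →+ ℝ) (hc : ∀ a b, tr (a * b) = tr (b * a)) (N w x y z : A) :
    dT tr N w x y z =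
      tr (N * w * x * N * y * N * z) - tr (N * w * N * x * N * y * N * z)
      + tr (N * w * y * N * z * N * x) - tr (N * x * N * w * N * y * N * z)
      + tr (N * w * z * N * x * N * y) - tr (N * x * N * y * N * w * N * z) := by
  have h1 : dN N w * x * N * y * N * z
      = N * w * x * N * y * N * z - N * w * N * x * N * y * N * z := by
    unfold dN; noncomm_ring
  have h2 : N * x * dN N w * y * N * z
      = (N * x) * (N * w * y * N * z) - N * x * N * w * N * y * N * z := by
    unfold dN; noncomm_ring
  have h3 : N * x * N * y * dN N w * z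
      = (N * x * N * y) * (N * w * z) - N * x * N * y * N * w * N * z := by
    unfold dN; noncomm_ring
  have h2' : tr ((N * x) * (N * w * y * N * z)) = tr (N * w * y * N * z * N * x) := by
    rw [hc]; congr 1; noncomm_ring
  have h3' : tr ((N * x * N * y) * (N * w * z)) = tr (N * w * z * N * x * N * y) := by
    rw [hc]; congr 1; noncomm_ring
  unfold dT
  rw [h1, h2, h3, map_sub, map_sub, map_sub, h2', h3']
  ring

private lemma rot (tr : A →+ ℝ) (hc : ∀ a b, tr (a * b) = tr (b * a)) (N w x y z : A) :
    tr (N * w * N * x * N * y * N * z) = tr (N * x * N * y * N * z * N * w) := by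
  have h : N * w * N * x * N * y * N * z = (N * w) * (N * x * N * y * N * z) := by noncomm_ring
  rw [h, hc]; congr 1; noncomm_ring

private lemma C3_br (tr : A →+ ℝ) (N a b y z : A) :
    C3 tr N (br a b) y z =
      tr (N * a * b * N * y * N * z) - tr (N * b * a * N * y * N * z)
      - (tr (N * a * b * N * z * N * y) - tr (N * b * a * N * z * N * y)) := by
  have h : ∀ u v : A, N * br a b * N * u * N * v
      = N * a * b * N * u * N * v - N * b * a * N * u * N * v := by
    intro u v; unfold br; noncomm_ring
  unfold C3 T3
  rw [h, h, map_sub, map_sub]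

/-- Closedness of the three-form `C3`. -/
theorem closed_identity (tr : A →+ ℝ) (hc : ∀ a b, tr (a * b) = tr (b * a)) (N a b c d : A) :
    dC tr N a b c d - dC tr N b a c d + dC tr N c a b d - dC tr N d a b c
      + (- C3 tr N (br a b) c d + C3 tr N (br a c) b d - C3 tr N (br a d) b c
         - C3 tr N (br b c) a d + C3 tr N (br b d) a c - C3 tr N (br c d) a b) = 0 := by
  unfold dC
  simp only [dT_eq tr hc, C3_br]
  linarith [rot tr hc N a b c d, rot tr hc N b c d a, rot tr hc N c d a b, rot tr hc N d a b c,
    rot tr hc N a b d c, rot tr hc N b d c a, rot tr hc N d c a b, rot tr hc N c a b d,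
    rot tr hc N a c b d, rot tr hc N c b d a, rot tr hc N b d a c, rot tr hc N d a c b,
    rot tr hc N a c d b, rot tr hc N c d b a, rot tr hc N d b a c, rot tr hc N b a c d,
    rot tr hc N a d b c, rot tr hc N d b c a, rot tr hc N b c a d, rot tr hc N c a d b,
    rot tr hc N a d c b, rot tr hc N d c b a, rot tr hc N c b a d, rot tr hc N b a d c]

/-- The Maurer–Cartan identity with one element `g` preserving the range of `N`. -/
theorem mc_identity (tr : A →+ ℝ) (N g y z : A)
    (hg : N * g * N = g * N) :
    C3 tr N g y z = tr (g * N * br y z) - (tr (g * dN N y * z) - tr (g * dN N z * y)) := by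
  have h : ∀ u v : A, N * g * N * u * N * v = g * N * u * N * v := by
    intro u v; rw [hg]
  have h1 : ∀ u v : A, g * dN N u * v = g * N * u * v - g * N * u * N * v := by
    intro u v; unfold dN; noncomm_ring
  have h2 : g * N * br y z = g * N * y * z - g * N * z * y := by unfold br; noncomm_ring
  unfold C3 T3
  rw [h, h, h1, h1, h2, map_sub, map_sub, map_sub]
  ring

end F31343
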