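import Mathlib
import Pool.Agent.Lib_MP_f31343.Average
import Pool.Agent.Lib_MP_f31343.TraceId
import Pool.Agent.Lib_MP_f31343.Proj

/-!
# The Bianchi identity for a moving complement

`K` is a compact group acting on the finite-dimensional real space `E`, and `E = Q ⊕ ρ(k) W` for
every `k ∈ K`.  For four infinitesimal generators `a, b, c, d` of one-parameter subgroups of `K`
all of whose commutators preserve `Q`, the trace form `τ(g, g') = tr (g g' | Q)` satisfies
`τ([a,b],[c,d]) - τ([a,c],[b,d]) + τ([a,d],[b,c]) = 0`.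
-/

open Filter Topology MeasureTheory

namespace F31343

variable {E : Type*} [NormedAddCommGroup E] [NormedSpace ℝ E] [FiniteDimensional ℝ E]

/-- The trace of a continuous endomorphism, as a linear functional. -/
noncomputable def trL (E : Type*) [NormedAddCommGroup E] [NormedSpace ℝ E] :
    (E →L[ℝ] E) →ₗ[ℝ] ℝ :=
  (LinearMap.trace ℝ E).comp (ContinuousLinearMap.coeLM ℝ)

omit [FiniteDimensional ℝ E] in
lemma trL_apply (a : E →L[ℝ] E) : trL E a = LinearMap.trace ℝ E (a : E →ₗ[ℝ] E) := rfl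

lemma trL_comm (a b : E →L[ℝ] E) : trL E (a * b) = trL E (b * a) := by
  rw [trL_apply, trL_apply]
  exact LinearMap.trace_mul_comm ℝ (a : E →ₗ[ℝ] E) (b : E →ₗ[ℝ] E)

/-- The trace as a continuous linear functional. -/
noncomputable def trC (E : Type*) [NormedAddCommGroup E] [NormedSpace ℝ E]
    [FiniteDimensional ℝ E] : (E →L[ℝ] E) →L[ℝ] ℝ :=
  LinearMap.toContinuousLinearMap (trL E)

/-- The trace as an additive map. -/
noncomputable def trA (E : Type*) [NormedAddCommGroup E] [NormedSpace ℝ E] :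
    (E →L[ℝ] E) →+ ℝ := (trL E).toAddMonoidHom

lemma trA_apply (a : E →L[ℝ] E) : trA E a = trC E a := rfl

lemma trA_comm (a b : E →L[ℝ] E) : trA E (a * b) = trA E (b * a) := trL_comm a b

lemma continuous_trA : Continuous (trA E) := (trC E).continuous

variable {N : ℝ → (E →L[ℝ] E)} {t : ℝ} {w : E →L[ℝ] E}

lemma hasDerivAt_T3 (hN : HasDerivAt N (-(dN (N t) w)) t) (x y z : E →L[ℝ] E) :
    HasDerivAt (fun s => T3 (trA E) (N s) x y z) (-(dT (trA E) (N t) w x y z)) t := by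
  have _ : CompleteSpace E := FiniteDimensional.complete ℝ E
  have h1 := ((((hN.mul_const x).mul hN).mul_const y).mul hN).mul_const z
  have h2 := (trC E).hasFDerivAt.comp_hasDerivAt t h1
  have h3 : (trC E) (((((-(dN (N t) w) * x * N t + N t * x * -(dN (N t) w)) * y) * N t
      + N t * x * N t * y * -(dN (N t) w)) * z))
      = -(dT (trA E) (N t) w x y z) := by
    rw [← trA_apply]
    unfold dT
    rw [← map_add, ← map_add, ← map_neg]
    congr 1
    noncomm_ring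
  exact HasDerivAt.congr_deriv (f := fun s => T3 (trA E) (N s) x y z) h2 h3

lemma hasDerivAt_C3 (hN : HasDerivAt N (-(dN (N t) w)) t) (x y z : E →L[ℝ] E) :
    HasDerivAt (fun s => C3 (trA E) (N s) x y z) (-(dC (trA E) (N t) w x y z)) t := by
  have h := (hasDerivAt_T3 hN x y z).sub (hasDerivAt_T3 hN x z y)
  have e : -(dC (trA E) (N t) w x y z)
      = -(dT (trA E) (N t) w x y z) - -(dT (trA E) (N t) w x z y) := by
    unfold dC; ring
  rw [e]
  exact h

lemma hasDerivAt_lin (hN : HasDerivAt N (-(dN (N t) w)) t) (g z : E →L[ℝ] E) :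
    HasDerivAt (fun s => trA E (g * N s * z)) (-(trA E (g * dN (N t) w * z))) t := by
  have _ : CompleteSpace E := FiniteDimensional.complete ℝ E
  have h1 := ((hN.const_mul g).mul_const z)
  have h2 := (trC E).hasFDerivAt.comp_hasDerivAt t h1
  have h3 : (trC E) (g * -(dN (N t) w) * z) = -(trA E (g * dN (N t) w * z)) := by
    rw [← trA_apply, ← map_neg]
    congr 1
    noncomm_ring
  exact HasDerivAt.congr_deriv (f := fun s => trA E (g * N s * z)) h2 h3

/-- Integral of a ten-term sum. -/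
lemma integral_ten {X : Type*} [MeasurableSpace X] (μ : Measure X)
    (u1 u2 u3 u4 v1 v2 v3 v4 v5 v6 : X → ℝ) (i1 : Integrable u1 μ) (i2 : Integrable u2 μ)
    (i3 : Integrable u3 μ) (i4 : Integrable u4 μ) (j1 : Integrable v1 μ) (j2 : Integrable v2 μ)
    (j3 : Integrable v3 μ) (j4 : Integrable v4 μ) (j5 : Integrable v5 μ)
    (j6 : Integrable v6 μ) :
    ∫ k, (u1 k - u2 k + u3 k - u4 k + (-v1 k + v2 k - v3 k - v4 k + v5 k - v6 k)) ∂μ
      = (∫ k, u1 k ∂μ) - (∫ k, u2 k ∂μ) + (∫ k, u3 k ∂μ) - (∫ k, u4 k ∂μ)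
        + (-(∫ k, v1 k ∂μ) + (∫ k, v2 k ∂μ) - (∫ k, v3 k ∂μ) - (∫ k, v4 k ∂μ)
          + (∫ k, v5 k ∂μ) - (∫ k, v6 k ∂μ)) := by
  have e1 : ∫ k, (u1 k - u2 k + u3 k - u4 k) ∂μ
      = (∫ k, u1 k ∂μ) - (∫ k, u2 k ∂μ) + (∫ k, u3 k ∂μ) - (∫ k, u4 k ∂μ) := by
    have a1 : ∫ k, (u1 k - u2 k + u3 k - u4 k) ∂μ
        = (∫ k, (u1 k - u2 k + u3 k) ∂μ) - ∫ k, u4 k ∂μ :=
      integral_sub ((i1.sub i2).add i3) i4
    have a2 : ∫ k, (u1 k - u2 k + u3 k) ∂μ
        = (∫ k, (u1 k - u2 k) ∂μ) + ∫ k, u3 k ∂μ := integral_add (i1.sub i2) i3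
    rw [a1, a2, integral_sub i1 i2]
  have e2 : ∫ k, (-v1 k + v2 k - v3 k - v4 k + v5 k - v6 k) ∂μ
      = -(∫ k, v1 k ∂μ) + (∫ k, v2 k ∂μ) - (∫ k, v3 k ∂μ) - (∫ k, v4 k ∂μ)
          + (∫ k, v5 k ∂μ) - (∫ k, v6 k ∂μ) := by
    have a1 : ∫ k, (-v1 k + v2 k - v3 k - v4 k + v5 k - v6 k) ∂μ
        = (∫ k, (-v1 k + v2 k - v3 k - v4 k + v5 k) ∂μ) - ∫ k, v6 k ∂μ :=
      integral_sub ((((j1.neg.add j2).sub j3).sub j4).add j5) j6
    have a2 : ∫ k, (-v1 k + v2 k - v3 k - v4 k + v5 k) ∂μ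
        = (∫ k, (-v1 k + v2 k - v3 k - v4 k) ∂μ) + ∫ k, v5 k ∂μ :=
      integral_add (((j1.neg.add j2).sub j3).sub j4) j5
    have a3 : ∫ k, (-v1 k + v2 k - v3 k - v4 k) ∂μ
        = (∫ k, (-v1 k + v2 k - v3 k) ∂μ) - ∫ k, v4 k ∂μ :=
      integral_sub ((j1.neg.add j2).sub j3) j4
    have a4 : ∫ k, (-v1 k + v2 k - v3 k) ∂μ
        = (∫ k, (-v1 k + v2 k) ∂μ) - ∫ k, v3 k ∂μ :=
      integral_sub (j1.neg.add j2) j3
    have a5 : ∫ k, (-v1 k + v2 k) ∂μ = (∫ k, -v1 k ∂μ) + ∫ k, v2 k ∂μ :=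
      integral_add j1.neg j2
    rw [a1, a2, a3, a4, a5, integral_neg]
  have e3 : ∫ k, (u1 k - u2 k + u3 k - u4 k + (-v1 k + v2 k - v3 k - v4 k + v5 k - v6 k)) ∂μ
      = (∫ k, (u1 k - u2 k + u3 k - u4 k) ∂μ)
        + ∫ k, (-v1 k + v2 k - v3 k - v4 k + v5 k - v6 k) ∂μ :=
    integral_add (((i1.sub i2).add i3).sub i4)
      (((((j1.neg.add j2).sub j3).sub j4).add j5).sub j6)
  rw [e3, e1, e2]

section main

variable {K : Type*} [Group K] [TopologicalSpace K] [IsTopologicalGroup K] [CompactSpace K]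
variable (ρ : K →* (E →L[ℝ] E)) (hρ : Continuous ρ) (Q W : Submodule ℝ E)
  (h : ∀ k, IsCompl Q (W.map (ρ k : E →ₗ[ℝ] E)))

/-- `f` generates a one-parameter subgroup of `K`. -/
def IsGen (ρ : K →* (E →L[ℝ] E)) (f : E →L[ℝ] E) : Prop :=
  ∃ κ : ℝ → K, Continuous κ ∧ (∀ s t, κ (s + t) = κ s * κ t) ∧
    ∀ t, ρ (κ t) = NormedSpace.exp (t • f)

include hρ in
/-- The Bianchi identity for the trace form on `Q`, in terms of the projection `Pk 1`. -/
theorem bianchi_proj (a b c d : E →L[ℝ] E)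
    (ha : IsGen ρ a) (hb : IsGen ρ b) (hc : IsGen ρ c) (hd : IsGen ρ d)
    (hab : ∀ q ∈ Q, br a b q ∈ Q) (hac : ∀ q ∈ Q, br a c q ∈ Q) (had : ∀ q ∈ Q, br a d q ∈ Q)
    (hbc : ∀ q ∈ Q, br b c q ∈ Q) (hbd : ∀ q ∈ Q, br b d q ∈ Q) (hcd : ∀ q ∈ Q, br c d q ∈ Q) :
    trA E (br a b * br c d * Pk ρ Q W h 1) - trA E (br a c * br b d * Pk ρ Q W h 1)
      + trA E (br a d * br b c * Pk ρ Q W h 1) = 0 := by
  let _ : MeasurableSpace K := borel K
  have _ : BorelSpace K := ⟨rfl⟩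
  let μ : Measure K := Measure.haar
  have hPc : Continuous (Pk ρ Q W h) := continuous_Pk ρ Q W h hρ
  -- the derivatives integrate to zero
  have intC : ∀ w, IsGen ρ w → ∀ x y z : E →L[ℝ] E,
      ∫ k, dC (trA E) (Pk ρ Q W h k) w x y z ∂μ = 0 := by
    rintro w ⟨κ, hκc, hκadd, hκρ⟩ x y z
    have hκ0 : ∀ k t, HasDerivAt (fun s => Pk ρ Q W h (κ s * k))
        (-(dN (Pk ρ Q W h (κ t * k)) w)) t := fun k t =>
      hasDerivAt_Pk ρ Q W h κ w hκadd hκρ k t
    have hcont1 : Continuous (fun k => C3 (trA E) (Pk ρ Q W h k) x y z) := by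
      unfold C3 T3
      have := continuous_trA (E := E)
      fun_prop
    have hcont2 : Continuous (fun k => -(dC (trA E) (Pk ρ Q W h k) w x y z)) := by
      unfold dC dT dN
      have := continuous_trA (E := E)
      fun_prop
    have := integral_deriv_eq_zero μ κ hκc
      (fun k => C3 (trA E) (Pk ρ Q W h k) x y z)
      (fun k => -(dC (trA E) (Pk ρ Q W h k) w x y z)) hcont1 hcont2
      (fun k t => hasDerivAt_C3 (N := fun s => Pk ρ Q W h (κ s * k)) (hκ0 k t) x y z)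
    rw [integral_neg, neg_eq_zero] at this
    exact this
  have intL : ∀ w, IsGen ρ w → ∀ g z : E →L[ℝ] E,
      ∫ k, trA E (g * dN (Pk ρ Q W h k) w * z) ∂μ = 0 := by
    rintro w ⟨κ, hκc, hκadd, hκρ⟩ g z
    have hκ0 : ∀ k t, HasDerivAt (fun s => Pk ρ Q W h (κ s * k))
        (-(dN (Pk ρ Q W h (κ t * k)) w)) t := fun k t =>
      hasDerivAt_Pk ρ Q W h κ w hκadd hκρ k t
    have hcont1 : Continuous (fun k => trA E (g * Pk ρ Q W h k * z)) := by
      have := continuous_trA (E := E)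
      fun_prop
    have hcont2 : Continuous (fun k => -(trA E (g * dN (Pk ρ Q W h k) w * z))) := by
      unfold dN
      have := continuous_trA (E := E)
      fun_prop
    have := integral_deriv_eq_zero μ κ hκc
      (fun k => trA E (g * Pk ρ Q W h k * z))
      (fun k => -(trA E (g * dN (Pk ρ Q W h k) w * z))) hcont1 hcont2
      (fun k t => hasDerivAt_lin (N := fun s => Pk ρ Q W h (κ s * k)) (hκ0 k t) g z)
    rw [integral_neg, neg_eq_zero] at this
    exact this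
  -- integrability
  have integ : ∀ u : K → ℝ, Continuous u → Integrable u μ := fun u hu =>
    hu.integrable_of_hasCompactSupport (HasCompactSupport.of_compactSpace _)
  -- elements preserving `Q`
  have pres : ∀ g : E →L[ℝ] E, (∀ q ∈ Q, g q ∈ Q) → ∀ k k',
      Pk ρ Q W h k * (g * Pk ρ Q W h k') = g * Pk ρ Q W h k' := by
    intro g hg k k'
    ext x
    exact Pk_of_mem ρ Q W h k (hg _ (Pk_mem ρ Q W h k' x))
  have const : ∀ g g' : E →L[ℝ] E, (∀ q ∈ Q, g q ∈ Q) → (∀ q ∈ Q, g' q ∈ Q) → ∀ k,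
      trA E (g * Pk ρ Q W h k * g') = trA E (g * g' * Pk ρ Q W h 1) := by
    intro g g' hg hg' k
    have hgg : ∀ q ∈ Q, (g' * g) q ∈ Q := fun q hq => hg' _ (hg q hq)
    have e1 : trA E (g * Pk ρ Q W h k * g') = trA E ((g' * g) * Pk ρ Q W h 1) := by
      calc trA E (g * Pk ρ Q W h k * g') = trA E (g' * (g * Pk ρ Q W h k)) := by rw [trA_comm]
        _ = trA E ((g' * g * Pk ρ Q W h 1) * Pk ρ Q W h k) := by
            congr 1
            rw [mul_assoc (g' * g), Pk_mul_Pk, mul_assoc]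
        _ = trA E (Pk ρ Q W h k * (g' * g * Pk ρ Q W h 1)) := by rw [trA_comm]
        _ = trA E ((g' * g) * Pk ρ Q W h 1) := by rw [pres (g' * g) hgg]
    have e2 : trA E ((g' * g) * Pk ρ Q W h 1) = trA E (g * g' * Pk ρ Q W h 1) := by
      have h1 : (g' * g) * Pk ρ Q W h 1 = (g' * Pk ρ Q W h 1) * (g * Pk ρ Q W h 1) := by
        rw [mul_assoc g' (Pk ρ Q W h 1), pres g hg, mul_assoc]
      have h2 : g * g' * Pk ρ Q W h 1 = (g * Pk ρ Q W h 1) * (g' * Pk ρ Q W h 1) := by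
        rw [mul_assoc g (Pk ρ Q W h 1), pres g' hg', mul_assoc]
      rw [h1, h2, trA_comm]
    rw [e1, e2]
  -- the Maurer–Cartan step
  have step : ∀ g y z : E →L[ℝ] E, IsGen ρ y → IsGen ρ z → (∀ q ∈ Q, g q ∈ Q) →
      (∀ q ∈ Q, br y z q ∈ Q) →
      ∫ k, C3 (trA E) (Pk ρ Q W h k) g y z ∂μ
        = μ.real Set.univ * trA E (g * br y z * Pk ρ Q W h 1) := by
    intro g y z hy hz hg hyz
    have hpt : ∀ k, C3 (trA E) (Pk ρ Q W h k) g y z
        = trA E (g * br y z * Pk ρ Q W h 1)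
          - (trA E (g * dN (Pk ρ Q W h k) y * z) - trA E (g * dN (Pk ρ Q W h k) z * y)) := by
      intro k
      rw [mc_identity (trA E) (Pk ρ Q W h k) g y z (by rw [mul_assoc]; exact pres g hg k k),
        const g (br y z) hg hyz k]
    simp_rw [hpt]
    have c1 : Continuous (fun k => trA E (g * dN (Pk ρ Q W h k) y * z)) := by
      unfold dN; have := continuous_trA (E := E); fun_prop
    have c2 : Continuous (fun k => trA E (g * dN (Pk ρ Q W h k) z * y)) := by
      unfold dN; have := continuous_trA (E := E); fun_prop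
    have c3 : Continuous (fun k => trA E (g * dN (Pk ρ Q W h k) y * z)
        - trA E (g * dN (Pk ρ Q W h k) z * y)) := c1.sub c2
    rw [integral_sub (integrable_const _) (integ _ c3), integral_sub (integ _ c1) (integ _ c2),
      intL y hy, intL z hz]
    simp
  -- integrate the closedness identity
  have cC3 : ∀ x y z : E →L[ℝ] E, Continuous (fun k => C3 (trA E) (Pk ρ Q W h k) x y z) := by
    intro x y z
    unfold C3 T3
    have := continuous_trA (E := E)
    fun_prop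
  have cdC : ∀ w x y z : E →L[ℝ] E,
      Continuous (fun k => dC (trA E) (Pk ρ Q W h k) w x y z) := by
    intro w x y z
    unfold dC dT dN
    have := continuous_trA (E := E)
    fun_prop
  have hzero : ∫ k, (dC (trA E) (Pk ρ Q W h k) a b c d - dC (trA E) (Pk ρ Q W h k) b a c d
      + dC (trA E) (Pk ρ Q W h k) c a b d - dC (trA E) (Pk ρ Q W h k) d a b c
      + (- C3 (trA E) (Pk ρ Q W h k) (br a b) c d + C3 (trA E) (Pk ρ Q W h k) (br a c) b d
         - C3 (trA E) (Pk ρ Q W h k) (br a d) b c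
         - C3 (trA E) (Pk ρ Q W h k) (br b c) a d + C3 (trA E) (Pk ρ Q W h k) (br b d) a c
         - C3 (trA E) (Pk ρ Q W h k) (br c d) a b)) ∂μ = 0 := by
    rw [← integral_zero K ℝ (μ := μ)]
    refine integral_congr_ae (Eventually.of_forall fun k => ?_)
    exact closed_identity (trA E) trA_comm (Pk ρ Q W h k) a b c d
  rw [integral_ten μ _ _ _ _ _ _ _ _ _ _ (integ _ (cdC a b c d)) (integ _ (cdC b a c d))
      (integ _ (cdC c a b d)) (integ _ (cdC d a b c)) (integ _ (cC3 (br a b) c d))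
      (integ _ (cC3 (br a c) b d)) (integ _ (cC3 (br a d) b c)) (integ _ (cC3 (br b c) a d))
      (integ _ (cC3 (br b d) a c)) (integ _ (cC3 (br c d) a b)),
    intC a ha, intC b hb, intC c hc, intC d hd,
    step (br a b) c d hc hd hab hcd, step (br a c) b d hb hd hac hbd,
    step (br a d) b c hb hc had hbc, step (br b c) a d ha hd hbc had,
    step (br b d) a c ha hc hbd hac, step (br c d) a b ha hb hcd hab] at hzero
  have sym : ∀ g g' : E →L[ℝ] E, (∀ q ∈ Q, g q ∈ Q) → (∀ q ∈ Q, g' q ∈ Q) →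
      trA E (g' * g * Pk ρ Q W h 1) = trA E (g * g' * Pk ρ Q W h 1) := by
    intro g g' hg hg'
    have h1 : (g' * g) * Pk ρ Q W h 1 = (g' * Pk ρ Q W h 1) * (g * Pk ρ Q W h 1) := by
      rw [mul_assoc g' (Pk ρ Q W h 1), pres g hg, mul_assoc]
    have h2 : g * g' * Pk ρ Q W h 1 = (g * Pk ρ Q W h 1) * (g' * Pk ρ Q W h 1) := by
      rw [mul_assoc g (Pk ρ Q W h 1), pres g' hg', mul_assoc]
    rw [h1, h2, trA_comm]
  rw [sym (br a b) (br c d) hab hcd, sym (br a c) (br b d) hac hbd,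
    sym (br a d) (br b c) had hbc] at hzero
  have hμ : μ.real Set.univ ≠ 0 := by
    have h1 : μ Set.univ ≠ 0 := (isOpen_univ.measure_pos μ Set.univ_nonempty).ne'
    have h2 : μ Set.univ ≠ ⊤ := measure_ne_top μ _
    simp [Measure.real, ENNReal.toReal_eq_zero_iff, h1, h2]
  have : μ.real Set.univ * (trA E (br a b * br c d * Pk ρ Q W h 1)
      - trA E (br a c * br b d * Pk ρ Q W h 1) + trA E (br a d * br b c * Pk ρ Q W h 1)) = 0 := by
    linarith
  exact (mul_eq_zero.mp this).resolve_left hμ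

end main

end F31343
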