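import Mathlib
import Pool.Agent.Lib_MP_f31343.Group

/-!
# Symmetric matrices: diagonalisation, logarithm, polar decomposition
-/

open Matrix NormedSpace Filter Topology Module
open scoped Matrix.Norms.Operator

namespace F31343

variable {ι : Type*} [Fintype ι] [DecidableEq ι]

lemma sym_diag (X : Matrix ι ι ℝ) (hX : Xᵀ = X) : ∃ (u : GL ι ℝ) (d : ι → ℝ),
    u.valᵀ * u.val = 1 ∧ X = u.val * diagonal d * u.valᵀ := by
  have hH : X.IsHermitian := by
    rw [IsHermitian, conjTranspose_eq_transpose_of_trivial]; exact hX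
  let U : Matrix ι ι ℝ := hH.eigenvectorUnitary
  have hU : Uᵀ * U = 1 := by
    have := Unitary.coe_star_mul_self hH.eigenvectorUnitary
    rw [star_eq_conjTranspose, conjTranspose_eq_transpose_of_trivial] at this
    exact this
  have hU' : U * Uᵀ = 1 := orth_mul_transpose hU
  refine ⟨⟨U, Uᵀ, hU', hU⟩, hH.eigenvalues, hU, ?_⟩
  have h := hH.spectral_theorem
  rw [Unitary.conjStarAlgAut_apply] at h
  rw [star_eq_conjTranspose, conjTranspose_eq_transpose_of_trivial] at h
  exact h

lemma orth_inv {u : GL ι ℝ} (hu : u.valᵀ * u.val = 1) : (u⁻¹).val = u.valᵀ := by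
  calc (u⁻¹).val = (u.valᵀ * u.val) * (u⁻¹).val := by rw [hu, one_mul]
    _ = u.valᵀ * (u.val * (u⁻¹).val) := by rw [mul_assoc]
    _ = u.valᵀ := by rw [Units.mul_inv, mul_one]

lemma exp_udu {u : GL ι ℝ} (hu : u.valᵀ * u.val = 1) (d : ι → ℝ) :
    exp (u.val * diagonal d * u.valᵀ)
      = u.val * diagonal (fun i => Real.exp (d i)) * u.valᵀ := by
  rw [← orth_inv hu, Matrix.exp_units_conj, Matrix.exp_diagonal]
  congr 3
  funext i
  rw [Real.exp_eq_exp_ℝ, Pi.coe_exp]

/-- Intertwining relations pass through the exponential in both directions. -/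
lemma exp_intertwine (X Y M : Matrix ι ι ℝ) (hX : Xᵀ = X) (hY : Yᵀ = Y) :
    exp X * M = M * exp Y ↔ X * M = M * Y := by
  obtain ⟨u, d, hu, hXd⟩ := sym_diag X hX
  obtain ⟨v, c, hv, hYc⟩ := sym_diag Y hY
  have hu' := orth_mul_transpose hu
  have hv' := orth_mul_transpose hv
  -- the general translation
  have trans : ∀ a b : ι → ℝ,
      (u.val * diagonal a * u.valᵀ) * M = M * (v.val * diagonal b * v.valᵀ) ↔
        ∀ i j, a i * (u.valᵀ * M * v.val) i j = (u.valᵀ * M * v.val) i j * b j := by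
    intro a b
    have e1 : u.valᵀ * ((u.val * diagonal a * u.valᵀ) * M) * v.val
        = diagonal a * (u.valᵀ * M * v.val) := by
      calc u.valᵀ * ((u.val * diagonal a * u.valᵀ) * M) * v.val
          = (u.valᵀ * u.val) * (diagonal a * (u.valᵀ * M * v.val)) := by
            simp only [mul_assoc]
        _ = _ := by rw [hu, one_mul]
    have e2 : u.valᵀ * (M * (v.val * diagonal b * v.valᵀ)) * v.val
        = (u.valᵀ * M * v.val) * diagonal b := by
      calc u.valᵀ * (M * (v.val * diagonal b * v.valᵀ)) * v.val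
          = (u.valᵀ * M * v.val) * diagonal b * (v.valᵀ * v.val) := by
            simp only [mul_assoc]
        _ = _ := by rw [hv, mul_one]
    have e3 : ∀ A B : Matrix ι ι ℝ, A = B ↔ u.valᵀ * A * v.val = u.valᵀ * B * v.val := by
      intro A B
      refine ⟨fun h => by rw [h], fun h => ?_⟩
      have h1 := congrArg (fun Z => u.val * Z * v.valᵀ) h
      have h2 : ∀ Z : Matrix ι ι ℝ, u.val * (u.valᵀ * Z * v.val) * v.valᵀ = Z := by
        intro Z
        calc u.val * (u.valᵀ * Z * v.val) * v.valᵀ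
            = (u.val * u.valᵀ) * Z * (v.val * v.valᵀ) := by simp only [mul_assoc]
          _ = Z := by rw [hu', hv', one_mul, mul_one]
      simp only [h2] at h1
      exact h1
    rw [e3, e1, e2]
    constructor
    · intro h i j
      have := congrFun (congrFun h i) j
      rwa [diagonal_mul, mul_diagonal] at this
    · intro h
      ext i j
      rw [diagonal_mul, mul_diagonal]
      exact h i j
  rw [hXd, hYc, exp_udu hu, exp_udu hv, trans, trans]
  constructor
  · intro h i j
    rcases eq_or_ne ((u.valᵀ * M * v.val) i j) 0 with h0 | h0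
    · rw [h0]; simp
    · have h1 := h i j
      rw [mul_comm ((u.valᵀ * M * v.val) i j)] at h1
      have h2 := mul_right_cancel₀ h0 h1
      rw [Real.exp_injective h2, mul_comm]
  · intro h i j
    rcases eq_or_ne ((u.valᵀ * M * v.val) i j) 0 with h0 | h0
    · rw [h0]; simp
    · have h1 := h i j
      rw [mul_comm ((u.valᵀ * M * v.val) i j)] at h1
      have h2 := mul_right_cancel₀ h0 h1
      rw [h2, mul_comm]

/-- The logarithm of a positive definite matrix. -/
lemma exists_log (P : Matrix ι ι ℝ) (hP : Pᵀ = P) (hpos : ∀ v, v ≠ 0 → 0 < qf P v) :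
    ∃ X : Matrix ι ι ℝ, Xᵀ = X ∧ exp X = P := by
  obtain ⟨u, d, hu, hPd⟩ := sym_diag P hP
  have hu' := orth_mul_transpose hu
  have hd : ∀ i, 0 < d i := by
    intro i
    have hne : u.val *ᵥ (Pi.single i 1) ≠ 0 := by
      intro h0
      have h1 : (u.valᵀ * u.val) *ᵥ (Pi.single i (1 : ℝ)) = 0 := by
        rw [← mulVec_mulVec, h0, mulVec_zero]
      rw [hu, one_mulVec] at h1
      have h2 := congrFun h1 i
      simp at h2
    have h1 := hpos _ hne
    have h2 : qf P (u.val *ᵥ (Pi.single i 1)) = d i := by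
      unfold qf
      have e1 : P *ᵥ (u.val *ᵥ (Pi.single i (1 : ℝ))) = d i • (u.val *ᵥ (Pi.single i 1)) := by
        rw [mulVec_mulVec, hPd]
        have e2 : u.val * diagonal d * u.valᵀ * u.val = u.val * diagonal d := by
          rw [mul_assoc, hu, mul_one]
        rw [e2, ← mulVec_mulVec, ← mulVec_smul]
        congr 1
        ext j
        by_cases hj : j = i
        · subst hj; simp [mulVec_diagonal]
        · simp [mulVec_diagonal, hj]
      have e3 : (u.val *ᵥ (Pi.single i (1 : ℝ))) ⬝ᵥ (u.val *ᵥ (Pi.single i 1)) = 1 := by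
        rw [dotProduct_mulVec, vecMul_mulVec, ← dotProduct_mulVec, hu, one_mulVec]
        simp
      rw [e1, dotProduct_smul, e3]
      simp
    rwa [h2] at h1
  refine ⟨u.val * diagonal (fun i => Real.log (d i)) * u.valᵀ, ?_, ?_⟩
  · rw [transpose_mul, transpose_mul, transpose_transpose, diagonal_transpose, mul_assoc]
  · rw [exp_udu hu]
    have : (fun i => Real.exp (Real.log (d i))) = d := by
      funext i; exact Real.exp_log (hd i)
    rw [this, ← hPd]

/-- The square root of `gᵀ g`, as an exponential. -/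
lemma exists_polar (g : GL ι ℝ) : ∃ X : Matrix ι ι ℝ, Xᵀ = X ∧
    exp (X + X) = g.valᵀ * g.val ∧
    (g.val * exp (-X))ᵀ * (g.val * exp (-X)) = 1 ∧ g.val * exp (-X) * exp X = g.val := by
  have hP : (g.valᵀ * g.val)ᵀ = g.valᵀ * g.val := by
    rw [transpose_mul, transpose_transpose]
  have hpos : ∀ v, v ≠ 0 → 0 < qf (g.valᵀ * g.val) v := by
    intro v hv
    have e : qf (g.valᵀ * g.val) v = (g.val *ᵥ v) ⬝ᵥ (g.val *ᵥ v) := by
      unfold qf
      rw [dotProduct_mulVec, dotProduct_mulVec, vecMul_mulVec]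
    rw [e]
    have hne : g.val *ᵥ v ≠ 0 := by
      intro h0
      apply hv
      have h1 : ((g⁻¹).val * g.val) *ᵥ v = 0 := by rw [← mulVec_mulVec, h0, mulVec_zero]
      rwa [Units.inv_mul, one_mulVec] at h1
    rcases lt_or_eq_of_le (Finset.sum_nonneg fun i (_ : i ∈ Finset.univ) =>
      mul_self_nonneg ((g.val *ᵥ v) i)) with h | h
    · exact h
    · exact absurd (dotProduct_self_eq_zero.mp h.symm) hne
  obtain ⟨Z, hZ, hZe⟩ := exists_log _ hP hpos
  have hX : ((1 / 2 : ℝ) • Z)ᵀ = (1 / 2 : ℝ) • Z := by rw [transpose_smul, hZ]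
  have hXX : (1 / 2 : ℝ) • Z + (1 / 2 : ℝ) • Z = Z := by
    rw [← add_smul]; norm_num
  have hneg : exp (-((1 / 2 : ℝ) • Z)) * exp ((1 / 2 : ℝ) • Z) = 1 := by
    have h1 := expU_neg ((1 / 2 : ℝ) • Z)
    have h2 := congrArg Units.val h1
    rw [expU_val] at h2
    rw [h2, ← expU_val ((1 / 2 : ℝ) • Z), Units.inv_mul]
  have hsq : exp ((1 / 2 : ℝ) • Z) * exp ((1 / 2 : ℝ) • Z) = g.valᵀ * g.val := by
    rw [← Matrix.exp_add_of_commute _ _ (Commute.refl _), hXX, hZe]
  have hneg' : exp ((1 / 2 : ℝ) • Z) * exp (-((1 / 2 : ℝ) • Z)) = 1 :=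
    mul_eq_one_comm.mp hneg
  refine ⟨(1 / 2 : ℝ) • Z, hX, ?_, ?_, ?_⟩
  · rw [hXX, hZe]
  · have ht : (exp (-((1 / 2 : ℝ) • Z)))ᵀ = exp (-((1 / 2 : ℝ) • Z)) :=
      exp_symm_transpose _ (by rw [transpose_neg, hX])
    rw [transpose_mul, ht]
    calc exp (-((1 / 2 : ℝ) • Z)) * g.valᵀ * (g.val * exp (-((1 / 2 : ℝ) • Z)))
        = exp (-((1 / 2 : ℝ) • Z)) * (g.valᵀ * g.val) * exp (-((1 / 2 : ℝ) • Z)) := by
          simp only [mul_assoc]
      _ = (exp (-((1 / 2 : ℝ) • Z)) * exp ((1 / 2 : ℝ) • Z))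
            * (exp ((1 / 2 : ℝ) • Z) * exp (-((1 / 2 : ℝ) • Z))) := by
          rw [← hsq]; simp only [mul_assoc]
      _ = 1 := by rw [hneg, hneg', one_mul]
  · rw [mul_assoc, hneg, mul_one]

/-- The determinant of the exponential of a symmetric matrix. -/
lemma det_exp_symm (X : Matrix ι ι ℝ) (hX : Xᵀ = X) :
    (exp X).det = Real.exp X.trace := by
  obtain ⟨u, d, hu, hXd⟩ := sym_diag X hX
  have hu' := orth_mul_transpose hu
  have hdet : u.val.det * u.valᵀ.det = 1 := by
    rw [← det_mul, hu', det_one]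
  have htr : X.trace = ∑ i, d i := by
    rw [hXd, trace_mul_comm, ← mul_assoc, hu, one_mul, trace_diagonal]
  rw [htr, hXd, exp_udu hu, det_mul, det_mul, det_diagonal, Real.exp_sum]
  calc u.val.det * (∏ i, Real.exp (d i)) * u.valᵀ.det
      = (u.val.det * u.valᵀ.det) * ∏ i, Real.exp (d i) := by ring
    _ = _ := by rw [hdet, one_mul]

end F31343
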