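import Mathlib
import Pool.Agent.Lib_MP_f31343.Spectral

/-!
# Classical groups as linear reductive groups
-/

open Matrix NormedSpace Filter Topology Module
open scoped Matrix.Norms.Operator

namespace F31343

variable {ι : Type*} [Fintype ι] [DecidableEq ι]

/-- Data for a classical group: the invertible matrices `g` which commute with a set `comm` of
skew-symmetric matrices (complex or quaternionic structures), preserve a set `form` of bilinear
forms with orthogonal Gram matrices, have determinant one if `sl` holds, and act trivially on the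
image of the symmetric matrix `fix`. -/
structure ClassicalData (ι : Type*) [Fintype ι] [DecidableEq ι] where
  comm : Set (Matrix ι ι ℝ)
  form : Set (Matrix ι ι ℝ)
  sl : Prop
  fix : Matrix ι ι ℝ
  skew : ∀ M ∈ comm, Mᵀ = -M
  orth : ∀ S ∈ form, Sᵀ * S = 1
  symm : fixᵀ = fix

variable (D : ClassicalData ι)

lemma commute_inv_of {M : Matrix ι ι ℝ} {a : GL ι ℝ} (h : a.val * M = M * a.val) :
    (a⁻¹).val * M = M * (a⁻¹).val := by
  calc (a⁻¹).val * M = (a⁻¹).val * (M * a.val) * (a⁻¹).val := by
        rw [mul_assoc, mul_assoc M, Units.mul_inv, mul_one]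
    _ = (a⁻¹).val * (a.val * M) * (a⁻¹).val := by rw [h]
    _ = M * (a⁻¹).val := by rw [← mul_assoc (a⁻¹).val, Units.inv_mul, one_mul]

/-- The group of the data. -/
def ClassicalData.grp : Subgroup (GL ι ℝ) where
  carrier := {g | (∀ M ∈ D.comm, g.val * M = M * g.val) ∧
    (∀ S ∈ D.form, g.valᵀ * S * g.val = S) ∧ (D.sl → g.val.det = 1) ∧
    g.val * D.fix = D.fix ∧ D.fix * g.val = D.fix}
  one_mem' := by
    refine ⟨fun M _ => by simp, fun S _ => by simp, fun _ => by simp, by simp, by simp⟩
  mul_mem' := by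
    rintro a b ⟨a1, a2, a3, a4, a5⟩ ⟨b1, b2, b3, b4, b5⟩
    refine ⟨fun M hM => ?_, fun S hS => ?_, fun h => ?_, ?_, ?_⟩
    · rw [Units.val_mul, mul_assoc, b1 M hM, ← mul_assoc, a1 M hM, mul_assoc]
    · rw [Units.val_mul, transpose_mul]
      calc b.valᵀ * a.valᵀ * S * (a.val * b.val) = b.valᵀ * (a.valᵀ * S * a.val) * b.val := by
            simp only [mul_assoc]
        _ = S := by rw [a2 S hS, b2 S hS]
    · rw [Units.val_mul, det_mul, a3 h, b3 h, one_mul]
    · rw [Units.val_mul, mul_assoc, b4, a4]
    · rw [Units.val_mul, ← mul_assoc, a5, b5]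
  inv_mem' := by
    rintro a ⟨a1, a2, a3, a4, a5⟩
    refine ⟨fun M hM => commute_inv_of (a1 M hM), fun S hS => ?_, fun h => ?_, ?_, ?_⟩
    · have h1 : (a⁻¹).valᵀ * a.valᵀ = 1 := by
        rw [← transpose_mul, Units.mul_inv, transpose_one]
      calc (a⁻¹).valᵀ * S * (a⁻¹).val
          = (a⁻¹).valᵀ * (a.valᵀ * S * a.val) * (a⁻¹).val := by rw [a2 S hS]
        _ = ((a⁻¹).valᵀ * a.valᵀ) * S * (a.val * (a⁻¹).val) := by simp only [mul_assoc]
        _ = S := by rw [h1, Units.mul_inv, one_mul, mul_one]
    · have h1 : (a.val * (a⁻¹).val).det = 1 := by rw [Units.mul_inv, det_one]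
      rw [det_mul, a3 h, one_mul] at h1
      exact h1
    · calc (a⁻¹).val * D.fix = (a⁻¹).val * (a.val * D.fix) := by rw [a4]
        _ = D.fix := by rw [← mul_assoc, Units.inv_mul, one_mul]
    · calc D.fix * (a⁻¹).val = (D.fix * a.val) * (a⁻¹).val := by rw [a5]
        _ = D.fix := by rw [mul_assoc, Units.mul_inv, mul_one]

/-- The symmetric part of its Lie algebra. -/
def ClassicalData.𝔭 : Submodule ℝ (Matrix ι ι ℝ) where
  carrier := {X | Xᵀ = X ∧ (∀ M ∈ D.comm, X * M = M * X) ∧ (∀ S ∈ D.form, X * S = S * (-X)) ∧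
    (D.sl → X.trace = 0) ∧ X * D.fix = 0}
  add_mem' := by
    rintro a b ⟨a1, a2, a3, a4, a5⟩ ⟨b1, b2, b3, b4, b5⟩
    refine ⟨by rw [transpose_add, a1, b1], fun M hM => ?_, fun S hS => ?_, fun h => ?_, ?_⟩
    · rw [add_mul, mul_add, a2 M hM, b2 M hM]
    · rw [add_mul, neg_add, mul_add, a3 S hS, b3 S hS]
    · rw [trace_add, a4 h, b4 h, add_zero]
    · rw [add_mul, a5, b5, add_zero]
  zero_mem' := by
    refine ⟨by simp, fun M _ => by simp, fun S _ => by simp, fun _ => by simp, by simp⟩
  smul_mem' := by
    rintro c a ⟨a1, a2, a3, a4, a5⟩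
    refine ⟨by rw [transpose_smul, a1], fun M hM => ?_, fun S hS => ?_, fun h => ?_, ?_⟩
    · rw [smul_mul_assoc, mul_smul_comm, a2 M hM]
    · rw [smul_mul_assoc, ← smul_neg, mul_smul_comm, a3 S hS]
    · rw [trace_smul, a4 h, smul_zero]
    · rw [smul_mul_assoc, a5, smul_zero]

omit [DecidableEq ι] in
lemma transpose_commute {M g : Matrix ι ι ℝ} (hM : Mᵀ = -M) (h : g * M = M * g) :
    gᵀ * M = M * gᵀ := by
  have h1 := congrArg transpose h
  rw [transpose_mul, transpose_mul, hM, neg_mul, mul_neg, neg_inj] at h1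
  exact h1.symm

lemma form_transpose {S : Matrix ι ι ℝ} {g : GL ι ℝ} (hS : Sᵀ * S = 1)
    (h : g.valᵀ * S * g.val = S) : g.val * S * g.valᵀ = S := by
  have hS' := orth_mul_transpose hS
  -- `(Sᵀ gᵀ S) g = 1`
  have h1 : (Sᵀ * g.valᵀ * S) * g.val = 1 := by
    calc (Sᵀ * g.valᵀ * S) * g.val = Sᵀ * (g.valᵀ * S * g.val) := by simp only [mul_assoc]
      _ = 1 := by rw [h, hS]
  have h2 : g.val * (Sᵀ * g.valᵀ * S) = 1 := mul_eq_one_comm.mp h1
  have h3 : g.val * Sᵀ * g.valᵀ = Sᵀ := by
    calc g.val * Sᵀ * g.valᵀ = (g.val * (Sᵀ * g.valᵀ * S)) * Sᵀ := by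
          have : (g.val * (Sᵀ * g.valᵀ * S)) * Sᵀ = g.val * Sᵀ * g.valᵀ * (S * Sᵀ) := by
            simp only [mul_assoc]
          rw [this, hS', mul_one]
      _ = Sᵀ := by rw [h2, one_mul]
  have h4 := congrArg transpose h3
  rw [transpose_mul, transpose_mul, transpose_transpose, transpose_transpose] at h4
  rw [← mul_assoc] at h4
  exact h4

lemma exp_mem_classical {X : Matrix ι ι ℝ} (hX : X ∈ D.𝔭) {g : GL ι ℝ} (hg : g.val = exp X) :
    g ∈ D.grp := by
  obtain ⟨h1, h2, h3, h4, h5⟩ := hX
  have hneg : (-X)ᵀ = -X := by rw [transpose_neg, h1]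
  have hexp : (exp X)ᵀ = exp X := exp_symm_transpose X h1
  have hinv : exp (-X) * exp X = 1 := by
    have := congrArg Units.val (expU_neg X)
    rw [expU_val] at this
    rw [this, ← expU_val X, Units.inv_mul]
  refine ⟨fun M hM => ?_, fun S hS => ?_, fun h => ?_, ?_, ?_⟩
  · rw [hg]; exact (exp_intertwine X X M h1 h1).mpr (h2 M hM)
  · rw [hg, hexp, (exp_intertwine X (-X) S h1 hneg).mpr (h3 S hS), mul_assoc, hinv, mul_one]
  · rw [hg, det_exp_symm X h1, h4 h, Real.exp_zero]
  · rw [hg]
    have := (exp_intertwine X 0 D.fix h1 transpose_zero).mpr (by rw [h5, mul_zero])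
    rwa [exp_zero, mul_one] at this
  · rw [hg]
    have h6 : D.fix * X = 0 := by
      have := congrArg transpose h5
      rwa [transpose_mul, h1, D.symm, transpose_zero] at this
    have := (exp_intertwine 0 X D.fix transpose_zero h1).mpr (by rw [h6, zero_mul])
    rw [exp_zero, one_mul] at this
    exact this.symm

/-- The classical group of the data, as a linear reductive group. -/
def ClassicalData.toLinRed : LinRed ι where
  grp := D.grp
  isClosed := by
    have hval : Continuous (fun g : GL ι ℝ => g.val) := isOpenEmbedding_val.continuous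
    have e : (D.grp : Set (GL ι ℝ)) = {g : GL ι ℝ | ∀ M ∈ D.comm, g.val * M = M * g.val} ∩
        ({g : GL ι ℝ | ∀ S ∈ D.form, g.valᵀ * S * g.val = S} ∩
        ({g : GL ι ℝ | D.sl → g.val.det = 1} ∩ ({g : GL ι ℝ | g.val * D.fix = D.fix} ∩
        {g : GL ι ℝ | D.fix * g.val = D.fix}))) := rfl
    rw [e]
    refine IsClosed.inter ?_ (IsClosed.inter ?_ (IsClosed.inter ?_ (IsClosed.inter ?_ ?_)))
    · have e1 : {g : GL ι ℝ | ∀ M ∈ D.comm, g.val * M = M * g.val}
          = ⋂ M ∈ D.comm, {g : GL ι ℝ | g.val * M = M * g.val} := by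
        ext g; simp
      rw [e1]
      exact isClosed_biInter fun M _ => isClosed_eq (hval.matrix_mul continuous_const)
        (continuous_const.matrix_mul hval)
    · have e1 : {g : GL ι ℝ | ∀ S ∈ D.form, g.valᵀ * S * g.val = S}
          = ⋂ S ∈ D.form, {g : GL ι ℝ | g.valᵀ * S * g.val = S} := by
        ext g; simp
      rw [e1]
      exact isClosed_biInter fun S _ => isClosed_eq
        ((hval.matrix_transpose.matrix_mul continuous_const).matrix_mul hval) continuous_const
    · by_cases h : D.sl
      · simp only [h, forall_const]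
        exact isClosed_eq hval.matrix_det continuous_const
      · simp only [h, false_imp_iff, Set.ofPred_true]
        exact isClosed_univ
    · exact isClosed_eq (hval.matrix_mul continuous_const) continuous_const
    · exact isClosed_eq (continuous_const.matrix_mul hval) continuous_const
  𝔭 := D.𝔭
  symm := fun X hX => hX.1
  exp_mem := fun X hX g hg => exp_mem_classical D hX hg
  cartan := by
    rintro g ⟨g1, g2, g3, g4, g5⟩
    obtain ⟨X, hX, hXX, hk, hkX⟩ := exists_polar g
    have hXX' : (X + X)ᵀ = X + X := by rw [transpose_add, hX]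
    have half : ∀ A : Matrix ι ι ℝ, A + A = 0 → A = 0 := by
      intro A hA
      have : (2 : ℝ) • A = 0 := by rw [two_smul]; exact hA
      exact (smul_eq_zero.mp this).resolve_left (by norm_num)
    have hmem : X ∈ D.𝔭 := by
      refine ⟨hX, fun M hM => ?_, fun S hS => ?_, fun h => ?_, ?_⟩
      · have h1 : exp (X + X) * M = M * exp (X + X) := by
          rw [hXX, mul_assoc, g1 M hM, ← mul_assoc, transpose_commute (D.skew M hM) (g1 M hM),
            mul_assoc]
        have h2 := (exp_intertwine _ _ M hXX' hXX').mp h1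
        rw [← sub_eq_zero]
        apply half
        rw [add_mul, mul_add] at h2
        have h3 : X * M - M * X + (X * M - M * X) = (X * M + X * M) - (M * X + M * X) := by abel
        rw [h3, h2, sub_self]
      · have hneg : (-(X + X))ᵀ = -(X + X) := by rw [transpose_neg, hXX']
        have hinv : exp (-(X + X)) * exp (X + X) = 1 := by
          have := congrArg Units.val (expU_neg (X + X))
          rw [expU_val] at this
          rw [this, ← expU_val (X + X), Units.inv_mul]
        have hinv' := mul_eq_one_comm.mp hinv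
        have h1 : exp (X + X) * S * exp (X + X) = S := by
          rw [hXX]
          calc g.valᵀ * g.val * S * (g.valᵀ * g.val)
              = g.valᵀ * (g.val * S * g.valᵀ) * g.val := by simp only [mul_assoc]
            _ = S := by rw [form_transpose (D.orth S hS) (g2 S hS), g2 S hS]
        have h2 : exp (X + X) * S = S * exp (-(X + X)) := by
          calc exp (X + X) * S = exp (X + X) * S * (exp (X + X) * exp (-(X + X))) := by
                rw [hinv', mul_one]
            _ = (exp (X + X) * S * exp (X + X)) * exp (-(X + X)) := by simp only [mul_assoc]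
            _ = S * exp (-(X + X)) := by rw [h1]
        have h3 := (exp_intertwine _ _ S hXX' hneg).mp h2
        rw [← sub_eq_zero]
        apply half
        have h4 : X * S - S * (-X) + (X * S - S * (-X)) = (X + X) * S - S * (-(X + X)) := by
          noncomm_ring
        rw [h4, h3, sub_self]
      · have h1 := det_exp_symm (X + X) hXX'
        rw [hXX, det_mul, det_transpose, g3 h, one_mul] at h1
        have h2 : (X + X).trace = 0 := by
          have := Real.exp_injective (h1.symm.trans Real.exp_zero.symm)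
          exact this
        rw [trace_add] at h2
        linarith
      · have h1 : exp (X + X) * D.fix = D.fix * exp (0 : Matrix ι ι ℝ) := by
          rw [exp_zero, mul_one, hXX, mul_assoc, g4]
          have := congrArg transpose g5
          rwa [transpose_mul, D.symm] at this
        have h2 := (exp_intertwine _ _ D.fix hXX' transpose_zero).mp h1
        rw [mul_zero, add_mul] at h2
        exact half _ h2
    have hkm : g * expU (-X) ∈ D.grp :=
      D.grp.mul_mem ⟨g1, g2, g3, g4, g5⟩ (exp_mem_classical D (D.𝔭.neg_mem hmem) rfl)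
    refine ⟨g * expU (-X), hkm, X, hmem, ?_, ?_⟩
    · rw [Units.val_mul, expU_val]; exact hk
    · rw [Units.val_mul, expU_val]; exact hkX.symm

set_option backward.isDefEq.respectTransparency false in
lemma exp_mul_fix {B C : Matrix ι ι ℝ} (h : B * C = 0) : exp B * C = C := by
  let y : ℝ → Matrix ι ι ℝ := fun t => exp (t • B) * C
  have hy : ∀ t, HasDerivAt y 0 t := by
    intro t
    have h1 : HasDerivAt (fun t : ℝ => exp (t • B)) (exp (t • B) * B) t :=
      hasDerivAt_exp_smul_const (𝕂 := ℝ) B t
    have h2 := h1.mul_const C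
    rw [mul_assoc, h, mul_zero] at h2
    exact h2
  have h3 : y 1 = y 0 := is_const_of_deriv_eq_zero (fun s => (hy s).differentiableAt)
    (fun s => (hy s).deriv) 1 0
  simpa [y] using h3

lemma fix_mul_exp {B C : Matrix ι ι ℝ} (h : C * B = 0) : C * exp B = C := by
  have h1 : Bᵀ * Cᵀ = 0 := by rw [← transpose_mul, h, transpose_zero]
  have h2 := congrArg transpose (exp_mul_fix h1)
  rw [transpose_mul, transpose_transpose, ← Matrix.exp_transpose, transpose_transpose] at h2
  exact h2

/-- Membership in `𝔨`. -/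
lemma mem_k_classical (A : Matrix ι ι ℝ) (hA : Aᵀ = -A) (h1 : ∀ M ∈ D.comm, A * M = M * A)
    (h2 : ∀ S ∈ D.form, A * S = S * A) (h3 : A * D.fix = 0) (h4 : D.fix * A = 0) :
    A ∈ D.toLinRed.𝔨 := by
  intro t g hg
  have hT : ∀ s : ℝ, (exp (s • A))ᵀ = exp (-(s • A)) := by
    intro s
    rw [← Matrix.exp_transpose, transpose_smul, hA, smul_neg]
  have hinv : ∀ s : ℝ, exp (-(s • A)) * exp (s • A) = 1 := by
    intro s
    have := congrArg Units.val (expU_neg (s • A))
    rw [expU_val] at this
    rw [this, ← expU_val (s • A), Units.inv_mul]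
  have horth : g.valᵀ * g.val = 1 := by rw [hg, hT, hinv]
  have hcomm : ∀ M : Matrix ι ι ℝ, A * M = M * A → exp (t • A) * M = M * exp (t • A) := by
    intro M hM
    have hc : Commute M (t • A) := by
      show M * (t • A) = (t • A) * M
      rw [smul_mul_assoc, mul_smul_comm, hM]
    exact (Commute.exp_right hc).symm
  refine ⟨⟨fun M hM => ?_, fun S hS => ?_, fun _ => ?_, ?_, ?_⟩, horth⟩
  · rw [hg]; exact hcomm M (h1 M hM)
  · rw [hg, hT, mul_assoc, ← hcomm S (h2 S hS), ← mul_assoc, hinv, one_mul]
  · have e1 : g.val.det * g.val.det = 1 := by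
      have := congrArg det horth
      rwa [det_mul, det_transpose, det_one] at this
    have e2 : g.val = exp ((t / 2) • A) * exp ((t / 2) • A) := by
      rw [← Matrix.exp_add_of_commute _ _ (Commute.refl _), ← add_smul, add_halves, hg]
    have e3 : 0 ≤ g.val.det := by
      rw [e2, det_mul]; exact mul_self_nonneg _
    nlinarith
  · rw [hg]
    refine exp_mul_fix ?_
    show (t • A) * D.fix = 0
    rw [smul_mul_assoc, h3, smul_zero]
  · rw [hg]
    refine fix_mul_exp ?_
    show D.fix * (t • A) = 0
    rw [mul_smul_comm, h4, smul_zero]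

end F31343
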