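import Mathlib
import Pool.Agent.Lib_MP_f31343.Limit3
import Pool.Agent.Lib_MP_f31343.Bianchi

/-!
# The Pontryagin obstruction
-/

open Matrix NormedSpace Filter Topology Module
open scoped Matrix.Norms.Operator ContDiff

namespace F31343

variable {ι : Type*} [Fintype ι] [DecidableEq ι] {G H : LinRed ι}

lemma exp_mul_exp_neg {E : Type*} [NormedAddCommGroup E] [NormedSpace ℝ E] [CompleteSpace E]
    (a : E →L[ℝ] E) (t : ℝ) :
    NormedSpace.exp (t • a) * NormedSpace.exp (t • (-a)) = 1 := by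
  let _ : NormedAlgebra ℚ (E →L[ℝ] E) := NormedAlgebra.restrictScalars ℚ ℝ _
  rw [smul_neg, ← NormedSpace.exp_add_of_commute (Commute.refl (t • a)).neg_right,
    add_neg_cancel, NormedSpace.exp_zero]

lemma lin_deriv {M N : Type*} [NormedAddCommGroup M] [NormedSpace ℝ M] [FiniteDimensional ℝ M]
    [NormedAddCommGroup N] [NormedSpace ℝ N] (L : M →ₗ[ℝ] N) {u : ℝ → M} {v : M} {t : ℝ}
    (h : HasDerivAt u v t) : HasDerivAt (fun s => L (u s)) (L v) t :=
  (LinearMap.toContinuousLinearMap L).hasFDerivAt.comp_hasDerivAt t h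

/-! ### A Euclidean model of `𝔭_G` -/

section model

variable (G)

/-- A Euclidean space of the dimension of `𝔭_G`. -/
abbrev EG : Type := EuclideanSpace ℝ (Fin (finrank ℝ G.𝔭))

/-- An isomorphism of `𝔭_G` with the model. -/
noncomputable def eqvG : G.𝔭 ≃ₗ[ℝ] EG G := LinearEquiv.ofFinrankEq _ _ (by simp)

/-- The inclusion of the model into the matrices. -/
noncomputable def SG : EG G →ₗ[ℝ] Matrix ι ι ℝ := G.𝔭.subtype ∘ₗ (eqvG G).symm.toLinearMap

lemma SG_mem (x : EG G) : SG G x ∈ G.𝔭 := ((eqvG G).symm x).2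

lemma SG_inj : Function.Injective (SG G) := by
  intro x y h
  exact (eqvG G).symm.injective (Subtype.ext h)

/-- A left inverse of `SG`. -/
noncomputable def TG : Matrix ι ι ℝ →ₗ[ℝ] EG G :=
  Classical.choose (LinearMap.exists_leftInverse_of_injective (SG G)
    (LinearMap.ker_eq_bot.mpr (SG_inj G)))

lemma TG_SG (x : EG G) : TG G (SG G x) = x :=
  LinearMap.congr_fun (Classical.choose_spec (LinearMap.exists_leftInverse_of_injective (SG G)
    (LinearMap.ker_eq_bot.mpr (SG_inj G)))) x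

variable {G}

lemma SG_TG {X : Matrix ι ι ℝ} (hX : X ∈ G.𝔭) : SG G (TG G X) = X := by
  have h : SG G (eqvG G ⟨X, hX⟩) = X := by
    show ((eqvG G).symm (eqvG G ⟨X, hX⟩)).1 = X
    rw [LinearEquiv.symm_apply_apply]
  calc SG G (TG G X) = SG G (TG G (SG G (eqvG G ⟨X, hX⟩))) := by rw [h]
    _ = X := by rw [TG_SG, h]

variable (G)

/-- The action of `K` on the model of `𝔭_G`. -/
noncomputable def rhoE : G.K →* (EG G →L[ℝ] EG G) where
  toFun k := LinearMap.toContinuousLinearMap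
    (TG G ∘ₗ (LinearMap.mulLeft ℝ k.1.val ∘ₗ LinearMap.mulRight ℝ k.1.valᵀ) ∘ₗ SG G)
  map_one' := by
    ext1 x
    show TG G ((1 : GL ι ℝ).val * (SG G x * (1 : GL ι ℝ).valᵀ)) = x
    rw [Units.val_one, transpose_one, one_mul, mul_one, TG_SG]
  map_mul' k k' := by
    ext1 x
    show TG G ((k.1 * k'.1).val * (SG G x * (k.1 * k'.1).valᵀ))
      = TG G (k.1.val * (SG G (TG G (k'.1.val * (SG G x * k'.1.valᵀ))) * k.1.valᵀ))
    rw [SG_TG (conj_mem_p2 k'.2 (SG_mem G x))]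
    simp only [Units.val_mul, transpose_mul, mul_assoc]

lemma rhoE_apply (k : G.K) (x : EG G) :
    rhoE G k x = TG G (k.1.val * (SG G x * k.1.valᵀ)) := rfl

lemma SG_rhoE (k : G.K) (x : EG G) :
    SG G (rhoE G k x) = k.1.val * (SG G x * k.1.valᵀ) :=
  SG_TG (conj_mem_p2 k.2 (SG_mem G x))

lemma continuous_rhoE : Continuous (rhoE G) := by
  rw [continuous_clm_apply]
  intro x
  have h1 : Continuous (fun k : G.K => k.1.val) :=
    isOpenEmbedding_val.continuous.comp continuous_subtype_val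
  have h2 : Continuous (fun k : G.K => k.1.valᵀ) := h1.matrix_transpose
  have h3 : Continuous (fun k : G.K => k.1.val * (SG G x * k.1.valᵀ)) :=
    h1.matrix_mul (continuous_const.matrix_mul h2)
  exact (LinearMap.continuous_of_finiteDimensional (TG G)).comp h3

/-- `ad A` on the model of `𝔭_G`. -/
noncomputable def adE (A : Matrix ι ι ℝ) : EG G →L[ℝ] EG G :=
  LinearMap.toContinuousLinearMap
    (TG G ∘ₗ (LinearMap.mulLeft ℝ A - LinearMap.mulRight ℝ A) ∘ₗ SG G)

lemma adE_apply (A : Matrix ι ι ℝ) (x : EG G) :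
    adE G A x = TG G (A * SG G x - SG G x * A) := rfl

variable {G}

lemma SG_adE {A : Matrix ι ι ℝ} (hA : A ∈ G.𝔨) (x : EG G) :
    SG G (adE G A x) = A * SG G x - SG G x * A :=
  SG_TG (ad_mem_p hA (SG_mem G x))

lemma isGen_adE {A : Matrix ι ι ℝ} (hA : A ∈ G.𝔨) : IsGen (rhoE G) (adE G A) := by
  refine ⟨fun t => ⟨expU (t • A), expU_mem_K hA t⟩, ?_, ?_, ?_⟩
  · exact Continuous.subtype_mk (continuous_expU.comp (continuous_id.smul continuous_const)) _
  · intro s t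
    apply Subtype.ext
    show expU ((s + t) • A) = expU (s • A) * expU (t • A)
    rw [add_smul]
    exact expU_add _ _ (((Commute.refl A).smul_left s).smul_right t)
  · intro t
    -- the curve `exp(-t a) ρ(exp(tA)) x` is constant
    have key : ∀ x : EG G, ∀ t : ℝ, NormedSpace.exp (t • (-(adE G A)))
        (rhoE G ⟨expU (t • A), expU_mem_K hA t⟩ x) = x := by
      intro x
      let y : ℝ → EG G := fun t => NormedSpace.exp (t • (-(adE G A)))
        (rhoE G ⟨expU (t • A), expU_mem_K hA t⟩ x)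
      have hy : ∀ t, HasDerivAt y 0 t := by
        intro t
        have h1 : HasDerivAt (fun t : ℝ => rhoE G ⟨expU (t • A), expU_mem_K hA t⟩ x)
            (adE G A (rhoE G ⟨expU (t • A), expU_mem_K hA t⟩ x)) t := by
          have h0 := lin_deriv (TG G) (hasDerivAt_conj hA (SG G x) t)
          have e : adE G A (rhoE G ⟨expU (t • A), expU_mem_K hA t⟩ x)
              = TG G (A * (exp (t • A) * (SG G x * (exp (t • A))ᵀ))
                - (exp (t • A) * (SG G x * (exp (t • A))ᵀ)) * A) := by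
            rw [adE_apply, SG_rhoE]
            rfl
          rw [e]
          exact h0
        have h2 : HasDerivAt (fun t : ℝ => NormedSpace.exp (t • (-(adE G A))))
            (NormedSpace.exp (t • (-(adE G A))) * (-(adE G A))) t :=
          hasDerivAt_exp_smul_const (𝕂 := ℝ) (-(adE G A)) t
        have h3 := h2.clm_apply h1
        refine h3.congr_deriv ?_
        simp
      have hconst : ∀ t, y t = y 0 := by
        intro t
        exact is_const_of_deriv_eq_zero (fun s => (hy s).differentiableAt)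
          (fun s => (hy s).deriv) t 0
      intro t
      have h4 : y 0 = x := by
        show NormedSpace.exp ((0 : ℝ) • (-(adE G A)))
          (rhoE G ⟨expU ((0 : ℝ) • A), expU_mem_K hA 0⟩ x) = x
        have h5 : (⟨expU ((0 : ℝ) • A), expU_mem_K hA 0⟩ : G.K) = 1 := by
          apply Subtype.ext
          show expU ((0 : ℝ) • A) = 1
          rw [zero_smul, expU_zero]
        have h7 : NormedSpace.exp ((0 : ℝ) • (-(adE G A))) = 1 := by
          rw [zero_smul ℝ (-(adE G A)), NormedSpace.exp_zero]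
        rw [h5, map_one, h7]
        rfl
      exact (hconst t).trans h4
    have hinv : NormedSpace.exp (t • adE G A) * NormedSpace.exp (t • (-(adE G A))) = 1 :=
      exp_mul_exp_neg (adE G A) t
    ext1 x
    have h6 := key x t
    calc rhoE G ⟨expU (t • A), expU_mem_K hA t⟩ x
        = (NormedSpace.exp (t • adE G A) * NormedSpace.exp (t • (-(adE G A))))
            (rhoE G ⟨expU (t • A), expU_mem_K hA t⟩ x) := by rw [hinv]; rfl
      _ = NormedSpace.exp (t • adE G A)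
            (NormedSpace.exp (t • (-(adE G A)))
            (rhoE G ⟨expU (t • A), expU_mem_K hA t⟩ x)) := rfl
      _ = NormedSpace.exp (t • adE G A) x := by rw [h6]

end model

/-! ### The general obstruction -/

/-- The restriction of `ad B = [B, ·]` to `𝔭_H`, for a matrix `B` normalising `𝔭_H`. -/
def adH (H : LinRed ι) (B : Matrix ι ι ℝ) (hB : ∀ X ∈ H.𝔭, B * X - X * B ∈ H.𝔭) :
    H.𝔭 →ₗ[ℝ] H.𝔭 :=
  (LinearMap.mulLeft ℝ B - LinearMap.mulRight ℝ B).restrict hB

lemma adH_coe (B : Matrix ι ι ℝ) (hB : ∀ X ∈ H.𝔭, B * X - X * B ∈ H.𝔭) (X : H.𝔭) :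
    (adH H B hB X : Matrix ι ι ℝ) = B * X.1 - X.1 * B := rfl

lemma SG_br {A B : Matrix ι ι ℝ} (hA : A ∈ G.𝔨) (hB : B ∈ G.𝔨) (x : EG G) :
    SG G (br (adE G A) (adE G B) x) = (A * B - B * A) * SG G x - SG G x * (A * B - B * A) := by
  have e : br (adE G A) (adE G B) x = adE G A (adE G B x) - adE G B (adE G A x) := rfl
  rw [e, map_sub, SG_adE hA, SG_adE hB, SG_adE hB, SG_adE hA]
  noncomm_ring

/-- The trace over the model is the trace over `𝔭_H`. -/
lemma trace_model (hHG : H.grp ≤ G.grp) {W : Submodule ℝ (EG G)}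
    (h : ∀ k, IsCompl (H.𝔭.comap (SG G)) (W.map (rhoE G k : EG G →ₗ[ℝ] EG G)))
    {A B C D : Matrix ι ι ℝ} (hA : A ∈ G.𝔨) (hB : B ∈ G.𝔨) (hC : C ∈ G.𝔨) (hD : D ∈ G.𝔨)
    (hAB : ∀ X ∈ H.𝔭, (A * B - B * A) * X - X * (A * B - B * A) ∈ H.𝔭)
    (hCD : ∀ X ∈ H.𝔭, (C * D - D * C) * X - X * (C * D - D * C) ∈ H.𝔭) :
    trA (EG G) (br (adE G A) (adE G B) * br (adE G C) (adE G D)
      * Pk (rhoE G) (H.𝔭.comap (SG G)) W h 1)
      = LinearMap.trace ℝ H.𝔭 (adH H _ hAB ∘ₗ adH H _ hCD) := by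
  set Q := H.𝔭.comap (SG G) with hQ
  let f : EG G →ₗ[ℝ] EG G := ((br (adE G A) (adE G B) * br (adE G C) (adE G D)
      * Pk (rhoE G) Q W h 1 : EG G →L[ℝ] EG G) : EG G →ₗ[ℝ] EG G)
  have hf_apply : ∀ x, f x = br (adE G A) (adE G B) (br (adE G C) (adE G D)
      (Pk (rhoE G) Q W h 1 x)) := fun x => rfl
  have hf : ∀ x, f x ∈ Q := by
    intro x
    rw [hf_apply]
    have h1 : Pk (rhoE G) Q W h 1 x ∈ Q := Pk_mem (rhoE G) Q W h 1 x
    have h2 : br (adE G C) (adE G D) (Pk (rhoE G) Q W h 1 x) ∈ Q := by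
      show SG G _ ∈ H.𝔭
      rw [SG_br hC hD]
      exact hCD _ h1
    show SG G _ ∈ H.𝔭
    rw [SG_br hA hB]
    exact hAB _ h2
  have h3 : trA (EG G) (br (adE G A) (adE G B) * br (adE G C) (adE G D)
      * Pk (rhoE G) Q W h 1) = LinearMap.trace ℝ (EG G) f := rfl
  rw [h3, ← LinearMap.trace_restrict_eq_of_forall_mem Q f hf]
  let e : Q ≃ₗ[ℝ] H.𝔭 :=
    LinearEquiv.ofLinearMap
      ((SG G).restrict (p := Q) (q := H.𝔭) (fun x hx => hx))
      ((TG G).restrict (p := H.𝔭) (q := Q) (fun X hX => by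
        show SG G (TG G X) ∈ H.𝔭
        rw [SG_TG (p_mono hHG hX)]; exact hX))
      (by
        ext X : 2
        show SG G (TG G X.1) = X.1
        exact SG_TG (p_mono hHG X.2))
      (by
        ext x : 2
        show TG G (SG G x.1) = x.1
        exact TG_SG G x.1)
  rw [← LinearMap.trace_conj' _ e]
  congr 1
  ext X : 2
  show SG G (f (TG G X.1)) = _
  have hX : SG G (TG G X.1) = X.1 := SG_TG (p_mono hHG X.2)
  have hmem : TG G X.1 ∈ Q := by
    show SG G (TG G X.1) ∈ H.𝔭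
    rw [hX]; exact X.2
  rw [hf_apply, Pk_of_mem (rhoE G) Q W h 1 hmem, SG_br hA hB, SG_br hC hD, hX]
  rfl

/-- A complement which is moved to complements, in the model. -/
lemma exists_model_compl (hHG : H.grp ≤ G.grp)
    (F : LocalGeometricFibration G H) : ∃ W : Submodule ℝ (EG G),
      ∀ k, IsCompl (H.𝔭.comap (SG G)) (W.map (rhoE G k : EG G →ₗ[ℝ] EG G)) := by
  obtain ⟨W, hWG, hW⟩ := exists_complement hHG F
  refine ⟨W.comap (SG G), fun k => ?_⟩
  have cancel : ∀ X : Matrix ι ι ℝ, k.1.valᵀ * (k.1.val * (X * k.1.valᵀ)) * k.1.val = X := by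
    intro X
    calc k.1.valᵀ * (k.1.val * (X * k.1.valᵀ)) * k.1.val
        = (k.1.valᵀ * k.1.val) * X * (k.1.valᵀ * k.1.val) := by simp only [mul_assoc]
      _ = X := by rw [K_orth k.2, one_mul, mul_one]
  -- use the complement for `k⁻¹`
  have hk' := G.K.inv_mem k.2
  obtain ⟨hW1, hW2⟩ := hW _ hk'
  rw [K_inv_val k.2, transpose_transpose] at hW1 hW2
  constructor
  · rw [Submodule.disjoint_def]
    rintro x hx ⟨y, hy, rfl⟩
    have hx' : SG G (rhoE G k y) ∈ H.𝔭 := hx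
    rw [SG_rhoE, ← mul_assoc] at hx'
    have h0 : SG G y = 0 := hW1 _ hy hx'
    have h1 : y = 0 := SG_inj G (by rw [h0, map_zero])
    rw [h1, map_zero]
  · rw [codisjoint_iff, eq_top_iff]
    intro x _
    have hX : k.1.valᵀ * SG G x * k.1.val ∈ G.𝔭 := conj_mem_p' k.2 (SG_mem G x)
    obtain ⟨w, hw, hwk⟩ := hW2 _ hX
    have hwG : w ∈ G.𝔭 := hWG hw
    have e1 : k.1.val * (k.1.valᵀ * SG G x * k.1.val - w) * k.1.valᵀ
        = SG G x - k.1.val * (w * k.1.valᵀ) := by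
      calc k.1.val * (k.1.valᵀ * SG G x * k.1.val - w) * k.1.valᵀ
          = (k.1.val * k.1.valᵀ) * SG G x * (k.1.val * k.1.valᵀ)
            - k.1.val * (w * k.1.valᵀ) := by noncomm_ring
        _ = _ := by rw [K_orth' k.2, one_mul, mul_one]
    rw [e1] at hwk
    rw [Submodule.mem_sup]
    refine ⟨x - rhoE G k (TG G w), ?_, rhoE G k (TG G w), ⟨TG G w, ?_, rfl⟩, by abel⟩
    · show SG G _ ∈ H.𝔭
      rw [map_sub, SG_rhoE, SG_TG hwG]
      exact hwk
    · show SG G (TG G w) ∈ W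
      rw [SG_TG hwG]; exact hw

/-- **The first Pontryagin obstruction**: if `(G, H)` has a local geometric fibration then the four-form `tr(ad[A₁,A₂] ad[A₃,A₄]) - ...` on `𝔭_H` vanishes. -/
theorem pontryagin (hHG : H.grp ≤ G.grp)
    (F : LocalGeometricFibration G H)
    {A B C D : Matrix ι ι ℝ} (hA : A ∈ G.𝔨) (hB : B ∈ G.𝔨) (hC : C ∈ G.𝔨) (hD : D ∈ G.𝔨)
    (hAB : ∀ X ∈ H.𝔭, (A * B - B * A) * X - X * (A * B - B * A) ∈ H.𝔭)
    (hAC : ∀ X ∈ H.𝔭, (A * C - C * A) * X - X * (A * C - C * A) ∈ H.𝔭)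
    (hAD : ∀ X ∈ H.𝔭, (A * D - D * A) * X - X * (A * D - D * A) ∈ H.𝔭)
    (hBC : ∀ X ∈ H.𝔭, (B * C - C * B) * X - X * (B * C - C * B) ∈ H.𝔭)
    (hBD : ∀ X ∈ H.𝔭, (B * D - D * B) * X - X * (B * D - D * B) ∈ H.𝔭)
    (hCD : ∀ X ∈ H.𝔭, (C * D - D * C) * X - X * (C * D - D * C) ∈ H.𝔭) :
    LinearMap.trace ℝ H.𝔭 (adH H _ hAB ∘ₗ adH H _ hCD)
      - LinearMap.trace ℝ H.𝔭 (adH H _ hAC ∘ₗ adH H _ hBD)
      + LinearMap.trace ℝ H.𝔭 (adH H _ hAD ∘ₗ adH H _ hBC) = 0 := by
  obtain ⟨W, hcompl⟩ := exists_model_compl hHG F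
  have hQ : ∀ {A B : Matrix ι ι ℝ}, A ∈ G.𝔨 → B ∈ G.𝔨 →
      (∀ X ∈ H.𝔭, (A * B - B * A) * X - X * (A * B - B * A) ∈ H.𝔭) →
      ∀ q ∈ H.𝔭.comap (SG G), br (adE G A) (adE G B) q ∈ H.𝔭.comap (SG G) := by
    intro A B hA hB hAB q hq
    show SG G _ ∈ H.𝔭
    rw [SG_br hA hB]
    exact hAB _ hq
  have key := bianchi_proj (rhoE G) (continuous_rhoE G) (H.𝔭.comap (SG G)) W
    hcompl (adE G A) (adE G B) (adE G C) (adE G D) (isGen_adE hA) (isGen_adE hB) (isGen_adE hC)
    (isGen_adE hD) (hQ hA hB hAB) (hQ hA hC hAC) (hQ hA hD hAD) (hQ hB hC hBC) (hQ hB hD hBD)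
    (hQ hC hD hCD)
  rw [trace_model hHG hcompl hA hB hC hD hAB hCD, trace_model hHG hcompl hA hC hB hD hAC hBD,
    trace_model hHG hcompl hA hD hB hC hAD hBC] at key
  exact key

/-- The trace form `tr(ad B ad B')` on `𝔭_H`. -/
noncomputable def trForm (H : LinRed ι) (B B' : Matrix ι ι ℝ) (hB : Normalises H B)
    (hB' : Normalises H B') : ℝ :=
  LinearMap.trace ℝ H.𝔭 (adH H B hB ∘ₗ adH H B' hB')

end F31343
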