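import Mathlib
import Pool.Agent.Lib_MP_f31343.General
import Pool.Agent.Lib_MP_f31343.Classical

/-!
# The trace form is negative, and pairs given by a fixed subspace
-/

open Matrix NormedSpace Filter Topology Module
open scoped Matrix.Norms.Operator ContDiff

namespace F31343

/-- A skew endomorphism of a Euclidean space has `tr a² ≤ 0`, with equality only for `a = 0`. -/
lemma trace_sq_skew {V : Type*} [AddCommGroup V] [Module ℝ V] [FiniteDimensional ℝ V]
    (B : V →ₗ[ℝ] V →ₗ[ℝ] ℝ) (hs : ∀ x y, B x y = B y x) (hp : ∀ x, x ≠ 0 → 0 < B x x)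
    (a : V →ₗ[ℝ] V) (ha : ∀ x y, B (a x) y = -B x (a y)) :
    LinearMap.trace ℝ V (a ∘ₗ a) ≤ 0 ∧ (LinearMap.trace ℝ V (a ∘ₗ a) = 0 → a = 0) := by
  let c : InnerProductSpace.Core ℝ V :=
    { inner := fun x y => B x y
      conj_inner_symm := fun x y => by
        show B y x = B x y
        exact hs y x
      re_inner_nonneg := fun x => by
        show 0 ≤ B x x
        rcases eq_or_ne x 0 with h | h
        · rw [h]; simp
        · exact (hp x h).le
      add_left := fun x y z => by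
        show B (x + y) z = B x z + B y z
        simp
      smul_left := fun x y r => by
        show B (r • x) y = r * B x y
        simp
      definite := fun x hx => by
        by_contra h
        have h1 := hp x h
        have h2 : B x x = 0 := hx
        rw [h2] at h1
        exact lt_irrefl _ h1 }
  let _ : NormedAddCommGroup V := c.toNormedAddCommGroup
  let _ : InnerProductSpace ℝ V := InnerProductSpace.ofCore c.toCore
  let b := stdOrthonormalBasis ℝ V
  have htr : LinearMap.trace ℝ V (a ∘ₗ a) = -∑ i, B (a (b i)) (a (b i)) := by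
    rw [LinearMap.trace_eq_sum_inner _ b, ← Finset.sum_neg_distrib]
    refine Finset.sum_congr rfl fun i _ => ?_
    show B (b i) (a (a (b i))) = -B (a (b i)) (a (b i))
    rw [ha (b i) (a (b i))]
    ring
  have hnn : ∀ x, 0 ≤ B x x := fun x => by
    rcases eq_or_ne x 0 with h | h
    · rw [h]; simp
    · exact (hp x h).le
  constructor
  · rw [htr]
    have : 0 ≤ ∑ i, B (a (b i)) (a (b i)) := Finset.sum_nonneg fun i _ => hnn _
    linarith
  · intro h
    rw [htr, neg_eq_zero, Finset.sum_eq_zero_iff_of_nonneg (fun i _ => hnn _)] at h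
    refine b.toBasis.ext fun i => ?_
    rw [OrthonormalBasis.coe_toBasis, LinearMap.zero_apply]
    by_contra hne
    have h1 := hp _ hne
    rw [h i (Finset.mem_univ i)] at h1
    exact lt_irrefl _ h1

variable {ι : Type*} [Fintype ι] [DecidableEq ι] {G H : LinRed ι}

/-- The trace form on `𝔭_H`. -/
noncomputable def tf (H : LinRed ι) : H.𝔭 →ₗ[ℝ] H.𝔭 →ₗ[ℝ] ℝ :=
  LinearMap.mk₂ ℝ (fun X Y => (X.1 * Y.1).trace)
    (fun X X' Y => by simp [add_mul])
    (fun c X Y => by simp)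
    (fun X Y Y' => by simp [mul_add])
    (fun c X Y => by simp)

lemma tf_apply (X Y : H.𝔭) : tf H X Y = (X.1 * Y.1).trace := rfl

lemma tf_pos (X : H.𝔭) (hX : X ≠ 0) : 0 < tf H X X := by
  have hs := H.symm X.1 X.2
  have e : tf H X X = ∑ i, ∑ j, X.1 i j * X.1 i j := by
    rw [tf_apply, Matrix.trace]
    refine Finset.sum_congr rfl fun i _ => ?_
    rw [diag_apply, mul_apply]
    refine Finset.sum_congr rfl fun j _ => ?_
    have : X.1 j i = X.1 i j := by
      have := congrFun (congrFun hs i) j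
      simpa using this
    rw [this]
  rw [e]
  rcases lt_or_eq_of_le (Finset.sum_nonneg fun i (_ : i ∈ Finset.univ) =>
    Finset.sum_nonneg fun j (_ : j ∈ Finset.univ) => mul_self_nonneg (X.1 i j)) with h | h
  · exact h
  · exfalso
    apply hX
    apply Subtype.ext
    ext i j
    have h1 := (Finset.sum_eq_zero_iff_of_nonneg (fun i _ =>
      Finset.sum_nonneg fun j (_ : j ∈ Finset.univ) => mul_self_nonneg (X.1 i j))).mp h.symm i
      (Finset.mem_univ i)
    have h2 := (Finset.sum_eq_zero_iff_of_nonneg (fun j _ => mul_self_nonneg (X.1 i j))).mp h1 j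
      (Finset.mem_univ j)
    simpa using h2

lemma adH_sq (B : Matrix ι ι ℝ) (hB : ∀ X ∈ H.𝔭, B * X - X * B ∈ H.𝔭) :
    LinearMap.trace ℝ H.𝔭 (adH H B hB ∘ₗ adH H B hB) ≤ 0 ∧
      (LinearMap.trace ℝ H.𝔭 (adH H B hB ∘ₗ adH H B hB) = 0 → adH H B hB = 0) := by
  refine trace_sq_skew (tf H) (fun X Y => ?_) tf_pos (adH H B hB) (fun X Y => ?_)
  · rw [tf_apply, tf_apply, trace_mul_comm]
  · rw [tf_apply, tf_apply, adH_coe, adH_coe, sub_mul, mul_sub, trace_sub, trace_sub]
    have h1 : (B * X.1 * Y.1).trace = (X.1 * (Y.1 * B)).trace := by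
      rw [mul_assoc, trace_mul_comm, mul_assoc]
    have h2 : (X.1 * B * Y.1).trace = (X.1 * (B * Y.1)).trace := by rw [mul_assoc]
    rw [h1, h2]
    ring

lemma adH_congr {B B' : Matrix ι ι ℝ} (hB : ∀ X ∈ H.𝔭, B * X - X * B ∈ H.𝔭)
    (hB' : ∀ X ∈ H.𝔭, B' * X - X * B' ∈ H.𝔭)
    (h : ∀ X ∈ H.𝔭, B * X - X * B = B' * X - X * B') : adH H B hB = adH H B' hB' := by
  ext X : 2
  exact h X.1 X.2

lemma adH_neg {B B' : Matrix ι ι ℝ} (hB : ∀ X ∈ H.𝔭, B * X - X * B ∈ H.𝔭)
    (hB' : ∀ X ∈ H.𝔭, B' * X - X * B' ∈ H.𝔭)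
    (h : ∀ X ∈ H.𝔭, B * X - X * B = -(B' * X - X * B')) : adH H B hB = -adH H B' hB' := by
  ext X : 2
  exact h X.1 X.2

lemma adH_zero {B : Matrix ι ι ℝ} (hB : ∀ X ∈ H.𝔭, B * X - X * B ∈ H.𝔭)
    (h : ∀ X ∈ H.𝔭, B * X - X * B = 0) : adH H B hB = 0 := by
  ext X : 2
  exact h X.1 X.2

lemma of_adH_zero {B : Matrix ι ι ℝ} {hB : ∀ X ∈ H.𝔭, B * X - X * B ∈ H.𝔭}
    (h : adH H B hB = 0) {X : Matrix ι ι ℝ} (hX : X ∈ H.𝔭) : B * X - X * B = 0 := by
  have := congrArg (fun f : H.𝔭 →ₗ[ℝ] H.𝔭 => ((f ⟨X, hX⟩ : H.𝔭) : Matrix ι ι ℝ)) h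
  exact this

/-! ### Pairs given by a fixed subspace -/

/-- `H` is the subgroup of the elements of `G` which act trivially on the image of the symmetric
matrix `P` (and preserve its kernel). -/
def IsFix (G H : LinRed ι) (P : Matrix ι ι ℝ) : Prop :=
  Pᵀ = P ∧ ∀ g : GL ι ℝ, g ∈ H.grp ↔ g ∈ G.grp ∧ g.val * P = P ∧ P * g.val = P

variable {P : Matrix ι ι ℝ}

lemma IsFix.le (h : IsFix G H P) : H.grp ≤ G.grp := fun g hg => ((h.2 g).mp hg).1

lemma IsFix.mem_p (h : IsFix G H P) {X : Matrix ι ι ℝ} : X ∈ H.𝔭 ↔ X ∈ G.𝔭 ∧ X * P = 0 := by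
  constructor
  · intro hX
    refine ⟨p_mono h.le hX, ?_⟩
    have h1 := ((h.2 _).mp (expU_mem hX)).2.1
    rw [expU_val] at h1
    have h2 := (exp_intertwine X 0 P (H.symm X hX) transpose_zero).mp (by
      rw [h1, exp_zero, mul_one])
    rw [h2, mul_zero]
  · rintro ⟨hX, hXP⟩
    have hs := G.symm X hX
    refine mem_p_of_exp_mem hs ((h.2 _).mpr ⟨expU_mem hX, ?_, ?_⟩)
    · have h2 := (exp_intertwine X 0 P hs transpose_zero).mpr (by rw [hXP, mul_zero])
      rwa [exp_zero, mul_one] at h2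
    · have hPX : P * X = 0 := by
        have := congrArg transpose hXP
        rwa [transpose_mul, hs, h.1, transpose_zero] at this
      have h2 := (exp_intertwine 0 X P transpose_zero hs).mpr (by rw [hPX, zero_mul])
      rw [exp_zero, one_mul] at h2
      exact h2.symm

lemma IsFix.P_mul (h : IsFix G H P) {X : Matrix ι ι ℝ} (hX : X ∈ H.𝔭) : P * X = 0 := by
  have h1 := (h.mem_p.mp hX).2
  have := congrArg transpose h1
  rwa [transpose_mul, H.symm X hX, h.1, transpose_zero] at this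

lemma IsFix.mul_P (h : IsFix G H P) {X : Matrix ι ι ℝ} (hX : X ∈ H.𝔭) : X * P = 0 :=
  (h.mem_p.mp hX).2

/-- Off-diagonal elements have brackets which normalise `𝔭_H`. -/
lemma IsFix.bracket (h : IsFix G H P) {A B : Matrix ι ι ℝ} (hA : A ∈ G.𝔨) (hB : B ∈ G.𝔨)
    (hA' : A * P + P * A = A) (hB' : B * P + P * B = B) :
    ∀ X ∈ H.𝔭, (A * B - B * A) * X - X * (A * B - B * A) ∈ H.𝔭 := by
  intro X hX
  have hXG := p_mono h.le hX
  rw [h.mem_p]
  constructor
  · have e : (A * B - B * A) * X - X * (A * B - B * A)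
        = (A * (B * X - X * B) - (B * X - X * B) * A)
          - (B * (A * X - X * A) - (A * X - X * A) * B) := by noncomm_ring
    rw [e]
    exact G.𝔭.sub_mem (ad_mem_p hA (ad_mem_p hB hXG)) (ad_mem_p hB (ad_mem_p hA hXG))
  · have hc : ∀ A B : Matrix ι ι ℝ, A * P + P * A = A → B * P + P * B = B →
        A * B * P = P * (A * B) := by
      intro A B hA' hB'
      have h1 : B * P = B - P * B := eq_sub_of_add_eq hB'
      have h2 : P * A = A - A * P := by rw [eq_sub_iff_add_eq, add_comm]; exact hA'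
      rw [mul_assoc, h1, ← mul_assoc, h2, mul_sub, sub_mul, mul_assoc]
    have h3 : (A * B - B * A) * P = P * (A * B - B * A) := by
      rw [sub_mul, mul_sub, hc A B hA' hB', hc B A hB' hA']
    rw [sub_mul, mul_assoc, mul_assoc, h3, h.mul_P hX, mul_zero, ← mul_assoc, h.mul_P hX,
      zero_mul, sub_zero]

lemma IsFix.ad_zero (h : IsFix G H P) {B : Matrix ι ι ℝ} (h1 : B * P = B) (h2 : P * B = B) :
    ∀ X ∈ H.𝔭, B * X - X * B = 0 := by
  intro X hX
  have e1 : B * X = 0 := by rw [← h1, mul_assoc, h.P_mul hX, mul_zero]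
  have e2 : X * B = 0 := by rw [← h2, ← mul_assoc, h.mul_P hX, zero_mul]
  rw [e1, e2, sub_zero]

/-- The Pontryagin obstruction for off-diagonal elements. -/
theorem IsFix.pontryagin (h : IsFix G H P)
    (F : LocalGeometricFibration G H)
    {A B C D : Matrix ι ι ℝ} (hA : A ∈ G.𝔨) (hB : B ∈ G.𝔨) (hC : C ∈ G.𝔨) (hD : D ∈ G.𝔨)
    (hA' : A * P + P * A = A) (hB' : B * P + P * B = B) (hC' : C * P + P * C = C)
    (hD' : D * P + P * D = D) :
    LinearMap.trace ℝ H.𝔭 (adH H _ (h.bracket hA hB hA' hB') ∘ₗ adH H _ (h.bracket hC hD hC' hD'))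
    - LinearMap.trace ℝ H.𝔭 (adH H _ (h.bracket hA hC hA' hC')
      ∘ₗ adH H _ (h.bracket hB hD hB' hD'))
    + LinearMap.trace ℝ H.𝔭 (adH H _ (h.bracket hA hD hA' hD')
      ∘ₗ adH H _ (h.bracket hB hC hB' hC')) = 0 :=
  F31343.pontryagin h.le F hA hB hC hD _ _ _ _ _ _

end F31343
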