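import Mathlib
import Pool.Agent.Lib_MP_f31343.Trace

/-!
# The block theorem
-/

open Matrix NormedSpace Filter Topology Module
open scoped Matrix.Norms.Operator ContDiff Kronecker

namespace F31343

variable {α σ : Type*} [Fintype α] [DecidableEq α] [Fintype σ] [DecidableEq σ]

/-- The block matrix with the single block `M` in position `(x, y)`. -/
def blk (x y : α) (M : Matrix σ σ ℝ) : Matrix (α × σ) (α × σ) ℝ := single x y (1 : ℝ) ⊗ₖ M

/-- The infinitesimal rotation in the plane of the blocks `x` and `y`. -/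
def rot (x y : α) : Matrix (α × σ) (α × σ) ℝ := blk x y 1 - blk y x 1

/-- The projection onto the blocks in `R`. -/
def proj (R : Finset α) : Matrix (α × σ) (α × σ) ℝ :=
  diagonal fun i => if i.1 ∈ R then 1 else 0

omit [Fintype α] [Fintype σ] [DecidableEq σ] in
lemma blk_apply (x y : α) (M : Matrix σ σ ℝ) (i j : α × σ) :
    blk x y M i j = if x = i.1 ∧ y = j.1 then M i.2 j.2 else 0 := by
  unfold blk
  rw [kroneckerMap_apply, single_apply]
  by_cases h : x = i.1 ∧ y = j.1
  · rw [if_pos h, if_pos h, one_mul]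
  · rw [if_neg h, if_neg h, zero_mul]

omit [DecidableEq σ] in
lemma blk_mul (x y z w : α) (M N : Matrix σ σ ℝ) :
    blk x y M * blk z w N = if y = z then blk x w (M * N) else 0 := by
  unfold blk
  rw [← mul_kronecker_mul]
  by_cases h : y = z
  · subst h
    rw [if_pos rfl, single_mul_single_same, one_mul]
  · rw [if_neg h, single_mul_single_of_ne _ _ _ _ h, zero_kronecker]

omit [Fintype α] [Fintype σ] [DecidableEq σ] in
lemma blk_neg (x y : α) (M : Matrix σ σ ℝ) : blk x y (-M) = -blk x y M := by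
  ext i j
  rw [Matrix.neg_apply, blk_apply, blk_apply]
  by_cases h : x = i.1 ∧ y = j.1
  · rw [if_pos h, if_pos h, Matrix.neg_apply]
  · rw [if_neg h, if_neg h, neg_zero]

lemma tr_comp_neg {V : Type*} [AddCommGroup V] [Module ℝ V] (f g : V →ₗ[ℝ] V) :
    LinearMap.trace ℝ V (f ∘ₗ (-g)) = -LinearMap.trace ℝ V (f ∘ₗ g) := by
  rw [LinearMap.comp_neg, map_neg]

lemma tr_neg_comp {V : Type*} [AddCommGroup V] [Module ℝ V] (f g : V →ₗ[ℝ] V) :
    LinearMap.trace ℝ V ((-f) ∘ₗ g) = -LinearMap.trace ℝ V (f ∘ₗ g) := by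
  rw [LinearMap.neg_comp, map_neg]

omit [Fintype α] [Fintype σ] [DecidableEq σ] in
lemma blk_transpose (x y : α) (M : Matrix σ σ ℝ) : (blk x y M)ᵀ = blk y x Mᵀ := by
  ext i j
  rw [transpose_apply, blk_apply, blk_apply]
  by_cases h : x = j.1 ∧ y = i.1
  · rw [if_pos h, if_pos h.symm, transpose_apply]
  · rw [if_neg h, if_neg (fun h' => h h'.symm)]

lemma blk_mul_diag (x y : α) (M : Matrix σ σ ℝ) (ε : α → ℝ) :
    blk x y M * diagonal (fun i : α × σ => ε i.1) = ε y • blk x y M := by
  ext i j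
  rw [mul_diagonal, Matrix.smul_apply, blk_apply]
  by_cases h : x = i.1 ∧ y = j.1
  · rw [if_pos h, ← h.2, smul_eq_mul, mul_comm]
  · rw [if_neg h, zero_mul, smul_zero]

lemma diag_mul_blk (x y : α) (M : Matrix σ σ ℝ) (ε : α → ℝ) :
    diagonal (fun i : α × σ => ε i.1) * blk x y M = ε x • blk x y M := by
  ext i j
  rw [diagonal_mul, Matrix.smul_apply, blk_apply]
  by_cases h : x = i.1 ∧ y = j.1
  · rw [if_pos h, ← h.1, smul_eq_mul]
  · rw [if_neg h, mul_zero, smul_zero]

lemma blk_mul_proj (x y : α) (M : Matrix σ σ ℝ) (R : Finset α) :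
    blk x y M * proj R = if y ∈ R then blk x y M else 0 := by
  unfold proj
  rw [blk_mul_diag x y M (fun x => if x ∈ R then 1 else 0)]
  by_cases h : y ∈ R
  · simp [h]
  · simp [h]

lemma proj_mul_blk (x y : α) (M : Matrix σ σ ℝ) (R : Finset α) :
    proj R * blk x y M = if x ∈ R then blk x y M else 0 := by
  unfold proj
  rw [diag_mul_blk x y M (fun x => if x ∈ R then 1 else 0)]
  by_cases h : x ∈ R
  · simp [h]
  · simp [h]

omit [Fintype α] [DecidableEq σ] in
lemma blk_mul_one_kron [Fintype α] (x y : α) (M j : Matrix σ σ ℝ) :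
    blk x y M * ((1 : Matrix α α ℝ) ⊗ₖ j) = blk x y (M * j) := by
  unfold blk
  rw [← mul_kronecker_mul, mul_one]

omit [DecidableEq σ] in
lemma one_kron_mul_blk (x y : α) (M j : Matrix σ σ ℝ) :
    ((1 : Matrix α α ℝ) ⊗ₖ j) * blk x y M = blk x y (j * M) := by
  unfold blk
  rw [← mul_kronecker_mul, one_mul]

omit [Fintype α] [Fintype σ] in
lemma proj_transpose (R : Finset α) : (proj R : Matrix (α × σ) (α × σ) ℝ)ᵀ = proj R :=
  diagonal_transpose _

/-- **The block theorem.** -/
theorem block {G H : LinRed (α × σ)} {R : Finset α} (h : IsFix G H (proj R))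
    {a b c d : α} (hab : a ≠ b) (ha : a ∉ R) (hb : b ∉ R)
    (hcd : c ≠ d) (hc : c ∈ R) (hd : d ∈ R)
    (hac : rot a c ∈ G.𝔨) (had : rot a d ∈ G.𝔨) (hbc : rot b c ∈ G.𝔨) (hbd : rot b d ∈ G.𝔨)
    {X : Matrix (α × σ) (α × σ) ℝ} (hX : X ∈ H.𝔭) (hne : rot a b * X ≠ X * rot a b) :
    IsEmpty (LocalGeometricFibration G H) := by
  refine ⟨fun F => ?_⟩
  have nac : a ≠ c := fun e => ha (e ▸ hc)
  have nad : a ≠ d := fun e => ha (e ▸ hd)
  have nbc : b ≠ c := fun e => hb (e ▸ hc)
  have nbd : b ≠ d := fun e => hb (e ▸ hd)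
  have off : ∀ x y : α, x ∉ R → y ∈ R →
      (rot x y : Matrix (α × σ) (α × σ) ℝ) * proj R + proj R * rot x y = rot x y := by
    intro x y hx hy
    simp only [rot, sub_mul, mul_sub, blk_mul_proj, proj_mul_blk, hx, hy, if_true, if_false]
    abel
  have e12 : (rot a c : Matrix (α × σ) (α × σ) ℝ) * rot a d - rot a d * rot a c = -rot c d := by
    simp only [rot, sub_mul, mul_sub, blk_mul, nac, nad, nac.symm, nad.symm, hcd, hcd.symm,
      if_true, if_false, mul_one]
    abel
  have e34 : (rot b c : Matrix (α × σ) (α × σ) ℝ) * rot b d - rot b d * rot b c = -rot c d := by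
    simp only [rot, sub_mul, mul_sub, blk_mul, nbc, nbd, nbc.symm, nbd.symm, hcd, hcd.symm,
      if_true, if_false, mul_one]
    abel
  have e13 : (rot a c : Matrix (α × σ) (α × σ) ℝ) * rot b c - rot b c * rot a c = -rot a b := by
    simp only [rot, sub_mul, mul_sub, blk_mul, nac, nbc, nac.symm, nbc.symm, hab, hab.symm,
      if_true, if_false, mul_one]
    abel
  have e24 : (rot a d : Matrix (α × σ) (α × σ) ℝ) * rot b d - rot b d * rot a d = -rot a b := by
    simp only [rot, sub_mul, mul_sub, blk_mul, nad, nbd, nad.symm, nbd.symm, hab, hab.symm,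
      if_true, if_false, mul_one]
    abel
  have e14 : (rot a c : Matrix (α × σ) (α × σ) ℝ) * rot b d - rot b d * rot a c = 0 := by
    simp only [rot, sub_mul, mul_sub, blk_mul, nbc, nad, nbc.symm, nad.symm,
      hab, hab.symm, hcd, hcd.symm, if_false]
    abel
  have key := h.pontryagin F hac had hbc hbd (off a c ha hc) (off a d ha hd)
    (off b c hb hc) (off b d hb hd)
  have z12 : adH H _ (h.bracket hac had (off a c ha hc) (off a d ha hd)) = 0 := by
    refine adH_zero _ ?_
    rw [e12]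
    refine h.ad_zero ?_ ?_
    · simp only [rot, neg_mul, sub_mul, blk_mul_proj, hc, hd, if_true]
    · simp only [rot, mul_neg, mul_sub, proj_mul_blk, hc, hd, if_true]
  have z14 : adH H _ (h.bracket hac hbd (off a c ha hc) (off b d hb hd)) = 0 := by
    refine adH_zero _ ?_
    rw [e14]
    intro X _
    rw [zero_mul, mul_zero, sub_zero]
  have c24 : adH H _ (h.bracket had hbd (off a d ha hd) (off b d hb hd))
      = adH H _ (h.bracket hac hbc (off a c ha hc) (off b c hb hc)) := by
    refine adH_congr _ _ ?_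
    intro X _
    rw [e24, e13]
  rw [z12, z14, c24, LinearMap.zero_comp, LinearMap.zero_comp, map_zero, add_zero, zero_sub,
    neg_eq_zero] at key
  have h0 := of_adH_zero ((adH_sq _ _).2 key) hX
  rw [e13, neg_mul, mul_neg] at h0
  apply hne
  have : rot a b * X - X * rot a b = 0 := by
    have e : rot a b * X - X * rot a b = -(-(rot a b * X) - -(X * rot a b)) := by abel
    rw [e, h0, neg_zero]
  exact sub_eq_zero.mp this

/-! ### Units of the coefficient algebra -/

/-- The symmetric block matrix with blocks `u` in positions `(x, y)` and `(y, x)`. -/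
def tot (x y : α) (u : Matrix σ σ ℝ) : Matrix (α × σ) (α × σ) ℝ := blk x y u + blk y x u

lemma off_tot {R : Finset α} {x y : α} (u : Matrix σ σ ℝ) (hx : x ∉ R) (hy : y ∈ R) :
    tot x y u * proj R + proj R * tot x y u = tot x y u := by
  simp only [tot, add_mul, mul_add, blk_mul_proj, proj_mul_blk, hx, hy, if_true, if_false]
  abel

lemma off_rot {R : Finset α} {x y : α} (hx : x ∉ R) (hy : y ∈ R) :
    (rot x y : Matrix (α × σ) (α × σ) ℝ) * proj R + proj R * rot x y = rot x y := by
  simp only [rot, sub_mul, mul_sub, blk_mul_proj, proj_mul_blk, hx, hy, if_true, if_false]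
  abel

/-- `blk c c u` with `c ∈ R` commutes with `𝔭_H`. -/
lemma IsFix.ad_blk {G H : LinRed (α × σ)} {R : Finset α} (h : IsFix G H (proj R)) {c d : α}
    (hc : c ∈ R) (hd : d ∈ R) (u : Matrix σ σ ℝ) :
    ∀ X ∈ H.𝔭, blk c d u * X - X * blk c d u = 0 := by
  refine h.ad_zero ?_ ?_
  · rw [blk_mul_proj, if_pos hd]
  · rw [proj_mul_blk, if_pos hc]

/-- The complex case with two blocks outside `R`. -/
theorem blockC1 {G H : LinRed (α × σ)} {R : Finset α} (h : IsFix G H (proj R))
    {a b c : α} (hab : a ≠ b) (ha : a ∉ R) (hb : b ∉ R)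
    (hc : c ∈ R) {u : Matrix σ σ ℝ} (hu : u * u = -1)
    (hac : rot a c ∈ G.𝔨) (hac' : tot a c u ∈ G.𝔨) (hbc : rot b c ∈ G.𝔨)
    (hbc' : tot b c u ∈ G.𝔨)
    (hz : ∀ X ∈ H.𝔭, (X * blk a a u * X * blk b b u).trace ≤ 0)
    {X : Matrix (α × σ) (α × σ) ℝ} (hX : X ∈ H.𝔭) (hne : rot a b * X ≠ X * rot a b) :
    IsEmpty (LocalGeometricFibration G H) := by
  refine ⟨fun F => ?_⟩
  have nac : a ≠ c := fun e => ha (e ▸ hc)
  have nbc : b ≠ c := fun e => hb (e ▸ hc)
  have e12 : rot a c * tot a c u - tot a c u * rot a c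
      = (2 : ℝ) • blk a a u - (2 : ℝ) • blk c c u := by
    simp only [rot, tot, sub_mul, mul_sub, add_mul, mul_add, blk_mul, nac, nac.symm,
      if_true, if_false, mul_one, one_mul, two_smul]
    abel
  have e34 : rot b c * tot b c u - tot b c u * rot b c
      = (2 : ℝ) • blk b b u - (2 : ℝ) • blk c c u := by
    simp only [rot, tot, sub_mul, mul_sub, add_mul, mul_add, blk_mul, nbc, nbc.symm,
      if_true, if_false, mul_one, one_mul, two_smul]
    abel
  have e13 : (rot a c : Matrix (α × σ) (α × σ) ℝ) * rot b c - rot b c * rot a c = -rot a b := by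
    simp only [rot, sub_mul, mul_sub, blk_mul, nac, nbc, nac.symm, nbc.symm, hab, hab.symm,
      if_true, if_false, mul_one]
    abel
  have bneg : ∀ x y : α, blk x y (-1 : Matrix σ σ ℝ) = -blk x y 1 := fun x y => blk_neg x y 1
  have e24 : tot a c u * tot b c u - tot b c u * tot a c u = -rot a b := by
    simp only [rot, tot, add_mul, mul_add, blk_mul, nac, nbc, nac.symm, nbc.symm, hab, hab.symm,
      if_true, if_false, hu, bneg]
    abel
  have e14 : rot a c * tot b c u - tot b c u * rot a c = tot a b u := by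
    simp only [rot, tot, sub_mul, mul_sub, add_mul, mul_add, blk_mul, nac, nbc, nac.symm, nbc.symm,
      hab, hab.symm, if_true, if_false, mul_one, one_mul]
    abel
  have e23 : tot a c u * rot b c - rot b c * tot a c u = -tot a b u := by
    simp only [rot, tot, sub_mul, mul_sub, add_mul, mul_add, blk_mul, nac, nbc, nac.symm, nbc.symm,
      hab, hab.symm, if_true, if_false, mul_one, one_mul]
    abel
  have key := h.pontryagin F hac hac' hbc hbc' (off_rot ha hc) (off_tot u ha hc)
    (off_rot hb hc) (off_tot u hb hc)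
  have z1234 : 0 ≤ LinearMap.trace ℝ H.𝔭 (adH H _ (h.bracket hac hac' (off_rot ha hc)
      (off_tot u ha hc)) ∘ₗ adH H _ (h.bracket hbc hbc' (off_rot hb hc) (off_tot u hb hc))) := by
    obtain ⟨N, e, -, htr⟩ := exists_onb (tf H)
      (fun X Y => by rw [tf_apply, tf_apply, trace_mul_comm]) tf_pos
    rw [htr]
    refine Finset.sum_nonneg fun i _ => ?_
    generalize e i = Y
    have hY := (adH H _ (h.bracket hbc hbc' (off_rot hb hc) (off_tot u hb hc)) Y).2
    rw [tf_apply, LinearMap.comp_apply, adH_coe]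
    have c1 := h.ad_blk hc hc u _ hY
    rw [adH_coe, e34] at c1 ⊢
    rw [e12]
    have c2 := h.ad_blk hc hc u _ Y.2
    have c3 : ((2 : ℝ) • blk b b u - (2 : ℝ) • blk c c u) * Y.1
        - Y.1 * ((2 : ℝ) • blk b b u - (2 : ℝ) • blk c c u)
        = (2 : ℝ) • (blk b b u * Y.1 - Y.1 * blk b b u)
          - (2 : ℝ) • (blk c c u * Y.1 - Y.1 * blk c c u) := by
      simp only [sub_mul, mul_sub, smul_mul_assoc, mul_smul_comm, smul_sub]
      abel
    rw [c3, c2, smul_zero, sub_zero] at c1 ⊢
    have c4 : ((2 : ℝ) • blk a a u - (2 : ℝ) • blk c c u)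
          * ((2 : ℝ) • (blk b b u * Y.1 - Y.1 * blk b b u))
        - ((2 : ℝ) • (blk b b u * Y.1 - Y.1 * blk b b u))
          * ((2 : ℝ) • blk a a u - (2 : ℝ) • blk c c u)
        = (4 : ℝ) • ((blk a a u * blk b b u) * Y.1 - blk a a u * Y.1 * blk b b u
            - blk b b u * Y.1 * blk a a u + Y.1 * (blk b b u * blk a a u))
          - (2 : ℝ) • (blk c c u * ((2 : ℝ) • (blk b b u * Y.1 - Y.1 * blk b b u))
            - ((2 : ℝ) • (blk b b u * Y.1 - Y.1 * blk b b u)) * blk c c u) := by
      simp only [sub_mul, mul_sub, smul_mul_assoc, mul_smul_comm, smul_sub, smul_add, smul_smul,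
        mul_assoc]
      norm_num
      abel
    rw [c4, c1, blk_mul, blk_mul, if_neg hab, if_neg hab.symm]
    have h5 := hz Y.1 Y.2
    have e5 : (Y.1 * (blk b b u * Y.1 * blk a a u)).trace
        = (Y.1 * blk a a u * Y.1 * blk b b u).trace := by
      calc (Y.1 * (blk b b u * Y.1 * blk a a u)).trace
          = ((Y.1 * blk b b u) * (Y.1 * blk a a u)).trace := by simp only [mul_assoc]
        _ = ((Y.1 * blk a a u) * (Y.1 * blk b b u)).trace := trace_mul_comm _ _
        _ = _ := by simp only [mul_assoc]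
    have e6 : (Y.1 * (blk a a u * Y.1 * blk b b u)).trace
        = (Y.1 * blk a a u * Y.1 * blk b b u).trace := by simp only [mul_assoc]
    have e7 : (Y.1 * ((4 : ℝ) • ((0 : Matrix (α × σ) (α × σ) ℝ) * Y.1 - blk a a u * Y.1 * blk b b u
          - blk b b u * Y.1 * blk a a u + Y.1 * 0) - (2 : ℝ) • (0 : Matrix (α × σ) (α × σ) ℝ))).trace
        = -8 * (Y.1 * blk a a u * Y.1 * blk b b u).trace := by
      rw [zero_mul, mul_zero, smul_zero, sub_zero, add_zero, zero_sub, mul_smul_comm, trace_smul,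
        mul_sub, trace_sub, mul_neg, trace_neg, e5, e6, smul_eq_mul]
      ring
    rw [e7]
    linarith
  have c24 : adH H _ (h.bracket hac' hbc' (off_tot u ha hc) (off_tot u hb hc))
      = adH H _ (h.bracket hac hbc (off_rot ha hc) (off_rot hb hc)) := by
    refine adH_congr _ _ ?_
    intro X _
    rw [e24, e13]
  have c23 : adH H _ (h.bracket hac' hbc (off_tot u ha hc) (off_rot hb hc))
      = -adH H _ (h.bracket hac hbc' (off_rot ha hc) (off_tot u hb hc)) := by
    refine adH_neg _ _ ?_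
    intro X _
    rw [e23, e14]
    noncomm_ring
  rw [c24, c23, tr_comp_neg] at key
  have n1 := (adH_sq (H := H) _ (h.bracket hac hbc (off_rot ha hc) (off_rot hb hc))).1
  have n2 := (adH_sq (H := H) _ (h.bracket hac hbc' (off_rot ha hc) (off_tot u hb hc))).1
  have key' : LinearMap.trace ℝ H.𝔭 (adH H _ (h.bracket hac hbc (off_rot ha hc) (off_rot hb hc))
      ∘ₗ adH H _ (h.bracket hac hbc (off_rot ha hc) (off_rot hb hc))) = 0 := by linarith
  have h0 := of_adH_zero ((adH_sq _ _).2 key') hX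
  rw [e13, neg_mul, mul_neg] at h0
  apply hne
  have : rot a b * X - X * rot a b = 0 := by
    have e : rot a b * X - X * rot a b = -(-(rot a b * X) - -(X * rot a b)) := by abel
    rw [e, h0, neg_zero]
  exact sub_eq_zero.mp this

/-- The complex case with two blocks inside `R`. -/
theorem blockC2 {G H : LinRed (α × σ)} {R : Finset α} (h : IsFix G H (proj R))
    {a c d : α} (ha : a ∉ R) (hcd : c ≠ d)
    (hc : c ∈ R) (hd : d ∈ R) {u : Matrix σ σ ℝ}
    (hac : rot a c ∈ G.𝔨) (hac' : tot a c u ∈ G.𝔨) (had : rot a d ∈ G.𝔨)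
    (had' : tot a d u ∈ G.𝔨)
    {X : Matrix (α × σ) (α × σ) ℝ} (hX : X ∈ H.𝔭) (hne : blk a a u * X ≠ X * blk a a u) :
    IsEmpty (LocalGeometricFibration G H) := by
  refine ⟨fun F => ?_⟩
  have nac : a ≠ c := fun e => ha (e ▸ hc)
  have nad : a ≠ d := fun e => ha (e ▸ hd)
  have e12 : rot a c * tot a c u - tot a c u * rot a c
      = (2 : ℝ) • blk a a u - (2 : ℝ) • blk c c u := by
    simp only [rot, tot, sub_mul, mul_sub, add_mul, mul_add, blk_mul, nac, nac.symm,
      if_true, if_false, mul_one, one_mul, two_smul]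
    abel
  have e34 : rot a d * tot a d u - tot a d u * rot a d
      = (2 : ℝ) • blk a a u - (2 : ℝ) • blk d d u := by
    simp only [rot, tot, sub_mul, mul_sub, add_mul, mul_add, blk_mul, nad, nad.symm,
      if_true, if_false, mul_one, one_mul, two_smul]
    abel
  have e13 : (rot a c : Matrix (α × σ) (α × σ) ℝ) * rot a d - rot a d * rot a c
      = -(blk c d 1 - blk d c 1) := by
    simp only [rot, sub_mul, mul_sub, blk_mul, nac, nad, nac.symm, nad.symm, hcd, hcd.symm,
      if_true, if_false, mul_one]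
    abel
  have e14 : rot a c * tot a d u - tot a d u * rot a c = -(blk c d u + blk d c u) := by
    simp only [rot, tot, sub_mul, mul_sub, add_mul, mul_add, blk_mul, nac, nad, nac.symm, nad.symm,
      hcd, hcd.symm, if_true, if_false, mul_one, one_mul]
    abel
  have key := h.pontryagin F hac hac' had had' (off_rot ha hc) (off_tot u ha hc)
    (off_rot ha hd) (off_tot u ha hd)
  have z13 : adH H _ (h.bracket hac had (off_rot ha hc) (off_rot ha hd)) = 0 := by
    refine adH_zero _ ?_
    rw [e13]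
    refine h.ad_zero ?_ ?_
    · simp only [neg_mul, sub_mul, blk_mul_proj, hc, hd, if_true]
    · simp only [mul_neg, mul_sub, proj_mul_blk, hc, hd, if_true]
  have z14 : adH H _ (h.bracket hac had' (off_rot ha hc) (off_tot u ha hd)) = 0 := by
    refine adH_zero _ ?_
    rw [e14]
    refine h.ad_zero ?_ ?_
    · simp only [neg_mul, add_mul, blk_mul_proj, hc, hd, if_true]
    · simp only [mul_neg, mul_add, proj_mul_blk, hc, hd, if_true]
  have red : ∀ e ∈ R, ∀ Y ∈ H.𝔭, ((2 : ℝ) • blk a a u - (2 : ℝ) • blk e e u) * Y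
        - Y * ((2 : ℝ) • blk a a u - (2 : ℝ) • blk e e u)
        = (2 : ℝ) • (blk a a u * Y - Y * blk a a u) := by
    intro e he Y hY
    have c3 : ((2 : ℝ) • blk a a u - (2 : ℝ) • blk e e u) * Y
        - Y * ((2 : ℝ) • blk a a u - (2 : ℝ) • blk e e u)
        = (2 : ℝ) • (blk a a u * Y - Y * blk a a u)
          - (2 : ℝ) • (blk e e u * Y - Y * blk e e u) := by
      simp only [sub_mul, mul_sub, smul_mul_assoc, mul_smul_comm, smul_sub]
      abel
    rw [c3, h.ad_blk he he u _ hY, smul_zero, sub_zero]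
  have c34 : adH H _ (h.bracket had had' (off_rot ha hd) (off_tot u ha hd))
      = adH H _ (h.bracket hac hac' (off_rot ha hc) (off_tot u ha hc)) := by
    refine adH_congr _ _ ?_
    intro Y hY
    rw [e34, e12, red d hd Y hY, red c hc Y hY]
  rw [z13, z14, c34, LinearMap.zero_comp, LinearMap.zero_comp, map_zero, add_zero, sub_zero] at key
  have h0 := of_adH_zero ((adH_sq _ _).2 key) hX
  rw [e12, red c hc X hX] at h0
  apply hne
  exact sub_eq_zero.mp ((smul_eq_zero.mp h0).resolve_left (by norm_num))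

/-- The quaternionic case. -/
theorem blockH {G H : LinRed (α × σ)} {R : Finset α} (h : IsFix G H (proj R))
    {a c : α} (ha : a ∉ R) (hc : c ∈ R)
    {u v w : Matrix σ σ ℝ} (huv : u * v = w) (hvu : v * u = -w) (hvw : v * w = u)
    (hwv : w * v = -u) (hwu : w * u = v) (huw : u * w = -v)
    (hac : rot a c ∈ G.𝔨) (hu : tot a c u ∈ G.𝔨) (hv : tot a c v ∈ G.𝔨)
    (hw : tot a c w ∈ G.𝔨)
    {X : Matrix (α × σ) (α × σ) ℝ} (hX : X ∈ H.𝔭) (hne : blk a a u * X ≠ X * blk a a u) :
    IsEmpty (LocalGeometricFibration G H) := by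
  refine ⟨fun F => ?_⟩
  have nac : a ≠ c := fun e => ha (e ▸ hc)
  have bneg : ∀ (x y : α) (M : Matrix σ σ ℝ), blk x y (-M) = -blk x y M := blk_neg
  have eR : ∀ z : Matrix σ σ ℝ, rot a c * tot a c z - tot a c z * rot a c
      = (2 : ℝ) • blk a a z - (2 : ℝ) • blk c c z := by
    intro z
    simp only [rot, tot, sub_mul, mul_sub, add_mul, mul_add, blk_mul, nac, nac.symm,
      if_true, if_false, mul_one, one_mul, two_smul]
    abel
  have eT : ∀ z z' z'' : Matrix σ σ ℝ, z * z' = z'' → z' * z = -z'' →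
      tot a c z * tot a c z' - tot a c z' * tot a c z
      = (2 : ℝ) • blk a a z'' + (2 : ℝ) • blk c c z'' := by
    intro z z' z'' h1 h2
    simp only [tot, add_mul, mul_add, blk_mul, nac, nac.symm,
      if_true, if_false, h1, h2, bneg, two_smul]
    abel
  have redm : ∀ z : Matrix σ σ ℝ, ∀ Y ∈ H.𝔭, ((2 : ℝ) • blk a a z - (2 : ℝ) • blk c c z) * Y
        - Y * ((2 : ℝ) • blk a a z - (2 : ℝ) • blk c c z)
        = (2 : ℝ) • (blk a a z * Y - Y * blk a a z) := by
    intro z Y hY
    have c3 : ((2 : ℝ) • blk a a z - (2 : ℝ) • blk c c z) * Y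
        - Y * ((2 : ℝ) • blk a a z - (2 : ℝ) • blk c c z)
        = (2 : ℝ) • (blk a a z * Y - Y * blk a a z)
          - (2 : ℝ) • (blk c c z * Y - Y * blk c c z) := by
      simp only [sub_mul, mul_sub, smul_mul_assoc, mul_smul_comm, smul_sub]
      abel
    rw [c3, h.ad_blk hc hc z _ hY, smul_zero, sub_zero]
  have redp : ∀ z : Matrix σ σ ℝ, ∀ Y ∈ H.𝔭, ((2 : ℝ) • blk a a z + (2 : ℝ) • blk c c z) * Y
        - Y * ((2 : ℝ) • blk a a z + (2 : ℝ) • blk c c z)
        = (2 : ℝ) • (blk a a z * Y - Y * blk a a z) := by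
    intro z Y hY
    have c3 : ((2 : ℝ) • blk a a z + (2 : ℝ) • blk c c z) * Y
        - Y * ((2 : ℝ) • blk a a z + (2 : ℝ) • blk c c z)
        = (2 : ℝ) • (blk a a z * Y - Y * blk a a z)
          + (2 : ℝ) • (blk c c z * Y - Y * blk c c z) := by
      simp only [add_mul, mul_add, smul_mul_assoc, mul_smul_comm, smul_sub]
      abel
    rw [c3, h.ad_blk hc hc z _ hY, smul_zero, add_zero]
  have key := h.pontryagin F hac hu hv hw (off_rot ha hc) (off_tot u ha hc)
    (off_tot v ha hc) (off_tot w ha hc)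
  have c34 : adH H _ (h.bracket hv hw (off_tot v ha hc) (off_tot w ha hc))
      = adH H _ (h.bracket hac hu (off_rot ha hc) (off_tot u ha hc)) := by
    refine adH_congr _ _ ?_
    intro Y hY
    rw [eR, eT v w u hvw hwv, redm u Y hY, redp u Y hY]
  have c24 : adH H _ (h.bracket hu hw (off_tot u ha hc) (off_tot w ha hc))
      = -adH H _ (h.bracket hac hv (off_rot ha hc) (off_tot v ha hc)) := by
    refine adH_neg _ _ ?_
    intro Y hY
    have h1 : tot a c u * tot a c w - tot a c w * tot a c u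
        = (2 : ℝ) • blk a a (-v) + (2 : ℝ) • blk c c (-v) :=
      eT u w (-v) huw (by rw [hwu, neg_neg])
    rw [eR, h1, redm v Y hY, redp (-v) Y hY, bneg]
    simp only [neg_mul, mul_neg, smul_sub, smul_neg]
    abel
  have c23 : adH H _ (h.bracket hu hv (off_tot u ha hc) (off_tot v ha hc))
      = adH H _ (h.bracket hac hw (off_rot ha hc) (off_tot w ha hc)) := by
    refine adH_congr _ _ ?_
    intro Y hY
    rw [eR, eT u v w huv hvu, redm w Y hY, redp w Y hY]
  rw [c34, c24, c23, tr_comp_neg] at key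
  have n1 := (adH_sq (H := H) _ (h.bracket hac hu (off_rot ha hc) (off_tot u ha hc))).1
  have n2 := (adH_sq (H := H) _ (h.bracket hac hv (off_rot ha hc) (off_tot v ha hc))).1
  have n3 := (adH_sq (H := H) _ (h.bracket hac hw (off_rot ha hc) (off_tot w ha hc))).1
  have key' : LinearMap.trace ℝ H.𝔭 (adH H _ (h.bracket hac hu (off_rot ha hc) (off_tot u ha hc))
      ∘ₗ adH H _ (h.bracket hac hu (off_rot ha hc) (off_tot u ha hc))) = 0 := by linarith
  have h0 := of_adH_zero ((adH_sq _ _).2 key') hX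
  rw [eR, redm u X hX] at h0
  apply hne
  exact sub_eq_zero.mp ((smul_eq_zero.mp h0).resolve_left (by norm_num))

end F31343
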