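import Mathlib
import Pool.Agent.Lib_MP_f31343.Bianchi

/-!
# The density attached to a moving complement

`dens k = |det (P₁ ρ(k⁻¹) | Q)|`, where `P₁` is the projection onto `Q` along `W`.  Along a
one-parameter subgroup with generator `f` its logarithmic derivative is `-tr (Pk k * f)`.
-/

open Filter Topology MeasureTheory

namespace F31343

/-- The derivative of the determinant at the identity matrix. -/
lemma hasDerivAt_det_one {n : Type*} [Fintype n] [DecidableEq n] {M : ℝ → Matrix n n ℝ}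
    {M' : Matrix n n ℝ} {t : ℝ} (h : ∀ i j, HasDerivAt (fun s => M s i j) (M' i j) t)
    (h1 : M t = 1) : HasDerivAt (fun s => (M s).det) M'.trace t := by
  have hprod : ∀ σ : Equiv.Perm n, HasDerivAt (fun s => ∏ i, M s (σ i) i)
      (∑ i, (∏ j ∈ Finset.univ.erase i, M t (σ j) j) * M' (σ i) i) t := by
    intro σ
    have := HasDerivAt.fun_finsetProd (u := Finset.univ) (f := fun i s => M s (σ i) i)
      (f' := fun i => M' (σ i) i) (x := t) (fun i _ => h (σ i) i)
    simpa only [smul_eq_mul] using this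
  have hsum : HasDerivAt (fun s => ∑ σ : Equiv.Perm n, (Equiv.Perm.sign σ : ℝ) * ∏ i, M s (σ i) i)
      (∑ σ : Equiv.Perm n, (Equiv.Perm.sign σ : ℝ)
        * ∑ i, (∏ j ∈ Finset.univ.erase i, M t (σ j) j) * M' (σ i) i) t :=
    HasDerivAt.fun_sum fun σ _ => (hprod σ).const_mul _
  have e1 : (fun s => (M s).det)
      = fun s => ∑ σ : Equiv.Perm n, (Equiv.Perm.sign σ : ℝ) * ∏ i, M s (σ i) i := by
    funext s
    rw [Matrix.det_apply']
  have e2 : (∑ σ : Equiv.Perm n, (Equiv.Perm.sign σ : ℝ)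
        * ∑ i, (∏ j ∈ Finset.univ.erase i, M t (σ j) j) * M' (σ i) i) = M'.trace := by
    rw [Finset.sum_eq_single 1]
    · simp only [Equiv.Perm.sign_one, Units.val_one, Int.cast_one, one_mul, Equiv.Perm.one_apply]
      rw [Matrix.trace]
      refine Finset.sum_congr rfl fun i _ => ?_
      rw [h1]
      have : ∏ j ∈ Finset.univ.erase i, (1 : Matrix n n ℝ) j j = 1 :=
        Finset.prod_eq_one fun j _ => Matrix.one_apply_eq j
      rw [this, one_mul, Matrix.diag_apply]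
    · intro σ _ hσ
      have h2 : ∀ i, (∏ j ∈ Finset.univ.erase i, M t (σ j) j) * M' (σ i) i = 0 := by
        intro i
        -- some `j ≠ i` is moved by `σ`
        obtain ⟨j, hj⟩ : ∃ j, σ j ≠ j := by
          by_contra hcon
          push Not at hcon
          exact hσ (Equiv.ext hcon)
        have h3 : ∃ j' ∈ Finset.univ.erase i, σ j' ≠ j' := by
          by_cases hji : j = i
          · subst hji
            refine ⟨σ j, Finset.mem_erase.mpr ⟨hj, Finset.mem_univ _⟩, ?_⟩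
            intro h4
            exact hj (σ.injective h4)
          · exact ⟨j, Finset.mem_erase.mpr ⟨hji, Finset.mem_univ _⟩, hj⟩
        obtain ⟨j', hj', hne⟩ := h3
        rw [Finset.prod_eq_zero hj' (by rw [h1, Matrix.one_apply_ne hne]), zero_mul]
      rw [Finset.sum_eq_zero fun i _ => h2 i, mul_zero]
    · intro h; exact absurd (Finset.mem_univ _) h
  rw [e1, ← e2]
  exact hsum

variable {E : Type*} [NormedAddCommGroup E] [NormedSpace ℝ E] [FiniteDimensional ℝ E]

/-- The determinant of a continuous endomorphism. -/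
noncomputable def cdet (X : E →L[ℝ] E) : ℝ := LinearMap.det (X : E →ₗ[ℝ] E)

omit [FiniteDimensional ℝ E] in
lemma cdet_mul (X Y : E →L[ℝ] E) : cdet (X * Y) = cdet X * cdet Y := by
  unfold cdet
  rw [← LinearMap.det_comp]
  rfl

/-- The derivative of the determinant of a curve of endomorphisms through the identity. -/
lemma hasDerivAt_cdet {X : ℝ → (E →L[ℝ] E)} {X' : E →L[ℝ] E} {t : ℝ} (h : HasDerivAt X X' t)
    (h1 : X t = 1) : HasDerivAt (fun s => cdet (X s)) (trA E X') t := by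
  classical
  let b := Module.finBasis ℝ E
  have e1 : ∀ Y : E →L[ℝ] E, cdet Y = (LinearMap.toMatrix b b (Y : E →ₗ[ℝ] E)).det := by
    intro Y
    rw [LinearMap.det_toMatrix]
    rfl
  have e2 : trA E X' = (LinearMap.toMatrix b b (X' : E →ₗ[ℝ] E)).trace := by
    show LinearMap.trace ℝ E (X' : E →ₗ[ℝ] E) = _
    rw [LinearMap.trace_eq_matrix_trace ℝ b]
  simp only [e1, e2]
  refine hasDerivAt_det_one (M := fun s => LinearMap.toMatrix b b (X s : E →ₗ[ℝ] E))
    (fun i j => ?_) ?_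
  · -- entries
    let L : (E →L[ℝ] E) →ₗ[ℝ] ℝ :=
      { toFun := fun Y => LinearMap.toMatrix b b (Y : E →ₗ[ℝ] E) i j
        map_add' := fun Y Z => by simp
        map_smul' := fun c Y => by simp }
    have h2 := (LinearMap.toContinuousLinearMap L).hasFDerivAt.comp_hasDerivAt t h
    exact h2
  · show LinearMap.toMatrix b b (X t : E →ₗ[ℝ] E) = 1
    rw [h1]
    exact LinearMap.toMatrix_one b

lemma continuous_cdet : Continuous (cdet : (E →L[ℝ] E) → ℝ) := by
  classical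
  let b := Module.finBasis ℝ E
  have e1 : (cdet : (E →L[ℝ] E) → ℝ)
      = fun Y : E →L[ℝ] E => (LinearMap.toMatrix b b (Y : E →ₗ[ℝ] E)).det := by
    funext Y
    rw [LinearMap.det_toMatrix]
    rfl
  rw [e1]
  refine Continuous.matrix_det ?_
  refine continuous_matrix fun i j => ?_
  let L : (E →L[ℝ] E) →ₗ[ℝ] ℝ :=
    { toFun := fun Y => LinearMap.toMatrix b b (Y : E →ₗ[ℝ] E) i j
      map_add' := fun Y Z => by simp
      map_smul' := fun c Y => by simp }
  exact (LinearMap.toContinuousLinearMap L).continuous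

variable {K : Type*} [Group K]
variable (ρ : K →* (E →L[ℝ] E)) (Q W : Submodule ℝ E)
  (h : ∀ k, IsCompl Q (W.map (ρ k : E →ₗ[ℝ] E)))

/-- The operator `P₁ ρ(k⁻¹) P₁ + (1 - P₁)`, whose determinant is that of `P₁ ρ(k⁻¹) | Q`. -/
noncomputable def Mk (k : K) : E →L[ℝ] E :=
  Pk ρ Q W h 1 * ρ k⁻¹ * Pk ρ Q W h 1 + (1 - Pk ρ Q W h 1)

/-- The density. -/
noncomputable def dens (k : K) : ℝ := |cdet (Mk ρ Q W h k)|

/-- The transition operator. -/
noncomputable def Tk (k g : K) : E →L[ℝ] E :=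
  Pk ρ Q W h k * ρ g⁻¹ * Pk ρ Q W h 1 + (1 - Pk ρ Q W h 1)

lemma P1_rho_mul_Pk (k : K) :
    Pk ρ Q W h 1 * ρ k⁻¹ * Pk ρ Q W h k = Pk ρ Q W h 1 * ρ k⁻¹ := by
  ext x
  show Pk ρ Q W h 1 (ρ k⁻¹ (Pk ρ Q W h k x)) = Pk ρ Q W h 1 (ρ k⁻¹ x)
  have h1 : Pk ρ Q W h 1 (ρ k⁻¹ (x - Pk ρ Q W h k x)) = 0 := by
    apply Pk_of_mem_map
    obtain ⟨w, hw, hwx⟩ := Pk_sub_mem ρ Q W h k x
    refine ⟨w, hw, ?_⟩
    rw [← hwx]
    have e : ρ k⁻¹ (ρ k w) = w := by
      have : (ρ k⁻¹ * ρ k) w = w := by rw [← map_mul, inv_mul_cancel, map_one]; rfl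
      exact this
    show (ρ 1) w = ρ k⁻¹ (ρ k w)
    rw [e, map_one]; rfl
  rw [map_sub, map_sub, sub_eq_zero] at h1
  exact h1.symm

lemma Mk_mul_Tk (k g : K) : Mk ρ Q W h k * Tk ρ Q W h k g = Mk ρ Q W h (g * k) := by
  have h11 : Pk ρ Q W h 1 * Pk ρ Q W h 1 = Pk ρ Q W h 1 := Pk_mul_Pk ρ Q W h 1 1
  have h1k : Pk ρ Q W h 1 * Pk ρ Q W h k = Pk ρ Q W h k := Pk_mul_Pk ρ Q W h 1 k
  have hk := P1_rho_mul_Pk ρ Q W h k
  have hg : ρ (g * k)⁻¹ = ρ k⁻¹ * ρ g⁻¹ := by rw [mul_inv_rev, map_mul]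
  unfold Mk Tk
  rw [hg]
  generalize Pk ρ Q W h 1 = p at *
  generalize Pk ρ Q W h k = pk at *
  generalize ρ k⁻¹ = a at *
  generalize ρ g⁻¹ = c at *
  calc (p * a * p + (1 - p)) * (pk * c * p + (1 - p))
      = p * a * (p * pk) * c * p + (p * a * p - p * a * (p * p)) + (pk * c * p - p * pk * c * p)
        + (1 - p - p + p * p) := by noncomm_ring
    _ = (p * a * pk) * c * p + (1 - p) := by rw [h1k, h11]; abel
    _ = p * (a * c) * p + (1 - p) := by rw [hk]; noncomm_ring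

lemma Mk_one : Mk ρ Q W h 1 = 1 := by
  have h11 : Pk ρ Q W h 1 * Pk ρ Q W h 1 = Pk ρ Q W h 1 := Pk_mul_Pk ρ Q W h 1 1
  unfold Mk
  rw [inv_one, map_one, mul_one, h11]
  abel

lemma cdet_Mk_ne_zero (k : K) : cdet (Mk ρ Q W h k) ≠ 0 := by
  have h1 := Mk_mul_Tk ρ Q W h k k⁻¹
  rw [inv_mul_cancel, Mk_one] at h1
  have h2 := cdet_mul (Mk ρ Q W h k) (Tk ρ Q W h k k⁻¹)
  rw [h1] at h2
  have h3 : cdet (1 : E →L[ℝ] E) = 1 := by
    unfold cdet
    exact LinearMap.det_id
  rw [h3] at h2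
  intro h0
  rw [h0, zero_mul] at h2
  exact one_ne_zero h2

lemma dens_pos (k : K) : 0 < dens ρ Q W h k := abs_pos.mpr (cdet_Mk_ne_zero ρ Q W h k)

/-- The logarithmic derivative of the density. -/
lemma hasDerivAt_dens (κ : ℝ → K) (f : E →L[ℝ] E) (hκadd : ∀ s t, κ (s + t) = κ s * κ t)
    (hκρ : ∀ t, ρ (κ t) = NormedSpace.exp (t • f)) (k : K) (t : ℝ) :
    HasDerivAt (fun s => dens ρ Q W h (κ s * k))
      (-(dens ρ Q W h (κ t * k) * trA E (Pk ρ Q W h (κ t * k) * f))) t := by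
  have _ : CompleteSpace E := FiniteDimensional.complete ℝ E
  have hκ0 : κ 0 = 1 := by
    have := hκadd 0 0
    rw [add_zero] at this
    exact (mul_eq_left.mp this.symm)
  have hκinv : ∀ s, (κ s)⁻¹ = κ (-s) := by
    intro s
    rw [inv_eq_iff_mul_eq_one, ← hκadd, add_neg_cancel, hκ0]
  -- the derivative at time zero, at an arbitrary point
  have zero : ∀ k : K, HasDerivAt (fun s => dens ρ Q W h (κ s * k))
      (-(dens ρ Q W h k * trA E (Pk ρ Q W h k * f))) 0 := by
    intro k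
    have h1 : HasDerivAt (fun s : ℝ => ρ (κ s)⁻¹) (-f) 0 := by
      have h2 : HasDerivAt (fun t : ℝ => NormedSpace.exp (t • (-f)))
          (NormedSpace.exp ((0:ℝ) • (-f)) * (-f)) (0 : ℝ) := hasDerivAt_exp_smul_const (-f) (0 : ℝ)
      rw [zero_smul, NormedSpace.exp_zero, one_mul] at h2
      refine h2.congr_of_eventuallyEq (Eventually.of_forall fun s => ?_)
      show ρ (κ s)⁻¹ = NormedSpace.exp (s • (-f))
      rw [hκinv, hκρ, neg_smul, smul_neg]
    have h3 : HasDerivAt (fun s : ℝ => Tk ρ Q W h k (κ s))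
        (Pk ρ Q W h k * (-f) * Pk ρ Q W h 1) 0 :=
      ((h1.const_mul (Pk ρ Q W h k)).mul_const (Pk ρ Q W h 1)).add_const _
    have h4 : Tk ρ Q W h k (κ 0) = 1 := by
      unfold Tk
      rw [hκ0, inv_one, map_one, mul_one, Pk_mul_Pk]
      abel
    have h5 := hasDerivAt_cdet h3 h4
    have h6 : HasDerivAt (fun s => cdet (Mk ρ Q W h (κ s * k)))
        (cdet (Mk ρ Q W h k) * trA E (Pk ρ Q W h k * (-f) * Pk ρ Q W h 1)) 0 := by
      have h7 := h5.const_mul (cdet (Mk ρ Q W h k))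
      refine h7.congr_of_eventuallyEq (Eventually.of_forall fun s => ?_)
      show cdet (Mk ρ Q W h (κ s * k)) = cdet (Mk ρ Q W h k) * cdet (Tk ρ Q W h k (κ s))
      rw [← Mk_mul_Tk, cdet_mul]
    have htr : trA E (Pk ρ Q W h k * (-f) * Pk ρ Q W h 1) = -trA E (Pk ρ Q W h k * f) := by
      rw [trA_comm, ← mul_assoc, Pk_mul_Pk, mul_neg, map_neg]
    rw [htr] at h6
    have hne : cdet (Mk ρ Q W h (κ 0 * k)) ≠ 0 := cdet_Mk_ne_zero ρ Q W h _
    have h8 := (hasDerivAt_abs hne).comp (0 : ℝ) h6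
    refine h8.congr_deriv ?_
    rw [hκ0, one_mul]
    unfold dens
    rw [← mul_assoc, sign_mul_self]
    ring
  have h9 : HasDerivAt (fun r => dens ρ Q W h (κ r * (κ t * k)))
      (-(dens ρ Q W h (κ t * k) * trA E (Pk ρ Q W h (κ t * k) * f))) (t - t) := by
    rw [sub_self]; exact zero (κ t * k)
  have h10 := h9.comp_sub_const t t
  refine h10.congr_of_eventuallyEq (Eventually.of_forall fun s => ?_)
  simp only
  rw [← mul_assoc, ← hκadd, sub_add_cancel]

variable [TopologicalSpace K] [IsTopologicalGroup K]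

lemma continuous_dens (hρ : Continuous ρ) : Continuous (dens ρ Q W h) := by
  have h1 : Continuous (fun k => Mk ρ Q W h k) := by
    unfold Mk
    have h2 : Continuous (fun k : K => ρ k⁻¹) := hρ.comp continuous_inv
    exact ((continuous_const.mul h2).mul continuous_const).add continuous_const
  exact (continuous_cdet.comp h1).abs

end F31343
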