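import Mathlib
import Pool.Agent.Lib_MP_f31343.Density

/-!
# The integral identity and its consequence
-/

open Filter Topology MeasureTheory

namespace F31343

variable {E : Type*} [NormedAddCommGroup E] [NormedSpace ℝ E] [FiniteDimensional ℝ E]
variable {K : Type*} [Group K] [TopologicalSpace K] [IsTopologicalGroup K] [CompactSpace K]
variable (ρ : K →* (E →L[ℝ] E)) (hρ : Continuous ρ) (Q W : Submodule ℝ E)
  (h : ∀ k, IsCompl Q (W.map (ρ k : E →ₗ[ℝ] E)))

include hρ in
/-- The integral identity obtained by differentiating `δ λ(P y)`. -/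
theorem dens_identity [MeasurableSpace K] [BorelSpace K] (μ : Measure K) [μ.IsHaarMeasure]
    (f : E →L[ℝ] E) (hf : IsGen ρ f) (lam : E →L[ℝ] ℝ) (y : E) :
    ∫ k, dens ρ Q W h k * (trA E (Pk ρ Q W h k * f) * lam (Pk ρ Q W h k y)
      + lam (Pk ρ Q W h k (f y)) - lam (Pk ρ Q W h k (f (Pk ρ Q W h k y)))) ∂μ = 0 := by
  obtain ⟨κ, hκ, hκadd, hκρ⟩ := hf
  have hPc : Continuous (Pk ρ Q W h) := continuous_Pk ρ Q W h hρ
  have hdc : Continuous (dens ρ Q W h) := continuous_dens ρ Q W h hρ
  have hPy : ∀ x : E, Continuous (fun k => Pk ρ Q W h k x) := fun x =>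
    hPc.clm_apply continuous_const
  have htr : Continuous (fun k => trA E (Pk ρ Q W h k * f)) :=
    continuous_trA.comp (hPc.mul continuous_const)
  have hPP : Continuous (fun k => Pk ρ Q W h k (f (Pk ρ Q W h k y))) :=
    hPc.clm_apply (f.continuous.comp (hPy y))
  have hu' : Continuous (fun k => -(dens ρ Q W h k * (trA E (Pk ρ Q W h k * f)
      * lam (Pk ρ Q W h k y) + lam (Pk ρ Q W h k (f y))
        - lam (Pk ρ Q W h k (f (Pk ρ Q W h k y)))))) :=
    (hdc.mul (((htr.mul (lam.continuous.comp (hPy y))).add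
      (lam.continuous.comp (hPy (f y)))).sub (lam.continuous.comp hPP))).neg
  have key := integral_deriv_eq_zero μ κ hκ
    (fun k => dens ρ Q W h k * lam (Pk ρ Q W h k y))
    (fun k => -(dens ρ Q W h k * (trA E (Pk ρ Q W h k * f) * lam (Pk ρ Q W h k y)
      + lam (Pk ρ Q W h k (f y)) - lam (Pk ρ Q W h k (f (Pk ρ Q W h k y))))))
    (hdc.mul (lam.continuous.comp (hPy y))) hu' (fun k t => by
      have h1 := hasDerivAt_dens ρ Q W h κ f hκadd hκρ k t
      have h2 := hasDerivAt_Pk ρ Q W h κ f hκadd hκρ k t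
      have h3 := h2.clm_apply (hasDerivAt_const t y)
      have h4 := lam.hasFDerivAt.comp_hasDerivAt t h3
      have h5 := h1.mul h4
      refine h5.congr_deriv ?_
      simp only [Function.comp, map_zero, add_zero, neg_apply, map_neg]
      have e1 : (Pk ρ Q W h (κ t * k) * f * (1 - Pk ρ Q W h (κ t * k))) y
          = Pk ρ Q W h (κ t * k) (f y)
            - Pk ρ Q W h (κ t * k) (f (Pk ρ Q W h (κ t * k) y)) := by
        rw [mul_sub, mul_one]
        rfl
      rw [e1, map_sub]
      ring)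
  rw [integral_neg, neg_eq_zero] at key
  exact key

include hρ h in
/-- If a combination `∑ f_j y_j` of generators applied to vectors is a nonzero multiple of
`y₀ ∈ Q`, and the quadratic terms cancel pointwise, then `λ(y₀) = 0`. -/
theorem casimir_vanish {J : Type*} (s : Finset J) (f : J → (E →L[ℝ] E)) (y : J → E)
    (hf : ∀ j ∈ s, IsGen ρ (f j)) (lam : E →L[ℝ] ℝ) {c : ℝ} (hc : c ≠ 0) {y₀ : E} (hy₀ : y₀ ∈ Q)
    (hsum : ∑ j ∈ s, f j (y j) = c • y₀)
    (hpt : ∀ P : E →L[ℝ] E, (∀ x, P x ∈ Q) → (∀ x ∈ Q, P x = x) →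
      ∑ j ∈ s, trA E (P * f j) * lam (P (y j)) = ∑ j ∈ s, lam (P (f j (P (y j))))) :
    lam y₀ = 0 := by
  let _ : MeasurableSpace K := borel K
  have _ : BorelSpace K := ⟨rfl⟩
  let μ : Measure K := Measure.haar
  have hPc : Continuous (Pk ρ Q W h) := continuous_Pk ρ Q W h hρ
  have hdc : Continuous (dens ρ Q W h) := continuous_dens ρ Q W h hρ
  have hPy : ∀ x : E, Continuous (fun k => Pk ρ Q W h k x) := fun x =>
    hPc.clm_apply continuous_const
  have hint : ∀ u : K → ℝ, Continuous u → Integrable u μ := fun u hu =>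
    hu.integrable_of_hasCompactSupport (HasCompactSupport.of_compactSpace _)
  have h1 : ∑ j ∈ s, ∫ k, dens ρ Q W h k * (trA E (Pk ρ Q W h k * f j)
      * lam (Pk ρ Q W h k (y j)) + lam (Pk ρ Q W h k (f j (y j)))
      - lam (Pk ρ Q W h k (f j (Pk ρ Q W h k (y j))))) ∂μ = 0 :=
    Finset.sum_eq_zero fun j hj => dens_identity ρ hρ Q W h μ (f j) (hf j hj) lam (y j)
  rw [← integral_finsetSum] at h1
  · have h2 : ∀ k, ∑ j ∈ s, dens ρ Q W h k * (trA E (Pk ρ Q W h k * f j)
        * lam (Pk ρ Q W h k (y j)) + lam (Pk ρ Q W h k (f j (y j)))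
        - lam (Pk ρ Q W h k (f j (Pk ρ Q W h k (y j)))))
        = (c * lam y₀) * dens ρ Q W h k := by
      intro k
      rw [← Finset.mul_sum, Finset.sum_sub_distrib, Finset.sum_add_distrib,
        hpt (Pk ρ Q W h k) (Pk_mem ρ Q W h k) (fun x hx => Pk_of_mem ρ Q W h k hx)]
      have h3 : ∑ j ∈ s, lam (Pk ρ Q W h k (f j (y j))) = c * lam y₀ := by
        rw [← map_sum, ← map_sum, hsum, map_smul, map_smul, Pk_of_mem ρ Q W h k hy₀, smul_eq_mul]
      rw [h3]
      ring
    simp_rw [h2] at h1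
    rw [integral_const_mul] at h1
    have h4 : 0 < ∫ k, dens ρ Q W h k ∂μ := by
      refine hdc.integral_pos_of_hasCompactSupport_nonneg_nonzero
        (HasCompactSupport.of_compactSpace _) (fun k => (dens_pos ρ Q W h k).le) (x := 1) ?_
      exact (dens_pos ρ Q W h 1).ne'
    rcases mul_eq_zero.mp h1 with h5 | h5
    · exact (mul_eq_zero.mp h5).resolve_left hc
    · exact absurd h5 h4.ne'
  · intro j _
    apply hint
    have htr : Continuous (fun k => trA E (Pk ρ Q W h k * f j)) :=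
      continuous_trA.comp (hPc.mul continuous_const)
    have hPP : Continuous (fun k => Pk ρ Q W h k (f j (Pk ρ Q W h k (y j)))) :=
      hPc.clm_apply ((f j).continuous.comp (hPy (y j)))
    exact hdc.mul (((htr.mul (lam.continuous.comp (hPy _))).add
      (lam.continuous.comp (hPy _))).sub (lam.continuous.comp hPP))

end F31343
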