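import Mathlib
import Pool.Agent.Lib_MP_f31343.General

/-!
# The Killing form on `𝔭`
-/

open Matrix NormedSpace Filter Topology Module
open scoped Matrix.Norms.Operator ContDiff

namespace F31343

section algebra

variable {A : Type*} [Ring A] (tr : A →+ ℝ) (cyc : ∀ u v, tr (u * v) = tr (v * u))

include cyc in
lemma alg_inv (a b c d : A) (hc : b * c = c * b) :
    tr (((a * b - b * a) * c - c * (a * b - b * a)) * d)
      = tr (a * ((d * b - b * d) * c - c * (d * b - b * d))) := by
  have e1 : ((a * b - b * a) * c - c * (a * b - b * a)) * d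
      = a * (b * c) * d - b * (a * c * d) - c * (a * b * d) + (c * b) * (a * d) := by noncomm_ring
  have e2 : a * ((d * b - b * d) * c - c * (d * b - b * d))
      = a * d * (b * c) - (a * b * d) * c - (a * c * d) * b + a * (c * b) * d := by noncomm_ring
  rw [e1, e2]
  simp only [map_sub, map_add]
  rw [cyc b (a * c * d), cyc c (a * b * d), hc, cyc (c * b) (a * d)]
  ring

include cyc in
lemma alg_cas (a b d : A) :
    tr (((a * b - b * a) * a - a * (a * b - b * a)) * d)
      = -tr (a * ((a * d - d * a) * b - b * (a * d - d * a))) := by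
  have e1 : ((a * b - b * a) * a - a * (a * b - b * a)) * d
      = a * b * (a * d) - b * (a * a * d) - a * (a * b * d) + a * b * (a * d) := by noncomm_ring
  have e2 : a * ((a * d - d * a) * b - b * (a * d - d * a))
      = (a * a * d) * b - (a * d) * (a * b) - a * b * (a * d) + (a * b * d) * a := by noncomm_ring
  rw [e1, e2]
  simp only [map_sub, map_add]
  rw [cyc b (a * a * d), cyc a (a * b * d), cyc (a * d) (a * b)]
  ring

include cyc in
lemma alg_half (y m p : A) (h : m * p = (1 - p) * m) :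
    tr (y * m) = tr (y * m * p) + tr (m * y * p) := by
  have h3 : p * m = m - m * p := by rw [h, sub_mul, one_mul]; abel
  have h2 : y * m = y * m * p + (y * p) * m := by
    rw [mul_assoc y p, h3, mul_sub, ← mul_assoc]; abel
  nth_rewrite 1 [h2]
  rw [map_add, cyc (y * p) m, ← mul_assoc]

end algebra

/-- The trace of a skew operator vanishes. -/
lemma trace_skew {V : Type*} [AddCommGroup V] [Module ℝ V] [FiniteDimensional ℝ V]
    (B : V →ₗ[ℝ] V →ₗ[ℝ] ℝ) (hs : ∀ x y, B x y = B y x) (hp : ∀ x, x ≠ 0 → 0 < B x x)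
    (a : V →ₗ[ℝ] V) (ha : ∀ x y, B (a x) y = -B x (a y)) : LinearMap.trace ℝ V a = 0 := by
  obtain ⟨n, b, -, htr⟩ := exists_onb B hs hp
  rw [htr a]
  refine Finset.sum_eq_zero fun i _ => ?_
  have h1 := ha (b i) (b i)
  rw [hs (a (b i)) (b i)] at h1
  linarith

variable {ι : Type*} [Fintype ι] [DecidableEq ι] (G : LinRed ι)

/-- `𝔭 + [𝔭, 𝔭]`. -/
def lie : Submodule ℝ (Matrix ι ι ℝ) :=
  G.𝔭 ⊔ Submodule.span ℝ {Z | ∃ X ∈ G.𝔭, ∃ Y ∈ G.𝔭, Z = X * Y - Y * X}

variable {G}

lemma p_le_lie {X : Matrix ι ι ℝ} (hX : X ∈ G.𝔭) : X ∈ lie G := Submodule.mem_sup_left hX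

lemma ad_span_mem {X : Matrix ι ι ℝ} (hX : X ∈ G.𝔭) {b : Matrix ι ι ℝ}
    (hb : b ∈ Submodule.span ℝ {Z | ∃ X ∈ G.𝔭, ∃ Y ∈ G.𝔭, Z = X * Y - Y * X}) :
    X * b - b * X ∈ G.𝔭 := by
  induction hb using Submodule.span_induction with
  | mem Z hZ =>
    obtain ⟨Y, hY, Y', hY', rfl⟩ := hZ
    have h1 := ad_mem_p (brk_mem_k hY hY') hX
    have e2 : X * (Y * Y' - Y' * Y) - (Y * Y' - Y' * Y) * X
        = -((Y * Y' - Y' * Y) * X - X * (Y * Y' - Y' * Y)) := by abel
    rw [e2]
    exact G.𝔭.neg_mem h1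
  | zero => rw [mul_zero, zero_mul, sub_zero]; exact G.𝔭.zero_mem
  | add u v _ _ hu hv =>
    have e3 : X * (u + v) - (u + v) * X = (X * u - u * X) + (X * v - v * X) := by noncomm_ring
    rw [e3]; exact G.𝔭.add_mem hu hv
  | smul c u _ hu =>
    have e3 : X * (c • u) - (c • u) * X = c • (X * u - u * X) := by
      rw [mul_smul_comm, smul_mul_assoc, smul_sub]
    rw [e3]; exact G.𝔭.smul_mem c hu

lemma span_skew {b : Matrix ι ι ℝ}
    (hb : b ∈ Submodule.span ℝ {Z | ∃ X ∈ G.𝔭, ∃ Y ∈ G.𝔭, Z = X * Y - Y * X}) : bᵀ = -b := by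
  induction hb using Submodule.span_induction with
  | mem Z hZ =>
    obtain ⟨Y, hY, Y', hY', rfl⟩ := hZ
    rw [transpose_sub, transpose_mul, transpose_mul, G.symm Y hY, G.symm Y' hY', neg_sub]
  | zero => simp
  | add u v _ _ hu hv => rw [transpose_add, hu, hv]; abel
  | smul c u _ hu => rw [transpose_smul, hu, smul_neg]

lemma ad_mem_lie {X : Matrix ι ι ℝ} (hX : X ∈ G.𝔭) {u : Matrix ι ι ℝ} (hu : u ∈ lie G) :
    X * u - u * X ∈ lie G := by
  obtain ⟨a, ha, b, hb, rfl⟩ := Submodule.mem_sup.mp hu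
  have e : X * (a + b) - (a + b) * X = (X * a - a * X) + (X * b - b * X) := by noncomm_ring
  rw [e]
  exact (lie G).add_mem (Submodule.mem_sup_right (Submodule.subset_span ⟨X, hX, a, ha, rfl⟩))
    (p_le_lie (ad_span_mem hX hb))

/-- The symmetric part of an element of `𝔭 + [𝔭, 𝔭]` lies in `𝔭`. -/
lemma sym_mem {u : Matrix ι ι ℝ} (hu : u ∈ lie G) : (1 / 2 : ℝ) • (u + uᵀ) ∈ G.𝔭 := by
  obtain ⟨a, ha, b, hb, rfl⟩ := Submodule.mem_sup.mp hu
  have hbT : bᵀ = -b := span_skew hb
  have e : (1 / 2 : ℝ) • (a + b + (a + b)ᵀ) = a := by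
    rw [transpose_add, hbT, G.symm a ha]
    have : a + b + (a + -b) = (2 : ℝ) • a := by rw [two_smul]; abel
    rw [this, smul_smul]; norm_num
  rw [e]; exact ha

variable (G)

/-- `ad x` on `𝔭 + [𝔭, 𝔭]`, for `x` in the model of `𝔭`. -/
noncomputable def aL (x : EG G) : Module.End ℝ (lie G) :=
  (LinearMap.mulLeft ℝ (SG G x) - LinearMap.mulRight ℝ (SG G x)).restrict
    (fun _ hu => ad_mem_lie (SG_mem G x) hu)

lemma aL_coe (x : EG G) (u : lie G) :
    (aL G x u : Matrix ι ι ℝ) = SG G x * u.1 - u.1 * SG G x := rfl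

/-- The Killing form. -/
noncomputable def kap : EG G →ₗ[ℝ] EG G →ₗ[ℝ] ℝ :=
  LinearMap.mk₂ ℝ (fun x y => LinearMap.trace ℝ (lie G) (aL G x * aL G y))
    (fun x x' y => by
      have : aL G (x + x') = aL G x + aL G x' := by
        ext u : 2
        show SG G (x + x') * u.1 - u.1 * SG G (x + x')
          = (SG G x * u.1 - u.1 * SG G x) + (SG G x' * u.1 - u.1 * SG G x')
        rw [map_add]; noncomm_ring
      rw [this, add_mul, map_add])
    (fun c x y => by
      have : aL G (c • x) = c • aL G x := by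
        ext u : 2
        show SG G (c • x) * u.1 - u.1 * SG G (c • x) = c • (SG G x * u.1 - u.1 * SG G x)
        rw [map_smul, smul_mul_assoc, mul_smul_comm, smul_sub]
      rw [this, smul_mul_assoc, map_smul])
    (fun x y y' => by
      have : aL G (y + y') = aL G y + aL G y' := by
        ext u : 2
        show SG G (y + y') * u.1 - u.1 * SG G (y + y')
          = (SG G y * u.1 - u.1 * SG G y) + (SG G y' * u.1 - u.1 * SG G y')
        rw [map_add]; noncomm_ring
      rw [this, mul_add, map_add])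
    (fun c x y => by
      have : aL G (c • y) = c • aL G y := by
        ext u : 2
        show SG G (c • y) * u.1 - u.1 * SG G (c • y) = c • (SG G y * u.1 - u.1 * SG G y)
        rw [map_smul, smul_mul_assoc, mul_smul_comm, smul_sub]
      rw [this, mul_smul_comm, map_smul])

lemma kap_apply (x y : EG G) :
    kap G x y = LinearMap.trace ℝ (lie G) (aL G x * aL G y) := rfl

lemma kap_symm (x y : EG G) : kap G x y = kap G y x := by
  rw [kap_apply, kap_apply, LinearMap.trace_mul_comm]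

/-- The triple product `[[x, y], z]` on `𝔭`. -/
noncomputable def tri (x y z : EG G) : EG G := adE G (SG G x * SG G y - SG G y * SG G x) z

lemma SG_tri (x y z : EG G) :
    SG G (tri G x y z) = (SG G x * SG G y - SG G y * SG G x) * SG G z
      - SG G z * (SG G x * SG G y - SG G y * SG G x) :=
  SG_adE (brk_mem_k (SG_mem G x) (SG_mem G y)) z

lemma aL_tri (x y z : EG G) : aL G (tri G x y z)
    = (aL G x * aL G y - aL G y * aL G x) * aL G z
      - aL G z * (aL G x * aL G y - aL G y * aL G x) := by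
  ext u : 2
  rw [aL_coe, SG_tri]
  show _ = (((SG G x * (SG G y * (SG G z * u.1 - u.1 * SG G z)
        - (SG G z * u.1 - u.1 * SG G z) * SG G y)
      - (SG G y * (SG G z * u.1 - u.1 * SG G z) - (SG G z * u.1 - u.1 * SG G z) * SG G y) * SG G x)
      - (SG G y * (SG G x * (SG G z * u.1 - u.1 * SG G z)
        - (SG G z * u.1 - u.1 * SG G z) * SG G x)
      - (SG G x * (SG G z * u.1 - u.1 * SG G z) - (SG G z * u.1 - u.1 * SG G z) * SG G x) * SG G y))
    - (SG G z * ((SG G x * (SG G y * u.1 - u.1 * SG G y) - (SG G y * u.1 - u.1 * SG G y) * SG G x)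
        - (SG G y * (SG G x * u.1 - u.1 * SG G x) - (SG G x * u.1 - u.1 * SG G x) * SG G y))
      - ((SG G x * (SG G y * u.1 - u.1 * SG G y) - (SG G y * u.1 - u.1 * SG G y) * SG G x)
        - (SG G y * (SG G x * u.1 - u.1 * SG G x) - (SG G x * u.1 - u.1 * SG G x) * SG G y))
        * SG G z))
  noncomm_ring

end F31343
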