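import Mathlib
import Pool.Agent.Lib_MP_f31343.Killing

/-!
# The Killing form on `𝔭`, continued
-/

open Matrix NormedSpace Filter Topology Module
open scoped Matrix.Norms.Operator ContDiff

namespace F31343

variable {ι : Type*} [Fintype ι] [DecidableEq ι]

variable (G : LinRed ι)

/-- The trace form on the model of `𝔭`. -/
noncomputable def tfE : EG G →ₗ[ℝ] EG G →ₗ[ℝ] ℝ :=
  LinearMap.mk₂ ℝ (fun x y => (SG G x * SG G y).trace)
    (fun x x' y => by simp [add_mul])
    (fun c x y => by simp)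
    (fun x y y' => by simp [mul_add])
    (fun c x y => by simp)

lemma tfE_apply (x y : EG G) : tfE G x y = (SG G x * SG G y).trace := rfl

lemma tfE_symm (x y : EG G) : tfE G x y = tfE G y x := by
  rw [tfE_apply, tfE_apply, trace_mul_comm]

lemma tfE_pos (x : EG G) (hx : x ≠ 0) : 0 < tfE G x x := by
  rw [tfE_apply]
  have h1 : (SG G x)ᵀ = SG G x := G.symm _ (SG_mem G x)
  have h2 := trace_tm_nonneg (SG G x)
  rw [h1] at h2
  rcases h2.lt_or_eq with h | h
  · exact h
  · exfalso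
    have h3 : ((SG G x)ᵀ * SG G x).trace = 0 := by rw [h1]; exact h.symm
    have h4 := eq_zero_of_trace_tm h3
    exact hx (SG_inj G (by rw [h4, map_zero]))

/-- The operator `z ↦ [y, [m, z]]` on the model of `𝔭`. -/
noncomputable def Rop (y m : EG G) : EG G →ₗ[ℝ] EG G :=
  TG G ∘ₗ ((LinearMap.mulLeft ℝ (SG G y) - LinearMap.mulRight ℝ (SG G y)) ∘ₗ
    (LinearMap.mulLeft ℝ (SG G m) - LinearMap.mulRight ℝ (SG G m))) ∘ₗ SG G

lemma Rop_apply (y m z : EG G) : Rop G y m z
    = TG G (SG G y * (SG G m * SG G z - SG G z * SG G m)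
      - (SG G m * SG G z - SG G z * SG G m) * SG G y) := rfl

lemma Rop_eq_tri (y m z : EG G) : Rop G y m z = tri G z m y := by
  rw [Rop_apply]
  unfold tri
  rw [adE_apply]
  congr 1
  noncomm_ring

lemma SG_Rop (y m z : EG G) : SG G (Rop G y m z)
    = SG G y * (SG G m * SG G z - SG G z * SG G m)
      - (SG G m * SG G z - SG G z * SG G m) * SG G y := by
  rw [Rop_eq_tri, SG_tri]
  noncomm_ring

/-- The inclusion of the model of `𝔭` into `𝔭 + [𝔭, 𝔭]`. -/
noncomputable def jE : EG G →ₗ[ℝ] lie G :=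
  LinearMap.codRestrict (lie G) (SG G) (fun x => p_le_lie (SG_mem G x))

/-- The projection of `𝔭 + [𝔭, 𝔭]` onto the model of `𝔭`. -/
noncomputable def pE : lie G →ₗ[ℝ] EG G :=
  TG G ∘ₗ ((1 / 2 : ℝ) • (LinearMap.id + (Matrix.transposeLinearEquiv ι ι ℝ ℝ).toLinearMap))
    ∘ₗ (lie G).subtype

lemma pE_apply (u : lie G) : pE G u = TG G ((1 / 2 : ℝ) • (u.1 + u.1ᵀ)) := rfl

lemma jp_coe (u : lie G) : ((jE G (pE G u) : lie G) : Matrix ι ι ℝ) = (1 / 2 : ℝ) • (u.1 + u.1ᵀ) := by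
  show SG G (pE G u) = _
  rw [pE_apply, SG_TG (sym_mem u.2)]

omit [Fintype ι] [DecidableEq ι] in
lemma half_sym {X : Matrix ι ι ℝ} (hX : Xᵀ = X) : (1 / 2 : ℝ) • (X + Xᵀ) = X := by
  rw [hX, ← two_smul ℝ X, smul_smul]; norm_num

lemma aL_mul_pi (x : EG G) :
    aL G x * (jE G ∘ₗ pE G) = (1 - (jE G ∘ₗ pE G)) * aL G x := by
  ext u : 2
  show SG G x * ((jE G (pE G u) : lie G) : Matrix ι ι ℝ) - ((jE G (pE G u) : lie G) : Matrix ι ι ℝ)
      * SG G x = (aL G x u : Matrix ι ι ℝ) - ((jE G (pE G (aL G x u)) : lie G) : Matrix ι ι ℝ)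
  rw [jp_coe, jp_coe, aL_coe]
  have hx : (SG G x)ᵀ = SG G x := G.symm _ (SG_mem G x)
  have e1 : (SG G x * u.1 - u.1 * SG G x)ᵀ = u.1ᵀ * SG G x - SG G x * u.1ᵀ := by
    rw [transpose_sub, transpose_mul, transpose_mul, hx]
  rw [e1]
  have e2 : SG G x * ((1 / 2 : ℝ) • (u.1 + u.1ᵀ)) - ((1 / 2 : ℝ) • (u.1 + u.1ᵀ)) * SG G x
      = (1 / 2 : ℝ) • ((SG G x * u.1 - u.1 * SG G x) - (u.1ᵀ * SG G x - SG G x * u.1ᵀ)) := by
    rw [mul_smul_comm, smul_mul_assoc, ← smul_sub]
    congr 1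
    noncomm_ring
  rw [e2]
  have e3 : ∀ V V' : Matrix ι ι ℝ, (1 / 2 : ℝ) • (V - V') = V - (1 / 2 : ℝ) • (V + V') := by
    intro V V'
    have : V = (1 / 2 : ℝ) • V + (1 / 2 : ℝ) • V := by rw [← add_smul]; norm_num
    rw [smul_sub, smul_add]
    nth_rewrite 2 [this]
    abel
  exact e3 _ _

lemma trace_Rop (y m : EG G) : LinearMap.trace ℝ (EG G) (Rop G y m)
    = LinearMap.trace ℝ (lie G) (aL G y * aL G m * (jE G ∘ₗ pE G)) := by
  have e1 : Rop G y m = pE G ∘ₗ (aL G y ∘ₗ aL G m ∘ₗ jE G) := by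
    ext1 z
    show Rop G y m z = pE G (aL G y (aL G m (jE G z)))
    rw [Rop_apply, pE_apply]
    congr 1
    have h1 : ((aL G y (aL G m (jE G z)) : lie G) : Matrix ι ι ℝ)
        = SG G (Rop G y m z) := by
      rw [SG_Rop]; rfl
    rw [h1, half_sym (G.symm _ (SG_mem G _)), SG_Rop]
  rw [e1, LinearMap.trace_comp_comm']
  rfl

/-- `ad B` on the model of `𝔭` has trace zero, for `B ∈ 𝔨`. -/
lemma trace_adE {B : Matrix ι ι ℝ} (hB : B ∈ G.𝔨) :
    LinearMap.trace ℝ (EG G) (adE G B : EG G →ₗ[ℝ] EG G) = 0 := by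
  refine trace_skew (tfE G) (tfE_symm G) (tfE_pos G) _ fun x y => ?_
  show tfE G (adE G B x) y = -tfE G x (adE G B y)
  rw [tfE_apply, tfE_apply, SG_adE hB, SG_adE hB, sub_mul, mul_sub, trace_sub, trace_sub]
  have h1 : (B * SG G x * SG G y).trace = (SG G x * (SG G y * B)).trace := by
    rw [mul_assoc, trace_mul_comm, mul_assoc]
  rw [h1, mul_assoc]
  ring

/-- The Killing form is twice the trace over `𝔭`. -/
theorem kap_eq (y m : EG G) : kap G y m = 2 * LinearMap.trace ℝ (EG G) (Rop G y m) := by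
  have h1 : kap G y m = LinearMap.trace ℝ (lie G) (aL G y * aL G m * (jE G ∘ₗ pE G))
      + LinearMap.trace ℝ (lie G) (aL G m * aL G y * (jE G ∘ₗ pE G)) :=
    alg_half (A := Module.End ℝ (lie G)) (LinearMap.trace ℝ (lie G)).toAddMonoidHom
      (fun u v => LinearMap.trace_mul_comm ℝ u v) (aL G y) (aL G m) (jE G ∘ₗ pE G)
      (aL_mul_pi G m)
  have h4 : LinearMap.trace ℝ (EG G) (Rop G y m) - LinearMap.trace ℝ (EG G) (Rop G m y) = 0 := by
    rw [← map_sub]
    have e : Rop G y m - Rop G m y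
        = (adE G (SG G y * SG G m - SG G m * SG G y) : EG G →ₗ[ℝ] EG G) := by
      ext1 z
      show Rop G y m z - Rop G m y z = adE G (SG G y * SG G m - SG G m * SG G y) z
      rw [Rop_apply, Rop_apply, adE_apply, ← map_sub]
      congr 1
      noncomm_ring
    rw [e]
    exact trace_adE G (brk_mem_k (SG_mem G y) (SG_mem G m))
  rw [h1, ← trace_Rop, ← trace_Rop]
  linarith

/-- Positivity of the Killing form on `𝔭`. -/
theorem kap_pos (hG : ∀ X ∈ G.𝔭, (∀ Y ∈ G.𝔭, X * Y = Y * X) → X = 0) (x : EG G) (hx : x ≠ 0) :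
    0 < kap G x x := by
  obtain ⟨n, b, hb, htr⟩ := exists_onb (tfE G) (tfE_symm G) (tfE_pos G)
  rw [kap_eq, htr]
  have h1 : ∀ z : EG G, tfE G z (Rop G x x z)
      = ((SG G x * SG G z - SG G z * SG G x)ᵀ * (SG G x * SG G z - SG G z * SG G x)).trace := by
    intro z
    have hx' : (SG G x)ᵀ = SG G x := G.symm _ (SG_mem G x)
    have hz' : (SG G z)ᵀ = SG G z := G.symm _ (SG_mem G z)
    rw [tfE_apply, SG_Rop, transpose_sub, transpose_mul, transpose_mul, hx', hz']
    generalize SG G x * SG G z - SG G z * SG G x = V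
    have e2 : ((SG G z * SG G x - SG G x * SG G z) * V).trace
        = (SG G z * SG G x * V).trace - (SG G x * SG G z * V).trace := by
      rw [sub_mul, trace_sub]
    have e3 : (SG G z * (V * SG G x)).trace = (SG G x * SG G z * V).trace := by
      rw [← mul_assoc, trace_mul_comm, ← mul_assoc]
    rw [mul_sub, trace_sub, e3, e2, ← mul_assoc (SG G z) (SG G x) V]
  simp only [h1]
  have hnn : ∀ i, 0 ≤ ((SG G x * SG G (b i) - SG G (b i) * SG G x)ᵀ
      * (SG G x * SG G (b i) - SG G (b i) * SG G x)).trace := fun i => trace_tm_nonneg _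
  have h2 : 0 ≤ ∑ i, ((SG G x * SG G (b i) - SG G (b i) * SG G x)ᵀ
      * (SG G x * SG G (b i) - SG G (b i) * SG G x)).trace := Finset.sum_nonneg fun i _ => hnn i
  rcases h2.lt_or_eq with h3 | h3
  · linarith
  · exfalso
    apply hx
    have h4 := (Finset.sum_eq_zero_iff_of_nonneg (fun i _ => hnn i)).mp h3.symm
    have h5 : ∀ i, SG G x * SG G (b i) = SG G (b i) * SG G x := fun i =>
      sub_eq_zero.mp (eq_zero_of_trace_tm (h4 i (Finset.mem_univ i)))
    have h6 : SG G x = 0 := by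
      refine hG _ (SG_mem G x) fun Y hY => ?_
      have h7 := hb (TG G Y)
      have h8 : Y = ∑ i, tfE G (b i) (TG G Y) • SG G (b i) := by
        have := congrArg (SG G) h7
        rw [SG_TG hY, map_sum] at this
        refine this.trans (Finset.sum_congr rfl fun i _ => ?_)
        rw [map_smul]
      rw [h8, Finset.mul_sum, Finset.sum_mul]
      refine Finset.sum_congr rfl fun i _ => ?_
      rw [mul_smul_comm, smul_mul_assoc, h5 i]
    exact SG_inj G (by rw [h6, map_zero])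

/-- Invariance of the Killing form, in the form used below. -/
lemma kap_tri_symm {y q : EG G} (hyq : SG G y * SG G q = SG G q * SG G y) (z z' : EG G) :
    kap G (tri G z y q) z' = kap G z (tri G z' y q) := by
  have hc : aL G y * aL G q = aL G q * aL G y := by
    ext u : 2
    show SG G y * (SG G q * u.1 - u.1 * SG G q) - (SG G q * u.1 - u.1 * SG G q) * SG G y
      = SG G q * (SG G y * u.1 - u.1 * SG G y) - (SG G y * u.1 - u.1 * SG G y) * SG G q
    have e : SG G y * (SG G q * u.1 - u.1 * SG G q) - (SG G q * u.1 - u.1 * SG G q) * SG G y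
        = (SG G y * SG G q) * u.1 + u.1 * (SG G q * SG G y)
          - SG G y * u.1 * SG G q - SG G q * u.1 * SG G y := by noncomm_ring
    have e' : SG G q * (SG G y * u.1 - u.1 * SG G y) - (SG G y * u.1 - u.1 * SG G y) * SG G q
        = (SG G q * SG G y) * u.1 + u.1 * (SG G y * SG G q)
          - SG G y * u.1 * SG G q - SG G q * u.1 * SG G y := by noncomm_ring
    rw [e, e', hyq]
  rw [kap_apply, kap_apply, aL_tri, aL_tri]
  exact alg_inv (A := Module.End ℝ (lie G)) (LinearMap.trace ℝ (lie G)).toAddMonoidHom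
    (fun u v => LinearMap.trace_mul_comm ℝ u v) (aL G z) (aL G y) (aL G q) (aL G z') hc

/-- The Casimir relation: `∑ [Y_j, [Y_j, y]] = y / 2` on `𝔭`. -/
lemma casimir_half (hG : ∀ X ∈ G.𝔭, (∀ Y ∈ G.𝔭, X * Y = Y * X) → X = 0) {n : ℕ}
    {b : Fin n → EG G}
    (htr : ∀ a : EG G →ₗ[ℝ] EG G, LinearMap.trace ℝ (EG G) a = ∑ i, kap G (b i) (a (b i)))
    (y : EG G) : ∑ i, tri G (b i) y (b i) = (-(1 / 2) : ℝ) • y := by
  have key : ∀ m : EG G, kap G (∑ i, tri G (b i) y (b i)) m = kap G ((-(1 / 2) : ℝ) • y) m := by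
    intro m
    have h1 : ∀ z : EG G, kap G (tri G z y z) m = -kap G z (Rop G y m z) := by
      intro z
      rw [Rop_eq_tri, kap_apply, kap_apply, aL_tri, aL_tri]
      exact alg_cas (A := Module.End ℝ (lie G)) (LinearMap.trace ℝ (lie G)).toAddMonoidHom
        (fun u v => LinearMap.trace_mul_comm ℝ u v) (aL G z) (aL G y) (aL G m)
    rw [map_sum, LinearMap.sum_apply]
    simp only [h1]
    rw [Finset.sum_neg_distrib, ← htr, map_smul, LinearMap.smul_apply, kap_eq, smul_eq_mul]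
    ring
  -- nondegeneracy
  have h2 : kap G (∑ i, tri G (b i) y (b i) - (-(1 / 2) : ℝ) • y)
      (∑ i, tri G (b i) y (b i) - (-(1 / 2) : ℝ) • y) = 0 := by
    rw [LinearMap.map_sub₂, key, sub_self]
  by_contra hne
  exact (kap_pos G hG _ (sub_ne_zero.mpr hne)).ne' h2

end F31343
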