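import Mathlib
import Pool.Agent.Lib_MP_f31343.Center1
import Pool.Agent.Lib_MP_f31343.Killing2

/-!
# No local geometric fibration when `𝔭_H` has a centre
-/

open Matrix NormedSpace Filter Topology Module
open scoped Matrix.Norms.Operator ContDiff

namespace F31343

/-- A symmetric operator may be moved from one functional to the other. -/
lemma sym_sum {V : Type*} [AddCommGroup V] [Module ℝ V]
    (B : V →ₗ[ℝ] V →ₗ[ℝ] ℝ) (hs : ∀ x y, B x y = B y x) {n : ℕ} (b : Fin n → V)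
    (hb : ∀ x, x = ∑ i, B (b i) x • b i) (T : V → V)
    (hT : ∀ x y, B (T x) y = B x (T y)) (m1 m2 : V →ₗ[ℝ] ℝ) :
    ∑ j, m1 (T (b j)) * m2 (b j) = ∑ j, m1 (b j) * m2 (T (b j)) := by
  have h1 : ∀ (m : V →ₗ[ℝ] ℝ) (j : Fin n), m (T (b j)) = ∑ i, B (b i) (T (b j)) * m (b i) := by
    intro m j
    conv_lhs => rw [hb (T (b j))]
    rw [map_sum]
    refine Finset.sum_congr rfl fun i _ => ?_
    rw [map_smul, smul_eq_mul]
  have h2 : ∀ i j, B (b i) (T (b j)) = B (b j) (T (b i)) := by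
    intro i j
    rw [← hT, hs]
  simp only [h1 m1, h1 m2, Finset.sum_mul, Finset.mul_sum]
  rw [Finset.sum_comm]
  refine Finset.sum_congr rfl fun i _ => Finset.sum_congr rfl fun j _ => ?_
  rw [h2 i j]
  ring

/-- The trace of `P f` for a projection `P` onto `Q`, in a basis of `Q`. -/
lemma trace_proj {V : Type*} [AddCommGroup V] [Module ℝ V] [FiniteDimensional ℝ V]
    (Q : Submodule ℝ V) (P : V →ₗ[ℝ] V) (hP : ∀ x, P x ∈ Q) (f : V →ₗ[ℝ] V) {m : ℕ}
    (qb : Basis (Fin m) ℝ Q) :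
    LinearMap.trace ℝ V (P * f) = ∑ i, qb.repr ⟨P (f (qb i)), hP _⟩ i := by
  have h1 : ∀ x, (P * f) x ∈ Q := fun x => hP (f x)
  rw [← LinearMap.trace_restrict_eq_of_forall_mem Q (P * f) h1,
    LinearMap.trace_eq_matrix_trace ℝ qb, Matrix.trace]
  refine Finset.sum_congr rfl fun i _ => ?_
  rw [Matrix.diag_apply, LinearMap.toMatrix_apply]
  rfl

variable {ι : Type*} [Fintype ι] [DecidableEq ι] {G H : LinRed ι}

/-- The pointwise cancellation of the quadratic terms. -/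
lemma quad_cancel (Q : Submodule ℝ (EG G)) {y₀ : EG G}
    (hQ : ∀ q ∈ Q, SG G y₀ * SG G q = SG G q * SG G y₀) {n : ℕ} {b : Fin n → EG G}
    (hb : ∀ x, x = ∑ i, kap G (b i) x • b i) (lam : EG G →ₗ[ℝ] ℝ)
    (P : EG G →ₗ[ℝ] EG G) (hP : ∀ x, P x ∈ Q) :
    ∑ j, LinearMap.trace ℝ (EG G)
        (P * (adE G (SG G (b j) * SG G y₀ - SG G y₀ * SG G (b j)) : EG G →ₗ[ℝ] EG G))
          * lam (P (b j))
      = ∑ j, lam (P (adE G (SG G (b j) * SG G y₀ - SG G y₀ * SG G (b j)) (P (b j)))) := by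
  let qb := finBasis ℝ Q
  -- the coordinates of `P`
  let c : Fin (finrank ℝ Q) → (EG G →ₗ[ℝ] ℝ) := fun i =>
    (qb.coord i) ∘ₗ (P.codRestrict Q hP)
  have hc : ∀ i x, c i x = qb.repr ⟨P x, hP x⟩ i := fun i x => rfl
  have hPx : ∀ x, P x = ∑ i, c i x • (qb i : EG G) := by
    intro x
    have h1 := qb.sum_repr ⟨P x, hP x⟩
    have h2 := congrArg Subtype.val h1
    rw [AddSubmonoidClass.coe_finsetSum] at h2
    exact h2.symm
  -- the operators
  have hT : ∀ i x y, kap G (tri G x y₀ (qb i : EG G)) y = kap G x (tri G y y₀ (qb i : EG G)) :=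
    fun i x y => kap_tri_symm G (hQ _ (qb i).2) x y
  have hf : ∀ j x, adE G (SG G (b j) * SG G y₀ - SG G y₀ * SG G (b j)) x = tri G (b j) y₀ x :=
    fun j x => rfl
  have hL : ∀ j, LinearMap.trace ℝ (EG G)
        (P * (adE G (SG G (b j) * SG G y₀ - SG G y₀ * SG G (b j)) : EG G →ₗ[ℝ] EG G))
      = ∑ i, c i (tri G (b j) y₀ (qb i : EG G)) := by
    intro j
    rw [trace_proj Q P hP _ qb]
    rfl
  have hR : ∀ j, lam (P (adE G (SG G (b j) * SG G y₀ - SG G y₀ * SG G (b j)) (P (b j))))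
      = ∑ i, c i (b j) * (lam ∘ₗ P) (tri G (b j) y₀ (qb i : EG G)) := by
    intro j
    rw [hPx (b j), map_sum, map_sum, map_sum]
    refine Finset.sum_congr rfl fun i _ => ?_
    rw [map_smul, map_smul, map_smul, smul_eq_mul, hf]
    rfl
  simp only [hL, hR, Finset.sum_mul]
  rw [Finset.sum_comm, Finset.sum_comm (γ := Fin n)]
  refine Finset.sum_congr rfl fun i _ => ?_
  exact sym_sum (kap G) (kap_symm G) b hb (fun x => tri G x y₀ (qb i : EG G)) (hT i) (c i)
    (lam ∘ₗ P)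

/-- **The centre obstruction**: if `𝔭_G` has no centre and `𝔭_H` has a nonzero central element
then `(G, H)` has no local geometric fibration. -/
theorem noFib_center (hHG : H.grp ≤ G.grp)
    (hG : ∀ X ∈ G.𝔭, (∀ Y ∈ G.𝔭, X * Y = Y * X) → X = 0)
    {z : Matrix ι ι ℝ} (hz : z ∈ H.𝔭) (hz0 : z ≠ 0) (hzc : ∀ Y ∈ H.𝔭, z * Y = Y * z) :
    IsEmpty (LocalGeometricFibration G H) := by
  refine ⟨fun F => ?_⟩
  obtain ⟨W, hcompl⟩ := exists_model_compl hHG F
  obtain ⟨n, b, hb, htr⟩ := exists_onb (kap G) (kap_symm G) (kap_pos G hG)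
  have hzG : z ∈ G.𝔭 := p_mono hHG hz
  have hSz : SG G (TG G z) = z := SG_TG hzG
  have hy0 : TG G z ≠ 0 := by
    intro h
    rw [h, map_zero] at hSz
    exact hz0 hSz.symm
  have hyQ : TG G z ∈ H.𝔭.comap (SG G) := by
    show SG G (TG G z) ∈ H.𝔭
    rw [hSz]; exact hz
  have hQ : ∀ q ∈ H.𝔭.comap (SG G), SG G (TG G z) * SG G q = SG G q * SG G (TG G z) := by
    intro q hq
    rw [hSz]
    exact hzc _ hq
  have key := casimir_vanish (rhoE G) (continuous_rhoE G) (H.𝔭.comap (SG G)) W hcompl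
    (Finset.univ : Finset (Fin n))
    (fun j => adE G (SG G (b j) * SG G (TG G z) - SG G (TG G z) * SG G (b j))) b
    (fun j _ => isGen_adE (brk_mem_k (SG_mem G _) (SG_mem G _)))
    (LinearMap.toContinuousLinearMap (kap G (TG G z))) (c := -(1 / 2)) (by norm_num) hyQ
    (casimir_half G hG htr (TG G z))
    (fun P hP _ => quad_cancel (H.𝔭.comap (SG G)) hQ hb (kap G (TG G z))
      (P : EG G →ₗ[ℝ] EG G) hP)
  exact (kap_pos G hG _ hy0).ne' key

theorem noFib_noncompactCentre (hHG : H.grp ≤ G.grp) (hG : noncompactCentre G = {0})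
    (hH : noncompactCentre H ≠ {0}) : IsEmpty (LocalGeometricFibration G H) := by
  have h0 : (0 : Matrix ι ι ℝ) ∈ noncompactCentre H :=
    ⟨H.𝔭.zero_mem, fun Y _ => by rw [zero_mul, mul_zero]⟩
  obtain ⟨z, hz, hz0⟩ : ∃ z ∈ noncompactCentre H, z ≠ 0 := by
    by_contra hcon
    push Not at hcon
    exact hH (Set.eq_singleton_iff_unique_mem.mpr ⟨h0, hcon⟩)
  refine noFib_center hHG (fun X hX hXc => ?_) hz.1 hz0 hz.2
  have h1 : X ∈ noncompactCentre G := ⟨hX, hXc⟩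
  rw [hG] at h1
  exact h1

end F31343
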