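import Mathlib
import Pool.Agent.Lib_MP_f31343.Block

/-!
# Indefinite unitary groups over `ℝ`, `ℂ`, `ℍ`
-/

open Matrix NormedSpace Filter Topology Module
open scoped Matrix.Norms.Operator ContDiff Kronecker

namespace F31343

variable {σ : Type*} [Fintype σ] [DecidableEq σ]

/-- The signs of the form of signature `(p, q + r)`. -/
def sgn (p q r : ℕ) : Fin p ⊕ (Fin q ⊕ Fin r) → ℝ := Sum.elim (fun _ => 1) (fun _ => -1)

/-- The last `r` of the `p + (q + r)` blocks. -/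
def lastBlocks (p q r : ℕ) : Finset (Fin p ⊕ (Fin q ⊕ Fin r)) :=
  Finset.univ.image fun c : Fin r => Sum.inr (Sum.inr c)

/-- The indefinite unitary group of signature `(p, q + r)` over the algebra `F` of the matrices
on `ℝ^σ` which commute with the set `J` of skew-symmetric matrices: the invertible real matrices
on `ℝ^(p+(q+r)) ⊗ ℝ^σ` which commute with `1 ⊗ j`, `j ∈ J`, and preserve the form
`diag(1, ..., 1, -1, ..., -1) ⊗ 1`; and its subgroup acting trivially on the blocks in `R`. -/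
def unitaryData (J : Set (Matrix σ σ ℝ)) (hJ : ∀ j ∈ J, jᵀ = -j) (p q r : ℕ)
    (R : Finset (Fin p ⊕ (Fin q ⊕ Fin r))) :
    ClassicalData ((Fin p ⊕ (Fin q ⊕ Fin r)) × σ) where
  comm := {M | ∃ j ∈ J, M = (1 : Matrix (Fin p ⊕ (Fin q ⊕ Fin r)) _ ℝ) ⊗ₖ j}
  form := {diagonal fun i => sgn p q r i.1}
  sl := False
  fix := proj R
  skew := by
    rintro M ⟨j, hj, rfl⟩
    rw [← kroneckerMap_transpose, hJ j hj, transpose_one]
    ext i i'
    simp
  orth := by
    rintro S hS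
    rw [Set.mem_singleton_iff] at hS
    rw [hS, diagonal_transpose, diagonal_mul_diagonal]
    ext i i'
    rw [diagonal_apply, one_apply]
    by_cases h : i = i'
    · rw [if_pos h, if_pos h]
      rcases i with ⟨x | x, s⟩ <;> simp [sgn]
    · rw [if_neg h, if_neg h]
  symm := proj_transpose R

variable (J : Set (Matrix σ σ ℝ)) (hJ : ∀ j ∈ J, jᵀ = -j) (p q r : ℕ)

/-- `U(p, q + r; F)`. -/
def uni : LinRed ((Fin p ⊕ (Fin q ⊕ Fin r)) × σ) := (unitaryData J hJ p q r ∅).toLinRed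

/-- `U(p, q; F)`, acting trivially on the last `r` blocks. -/
def uniSub : LinRed ((Fin p ⊕ (Fin q ⊕ Fin r)) × σ) :=
  (unitaryData J hJ p q r (lastBlocks p q r)).toLinRed

variable {J hJ p q r}

omit [Fintype σ] in
lemma proj_empty {α : Type*} [DecidableEq α] :
    (proj (∅ : Finset α) : Matrix (α × σ) (α × σ) ℝ) = 0 := by
  unfold proj; simp

lemma mem_last (c : Fin r) : (Sum.inr (Sum.inr c) : Fin p ⊕ (Fin q ⊕ Fin r)) ∈ lastBlocks p q r :=
  Finset.mem_image.mpr ⟨c, Finset.mem_univ c, rfl⟩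

lemma not_mem_last (a : Fin q) :
    (Sum.inr (Sum.inl a) : Fin p ⊕ (Fin q ⊕ Fin r)) ∉ lastBlocks p q r := by
  intro h
  obtain ⟨c, -, hc⟩ := Finset.mem_image.mp h
  simp at hc

lemma not_mem_last' (z : Fin p) :
    (Sum.inl z : Fin p ⊕ (Fin q ⊕ Fin r)) ∉ lastBlocks p q r := by
  intro h
  obtain ⟨c, -, hc⟩ := Finset.mem_image.mp h
  simp at hc

lemma isFix_uni : IsFix (uni J hJ p q r) (uniSub J hJ p q r) (proj (lastBlocks p q r)) := by
  refine ⟨proj_transpose _, fun g => ?_⟩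
  constructor
  · rintro ⟨h1, h2, h3, h4, h5⟩
    refine ⟨⟨h1, h2, h3, ?_, ?_⟩, h4, h5⟩
    · show g.val * proj ∅ = proj ∅
      rw [proj_empty, mul_zero]
    · show proj ∅ * g.val = proj ∅
      rw [proj_empty, zero_mul]
  · rintro ⟨⟨h1, h2, h3, -, -⟩, h4, h5⟩
    exact ⟨h1, h2, h3, h4, h5⟩

/-- Elements of `𝔨`. -/
lemma mem_k_uni (x y : Fin q ⊕ Fin r) {m : Matrix σ σ ℝ} (hm : ∀ j ∈ J, m * j = j * m)
    (hm' : ∀ j ∈ J, mᵀ * j = j * mᵀ) :
    blk (Sum.inr x) (Sum.inr y) m - blk (Sum.inr y) (Sum.inr x) mᵀ ∈ (uni J hJ p q r).𝔨 := by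
  refine mem_k_classical _ _ ?_ ?_ ?_ ?_ ?_
  · rw [transpose_sub, blk_transpose, blk_transpose, transpose_transpose]
    abel
  · rintro M ⟨j, hj, rfl⟩
    rw [sub_mul, mul_sub, blk_mul_one_kron, blk_mul_one_kron, one_kron_mul_blk, one_kron_mul_blk,
      hm j hj, hm' j hj]
  · rintro S hS
    have hS' : S = diagonal fun i => sgn p q r i.1 := hS
    rw [hS', sub_mul, mul_sub, blk_mul_diag, blk_mul_diag, diag_mul_blk, diag_mul_blk]
    rfl
  · show _ * proj ∅ = 0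
    rw [proj_empty, mul_zero]
  · show proj ∅ * _ = 0
    rw [proj_empty, zero_mul]

lemma rot_mem_k (x y : Fin q ⊕ Fin r) :
    rot (Sum.inr x) (Sum.inr y) ∈ (uni J hJ p q r).𝔨 := by
  have := mem_k_uni (J := J) (hJ := hJ) (p := p) x y (m := 1) (fun j _ => by simp)
    (fun j _ => by simp)
  rw [transpose_one] at this
  exact this

lemma tot_mem_k (x y : Fin q ⊕ Fin r) {u : Matrix σ σ ℝ} (hu : uᵀ = -u)
    (huJ : ∀ j ∈ J, u * j = j * u) :
    tot (Sum.inr x) (Sum.inr y) u ∈ (uni J hJ p q r).𝔨 := by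
  have := mem_k_uni (J := J) (hJ := hJ) (p := p) x y (m := u) huJ
    (fun j hj => by rw [hu, neg_mul, mul_neg, huJ j hj])
  rw [hu, blk_neg, sub_neg_eq_add] at this
  exact this

/-- The basic element of `𝔭_H`. -/
lemma base_mem_p (z : Fin p) (a : Fin q) :
    blk (Sum.inl z) (Sum.inr (Sum.inl a)) 1 + blk (Sum.inr (Sum.inl a)) (Sum.inl z) 1
      ∈ (uniSub J hJ p q r).𝔭 := by
  refine ⟨?_, ?_, ?_, fun h => h.elim, ?_⟩
  · rw [transpose_add, blk_transpose, blk_transpose, transpose_one, add_comm]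
  · rintro M ⟨j, hj, rfl⟩
    rw [add_mul, mul_add, blk_mul_one_kron, blk_mul_one_kron, one_kron_mul_blk, one_kron_mul_blk,
      one_mul, mul_one]
  · rintro S hS
    have hS' : S = diagonal fun i => sgn p q r i.1 := hS
    rw [hS', add_mul, mul_neg, mul_add, blk_mul_diag, blk_mul_diag, diag_mul_blk, diag_mul_blk]
    simp only [sgn, Sum.elim_inl, Sum.elim_inr, one_smul, neg_smul]
    abel
  · show _ * proj (lastBlocks p q r) = 0
    rw [add_mul, blk_mul_proj, blk_mul_proj, if_neg (not_mem_last a), if_neg (not_mem_last' z),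
      add_zero]

lemma mul_blk_apply {α : Type*} [Fintype α] [DecidableEq α] (X : Matrix (α × σ) (α × σ) ℝ)
    (a c : α) (i : α × σ) (t : σ) : (X * blk a c (1 : Matrix σ σ ℝ) : Matrix (α × σ) (α × σ) ℝ) i (c, t) = X i (a, t) := by
  rw [mul_apply, Finset.sum_eq_single (a, t)]
  · rw [blk_apply]; simp
  · rintro ⟨y, s⟩ - hne
    rw [blk_apply]
    by_cases h : a = y
    · subst h
      have hst : s ≠ t := fun e => hne (by rw [e])
      simp [hst]
    · simp [h]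
  · intro h; exact absurd (Finset.mem_univ _) h

/-- Blocks of elements of `𝔭_H` inside the negative part vanish. -/
lemma block_zero (x y : Fin q ⊕ Fin r) : ∀ X ∈ (uniSub J hJ p q r).𝔭, ∀ M N : Matrix σ σ ℝ,
    blk (Sum.inr x) (Sum.inr x) M * X * blk (Sum.inr y) (Sum.inr y) N = 0 := by
  intro X hX M N
  obtain ⟨-, -, x3, -, -⟩ := hX
  have hform : X * (diagonal fun i => sgn p q r i.1)
      = (diagonal fun i => sgn p q r i.1) * (-X) := x3 _ rfl
  have h1 : (diagonal fun i : (Fin p ⊕ (Fin q ⊕ Fin r)) × σ => sgn p q r i.1)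
      * blk (Sum.inr y) (Sum.inr y) N = -blk (Sum.inr y) (Sum.inr y) N := by
    rw [diag_mul_blk]
    simp [sgn]
  have h2 : blk (Sum.inr x) (Sum.inr x) M
      * (diagonal fun i : (Fin p ⊕ (Fin q ⊕ Fin r)) × σ => sgn p q r i.1)
      = -blk (Sum.inr x) (Sum.inr x) M := by
    rw [blk_mul_diag]
    simp [sgn]
  have h3 : blk (Sum.inr x) (Sum.inr x) M * X * blk (Sum.inr y) (Sum.inr y) N
      = -(blk (Sum.inr x) (Sum.inr x) M * X * blk (Sum.inr y) (Sum.inr y) N) := by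
    calc blk (Sum.inr x) (Sum.inr x) M * X * blk (Sum.inr y) (Sum.inr y) N
        = -(blk (Sum.inr x) (Sum.inr x) M * X
            * ((diagonal fun i => sgn p q r i.1) * blk (Sum.inr y) (Sum.inr y) N)) := by
          rw [h1]; noncomm_ring
      _ = -(blk (Sum.inr x) (Sum.inr x) M * (X * (diagonal fun i => sgn p q r i.1))
            * blk (Sum.inr y) (Sum.inr y) N) := by simp only [mul_assoc]
      _ = (blk (Sum.inr x) (Sum.inr x) M * (diagonal fun i => sgn p q r i.1)) * X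
            * blk (Sum.inr y) (Sum.inr y) N := by
          rw [hform]
          simp only [mul_neg, neg_mul, neg_neg, mul_assoc]
      _ = -(blk (Sum.inr x) (Sum.inr x) M * X * blk (Sum.inr y) (Sum.inr y) N) := by
          rw [h2, neg_mul, neg_mul]
  have h4 : (2 : ℝ) • (blk (Sum.inr x) (Sum.inr x) M * X
      * blk (Sum.inr y) (Sum.inr y) N : Matrix ((Fin p ⊕ (Fin q ⊕ Fin r)) × σ) _ ℝ) = 0 := by
    rw [two_smul]
    nth_rewrite 2 [h3]
    exact add_neg_cancel _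
  exact (smul_eq_zero.mp h4).resolve_left (by norm_num)

/-- Rotations do not commute with the basic element. -/
lemma rot_not_comm [Nonempty σ] (z : Fin p) {a b : Fin q} (hab : a ≠ b) :
    rot (Sum.inr (Sum.inl a)) (Sum.inr (Sum.inl b))
      * (blk (Sum.inl z) (Sum.inr (Sum.inl a)) 1 + blk (Sum.inr (Sum.inl a)) (Sum.inl z) 1)
    ≠ (blk (Sum.inl z) (Sum.inr (Sum.inl a)) 1 + blk (Sum.inr (Sum.inl a)) (Sum.inl z) 1)
      * (rot (Sum.inr (Sum.inl a)) (Sum.inr (Sum.inl b)) :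
          Matrix ((Fin p ⊕ (Fin q ⊕ Fin r)) × σ) _ ℝ) := by
  intro h
  obtain ⟨s⟩ := ‹Nonempty σ›
  have h1 := congrFun (congrFun h (Sum.inr (Sum.inl b), s)) (Sum.inl z, s)
  simp only [rot, sub_mul, mul_sub, mul_add, add_mul, blk_mul, Matrix.sub_apply, Matrix.add_apply,
    one_mul] at h1
  simp [blk_apply, hab, hab.symm] at h1

lemma blk_not_comm (z : Fin p) (a : Fin q) {u : Matrix σ σ ℝ} (hu : u ≠ 0) :
    blk (Sum.inr (Sum.inl a)) (Sum.inr (Sum.inl a)) u
      * (blk (Sum.inl z) (Sum.inr (Sum.inl a)) 1 + blk (Sum.inr (Sum.inl a)) (Sum.inl z) 1)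
    ≠ (blk (Sum.inl z) (Sum.inr (Sum.inl a)) 1 + blk (Sum.inr (Sum.inl a)) (Sum.inl z) 1)
      * (blk (Sum.inr (Sum.inl a)) (Sum.inr (Sum.inl a)) u :
          Matrix ((Fin p ⊕ (Fin q ⊕ Fin r)) × σ) _ ℝ) := by
  intro h
  apply hu
  ext s t
  have h1 := congrFun (congrFun h (Sum.inr (Sum.inl a), s)) (Sum.inl z, t)
  simp only [mul_add, add_mul, blk_mul, Matrix.add_apply, one_mul, mul_one] at h1
  simp [blk_apply] at h1
  simpa using h1

/-- **No fibration for `q, r ≥ 2`**, over any coefficient algebra. -/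
theorem noFib_any [Nonempty σ] (hp : 1 ≤ p) (hq : 2 ≤ q) (hr : 2 ≤ r) :
    IsEmpty (LocalGeometricFibration (uni J hJ p q r) (uniSub J hJ p q r)) := by
  have hab : (⟨0, by omega⟩ : Fin q) ≠ ⟨1, by omega⟩ := by simp
  exact block isFix_uni
    (a := Sum.inr (Sum.inl ⟨0, by omega⟩)) (b := Sum.inr (Sum.inl ⟨1, by omega⟩))
    (c := Sum.inr (Sum.inr ⟨0, by omega⟩)) (d := Sum.inr (Sum.inr ⟨1, by omega⟩))
    (by simp) (not_mem_last _) (not_mem_last _) (by simp)
    (mem_last _) (mem_last _)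
    (rot_mem_k _ _) (rot_mem_k _ _) (rot_mem_k _ _) (rot_mem_k _ _)
    (base_mem_p ⟨0, by omega⟩ ⟨0, by omega⟩) (rot_not_comm _ hab)

/-- **The complex case**. -/
theorem noFib_complex {u : Matrix σ σ ℝ} (hu : uᵀ = -u) (huJ : ∀ j ∈ J, u * j = j * u)
    (huu : u * u = -1) (hu0 : u ≠ 0) (hp : 1 ≤ p) (hq : 1 ≤ q) (hr : 1 ≤ r) (hqr : 3 ≤ q + r) :
    IsEmpty (LocalGeometricFibration (uni J hJ p q r) (uniSub J hJ p q r)) := by
  have hσ : Nonempty σ := by
    by_contra h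
    rw [not_nonempty_iff] at h
    apply hu0
    ext i
    exact h.elim i
  by_cases hq2 : 2 ≤ q
  · have hab : (⟨0, by omega⟩ : Fin q) ≠ ⟨1, by omega⟩ := by simp
    exact blockC1 isFix_uni
      (a := Sum.inr (Sum.inl ⟨0, by omega⟩)) (b := Sum.inr (Sum.inl ⟨1, by omega⟩))
      (c := Sum.inr (Sum.inr ⟨0, by omega⟩))
      (by simp) (not_mem_last _) (not_mem_last _) (mem_last _) huu
      (rot_mem_k _ _) (tot_mem_k _ _ hu huJ) (rot_mem_k _ _) (tot_mem_k _ _ hu huJ)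
      (fun Y hY => by
        have h1 := block_zero (J := J) (hJ := hJ) (p := p) (r := r)
          (Sum.inl (⟨0, by omega⟩ : Fin q)) (Sum.inl (⟨1, by omega⟩ : Fin q)) Y hY u u
        rw [mul_assoc, mul_assoc, ← mul_assoc _ Y, h1, mul_zero, trace_zero])
      (base_mem_p ⟨0, by omega⟩ ⟨0, by omega⟩) (rot_not_comm _ hab)
  · exact blockC2 isFix_uni
      (a := Sum.inr (Sum.inl ⟨0, by omega⟩))
      (c := Sum.inr (Sum.inr ⟨0, by omega⟩)) (d := Sum.inr (Sum.inr ⟨1, by omega⟩))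
      (not_mem_last _) (by simp) (mem_last _) (mem_last _)
      (rot_mem_k _ _) (tot_mem_k _ _ hu huJ) (rot_mem_k _ _) (tot_mem_k _ _ hu huJ)
      (base_mem_p ⟨0, by omega⟩ ⟨0, by omega⟩) (blk_not_comm _ _ hu0)

/-- **The quaternionic case**. -/
theorem noFib_quaternionic {u v w : Matrix σ σ ℝ} (hu : uᵀ = -u) (hv : vᵀ = -v) (hw : wᵀ = -w)
    (huJ : ∀ j ∈ J, u * j = j * u) (hvJ : ∀ j ∈ J, v * j = j * v)
    (hwJ : ∀ j ∈ J, w * j = j * w) (huv : u * v = w) (hvu : v * u = -w) (hvw : v * w = u)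
    (hwv : w * v = -u) (hwu : w * u = v) (huw : u * w = -v) (hu0 : u ≠ 0)
    (hp : 1 ≤ p) (hq : 1 ≤ q) (hr : 1 ≤ r) :
    IsEmpty (LocalGeometricFibration (uni J hJ p q r) (uniSub J hJ p q r)) :=
  blockH isFix_uni
    (a := Sum.inr (Sum.inl ⟨0, by omega⟩)) (c := Sum.inr (Sum.inr ⟨0, by omega⟩))
    (not_mem_last _) (mem_last _) huv hvu hvw hwv hwu huw
    (rot_mem_k _ _) (tot_mem_k _ _ hu huJ) (tot_mem_k _ _ hv hvJ) (tot_mem_k _ _ hw hwJ)
    (base_mem_p ⟨0, by omega⟩ ⟨0, by omega⟩) (blk_not_comm _ _ hu0)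

end F31343
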