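import Mathlib
import Pool.Agent.Lib_MP_f31343.Families

/-!
# The three coefficient algebras
-/

open Matrix NormedSpace Filter Topology Module
open scoped Matrix.Norms.Operator ContDiff Kronecker

namespace F31343

/-- Multiplication by `i` on `ℂ`, in the basis `1, i`. -/
def ci : Matrix (Fin 2) (Fin 2) ℝ := !![0, -1; 1, 0]

/-- Right multiplication by `i` on `ℍ`, in the basis `1, i, j, k`. -/
def ri : Matrix (Fin 4) (Fin 4) ℝ := !![0, -1, 0, 0; 1, 0, 0, 0; 0, 0, 0, 1; 0, 0, -1, 0]

/-- Right multiplication by `j` on `ℍ`. -/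
def rj : Matrix (Fin 4) (Fin 4) ℝ := !![0, 0, -1, 0; 0, 0, 0, -1; 1, 0, 0, 0; 0, 1, 0, 0]

/-- Left multiplication by `i` on `ℍ`. -/
def li : Matrix (Fin 4) (Fin 4) ℝ := !![0, -1, 0, 0; 1, 0, 0, 0; 0, 0, 0, -1; 0, 0, 1, 0]

/-- Left multiplication by `j` on `ℍ`. -/
def lj : Matrix (Fin 4) (Fin 4) ℝ := !![0, 0, -1, 0; 0, 0, 0, 1; 1, 0, 0, 0; 0, -1, 0, 0]

/-- Left multiplication by `k` on `ℍ`. -/
def lk : Matrix (Fin 4) (Fin 4) ℝ := !![0, 0, 0, -1; 0, 0, -1, 0; 0, 1, 0, 0; 1, 0, 0, 0]

lemma ci_skew : ciᵀ = -ci := by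
  ext a b; fin_cases a <;> fin_cases b <;> simp [ci]

lemma ci_sq : ci * ci = -1 := by
  ext a b; fin_cases a <;> fin_cases b <;> simp [ci, mul_apply, Fin.sum_univ_two]

lemma ci_ne : ci ≠ 0 := by
  intro h
  have := congrFun (congrFun h 0) 1
  simp [ci] at this

lemma ri_skew : riᵀ = -ri := by
  ext a b; fin_cases a <;> fin_cases b <;> simp [ri]

lemma rj_skew : rjᵀ = -rj := by
  ext a b; fin_cases a <;> fin_cases b <;> simp [rj]

lemma li_skew : liᵀ = -li := by
  ext a b; fin_cases a <;> fin_cases b <;> simp [li]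

lemma lj_skew : ljᵀ = -lj := by
  ext a b; fin_cases a <;> fin_cases b <;> simp [lj]

lemma lk_skew : lkᵀ = -lk := by
  ext a b; fin_cases a <;> fin_cases b <;> simp [lk]

lemma li_ne : li ≠ 0 := by
  intro h
  have := congrFun (congrFun h 0) 1
  simp [li] at this

lemma li_ri : li * ri = ri * li := by
  ext a b; fin_cases a <;> fin_cases b <;> simp [li, ri, mul_apply, Fin.sum_univ_four]
lemma li_rj : li * rj = rj * li := by
  ext a b; fin_cases a <;> fin_cases b <;> simp [li, rj, mul_apply, Fin.sum_univ_four]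
lemma lj_ri : lj * ri = ri * lj := by
  ext a b; fin_cases a <;> fin_cases b <;> simp [lj, ri, mul_apply, Fin.sum_univ_four]
lemma lj_rj : lj * rj = rj * lj := by
  ext a b; fin_cases a <;> fin_cases b <;> simp [lj, rj, mul_apply, Fin.sum_univ_four]
lemma lk_ri : lk * ri = ri * lk := by
  ext a b; fin_cases a <;> fin_cases b <;> simp [lk, ri, mul_apply, Fin.sum_univ_four]
lemma lk_rj : lk * rj = rj * lk := by
  ext a b; fin_cases a <;> fin_cases b <;> simp [lk, rj, mul_apply, Fin.sum_univ_four]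
lemma li_lj : li * lj = lk := by
  ext a b; fin_cases a <;> fin_cases b <;> simp [li, lj, lk, mul_apply, Fin.sum_univ_four]
lemma lj_li : lj * li = -lk := by
  ext a b; fin_cases a <;> fin_cases b <;> simp [li, lj, lk, mul_apply, Fin.sum_univ_four]
lemma lj_lk : lj * lk = li := by
  ext a b; fin_cases a <;> fin_cases b <;> simp [li, lj, lk, mul_apply, Fin.sum_univ_four]
lemma lk_lj : lk * lj = -li := by
  ext a b; fin_cases a <;> fin_cases b <;> simp [li, lj, lk, mul_apply, Fin.sum_univ_four]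
lemma lk_li : lk * li = lj := by
  ext a b; fin_cases a <;> fin_cases b <;> simp [li, lj, lk, mul_apply, Fin.sum_univ_four]
lemma li_lk : li * lk = -lj := by
  ext a b; fin_cases a <;> fin_cases b <;> simp [li, lj, lk, mul_apply, Fin.sum_univ_four]

/-- The real division algebras. -/
inductive Coeff
  | real
  | complex
  | quaternion

/-- Their dimensions. -/
def Coeff.dim : Coeff → ℕ
  | real => 1
  | complex => 2
  | quaternion => 4

/-- Right multiplication by the imaginary units of the algebra `F` (by `i` for `ℂ`, by `i` and `j`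
for `ℍ`), as real matrices in the basis `1, i` resp. `1, i, j, k`.  The matrices which commute
with them are the left multiplications by elements of `F`. -/
def Coeff.units : (F : Coeff) → Set (Matrix (Fin F.dim) (Fin F.dim) ℝ)
  | real => (∅ : Set (Matrix (Fin 1) (Fin 1) ℝ))
  | complex => ({ci} : Set (Matrix (Fin 2) (Fin 2) ℝ))
  | quaternion => ({ri, rj} : Set (Matrix (Fin 4) (Fin 4) ℝ))

lemma Coeff.skew (F : Coeff) : ∀ j ∈ F.units, jᵀ = -j := by
  cases F with
  | real => intro j hj; exact hj.elim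
  | complex =>
    intro j hj
    have h : j = ci := hj
    rw [h]; exact ci_skew
  | quaternion =>
    intro j hj
    rcases hj with h | h
    · rw [h]; exact ri_skew
    · have h' : j = rj := h
      rw [h']; exact rj_skew

/-- `U(p, q + r; F)`, that is `O(p, q + r)`, `U(p, q + r)` or `Sp(p, q + r)`, as a group of real
matrices. -/
def indefU (F : Coeff) (p q r : ℕ) : LinRed ((Fin p ⊕ (Fin q ⊕ Fin r)) × Fin F.dim) :=
  uni F.units F.skew p q r

/-- Its subgroup `U(p, q; F)` acting trivially on the last `r` coordinates. -/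
def indefUSub (F : Coeff) (p q r : ℕ) : LinRed ((Fin p ⊕ (Fin q ⊕ Fin r)) × Fin F.dim) :=
  uniSub F.units F.skew p q r

/-- The range of the theorem. -/
def Coeff.InRange : Coeff → ℕ → ℕ → Prop
  | real, q, r => 2 ≤ q ∧ 2 ≤ r
  | complex, q, r => 1 ≤ q ∧ 1 ≤ r ∧ 3 ≤ q + r
  | quaternion, q, r => 1 ≤ q ∧ 1 ≤ r

theorem noFib (F : Coeff) (p q r : ℕ) (hp : 1 ≤ p) (hqr : F.InRange q r) :
    IsEmpty (LocalGeometricFibration (indefU F p q r) (indefUSub F p q r)) := by
  cases F with
  | real =>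
    have hσ : Nonempty (Fin Coeff.real.dim) := ⟨(0 : Fin 1)⟩
    exact noFib_any hp hqr.1 hqr.2
  | complex =>
    refine noFib_complex (u := ci) ci_skew ?_ ci_sq ci_ne hp hqr.1 hqr.2.1 hqr.2.2
    intro j hj
    have h : j = ci := hj
    rw [h]
  | quaternion =>
    have h2 : ∀ (P : Matrix (Fin 4) (Fin 4) ℝ → Prop), P ri → P rj →
        ∀ j ∈ Coeff.quaternion.units, P j := by
      intro P h1 h2 j hj
      rcases hj with h | h
      · rw [h]; exact h1
      · have h' : j = rj := h
        rw [h']; exact h2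
    exact noFib_quaternionic (u := li) (v := lj) (w := lk) li_skew lj_skew lk_skew
      (h2 (fun j => li * j = j * li) li_ri li_rj) (h2 (fun j => lj * j = j * lj) lj_ri lj_rj)
      (h2 (fun j => lk * j = j * lk) lk_ri lk_rj) li_lj lj_li lj_lk lk_lj lk_li li_lk li_ne
      hp hqr.1 hqr.2

end F31343
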