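import Mathlib

/-!
# MP_f31343_gt, piece B1: the signs

`cosh_mu`: `cosh d(u i, i) = (a² + b² + c² + d²) / 2`. `isPreconnected_far`: the set of all
`u ∈ SL(2, ℝ)` with `d(u i, i) > R` is connected. `signs`: if `Γ` acts on `SL(2, ℝ)` by
`u ↦ ρ_a(k) u ρ_b(k)⁻¹` with a compact set meeting every orbit and `|μ_a - μ_b| → ∞`, then
`μ_a - μ_b → ∞` or `μ_b - μ_a → ∞`.
-/

set_option autoImplicit false

namespace F31343

open UpperHalfPlane Set
open scoped MatrixGroups Topology

private noncomputable def mu (u : SL(2, ℝ)) : ℝ := dist (u • I) I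

private theorem mu_nonneg (u : SL(2, ℝ)) : 0 ≤ mu u := dist_nonneg

private theorem mu_inv (u : SL(2, ℝ)) : mu u⁻¹ = mu u := by
  unfold mu
  rw [← dist_smul u (u⁻¹ • I) I, smul_inv_smul, dist_comm]

private theorem mu_mul (u v : SL(2, ℝ)) : mu (u * v) ≤ mu u + mu v := by
  unfold mu
  calc dist ((u * v) • I) I ≤ dist ((u * v) • I) (u • I) + dist (u • I) I := dist_triangle _ _ _
    _ = dist (v • I) I + dist (u • I) I := by rw [mul_smul, dist_smul]
    _ = _ := add_comm _ _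

/-- `cosh d(u i, i) = (a² + b² + c² + d²) / 2`. -/
theorem cosh_mu (u : SL(2, ℝ)) : Real.cosh (dist (u • I) I) =
    ((u 0 0) ^ 2 + (u 0 1) ^ 2 + (u 1 0) ^ 2 + (u 1 1) ^ 2) / 2 := by
  have hdet : u 0 0 * u 1 1 - u 0 1 * u 1 0 = 1 := by
    have := u.det_coe
    rwa [Matrix.det_fin_two] at this
  set a := u 0 0
  set b := u 0 1
  set c := u 1 0
  set d := u 1 1
  have hs : 0 < c ^ 2 + d ^ 2 := by
    rcases eq_or_ne c 0 with h | h
    · have hd : d ≠ 0 := by
        rintro h'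
        rw [h, h'] at hdet
        norm_num at hdet
      positivity
    · positivity
  obtain ⟨x, hx⟩ : ∃ x : ℝ, x * (c ^ 2 + d ^ 2) = a * c + b * d :=
    ⟨(a * c + b * d) / (c ^ 2 + d ^ 2), by field_simp⟩
  obtain ⟨y, hy⟩ : ∃ y : ℝ, y * (c ^ 2 + d ^ 2) = 1 := ⟨1 / (c ^ 2 + d ^ 2), by field_simp⟩
  have hb : x * d - y * c = b := by
    have h : (x * d - y * c - b) * (c ^ 2 + d ^ 2) = 0 := by
      linear_combination d * hx - c * hy + c * hdet
    rcases mul_eq_zero.1 h with h | h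
    · linarith
    · exact absurd h hs.ne'
  have ha : x * c + y * d = a := by
    have h : (x * c + y * d - a) * (c ^ 2 + d ^ 2) = 0 := by
      linear_combination c * hx + d * hy - d * hdet
    rcases mul_eq_zero.1 h with h | h
    · linarith
    · exact absurd h hs.ne'
  have hcoe : ((u • I : ℍ) : ℂ) = (x : ℂ) + (y : ℂ) * Complex.I := by
    rw [coe_specialLinearGroup_apply]
    change ((a : ℂ) * Complex.I + (b : ℂ)) / ((c : ℂ) * Complex.I + (d : ℂ)) = _
    have hne : (c : ℂ) * Complex.I + (d : ℂ) ≠ 0 := by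
      intro h
      have h1 := congrArg Complex.re h
      have h2 := congrArg Complex.im h
      simp at h1 h2
      rw [h1, h2] at hs
      norm_num at hs
    rw [div_eq_iff hne]
    apply Complex.ext
    · simp
      linarith
    · simp
      linarith
  have hre : (u • I : ℍ).re = x := by
    have := congrArg Complex.re hcoe
    simpa using this
  have him : (u • I : ℍ).im = y := by
    have := congrArg Complex.im hcoe
    simpa using this
  have hy0 : 0 < y := by
    rw [← him]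
    exact (u • I).im_pos
  rw [cosh_dist', hre, him, I_re, I_im, div_eq_div_iff (by positivity) (by norm_num), ← ha, ← hb]
  linear_combination (-2 * (x ^ 2 + y ^ 2 + 1)) * hy

/-- The `KAK` parametrisation. -/
private noncomputable def par (q : ℝ × ℝ × ℝ) : SL(2, ℝ) :=
  ⟨!![Real.sqrt (1 + q.1 ^ 2) * Real.cos q.2.1 + q.1 * Real.cos q.2.2,
      Real.sqrt (1 + q.1 ^ 2) * Real.sin q.2.1 + q.1 * Real.sin q.2.2;
      q.1 * Real.sin q.2.2 - Real.sqrt (1 + q.1 ^ 2) * Real.sin q.2.1,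
      Real.sqrt (1 + q.1 ^ 2) * Real.cos q.2.1 - q.1 * Real.cos q.2.2], by
    rw [Matrix.det_fin_two_of]
    have h1 := Real.sq_sqrt (show (0 : ℝ) ≤ 1 + q.1 ^ 2 by positivity)
    have h2 := Real.sin_sq_add_cos_sq q.2.1
    have h3 := Real.sin_sq_add_cos_sq q.2.2
    linear_combination (Real.sin q.2.1 ^ 2 + Real.cos q.2.1 ^ 2) * h1 + (1 + q.1 ^ 2) * h2 -
      q.1 ^ 2 * h3⟩

private theorem par_cont : Continuous par := by
  refine Continuous.subtype_mk (continuous_matrix fun i j => ?_) _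
  fin_cases i <;> fin_cases j <;> simp <;> fun_prop

private theorem cosh_par (q : ℝ × ℝ × ℝ) : Real.cosh (mu (par q)) = 1 + 2 * q.1 ^ 2 := by
  unfold mu
  rw [cosh_mu]
  change ((Real.sqrt (1 + q.1 ^ 2) * Real.cos q.2.1 + q.1 * Real.cos q.2.2) ^ 2 +
      (Real.sqrt (1 + q.1 ^ 2) * Real.sin q.2.1 + q.1 * Real.sin q.2.2) ^ 2 +
      (q.1 * Real.sin q.2.2 - Real.sqrt (1 + q.1 ^ 2) * Real.sin q.2.1) ^ 2 +
      (Real.sqrt (1 + q.1 ^ 2) * Real.cos q.2.1 - q.1 * Real.cos q.2.2) ^ 2) / 2 = _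
  have h1 := Real.sq_sqrt (show (0 : ℝ) ≤ 1 + q.1 ^ 2 by positivity)
  have h2 := Real.sin_sq_add_cos_sq q.2.1
  have h3 := Real.sin_sq_add_cos_sq q.2.2
  linear_combination (Real.sin q.2.1 ^ 2 + Real.cos q.2.1 ^ 2) * h1 + (1 + q.1 ^ 2) * h2 +
      q.1 ^ 2 * h3

private theorem exists_par (u : SL(2, ℝ)) : ∃ q : ℝ × ℝ × ℝ, 0 ≤ q.1 ∧ par q = u := by
  have hdet : u 0 0 * u 1 1 - u 0 1 * u 1 0 = 1 := by
    have := u.det_coe
    rwa [Matrix.det_fin_two] at this
  let α : ℂ := ⟨(u 0 0 + u 1 1) / 2, (u 0 1 - u 1 0) / 2⟩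
  let β : ℂ := ⟨(u 0 0 - u 1 1) / 2, (u 0 1 + u 1 0) / 2⟩
  have hαβ : ‖α‖ ^ 2 = 1 + ‖β‖ ^ 2 := by
    rw [Complex.sq_norm, Complex.sq_norm, Complex.normSq_apply, Complex.normSq_apply]
    simp only [α, β]
    linear_combination hdet
  have hα : ‖α‖ = Real.sqrt (1 + ‖β‖ ^ 2) := by
    rw [← hαβ, Real.sqrt_sq (norm_nonneg _)]
  have e1 := Complex.norm_mul_cos_arg α
  have e2 := Complex.norm_mul_sin_arg α
  have e3 := Complex.norm_mul_cos_arg β
  have e4 := Complex.norm_mul_sin_arg β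
  rw [hα] at e1 e2
  refine ⟨(‖β‖, α.arg, β.arg), norm_nonneg _, ?_⟩
  apply Subtype.ext
  ext i j
  fin_cases i <;> fin_cases j
  · change Real.sqrt (1 + ‖β‖ ^ 2) * Real.cos α.arg + ‖β‖ * Real.cos β.arg = u 0 0
    rw [e1, e3]
    simp only [α, β]
    ring
  · change Real.sqrt (1 + ‖β‖ ^ 2) * Real.sin α.arg + ‖β‖ * Real.sin β.arg = u 0 1
    rw [e2, e4]
    simp only [α, β]
    ring
  · change ‖β‖ * Real.sin β.arg - Real.sqrt (1 + ‖β‖ ^ 2) * Real.sin α.arg = u 1 0
    rw [e2, e4]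
    simp only [α, β]
    ring
  · change Real.sqrt (1 + ‖β‖ ^ 2) * Real.cos α.arg - ‖β‖ * Real.cos β.arg = u 1 1
    rw [e1, e3]
    simp only [α, β]
    ring

/-- `{u ∈ SL(2, ℝ) : d(u i, i) > R}` is connected. -/
theorem isPreconnected_far (R : ℝ) : IsPreconnected {u : SL(2, ℝ) | R < dist (u • I) I} := by
  rcases lt_or_ge R 0 with hR | hR
  · have h : {u : SL(2, ℝ) | R < dist (u • I) I} = par '' (Ici 0 ×ˢ univ) := by
      ext u
      constructor
      · intro _
        obtain ⟨q, hq, rfl⟩ := exists_par u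
        exact ⟨q, ⟨hq, mem_univ _⟩, rfl⟩
      · intro _
        exact lt_of_lt_of_le hR dist_nonneg
    rw [h]
    exact (isPreconnected_Ici.prod isPreconnected_univ).image _ par_cont.continuousOn
  · have h : {u : SL(2, ℝ) | R < dist (u • I) I} =
        par '' (Ioi (Real.sqrt ((Real.cosh R - 1) / 2)) ×ˢ univ) := by
      have hc : 0 ≤ (Real.cosh R - 1) / 2 := by
        have := Real.one_le_cosh R
        linarith
      ext u
      constructor
      · intro hu
        obtain ⟨q, hq, rfl⟩ := exists_par u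
        refine ⟨q, ⟨?_, mem_univ _⟩, rfl⟩
        rw [mem_Ioi, Real.sqrt_lt' (lt_of_le_of_ne hq ?_)]
        · have h1 : Real.cosh R < Real.cosh (mu (par q)) := by
            rw [Real.cosh_lt_cosh, abs_of_nonneg hR, abs_of_nonneg (mu_nonneg _)]
            exact hu
          rw [cosh_par] at h1
          linarith
        · intro h0
          have h1 : Real.cosh R < Real.cosh (mu (par q)) := by
            rw [Real.cosh_lt_cosh, abs_of_nonneg hR, abs_of_nonneg (mu_nonneg _)]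
            exact hu
          rw [cosh_par, ← h0] at h1
          have := Real.one_le_cosh R
          norm_num at h1
          linarith
      · rintro ⟨q, ⟨hq, -⟩, rfl⟩
        rw [mem_Ioi, Real.sqrt_lt' (lt_of_le_of_lt (Real.sqrt_nonneg _) hq)] at hq
        have h1 : Real.cosh R < Real.cosh (mu (par q)) := by
          rw [cosh_par]
          linarith
        rw [Real.cosh_lt_cosh, abs_of_nonneg hR, abs_of_nonneg (mu_nonneg _)] at h1
        exact h1
    rw [h]
    exact (isPreconnected_Ioi.prod isPreconnected_univ).image _ par_cont.continuousOn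

/-- the translate of `C` -/
private def T {Gam : Type*} [Group Gam] (ra rb : Gam →* SL(2, ℝ)) (C : Set SL(2, ℝ)) (k : Gam) :
    Set SL(2, ℝ) := {u | ra k * u * (rb k)⁻¹ ∈ C}

private theorem diff_le {Gam : Type*} [Group Gam] (ra rb : Gam →* SL(2, ℝ)) (k : Gam)
    (u : SL(2, ℝ)) : |mu (ra k) - mu (rb k)| ≤ mu u + mu (ra k * u * (rb k)⁻¹) := by
  rw [abs_le]
  constructor
  · have h : mu (rb k) ≤ mu (ra k * u * (rb k)⁻¹)⁻¹ + mu (ra k * u) := by
      have e : rb k = (ra k * u * (rb k)⁻¹)⁻¹ * (ra k * u) := by group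
      calc mu (rb k) = mu ((ra k * u * (rb k)⁻¹)⁻¹ * (ra k * u)) := by rw [← e]
        _ ≤ _ := mu_mul _ _
    rw [mu_inv] at h
    have h2 := mu_mul (ra k) u
    linarith
  · have h : mu (ra k) ≤ mu (ra k * u * (rb k)⁻¹) + mu (rb k * u⁻¹) := by
      have e : ra k = (ra k * u * (rb k)⁻¹) * (rb k * u⁻¹) := by group
      calc mu (ra k) = mu ((ra k * u * (rb k)⁻¹) * (rb k * u⁻¹)) := by rw [← e]
        _ ≤ _ := mu_mul _ _
    have h2 := mu_mul (rb k) u⁻¹
    rw [mu_inv] at h2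
    linarith

/-- **Signs.** If a compact set meets every orbit of `u ↦ ρ_a(k) u ρ_b(k)⁻¹` on `SL(2, ℝ)` and
`|μ_a - μ_b| → ∞` along `Γ`, then `μ_a - μ_b → ∞` or `μ_b - μ_a → ∞`. -/
theorem signs {Gam : Type*} [Group Gam] (ra rb : Gam →* SL(2, ℝ))
    (hP : ∀ R : ℝ, {k | |dist (ra k • I) I - dist (rb k • I) I| ≤ R}.Finite)
    (C : Set SL(2, ℝ)) (hC : IsCompact C) (hcov : ∀ u : SL(2, ℝ), ∃ k, ra k * u * (rb k)⁻¹ ∈ C) :
    (∀ R : ℝ, {k | dist (ra k • I) I - dist (rb k • I) I ≤ R}.Finite) ∨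
      (∀ R : ℝ, {k | dist (rb k • I) I - dist (ra k • I) I ≤ R}.Finite) := by
  classical
  have hmc : Continuous (fun u : SL(2, ℝ) => mu u) :=
    (continuous_id.smul continuous_const).dist continuous_const
  obtain ⟨f, hf⟩ : ∃ f : Gam → ℝ, ∀ k, f k = mu (ra k) - mu (rb k) := ⟨_, fun _ => rfl⟩
  have hP' : ∀ R : ℝ, {k | |f k| ≤ R}.Finite := by
    intro R
    refine (hP R).subset fun k hk => ?_
    change |f k| ≤ R at hk
    rw [hf] at hk
    exact hk
  obtain ⟨m, hm⟩ : ∃ m, ∀ c ∈ C, mu c ≤ m := by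
    obtain ⟨m, hm⟩ := hC.bddAbove_image hmc.continuousOn
    exact ⟨m, fun c hc => hm ⟨c, hc, rfl⟩⟩
  obtain ⟨M, hM⟩ : ∃ M, ∀ δ : Gam, |f δ| ≤ 2 * m → mu (ra δ) + mu (rb δ) ≤ M := by
    obtain ⟨M, hM⟩ := ((hP' (2 * m)).image fun δ => mu (ra δ) + mu (rb δ)).bddAbove
    exact ⟨M, fun δ hδ => hM ⟨δ, hδ, rfl⟩⟩
  have hkl : ∀ (k l : Gam) (u : SL(2, ℝ)), u ∈ T ra rb C k → u ∈ T ra rb C l →
      |f k - f l| ≤ M := by
    intro k l u hk hl
    have e : ra (l * k⁻¹) * (ra k * u * (rb k)⁻¹) * (rb (l * k⁻¹))⁻¹ = ra l * u * (rb l)⁻¹ := by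
      rw [map_mul, map_mul, map_inv, map_inv]
      group
    have h1 := diff_le ra rb (l * k⁻¹) (ra k * u * (rb k)⁻¹)
    rw [e, ← hf] at h1
    have h2 := hm _ hk
    have h3 := hm _ hl
    have h4 := hM (l * k⁻¹) (by linarith)
    have step : ∀ x y : SL(2, ℝ), |mu (x * y) - mu y| ≤ mu x := by
      intro x y
      have s1 := mu_mul x y
      have s2 := mu_mul x⁻¹ (x * y)
      rw [inv_mul_cancel_left, mu_inv] at s2
      rw [abs_le]
      constructor <;> linarith
    have a1 := step (ra (l * k⁻¹)) (ra k)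
    have a2 := step (rb (l * k⁻¹)) (rb k)
    rw [← map_mul, inv_mul_cancel_right] at a1 a2
    rw [abs_le] at a1 a2 ⊢
    rw [hf, hf]
    constructor <;> linarith [a1.1, a1.2, a2.1, a2.2]
  have hTu : ∀ (k : Gam) (u : SL(2, ℝ)), u ∈ T ra rb C k → |f k| ≤ mu u + m := by
    intro k u hu
    have h1 := diff_le ra rb k u
    have h2 := hm _ hu
    rw [← hf] at h1
    linarith
  have hclosed : ∀ A : Set Gam, IsClosed (⋃ k : A, T ra rb C k) := by
    intro A
    refine LocallyFinite.isClosed_iUnion ?_ ?_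
    · have hlf : LocallyFinite fun k : Gam => T ra rb C k := by
        intro u
        refine ⟨{w | mu w < mu u + 1}, (isOpen_lt hmc continuous_const).mem_nhds (by
          change mu u < mu u + 1
          linarith), ?_⟩
        refine (hP' (mu u + 1 + m)).subset ?_
        rintro k ⟨w, hw, hw'⟩
        have h1 := hTu k w hw
        have h2 : mu w < mu u + 1 := hw'
        change |f k| ≤ mu u + 1 + m
        linarith
      exact hlf.comp_injective Subtype.val_injective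
    · intro k
      exact hC.isClosed.preimage (by fun_prop)
  obtain ⟨t, ht0, htM⟩ : ∃ t : ℝ, 0 < t ∧ M < t := ⟨max M 0 + 1, by positivity, by
    have := le_max_left M 0
    linarith⟩
  obtain ⟨R1, hR1⟩ : ∃ R1 : ℝ, ∀ k : Gam, |f k| ≤ t → ∀ u ∈ T ra rb C k, mu u ≤ R1 := by
    obtain ⟨B, hB⟩ := ((hP' t).image fun k => mu (ra k) + mu (rb k)).bddAbove
    refine ⟨B + m, fun k hk u hu => ?_⟩
    have h1 : mu (ra k) + mu (rb k) ≤ B := hB ⟨k, hk, rfl⟩
    have h2 := hm _ hu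
    have e : u = (ra k)⁻¹ * ((ra k * u * (rb k)⁻¹) * rb k) := by group
    have h3 : mu u ≤ mu (ra k)⁻¹ + mu ((ra k * u * (rb k)⁻¹) * rb k) := by
      calc mu u = mu ((ra k)⁻¹ * ((ra k * u * (rb k)⁻¹) * rb k)) := by rw [← e]
        _ ≤ _ := mu_mul _ _
    have h4 := mu_mul (ra k * u * (rb k)⁻¹) (rb k)
    rw [mu_inv] at h3
    linarith
  obtain ⟨k0, hk0⟩ := hcov 1
  have key : ∀ s : ℝ, |s| = 1 → ({u : SL(2, ℝ) | R1 < dist (u • I) I} ⊆
      ⋃ k : {k | t < s * f k}, T ra rb C k) → ∀ R, {k | s * f k ≤ R}.Finite := by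
    intro s hs hE R
    have hsf : ∀ k, |s * f k| = |f k| := fun k => by rw [abs_mul, hs, one_mul]
    refine ((hP' (max (R1 + m) (max R t)))).subset ?_
    intro k hk
    change |f k| ≤ _
    by_cases h1 : s * f k < -t
    · have hmem : (ra k)⁻¹ * (ra k0 * 1 * (rb k0)⁻¹) * rb k ∈ T ra rb C k := by
        change ra k * ((ra k)⁻¹ * (ra k0 * 1 * (rb k0)⁻¹) * rb k) * (rb k)⁻¹ ∈ C
        have e : ra k * ((ra k)⁻¹ * (ra k0 * 1 * (rb k0)⁻¹) * rb k) * (rb k)⁻¹ =
            ra k0 * 1 * (rb k0)⁻¹ := by group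
        rw [e]
        exact hk0
      have h2 : mu ((ra k)⁻¹ * (ra k0 * 1 * (rb k0)⁻¹) * rb k) ≤ R1 := by
        by_contra h3
        obtain ⟨⟨l, hl⟩, hl'⟩ := mem_iUnion.1 (hE (not_le.1 h3))
        have h4 := hkl l k _ hl' hmem
        have h5 : |s * f l - s * f k| ≤ M := by
          rw [← mul_sub, abs_mul, hs, one_mul]
          exact h4
        have h6 : t < s * f l := hl
        have h7 := (abs_le.1 h5).2
        linarith
      have h8 := hTu k _ hmem
      exact le_trans (by linarith) (le_max_left _ _)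
    · refine le_trans ?_ (le_max_right _ _)
      rw [← hsf, abs_le]
      have h2 : s * f k ≤ R := hk
      have h3 := le_max_left R t
      have h4 := le_max_right R t
      constructor <;> linarith
  have hcover : {u : SL(2, ℝ) | R1 < dist (u • I) I} ⊆
      (⋃ k : {k | t < 1 * f k}, T ra rb C k) ∪ (⋃ k : {k | t < -1 * f k}, T ra rb C k) := by
    intro u hu
    obtain ⟨k, hk⟩ := hcov u
    have h1 : t < |f k| := by
      by_contra h2
      exact absurd (hR1 k (not_lt.1 h2) u hk) (not_le.2 hu)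
    rcases lt_abs.1 h1 with h2 | h2
    · exact Or.inl (mem_iUnion.2 ⟨⟨k, by change t < 1 * f k; linarith⟩, hk⟩)
    · exact Or.inr (mem_iUnion.2 ⟨⟨k, by change t < -1 * f k; linarith⟩, hk⟩)
  have hdisj : {u : SL(2, ℝ) | R1 < dist (u • I) I} ∩
      ((⋃ k : {k | t < 1 * f k}, T ra rb C k) ∩ (⋃ k : {k | t < -1 * f k}, T ra rb C k)) = ∅ := by
    rw [eq_empty_iff_forall_notMem]
    rintro u ⟨-, h1, h2⟩
    obtain ⟨⟨k, hk⟩, hk'⟩ := mem_iUnion.1 h1
    obtain ⟨⟨l, hl⟩, hl'⟩ := mem_iUnion.1 h2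
    have h3 := (abs_le.1 (hkl k l u hk' hl')).2
    have h4 : t < 1 * f k := hk
    have h5 : t < -1 * f l := hl
    linarith
  rcases isPreconnected_iff_subset_of_disjoint_closed.1 (isPreconnected_far R1) _ _ (hclosed _)
    (hclosed _) hcover hdisj with h | h
  · left
    intro R
    refine (key 1 abs_one h R).subset fun k hk => ?_
    have h1 : dist (ra k • I) I - dist (rb k • I) I ≤ R := hk
    change 1 * f k ≤ R
    rw [hf, one_mul]
    exact h1
  · right
    intro R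
    refine (key (-1) (by norm_num) h R).subset fun k hk => ?_
    have h1 : dist (rb k • I) I - dist (ra k • I) I ≤ R := hk
    change -1 * f k ≤ R
    rw [hf]
    change -1 * (dist (ra k • I) I - dist (rb k • I) I) ≤ R
    linarith

end F31343
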