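import Mathlib

/-!
# MP_f31343_gt, piece B2: a dominating representation with a covering property is cocompact on `ℍ`

`four_pt`: the four point inequality of the upper half plane (from Ptolemy's inequality).
`seg`: points on segments. `helly`: coarse Helly property of balls.
`cocompact_of_dominates`: if `μ_a - μ_b → ∞` and every `u` of `SL(2, ℝ)` is within bounded distance of some
`ρ_a(g) ρ_b(g)⁻¹`, then the orbit of `ρ_a` is a net in `ℍ`.
-/

set_option autoImplicit false

namespace F31343

open UpperHalfPlane Real Set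
open scoped MatrixGroups

private theorem sinh_ge {x : ℝ} (hx : 1 ≤ x) : Real.exp (x / 2) / 4 ≤ Real.sinh (x / 2) := by
  rw [Real.sinh_eq]
  have h1 : Real.exp (-(x / 2)) ≤ Real.exp (x / 2) / 2 := by
    have h2 : Real.exp (x / 2) = Real.exp x * Real.exp (-(x / 2)) := by
      rw [← Real.exp_add]
      congr 1
      ring
    have h3 : (2 : ℝ) ≤ Real.exp x := by
      have := Real.add_one_le_exp x
      linarith
    have h4 := Real.exp_pos (-(x / 2))
    rw [h2]
    nlinarith
  linarith

private theorem sinh_le (x : ℝ) : Real.sinh x ≤ Real.exp x / 2 := by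
  rw [Real.sinh_eq]
  have := Real.exp_pos (-x)
  linarith

/-- Ptolemy's inequality for `sinh (d / 2)`. -/
private theorem ptolemy (a b c d : ℍ) : Real.sinh (dist a c / 2) * Real.sinh (dist b d / 2) ≤
    Real.sinh (dist a b / 2) * Real.sinh (dist c d / 2) +
      Real.sinh (dist b c / 2) * Real.sinh (dist a d / 2) := by
  have h := EuclideanGeometry.mul_dist_le_mul_dist_add_mul_dist (a : ℂ) b c d
  rw [sinh_half_dist, sinh_half_dist, sinh_half_dist, sinh_half_dist, sinh_half_dist, sinh_half_dist]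
  have ha := a.im_pos
  have hb := b.im_pos
  have hc := c.im_pos
  have hd := d.im_pos
  rw [Real.sqrt_mul ha.le, Real.sqrt_mul hb.le, Real.sqrt_mul ha.le, Real.sqrt_mul hc.le,
    Real.sqrt_mul hb.le, Real.sqrt_mul ha.le]
  have ha' := Real.sqrt_pos.2 ha
  have hb' := Real.sqrt_pos.2 hb
  have hc' := Real.sqrt_pos.2 hc
  have hd' := Real.sqrt_pos.2 hd
  have e1 : dist (a : ℂ) c / (2 * (√a.im * √c.im)) * (dist (b : ℂ) d / (2 * (√b.im * √d.im))) =
      (dist (a : ℂ) c * dist (b : ℂ) d) / (4 * (√a.im * √b.im * √c.im * √d.im)) := by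
    field_simp
    ring
  have e2 : dist (a : ℂ) b / (2 * (√a.im * √b.im)) * (dist (c : ℂ) d / (2 * (√c.im * √d.im))) +
      dist (b : ℂ) c / (2 * (√b.im * √c.im)) * (dist (a : ℂ) d / (2 * (√a.im * √d.im))) =
      (dist (a : ℂ) b * dist (c : ℂ) d + dist (b : ℂ) c * dist (a : ℂ) d) /
        (4 * (√a.im * √b.im * √c.im * √d.im)) := by
    field_simp
    ring
  rw [e1, e2]
  exact div_le_div_of_nonneg_right h (by positivity)

/-- The four point inequality. -/
theorem four_pt (a b c d : ℍ) :
    dist a c + dist b d ≤ max (dist a b + dist c d) (dist b c + dist a d) + 6 := by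
  set M := max (dist a b + dist c d) (dist b c + dist a d) with hM
  have hP : dist a b + dist c d ≤ M := le_max_left _ _
  have hQ : dist b c + dist a d ≤ M := le_max_right _ _
  rcases le_total (dist a c) 1 with h1 | h1
  · have h2 : dist b d ≤ dist a b + dist a d := by
      have := dist_triangle b a d
      rwa [dist_comm b a] at this
    have h3 : dist b d ≤ dist b c + dist c d := dist_triangle b c d
    linarith
  rcases le_total (dist b d) 1 with h2 | h2
  · have h3 : dist a c ≤ dist a b + dist b c := dist_triangle a b c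
    have h4 : dist a c ≤ dist a d + dist c d := by
      have := dist_triangle a d c
      rwa [dist_comm d c] at this
    linarith
  have hp := ptolemy a b c d
  have s1 := sinh_ge h1
  have s2 := sinh_ge h2
  have l1 : Real.exp (dist a c / 2) / 4 * (Real.exp (dist b d / 2) / 4) ≤
      Real.sinh (dist a c / 2) * Real.sinh (dist b d / 2) :=
    mul_le_mul s1 s2 (by positivity) ((by positivity : (0 : ℝ) ≤ Real.exp (dist a c / 2) / 4).trans s1)
  have e1 : Real.exp (dist a c / 2) / 4 * (Real.exp (dist b d / 2) / 4) =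
      Real.exp ((dist a c + dist b d) / 2) / 16 := by
    rw [add_div, Real.exp_add]
    ring
  have key : ∀ x y : ℝ, 0 ≤ x → 0 ≤ y → x + y ≤ M → Real.sinh (x / 2) * Real.sinh (y / 2) ≤
      Real.exp (M / 2) / 4 := by
    intro x y hx hy hxy
    calc Real.sinh (x / 2) * Real.sinh (y / 2) ≤ Real.exp (x / 2) / 2 * (Real.exp (y / 2) / 2) :=
          mul_le_mul (sinh_le _) (sinh_le _) (Real.sinh_nonneg_iff.2 (by positivity)) (by positivity)
      _ = Real.exp ((x + y) / 2) / 4 := by rw [add_div, Real.exp_add]; ring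
      _ ≤ Real.exp (M / 2) / 4 := by
          have : Real.exp ((x + y) / 2) ≤ Real.exp (M / 2) := Real.exp_le_exp.2 (by linarith)
          linarith
  have k1 := key _ _ (dist_nonneg (x := a) (y := b)) (dist_nonneg (x := c) (y := d)) hP
  have k2 := key _ _ (dist_nonneg (x := b) (y := c)) (dist_nonneg (x := a) (y := d)) hQ
  have h8 : Real.exp ((dist a c + dist b d) / 2) ≤ 8 * Real.exp (M / 2) := by
    rw [e1] at l1
    linarith
  have h9 : (8 : ℝ) ≤ Real.exp 3 := by
    have h10 : (2 : ℝ) ≤ Real.exp 1 := by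
      have := Real.add_one_le_exp (1 : ℝ)
      linarith
    have h11 : Real.exp 3 = Real.exp 1 ^ 3 := by
      rw [← Real.exp_nat_mul]
      norm_num
    rw [h11]
    calc (8 : ℝ) = 2 ^ 3 := by norm_num
      _ ≤ Real.exp 1 ^ 3 := by gcongr
  have h12 : Real.exp ((dist a c + dist b d) / 2) ≤ Real.exp (M / 2 + 3) := by
    rw [Real.exp_add]
    have := Real.exp_pos (M / 2)
    nlinarith
  have h13 := Real.exp_le_exp.1 h12
  linarith

/-- The rotation by `θ` in `SL(2, ℝ)`. -/
noncomputable def rot (θ : ℝ) : SL(2, ℝ) :=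
  ⟨!![Real.cos θ, -Real.sin θ; Real.sin θ, Real.cos θ], by
    rw [Matrix.det_fin_two_of]
    have := Real.cos_sq_add_sin_sq θ
    nlinarith⟩

theorem continuous_rot : Continuous rot := by
  apply continuous_induced_rng.mpr
  refine continuous_matrix ?_
  intro i j
  fin_cases i <;> fin_cases j <;> simp [rot, Function.comp_def] <;> fun_prop

theorem rot_smul_I (θ : ℝ) : rot θ • UpperHalfPlane.I = UpperHalfPlane.I := by
  ext
  rw [UpperHalfPlane.coe_specialLinearGroup_apply]
  have h1 : ((Real.sin θ : ℂ) * Complex.I + (Real.cos θ : ℂ)) ≠ 0 := by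
    intro h
    have h2 := congrArg Complex.re h
    have h3 := congrArg Complex.im h
    simp at h2 h3
    have := Real.cos_sq_add_sin_sq θ
    have h4 : Real.cos θ = 0 := by exact_mod_cast h2
    have h5 : Real.sin θ = 0 := by exact_mod_cast h3
    rw [h4, h5] at this
    norm_num at this
  simp only [rot, Matrix.SpecialLinearGroup.coe_mk, Matrix.of_apply, Matrix.cons_val', Matrix.cons_val_zero,
    Matrix.cons_val_one, Matrix.cons_val_fin_one, Algebra.algebraMap_self, RingHom.id_apply, coe_I]
  rw [div_eq_iff h1]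
  have hI : Complex.I * Complex.I = -1 := Complex.I_mul_I
  push_cast
  linear_combination (-Complex.sin θ) * hI

/-- Rotations fix `I`, and some rotation moves a given point to the imaginary axis. -/
theorem exists_rot (w : ℍ) : ∃ θ : ℝ, (rot θ • w).re = 0 := by
  set f : ℝ → ℝ := fun θ => (rot θ • w).re with hf
  have hcont : Continuous f := by
    have h1 : Continuous fun θ => rot θ • w := continuous_rot.smul continuous_const
    exact UpperHalfPlane.continuous_re.comp h1
  have h0 : rot 0 • w = w := by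
    have : rot 0 = 1 := by
      ext i j
      fin_cases i <;> fin_cases j <;> simp [rot]
    rw [this, one_smul]
  have h1 : (rot (Real.pi / 2) • w).re = -w.re / Complex.normSq w := by
    have h2 : ((rot (Real.pi / 2) • w : ℍ) : ℂ) = -(w : ℂ)⁻¹ := by
      rw [UpperHalfPlane.coe_specialLinearGroup_apply]
      simp [rot, neg_div]
    have h3 : (rot (Real.pi / 2) • w).re = ((rot (Real.pi / 2) • w : ℍ) : ℂ).re := rfl
    rw [h3, h2]
    simp [Complex.inv_re, neg_div]
  have hn : 0 < Complex.normSq w := Complex.normSq_pos.2 w.ne_zero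
  have hs : (0 : ℝ) ∈ Set.uIcc (f 0) (f (Real.pi / 2)) := by
    rw [hf]
    simp only [h0, h1]
    rw [Set.mem_uIcc]
    rcases le_total 0 w.re with h | h
    · right
      exact ⟨by rw [neg_div]; exact neg_nonpos.2 (div_nonneg h hn.le), h⟩
    · left
      exact ⟨h, by rw [neg_div]; exact neg_nonneg.2 (div_nonpos_of_nonpos_of_nonneg h hn.le)⟩
  obtain ⟨θ, _, hθ⟩ := intermediate_value_uIcc hcont.continuousOn hs
  exact ⟨θ, hθ⟩

/-- Two points can be moved to `I` and to the imaginary axis. -/
theorem exists_axis (y w : ℍ) : ∃ g : SL(2, ℝ), g • y = UpperHalfPlane.I ∧ (g • w).re = 0 := by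
  obtain ⟨g, hg⟩ := MulAction.exists_smul_eq SL(2, ℝ) y UpperHalfPlane.I
  obtain ⟨θ, hθ⟩ := exists_rot (g • w)
  exact ⟨rot θ * g, by rw [mul_smul, hg, rot_smul_I], by rw [mul_smul]; exact hθ⟩

/-- Points on segments. -/
theorem seg (y w : ℍ) (t : ℝ) (h0 : 0 ≤ t) (h1 : t ≤ dist y w) :
    ∃ p : ℍ, dist y p = t ∧ dist p w = dist y w - t := by
  obtain ⟨g, hg, hw⟩ := exists_axis y w
  set s : ℝ := Real.log (g • w).im with hs
  have hr : dist y w = |s| := by
    rw [← dist_smul g y w, hg, dist_of_re_eq (by rw [hw, UpperHalfPlane.I_re]), UpperHalfPlane.I_im,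
      Real.log_one, Real.dist_eq, zero_sub, abs_neg]
  set q : ℝ := t / |s| with hq
  have hq0 : 0 ≤ q := div_nonneg h0 (abs_nonneg _)
  have hqs : q * |s| = t := by
    rcases eq_or_ne |s| 0 with h | h
    · rw [hr, h] at h1
      rw [h, mul_zero]
      linarith
    · rw [hq, div_mul_cancel₀ _ h]
  have hq1 : q ≤ 1 := by
    rw [hr] at h1
    exact div_le_one_of_le₀ h1 (abs_nonneg _)
  set p' : ℍ := ⟨⟨0, Real.exp (q * s)⟩, Real.exp_pos _⟩ with hp'
  have hpre : p'.re = 0 := rfl
  have hpim : p'.im = Real.exp (q * s) := rfl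
  refine ⟨g⁻¹ • p', ?_, ?_⟩
  · rw [← dist_smul g, hg, smul_inv_smul, dist_of_re_eq (by rw [hpre, UpperHalfPlane.I_re]), hpim,
      UpperHalfPlane.I_im, Real.log_one, Real.log_exp, Real.dist_eq, zero_sub, abs_neg, abs_mul,
      abs_of_nonneg hq0, hqs]
  · rw [← dist_smul g, smul_inv_smul, dist_of_re_eq (by rw [hpre, hw]), hpim, Real.log_exp, ← hs,
      Real.dist_eq, hr]
    have h2 : q * s - s = -((1 - q) * s) := by ring
    rw [h2, abs_neg, abs_mul, abs_of_nonneg (by linarith), sub_mul, one_mul, hqs]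

/-- Coarse Helly property: balls which pairwise could meet have an approximate common point. -/
theorem helly {ι : Type*} (o : ℍ) (w : ι → ℍ) (r : ι → ℝ) (hw : ∀ i j, dist (w i) (w j) ≤ r i + r j)
    (hb : BddAbove (range fun i => dist o (w i) - r i)) : ∃ p : ℍ, ∀ i, dist p (w i) ≤ r i + 7 := by
  have hr : ∀ i, 0 ≤ r i := by
    intro i
    have := hw i i
    rw [dist_self] at this
    linarith
  by_cases hall : ∀ i, dist o (w i) ≤ r i + 7
  · exact ⟨o, hall⟩
  push Not at hall
  obtain ⟨i1, hi1⟩ := hall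
  set M := ⨆ i, (dist o (w i) - r i) with hM
  have hle : ∀ i, dist o (w i) - r i ≤ M := fun i => le_ciSup hb i
  have hM7 : 7 < M := by
    have := hle i1
    linarith
  have : Nonempty ι := ⟨i1⟩
  obtain ⟨i0, hi0⟩ := exists_lt_of_lt_ciSup (show M - 1 < ⨆ i, (dist o (w i) - r i) by rw [← hM]; linarith)
  obtain ⟨p, hp1, hp2⟩ := seg o (w i0) (dist o (w i0) - r i0) (by linarith) (by have := hr i0; linarith)
  refine ⟨p, fun i => ?_⟩
  have h4 := four_pt p o (w i) (w i0)
  have h5 := hle i
  have h6 := hw i i0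
  rw [dist_comm p o, hp1, hp2] at h4
  rcases max_cases (dist o (w i0) - r i0 + dist (w i) (w i0)) (dist o (w i) +
    (dist o (w i0) - (dist o (w i0) - r i0))) with ⟨h7, _⟩ | ⟨h7, _⟩
  · rw [h7] at h4
    linarith
  · rw [h7] at h4
    linarith

/-- If `μ_a - μ_b → ∞` and every `u` is within bounded distance of some `ρ_a(g) ρ_b(g)⁻¹`, then the orbit
of `ρ_a` is a net. -/
theorem cocompact_of_dominates {Gam : Type*} [Group Gam] (ra rb : Gam →* SL(2, ℝ))
    (hfin : ∀ R : ℝ, {k : Gam | dist (ra k • UpperHalfPlane.I) UpperHalfPlane.I -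
      dist (rb k • UpperHalfPlane.I) UpperHalfPlane.I ≤ R}.Finite) (c : ℝ)
    (hC : ∀ u : SL(2, ℝ), ∃ g, dist (u • rb g • UpperHalfPlane.I) (ra g • UpperHalfPlane.I) ≤ c) :
    ∃ R0 : ℝ, ∀ y : ℍ, ∃ g, dist y (ra g • UpperHalfPlane.I) ≤ R0 := by
  set T : ℝ := |c| + 8 with hT
  have hT0 : 8 ≤ T := by
    have := abs_nonneg c
    linarith
  have hcT : c + 8 ≤ T := by
    have := le_abs_self c
    linarith
  obtain ⟨R, hR0, hR⟩ : ∃ R : ℝ, 0 ≤ R ∧ ∀ k ∈ {k : Gam | dist (ra k • UpperHalfPlane.I) UpperHalfPlane.I -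
      dist (rb k • UpperHalfPlane.I) UpperHalfPlane.I ≤ 2 * T},
      dist (rb k • UpperHalfPlane.I) UpperHalfPlane.I ≤ R := by
    obtain ⟨R, hR⟩ := ((hfin (2 * T)).image
      (fun k => dist (rb k • UpperHalfPlane.I) UpperHalfPlane.I)).bddAbove
    refine ⟨max R 0, le_max_right _ _, fun k hk => le_max_of_le_left ?_⟩
    exact hR (mem_image_of_mem _ hk)
  refine ⟨R + 7 + |c|, fun y => ?_⟩
  set z : Gam → ℍ := fun g => ra g • UpperHalfPlane.I with hz
  set w : Gam → ℍ := fun g => rb g • UpperHalfPlane.I with hw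
  set r : Gam → ℝ := fun g => max R (dist y (z g) - T) with hr
  have hrR : ∀ g, R ≤ r g := fun g => le_max_left _ _
  have hrT : ∀ g, dist y (z g) - T ≤ r g := fun g => le_max_right _ _
  have inv : ∀ (ρ : Gam →* SL(2, ℝ)) (g h : Gam), dist (ρ g • UpperHalfPlane.I) (ρ h • UpperHalfPlane.I) =
      dist (ρ (g⁻¹ * h) • UpperHalfPlane.I) UpperHalfPlane.I := by
    intro ρ g h
    rw [← dist_smul (ρ g) (ρ (g⁻¹ * h) • UpperHalfPlane.I), ← mul_smul, ← map_mul, mul_inv_cancel_left,
      dist_comm]
  obtain ⟨p, hp⟩ := helly UpperHalfPlane.I w r (by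
    intro g h
    by_cases hk : g⁻¹ * h ∈ {k : Gam | dist (ra k • UpperHalfPlane.I) UpperHalfPlane.I -
      dist (rb k • UpperHalfPlane.I) UpperHalfPlane.I ≤ 2 * T}
    · have h1 := hR _ hk
      have h2 : dist (w g) (w h) ≤ R := by
        rw [hw]
        simp only
        rw [inv rb]
        exact h1
      have := hrR g
      have := hrR h
      linarith
    · rw [Set.mem_ofPred_eq, not_le] at hk
      rw [← inv ra, ← inv rb] at hk
      have h3 : dist (z g) (z h) ≤ dist y (z g) + dist y (z h) := by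
        have := dist_triangle (z g) y (z h)
        rwa [dist_comm (z g) y] at this
      have := hrT g
      have := hrT h
      change 2 * T < dist (z g) (z h) - dist (w g) (w h) at hk
      linarith) (by
    refine ⟨dist UpperHalfPlane.I y + T, ?_⟩
    rintro _ ⟨g, rfl⟩
    simp only
    by_cases hk : g ∈ {k : Gam | dist (ra k • UpperHalfPlane.I) UpperHalfPlane.I -
      dist (rb k • UpperHalfPlane.I) UpperHalfPlane.I ≤ 2 * T}
    · have h1 := hR _ hk
      have h2 : dist UpperHalfPlane.I (w g) ≤ R := by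
        rw [dist_comm]
        exact h1
      have := hrR g
      have := dist_nonneg (x := UpperHalfPlane.I) (y := y)
      linarith
    · rw [Set.mem_ofPred_eq, not_le] at hk
      have h2 : dist UpperHalfPlane.I (w g) = dist (rb g • UpperHalfPlane.I) UpperHalfPlane.I := dist_comm _ _
      have h3 : dist (ra g • UpperHalfPlane.I) UpperHalfPlane.I ≤ dist y (z g) + dist UpperHalfPlane.I y := by
        have := dist_triangle (ra g • UpperHalfPlane.I) y UpperHalfPlane.I
        rw [dist_comm (ra g • UpperHalfPlane.I) y, dist_comm y UpperHalfPlane.I] at this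
        exact this
      have := hrT g
      linarith)
  obtain ⟨u, hu⟩ := MulAction.exists_smul_eq SL(2, ℝ) p y
  obtain ⟨g, hg⟩ := hC u
  refine ⟨g, ?_⟩
  have h1 : dist y (z g) ≤ dist p (w g) + c := by
    have h2 : dist y (u • w g) = dist p (w g) := by rw [← hu, dist_smul]
    have h3 := dist_triangle y (u • w g) (z g)
    rw [h2] at h3
    exact h3.trans (by gcongr)
  have h4 := hp g
  have hc := le_abs_self c
  change dist y (z g) ≤ R + 7 + |c|
  rcases max_cases R (dist y (z g) - T) with ⟨h7, _⟩ | ⟨h7, _⟩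
  · have : r g = R := h7
    linarith
  · have : r g = dist y (z g) - T := h7
    linarith

end F31343
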