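import Pool.Agent.Lib_MP_f31343.DisB2

/-!
# MP_f31343_gt, piece B3: growth

If `μ_a - μ_b → ∞`, `ρ_b` is proper and the orbit of `ρ_a` is a net in `ℍ`, there is a contradiction: with
`N(R) = #{μ_a ≤ R}` one has `N(R) ≤ m N(R - L) + C_L` for every `L` (`m` fixed), but `N(R) ≥ c e^(R/2)`.
-/

set_option autoImplicit false

namespace F31343

open UpperHalfPlane Real Set
open scoped MatrixGroups

private theorem cosh_le_exp {x : ℝ} (hx : 0 ≤ x) : Real.cosh x ≤ Real.exp x := by
  rw [Real.cosh_eq]
  have : Real.exp (-x) ≤ Real.exp x := Real.exp_le_exp.2 (by linarith)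
  linarith

private theorem exp_le_cosh (x : ℝ) : Real.exp x / 2 ≤ Real.cosh x := by
  rw [Real.cosh_eq]
  have : 0 < Real.exp (-x) := Real.exp_pos _
  linarith

/-- distances on the horocycle through `I` -/
private theorem cosh_horo (x y : ℝ) : Real.cosh (dist (x +ᵥ UpperHalfPlane.I) (y +ᵥ UpperHalfPlane.I)) =
    1 + (x - y) ^ 2 / 2 := by
  rw [cosh_dist, coe_vadd, coe_vadd, vadd_im, vadd_im, UpperHalfPlane.I_im, dist_add_right,
    Complex.dist_eq, ← Complex.ofReal_sub, Complex.norm_real, Real.norm_eq_abs, sq_abs]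
  norm_num

/-- The growth of the orbit counting function is at least `e^(R/2)`. -/
private theorem growth_lower {Gam : Type*} (z : Gam → ℍ) (R0 : ℝ) (hR0 : 0 ≤ R0)
    (hco : ∀ y : ℍ, ∃ g, dist y (z g) ≤ R0) (N : ℕ)
    (hf : {k : Gam | dist (z k) UpperHalfPlane.I ≤ R0 + 2 * Real.log (N * (2 * Real.exp R0) + 2)}.Finite) :
    N + 1 ≤ {k : Gam | dist (z k) UpperHalfPlane.I ≤
      R0 + 2 * Real.log (N * (2 * Real.exp R0) + 2)}.ncard := by
  classical
  set D : ℝ := 2 * Real.exp R0 with hD
  have hD0 : 0 < D := by positivity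
  choose g hg using hco
  set y : ℕ → ℍ := fun n => ((n : ℝ) * D) +ᵥ UpperHalfPlane.I with hy
  have hinj : ∀ n n' : ℕ, g (y n) = g (y n') → n = n' := by
    intro n n' h
    by_contra hne
    have h1 : dist (y n) (y n') ≤ 2 * R0 := by
      have h2 := dist_triangle (y n) (z (g (y n))) (y n')
      have h3 := hg (y n)
      have h4 := hg (y n')
      rw [← h, dist_comm] at h4
      linarith
    have h5 : Real.cosh (dist (y n) (y n')) ≤ Real.exp (2 * R0) := by
      refine le_trans ?_ (cosh_le_exp (by linarith))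
      exact (Real.cosh_le_cosh).2 (by
        rw [abs_of_nonneg dist_nonneg, abs_of_nonneg (by linarith)]
        exact h1)
    rw [hy] at h5
    simp only at h5
    rw [cosh_horo] at h5
    have h6 : (1 : ℝ) ≤ ((n : ℝ) - n') ^ 2 := by
      have h7 : (1 : ℤ) ≤ ((n : ℤ) - n') ^ 2 := by
        have h8 : (n : ℤ) - n' ≠ 0 := by omega
        have h9 : 0 < ((n : ℤ) - n') ^ 2 := by positivity
        omega
      exact_mod_cast h7
    have h7 : ((n : ℝ) * D - (n' : ℝ) * D) ^ 2 = ((n : ℝ) - n') ^ 2 * D ^ 2 := by ring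
    have h8 : D ^ 2 = 4 * Real.exp (2 * R0) := by
      rw [hD, mul_pow, ← Real.exp_nat_mul]
      norm_num
    rw [h7, h8] at h5
    have h9 := Real.exp_pos (2 * R0)
    nlinarith
  have hmem : ∀ n ∈ Finset.range (N + 1), g (y n) ∈ {k : Gam | dist (z k) UpperHalfPlane.I ≤
      R0 + 2 * Real.log (N * D + 2)} := by
    intro n hn
    have hn' : (n : ℝ) ≤ N := by exact_mod_cast Nat.lt_succ_iff.1 (Finset.mem_range.1 hn)
    have hpos : (0 : ℝ) < N * D + 2 := by positivity
    have h1 : dist (y n) UpperHalfPlane.I ≤ 2 * Real.log (N * D + 2) := by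
      have hl : 0 ≤ 2 * Real.log (N * D + 2) := by
        have : 0 ≤ Real.log (N * D + 2) := Real.log_nonneg (by
          have : (0 : ℝ) ≤ N * D := by positivity
          linarith)
        linarith
      have h2 : Real.cosh (dist (y n) UpperHalfPlane.I) ≤ Real.cosh (2 * Real.log (N * D + 2)) := by
        have h3 : UpperHalfPlane.I = ((0 : ℝ) +ᵥ UpperHalfPlane.I : ℍ) := by rw [zero_vadd]
        have h4 : Real.cosh (dist (y n) UpperHalfPlane.I) = 1 + ((n : ℝ) * D - 0) ^ 2 / 2 := by
          rw [← cosh_horo, zero_vadd]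
        rw [h4, sub_zero]
        refine le_trans ?_ (exp_le_cosh _)
        have h5 : Real.exp (2 * Real.log (N * D + 2)) = (N * D + 2) ^ 2 := by
          rw [two_mul, Real.exp_add, Real.exp_log hpos]
          ring
        rw [h5]
        have h6 : (n : ℝ) * D ≤ N * D := by gcongr
        have h7 : 0 ≤ (n : ℝ) * D := by positivity
        nlinarith
      have h3 := (Real.cosh_le_cosh).1 h2
      rwa [abs_of_nonneg dist_nonneg, abs_of_nonneg hl] at h3
    have h2 := hg (y n)
    have h3 := dist_triangle (z (g (y n))) (y n) UpperHalfPlane.I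
    rw [dist_comm (z (g (y n))) (y n)] at h3
    change dist (z (g (y n))) UpperHalfPlane.I ≤ _
    linarith
  have hcard : ((Finset.range (N + 1)).image fun n => g (y n)).card = N + 1 := by
    rw [Finset.card_image_of_injective _ (fun n n' h => hinj n n' h), Finset.card_range]
  rw [← hcard, ← Set.ncard_coe_finset]
  refine Set.ncard_le_ncard ?_ hf
  intro k hk
  rw [Finset.coe_image] at hk
  obtain ⟨n, hn, rfl⟩ := hk
  exact hmem n hn

/-- Growth: a proper representation `ρ_b` of a group cannot be dominated, with differences tending to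
infinity, by a representation whose orbit is a net. -/
theorem growth {Gam : Type*} [Group Gam] (ra rb : Gam →* SL(2, ℝ))
    (hfin : ∀ R : ℝ, {k : Gam | dist (ra k • UpperHalfPlane.I) UpperHalfPlane.I -
      dist (rb k • UpperHalfPlane.I) UpperHalfPlane.I ≤ R}.Finite)
    (hprop : ∀ R : ℝ, {k : Gam | dist (rb k • UpperHalfPlane.I) UpperHalfPlane.I ≤ R}.Finite)
    (hco : ∃ R0 : ℝ, ∀ y : ℍ, ∃ g, dist y (ra g • UpperHalfPlane.I) ≤ R0) : False := by
  classical
  obtain ⟨R1, hR1⟩ := hco
  set R0 : ℝ := max R1 0 with hR0def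
  have hR0 : 0 ≤ R0 := le_max_right _ _
  have hco : ∀ y : ℍ, ∃ g, dist y (ra g • UpperHalfPlane.I) ≤ R0 := fun y => by
    obtain ⟨g, hg⟩ := hR1 y
    exact ⟨g, hg.trans (le_max_left _ _)⟩
  set μa : Gam → ℝ := fun k => dist (ra k • UpperHalfPlane.I) UpperHalfPlane.I with hμa
  set μb : Gam → ℝ := fun k => dist (rb k • UpperHalfPlane.I) UpperHalfPlane.I with hμb
  have hafin : ∀ R : ℝ, {k | μa k ≤ R}.Finite := by
    intro R
    refine (hfin R).subset ?_
    intro k hk
    have h1 : μa k ≤ R := hk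
    have h2 : 0 ≤ μb k := dist_nonneg
    change μa k - μb k ≤ R
    linarith
  set m : ℕ := {k | μb k ≤ 2 * R0}.ncard with hm
  -- comparison of the two counting functions
  have hNb : ∀ R : ℝ, {k | μb k ≤ R}.ncard ≤ m * {k | μa k ≤ R + R0}.ncard := by
    intro R
    choose h hh using fun g : Gam => hco (rb g • UpperHalfPlane.I)
    set s : Finset Gam := (hprop R).toFinset with hs
    have hcard : {k | μb k ≤ R}.ncard = s.card := Set.ncard_eq_toFinset_card _ (hprop R)
    rw [hcard]
    refine (Finset.card_le_mul_card_image s m (f := h) ?_).trans (Nat.mul_le_mul_left m ?_)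
    · intro a ha
      rcases (s.filter fun x => h x = a).eq_empty_or_nonempty with he | ⟨x0, hx0⟩
      · rw [he, Finset.card_empty]
        exact Nat.zero_le _
      · have hx0a : h x0 = a := (Finset.mem_filter.1 hx0).2
        rw [← Finset.card_image_of_injective _ (mul_right_injective x0⁻¹), hm,
          Set.ncard_eq_toFinset_card _ (hprop (2 * R0))]
        refine Finset.card_le_card ?_
        intro k hk
        obtain ⟨x, hx, rfl⟩ := Finset.mem_image.1 hk
        have hxa : h x = a := (Finset.mem_filter.1 hx).2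
        rw [Set.Finite.mem_toFinset]
        change dist (rb (x0⁻¹ * x) • UpperHalfPlane.I) UpperHalfPlane.I ≤ 2 * R0
        rw [← dist_smul (rb x0) (rb (x0⁻¹ * x) • UpperHalfPlane.I), ← mul_smul, ← map_mul,
          mul_inv_cancel_left]
        have h1 := hh x
        have h2 := hh x0
        rw [hxa] at h1
        rw [hx0a, dist_comm] at h2
        have h3 := dist_triangle (rb x • UpperHalfPlane.I) (ra a • UpperHalfPlane.I) (rb x0 • UpperHalfPlane.I)
        linarith
    · rw [← Set.ncard_coe_finset]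
      refine Set.ncard_le_ncard ?_ (hafin _)
      intro k hk
      rw [Finset.coe_image] at hk
      obtain ⟨x, hx, rfl⟩ := hk
      have hxR : μb x ≤ R := by
        have : x ∈ s := hx
        rw [hs, Set.Finite.mem_toFinset] at this
        exact this
      have h1 := hh x
      have h3 := dist_triangle (ra (h x) • UpperHalfPlane.I) (rb x • UpperHalfPlane.I) UpperHalfPlane.I
      rw [dist_comm (ra (h x) • UpperHalfPlane.I) (rb x • UpperHalfPlane.I)] at h3
      change dist (ra (h x) • UpperHalfPlane.I) UpperHalfPlane.I ≤ R + R0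
      have h4 : dist (rb x • UpperHalfPlane.I) UpperHalfPlane.I ≤ R := hxR
      linarith
  -- the recursion
  set L : ℝ := 2 * Real.log (2 * (m + 1)) with hL
  have hLexp : ∀ k : ℕ, Real.exp ((k : ℝ) * L / 2) = (2 * ((m : ℝ) + 1)) ^ k := by
    intro k
    have h1 : (k : ℝ) * L / 2 = k * Real.log (2 * (m + 1)) := by rw [hL]; ring
    rw [h1, Real.exp_nat_mul, Real.exp_log (by positivity)]
  set C : ℕ := {k | μa k - μb k ≤ L + R0}.ncard with hC
  have hrec : ∀ R : ℝ, {k | μa k ≤ R}.ncard ≤ m * {k | μa k ≤ R - L}.ncard + C := by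
    intro R
    have h1 : {k | μa k ≤ R} ⊆ {k | μb k ≤ R - (L + R0)} ∪ {k | μa k - μb k ≤ L + R0} := by
      intro k hk
      by_cases hk2 : μa k - μb k ≤ L + R0
      · exact Or.inr hk2
      · left
        have h2 : μa k ≤ R := hk
        change μb k ≤ R - (L + R0)
        linarith
    have h2 := Set.ncard_le_ncard h1 ((hprop _).union (hfin _))
    have h3 := Set.ncard_union_le {k | μb k ≤ R - (L + R0)} {k | μa k - μb k ≤ L + R0}
    have h4 := hNb (R - (L + R0))
    have h5 : R - (L + R0) + R0 = R - L := by ring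
    rw [h5] at h4
    omega
  set A : ℕ := {k | μa k ≤ 0}.ncard + C with hA
  have hup : ∀ k : ℕ, {x | μa x ≤ (k : ℝ) * L}.ncard ≤ A * (m + 1) ^ k := by
    intro k
    induction k with
    | zero =>
      rw [pow_zero, mul_one, Nat.cast_zero, zero_mul, hA]
      exact Nat.le_add_right _ _
    | succ k ih =>
      have h1 := hrec ((k + 1 : ℕ) * L)
      have h2 : ((k + 1 : ℕ) : ℝ) * L - L = k * L := by push_cast; ring
      rw [h2] at h1
      have h3 : 1 ≤ (m + 1) ^ k := Nat.one_le_pow _ _ (Nat.succ_pos _)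
      have h4 : C ≤ A := Nat.le_add_left _ _
      calc {x | μa x ≤ ((k + 1 : ℕ) : ℝ) * L}.ncard ≤ m * {x | μa x ≤ (k : ℝ) * L}.ncard + C := h1
        _ ≤ m * (A * (m + 1) ^ k) + A * (m + 1) ^ k := by
            refine Nat.add_le_add (Nat.mul_le_mul_left m ih) (h4.trans ?_)
            exact Nat.le_mul_of_pos_right A h3
        _ = A * (m + 1) ^ (k + 1) := by ring
  -- the contradiction
  set D : ℝ := 2 * Real.exp R0 with hD
  have hD0 : 0 < D := by positivity
  have hfinal : ∀ k : ℕ, Real.exp (-(R0 / 2)) * 2 ^ k ≤ A * D + 2 := by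
    intro k
    have hm1 : (0 : ℝ) < ((m : ℝ) + 1) ^ k := by positivity
    have hm1' : (1 : ℝ) ≤ ((m : ℝ) + 1) ^ k := one_le_pow₀ (by
      have : (0 : ℝ) ≤ m := Nat.cast_nonneg m
      linarith)
    have hAD : (0 : ℝ) ≤ A * D := by positivity
    have key : Real.exp (-(R0 / 2)) * (2 * ((m : ℝ) + 1)) ^ k ≤ A * ((m : ℝ) + 1) ^ k * D + 2 := by
      by_contra hc
      push Not at hc
      set E : ℝ := Real.exp (-(R0 / 2)) * (2 * ((m : ℝ) + 1)) ^ k with hE
      have hE2 : 2 < E := by
        have : 0 ≤ A * ((m : ℝ) + 1) ^ k * D := by positivity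
        linarith
      set N : ℕ := ⌊(E - 2) / D⌋₊ with hN
      have hN1 : (N : ℝ) * D + 2 ≤ E := by
        have h1 : (N : ℝ) ≤ (E - 2) / D := Nat.floor_le (div_nonneg (by linarith) hD0.le)
        have h2 := (le_div_iff₀ hD0).1 h1
        linarith
      have hN2 : E - 2 < ((N : ℝ) + 1) * D := by
        have h1 : (E - 2) / D < N + 1 := Nat.lt_floor_add_one _
        exact (div_lt_iff₀ hD0).1 h1
      have h3 := growth_lower (fun k => ra k • UpperHalfPlane.I) R0 hR0 hco N (hafin _)
      have h4 : R0 + 2 * Real.log (N * D + 2) ≤ k * L := by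
        have h5 : Real.log (N * D + 2) ≤ Real.log E := Real.log_le_log (by positivity) hN1
        have h6 : Real.log E = -(R0 / 2) + k * L / 2 := by
          rw [hE, ← hLexp, ← Real.exp_add, Real.log_exp]
        rw [h6] at h5
        linarith
      have h5 : {x | μa x ≤ R0 + 2 * Real.log (N * D + 2)}.ncard ≤ {x | μa x ≤ (k : ℝ) * L}.ncard := by
        refine Set.ncard_le_ncard ?_ (hafin _)
        intro x hx
        exact le_trans hx h4
      have h6 : N + 1 ≤ A * (m + 1) ^ k := h3.trans (h5.trans (hup k))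
      have h7 : ((N : ℝ) + 1) ≤ A * ((m : ℝ) + 1) ^ k := by exact_mod_cast h6
      have h8 : ((N : ℝ) + 1) * D ≤ A * ((m : ℝ) + 1) ^ k * D := by gcongr
      linarith
    rw [mul_pow] at key
    have h9 : (Real.exp (-(R0 / 2)) * 2 ^ k) * ((m : ℝ) + 1) ^ k ≤ (A * D + 2) * ((m : ℝ) + 1) ^ k := by
      nlinarith
    exact le_of_mul_le_mul_right h9 hm1
  obtain ⟨k, hk⟩ := pow_unbounded_of_one_lt ((A * D + 2) * Real.exp (R0 / 2)) (one_lt_two (α := ℝ))
  have h1 := hfinal k
  have h2 : Real.exp (R0 / 2) * (Real.exp (-(R0 / 2)) * 2 ^ k) = 2 ^ k := by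
    rw [← mul_assoc, ← Real.exp_add, add_neg_cancel, Real.exp_zero, one_mul]
  have h3 : Real.exp (R0 / 2) * (Real.exp (-(R0 / 2)) * 2 ^ k) ≤ Real.exp (R0 / 2) * (A * D + 2) := by
    gcongr
  rw [h2] at h3
  linarith

end F31343
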