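import Mathlib

/-!
# Quadratic maps of constant norm
-/

open Module

namespace F31343

variable {P M : Type*} [AddCommGroup P] [Module ℝ P] [FiniteDimensional ℝ P]
  [AddCommGroup M] [Module ℝ M] [FiniteDimensional ℝ M]
  (B : P →ₗ[ℝ] P →ₗ[ℝ] M) (hB : ∀ x y, B x y = B y x)
  (g : P →ₗ[ℝ] P →ₗ[ℝ] ℝ) (hg : ∀ x y, g x y = g y x) (hgp : ∀ x, x ≠ 0 → 0 < g x x)
  (h : M →ₗ[ℝ] M →ₗ[ℝ] ℝ) (hh : ∀ x y, h x y = h y x) (hhp : ∀ x, h x x = 0 → x = 0)
  {c : ℝ} (hc : 0 < c) (hq : ∀ x, h (B x x) (B x x) = c ^ 2 * (g x x) ^ 2)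

omit [FiniteDimensional ℝ P] [FiniteDimensional ℝ M]

include hB hg hh hq in
lemma quad_polar (x w : P) : h (B x x) (B x w) = c ^ 2 * (g x x * g x w) ∧
    2 * h (B x w) (B x w) + h (B x x) (B w w) = c ^ 2 * (2 * g x w ^ 2 + g x x * g w w) := by
  have key : ∀ t : ℝ, h (B x x) (B x x) + 4 * t * h (B x x) (B x w)
      + t ^ 2 * (4 * h (B x w) (B x w) + 2 * h (B x x) (B w w)) + 4 * t ^ 3 * h (B x w) (B w w)
      + t ^ 4 * h (B w w) (B w w) = c ^ 2 * (g x x + 2 * t * g x w + t ^ 2 * g w w) ^ 2 := by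
    intro t
    have h1 := hq (x + t • w)
    simp only [map_add, map_smul, LinearMap.add_apply, LinearMap.smul_apply, smul_eq_mul, hB w x,
      hg w x] at h1
    rw [hh (B x w) (B x x), hh (B w w) (B x x), hh (B w w) (B x w)] at h1
    linear_combination h1
  have k1 := key 1
  have k2 := key (-1)
  have k3 := key 2
  have k4 := key (-2)
  have k0 := hq x
  constructor
  · linear_combination (1 / 48) * (8 * (k1 - k2) - (k3 - k4))
  · linear_combination (1 / 48) * (16 * (k1 + k2) - (k3 + k4)) - (5 / 8) * k0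

include hB hg hgp hh hhp hc hq in
lemma quad_eigen {x : P} (hx : x ≠ 0) {w : P} {s : ℝ} {k : P} (hk : B x k = 0)
    (hw : w = s • x + k) : B w w = (c * g w w) • ((1 / (c * g x x)) • B x x) := by
  have hgx := hgp x hx
  obtain ⟨h1, h2⟩ := quad_polar B hB g hg h hh hq x k
  rw [hk, map_zero] at h1
  have hgk : g x k = 0 := by
    have : c ^ 2 * g x x ≠ 0 := by positivity
    have h3 : c ^ 2 * g x x * g x k = 0 := by rw [mul_assoc]; exact h1.symm
    exact (mul_eq_zero.mp h3).resolve_left this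
  rw [hk, hgk, map_zero] at h2
  have h2' : h (B x x) (B k k) = c ^ 2 * (g x x * g k k) := by
    simpa using h2
  have hkk : B k k = (c * g k k) • ((1 / (c * g x x)) • B x x) := by
    rw [← sub_eq_zero]
    apply hhp
    have e : h (B k k - (c * g k k) • ((1 / (c * g x x)) • B x x))
        (B k k - (c * g k k) • ((1 / (c * g x x)) • B x x))
        = h (B k k) (B k k) - 2 * (c * g k k * (1 / (c * g x x))) * h (B x x) (B k k)
          + (c * g k k * (1 / (c * g x x))) ^ 2 * h (B x x) (B x x) := by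
      simp only [map_sub, map_smul, LinearMap.sub_apply, LinearMap.smul_apply, smul_eq_mul,
        hh (B k k) (B x x)]
      ring
    rw [e, h2', hq, hq]
    field_simp
    ring
  have hww : B w w = (s ^ 2) • B x x + B k k := by
    rw [hw]
    simp only [map_add, map_smul, LinearMap.add_apply, LinearMap.smul_apply, hB k x, hk, smul_zero,
      add_zero, zero_add, smul_smul, sq]
  have hgw : g w w = s ^ 2 * g x x + g k k := by
    rw [hw]
    simp only [map_add, map_smul, LinearMap.add_apply, LinearMap.smul_apply, hg k x, hgk,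
      smul_eq_mul, mul_zero, add_zero, zero_add]
    ring
  rw [hww, hkk, hgw, smul_smul, smul_smul, ← add_smul]
  congr 1
  field_simp

variable [FiniteDimensional ℝ P] [FiniteDimensional ℝ M]

include hB hg hgp hh hhp hc hq in
/-- A quadratic map of constant norm from a space of large dimension is a multiple of the square
of the norm. -/
theorem quad_const (hdim : 2 * finrank ℝ M < finrank ℝ P + 2) (hne : ∃ x : P, x ≠ 0) :
    ∃ α : M, h α α = 1 ∧ ∀ x, B x x = (c * g x x) • α := by
  have hBx : ∀ x, x ≠ 0 → B x x ≠ 0 := by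
    intro x hx h0
    have h1 := hq x
    rw [h0, map_zero] at h1
    have h2 := hgp x hx
    have : 0 < c ^ 2 * g x x ^ 2 := by positivity
    simp at h1
    rcases h1 with h1 | h1
    · exact hc.ne' h1
    · exact h2.ne' h1
  have hdimT : ∀ x, x ≠ 0 → finrank ℝ P + 1 ≤
      finrank ℝ (Submodule.span ℝ {x} ⊔ LinearMap.ker (B x) : Submodule ℝ P) + finrank ℝ M := by
    intro x hx
    have h1 := Submodule.finrank_sup_add_finrank_inf_eq (Submodule.span ℝ {x})
      (LinearMap.ker (B x))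
    have h2 : Submodule.span ℝ {x} ⊓ LinearMap.ker (B x) = ⊥ := by
      rw [Submodule.eq_bot_iff]
      rintro y ⟨hy, hy'⟩
      obtain ⟨a, rfl⟩ := Submodule.mem_span_singleton.mp hy
      have h3 : B x (a • x) = 0 := hy'
      rw [map_smul, smul_eq_zero] at h3
      rcases h3 with rfl | h3
      · rw [zero_smul]
      · exact absurd h3 (hBx x hx)
    rw [h2, finrank_bot, finrank_span_singleton hx] at h1
    have h3 := LinearMap.finrank_range_add_finrank_ker (B x)
    have h4 := Submodule.finrank_le (LinearMap.range (B x))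
    omega
  have hconst : ∀ x y, x ≠ 0 → y ≠ 0 →
      (1 / (c * g x x)) • B x x = (1 / (c * g y y)) • B y y := by
    intro x y hx hy
    have h1 := hdimT x hx
    have h2 := hdimT y hy
    have h3 := Submodule.finrank_sup_add_finrank_inf_eq
      (Submodule.span ℝ {x} ⊔ LinearMap.ker (B x)) (Submodule.span ℝ {y} ⊔ LinearMap.ker (B y))
    have h4 := Submodule.finrank_le
      ((Submodule.span ℝ {x} ⊔ LinearMap.ker (B x)) ⊔ (Submodule.span ℝ {y} ⊔ LinearMap.ker (B y)))
    have h5 : 0 < finrank ℝ ((Submodule.span ℝ {x} ⊔ LinearMap.ker (B x))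
        ⊓ (Submodule.span ℝ {y} ⊔ LinearMap.ker (B y)) : Submodule ℝ P) := by omega
    have h6 : ((Submodule.span ℝ {x} ⊔ LinearMap.ker (B x))
        ⊓ (Submodule.span ℝ {y} ⊔ LinearMap.ker (B y)) : Submodule ℝ P) ≠ ⊥ := by
      intro h0
      rw [h0, finrank_bot] at h5
      exact lt_irrefl _ h5
    obtain ⟨w, ⟨hw1, hw2⟩, hw0⟩ := Submodule.exists_mem_ne_zero_of_ne_bot h6
    obtain ⟨w1, hw1', k1, hk1, e1⟩ := Submodule.mem_sup.mp hw1
    obtain ⟨s1, rfl⟩ := Submodule.mem_span_singleton.mp hw1'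
    obtain ⟨w2, hw2', k2, hk2, e2⟩ := Submodule.mem_sup.mp hw2
    obtain ⟨s2, rfl⟩ := Submodule.mem_span_singleton.mp hw2'
    have h7 := quad_eigen B hB g hg hgp h hh hhp hc hq hx hk1 e1.symm
    have h8 := quad_eigen B hB g hg hgp h hh hhp hc hq hy hk2 e2.symm
    have h9 : c * g w w ≠ 0 := (mul_pos hc (hgp w hw0)).ne'
    rw [h7] at h8
    exact smul_right_injective M h9 h8
  obtain ⟨x₀, hx₀⟩ := hne
  refine ⟨(1 / (c * g x₀ x₀)) • B x₀ x₀, ?_, ?_⟩
  · have h1 := hgp x₀ hx₀
    rw [map_smul, LinearMap.map_smul₂, smul_eq_mul, smul_eq_mul, hq]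
    field_simp
  · intro x
    by_cases hx : x = 0
    · simp [hx]
    · rw [← hconst x x₀ hx hx₀, smul_smul]
      have h1 := hgp x hx
      have : c * g x x * (1 / (c * g x x)) = 1 := by field_simp
      rw [this, one_smul]

end F31343
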