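import Mathlib
import Pool.Agent.Lib_MP_f31343.BenoistFull

/-!
# Local geometric fibrations and real ranks
-/

open Matrix NormedSpace Filter Topology Module
open scoped Matrix.Norms.Operator ContDiff

namespace F31343

variable {ι : Type*} [Fintype ι] [DecidableEq ι] {G H : LinRed ι}

/-- The centraliser of a small perturbation of `X` by an element `Y` which commutes with `X`. -/
lemma exists_centraliser_add_le {X Y : Matrix ι ι ℝ} (hX : X ∈ G.𝔭) (hY : Y ∈ centraliser G X) :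
    ∃ ε > 0, centraliser G (X + (ε : ℝ) • Y) ≤ centraliser G X ⊓ centraliser G Y := by
  obtain ⟨ε, hε, hbot⟩ := exists_small (G := G) (X := X) (Z := Y)
  have hXY : X + ε • Y ∈ G.𝔭 := G.𝔭.add_mem hX (G.𝔭.smul_mem _ hY.1)
  have hYX : Y * X = X * Y := hY.2
  refine ⟨ε, hε, ?_⟩
  intro V hV
  obtain ⟨V1, hV1, V2, hV2, rfl⟩ := exists_perp (centraliser_le X) hV.1
  have hV1X : V1 * X = X * V1 := hV1.2
  obtain ⟨P, hP⟩ : ∃ P, P = V1 * Y - Y * V1 := ⟨_, rfl⟩
  have hPk : P ∈ G.𝔨 := by rw [hP]; exact brk_mem_k hV1.1 hY.1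
  have hPX : P * X = X * P := by
    have e1 : V1 * Y * X = X * (V1 * Y) := by
      rw [mul_assoc, hYX, ← mul_assoc, hV1X, mul_assoc]
    have e2 : Y * V1 * X = X * (Y * V1) := by
      rw [mul_assoc, hV1X, ← mul_assoc, hYX, mul_assoc]
    rw [hP, sub_mul, mul_sub, e1, e2]
  have hQ : ε • P = -(V2 * (X + ε • Y) - (X + ε • Y) * V2) := by
    have h1 : (V1 + V2) * (X + ε • Y) = (X + ε • Y) * (V1 + V2) := hV.2
    have h2 : V1 * (X + ε • Y) - (X + ε • Y) * V1 = ε • P := by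
      rw [mul_add, add_mul, mul_smul_comm, smul_mul_assoc, hV1X, hP, smul_sub]
      abel
    rw [← h2, neg_sub, sub_eq_sub_iff_add_eq_add]
    rw [add_mul V1 V2, mul_add (X + ε • Y) V1 V2] at h1
    rw [h1, add_comm]
  have e1 : (P * (V2 * X - X * V2)).trace = 0 := by
    rw [mul_sub, trace_sub, sub_eq_zero]
    calc (P * (V2 * X)).trace = (P * V2 * X).trace := by rw [mul_assoc]
      _ = (X * (P * V2)).trace := trace_mul_comm _ _
      _ = (P * (X * V2)).trace := by rw [← mul_assoc, ← hPX, mul_assoc]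
  have e2 : (P * (V2 * Y - Y * V2)).trace = 0 := by
    have hW : P * Y - Y * P ∈ centraliser G X := by
      refine ⟨ad_mem_p hPk hY.1, ?_⟩
      have e1 : P * Y * X = X * (P * Y) := by
        rw [mul_assoc, hYX, ← mul_assoc, hPX, mul_assoc]
      have e2 : Y * P * X = X * (Y * P) := by
        rw [mul_assoc, hPX, ← mul_assoc, hYX, mul_assoc]
      rw [sub_mul, mul_sub, e1, e2]
    have h3 := hV2.2 _ hW
    rw [mul_sub V2, trace_sub] at h3
    rw [mul_sub P, trace_sub]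
    have e3 : (P * (V2 * Y)).trace = (V2 * (Y * P)).trace := by
      rw [trace_mul_comm, mul_assoc]
    have e4 : (P * (Y * V2)).trace = (V2 * (P * Y)).trace := by
      rw [← mul_assoc, trace_mul_comm]
    rw [e3, e4]
    linarith
  have e5 : (P * P).trace = 0 := by
    have h3 : (P * (ε • P)).trace = 0 := by
      rw [hQ, mul_neg, trace_neg]
      have h4 : V2 * (X + ε • Y) - (X + ε • Y) * V2
          = (V2 * X - X * V2) + ε • (V2 * Y - Y * V2) := by
        rw [mul_add, add_mul, mul_smul_comm, smul_mul_assoc, smul_sub]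
        abel
      rw [h4, mul_add, mul_smul_comm, trace_add, trace_smul, e1, e2, smul_zero, add_zero,
        neg_zero]
    rw [mul_smul_comm, trace_smul, smul_eq_mul] at h3
    exact (mul_eq_zero.mp h3).resolve_left hε.ne'
  have hP0 : P = 0 := by
    apply eq_zero_of_trace_tm
    rw [transpose_of_mem_k hPk, neg_mul, trace_neg, e5, neg_zero]
  have hV2c : V2 ∈ centraliser G (X + ε • Y) := by
    refine ⟨hV2.1, ?_⟩
    rw [hP0, smul_zero] at hQ
    exact sub_eq_zero.mp (neg_eq_zero.mp hQ.symm)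
  have hV20 : V2 = 0 := by
    have : V2 ∈ centraliser G (X + ε • Y) ⊓ perp G (centraliser G X) := ⟨hV2c, hV2⟩
    rw [hbot] at this
    simpa using this
  rw [hV20, add_zero]
  exact ⟨hV1, hV1.1, sub_eq_zero.mp (hP.symm.trans hP0)⟩

/-- If the real rank of `H` is at least that of `G` then every element of `𝔭_G` is conjugate to an
element of `𝔭_H`. -/
theorem exists_conj_of_realRank (hHG : H.grp ≤ G.grp) (hr : realRank G ≤ realRank H)
    {X : Matrix ι ι ℝ} (hX : X ∈ G.𝔭) : ∃ k ∈ G.K, k.valᵀ * X * k.val ∈ H.𝔭 := by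
  classical
  obtain ⟨X₀, hX₀, hX₀r⟩ := exists_realRank H
  -- an element of `𝔞_H` with centraliser as small as possible
  obtain ⟨X₁, hX₁, hmin⟩ : ∃ X₁ ∈ centraliser H X₀, ∀ U ∈ centraliser H X₀,
      finrank ℝ (centraliser G X₁) ≤ finrank ℝ (centraliser G U) := by
    have hne : {d | ∃ U ∈ centraliser H X₀, finrank ℝ (centraliser G U) = d}.Nonempty :=
      ⟨_, 0, (centraliser H X₀).zero_mem, rfl⟩
    obtain ⟨U, hU, hUd⟩ := Nat.sInf_mem hne
    refine ⟨U, hU, fun U' hU' => ?_⟩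
    rw [hUd]
    exact Nat.sInf_le ⟨U', hU', rfl⟩
  have hle : ∀ {Y : Matrix ι ι ℝ}, Y ∈ H.𝔭 → Y ∈ G.𝔭 := fun h => p_mono hHG h
  have hX₁G : X₁ ∈ G.𝔭 := hle hX₁.1
  have hcen : ∀ U ∈ centraliser H X₀, centraliser G X₁ ≤ centraliser G U := by
    intro U hU
    have hUX : U ∈ centraliser G X₁ := ⟨hle hU.1, comm_of_regular hX₀ hX₀r hX₁ hU⟩
    obtain ⟨ε, hε, h1⟩ := exists_centraliser_add_le hX₁G hUX
    have h2 := hmin (X₁ + ε • U) ((centraliser H X₀).add_mem hX₁
      ((centraliser H X₀).smul_mem _ hU))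
    have h3 := Submodule.eq_of_le_of_finrank_le (h1.trans inf_le_left) h2
    rw [← h3]
    exact h1.trans inf_le_right
  obtain ⟨Y₀, hY₀, hreg⟩ := exists_realRank G
  obtain ⟨k₀, hk₀, hk₀Y⟩ := exists_conj_centraliser hY₀ hX₁G
  set Y₁ := k₀.valᵀ * Y₀ * k₀.val with hY₁
  have hY₁G : Y₁ ∈ G.𝔭 := hk₀Y.1
  have hreg₁ : finrank ℝ (centraliser G Y₁) = realRank G := by
    rw [hY₁, finrank_centraliser_conj hk₀, hreg]
  have hsub : centraliser H X₀ ≤ centraliser G Y₁ := by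
    intro U hU
    have h1 : Y₁ ∈ centraliser G U := hcen U hU hk₀Y
    exact ⟨hle hU.1, h1.2.symm⟩
  have heq : centraliser H X₀ = centraliser G Y₁ := by
    refine Submodule.eq_of_le_of_finrank_le hsub ?_
    rw [hreg₁, hX₀r]
    exact hr
  obtain ⟨k, hk, hkX⟩ := exists_conj_centraliser hX hY₁G
  rw [← heq] at hkX
  exact ⟨k, hk, hkX.1⟩

/-- **The Calabi-Markus phenomenon for local geometric fibrations.** -/
theorem p_eq_of_realRank (hHG : H.grp ≤ G.grp) (hr : realRank G ≤ realRank H)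
    (F : LocalGeometricFibration G H) : H.𝔭 = G.𝔭 := by
  obtain ⟨W, hWG, hW⟩ := exists_complement hHG F
  have hW0 : ∀ X ∈ W, X = 0 := by
    intro X hX
    obtain ⟨k, hk, hkX⟩ := exists_conj_of_realRank hHG hr (hWG hX)
    exact (hW k hk).1 X hX hkX
  apply le_antisymm fun X hX => p_mono hHG hX
  intro X hX
  obtain ⟨w, hw, hwX⟩ := (hW 1 G.K.one_mem).2 X hX
  rw [hW0 w hw] at hwX
  simpa using hwX

/-- In real rank one all elements of `𝔭_H` are conjugate up to scaling. -/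
lemma exists_gen_of_rank_one (hr : realRank H ≤ 1) (hne : H.𝔭 ≠ ⊥) :
    ∃ Y ∈ H.𝔭, Y ≠ 0 ∧ ∀ X ∈ H.𝔭, ∃ k ∈ H.K, ∃ c : ℝ, k.valᵀ * X * k.val = c • Y := by
  obtain ⟨X₀, hX₀, hX₀r⟩ := exists_realRank H
  have h1 : finrank ℝ (centraliser H X₀) ≤ 1 := by rw [hX₀r]; exact hr
  obtain ⟨v, hv⟩ := finrank_le_one_iff.mp h1
  obtain ⟨X₁, hX₁, hX₁0⟩ := Submodule.exists_mem_ne_zero_of_ne_bot hne
  have hv0 : v ≠ 0 := by
    rintro rfl
    obtain ⟨k, hk, hkX⟩ := exists_conj_centraliser hX₁ hX₀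
    obtain ⟨c, hc⟩ := hv ⟨_, hkX⟩
    rw [smul_zero] at hc
    have h2 : k.valᵀ * X₁ * k.val = 0 := (congrArg Subtype.val hc).symm
    have h3 := conj_cancel hk X₁
    rw [h2, mul_zero, zero_mul] at h3
    exact hX₁0 h3.symm
  refine ⟨v.1, v.2.1, fun h => hv0 (Subtype.ext h), fun X hX => ?_⟩
  obtain ⟨k, hk, hkX⟩ := exists_conj_centraliser hX hX₀
  obtain ⟨c, hc⟩ := hv ⟨_, hkX⟩
  exact ⟨k, hk, c, (congrArg Subtype.val hc).symm⟩

end F31343
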