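import Mathlib
import Pool.Agent.Lib_MP_f31343.Coeff

/-!
# Complex matrices of determinant one as real matrices
-/

open Matrix NormedSpace Filter Topology Module
open scoped Matrix.Norms.Operator ContDiff Kronecker

namespace F31343

variable {α : Type*} [Fintype α] [DecidableEq α]

/-- A complex matrix as a real matrix: the entry `z` becomes the matrix of the multiplication by
`z` in the basis `1, i`. -/
noncomputable def realify : Matrix α α ℂ →+* Matrix (α × Fin 2) (α × Fin 2) ℝ where
  toFun Z := (Z.map Complex.re) ⊗ₖ (1 : Matrix (Fin 2) (Fin 2) ℝ) + (Z.map Complex.im) ⊗ₖ ci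
  map_one' := by
    have h1 : (1 : Matrix α α ℂ).map Complex.re = 1 := by
      ext i j; rw [map_apply, one_apply, one_apply]; split_ifs <;> simp
    have h2 : (1 : Matrix α α ℂ).map Complex.im = 0 := by
      ext i j; rw [map_apply, one_apply]; split_ifs <;> simp
    rw [h1, h2, zero_kronecker, add_zero, one_kronecker_one]
  map_mul' Z W := by
    have h1 : (Z * W).map Complex.re
        = Z.map Complex.re * W.map Complex.re - Z.map Complex.im * W.map Complex.im := by
      ext i j
      simp [mul_apply, Complex.re_sum, Complex.mul_re, Finset.sum_sub_distrib]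
    have h2 : (Z * W).map Complex.im
        = Z.map Complex.re * W.map Complex.im + Z.map Complex.im * W.map Complex.re := by
      ext i j
      simp [mul_apply, Complex.im_sum, Complex.mul_im, Finset.sum_add_distrib]
    rw [h1, h2, add_mul, mul_add, mul_add, ← mul_kronecker_mul, ← mul_kronecker_mul,
      ← mul_kronecker_mul, ← mul_kronecker_mul, one_mul, one_mul, mul_one, ci_sq]
    have h3 : ∀ A : Matrix α α ℝ, A ⊗ₖ (-1 : Matrix (Fin 2) (Fin 2) ℝ)
        = -(A ⊗ₖ (1 : Matrix (Fin 2) (Fin 2) ℝ)) := by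
      intro A; ext i j; simp [kroneckerMap_apply]
    have h4 : ∀ A B : Matrix α α ℝ, (A - B) ⊗ₖ (1 : Matrix (Fin 2) (Fin 2) ℝ)
        = A ⊗ₖ (1 : Matrix (Fin 2) (Fin 2) ℝ) - B ⊗ₖ (1 : Matrix (Fin 2) (Fin 2) ℝ) := by
      intro A B; ext i j; simp [kroneckerMap_apply, sub_mul]
    rw [h3, h4, add_kronecker]
    abel
  map_zero' := by
    have h1 : (0 : Matrix α α ℂ).map Complex.re = 0 := by ext i j; simp
    have h2 : (0 : Matrix α α ℂ).map Complex.im = 0 := by ext i j; simp
    rw [h1, h2, zero_kronecker, zero_kronecker, add_zero]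
  map_add' Z W := by
    have h1 : (Z + W).map Complex.re = Z.map Complex.re + W.map Complex.re := by ext i j; simp
    have h2 : (Z + W).map Complex.im = Z.map Complex.im + W.map Complex.im := by ext i j; simp
    rw [h1, h2, add_kronecker, add_kronecker]
    abel

lemma realify_apply (Z : Matrix α α ℂ) :
    realify Z = (Z.map Complex.re) ⊗ₖ (1 : Matrix (Fin 2) (Fin 2) ℝ) + (Z.map Complex.im) ⊗ₖ ci :=
  rfl

lemma realify_smul (c : ℝ) (Z : Matrix α α ℂ) : realify (c • Z) = c • realify Z := by
  rw [realify_apply, realify_apply, smul_add, ← smul_kronecker, ← smul_kronecker]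
  congr 2 <;> ext i j <;> simp

/-- `realify` as a linear map. -/
noncomputable def realifyL : Matrix α α ℂ →ₗ[ℝ] Matrix (α × Fin 2) (α × Fin 2) ℝ where
  toFun := realify
  map_add' := map_add realify
  map_smul' := realify_smul

lemma realify_re (Z : Matrix α α ℂ) (i j : α) : realify Z (i, 0) (j, 0) = (Z i j).re := by
  simp [realify_apply, kroneckerMap_apply, ci]

lemma realify_im (Z : Matrix α α ℂ) (i j : α) : realify Z (i, 1) (j, 0) = (Z i j).im := by
  simp [realify_apply, kroneckerMap_apply, ci]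

lemma realify_inj : Function.Injective (realify : Matrix α α ℂ → _) := by
  intro Z W h
  ext i j
  apply Complex.ext
  · rw [← realify_re, ← realify_re, h]
  · rw [← realify_im, ← realify_im, h]

lemma realify_entry (Z : Matrix α α ℂ) (i j : α) (a b : Fin 2) :
    realify Z (i, a) (j, b) = (Z i j).re * (1 : Matrix (Fin 2) (Fin 2) ℝ) a b
      + (Z i j).im * ci a b := rfl

/-- The complex matrix of a real matrix. -/
def cpx (X : Matrix (α × Fin 2) (α × Fin 2) ℝ) : Matrix α α ℂ :=
  Matrix.of fun i j => (⟨X (i, 0) (j, 0), X (i, 1) (j, 0)⟩ : ℂ)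

/-- A matrix which commutes with the complex structure is a realification. -/
lemma eq_realify {X : Matrix (α × Fin 2) (α × Fin 2) ℝ}
    (hX : X * ((1 : Matrix α α ℝ) ⊗ₖ ci) = ((1 : Matrix α α ℝ) ⊗ₖ ci) * X) :
    X = realify (cpx X) := by
  have key : ∀ i j, X (i, 0) (j, 1) = -X (i, 1) (j, 0) ∧ X (i, 1) (j, 1) = X (i, 0) (j, 0) := by
    intro i j
    have e1 : ∀ (a b : Fin 2), (X * ((1 : Matrix α α ℝ) ⊗ₖ ci)) (i, a) (j, b)
        = ∑ c, X (i, a) (j, c) * ci c b := by
      intro a b
      rw [mul_apply, Fintype.sum_prod_type, Finset.sum_eq_single j]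
      · refine Finset.sum_congr rfl fun c _ => ?_
        rw [kroneckerMap_apply, one_apply_eq, one_mul]
      · intro k _ hk
        refine Finset.sum_eq_zero fun c _ => ?_
        rw [kroneckerMap_apply, one_apply_ne hk, zero_mul, mul_zero]
      · intro h; exact absurd (Finset.mem_univ _) h
    have e2 : ∀ (a b : Fin 2), (((1 : Matrix α α ℝ) ⊗ₖ ci) * X) (i, a) (j, b)
        = ∑ c, ci a c * X (i, c) (j, b) := by
      intro a b
      rw [mul_apply, Fintype.sum_prod_type, Finset.sum_eq_single i]
      · refine Finset.sum_congr rfl fun c _ => ?_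
        rw [kroneckerMap_apply, one_apply_eq, one_mul]
      · intro k _ hk
        refine Finset.sum_eq_zero fun c _ => ?_
        rw [kroneckerMap_apply, one_apply_ne hk.symm, zero_mul, zero_mul]
      · intro h; exact absurd (Finset.mem_univ _) h
    have h00 := congrFun (congrFun hX (i, 0)) (j, 0)
    have h10 := congrFun (congrFun hX (i, 1)) (j, 0)
    rw [e1, e2] at h00 h10
    simp [Fin.sum_univ_two, ci] at h00 h10
    constructor
    · linarith
    · linarith
  ext ⟨i, a⟩ ⟨j, b⟩
  obtain ⟨k1, k2⟩ := key i j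
  rw [realify_entry]
  fin_cases a <;> fin_cases b <;> simp [cpx, ci, k1, k2]

lemma hasDerivAt_det_oneC {n : Type*} [Fintype n] [DecidableEq n] {M : ℝ → Matrix n n ℂ}
    {M' : Matrix n n ℂ} {t : ℝ} (h : ∀ i j, HasDerivAt (fun s => M s i j) (M' i j) t)
    (h1 : M t = 1) : HasDerivAt (fun s => (M s).det) M'.trace t := by
  have hprod : ∀ σ : Equiv.Perm n, HasDerivAt (fun s => ∏ i, M s (σ i) i)
      (∑ i, (∏ j ∈ Finset.univ.erase i, M t (σ j) j) * M' (σ i) i) t := by
    intro σ
    have := HasDerivAt.fun_finsetProd (u := Finset.univ) (f := fun i s => M s (σ i) i)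
      (f' := fun i => M' (σ i) i) (x := t) (fun i _ => h (σ i) i)
    simpa only [smul_eq_mul] using this
  have hsum : HasDerivAt (fun s => ∑ σ : Equiv.Perm n, (Equiv.Perm.sign σ : ℂ) * ∏ i, M s (σ i) i)
      (∑ σ : Equiv.Perm n, (Equiv.Perm.sign σ : ℂ)
        * ∑ i, (∏ j ∈ Finset.univ.erase i, M t (σ j) j) * M' (σ i) i) t :=
    HasDerivAt.fun_sum fun σ _ => (hprod σ).const_mul _
  have e1 : (fun s => (M s).det)
      = fun s => ∑ σ : Equiv.Perm n, (Equiv.Perm.sign σ : ℂ) * ∏ i, M s (σ i) i := by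
    funext s
    rw [Matrix.det_apply']
  have e2 : (∑ σ : Equiv.Perm n, (Equiv.Perm.sign σ : ℂ)
        * ∑ i, (∏ j ∈ Finset.univ.erase i, M t (σ j) j) * M' (σ i) i) = M'.trace := by
    rw [Finset.sum_eq_single 1]
    · simp only [Equiv.Perm.sign_one, Units.val_one, Int.cast_one, one_mul, Equiv.Perm.one_apply]
      rw [Matrix.trace]
      refine Finset.sum_congr rfl fun i _ => ?_
      rw [h1]
      have : ∏ j ∈ Finset.univ.erase i, (1 : Matrix n n ℂ) j j = 1 :=
        Finset.prod_eq_one fun j _ => Matrix.one_apply_eq j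
      rw [this, one_mul, Matrix.diag_apply]
    · intro σ _ hσ
      have h2 : ∀ i, (∏ j ∈ Finset.univ.erase i, M t (σ j) j) * M' (σ i) i = 0 := by
        intro i
        obtain ⟨j, hj⟩ : ∃ j, σ j ≠ j := by
          by_contra hcon
          push Not at hcon
          exact hσ (Equiv.ext hcon)
        have h3 : ∃ j' ∈ Finset.univ.erase i, σ j' ≠ j' := by
          by_cases hji : j = i
          · subst hji
            refine ⟨σ j, Finset.mem_erase.mpr ⟨hj, Finset.mem_univ _⟩, ?_⟩
            intro h4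
            exact hj (σ.injective h4)
          · exact ⟨j, Finset.mem_erase.mpr ⟨hji, Finset.mem_univ _⟩, hj⟩
        obtain ⟨j', hj', hne⟩ := h3
        rw [Finset.prod_eq_zero hj' (by rw [h1, Matrix.one_apply_ne hne]), zero_mul]
      rw [Finset.sum_eq_zero fun i _ => h2 i, mul_zero]
    · intro h; exact absurd (Finset.mem_univ _) h
  rw [e1, ← e2]
  exact hsum

set_option backward.isDefEq.respectTransparency false in
/-- `det (exp tZ) = 1` for a matrix of trace zero. -/
lemma det_exp_trace_zero (Z : Matrix α α ℂ) (hZ : Z.trace = 0) (t : ℝ) :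
    (exp (t • Z)).det = 1 := by
  let f : ℝ → ℂ := fun s => (exp (s • Z)).det
  have hadd : ∀ s s', f (s + s') = f s * f s' := by
    intro s s'
    show (exp ((s + s') • Z)).det = (exp (s • Z)).det * (exp (s' • Z)).det
    rw [← det_mul, add_smul, Matrix.exp_add_of_commute]
    exact ((Commute.refl Z).smul_left s).smul_right s'
  have h0 : HasDerivAt f 0 0 := by
    have h1 : HasDerivAt (fun s : ℝ => exp (s • Z)) (exp ((0 : ℝ) • Z) * Z) 0 :=
      hasDerivAt_exp_smul_const (𝕂 := ℝ) Z 0
    rw [zero_smul, exp_zero, one_mul] at h1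
    have h2 : ∀ i j, HasDerivAt (fun s : ℝ => exp (s • Z) i j) (Z i j) 0 := by
      intro i j
      have h3 := hasDerivAt_pi.mp h1 i
      exact hasDerivAt_pi.mp h3 j
    have h3 := hasDerivAt_det_oneC (M := fun s : ℝ => exp (s • Z)) h2 (by rw [zero_smul, exp_zero])
    rw [hZ] at h3
    exact h3
  have hd : ∀ s, HasDerivAt f 0 s := by
    intro s
    have h1 : HasDerivAt (fun x : ℝ => f (x - s)) 0 s := by
      have h2 : HasDerivAt f 0 (s - s) := by rw [sub_self]; exact h0
      exact h2.comp_sub_const s s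
    have h3 := h1.const_mul (f s)
    rw [mul_zero] at h3
    refine h3.congr_of_eventuallyEq (Eventually.of_forall fun x => ?_)
    show f x = f s * f (x - s)
    rw [← hadd]
    congr 1
    ring
  have h4 : f t = f 0 := is_const_of_deriv_eq_zero (fun s => (hd s).differentiableAt)
    (fun s => (hd s).deriv) t 0
  have h5 : f 0 = 1 := by
    show (exp ((0 : ℝ) • Z)).det = 1
    rw [zero_smul, exp_zero, det_one]
  exact h4.trans h5

lemma continuous_realify : Continuous (realify : Matrix α α ℂ → _) :=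
  LinearMap.continuous_of_finiteDimensional (realifyL (α := α))

set_option backward.isDefEq.respectTransparency false in
lemma exp_realify (Z : Matrix α α ℂ) : exp (realify Z) = realify (exp Z) := by
  let _ : Algebra ℚ (Matrix (α × Fin 2) (α × Fin 2) ℝ) := inferInstance
  exact (map_exp (realify : Matrix α α ℂ →+* Matrix (α × Fin 2) (α × Fin 2) ℝ)
    continuous_realify Z).symm

/-- The real matrices which are realifications of complex matrices of determinant one. -/
def detOne (α : Type*) [Fintype α] [DecidableEq α] : Subgroup (GL (α × Fin 2) ℝ) where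
  carrier := {g | ∃ Z : Matrix α α ℂ, Z.det = 1 ∧ g.val = realify Z}
  one_mem' := ⟨1, det_one, by rw [map_one, Units.val_one]⟩
  mul_mem' := by
    rintro a b ⟨Z, hZ, ha⟩ ⟨W, hW, hb⟩
    exact ⟨Z * W, by rw [det_mul, hZ, hW, one_mul], by rw [Units.val_mul, ha, hb, map_mul]⟩
  inv_mem' := by
    rintro a ⟨Z, hZ, ha⟩
    have hu : IsUnit Z.det := by rw [hZ]; exact isUnit_one
    refine ⟨Z⁻¹, by rw [det_nonsing_inv, hZ, Ring.inverse_one], ?_⟩
    calc (a⁻¹).val = (a⁻¹).val * realify (Z * Z⁻¹) := by rw [mul_nonsing_inv _ hu, map_one, mul_one]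
      _ = ((a⁻¹).val * a.val) * realify Z⁻¹ := by rw [map_mul, ha, mul_assoc]
      _ = realify Z⁻¹ := by rw [Units.inv_mul, one_mul]

lemma isClosed_detOne : IsClosed (detOne α : Set (GL (α × Fin 2) ℝ)) := by
  have h1 : IsClosed {Z : Matrix α α ℂ | Z.det = 1} :=
    isClosed_eq (Continuous.matrix_det continuous_id) continuous_const
  have h2 : IsClosedEmbedding (realifyL : Matrix α α ℂ → _) :=
    LinearMap.isClosedEmbedding_of_injective (LinearMap.ker_eq_bot.mpr realify_inj)
  have h3 := (h2.isClosedMap _ h1).preimage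
    (isOpenEmbedding_val (ι := α × Fin 2)).continuous
  have e : (detOne α : Set (GL (α × Fin 2) ℝ))
      = (fun g : GL (α × Fin 2) ℝ => g.val) ⁻¹' (realifyL '' {Z : Matrix α α ℂ | Z.det = 1}) := by
    ext g
    constructor
    · rintro ⟨Z, hZ, hg⟩
      exact ⟨Z, hZ, hg.symm⟩
    · rintro ⟨Z, hZ, hg⟩
      exact ⟨Z, hZ, hg.symm⟩
  rw [e]
  exact h3

lemma expU_mem_detOne {A : Matrix (α × Fin 2) (α × Fin 2) ℝ} {Z : Matrix α α ℂ}
    (hA : A = realify Z) (hZ : Z.trace = 0) (t : ℝ) : expU (t • A) ∈ detOne α :=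
  ⟨exp (t • Z), det_exp_trace_zero Z hZ t, by
    rw [expU_val, hA, ← realify_smul, exp_realify]⟩

end F31343
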