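import Mathlib
import Pool.Agent.Lib_MP_f31343.Rank1

/-!
# Groups with `𝔭 = 𝕜^n ⊗ 𝕜^2`
-/

open Matrix NormedSpace Filter Topology Module
open scoped Matrix.Norms.Operator ContDiff

namespace F31343

/-! ### Rotations -/

lemma exp_rot {ι : Type*} [Fintype ι] [DecidableEq ι] {B : Matrix ι ι ℝ} (hB : B * B * B = -B)
    (θ : ℝ) : exp (θ • B) = 1 + Real.sin θ • B + (1 - Real.cos θ) • (B * B) := by
  let f : ℝ → Matrix ι ι ℝ := fun t => 1 + Real.sin t • B + (1 - Real.cos t) • (B * B)
  have hf : ∀ t, HasDerivAt f (B * f t) t := by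
    intro t
    have h1 : HasDerivAt f (0 + Real.cos t • B + (0 - -Real.sin t) • (B * B)) t :=
      (((hasDerivAt_const t (1 : Matrix ι ι ℝ)).add ((Real.hasDerivAt_sin t).smul_const B)).add
        (((hasDerivAt_const t (1 : ℝ)).sub (Real.hasDerivAt_cos t)).smul_const (B * B)))
    convert h1 using 1
    simp only [f, mul_add, mul_one, mul_smul_comm]
    rw [← mul_assoc, hB]
    module
  have hg : ∀ t, HasDerivAt (fun t : ℝ => exp (t • (-B)) * f t) 0 t := by
    intro t
    have h1 := (hasDerivAt_exp_smul_const (𝕂 := ℝ) (-B) t).mul (hf t)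
    have h2 : exp (t • -B) * -B * f t + exp (t • -B) * (B * f t) = 0 := by
      rw [mul_neg, neg_mul, mul_assoc, neg_add_cancel]
    exact h1.congr_deriv h2
  have hc := is_const_of_deriv_eq_zero (fun t => (hg t).differentiableAt) (fun t => (hg t).deriv)
  have h1 := hc θ 0
  have h2 : exp (θ • (-B)) * f θ = 1 := by
    have h3 : (fun t : ℝ => exp (t • (-B)) * f t) θ = (fun t : ℝ => exp (t • (-B)) * f t) 0 := h1
    simp only [f] at h3
    simp only [f]
    rw [h3]
    simp
  have h3 : exp (θ • B) * exp (θ • (-B)) = 1 := by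
    rw [← Matrix.exp_add_of_commute]
    · rw [smul_neg, add_neg_cancel, exp_zero]
    · exact ((Commute.refl B).neg_right.smul_left θ).smul_right θ
  calc exp (θ • B) = exp (θ • B) * (exp (θ • (-B)) * f θ) := by rw [h2, mul_one]
    _ = f θ := by rw [← mul_assoc, h3, one_mul]

/-! ### Representations by real matrices -/

/-- A representation of the matrices over `𝕜` by real matrices. -/
structure RRep (𝕜 m ι : Type*) [RCLike 𝕜] [Fintype m] [DecidableEq m] [Fintype ι]
    [DecidableEq ι] where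
  /-- the homomorphism -/
  ρ : Matrix m m 𝕜 →+* Matrix ι ι ℝ
  smul : ∀ (c : ℝ) (M : Matrix m m 𝕜), ρ (c • M) = c • ρ M
  star : ∀ M, ρ Mᴴ = (ρ M)ᵀ
  /-- the factor in the trace -/
  κ : ℝ
  κ_pos : 0 < κ
  trace : ∀ M, (ρ M).trace = κ * RCLike.re M.trace

variable {𝕜 m ι : Type*} [RCLike 𝕜] [Fintype m] [DecidableEq m] [Fintype ι] [DecidableEq ι]

omit [DecidableEq m] in
lemma re_trace_star_mul_self (M : Matrix m m 𝕜) :
    RCLike.re (Mᴴ * M).trace = ∑ i, ∑ j, ‖M i j‖ ^ 2 := by
  rw [Finset.sum_comm]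
  simp only [Matrix.trace, Matrix.diag, mul_apply, conjTranspose_apply, map_sum]
  refine Finset.sum_congr rfl fun i _ => Finset.sum_congr rfl fun j _ => ?_
  rw [RCLike.star_def, RCLike.conj_mul]
  norm_cast

lemma RRep.inj (R : RRep 𝕜 m ι) : Function.Injective R.ρ := by
  rw [injective_iff_map_eq_zero]
  intro M hM
  have h1 : (R.ρ (Mᴴ * M)).trace = 0 := by rw [map_mul, hM, mul_zero, trace_zero]
  rw [R.trace, re_trace_star_mul_self] at h1
  have h2 := (mul_eq_zero.mp h1).resolve_left R.κ_pos.ne'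
  rw [Finset.sum_eq_zero_iff_of_nonneg (fun i _ => by positivity)] at h2
  ext i j
  have h3 := h2 i (Finset.mem_univ i)
  rw [Finset.sum_eq_zero_iff_of_nonneg (fun i _ => by positivity)] at h3
  have h4 := h3 j (Finset.mem_univ j)
  simpa using h4

end F31343
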