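import Mathlib

/-!
# The space `𝕜^n ⊗ 𝕜^2`
-/

open Matrix

namespace F31343

variable {𝕜 : Type*} [RCLike 𝕜] {n : ℕ}

/-- The hermitian matrix with blocks `0`, `Z`, `Zᴴ`, `0`. -/
def off (Z : Matrix (Fin n) (Fin 2) 𝕜) : Matrix (Fin n ⊕ Fin 2) (Fin n ⊕ Fin 2) 𝕜 :=
  fromBlocks 0 Z Zᴴ 0

/-- The matrix with columns `x` and `y`. -/
def mk2 (x y : Fin n → 𝕜) : Matrix (Fin n) (Fin 2) 𝕜 := Matrix.of fun i => ![x i, y i]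

/-- `P` is the space `𝕜^n ⊗ u` for a unit vector `u` of `𝕜^2`. -/
def IsLine (P : Set (Matrix (Fin n) (Fin 2) 𝕜)) : Prop :=
  ∃ u : Fin 2 → 𝕜, Star.star u ⬝ᵥ u = 1 ∧ P = {Z | ∃ x : Fin n → 𝕜, Z = vecMulVec x u}

/-- `P` is the space of the matrices with columns `x`, `J x` for an antilinear isometry `J` of `𝕜^n`
with `J^2 = -1`. -/
def IsQuat (P : Set (Matrix (Fin n) (Fin 2) 𝕜)) : Prop :=
  ∃ J : (Fin n → 𝕜) →ₗ[ℝ] (Fin n → 𝕜), (∀ (c : 𝕜) x, J (c • x) = Star.star c • J x) ∧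
    (∀ x, J (J x) = -x) ∧ (∀ x, Star.star (J x) ⬝ᵥ J x = Star.star x ⬝ᵥ x) ∧
    P = {Z | ∃ x : Fin n → 𝕜, Z = mk2 x (J x)}

end F31343
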