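import Mathlib
import Pool.Agent.Lib_MP_f31343.Two1
import Pool.Agent.Lib_MP_f31343.TwoDefs

/-!
# Groups with `𝔭 = 𝕜^n ⊗ 𝕜^2`: conjugation
-/

open Matrix NormedSpace Filter Topology Module
open scoped Matrix.Norms.Operator ContDiff

namespace F31343

variable {𝕜 ι : Type*} [RCLike 𝕜] [Fintype ι] [DecidableEq ι] {n : ℕ}

lemma off_mul (Z Z' : Matrix (Fin n) (Fin 2) 𝕜) :
    off Z * off Z' = fromBlocks (Z * Z'ᴴ) 0 0 (Zᴴ * Z') := by
  simp [off, fromBlocks_multiply]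

lemma off_add (Z Z' : Matrix (Fin n) (Fin 2) 𝕜) : off (Z + Z') = off Z + off Z' := by
  simp [off, fromBlocks_add, conjTranspose_add]

lemma off_smul (c : ℝ) (Z : Matrix (Fin n) (Fin 2) 𝕜) : off (c • Z) = c • off Z := by
  simp [off, fromBlocks_smul, conjTranspose_smul]

lemma off_zero : off (0 : Matrix (Fin n) (Fin 2) 𝕜) = 0 := by
  simp [off]

lemma off_inj : Function.Injective (off : Matrix (Fin n) (Fin 2) 𝕜 → _) := by
  intro Z Z' h
  exact (fromBlocks_inj.mp h).2.1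

lemma off_star (Z : Matrix (Fin n) (Fin 2) 𝕜) : (off Z)ᴴ = off Z := by
  simp [off, fromBlocks_conjTranspose]

lemma conj_off (u : Matrix (Fin n) (Fin n) 𝕜) (v : Matrix (Fin 2) (Fin 2) 𝕜)
    (Z : Matrix (Fin n) (Fin 2) 𝕜) :
    (fromBlocks u 0 0 v)ᴴ * off Z * fromBlocks u 0 0 v = off (uᴴ * Z * v) := by
  simp [off, fromBlocks_conjTranspose, fromBlocks_multiply, conjTranspose_mul, Matrix.mul_assoc]

variable (R : RRep 𝕜 (Fin n ⊕ Fin 2) ι) {G : LinRed ι}

/-- Conjugacy under `K`. -/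
def Cj (G : LinRed ι) (X Y : Matrix ι ι ℝ) : Prop := ∃ k ∈ G.K, k.valᵀ * X * k.val = Y

lemma Cj.refl (X : Matrix ι ι ℝ) : Cj G X X := ⟨1, G.K.one_mem, by simp⟩

lemma Cj.symm {X Y : Matrix ι ι ℝ} (h : Cj G X Y) : Cj G Y X := by
  obtain ⟨k, hk, rfl⟩ := h
  refine ⟨k⁻¹, G.K.inv_mem hk, ?_⟩
  rw [K_inv_val hk, transpose_transpose, conj_cancel hk]

lemma Cj.trans {X Y Z : Matrix ι ι ℝ} (h : Cj G X Y) (h' : Cj G Y Z) : Cj G X Z := by
  obtain ⟨k, hk, rfl⟩ := h
  obtain ⟨k', hk', rfl⟩ := h'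
  refine ⟨k * k', G.K.mul_mem hk hk', ?_⟩
  rw [Units.val_mul, transpose_mul]
  simp only [mul_assoc]

lemma Cj.smul {X Y : Matrix ι ι ℝ} (h : Cj G X Y) (c : ℝ) : Cj G (c • X) (c • Y) := by
  obtain ⟨k, hk, rfl⟩ := h
  exact ⟨k, hk, by rw [mul_smul_comm, smul_mul_assoc]⟩

/-- The block diagonal matrices which represent elements of `K`. -/
def InK (G : LinRed ι) (u : Matrix (Fin n) (Fin n) 𝕜) (v : Matrix (Fin 2) (Fin 2) 𝕜) : Prop :=
  ∃ k ∈ G.K, k.val = R.ρ (fromBlocks u 0 0 v)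

variable {R}

lemma InK.cj {u : Matrix (Fin n) (Fin n) 𝕜} {v : Matrix (Fin 2) (Fin 2) 𝕜} (h : InK R G u v)
    (Z : Matrix (Fin n) (Fin 2) 𝕜) : Cj G (R.ρ (off Z)) (R.ρ (off (uᴴ * Z * v))) := by
  obtain ⟨k, hk, hkv⟩ := h
  refine ⟨k, hk, ?_⟩
  rw [hkv, ← R.star, ← map_mul, ← map_mul, conj_off]

lemma InK.cj' {u : Matrix (Fin n) (Fin n) 𝕜} {v : Matrix (Fin 2) (Fin 2) 𝕜} (h : InK R G u v)
    {Z Z' : Matrix (Fin n) (Fin 2) 𝕜} (e : uᴴ * Z * v = Z') :
    Cj G (R.ρ (off Z)) (R.ρ (off Z')) := by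
  rw [← e]; exact h.cj Z

variable (hG : ∀ X, X ∈ G.𝔭 ↔ ∃ Z : Matrix (Fin n) (Fin 2) 𝕜, X = R.ρ (off Z))

include hG in
lemma inK_exp (Z₁ Z₂ : Matrix (Fin n) (Fin 2) 𝕜) {a : Matrix (Fin n) (Fin n) 𝕜}
    {b : Matrix (Fin 2) (Fin 2) 𝕜} (ha : a = Z₁ * Z₂ᴴ - Z₂ * Z₁ᴴ) (hb : b = Z₁ᴴ * Z₂ - Z₂ᴴ * Z₁)
    (ha3 : a * a * a = -a) (hb3 : b * b * b = -b) (θ : ℝ) :
    InK R G (1 + Real.sin θ • a + (1 - Real.cos θ) • (a * a))
      (1 + Real.sin θ • b + (1 - Real.cos θ) • (b * b)) := by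
  have hA : R.ρ (fromBlocks a 0 0 b) ∈ G.𝔨 := by
    have h1 := brk_mem_k (G := G) ((hG _).mpr ⟨Z₁, rfl⟩) ((hG _).mpr ⟨Z₂, rfl⟩)
    have h2 : R.ρ (fromBlocks a 0 0 b) = R.ρ (off Z₁) * R.ρ (off Z₂) - R.ρ (off Z₂) * R.ρ (off Z₁) := by
      rw [← map_mul, ← map_mul, ← map_sub, off_mul, off_mul, sub_eq_add_neg, fromBlocks_neg,
        fromBlocks_add, ha, hb, sub_eq_add_neg, sub_eq_add_neg]
      simp
    rw [h2]
    exact h1
  have hA3 : R.ρ (fromBlocks a 0 0 b) * R.ρ (fromBlocks a 0 0 b) * R.ρ (fromBlocks a 0 0 b)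
      = -R.ρ (fromBlocks a 0 0 b) := by
    rw [← map_mul, ← map_mul, ← map_neg, fromBlocks_multiply, fromBlocks_multiply,
      fromBlocks_neg]
    simp [ha3, hb3]
  refine ⟨expU (θ • R.ρ (fromBlocks a 0 0 b)), expU_mem_K hA θ, ?_⟩
  rw [expU_val, exp_rot hA3, ← map_mul, ← R.smul, ← R.smul, ← map_one R.ρ, ← map_add, ← map_add]
  congr 1
  rw [fromBlocks_multiply, fromBlocks_smul, fromBlocks_smul, ← fromBlocks_one, fromBlocks_add,
    fromBlocks_add]
  simp

include hG in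
/-- Sign changes of two coordinates of `𝕜^n`. -/
lemma inK_sign {i j : Fin n} (hij : i ≠ j) :
    InK R G (1 - (2 : ℝ) • (single i i (1 : 𝕜) + single j j 1)) 1 := by
  have hji : j ≠ i := hij.symm
  have h := inK_exp hG (single i 0 (1 : 𝕜)) (single j 0 (1 : 𝕜)) (a := single i j 1 - single j i 1)
    (b := 0) (by simp) (by simp [hij, hji]) (by
      simp [sub_mul, mul_sub, hij, hji]; abel)
    (by simp) Real.pi
  rw [Real.sin_pi, Real.cos_pi] at h
  convert h using 1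
  · simp only [sub_mul, mul_sub, zero_smul, add_zero, single_mul_single_same, mul_one,
      single_mul_single_of_ne _ _ _ _ hij, single_mul_single_of_ne _ _ _ _ hji]
    module
  · simp

include hG in
/-- The simultaneous exchange of two coordinates of `𝕜^n` and of `𝕜^2`. -/
lemma inK_rotn {i j : Fin n} (hij : i ≠ j) :
    InK R G (1 + (single i j (1 : 𝕜) - single j i 1) - (single i i 1 + single j j 1)) 1 := by
  have hji : j ≠ i := hij.symm
  have h := inK_exp hG (single i 0 (1 : 𝕜)) (single j 0 (1 : 𝕜)) (a := single i j 1 - single j i 1)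
    (b := 0) (by simp) (by simp [hij, hji]) (by
      simp [sub_mul, mul_sub, hij, hji]; abel)
    (by simp) (Real.pi / 2)
  rw [Real.sin_pi_div_two, Real.cos_pi_div_two] at h
  convert h using 1
  · simp only [sub_mul, mul_sub, one_smul, sub_zero, single_mul_single_same, mul_one,
      single_mul_single_of_ne _ _ _ _ hij, single_mul_single_of_ne _ _ _ _ hji]
    module
  · simp

include hG in
lemma inK_rot2 (i : Fin n) :
    InK R G 1 (single 0 1 (1 : 𝕜) - single 1 0 1) := by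
  have h := inK_exp hG (single i 0 (1 : 𝕜)) (single i 1 (1 : 𝕜)) (a := 0)
    (b := single 0 1 1 - single 1 0 1) (by simp) (by simp) (by simp)
    (by simp [sub_mul, mul_sub]; abel) (Real.pi / 2)
  rw [Real.sin_pi_div_two, Real.cos_pi_div_two] at h
  convert h using 1
  · simp
  · ext a b
    fin_cases a <;> fin_cases b <;> simp [mul_apply, Fin.sum_univ_two]

/-- The normal form. -/
def dg (i j : Fin n) (a b : ℝ) : Matrix (Fin n) (Fin 2) 𝕜 :=
  single i 0 (a : 𝕜) + single j 1 (b : 𝕜)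

include hG in
lemma cj_neg_left {i j k : Fin n} (hij : i ≠ j) (hik : i ≠ k) (hjk : j ≠ k) (a b : ℝ) :
    Cj G (R.ρ (off (dg i j a b : Matrix (Fin n) (Fin 2) 𝕜)))
      (R.ρ (off (dg i j (-a) b : Matrix (Fin n) (Fin 2) 𝕜))) := by
  refine (inK_sign hG hik).cj' ?_
  simp only [dg, conjTranspose_sub, conjTranspose_smul, conjTranspose_add, conjTranspose_single,
    conjTranspose_one, star_one, star_trivial, Matrix.sub_mul, Matrix.add_mul, Matrix.mul_add,
    Matrix.smul_mul, Matrix.mul_one, Matrix.one_mul, one_mul, single_mul_single_same,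
    single_mul_single_of_ne _ _ _ _ hij, single_mul_single_of_ne _ _ _ _ hik.symm,
    single_mul_single_of_ne _ _ _ _ hjk.symm]
  have h1 : single i (0 : Fin 2) ((-a : ℝ) : 𝕜) = -single i 0 (a : 𝕜) := by
    ext x y
    rw [RCLike.ofReal_neg, Matrix.neg_apply, single_apply, single_apply]
    split_ifs <;> simp
  rw [h1]
  module

include hG in
lemma cj_neg_right {i j k : Fin n} (hij : i ≠ j) (hik : i ≠ k) (hjk : j ≠ k) (a b : ℝ) :
    Cj G (R.ρ (off (dg i j a b : Matrix (Fin n) (Fin 2) 𝕜)))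
      (R.ρ (off (dg i j a (-b) : Matrix (Fin n) (Fin 2) 𝕜))) := by
  refine (inK_sign hG hjk).cj' ?_
  simp only [dg, conjTranspose_sub, conjTranspose_smul, conjTranspose_add, conjTranspose_single,
    conjTranspose_one, star_one, star_trivial, Matrix.sub_mul, Matrix.add_mul, Matrix.mul_add,
    Matrix.smul_mul, Matrix.mul_one, Matrix.one_mul, one_mul, single_mul_single_same,
    single_mul_single_of_ne _ _ _ _ hij.symm, single_mul_single_of_ne _ _ _ _ hik.symm,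
    single_mul_single_of_ne _ _ _ _ hjk.symm]
  have h1 : single j (1 : Fin 2) ((-b : ℝ) : 𝕜) = -single j 1 (b : 𝕜) := by
    ext x y
    rw [RCLike.ofReal_neg, Matrix.neg_apply, single_apply, single_apply]
    split_ifs <;> simp
  rw [h1]
  module

include hG in
lemma cj_swap {i j : Fin n} (hij : i ≠ j) (a b : ℝ) :
    Cj G (R.ρ (off (dg i j a b : Matrix (Fin n) (Fin 2) 𝕜)))
      (R.ρ (off (dg i j b a : Matrix (Fin n) (Fin 2) 𝕜))) := by
  have h1 : Cj G (R.ρ (off (dg i j a b : Matrix (Fin n) (Fin 2) 𝕜)))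
      (R.ρ (off (single j 0 (a : 𝕜) - single i 1 (b : 𝕜)))) := by
    refine (inK_rotn hG hij).cj' ?_
    simp only [dg, conjTranspose_sub, conjTranspose_add, conjTranspose_single,
      conjTranspose_one, star_one, Matrix.sub_mul, Matrix.add_mul, Matrix.mul_add,
      Matrix.mul_one, Matrix.one_mul, one_mul, single_mul_single_same,
      single_mul_single_of_ne _ _ _ _ hij, single_mul_single_of_ne _ _ _ _ hij.symm]
    abel
  refine h1.trans ((inK_rot2 hG i).cj' ?_)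
  simp only [dg, conjTranspose_one, Matrix.one_mul, Matrix.sub_mul, Matrix.mul_sub,
    single_mul_single_same, mul_one]
  rw [single_mul_single_of_ne _ _ _ _ (by decide : (0 : Fin 2) ≠ 1),
    single_mul_single_of_ne _ _ _ _ (by decide : (1 : Fin 2) ≠ 0)]
  abel

end F31343
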