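import Mathlib
import Pool.Agent.Lib_MP_f31343.Two2

/-!
# Groups with `𝔭 = 𝕜^n ⊗ 𝕜^2`: normal form and invariants
-/

open Matrix NormedSpace Filter Topology Module
open scoped Matrix.Norms.Operator ContDiff

namespace F31343

variable {𝕜 ι : Type*} [RCLike 𝕜] [Fintype ι] [DecidableEq ι] {n : ℕ}
  {R : RRep 𝕜 (Fin n ⊕ Fin 2) ι} {G : LinRed ι}

lemma dg_apply (i j x : Fin n) (y : Fin 2) (a b : ℝ) :
    (dg i j a b : Matrix (Fin n) (Fin 2) 𝕜) x y
      = (if i = x ∧ 0 = y then (a : 𝕜) else 0) + (if j = x ∧ 1 = y then (b : 𝕜) else 0) := by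
  simp [dg, single_apply]

/-- A matrix which commutes with a regular diagonal matrix is diagonal. -/
lemma eq_dg_of_comm {i j : Fin n} (hij : i ≠ j) {Z : Matrix (Fin n) (Fin 2) 𝕜}
    (h : off Z * off (dg i j 2 1) = off (dg i j 2 1) * off Z) :
    Z = dg i j (RCLike.re (Z i 0)) (RCLike.re (Z j 1)) := by
  rw [off_mul, off_mul, fromBlocks_inj] at h
  obtain ⟨h1, -, -, h2⟩ := h
  have h2c : ((2 : ℝ) : 𝕜) = 2 := RCLike.ofReal_ofNat 2
  have e1 : ∀ x y, Z x 0 * (if i = y then 2 else 0) + Z x 1 * (if j = y then 1 else 0)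
      = (if i = x then 2 else 0) * Star.star (Z y 0) + (if j = x then 1 else 0) * Star.star (Z y 1) := by
    intro x y
    have := congrFun (congrFun h1 x) y
    simp only [mul_apply, Fin.sum_univ_two, conjTranspose_apply, dg_apply] at this
    simp only [and_true, and_false, if_false, add_zero, zero_add, reduceCtorEq,
      (by decide : (0 : Fin 2) ≠ 1), (by decide : (1 : Fin 2) ≠ 0)] at this
    rw [apply_ite Star.star, apply_ite Star.star] at this
    simpa [h2c] using this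
  have hre : ∀ {z : 𝕜}, z = Star.star z → z = (RCLike.re z : 𝕜) := by
    intro z hz
    exact (RCLike.conj_eq_iff_re.mp hz.symm).symm
  have hii : Z i 0 = (RCLike.re (Z i 0) : 𝕜) := by
    apply hre
    have := e1 i i
    simp only [if_true, hij.symm, if_false, mul_zero, add_zero, zero_mul] at this
    rw [mul_comm] at this
    exact mul_left_cancel₀ two_ne_zero this
  have hjj : Z j 1 = (RCLike.re (Z j 1) : 𝕜) := by
    apply hre
    have := e1 j j
    simpa [hij] using this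
  have hij1 : Z i 1 = 2 * Star.star (Z j 0) := by
    have := e1 i j
    simpa [hij, hij.symm] using this
  have e2 : Star.star (Z j 0) = 2 * Z i 1 := by
    have := congrFun (congrFun h2 0) 1
    simp only [mul_apply, conjTranspose_apply, dg_apply] at this
    simp only [and_true, and_false, if_false, add_zero, zero_add, 
      (by decide : (0 : Fin 2) ≠ 1), (by decide : (1 : Fin 2) ≠ 0)] at this
    simpa [Finset.sum_ite_eq, mul_ite, ite_mul, apply_ite Star.star, h2c] using this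
  have hi1 : Z i 1 = 0 := by
    rw [e2] at hij1
    have : (3 : 𝕜) * Z i 1 = 0 := by linear_combination -hij1
    exact (mul_eq_zero.mp this).resolve_left (by norm_num)
  have hj0 : Z j 0 = 0 := by
    have : Star.star (Z j 0) = 0 := by rw [e2, hi1, mul_zero]
    simpa using this
  have hx : ∀ x, x ≠ i → x ≠ j → Z x 0 = 0 ∧ Z x 1 = 0 := by
    intro x hxi hxj
    have a1 := e1 x i
    have a2 := e1 x j
    simp only [if_true, hij.symm, hij, if_false, mul_zero, add_zero, zero_mul, hxi.symm, hxj.symm,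
      mul_one, zero_add] at a1 a2
    exact ⟨(mul_eq_zero.mp a1).resolve_right two_ne_zero, a2⟩
  ext x y
  rw [dg_apply]
  by_cases hxi : x = i
  · subst hxi
    fin_cases y
    · simpa [hij.symm] using hii
    · simpa [hij.symm] using hi1
  · by_cases hxj : x = j
    · subst hxj
      fin_cases y
      · simpa [hij] using hj0
      · simpa [hij] using hjj
    · have := hx x hxi hxj
      fin_cases y
      · simpa [Ne.symm hxi, Ne.symm hxj] using this.1
      · simpa [Ne.symm hxi, Ne.symm hxj] using this.2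

variable (hG : ∀ X, X ∈ G.𝔭 ↔ ∃ Z : Matrix (Fin n) (Fin 2) 𝕜, X = R.ρ (off Z))

include hG in
lemma mem_centraliser_dg {i j : Fin n} (hij : i ≠ j) {X : Matrix ι ι ℝ}
    (hX : X ∈ centraliser G (R.ρ (off (dg i j 2 1 : Matrix (Fin n) (Fin 2) 𝕜)))) :
    ∃ a b : ℝ, X = R.ρ (off (dg i j a b : Matrix (Fin n) (Fin 2) 𝕜)) := by
  obtain ⟨hX1, hX2⟩ := hX
  obtain ⟨Z, rfl⟩ := (hG X).mp hX1
  rw [← map_mul, ← map_mul] at hX2
  have h1 := eq_dg_of_comm hij (R.inj hX2)
  exact ⟨_, _, by rw [← h1]⟩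

include hG in
/-- The normal form of the elements of `𝔭`. -/
lemma exists_dg {i j : Fin n} (hij : i ≠ j) {X : Matrix ι ι ℝ} (hX : X ∈ G.𝔭) :
    ∃ a b : ℝ, Cj G X (R.ρ (off (dg i j a b : Matrix (Fin n) (Fin 2) 𝕜))) := by
  obtain ⟨k, hk, hkX⟩ := exists_conj_centraliser hX ((hG _).mpr ⟨dg i j 2 1, rfl⟩)
  obtain ⟨a, b, h⟩ := mem_centraliser_dg hG hij hkX
  exact ⟨a, b, k, hk, h⟩

include hG in
/-- The real rank is at most two. -/
lemma realRank_le_two {i j : Fin n} (hij : i ≠ j) : realRank G ≤ 2 := by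
  refine (realRank_le ((hG _).mpr ⟨dg i j 2 1, rfl⟩)).trans ?_
  have hle : centraliser G (R.ρ (off (dg i j 2 1 : Matrix (Fin n) (Fin 2) 𝕜)))
      ≤ Submodule.span ℝ (Set.range ![R.ρ (off (dg i j 1 0 : Matrix (Fin n) (Fin 2) 𝕜)),
        R.ρ (off (dg i j 0 1 : Matrix (Fin n) (Fin 2) 𝕜))]) := by
    intro X hX
    obtain ⟨a, b, rfl⟩ := mem_centraliser_dg hG hij hX
    have e : (dg i j a b : Matrix (Fin n) (Fin 2) 𝕜) = a • dg i j 1 0 + b • dg i j 0 1 := by
      simp only [dg]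
      rw [smul_add, smul_add, smul_single, smul_single, smul_single, smul_single]
      simp [RCLike.real_smul_eq_coe_mul]
    rw [e, off_add, off_smul, off_smul, map_add, R.smul, R.smul]
    refine Submodule.add_mem _ (Submodule.smul_mem _ _ (Submodule.subset_span ⟨0, rfl⟩))
      (Submodule.smul_mem _ _ (Submodule.subset_span ⟨1, rfl⟩))
  refine (Submodule.finrank_mono hle).trans ?_
  have := finrank_range_le_card (R := ℝ)
    ![R.ρ (off (dg i j 1 0 : Matrix (Fin n) (Fin 2) 𝕜)),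
        R.ρ (off (dg i j 0 1 : Matrix (Fin n) (Fin 2) 𝕜))]
  rw [Fintype.card_fin] at this
  exact this

/-! ### The invariants -/

/-- `|Z|^2`. -/
def NN (Z : Matrix (Fin n) (Fin 2) 𝕜) : ℝ := RCLike.re (Zᴴ * Z).trace

/-- `tr (Z^* Z)^2`. -/
def QQ (Z : Matrix (Fin n) (Fin 2) 𝕜) : ℝ := RCLike.re ((Zᴴ * Z) * (Zᴴ * Z)).trace

lemma trace_blocks {a b : ℕ} (A : Matrix (Fin a) (Fin a) 𝕜) (B : Matrix (Fin a) (Fin b) 𝕜)
    (C : Matrix (Fin b) (Fin a) 𝕜) (D : Matrix (Fin b) (Fin b) 𝕜) :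
    (fromBlocks A B C D).trace = A.trace + D.trace := by
  simp [Matrix.trace]

lemma trace_sq_off (R : RRep 𝕜 (Fin n ⊕ Fin 2) ι) (Z : Matrix (Fin n) (Fin 2) 𝕜) :
    (R.ρ (off Z) * R.ρ (off Z)).trace = 2 * R.κ * NN Z := by
  rw [← map_mul, R.trace, off_mul, trace_blocks, trace_mul_comm, map_add]
  unfold NN
  ring

lemma trace_four_off (R : RRep 𝕜 (Fin n ⊕ Fin 2) ι) (Z : Matrix (Fin n) (Fin 2) 𝕜) :
    (R.ρ (off Z) * R.ρ (off Z) * (R.ρ (off Z) * R.ρ (off Z))).trace = 2 * R.κ * QQ Z := by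
  rw [← map_mul, ← map_mul, R.trace, off_mul, fromBlocks_multiply, trace_blocks, map_add]
  simp only [Matrix.mul_zero, add_zero, zero_add]
  have e : (Z * Zᴴ * (Z * Zᴴ)).trace = (Zᴴ * Z * (Zᴴ * Z)).trace := by
    rw [Matrix.mul_assoc, trace_mul_comm]
    simp only [Matrix.mul_assoc]
  rw [e]
  unfold QQ
  ring

lemma Cj.NN_eq {Z Z' : Matrix (Fin n) (Fin 2) 𝕜} (h : Cj G (R.ρ (off Z)) (R.ρ (off Z'))) :
    NN Z = NN Z' := by
  obtain ⟨k, hk, hkZ⟩ := h
  have h1 := trace_sq_off R Z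
  have h2 := trace_sq_off R Z'
  rw [← hkZ, conj_mul hk, trace_conj hk, h1] at h2
  exact mul_left_cancel₀ (mul_ne_zero two_ne_zero R.κ_pos.ne') h2

lemma Cj.QQ_eq {Z Z' : Matrix (Fin n) (Fin 2) 𝕜} (h : Cj G (R.ρ (off Z)) (R.ρ (off Z'))) :
    QQ Z = QQ Z' := by
  obtain ⟨k, hk, hkZ⟩ := h
  have h1 := trace_four_off R Z
  have h2 := trace_four_off R Z'
  rw [← hkZ, conj_mul hk, conj_mul hk, trace_conj hk, h1] at h2
  exact mul_left_cancel₀ (mul_ne_zero two_ne_zero R.κ_pos.ne') h2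

lemma NN_eq_sum (Z : Matrix (Fin n) (Fin 2) 𝕜) : NN Z = ∑ x, (‖Z x 0‖ ^ 2 + ‖Z x 1‖ ^ 2) := by
  unfold NN
  simp only [Matrix.trace, Matrix.diag, mul_apply, conjTranspose_apply, Fin.sum_univ_two, map_add,
    map_sum]
  rw [← Finset.sum_add_distrib]
  refine Finset.sum_congr rfl fun x _ => ?_
  have h : ∀ z : 𝕜, RCLike.re (Star.star z * z) = ‖z‖ ^ 2 := by
    intro z
    rw [RCLike.star_def, RCLike.conj_mul]
    norm_cast
  rw [h, h]

lemma NN_nonneg (Z : Matrix (Fin n) (Fin 2) 𝕜) : 0 ≤ NN Z := by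
  rw [NN_eq_sum]; positivity

lemma NN_pos {Z : Matrix (Fin n) (Fin 2) 𝕜} (h : Z ≠ 0) : 0 < NN Z := by
  refine lt_of_le_of_ne (NN_nonneg Z) fun h0 => h ?_
  rw [NN_eq_sum, eq_comm, Finset.sum_eq_zero_iff_of_nonneg (fun i _ => by positivity)] at h0
  ext x y
  have h1 := h0 x (Finset.mem_univ x)
  have h2 : ‖Z x 0‖ ^ 2 = 0 := by nlinarith [sq_nonneg ‖Z x 0‖, sq_nonneg ‖Z x 1‖]
  have h3 : ‖Z x 1‖ ^ 2 = 0 := by nlinarith [sq_nonneg ‖Z x 0‖, sq_nonneg ‖Z x 1‖]
  fin_cases y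
  · simpa using h2
  · simpa using h3

lemma NN_smul (c : ℝ) (Z : Matrix (Fin n) (Fin 2) 𝕜) : NN (c • Z) = c ^ 2 * NN Z := by
  unfold NN
  rw [conjTranspose_smul, star_trivial, Matrix.smul_mul, Matrix.mul_smul, smul_smul, trace_smul,
    RCLike.smul_re]
  ring

lemma QQ_smul (c : ℝ) (Z : Matrix (Fin n) (Fin 2) 𝕜) : QQ (c • Z) = c ^ 4 * QQ Z := by
  unfold QQ
  have e : (c • Z)ᴴ * (c • Z) = (c * c) • (Zᴴ * Z) := by
    rw [conjTranspose_smul, star_trivial, Matrix.smul_mul, Matrix.mul_smul, smul_smul]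
  rw [e, smul_mul_smul_comm, trace_smul, RCLike.smul_re]
  ring

lemma dg_star_mul {i j : Fin n} (hij : i ≠ j) (a b : ℝ) :
    (dg i j a b : Matrix (Fin n) (Fin 2) 𝕜)ᴴ * (dg i j a b : Matrix (Fin n) (Fin 2) 𝕜)
      = single 0 0 ((a ^ 2 : ℝ) : 𝕜) + single 1 1 ((b ^ 2 : ℝ) : 𝕜) := by
  simp only [dg, conjTranspose_add, conjTranspose_single, Matrix.add_mul, Matrix.mul_add,
    single_mul_single_same, single_mul_single_of_ne _ _ _ _ hij,
    single_mul_single_of_ne _ _ _ _ hij.symm, RCLike.star_def, RCLike.conj_ofReal]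
  push_cast
  simp [sq]

lemma NN_dg {i j : Fin n} (hij : i ≠ j) (a b : ℝ) :
    NN (dg i j a b : Matrix (Fin n) (Fin 2) 𝕜) = a ^ 2 + b ^ 2 := by
  unfold NN
  rw [dg_star_mul hij, trace_add, trace_single_eq_same, trace_single_eq_same, map_add,
    RCLike.ofReal_re, RCLike.ofReal_re]

lemma QQ_dg {i j : Fin n} (hij : i ≠ j) (a b : ℝ) :
    QQ (dg i j a b : Matrix (Fin n) (Fin 2) 𝕜) = a ^ 4 + b ^ 4 := by
  unfold QQ
  rw [dg_star_mul hij]
  have h01 : (0 : Fin 2) ≠ 1 := by decide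
  have h10 : (1 : Fin 2) ≠ 0 := by decide
  rw [add_mul, mul_add, mul_add, single_mul_single_same, single_mul_single_same,
    single_mul_single_of_ne _ _ _ _ h01, single_mul_single_of_ne _ _ _ _ h10, add_zero, zero_add,
    trace_add, trace_single_eq_same, trace_single_eq_same, ← RCLike.ofReal_mul,
    ← RCLike.ofReal_mul, map_add, RCLike.ofReal_re, RCLike.ofReal_re]
  ring

include hG in
/-- Elements with the same invariants are conjugate. -/
theorem cj_of_inv {i j k : Fin n} (hij : i ≠ j) (hik : i ≠ k) (hjk : j ≠ k)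
    {Z Z' : Matrix (Fin n) (Fin 2) 𝕜} (h1 : NN Z = NN Z') (h2 : QQ Z = QQ Z') :
    Cj G (R.ρ (off Z)) (R.ρ (off Z')) := by
  obtain ⟨a, b, hab⟩ := exists_dg hG hij ((hG (R.ρ (off Z))).mpr ⟨Z, rfl⟩)
  obtain ⟨a', b', hab'⟩ := exists_dg hG hij ((hG (R.ρ (off Z'))).mpr ⟨Z', rfl⟩)
  refine hab.trans (Cj.trans ?_ hab'.symm)
  rw [hab.NN_eq, hab'.NN_eq, NN_dg hij, NN_dg hij] at h1
  rw [hab.QQ_eq, hab'.QQ_eq, QQ_dg hij, QQ_dg hij] at h2
  have key : ∀ a b a' b' : ℝ, a ^ 2 = a' ^ 2 → b ^ 2 = b' ^ 2 →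
      Cj G (R.ρ (off (dg i j a b : Matrix (Fin n) (Fin 2) 𝕜)))
        (R.ρ (off (dg i j a' b' : Matrix (Fin n) (Fin 2) 𝕜))) := by
    intro a b a' b' ha hb
    rcases sq_eq_sq_iff_eq_or_eq_neg.mp ha with rfl | rfl
    · rcases sq_eq_sq_iff_eq_or_eq_neg.mp hb with rfl | rfl
      · exact Cj.refl _
      · have := cj_neg_right hG hij hik hjk a (-b')
        rwa [neg_neg] at this
    · rcases sq_eq_sq_iff_eq_or_eq_neg.mp hb with rfl | rfl
      · have := cj_neg_left hG hij hik hjk (-a') b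
        rwa [neg_neg] at this
      · have h3 := cj_neg_left hG hij hik hjk (-a') (-b')
        have h4 := cj_neg_right hG hij hik hjk (- -a') (-b')
        rw [neg_neg] at h3 h4
        rw [neg_neg] at h4
        exact h3.trans h4
  have h3 : (a ^ 2 - a' ^ 2) * (a ^ 2 - b' ^ 2) = 0 := by nlinarith
  rcases mul_eq_zero.mp h3 with h | h
  · exact key a b a' b' (by linarith) (by linarith)
  · exact (cj_swap hG hij a b).trans (key b a a' b' (by linarith) (by linarith))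

end F31343
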