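import Mathlib
import Pool.Agent.Lib_MP_f31343.Two3

/-!
# Groups with `𝔭 = 𝕜^n ⊗ 𝕜^2`: dimensions
-/

open Matrix NormedSpace Filter Topology Module
open scoped Matrix.Norms.Operator ContDiff

namespace F31343

variable {𝕜 ι : Type*} [RCLike 𝕜] [Fintype ι] [DecidableEq ι] {n : ℕ}
  {R : RRep 𝕜 (Fin n ⊕ Fin 2) ι} {G : LinRed ι}

lemma finrank_V : finrank ℝ (Matrix (Fin n) (Fin 2) 𝕜) = 2 * (n * finrank ℝ 𝕜) := by
  rw [Module.finrank_matrix, Fintype.card_fin, Fintype.card_fin]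
  ring

lemma finrank_col : finrank ℝ (Fin n → 𝕜) = n * finrank ℝ 𝕜 := by
  rw [Module.finrank_pi_fintype, Finset.sum_const, Finset.card_univ, Fintype.card_fin,
    smul_eq_mul]

/-- The columns. -/
def col (j : Fin 2) : Matrix (Fin n) (Fin 2) 𝕜 →ₗ[ℝ] (Fin n → 𝕜) where
  toFun Z := fun x => Z x j
  map_add' _ _ := rfl
  map_smul' _ _ := rfl

@[simp] lemma mk2_zero (x y : Fin n → 𝕜) (i : Fin n) : mk2 x y i 0 = x i := rfl
@[simp] lemma mk2_one (x y : Fin n → 𝕜) (i : Fin n) : mk2 x y i 1 = y i := rfl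

lemma eq_mk2 (Z : Matrix (Fin n) (Fin 2) 𝕜) : Z = mk2 (col 0 Z) (col 1 Z) := by
  ext x y
  fin_cases y <;> rfl

/-! ### Sums of squares -/

lemma star_mul_apply (Z : Matrix (Fin n) (Fin 2) 𝕜) (i j : Fin 2) :
    (Zᴴ * Z) i j = Star.star (col i Z) ⬝ᵥ col j Z := rfl

/-- The two invariants in terms of the columns. -/
lemma NN_col (Z : Matrix (Fin n) (Fin 2) 𝕜) :
    NN Z = RCLike.re ((Zᴴ * Z) 0 0) + RCLike.re ((Zᴴ * Z) 1 1) := by
  unfold NN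
  rw [trace_fin_two, map_add]

lemma herm_im (Z : Matrix (Fin n) (Fin 2) 𝕜) (i : Fin 2) :
    ((RCLike.re ((Zᴴ * Z) i i) : ℝ) : 𝕜) = (Zᴴ * Z) i i := by
  have h : Star.star ((Zᴴ * Z) i i) = (Zᴴ * Z) i i := by
    rw [← conjTranspose_apply, conjTranspose_mul, conjTranspose_conjTranspose]
  exact RCLike.conj_eq_iff_re.mp h

lemma herm_01 (Z : Matrix (Fin n) (Fin 2) 𝕜) : (Zᴴ * Z) 1 0 = Star.star ((Zᴴ * Z) 0 1) := by
  rw [← conjTranspose_apply, conjTranspose_mul, conjTranspose_conjTranspose]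

lemma QQ_col (Z : Matrix (Fin n) (Fin 2) 𝕜) :
    QQ Z = RCLike.re ((Zᴴ * Z) 0 0) ^ 2 + RCLike.re ((Zᴴ * Z) 1 1) ^ 2
      + 2 * ‖(Zᴴ * Z) 0 1‖ ^ 2 := by
  unfold QQ
  rw [trace_fin_two, mul_apply, mul_apply, Fin.sum_univ_two, Fin.sum_univ_two, herm_01]
  have h1 : ∀ i : Fin 2, RCLike.re ((Zᴴ * Z) i i * (Zᴴ * Z) i i) = RCLike.re ((Zᴴ * Z) i i) ^ 2 := by
    intro i
    rw [← herm_im Z i, ← RCLike.ofReal_mul, RCLike.ofReal_re, RCLike.ofReal_re]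
    ring
  have h2 : RCLike.re ((Zᴴ * Z) 0 1 * Star.star ((Zᴴ * Z) 0 1)) = ‖(Zᴴ * Z) 0 1‖ ^ 2 := by
    rw [RCLike.star_def, RCLike.mul_conj]
    norm_cast
  have h3 : RCLike.re (Star.star ((Zᴴ * Z) 0 1) * (Zᴴ * Z) 0 1) = ‖(Zᴴ * Z) 0 1‖ ^ 2 := by
    rw [mul_comm, h2]
  rw [map_add, map_add, map_add, h1, h1, h2, h3]
  ring

/-- `4 |q|^2 = 2 QQ - NN^2` for the traceless part `q` of `Z^* Z`. -/
lemma four_q (Z : Matrix (Fin n) (Fin 2) 𝕜) :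
    2 * QQ Z - NN Z ^ 2 = (RCLike.re ((Zᴴ * Z) 0 0) - RCLike.re ((Zᴴ * Z) 1 1)) ^ 2
      + 4 * ‖(Zᴴ * Z) 0 1‖ ^ 2 := by
  rw [QQ_col, NN_col]
  ring

/-- A matrix whose columns are proportional has rank one. -/
lemma QQ_rank_one {Z : Matrix (Fin n) (Fin 2) 𝕜} (x : Fin n → 𝕜) (a b : 𝕜)
    (hZ : Z = mk2 (a • x) (b • x)) : QQ Z = NN Z ^ 2 := by
  have h : ∀ u v : 𝕜, Star.star (u • x) ⬝ᵥ (v • x) = Star.star u * v * (Star.star x ⬝ᵥ x) := by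
    intro u v
    rw [Pi.star_def]
    simp only [dotProduct, Pi.smul_apply, smul_eq_mul, star_mul', Pi.star_apply, Finset.mul_sum]
    refine Finset.sum_congr rfl fun i _ => ?_
    ring
  have h00 : (Zᴴ * Z) 0 0 = Star.star a * a * (Star.star x ⬝ᵥ x) := by
    rw [star_mul_apply, hZ, ← h]; rfl
  have h11 : (Zᴴ * Z) 1 1 = Star.star b * b * (Star.star x ⬝ᵥ x) := by
    rw [star_mul_apply, hZ, ← h]; rfl
  have h01 : (Zᴴ * Z) 0 1 = Star.star a * b * (Star.star x ⬝ᵥ x) := by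
    rw [star_mul_apply, hZ, ← h]; rfl
  have hx : ∃ r : ℝ, Star.star x ⬝ᵥ x = (r : 𝕜) := by
    refine ⟨∑ i, ‖x i‖ ^ 2, ?_⟩
    simp only [dotProduct, Pi.star_apply, RCLike.star_def, RCLike.conj_mul]
    push_cast
    rfl
  obtain ⟨r, hr⟩ := hx
  have ha : ∀ u : 𝕜, Star.star u * u = ((‖u‖ ^ 2 : ℝ) : 𝕜) := by
    intro u
    rw [RCLike.star_def, RCLike.conj_mul]
    push_cast
    rfl
  rw [QQ_col, NN_col, h00, h11, h01, hr, ha, ha, ← RCLike.ofReal_mul, ← RCLike.ofReal_mul,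
    RCLike.ofReal_re, RCLike.ofReal_re, norm_mul, norm_mul, norm_star, RCLike.norm_ofReal]
  have : |r| ^ 2 = r ^ 2 := sq_abs r
  ring_nf
  rw [this]
  ring

/-- A large subspace contains matrices of rank one. -/
lemma exists_rank_one (S : Submodule ℝ (Matrix (Fin n) (Fin 2) 𝕜))
    (hS : n * finrank ℝ 𝕜 < finrank ℝ S) : ∃ Z ∈ S, Z ≠ 0 ∧ QQ Z = NN Z ^ 2 := by
  have h1 : LinearMap.ker (col 1 ∘ₗ S.subtype : S →ₗ[ℝ] (Fin n → 𝕜)) ≠ ⊥ := by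
    apply LinearMap.ker_ne_bot_of_finrank_lt
    rwa [finrank_col]
  obtain ⟨Z, hZ, hZ0⟩ := Submodule.exists_mem_ne_zero_of_ne_bot h1
  refine ⟨Z.1, Z.2, fun h => hZ0 (Subtype.ext h), ?_⟩
  apply QQ_rank_one (col 0 Z.1) 1 0
  have h2 : col 1 Z.1 = 0 := hZ
  rw [one_smul, zero_smul, ← h2]
  exact eq_mk2 _

/-- Every large subspace contains matrices whose columns are orthogonal and of the same length. -/
def Conf (n : ℕ) (𝕜 : Type*) [RCLike 𝕜] : Prop :=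
  ∀ S : Submodule ℝ (Matrix (Fin n) (Fin 2) 𝕜), n * finrank ℝ 𝕜 < finrank ℝ S →
    ∃ Z ∈ S, Z ≠ 0 ∧ 2 * QQ Z = NN Z ^ 2

lemma continuous_NN : Continuous (NN : Matrix (Fin n) (Fin 2) 𝕜 → ℝ) := by
  unfold NN
  exact RCLike.continuous_re.comp
    ((continuous_id.matrix_conjTranspose.matrix_mul continuous_id).matrix_trace)

lemma continuous_QQ : Continuous (QQ : Matrix (Fin n) (Fin 2) 𝕜 → ℝ) := by
  unfold QQ
  have h := continuous_id.matrix_conjTranspose.matrix_mul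
    (continuous_id (X := Matrix (Fin n) (Fin 2) 𝕜))
  exact RCLike.continuous_re.comp ((h.matrix_mul h).matrix_trace)

/-- All types occur on a segment. -/
lemma exists_type {S : Submodule ℝ (Matrix (Fin n) (Fin 2) 𝕜)}
    {Z₁ Z₂ : Matrix (Fin n) (Fin 2) 𝕜} (h1 : Z₁ ∈ S) (h10 : Z₁ ≠ 0) (h1q : QQ Z₁ = NN Z₁ ^ 2)
    (h2 : Z₂ ∈ S) (h20 : Z₂ ≠ 0) (h2q : 2 * QQ Z₂ = NN Z₂ ^ 2) {τ : ℝ} (hτ : 1 ≤ 2 * τ)
    (hτ' : τ ≤ 1) : ∃ Z ∈ S, Z ≠ 0 ∧ QQ Z = τ * NN Z ^ 2 := by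
  let w : ℝ → Matrix (Fin n) (Fin 2) 𝕜 := fun t => (1 - t) • Z₁ + t • Z₂
  have hw : Continuous w := by
    apply Continuous.add
    · exact (continuous_const.sub continuous_id).smul continuous_const
    · exact continuous_id.smul continuous_const
  have hf : Continuous fun t => QQ (w t) - τ * NN (w t) ^ 2 :=
    (continuous_QQ.comp hw).sub (continuous_const.mul ((continuous_NN.comp hw).pow 2))
  have hf0 : 0 ≤ QQ (w 0) - τ * NN (w 0) ^ 2 := by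
    simp only [w, sub_zero, one_smul, zero_smul, add_zero, h1q]
    nlinarith [sq_nonneg (NN Z₁)]
  have hf1 : QQ (w 1) - τ * NN (w 1) ^ 2 ≤ 0 := by
    simp only [w, sub_self, zero_smul, one_smul, zero_add]
    nlinarith [sq_nonneg (NN Z₂)]
  obtain ⟨t, -, ht⟩ := intermediate_value_Icc' (zero_le_one' ℝ) hf.continuousOn
    (⟨hf1, hf0⟩ : (0 : ℝ) ∈ Set.Icc _ _)
  refine ⟨w t, S.add_mem (S.smul_mem _ h1) (S.smul_mem _ h2), ?_, by linarith⟩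
  intro h0
  have h3 : (1 - t) • Z₁ = (-t) • Z₂ := by
    rw [neg_smul, eq_neg_iff_add_eq_zero]
    exact h0
  have hp1 := NN_pos h10
  have hp2 := NN_pos h20
  have e1 := congrArg NN h3
  have e2 := congrArg QQ h3
  rw [NN_smul, NN_smul] at e1
  rw [QQ_smul, QQ_smul] at e2
  have e3 : 2 * ((1 - t) ^ 2 * NN Z₁) ^ 2 = ((-t) ^ 2 * NN Z₂) ^ 2 := by
    have : 2 * ((1 - t) ^ 4 * NN Z₁ ^ 2) = (-t) ^ 4 * (2 * QQ Z₂) := by
      rw [← h1q, e2]; ring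
    rw [h2q] at this
    linear_combination this
  rw [e1] at e3
  have e4 : ((-t) ^ 2 * NN Z₂) ^ 2 = 0 := by linarith
  have e5 : t = 0 := by
    have := pow_eq_zero_iff (two_ne_zero) |>.mp e4
    rcases mul_eq_zero.mp this with h | h
    · simpa using h
    · exact absurd h hp2.ne'
  subst e5
  simp only [sub_zero, one_smul, neg_zero, zero_smul] at h3
  exact h10 h3

/-- The dimensions of the two subspaces. -/
theorem half_dim (hconf : Conf n 𝕜) {P W : Submodule ℝ (Matrix (Fin n) (Fin 2) 𝕜)}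
    (hdim : finrank ℝ P + finrank ℝ W = 2 * (n * finrank ℝ 𝕜)) {τ : ℝ} (hτ : 1 ≤ 2 * τ)
    (hτ' : τ ≤ 1) (hP : ∀ Z ∈ P, QQ Z = τ * NN Z ^ 2)
    (hW : ∀ Z ∈ W, QQ Z = τ * NN Z ^ 2 → Z = 0) :
    finrank ℝ P = n * finrank ℝ 𝕜 ∧ finrank ℝ W = n * finrank ℝ 𝕜 := by
  have hWle : finrank ℝ W ≤ n * finrank ℝ 𝕜 := by
    by_contra hcon
    push Not at hcon
    obtain ⟨Z₁, h1, h10, h1q⟩ := exists_rank_one W hcon
    obtain ⟨Z₂, h2, h20, h2q⟩ := hconf W hcon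
    obtain ⟨Z, hZ, hZ0, hZq⟩ := exists_type h1 h10 h1q h2 h20 h2q hτ hτ'
    exact hZ0 (hW Z hZ hZq)
  have hPle : finrank ℝ P ≤ n * finrank ℝ 𝕜 := by
    by_contra hcon
    push Not at hcon
    obtain ⟨Z₁, h1, h10, h1q⟩ := exists_rank_one P hcon
    obtain ⟨Z₂, h2, h20, h2q⟩ := hconf P hcon
    have e1 := hP Z₁ h1
    have e2 := hP Z₂ h2
    have p1 := NN_pos h10
    have p2 := NN_pos h20
    rw [h1q] at e1
    have e3 : τ = 1 := by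
      have : NN Z₁ ^ 2 * (τ - 1) = 0 := by linarith
      rcases mul_eq_zero.mp this with h | h
      · exact absurd h (by positivity)
      · linarith
    rw [e3] at e2
    have : NN Z₂ ^ 2 = 0 := by linarith
    exact absurd this (by positivity)
  omega

/-! ### Subspaces of `𝔭` -/

/-- The subspace of matrices over `𝕜` which corresponds to a subspace of `𝔭`. -/
def rhoL (R : RRep 𝕜 (Fin n ⊕ Fin 2) ι) : Matrix (Fin n) (Fin 2) 𝕜 →ₗ[ℝ] Matrix ι ι ℝ where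
  toFun Z := R.ρ (off Z)
  map_add' Z Z' := by rw [off_add, map_add]
  map_smul' c Z := by rw [off_smul, R.smul]; rfl

lemma rhoL_apply (R : RRep 𝕜 (Fin n ⊕ Fin 2) ι) (Z : Matrix (Fin n) (Fin 2) 𝕜) :
    rhoL R Z = R.ρ (off Z) := rfl

lemma rhoL_inj (R : RRep 𝕜 (Fin n ⊕ Fin 2) ι) : Function.Injective (rhoL R) :=
  fun _ _ h => off_inj (R.inj h)

variable (hG : ∀ X, X ∈ G.𝔭 ↔ ∃ Z : Matrix (Fin n) (Fin 2) 𝕜, X = R.ρ (off Z))

include hG in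
lemma finrank_pb {S : Submodule ℝ (Matrix ι ι ℝ)} (hS : S ≤ G.𝔭) :
    finrank ℝ (S.comap (rhoL R)) = finrank ℝ S := by
  have h1 : (S.comap (rhoL R)).map (rhoL R) = S := by
    apply Submodule.map_comap_eq_of_le
    intro X hX
    obtain ⟨Z, rfl⟩ := (hG X).mp (hS hX)
    exact ⟨Z, rfl⟩
  exact (Submodule.equivMapOfInjective _ (rhoL_inj R) (S.comap (rhoL R))).finrank_eq.trans
    (by rw [h1])

include hG in
lemma finrank_p : finrank ℝ G.𝔭 = 2 * (n * finrank ℝ 𝕜) := by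
  rw [← finrank_pb hG le_rfl, ← finrank_V (𝕜 := 𝕜) (n := n)]
  have : G.𝔭.comap (rhoL R) = ⊤ := by
    rw [eq_top_iff]
    intro Z _
    exact (hG _).mpr ⟨Z, rfl⟩
  rw [this, finrank_top]

end F31343
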