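import Mathlib

/-!
# Real linear maps `J` with `⟨x, J x⟩ = 0`
-/

open Matrix Module

namespace F31343

variable {𝕜 : Type*} [RCLike 𝕜] {n : ℕ}

lemma star_dot_self (x : Fin n → 𝕜) : Star.star x ⬝ᵥ x = ((∑ i, ‖x i‖ ^ 2 : ℝ) : 𝕜) := by
  simp only [dotProduct, Pi.star_apply, RCLike.star_def, RCLike.conj_mul]
  push_cast
  rfl

lemma star_dot_star (x y : Fin n → 𝕜) : Star.star (Star.star x ⬝ᵥ y) = Star.star y ⬝ᵥ x := by
  simp only [dotProduct, star_sum, star_mul', Pi.star_apply, star_star]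
  exact Finset.sum_congr rfl fun i _ => mul_comm _ _

lemma eq_zero_of_re_dot {v : Fin n → 𝕜} (h : RCLike.re (Star.star v ⬝ᵥ v) = 0) : v = 0 := by
  rw [star_dot_self, RCLike.ofReal_re, Finset.sum_eq_zero_iff_of_nonneg (fun i _ => by positivity)]
    at h
  funext i
  have := h i (Finset.mem_univ i)
  simpa using this

lemma sum_sq_pos {x : Fin n → 𝕜} (hx : x ≠ 0) : 0 < ∑ i, ‖x i‖ ^ 2 := by
  refine lt_of_le_of_ne (by positivity) fun h => hx (eq_zero_of_re_dot ?_)
  rw [star_dot_self, RCLike.ofReal_re, ← h]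

lemma smul_star_dot (c : 𝕜) (x y : Fin n → 𝕜) :
    Star.star (c • x) ⬝ᵥ y = Star.star c * (Star.star x ⬝ᵥ y) := by
  rw [Pi.star_def]
  simp only [dotProduct, Pi.smul_apply, smul_eq_mul, star_mul', Pi.star_apply, Finset.mul_sum]
  exact Finset.sum_congr rfl fun i _ => by ring

lemma star_dot_smul (c : 𝕜) (x y : Fin n → 𝕜) :
    Star.star x ⬝ᵥ (c • y) = c * (Star.star x ⬝ᵥ y) := by
  rw [dotProduct_smul, smul_eq_mul]

lemma star_dot_rsmul (c : ℝ) (x y : Fin n → 𝕜) :
    Star.star x ⬝ᵥ (c • y) = (c : 𝕜) * (Star.star x ⬝ᵥ y) := by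
  rw [dotProduct_smul, RCLike.real_smul_eq_coe_mul]

variable {J : (Fin n → 𝕜) →ₗ[ℝ] (Fin n → 𝕜)} (hJ : ∀ x, Star.star x ⬝ᵥ J x = 0)

include hJ in
lemma J_polar (x y : Fin n → 𝕜) : Star.star x ⬝ᵥ J y = -(Star.star y ⬝ᵥ J x) := by
  have h := hJ (x + y)
  rw [map_add, star_add, add_dotProduct, dotProduct_add, dotProduct_add, hJ, hJ] at h
  linear_combination h

include hJ in
lemma J_anti (c : 𝕜) (y : Fin n → 𝕜) : J (c • y) = Star.star c • J y := by
  rw [← sub_eq_zero]
  have key : ∀ x, Star.star x ⬝ᵥ (J (c • y) - Star.star c • J y) = 0 := by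
    intro x
    rw [dotProduct_sub, J_polar hJ x (c • y), smul_star_dot, star_dot_smul, J_polar hJ x y]
    ring
  exact eq_zero_of_re_dot (by rw [key]; simp)

include hJ in
lemma J_sq {θ : ℝ} (hθ : ∀ x, ∑ i, ‖J x i‖ ^ 2 = θ * ∑ i, ‖x i‖ ^ 2) (y : Fin n → 𝕜) :
    J (J y) = (-θ) • y := by
  have hre : ∀ x, RCLike.re (Star.star (J x) ⬝ᵥ J x) = θ * RCLike.re (Star.star x ⬝ᵥ x) := by
    intro x
    rw [star_dot_self, star_dot_self, RCLike.ofReal_re, RCLike.ofReal_re, hθ]
  have hpol : ∀ x y, RCLike.re (Star.star (J x) ⬝ᵥ J y) = θ * RCLike.re (Star.star x ⬝ᵥ y) := by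
    intro x y
    have h1 := hre (x + y)
    have h2 := hre x
    have h3 := hre y
    have h4 : RCLike.re (Star.star (J y) ⬝ᵥ J x) = RCLike.re (Star.star (J x) ⬝ᵥ J y) := by
      rw [← star_dot_star, RCLike.star_def, RCLike.conj_re]
    have h5 : RCLike.re (Star.star y ⬝ᵥ x) = RCLike.re (Star.star x ⬝ᵥ y) := by
      rw [← star_dot_star, RCLike.star_def, RCLike.conj_re]
    simp only [map_add, star_add, add_dotProduct, dotProduct_add] at h1
    rw [h4, h5] at h1
    linear_combination (1 / 2) * (h1 - h2 - h3)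
  rw [← sub_eq_zero]
  have key : ∀ x, RCLike.re (Star.star x ⬝ᵥ (J (J y) - (-θ) • y)) = 0 := by
    intro x
    rw [dotProduct_sub, map_sub, J_polar hJ x (J y), map_neg, hpol, star_dot_rsmul,
      RCLike.re_ofReal_mul]
    have h5 : RCLike.re (Star.star y ⬝ᵥ x) = RCLike.re (Star.star x ⬝ᵥ y) := by
      rw [← star_dot_star, RCLike.star_def, RCLike.conj_re]
    rw [h5]
    ring
  exact eq_zero_of_re_dot (key _)

/-- Vectors orthogonal to two given ones. -/
lemma exists_orth (hn : 3 ≤ n) (x y : Fin n → 𝕜) :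
    ∃ z : Fin n → 𝕜, z ≠ 0 ∧ Star.star x ⬝ᵥ z = 0 ∧ Star.star y ⬝ᵥ z = 0 := by
  let f : (Fin n → 𝕜) →ₗ[𝕜] (Fin 2 → 𝕜) := (Matrix.of ![Star.star x, Star.star y]).mulVecLin
  have h1 : LinearMap.ker f ≠ ⊥ := by
    apply LinearMap.ker_ne_bot_of_finrank_lt
    rw [Module.finrank_fin_fun, Module.finrank_fin_fun]
    omega
  obtain ⟨z, hz, hz0⟩ := Submodule.exists_mem_ne_zero_of_ne_bot h1
  have hz' : f z = 0 := hz
  exact ⟨z, hz0, congrFun hz' 0, congrFun hz' 1⟩

/-! ### Unitary diagonalisation -/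

/-- A traceless hermitian involution of size two is unitarily conjugate to `diag(1, -1)`. -/
lemma exists_unitary (a : ℝ) (b : 𝕜) (hab : a ^ 2 + ‖b‖ ^ 2 = 1) :
    ∃ L : Matrix (Fin 2) (Fin 2) 𝕜, Lᴴ * L = 1 ∧
      !![(a : 𝕜), b; Star.star b, -(a : 𝕜)] * L = L * !![1, 0; 0, -1] := by
  by_cases ha : a = -1
  · have hb : b = 0 := by
      rw [ha] at hab
      have : ‖b‖ ^ 2 = 0 := by linarith
      simpa using this
    refine ⟨!![0, 1; 1, 0], ?_, ?_⟩
    · ext i j
      fin_cases i <;> fin_cases j <;> simp [mul_apply, Fin.sum_univ_two]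
    · rw [ha, hb]
      ext i j
      fin_cases i <;> fin_cases j <;> simp [mul_apply, Fin.sum_univ_two]
  · have hpos : 0 < 2 * (1 + a) := by
      have h1 : a ^ 2 ≤ 1 := by nlinarith [sq_nonneg ‖b‖]
      have h2 : -1 ≤ a := by nlinarith
      have h3 : -1 < a := lt_of_le_of_ne h2 (Ne.symm ha)
      linarith
    obtain ⟨r, hr, hr2⟩ : ∃ r : ℝ, 0 < r ∧ r ^ 2 * (2 * (1 + a)) = 1 := by
      refine ⟨1 / √(2 * (1 + a)), by positivity, ?_⟩
      rw [div_pow, Real.sq_sqrt hpos.le, one_pow, one_div, inv_mul_cancel₀ hpos.ne']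
    have hr2' : (r : 𝕜) ^ 2 * (2 * (1 + (a : 𝕜))) = 1 := by
      have := congrArg (fun t : ℝ => (t : 𝕜)) hr2
      push_cast at this
      exact this
    have hbb : Star.star b * b = 1 - (a : 𝕜) ^ 2 := by
      rw [RCLike.star_def, RCLike.conj_mul]
      have : ‖b‖ ^ 2 = 1 - a ^ 2 := by linarith
      have := congrArg (fun t : ℝ => (t : 𝕜)) this
      push_cast at this
      exact this
    have hra : Star.star (r : 𝕜) = r := by rw [RCLike.star_def, RCLike.conj_ofReal]
    have haa : Star.star (a : 𝕜) = a := by rw [RCLike.star_def, RCLike.conj_ofReal]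
    refine ⟨!![(r : 𝕜) * (1 + a), -((r : 𝕜) * b); (r : 𝕜) * Star.star b, (r : 𝕜) * (1 + a)],
      ?_, ?_⟩
    · ext i j
      fin_cases i <;> fin_cases j <;>
        simp only [mul_apply, Fin.sum_univ_two, conjTranspose_apply, Fin.zero_eta, Fin.mk_one,
          Matrix.of_apply, Matrix.cons_val', Matrix.cons_val_zero, Matrix.cons_val_one,
          Matrix.cons_val_fin_one, star_mul', star_add, star_neg, star_one, hra, haa, star_star,
          Matrix.one_apply_eq, ne_eq, zero_ne_one, one_ne_zero, not_false_eq_true,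
          Matrix.one_apply_ne]
      · linear_combination hr2' + (r : 𝕜) ^ 2 * hbb
      · ring
      · ring
      · linear_combination hr2' + (r : 𝕜) ^ 2 * hbb
    · ext i j
      fin_cases i <;> fin_cases j <;>
        simp only [mul_apply, Fin.sum_univ_two, Fin.zero_eta, Fin.mk_one,
          Matrix.of_apply, Matrix.cons_val', Matrix.cons_val_zero, Matrix.cons_val_one,
          Matrix.cons_val_fin_one]
      · linear_combination (r : 𝕜) * hbb
      · ring
      · ring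
      · linear_combination (-(r : 𝕜)) * hbb

end F31343
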