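import Mathlib
import Pool.Agent.Lib_MP_f31343.Two4
import Pool.Agent.Lib_MP_f31343.Two5
import Pool.Agent.Lib_MP_f31343.QuadConst

/-!
# Subspaces of `𝕜^n ⊗ 𝕜^2` of constant type
-/

open Matrix NormedSpace Filter Topology Module
open scoped Matrix.Norms.Operator ContDiff

namespace F31343

variable {𝕜 : Type*} [RCLike 𝕜] {n : ℕ}

/-! ### The forms -/

/-- `(Z^* W + W^* Z) / 2`. -/
noncomputable def S2 : Matrix (Fin n) (Fin 2) 𝕜 →ₗ[ℝ] Matrix (Fin n) (Fin 2) 𝕜 →ₗ[ℝ]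
    Matrix (Fin 2) (Fin 2) 𝕜 :=
  LinearMap.mk₂ ℝ (fun Z W => (1 / 2 : ℝ) • (Zᴴ * W + Wᴴ * Z))
    (by
      intro Z Z' W
      rw [conjTranspose_add, Matrix.add_mul, Matrix.mul_add, ← smul_add]
      congr 1
      abel)
    (by
      intro c Z W
      rw [conjTranspose_smul, star_trivial, Matrix.smul_mul, Matrix.mul_smul, ← smul_add,
        smul_comm])
    (by
      intro Z W W'
      rw [conjTranspose_add, Matrix.add_mul, Matrix.mul_add, ← smul_add]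
      congr 1
      abel)
    (by
      intro c Z W
      rw [conjTranspose_smul, star_trivial, Matrix.smul_mul, Matrix.mul_smul, ← smul_add,
        smul_comm])

lemma S2_comm (Z W : Matrix (Fin n) (Fin 2) 𝕜) : S2 Z W = S2 W Z := by
  show (1 / 2 : ℝ) • (Zᴴ * W + Wᴴ * Z) = (1 / 2 : ℝ) • (Wᴴ * Z + Zᴴ * W)
  rw [add_comm]

lemma S2_self (Z : Matrix (Fin n) (Fin 2) 𝕜) : S2 Z Z = Zᴴ * Z := by
  show (1 / 2 : ℝ) • (Zᴴ * Z + Zᴴ * Z) = Zᴴ * Z
  rw [← two_smul ℝ, smul_smul]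
  norm_num

/-- The real part of the trace. -/
noncomputable def rtr : Matrix (Fin 2) (Fin 2) 𝕜 →ₗ[ℝ] ℝ where
  toFun M := RCLike.re M.trace
  map_add' M N := by rw [trace_add, map_add]
  map_smul' c M := by rw [trace_smul, RCLike.smul_re]; rfl

/-- The coordinates of the traceless part. -/
noncomputable def tcoord : Matrix (Fin 2) (Fin 2) 𝕜 →ₗ[ℝ] (ℝ × 𝕜) where
  toFun M := ((RCLike.re (M 0 0) - RCLike.re (M 1 1)) / 2, M 0 1)
  map_add' M N := by
    ext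
    · simp only [Matrix.add_apply, map_add, Prod.fst_add]
      ring
    · simp
  map_smul' c M := by
    ext
    · simp only [Matrix.smul_apply, RCLike.smul_re, Prod.smul_fst, RingHom.id_apply, smul_eq_mul]
      ring
    · simp

/-- The inner product of `ℝ × 𝕜`. -/
noncomputable def ipM : (ℝ × 𝕜) →ₗ[ℝ] (ℝ × 𝕜) →ₗ[ℝ] ℝ :=
  LinearMap.mk₂ ℝ (fun p q => p.1 * q.1 + RCLike.re (Star.star p.2 * q.2))
    (by
      intro p p' q
      simp only [Prod.fst_add, Prod.snd_add, star_add, add_mul, map_add]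
      ring)
    (by
      intro c p q
      simp only [Prod.smul_fst, Prod.smul_snd, star_smul, star_trivial, smul_mul_assoc,
        RCLike.smul_re, smul_eq_mul]
      ring)
    (by
      intro p q q'
      simp only [Prod.fst_add, Prod.snd_add, mul_add, map_add]
      ring)
    (by
      intro c p q
      simp only [Prod.smul_fst, Prod.smul_snd, mul_smul_comm, RCLike.smul_re, smul_eq_mul]
      ring)

lemma ipM_apply (p q : ℝ × 𝕜) : ipM p q = p.1 * q.1 + RCLike.re (Star.star p.2 * q.2) := rfl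

lemma ipM_self (p : ℝ × 𝕜) : ipM p p = p.1 ^ 2 + ‖p.2‖ ^ 2 := by
  rw [ipM_apply, RCLike.star_def, RCLike.conj_mul]
  have : RCLike.re ((‖p.2‖ : 𝕜) ^ 2) = ‖p.2‖ ^ 2 := by norm_cast
  rw [this]
  ring

lemma ipM_comm (p q : ℝ × 𝕜) : ipM p q = ipM q p := by
  rw [ipM_apply, ipM_apply, mul_comm p.1]
  congr 1
  rw [RCLike.star_def, ← RCLike.conj_re, map_mul, RCLike.conj_conj, mul_comm]

lemma ipM_zero (p : ℝ × 𝕜) (h : ipM p p = 0) : p = 0 := by
  rw [ipM_self] at h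
  have h1 : p.1 ^ 2 = 0 := by nlinarith [sq_nonneg p.1, sq_nonneg ‖p.2‖]
  have h2 : ‖p.2‖ ^ 2 = 0 := by nlinarith [sq_nonneg p.1, sq_nonneg ‖p.2‖]
  ext
  · simpa using h1
  · simpa using h2

lemma tcoord_norm (Z : Matrix (Fin n) (Fin 2) 𝕜) :
    4 * ipM (tcoord (S2 Z Z)) (tcoord (S2 Z Z)) = 2 * QQ Z - NN Z ^ 2 := by
  rw [ipM_self, S2_self, four_q]
  show 4 * (((RCLike.re ((Zᴴ * Z) 0 0) - RCLike.re ((Zᴴ * Z) 1 1)) / 2) ^ 2
    + ‖(Zᴴ * Z) 0 1‖ ^ 2) = _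
  ring

lemma rtr_S2 (Z : Matrix (Fin n) (Fin 2) 𝕜) : rtr (S2 Z Z) = NN Z := by
  rw [S2_self]; rfl

/-- `Z^* Z` in terms of its trace and its traceless part. -/
lemma gram_eq {Z : Matrix (Fin n) (Fin 2) 𝕜} {a : ℝ} {b : 𝕜}
    (h : tcoord (S2 Z Z) = NN Z • (a, b)) :
    Zᴴ * Z = NN Z • ((1 / 2 : ℝ) • (1 : Matrix (Fin 2) (Fin 2) 𝕜)
      + !![(a : 𝕜), b; Star.star b, -(a : 𝕜)]) := by
  rw [S2_self] at h
  have h1 : (RCLike.re ((Zᴴ * Z) 0 0) - RCLike.re ((Zᴴ * Z) 1 1)) / 2 = NN Z * a :=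
    congrArg Prod.fst h
  have h2 : (Zᴴ * Z) 0 1 = NN Z • b := congrArg Prod.snd h
  have h3 := NN_col Z
  have h00 : RCLike.re ((Zᴴ * Z) 0 0) = NN Z * (1 / 2 + a) := by linarith
  have h11 : RCLike.re ((Zᴴ * Z) 1 1) = NN Z * (1 / 2 - a) := by linarith
  ext i j
  fin_cases i <;> fin_cases j
  · show (Zᴴ * Z) 0 0 = _
    rw [← herm_im, h00]
    simp only [Matrix.smul_apply, Matrix.add_apply, Matrix.one_apply_eq, Matrix.of_apply,
      Matrix.cons_val', Matrix.cons_val_zero, Matrix.cons_val_fin_one, Fin.zero_eta,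
      RCLike.real_smul_eq_coe_mul]
    push_cast
    ring
  · show (Zᴴ * Z) 0 1 = _
    rw [h2]
    simp
  · show (Zᴴ * Z) 1 0 = _
    rw [herm_01, h2]
    simp
  · show (Zᴴ * Z) 1 1 = _
    rw [← herm_im, h11]
    simp only [Matrix.smul_apply, Matrix.add_apply, Matrix.one_apply_eq, Matrix.of_apply,
      Matrix.cons_val', Matrix.cons_val_one, Matrix.cons_val_fin_one, Fin.mk_one,
      RCLike.real_smul_eq_coe_mul]
    push_cast
    ring

/-- On a subspace of constant type and large dimension the Gram matrix of the columns is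
constant up to scaling and a change of basis. -/
theorem exists_frame (hn : 3 ≤ n) (P : Submodule ℝ (Matrix (Fin n) (Fin 2) 𝕜))
    (hdim : finrank ℝ P = n * finrank ℝ 𝕜) {τ : ℝ} (hτ : 1 ≤ 2 * τ)
    (hP : ∀ Z ∈ P, QQ Z = τ * NN Z ^ 2) :
    ∃ (c : ℝ) (L : Matrix (Fin 2) (Fin 2) 𝕜), 0 ≤ c ∧ 4 * c ^ 2 = 2 * τ - 1 ∧ Lᴴ * L = 1 ∧
      (c = 0 → L = 1) ∧ ∀ Z ∈ P, (Z * L)ᴴ * (Z * L)
        = NN Z • !![((1 / 2 + c : ℝ) : 𝕜), 0; 0, ((1 / 2 - c : ℝ) : 𝕜)] := by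
  have hd : 0 < finrank ℝ 𝕜 := Module.finrank_pos
  obtain ⟨c, hc, hcτ⟩ : ∃ c : ℝ, 0 ≤ c ∧ 4 * c ^ 2 = 2 * τ - 1 := by
    refine ⟨√(2 * τ - 1) / 2, by positivity, ?_⟩
    rw [div_pow, Real.sq_sqrt (by linarith)]
    ring
  have hq : ∀ Z ∈ P, ipM (tcoord (S2 Z Z)) (tcoord (S2 Z Z)) = c ^ 2 * NN Z ^ 2 := by
    intro Z hZ
    have h1 := tcoord_norm Z
    rw [hP Z hZ] at h1
    linear_combination (1 / 4) * h1 - (1 / 4) * NN Z ^ 2 * hcτ
  rcases hc.eq_or_lt with h0 | hpos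
  · refine ⟨c, 1, hc, hcτ, by simp, fun _ => rfl, fun Z hZ => ?_⟩
    have h1 := hq Z hZ
    rw [← h0] at h1
    have h2 : tcoord (S2 Z Z) = 0 := ipM_zero _ (by rw [h1]; ring)
    have h3 := gram_eq (Z := Z) (a := 0) (b := 0) (by rw [h2]; ext <;> simp)
    rw [Matrix.mul_one, h3, ← h0]
    congr 1
    ext i j
    fin_cases i <;> fin_cases j <;> simp [RCLike.real_smul_eq_coe_mul]
  · obtain ⟨α, hα, hαP⟩ := quad_const (P := P) (M := ℝ × 𝕜)
      ((S2.compr₂ tcoord).domRestrict₁₂ P P)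
      (by
        intro x y
        show tcoord (S2 x.1 y.1) = tcoord (S2 y.1 x.1)
        rw [S2_comm])
      ((S2.compr₂ rtr).domRestrict₁₂ P P)
      (by
        intro x y
        show rtr (S2 x.1 y.1) = rtr (S2 y.1 x.1)
        rw [S2_comm])
      (by
        intro x hx
        show 0 < rtr (S2 x.1 x.1)
        rw [rtr_S2]
        exact NN_pos fun h => hx (Subtype.ext h))
      ipM ipM_comm ipM_zero hpos
      (by
        intro x
        show ipM (tcoord (S2 x.1 x.1)) (tcoord (S2 x.1 x.1)) = c ^ 2 * (rtr (S2 x.1 x.1)) ^ 2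
        rw [rtr_S2, hq x.1 x.2])
      (by
        rw [hdim, Module.finrank_prod, Module.finrank_self]
        nlinarith)
      (by
        have : 0 < finrank ℝ P := by rw [hdim]; positivity
        have := Module.finrank_pos_iff_exists_ne_zero.mp this
        exact this)
    rw [ipM_self] at hα
    obtain ⟨L, hL, hL2⟩ := exists_unitary α.1 α.2 hα
    refine ⟨c, L, hc, hcτ, hL, fun h => absurd h hpos.ne', fun Z hZ => ?_⟩
    have h1 : tcoord (S2 Z Z) = (c * rtr (S2 Z Z)) • α := hαP ⟨Z, hZ⟩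
    rw [rtr_S2] at h1
    have h2 := gram_eq (Z := Z) (a := c * α.1) (b := c • α.2) (by
      rw [h1]
      ext
      · simp only [Prod.smul_fst, smul_eq_mul]; ring
      · simp only [Prod.smul_snd, smul_smul]; rw [mul_comm])
    have h3 : !![((c * α.1 : ℝ) : 𝕜), c • α.2; Star.star (c • α.2), -((c * α.1 : ℝ) : 𝕜)]
        = c • !![(α.1 : 𝕜), α.2; Star.star α.2, -(α.1 : 𝕜)] := by
      ext i j
      fin_cases i <;> fin_cases j <;> simp [RCLike.real_smul_eq_coe_mul]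
    rw [conjTranspose_mul, Matrix.mul_assoc, ← Matrix.mul_assoc Zᴴ, h2, h3]
    rw [Matrix.smul_mul, Matrix.add_mul, Matrix.smul_mul, Matrix.smul_mul, hL2, Matrix.one_mul,
      Matrix.mul_smul, Matrix.mul_add, Matrix.mul_smul, Matrix.mul_smul, ← Matrix.mul_assoc, hL,
      Matrix.one_mul]
    congr 1
    ext i j
    fin_cases i <;> fin_cases j <;> simp [RCLike.real_smul_eq_coe_mul, sub_eq_add_neg]

end F31343
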