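import Mathlib
import Pool.Agent.Lib_MP_f31343.Two6

/-!
# Lie triple systems of constant type
-/

open Matrix NormedSpace Filter Topology Module
open scoped Matrix.Norms.Operator ContDiff

namespace F31343

variable {𝕜 : Type*} [RCLike 𝕜] {n : ℕ}

lemma gram_apply (Y Y' : Matrix (Fin n) (Fin 2) 𝕜) (i j : Fin 2) :
    (Yᴴ * Y') i j = Star.star (col i Y) ⬝ᵥ col j Y' := rfl

lemma ext_col {Y Y' : Matrix (Fin n) (Fin 2) 𝕜} (h0 : col 0 Y = col 0 Y') (h1 : col 1 Y = col 1 Y') :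
    Y = Y' := by
  rw [eq_mk2 Y, eq_mk2 Y', h0, h1]

lemma gram_adj (A B : Matrix (Fin n) (Fin 2) 𝕜) : Bᴴ * A = (Aᴴ * B)ᴴ := by
  rw [conjTranspose_mul, conjTranspose_conjTranspose]

lemma triple_mul (A B C : Matrix (Fin n) (Fin 2) 𝕜) {L : Matrix (Fin 2) (Fin 2) 𝕜}
    (hL' : L * Lᴴ = 1) :
    ((A * Bᴴ - B * Aᴴ) * C - C * (Aᴴ * B - Bᴴ * A)) * L
      = (A * L) * ((B * L)ᴴ * (C * L)) - (B * L) * ((A * L)ᴴ * (C * L))
        - (C * L) * ((A * L)ᴴ * (B * L) - (B * L)ᴴ * (A * L)) := by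
  have h : ∀ X : Matrix (Fin 2) (Fin 2) 𝕜, L * (Lᴴ * X) = X := by
    intro X
    rw [← Matrix.mul_assoc, hL', Matrix.one_mul]
  simp only [conjTranspose_mul, Matrix.sub_mul, Matrix.mul_sub, Matrix.mul_assoc, h]

lemma col0_mul (Y : Matrix (Fin n) (Fin 2) 𝕜) (a b : 𝕜) :
    col 0 (Y * !![0, a; b, 0]) = b • col 1 Y := by
  ext i
  show (Y * !![0, a; b, 0]) i 0 = b * Y i 1
  rw [mul_apply, Fin.sum_univ_two]
  simp [mul_comm]

lemma col1_mul (Y : Matrix (Fin n) (Fin 2) 𝕜) (a b : 𝕜) :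
    col 1 (Y * !![0, a; b, 0]) = a • col 0 Y := by
  ext i
  show (Y * !![0, a; b, 0]) i 1 = a * Y i 0
  rw [mul_apply, Fin.sum_univ_two]
  simp [mul_comm]

lemma mat_id (θ r : ℝ) :
    -(!![0, ((-θ * r : ℝ) : 𝕜); ((θ * r : ℝ) : 𝕜), 0] - !![0, ((θ * r : ℝ) : 𝕜);
      ((-θ * r : ℝ) : 𝕜), 0])
      = !![0, ((2 * (θ * r) : ℝ) : 𝕜); ((-(2 * (θ * r)) : ℝ) : 𝕜), 0] := by
  ext i j
  fin_cases i <;> fin_cases j <;>
    simp only [Matrix.neg_apply, Matrix.sub_apply, Matrix.of_apply, Matrix.cons_val',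
      Matrix.cons_val_zero, Matrix.cons_val_one, Matrix.cons_val_fin_one, Fin.zero_eta, Fin.mk_one]
  · simp
  · push_cast; ring
  · push_cast; ring
  · simp

/-- **Lie triple systems of constant type and half dimension.** -/
theorem shape (hn : 3 ≤ n) (P : Submodule ℝ (Matrix (Fin n) (Fin 2) 𝕜))
    (hdim : finrank ℝ P = n * finrank ℝ 𝕜) {τ : ℝ} (hτ : 1 ≤ 2 * τ) (hτ' : τ ≤ 1)
    (hP : ∀ Z ∈ P, QQ Z = τ * NN Z ^ 2)
    (hT : ∀ Z₁ ∈ P, ∀ Z₂ ∈ P, ∀ Z₃ ∈ P,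
      (Z₁ * Z₂ᴴ - Z₂ * Z₁ᴴ) * Z₃ - Z₃ * (Z₁ᴴ * Z₂ - Z₂ᴴ * Z₁) ∈ P) :
    (IsLine (P : Set (Matrix (Fin n) (Fin 2) 𝕜)) ∧ τ = 1)
      ∨ IsQuat (P : Set (Matrix (Fin n) (Fin 2) 𝕜)) := by
  obtain ⟨c, L, hc, hcτ, hL, hL1, hframe⟩ := exists_frame hn P hdim hτ hP
  have hL' : L * Lᴴ = 1 := mul_eq_one_comm.mp hL
  have hchalf : c ≤ 1 / 2 := by nlinarith
  -- the Gram matrix
  have g00 : ∀ Z ∈ P, Star.star (col 0 (Z * L)) ⬝ᵥ col 0 (Z * L)
      = ((NN Z * (1 / 2 + c) : ℝ) : 𝕜) := by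
    intro Z hZ
    have h1 := congrFun (congrFun (hframe Z hZ) 0) 0
    rw [gram_apply] at h1
    rw [h1]
    simp only [Matrix.smul_apply, Matrix.of_apply, Matrix.cons_val', Matrix.cons_val_zero,
      Matrix.cons_val_fin_one, RCLike.real_smul_eq_coe_mul]
    push_cast
    ring
  have g11 : ∀ Z ∈ P, Star.star (col 1 (Z * L)) ⬝ᵥ col 1 (Z * L)
      = ((NN Z * (1 / 2 - c) : ℝ) : 𝕜) := by
    intro Z hZ
    have h1 := congrFun (congrFun (hframe Z hZ) 1) 1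
    rw [gram_apply] at h1
    rw [h1]
    simp only [Matrix.smul_apply, Matrix.of_apply, Matrix.cons_val', Matrix.cons_val_one,
      Matrix.cons_val_fin_one, RCLike.real_smul_eq_coe_mul]
    push_cast
    ring
  have g01 : ∀ Z ∈ P, Star.star (col 0 (Z * L)) ⬝ᵥ col 1 (Z * L) = 0 := by
    intro Z hZ
    have h1 := congrFun (congrFun (hframe Z hZ) 0) 1
    rw [gram_apply] at h1
    rw [h1]
    simp
  -- the map `J`
  let mulL : Matrix (Fin n) (Fin 2) 𝕜 →ₗ[ℝ] Matrix (Fin n) (Fin 2) 𝕜 :=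
    { toFun := fun Z => Z * L
      map_add' := fun Z Z' => Matrix.add_mul _ _ _
      map_smul' := fun r Z => Matrix.smul_mul _ _ _ }
  let φ : P →ₗ[ℝ] (Fin n → 𝕜) := col 0 ∘ₗ mulL ∘ₗ P.subtype
  let ψ : P →ₗ[ℝ] (Fin n → 𝕜) := col 1 ∘ₗ mulL ∘ₗ P.subtype
  have hφ : ∀ Z : P, φ Z = col 0 (Z.1 * L) := fun _ => rfl
  have hψ : ∀ Z : P, ψ Z = col 1 (Z.1 * L) := fun _ => rfl
  have hinj : Function.Injective φ := by
    rw [injective_iff_map_eq_zero]
    intro Z hZ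
    by_contra hne
    have h1 := g00 Z.1 Z.2
    rw [← hφ, hZ] at h1
    have h2 : NN Z.1 * (1 / 2 + c) = 0 := by
      have h3 : ((NN Z.1 * (1 / 2 + c) : ℝ) : 𝕜) = 0 := by
        rw [← h1]
        simp
      exact_mod_cast h3
    have h3 := NN_pos (Z := Z.1) fun h => hne (Subtype.ext h)
    have : 0 < NN Z.1 * (1 / 2 + c) := by positivity
    linarith
  let e : P ≃ₗ[ℝ] (Fin n → 𝕜) := LinearEquiv.ofInjectiveOfFinrankEq φ hinj (by
    rw [hdim, finrank_col])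
  have he : ∀ Z : P, e Z = col 0 (Z.1 * L) := fun _ => rfl
  let J : (Fin n → 𝕜) →ₗ[ℝ] (Fin n → 𝕜) := ψ ∘ₗ e.symm.toLinearMap
  have hJZ : ∀ Z : P, J (col 0 (Z.1 * L)) = col 1 (Z.1 * L) := by
    intro Z
    show ψ (e.symm (col 0 (Z.1 * L))) = _
    rw [← he, e.symm_apply_apply, hψ]
  have hsym : ∀ x, (e.symm x).1 * L = mk2 x (J x) := by
    intro x
    refine ext_col ?_ rfl
    show col 0 ((e.symm x).1 * L) = x
    rw [← he, e.apply_symm_apply]
  have hc0 : ∀ x, col 0 ((e.symm x).1 * L) = x := fun x => by rw [hsym]; rfl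
  have hc1 : ∀ x, col 1 ((e.symm x).1 * L) = J x := fun x => by rw [hsym]; rfl
  have hJ0 : ∀ x, Star.star x ⬝ᵥ J x = 0 := by
    intro x
    have := g01 (e.symm x).1 (e.symm x).2
    rwa [hc0, hc1] at this
  obtain ⟨θ, hθ⟩ : ∃ θ : ℝ, (1 / 2 + c) * θ = 1 / 2 - c :=
    ⟨(1 / 2 - c) / (1 / 2 + c), by field_simp⟩
  have hJn : ∀ x, ∑ i, ‖J x i‖ ^ 2 = θ * ∑ i, ‖x i‖ ^ 2 := by
    intro x
    have h1 := g00 (e.symm x).1 (e.symm x).2
    have h2 := g11 (e.symm x).1 (e.symm x).2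
    rw [hc0, star_dot_self] at h1
    rw [hc1, star_dot_self] at h2
    have h3 : ∑ i, ‖x i‖ ^ 2 = NN (e.symm x).1 * (1 / 2 + c) := by exact_mod_cast h1
    have h4 : ∑ i, ‖J x i‖ ^ 2 = NN (e.symm x).1 * (1 / 2 - c) := by exact_mod_cast h2
    rw [h3, h4, ← hθ]
    ring
  have hJJ := J_sq hJ0 hJn
  have hJa := J_anti hJ0
  -- the triple product
  have hθ01 : θ = 0 ∨ θ = 1 := by
    have hx : ∃ x : Fin n → 𝕜, x ≠ 0 := by
      refine ⟨fun _ => 1, fun h => ?_⟩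
      have := congrFun h ⟨0, by omega⟩
      exact one_ne_zero this
    obtain ⟨x, hx⟩ := hx
    obtain ⟨z, hz, hxz, hJxz⟩ := exists_orth hn x (J x)
    set r : ℝ := ∑ i, ‖x i‖ ^ 2 with hr
    have hr0 : 0 < r := sum_sq_pos hx
    have hxx : Star.star x ⬝ᵥ x = (r : 𝕜) := star_dot_self x
    have hJxJx : Star.star (J x) ⬝ᵥ J x = ((θ * r : ℝ) : 𝕜) := by
      rw [star_dot_self, hJn]
    set Y₁ := (e.symm x).1 * L with hY₁
    set Y₂ := (e.symm (J x)).1 * L with hY₂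
    set Y₃ := (e.symm z).1 * L with hY₃
    have a10 : col 0 Y₁ = x := hc0 x
    have a11 : col 1 Y₁ = J x := hc1 x
    have a20 : col 0 Y₂ = J x := hc0 _
    have a21 : col 1 Y₂ = (-θ) • x := by rw [hY₂, hc1, hJJ]
    have a30 : col 0 Y₃ = z := hc0 z
    have a31 : col 1 Y₃ = J z := hc1 z
    have hxJz : Star.star x ⬝ᵥ J z = 0 := by
      rw [J_polar hJ0 x z, ← star_dot_star, hJxz, star_zero, neg_zero]
    have hJxJz : Star.star (J x) ⬝ᵥ J z = 0 := by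
      rw [J_polar hJ0 (J x) z, hJJ, star_dot_rsmul, ← star_dot_star, hxz, star_zero, mul_zero,
        neg_zero]
    have e13 : Y₁ᴴ * Y₃ = 0 := by
      ext i j
      rw [gram_apply]
      fin_cases i <;> fin_cases j
      · show Star.star (col 0 Y₁) ⬝ᵥ col 0 Y₃ = 0
        rw [a10, a30, hxz]
      · show Star.star (col 0 Y₁) ⬝ᵥ col 1 Y₃ = 0
        rw [a10, a31, hxJz]
      · show Star.star (col 1 Y₁) ⬝ᵥ col 0 Y₃ = 0
        rw [a11, a30, hJxz]
      · show Star.star (col 1 Y₁) ⬝ᵥ col 1 Y₃ = 0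
        rw [a11, a31, hJxJz]
    have smul_dot : ∀ v : Fin n → 𝕜, Star.star ((-θ) • x) ⬝ᵥ v = ((-θ : ℝ) : 𝕜) * (Star.star x ⬝ᵥ v) := by
      intro v
      rw [star_smul, star_trivial, smul_dotProduct, RCLike.real_smul_eq_coe_mul]
    have e23 : Y₂ᴴ * Y₃ = 0 := by
      ext i j
      rw [gram_apply]
      fin_cases i <;> fin_cases j
      · show Star.star (col 0 Y₂) ⬝ᵥ col 0 Y₃ = 0
        rw [a20, a30, hJxz]
      · show Star.star (col 0 Y₂) ⬝ᵥ col 1 Y₃ = 0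
        rw [a20, a31, hJxJz]
      · show Star.star (col 1 Y₂) ⬝ᵥ col 0 Y₃ = 0
        rw [a21, a30, smul_dot, hxz, mul_zero]
      · show Star.star (col 1 Y₂) ⬝ᵥ col 1 Y₃ = 0
        rw [a21, a31, smul_dot, hxJz, mul_zero]
    have hJxx : Star.star (J x) ⬝ᵥ x = 0 := by
      rw [← star_dot_star, hJ0, star_zero]
    have e12 : Y₁ᴴ * Y₂ = !![0, ((-θ * r : ℝ) : 𝕜); ((θ * r : ℝ) : 𝕜), 0] := by
      ext i j
      rw [gram_apply]
      fin_cases i <;> fin_cases j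
      · show Star.star (col 0 Y₁) ⬝ᵥ col 0 Y₂ = 0
        rw [a10, a20, hJ0]
      · show Star.star (col 0 Y₁) ⬝ᵥ col 1 Y₂ = ((-θ * r : ℝ) : 𝕜)
        rw [a10, a21, star_dot_rsmul, hxx]
        push_cast
        ring
      · show Star.star (col 1 Y₁) ⬝ᵥ col 0 Y₂ = ((θ * r : ℝ) : 𝕜)
        rw [a11, a20, hJxJx]
      · show Star.star (col 1 Y₁) ⬝ᵥ col 1 Y₂ = 0
        rw [a11, a21, star_dot_rsmul, hJxx, mul_zero]
    have e21 : Y₂ᴴ * Y₁ = !![0, ((θ * r : ℝ) : 𝕜); ((-θ * r : ℝ) : 𝕜), 0] := by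
      rw [gram_adj Y₁ Y₂, e12]
      ext i j
      fin_cases i <;> fin_cases j <;> simp
    have hTm := hT _ (e.symm x).2 _ (e.symm (J x)).2 _ (e.symm z).2
    set T := ((e.symm x).1 * (e.symm (J x)).1ᴴ - (e.symm (J x)).1 * (e.symm x).1ᴴ) * (e.symm z).1
      - (e.symm z).1 * ((e.symm x).1ᴴ * (e.symm (J x)).1 - (e.symm (J x)).1ᴴ * (e.symm x).1)
      with hTdef
    have hTL : T * L = Y₃ * !![0, ((2 * (θ * r) : ℝ) : 𝕜); ((-(2 * (θ * r)) : ℝ) : 𝕜), 0] := by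
      rw [hTdef, triple_mul _ _ _ hL']
      show Y₁ * (Y₂ᴴ * Y₃) - Y₂ * (Y₁ᴴ * Y₃) - Y₃ * (Y₁ᴴ * Y₂ - Y₂ᴴ * Y₁) = _
      rw [e13, e23, Matrix.mul_zero, Matrix.mul_zero, sub_zero, zero_sub, e12, e21,
        ← Matrix.mul_neg, mat_id]
    have hT0 : col 0 (T * L) = (-(2 * (θ * r))) • J z := by
      rw [hTL, col0_mul, a31]
      ext i
      rw [Pi.smul_apply, Pi.smul_apply, smul_eq_mul, RCLike.real_smul_eq_coe_mul]
    have hT1 : col 1 (T * L) = (2 * (θ * r)) • z := by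
      rw [hTL, col1_mul, a30]
      ext i
      rw [Pi.smul_apply, Pi.smul_apply, smul_eq_mul, RCLike.real_smul_eq_coe_mul]
    have hfin := hJZ ⟨T, hTm⟩
    rw [hT0, hT1, map_smul, hJJ, smul_smul] at hfin
    have h5 : (-(2 * (θ * r)) * -θ - 2 * (θ * r)) • z = 0 := by
      rw [sub_smul, hfin, sub_self]
    rcases smul_eq_zero.mp h5 with h6 | h6
    · have h7 : θ * (θ - 1) * (2 * r) = 0 := by linear_combination h6
      have h8 : θ * (θ - 1) = 0 := by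
        rcases mul_eq_zero.mp h7 with h | h
        · exact h
        · exfalso; linarith
      rcases mul_eq_zero.mp h8 with h | h
      · exact Or.inl h
      · exact Or.inr (by linarith)
    · exact absurd h6 hz
  have hback : ∀ A B : Matrix (Fin n) (Fin 2) 𝕜, A * L = B → A = B * Lᴴ := by
    intro A B h
    rw [← h, Matrix.mul_assoc, hL', Matrix.mul_one]
  rcases hθ01 with h0 | h1
  · -- the case `J = 0`
    left
    have hchalf' : c = 1 / 2 := by rw [h0, mul_zero] at hθ; linarith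
    have hJz : ∀ x, J x = 0 := by
      intro x
      apply eq_zero_of_re_dot
      rw [star_dot_self, RCLike.ofReal_re, hJn, h0, zero_mul]
    refine ⟨⟨fun j => Star.star (L j 0), ?_, ?_⟩, ?_⟩
    · have := congrFun (congrFun hL 0) 0
      rw [mul_apply, Fin.sum_univ_two, conjTranspose_apply, conjTranspose_apply,
        Matrix.one_apply_eq] at this
      rw [dotProduct, Fin.sum_univ_two]
      simp only [Pi.star_apply, star_star]
      rw [mul_comm, add_comm, mul_comm, add_comm]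
      linear_combination this
    · ext Z
      constructor
      · intro hZ
        refine ⟨col 0 (Z * L), ?_⟩
        have h2 := hJZ ⟨Z, hZ⟩
        rw [hJz] at h2
        have h3 := hback Z (Z * L) rfl
        rw [h3]
        ext i j
        rw [mul_apply, Fin.sum_univ_two, vecMulVec_apply, conjTranspose_apply, conjTranspose_apply]
        have h4 : (Z * L) i 1 = 0 := (congrFun h2 i).symm
        rw [h4, zero_mul, add_zero, ← h3]
        rfl
      · rintro ⟨x, rfl⟩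
        have h2 := hback _ _ (hsym x)
        have h3 : vecMulVec x (fun j => Star.star (L j 0)) = (e.symm x).1 := by
          rw [h2, hJz]
          ext i j
          rw [mul_apply, Fin.sum_univ_two, vecMulVec_apply, conjTranspose_apply,
            conjTranspose_apply, mk2_zero, mk2_one]
          simp
        rw [h3]
        exact (e.symm x).2
    · rw [hchalf'] at hcτ
      linarith
  · right
    have hc00 : c = 0 := by rw [h1] at hθ; linarith
    have hLone := hL1 hc00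
    refine ⟨J, hJa, fun x => ?_, fun x => ?_, ?_⟩
    · rw [hJJ, h1, neg_one_smul]
    · rw [star_dot_self, star_dot_self, hJn, h1, one_mul]
    · ext Z
      constructor
      · intro hZ
        refine ⟨col 0 Z, ?_⟩
        have h2 := hJZ ⟨Z, hZ⟩
        rw [hLone, Matrix.mul_one] at h2
        rw [h2]
        exact eq_mk2 Z
      · rintro ⟨x, rfl⟩
        have h2 := hsym x
        rw [hLone, Matrix.mul_one] at h2
        rw [← h2]
        exact (e.symm x).2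

end F31343
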