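import Mathlib
import Pool.Agent.Lib_MP_f31343.Two7

/-!
# Conformal elements of large subspaces
-/

open Matrix NormedSpace Filter Topology Module
open scoped Matrix.Norms.Operator ContDiff

namespace F31343

/-! ### Even `n` -/

section

variable {𝕜 : Type*} [RCLike 𝕜]

/-- The map `(x, y) ↦ (-y*, x*)` of `𝕜^(m+m)`. -/
def japp {m : ℕ} (x : Fin (m + m) → 𝕜) : Fin (m + m) → 𝕜 :=
  Fin.append (fun i => -Star.star (x (Fin.natAdd m i))) (fun i => Star.star (x (Fin.castAdd m i)))

lemma japp_left {m : ℕ} (x : Fin (m + m) → 𝕜) (i : Fin m) :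
    japp x (Fin.castAdd m i) = -Star.star (x (Fin.natAdd m i)) := Fin.append_left _ _ _

lemma japp_right {m : ℕ} (x : Fin (m + m) → 𝕜) (i : Fin m) :
    japp x (Fin.natAdd m i) = Star.star (x (Fin.castAdd m i)) := Fin.append_right _ _ _

/-- An antilinear isometry with square `-1` of `𝕜^(m+m)`. -/
def J0 (m : ℕ) (𝕜 : Type*) [RCLike 𝕜] : (Fin (m + m) → 𝕜) →ₗ[ℝ] (Fin (m + m) → 𝕜) where
  toFun x := japp x
  map_add' x y := by
    ext i
    rw [Pi.add_apply]
    refine Fin.addCases (fun i => ?_) (fun i => ?_) i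
    · rw [japp_left, japp_left, japp_left, Pi.add_apply, star_add, neg_add]
    · rw [japp_right, japp_right, japp_right, Pi.add_apply, star_add]
  map_smul' c x := by
    ext i
    rw [Pi.smul_apply]
    refine Fin.addCases (fun i => ?_) (fun i => ?_) i
    · rw [japp_left, japp_left, Pi.smul_apply, star_smul, star_trivial, RingHom.id_apply, smul_neg]
    · rw [japp_right, japp_right, Pi.smul_apply, star_smul, star_trivial, RingHom.id_apply]

lemma J0_left {m : ℕ} (x : Fin (m + m) → 𝕜) (i : Fin m) :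
    J0 m 𝕜 x (Fin.castAdd m i) = -Star.star (x (Fin.natAdd m i)) := japp_left x i

lemma J0_right {m : ℕ} (x : Fin (m + m) → 𝕜) (i : Fin m) :
    J0 m 𝕜 x (Fin.natAdd m i) = Star.star (x (Fin.castAdd m i)) := japp_right x i

theorem conf_even {n : ℕ} (hn : Even n) : Conf n 𝕜 := by
  obtain ⟨m, rfl⟩ := hn
  intro S hS
  have h1 : LinearMap.ker ((col 1 - J0 m 𝕜 ∘ₗ col 0) ∘ₗ S.subtype :
      S →ₗ[ℝ] (Fin (m + m) → 𝕜)) ≠ ⊥ := by
    apply LinearMap.ker_ne_bot_of_finrank_lt
    rwa [finrank_col]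
  obtain ⟨Z, hZ, hZ0⟩ := Submodule.exists_mem_ne_zero_of_ne_bot h1
  refine ⟨Z.1, Z.2, fun h => hZ0 (Subtype.ext h), ?_⟩
  have h2 : col 1 Z.1 = J0 m 𝕜 (col 0 Z.1) := by
    have : col 1 Z.1 - J0 m 𝕜 (col 0 Z.1) = 0 := hZ
    exact sub_eq_zero.mp this
  have h3 := four_q Z.1
  have h01 : (Z.1ᴴ * Z.1) 0 1 = 0 := by
    rw [gram_apply, h2, dotProduct, Fin.sum_univ_add]
    simp only [J0_left, J0_right, Pi.star_apply]
    rw [← Finset.sum_add_distrib]
    refine Finset.sum_eq_zero fun i _ => ?_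
    ring
  have h00 : RCLike.re ((Z.1ᴴ * Z.1) 0 0) = RCLike.re ((Z.1ᴴ * Z.1) 1 1) := by
    rw [gram_apply, gram_apply, h2, star_dot_self, star_dot_self, RCLike.ofReal_re,
      RCLike.ofReal_re, Fin.sum_univ_add, Fin.sum_univ_add]
    simp only [J0_left, J0_right, norm_neg, norm_star]
    rw [add_comm]
  rw [h01, h00] at h3
  simp at h3
  linarith

end

/-! ### The real case -/

section

variable {n : ℕ}

/-- The complex vector `x + i y`. -/
def zet (Z : Matrix (Fin n) (Fin 2) ℝ) (j : Fin n) : ℂ := ⟨Z j 0, Z j 1⟩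

/-- Multiplication by `i`. -/
noncomputable def IV : Matrix (Fin n) (Fin 2) ℝ →ₗ[ℝ] Matrix (Fin n) (Fin 2) ℝ where
  toFun Z := mk2 (-col 1 Z) (col 0 Z)
  map_add' Z W := by
    ext i j
    fin_cases j
    · show -(Z i 1 + W i 1) = -Z i 1 + -W i 1
      ring
    · rfl
  map_smul' c Z := by
    ext i j
    fin_cases j
    · show -(c * Z i 1) = c * -Z i 1
      ring
    · rfl

lemma IV_IV (Z : Matrix (Fin n) (Fin 2) ℝ) : IV (IV Z) = -Z := by
  ext i j
  fin_cases j <;> rfl

lemma IV_inj : Function.Injective (IV : Matrix (Fin n) (Fin 2) ℝ →ₗ[ℝ] _) := by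
  intro Z W h
  have h1 := IV_IV Z
  rw [h, IV_IV] at h1
  exact (neg_injective h1).symm

lemma zet_comb (a b : ℝ) (u v : Matrix (Fin n) (Fin 2) ℝ) (j : Fin n) :
    zet (a • u + b • IV u + v) j = (⟨a, b⟩ : ℂ) * zet u j + zet v j := by
  apply Complex.ext
  · simp only [Complex.add_re, Complex.mul_re, zet]
    show a * u j 0 + b * -u j 1 + v j 0 = _
    ring
  · simp only [Complex.add_im, Complex.mul_im, zet]
    show a * u j 1 + b * u j 0 + v j 1 = _
    ring

lemma conf_of_zet {Z : Matrix (Fin n) (Fin 2) ℝ} (h : ∑ j, zet Z j ^ 2 = 0) :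
    2 * QQ Z = NN Z ^ 2 := by
  have h1 := congrArg Complex.re h
  have h2 := congrArg Complex.im h
  rw [Complex.re_sum] at h1
  rw [Complex.im_sum] at h2
  have h3 := four_q Z
  have e0 : RCLike.re ((Zᴴ * Z) 0 0) - RCLike.re ((Zᴴ * Z) 1 1) = 0 := by
    rw [← map_sub, gram_apply, gram_apply]
    simp only [dotProduct, Pi.star_apply, star_trivial, ← Finset.sum_sub_distrib]
    show ∑ j, (Z j 0 * Z j 0 - Z j 1 * Z j 1) = 0
    rw [show (0 : ℝ) = (0 : ℂ).re from rfl, ← h1]
    refine Finset.sum_congr rfl fun j _ => ?_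
    rw [sq, Complex.mul_re]
    rfl
  have e1 : (Zᴴ * Z) 0 1 = 0 := by
    rw [gram_apply]
    simp only [dotProduct, Pi.star_apply, star_trivial]
    show ∑ j, Z j 0 * Z j 1 = 0
    have h4 : ∑ j, (2 : ℝ) * (Z j 0 * Z j 1) = 0 := by
      rw [show (0 : ℝ) = (0 : ℂ).im from rfl, ← h2]
      refine Finset.sum_congr rfl fun j _ => ?_
      rw [sq, Complex.mul_im]
      show _ = Z j 0 * Z j 1 + Z j 1 * Z j 0
      ring
    rw [← Finset.mul_sum] at h4
    linarith
  rw [e0, e1] at h3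
  simp at h3
  linarith

theorem conf_real (hn : 2 ≤ n) : Conf n ℝ := by
  intro S hS
  rw [Module.finrank_self, mul_one] at hS
  -- a complex line in `S`
  obtain ⟨u, hu, hu0, hIu⟩ : ∃ u ∈ S, u ≠ 0 ∧ IV u ∈ S := by
    have h1 := Submodule.finrank_sup_add_finrank_inf_eq S (S.map IV)
    have h2 : finrank ℝ (S.map IV) = finrank ℝ S :=
      (Submodule.equivMapOfInjective _ IV_inj S).finrank_eq.symm
    have h3 := Submodule.finrank_le (S ⊔ S.map IV)
    rw [finrank_V (𝕜 := ℝ), Module.finrank_self, mul_one] at h3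
    have h4 : S ⊓ S.map IV ≠ ⊥ := by
      intro h0
      rw [h0, finrank_bot] at h1
      omega
    obtain ⟨u, ⟨hu1, ⟨s, hs, hsu⟩⟩, hu0⟩ := Submodule.exists_mem_ne_zero_of_ne_bot h4
    refine ⟨u, hu1, hu0, ?_⟩
    rw [← hsu, IV_IV]
    exact S.neg_mem hs
  by_cases hq : ∑ j, zet u j ^ 2 = 0
  · exact ⟨u, hu, hu0, conf_of_zet hq⟩
  · obtain ⟨v, hv, hvu⟩ : ∃ v ∈ S, v ∉ Submodule.span ℝ (Set.range ![u, IV u]) := by
      by_contra hcon
      push Not at hcon
      have h1 : finrank ℝ S ≤ finrank ℝ (Submodule.span ℝ (Set.range ![u, IV u])) :=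
        Submodule.finrank_mono hcon
      have h2 := finrank_range_le_card (R := ℝ) ![u, IV u]
      rw [Fintype.card_fin] at h2
      have h3 : finrank ℝ (Submodule.span ℝ (Set.range ![u, IV u])) ≤ 2 := h2
      omega
    set A := ∑ j, zet u j ^ 2 with hA
    set B := ∑ j, zet u j * zet v j with hB
    set C := ∑ j, zet v j ^ 2 with hC
    obtain ⟨s, hs⟩ := IsAlgClosed.exists_pow_nat_eq (B ^ 2 - A * C) (n := 2) (by norm_num)
    obtain ⟨α, hα⟩ : ∃ α : ℂ, A * α = -B + s := ⟨(-B + s) / A, by field_simp⟩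
    have hroot : A * α ^ 2 + 2 * B * α + C = 0 := by
      have h1 : A * (A * α ^ 2 + 2 * B * α + C) = 0 := by
        have : A * (A * α ^ 2 + 2 * B * α + C) = (A * α) ^ 2 + 2 * B * (A * α) + A * C := by ring
        rw [this, hα]
        linear_combination hs
      exact (mul_eq_zero.mp h1).resolve_left hq
    refine ⟨α.re • u + α.im • IV u + v, ?_, ?_, ?_⟩
    · exact S.add_mem (S.add_mem (S.smul_mem _ hu) (S.smul_mem _ hIu)) hv
    · intro h0
      apply hvu
      have h1 : v = (-α.re) • u + (-α.im) • IV u := by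
        rw [neg_smul, neg_smul, ← neg_add, eq_neg_iff_add_eq_zero, add_comm]
        exact h0
      rw [h1]
      exact Submodule.add_mem _ (Submodule.smul_mem _ _ (Submodule.subset_span ⟨0, rfl⟩))
        (Submodule.smul_mem _ _ (Submodule.subset_span ⟨1, rfl⟩))
    · apply conf_of_zet
      simp only [zet_comb]
      have h1 : ∀ j, ((⟨α.re, α.im⟩ : ℂ) * zet u j + zet v j) ^ 2
          = α ^ 2 * zet u j ^ 2 + 2 * α * (zet u j * zet v j) + zet v j ^ 2 := by
        intro j
        have : (⟨α.re, α.im⟩ : ℂ) = α := rfl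
        rw [this]
        ring
      simp only [h1]
      rw [Finset.sum_add_distrib, Finset.sum_add_distrib, ← Finset.mul_sum, ← Finset.mul_sum]
      linear_combination hroot

/-- A real matrix of odd size has a real eigenvector. -/
lemma exists_eigen (hn : ¬Even n) (A : (Fin n → ℝ) →ₗ[ℝ] (Fin n → ℝ)) :
    ∃ (x : Fin n → ℝ) (c : ℝ), x ≠ 0 ∧ A x = c • x := by
  let M := LinearMap.toMatrix' A
  have hM : ∀ x, M *ᵥ x = A x := fun x => LinearMap.toMatrix'_mulVec A x
  let f : ℝ → ℝ := fun t => (Real.cos t • (1 : Matrix (Fin n) (Fin n) ℝ) + Real.sin t • M).det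
  have hf : Continuous f := by
    apply Continuous.matrix_det
    exact (Real.continuous_cos.smul continuous_const).add
      (Real.continuous_sin.smul continuous_const)
  have hf0 : f 0 = 1 := by simp [f]
  have hfpi : f Real.pi = -1 := by
    simp only [f, Real.cos_pi, Real.sin_pi, zero_smul, add_zero, neg_smul, one_smul]
    rw [det_neg, det_one, Fintype.card_fin, mul_one, Odd.neg_one_pow (Nat.not_even_iff_odd.mp hn)]
  obtain ⟨t, -, ht⟩ := intermediate_value_Icc' Real.pi_pos.le hf.continuousOn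
    (⟨by rw [hfpi]; norm_num, by rw [hf0]; norm_num⟩ : (0 : ℝ) ∈ Set.Icc _ _)
  obtain ⟨x, hx, hxM⟩ := Matrix.exists_mulVec_eq_zero_iff.mpr ht
  rw [add_mulVec, smul_mulVec, smul_mulVec, one_mulVec, hM] at hxM
  by_cases hs : Real.sin t = 0
  · rw [hs, zero_smul, add_zero] at hxM
    rcases smul_eq_zero.mp hxM with h | h
    · have := Real.sin_sq_add_cos_sq t
      rw [hs, h] at this
      norm_num at this
    · exact absurd h hx
  · refine ⟨x, -(Real.cos t / Real.sin t), hx, ?_⟩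
    have h1 : Real.sin t • A x = -(Real.cos t • x) := by
      rw [eq_neg_iff_add_eq_zero, add_comm]; exact hxM
    have h2 : A x = (1 / Real.sin t) • (Real.sin t • A x) := by
      rw [smul_smul, one_div, inv_mul_cancel₀ hs, one_smul]
    rw [h2, h1, smul_neg, smul_smul, neg_smul]
    congr 2
    ring

/-- A complex structure exists only in even dimensions. -/
lemma even_of_sq (J : (Fin n → ℝ) →ₗ[ℝ] (Fin n → ℝ)) (hJ : ∀ x, J (J x) = -x) : Even n := by
  by_contra hn
  obtain ⟨x, c, hx, hc⟩ := exists_eigen hn J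
  have h1 := hJ x
  rw [hc, map_smul, hc, smul_smul] at h1
  have h2 : (c * c + 1) • x = 0 := by
    rw [add_smul, h1, one_smul, neg_add_cancel]
  rcases smul_eq_zero.mp h2 with h | h
  · nlinarith [mul_self_nonneg c]
  · exact hx h

/-- A half-dimensional space without elements of rank one exists only for even `n`. -/
lemma even_of_no_rank_one (W : Submodule ℝ (Matrix (Fin n) (Fin 2) ℝ)) (hW : finrank ℝ W = n)
    (h : ∀ Z ∈ W, QQ Z = NN Z ^ 2 → Z = 0) : Even n := by
  by_contra hn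
  let φ : W →ₗ[ℝ] (Fin n → ℝ) := col 0 ∘ₗ W.subtype
  have hinj : Function.Injective φ := by
    rw [injective_iff_map_eq_zero]
    intro Z hZ
    have hZ' : col 0 Z.1 = 0 := hZ
    refine Subtype.ext (h Z.1 Z.2 (QQ_rank_one (col 1 Z.1) 0 1 ?_))
    rw [zero_smul, one_smul, ← hZ']
    exact eq_mk2 _
  let e : W ≃ₗ[ℝ] (Fin n → ℝ) := LinearEquiv.ofInjectiveOfFinrankEq φ hinj (by
    rw [hW, Module.finrank_fin_fun])
  obtain ⟨x, c, hx, hc⟩ := exists_eigen hn (col 1 ∘ₗ W.subtype ∘ₗ e.symm.toLinearMap)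
  have h0 : col 0 (e.symm x).1 = x := e.apply_symm_apply x
  have h1 : col 1 (e.symm x).1 = c • x := hc
  have h2 := h (e.symm x).1 (e.symm x).2 (QQ_rank_one x 1 c (by
    rw [one_smul, ← h1]
    conv_lhs => rw [eq_mk2 (e.symm x).1, h0]))
  apply hx
  rw [← h0, h2]
  rfl

end

end F31343
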