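import Mathlib
import Pool.Agent.Lib_MP_f31343.Two8
import Pool.Agent.Lib_MP_f31343.Realify

/-!
# Local geometric fibrations for the reductive subgroups of `SO(n, 2)` and `SU(n, 2)`
-/

open Matrix NormedSpace Filter Topology Module
open scoped Matrix.Norms.Operator ContDiff

namespace F31343

variable {𝕜 ι : Type*} [RCLike 𝕜] [Fintype ι] [DecidableEq ι] {n : ℕ}

/-- The triple product of `𝔭`. -/
lemma brk_off (Z₁ Z₂ Z₃ : Matrix (Fin n) (Fin 2) 𝕜) :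
    (off Z₁ * off Z₂ - off Z₂ * off Z₁) * off Z₃ - off Z₃ * (off Z₁ * off Z₂ - off Z₂ * off Z₁)
      = off ((Z₁ * Z₂ᴴ - Z₂ * Z₁ᴴ) * Z₃ - Z₃ * (Z₁ᴴ * Z₂ - Z₂ᴴ * Z₁)) := by
  have h : off Z₁ * off Z₂ - off Z₂ * off Z₁
      = fromBlocks (Z₁ * Z₂ᴴ - Z₂ * Z₁ᴴ) 0 0 (Z₁ᴴ * Z₂ - Z₂ᴴ * Z₁) := by
    rw [off_mul, off_mul, sub_eq_add_neg, fromBlocks_neg, fromBlocks_add, sub_eq_add_neg,
      sub_eq_add_neg]
    simp
  rw [h]
  unfold off
  rw [fromBlocks_multiply, fromBlocks_multiply, sub_eq_add_neg, fromBlocks_neg, fromBlocks_add]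
  congr 1
  · simp
  · simp [sub_eq_add_neg]
  · simp only [conjTranspose_sub, conjTranspose_mul, conjTranspose_conjTranspose, Matrix.zero_mul,
      Matrix.mul_zero, zero_add, add_zero, Matrix.mul_sub, Matrix.sub_mul]
    abel
  · simp

variable {R : RRep 𝕜 (Fin n ⊕ Fin 2) ι} {G H : LinRed ι}
  (hG : ∀ X, X ∈ G.𝔭 ↔ ∃ Z : Matrix (Fin n) (Fin 2) 𝕜, X = R.ρ (off Z))

include hG in
/-- **The classification**, in terms of matrices over `𝕜`. -/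
theorem classification (hn : 3 ≤ n) (hconf : Conf n 𝕜) (hHG : H.grp ≤ G.grp) (hne : H.𝔭 ≠ ⊥)
    (hne' : H.𝔭 ≠ G.𝔭) (F : LocalGeometricFibration G H) :
    (IsLine (H.𝔭.comap (rhoL R) : Set (Matrix (Fin n) (Fin 2) 𝕜)) ∧
      ∃ W : Submodule ℝ (Matrix (Fin n) (Fin 2) 𝕜), finrank ℝ W = n * finrank ℝ 𝕜 ∧
        ∀ Z ∈ W, QQ Z = NN Z ^ 2 → Z = 0) ∨
      IsQuat (H.𝔭.comap (rhoL R) : Set (Matrix (Fin n) (Fin 2) 𝕜)) := by
  -- three coordinates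
  obtain ⟨i, j, k, hij, hik, hjk⟩ : ∃ i j k : Fin n, i ≠ j ∧ i ≠ k ∧ j ≠ k :=
    ⟨⟨0, by omega⟩, ⟨1, by omega⟩, ⟨2, by omega⟩, by simp [Fin.ext_iff], by simp [Fin.ext_iff],
      by simp [Fin.ext_iff]⟩
  have hle : H.𝔭 ≤ G.𝔭 := fun X hX => p_mono hHG hX
  -- the real ranks
  have hrank : realRank H ≤ 1 := by
    by_contra hcon
    push Not at hcon
    exact hne' (p_eq_of_realRank hHG ((realRank_le_two hG hij).trans hcon) F)
  obtain ⟨Y, hY, hY0, hgen⟩ := exists_gen_of_rank_one hrank hne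
  obtain ⟨Z₁, rfl⟩ := (hG Y).mp (hle hY)
  have hZ₁0 : Z₁ ≠ 0 := by
    rintro rfl
    exact hY0 (by rw [off_zero, map_zero])
  have hN₁ := NN_pos hZ₁0
  -- the type
  obtain ⟨τ, hτdef⟩ : ∃ τ : ℝ, QQ Z₁ = τ * NN Z₁ ^ 2 :=
    ⟨QQ Z₁ / NN Z₁ ^ 2, by field_simp⟩
  obtain ⟨hτ, hτ'⟩ : 1 ≤ 2 * τ ∧ τ ≤ 1 := by
    obtain ⟨a, b, hab⟩ := exists_dg hG hij ((hG (R.ρ (off Z₁))).mpr ⟨Z₁, rfl⟩)
    have h1 := hab.NN_eq
    have h2 := hab.QQ_eq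
    rw [NN_dg hij] at h1
    rw [QQ_dg hij] at h2
    have h3 : 0 < NN Z₁ ^ 2 := by positivity
    constructor
    · have : NN Z₁ ^ 2 * (2 * τ - 1) = (a ^ 2 - b ^ 2) ^ 2 := by
        have : NN Z₁ ^ 2 * (2 * τ - 1) = 2 * QQ Z₁ - NN Z₁ ^ 2 := by rw [hτdef]; ring
        rw [this, h2, h1]
        ring
      have h4 : 0 ≤ NN Z₁ ^ 2 * (2 * τ - 1) := by rw [this]; positivity
      have := nonneg_of_mul_nonneg_right h4 h3
      linarith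
    · have : NN Z₁ ^ 2 * (1 - τ) = 2 * (a ^ 2 * b ^ 2) := by
        have : NN Z₁ ^ 2 * (1 - τ) = NN Z₁ ^ 2 - QQ Z₁ := by rw [hτdef]; ring
        rw [this, h2, h1]
        ring
      have h4 : 0 ≤ NN Z₁ ^ 2 * (1 - τ) := by rw [this]; positivity
      have := nonneg_of_mul_nonneg_right h4 h3
      linarith
  have hP : ∀ Z ∈ H.𝔭.comap (rhoL R), QQ Z = τ * NN Z ^ 2 := by
    intro Z hZ
    obtain ⟨k', hk', c, hc⟩ := hgen (R.ρ (off Z)) hZ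
    have h1 : Cj G (R.ρ (off Z)) (R.ρ (off (c • Z₁))) :=
      ⟨k', K_mono hHG hk', by rw [hc, off_smul, R.smul]⟩
    rw [h1.QQ_eq, h1.NN_eq, QQ_smul, NN_smul, hτdef]
    ring
  -- the complement
  obtain ⟨W, hWG, hW⟩ := exists_complement hHG F
  have hWdim := finrank_complement hHG hWG hW
  have hW' : ∀ Z ∈ W.comap (rhoL R), QQ Z = τ * NN Z ^ 2 → Z = 0 := by
    intro Z hZ hq
    by_contra hZ0
    have hN := NN_pos hZ0
    obtain ⟨s, hs, hsN⟩ : ∃ s : ℝ, s ≠ 0 ∧ s ^ 2 * NN Z = NN Z₁ := by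
      refine ⟨√(NN Z₁ / NN Z), by positivity, ?_⟩
      rw [Real.sq_sqrt (by positivity)]
      field_simp
    have h1 : NN (s • Z) = NN Z₁ := by rw [NN_smul, hsN]
    have h2 : QQ (s • Z) = QQ Z₁ := by
      rw [QQ_smul, hq, hτdef, ← hsN]
      ring
    obtain ⟨k', hk', hk'Z⟩ := cj_of_inv hG hij hik hjk h1 h2
    have h3 : rhoL R (s • Z) ∈ W := by
      rw [map_smul]
      exact W.smul_mem _ hZ
    have h4 := (hW k' hk').1 _ h3 (by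
      rw [rhoL_apply, hk'Z]
      exact hY)
    have h5 : s • Z = 0 := rhoL_inj R (h4.trans (map_zero _).symm)
    rcases smul_eq_zero.mp h5 with h | h
    · exact hs h
    · exact hZ0 h
  have hdim : finrank ℝ (H.𝔭.comap (rhoL R)) + finrank ℝ (W.comap (rhoL R))
      = 2 * (n * finrank ℝ 𝕜) := by
    rw [finrank_pb hG hle, finrank_pb hG hWG, hWdim, ← finrank_p hG]
    have := Submodule.finrank_mono hle
    unfold codim
    omega
  obtain ⟨hdimP, hdimW⟩ := half_dim hconf hdim hτ hτ' hP hW'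
  have hT : ∀ A ∈ H.𝔭.comap (rhoL R), ∀ B ∈ H.𝔭.comap (rhoL R), ∀ C ∈ H.𝔭.comap (rhoL R),
      (A * Bᴴ - B * Aᴴ) * C - C * (Aᴴ * B - Bᴴ * A) ∈ H.𝔭.comap (rhoL R) := by
    intro A hA B hB C hC
    have h1 := ad_mem_p (brk_mem_k (G := H) hA hB) hC
    show R.ρ (off _) ∈ H.𝔭
    rw [← brk_off, map_sub, map_mul, map_mul, map_sub, map_mul, map_mul]
    exact h1
  rcases shape hn _ hdimP hτ hτ' hP hT with ⟨h1, h2⟩ | h
  · left
    refine ⟨h1, W.comap (rhoL R), hdimW, ?_⟩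
    intro Z hZ hq
    exact hW' Z hZ (by rw [h2, one_mul]; exact hq)
  · exact Or.inr h

end F31343
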