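import Mathlib
import Pool.Agent.Lib_MP_f31343.Two9

/-!
# The reductive subgroups of `SO(n, 2)` and `SU(n, 2)`
-/

open Matrix NormedSpace Filter Topology Module
open scoped Matrix.Norms.Operator ContDiff Kronecker

namespace F31343

/-! ### The two representations -/

/-- Real matrices. -/
noncomputable def realRep (m : Type*) [Fintype m] [DecidableEq m] : RRep ℝ m m where
  ρ := RingHom.id _
  smul _ _ := rfl
  star M := by
    ext i j
    simp [conjTranspose_apply]
  κ := 1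
  κ_pos := one_pos
  trace M := by simp

lemma realify_star {m : Type*} [Fintype m] [DecidableEq m] (M : Matrix m m ℂ) :
    realify Mᴴ = (realify M)ᵀ := by
  ext ⟨i, a⟩ ⟨j, b⟩
  rw [transpose_apply, realify_entry, realify_entry, conjTranspose_apply]
  fin_cases a <;> fin_cases b <;> simp [ci]

lemma realify_trace {m : Type*} [Fintype m] [DecidableEq m] (M : Matrix m m ℂ) :
    (realify M).trace = 2 * RCLike.re M.trace := by
  simp only [Matrix.trace, Matrix.diag, Fintype.sum_prod_type, Fin.sum_univ_two, realify_entry,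
    map_sum, Finset.mul_sum]
  refine Finset.sum_congr rfl fun i _ => ?_
  simp [ci]
  ring

/-- Complex matrices as real matrices of twice the size. -/
noncomputable def complexRep (m : Type*) [Fintype m] [DecidableEq m] :
    RRep ℂ m (m × Fin 2) where
  ρ := realify
  smul := realify_smul
  star := realify_star
  κ := 2
  κ_pos := two_pos
  trace := realify_trace

variable {n : ℕ}

/-- **The real case.** -/
theorem real_case (hn : 3 ≤ n) {G H : LinRed (Fin n ⊕ Fin 2)}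
    (hG : ∀ X, X ∈ G.𝔭 ↔ ∃ Z : Matrix (Fin n) (Fin 2) ℝ, X = off Z)
    (hHG : H.grp ≤ G.grp) (hne : H.𝔭 ≠ ⊥) (hne' : H.𝔭 ≠ G.𝔭)
    (F : LocalGeometricFibration G H) :
    Even n ∧ (IsLine {Z : Matrix (Fin n) (Fin 2) ℝ | off Z ∈ H.𝔭}
      ∨ IsQuat {Z : Matrix (Fin n) (Fin 2) ℝ | off Z ∈ H.𝔭}) := by
  have h := classification (R := realRep (Fin n ⊕ Fin 2)) hG hn (conf_real (by omega)) hHG hne
    hne' F
  rcases h with ⟨h1, W, hW, hW'⟩ | h
  · refine ⟨even_of_no_rank_one W ?_ hW', Or.inl h1⟩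
    rw [hW, Module.finrank_self, mul_one]
  · refine ⟨?_, Or.inr h⟩
    obtain ⟨J, -, hJ, -⟩ := h
    exact even_of_sq J hJ

/-- **The complex case.** -/
theorem complex_case (hn : 3 ≤ n) (hn' : Even n) {G H : LinRed ((Fin n ⊕ Fin 2) × Fin 2)}
    (hG : ∀ X, X ∈ G.𝔭 ↔ ∃ Z : Matrix (Fin n) (Fin 2) ℂ, X = realify (off Z))
    (hHG : H.grp ≤ G.grp) (hne : H.𝔭 ≠ ⊥) (hne' : H.𝔭 ≠ G.𝔭)
    (F : LocalGeometricFibration G H) :
    IsLine {Z : Matrix (Fin n) (Fin 2) ℂ | realify (off Z) ∈ H.𝔭}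
      ∨ IsQuat {Z : Matrix (Fin n) (Fin 2) ℂ | realify (off Z) ∈ H.𝔭} := by
  have h := classification (R := complexRep (Fin n ⊕ Fin 2)) hG hn (conf_even hn') hHG hne
    hne' F
  rcases h with ⟨h1, -⟩ | h
  · exact Or.inl h1
  · exact Or.inr h

/-! ### The groups `O(n, 2)` and `U(n, 2)` -/

/-- The form of signature `(n, 2)`. -/
def form2 (𝕜 : Type*) [RCLike 𝕜] (n : ℕ) : Matrix (Fin n ⊕ Fin 2) (Fin n ⊕ Fin 2) 𝕜 :=
  fromBlocks 1 0 0 (-1)

lemma form2_sq (𝕜 : Type*) [RCLike 𝕜] (n : ℕ) : form2 𝕜 n * form2 𝕜 n = 1 := by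
  simp [form2, fromBlocks_multiply]

lemma form2_star (𝕜 : Type*) [RCLike 𝕜] (n : ℕ) : (form2 𝕜 n)ᴴ = form2 𝕜 n := by
  simp [form2, fromBlocks_conjTranspose]

/-- A hermitian matrix which anticommutes with the form is off-diagonal. -/
lemma eq_off {𝕜 : Type*} [RCLike 𝕜] {M : Matrix (Fin n ⊕ Fin 2) (Fin n ⊕ Fin 2) 𝕜}
    (h1 : Mᴴ = M) (h2 : M * form2 𝕜 n = form2 𝕜 n * (-M)) : ∃ Z, M = off Z := by
  refine ⟨M.toBlocks₁₂, ?_⟩
  conv_lhs => rw [← fromBlocks_toBlocks M]
  rw [← fromBlocks_toBlocks M] at h2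
  simp only [form2, fromBlocks_neg, fromBlocks_multiply, mul_one, mul_zero, zero_mul,
    add_zero, one_mul, fromBlocks_inj, Matrix.mul_zero, Matrix.zero_mul, zero_add,
    Matrix.mul_one, Matrix.one_mul, mul_neg, neg_mul, neg_neg] at h2
  obtain ⟨e1, -, -, e2⟩ := h2
  have h21 : M.toBlocks₂₁ = M.toBlocks₁₂ᴴ := by
    ext i j
    have := congrFun (congrFun h1 (Sum.inr i)) (Sum.inl j)
    exact this.symm
  have h11 : M.toBlocks₁₁ = 0 := by
    have : (2 : ℝ) • M.toBlocks₁₁ = 0 := by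
      rw [two_smul]
      nth_rewrite 1 [e1]
      simp
    exact (smul_eq_zero.mp this).resolve_left two_ne_zero
  have h22 : M.toBlocks₂₂ = 0 := by
    have : (2 : ℝ) • M.toBlocks₂₂ = 0 := by
      rw [two_smul]
      nth_rewrite 1 [← e2]
      simp
    exact (smul_eq_zero.mp this).resolve_left two_ne_zero
  rw [h11, h22, h21]
  rfl

lemma off_form {𝕜 : Type*} [RCLike 𝕜] (Z : Matrix (Fin n) (Fin 2) 𝕜) :
    off Z * form2 𝕜 n = form2 𝕜 n * (-off Z) := by
  simp [off, form2, fromBlocks_multiply, fromBlocks_neg]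

/-- `O(n, 2)`. -/
noncomputable def groupO (n : ℕ) : LinRed (Fin n ⊕ Fin 2) :=
  ClassicalData.toLinRed
    { comm := ∅
      form := {form2 ℝ n}
      sl := False
      fix := 0
      skew := fun _ h => h.elim
      orth := by
        rintro S rfl
        have : (form2 ℝ n)ᵀ = form2 ℝ n := form2_star ℝ n
        rw [this, form2_sq]
      symm := by simp }

theorem groupO_p (n : ℕ) (X : Matrix (Fin n ⊕ Fin 2) (Fin n ⊕ Fin 2) ℝ) :
    X ∈ (groupO n).𝔭 ↔ ∃ Z : Matrix (Fin n) (Fin 2) ℝ, X = off Z := by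
  constructor
  · rintro ⟨h1, -, h3, -, -⟩
    exact eq_off h1 (h3 _ rfl)
  · rintro ⟨Z, rfl⟩
    refine ⟨off_star Z, fun _ h => h.elim, ?_, fun h => h.elim, ?_⟩
    · rintro S rfl
      exact off_form Z
    · show off Z * 0 = 0
      rw [mul_zero]

/-- `U(n, 2)`. -/
noncomputable def groupU (n : ℕ) : LinRed ((Fin n ⊕ Fin 2) × Fin 2) :=
  ClassicalData.toLinRed
    { comm := {(1 : Matrix (Fin n ⊕ Fin 2) (Fin n ⊕ Fin 2) ℝ) ⊗ₖ ci}
      form := {realify (form2 ℂ n)}
      sl := False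
      fix := 0
      skew := by
        rintro M rfl
        rw [← kroneckerMap_transpose, ci_skew, transpose_one]
        ext i j
        simp
      orth := by
        rintro S rfl
        rw [← realify_star, form2_star, ← map_mul, form2_sq, map_one]
      symm := by simp }

lemma one_kron_ci (m : Type*) [Fintype m] [DecidableEq m] :
    (1 : Matrix m m ℝ) ⊗ₖ ci = realify (Complex.I • (1 : Matrix m m ℂ)) := by
  ext ⟨i, a⟩ ⟨j, b⟩
  rw [realify_entry, kroneckerMap_apply, Matrix.smul_apply]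
  by_cases h : i = j
  · subst h
    simp
  · simp [Matrix.one_apply_ne h]

theorem groupU_p (n : ℕ) (X : Matrix ((Fin n ⊕ Fin 2) × Fin 2) ((Fin n ⊕ Fin 2) × Fin 2) ℝ) :
    X ∈ (groupU n).𝔭 ↔ ∃ Z : Matrix (Fin n) (Fin 2) ℂ, X = realify (off Z) := by
  constructor
  · rintro ⟨h1, h2, h3, -, -⟩
    have h4 := eq_realify (h2 _ rfl)
    have h5 := h3 _ rfl
    rw [h4] at h1 h5
    rw [← realify_star] at h1
    rw [← map_neg, ← map_mul, ← map_mul] at h5
    obtain ⟨Z, hZ⟩ := eq_off (realify_inj h1) (realify_inj h5)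
    exact ⟨Z, by rw [← hZ]; exact h4⟩
  · rintro ⟨Z, rfl⟩
    refine ⟨by rw [← realify_star, off_star], ?_, ?_, fun h => h.elim, ?_⟩
    · rintro M rfl
      rw [one_kron_ci, ← map_mul, ← map_mul]
      congr 1
      rw [Matrix.mul_smul, Matrix.smul_mul, Matrix.mul_one, Matrix.one_mul]
    · rintro S rfl
      rw [← map_neg, ← map_mul, ← map_mul, off_form]
    · show realify (off Z) * 0 = 0
      rw [mul_zero]

end F31343
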