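import Mathlib
import Pool.Agent.Lib_MP_f31343.Two10

/-!
# The reductive subgroups of `SO(n, 2)` and `SU(2k, 2)`: uniform statement
-/

open Matrix NormedSpace Filter Topology Module
open scoped Matrix.Norms.Operator ContDiff Kronecker

namespace F31343

/-! ### Star representations -/

section rep

variable {𝕜 m ι : Type*} [RCLike 𝕜] [Fintype m] [DecidableEq m] [Fintype ι] [DecidableEq ι]

/-- The trace of a star representation. -/
lemma starRep_trace (ρ : Matrix m m 𝕜 →⋆ₐ[ℝ] Matrix ι ι ℝ) (i₀ : m) (M : Matrix m m 𝕜) :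
    (ρ M).trace = (ρ (single i₀ i₀ 1)).trace * RCLike.re M.trace := by
  let T : Matrix m m 𝕜 →ₗ[ℝ] ℝ := Matrix.traceLinearMap ι ℝ ℝ ∘ₗ ρ.toAlgHom.toLinearMap
  have hT : ∀ A, T A = (ρ A).trace := fun _ => rfl
  have hcomm : ∀ A B, T (A * B) = T (B * A) := by
    intro A B
    rw [hT, hT, map_mul, map_mul, trace_mul_comm]
  have hstar : ∀ A, T Aᴴ = T A := by
    intro A
    have h1 : ρ Aᴴ = (ρ A)ᵀ := by
      have h2 : ρ (Star.star A) = Star.star (ρ A) := map_star ρ A
      exact h2.trans (conjTranspose_eq_transpose_of_trivial (ρ A))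
    rw [hT, hT, h1, trace_transpose]
  -- off-diagonal entries
  have hoff : ∀ i j (z : 𝕜), i ≠ j → T (single i j z) = 0 := by
    intro i j z hij
    have h1 : single i j z = single i j z * single j j 1 := by
      rw [single_mul_single_same, mul_one]
    rw [h1, hcomm, single_mul_single_of_ne _ _ _ _ hij.symm, map_zero]
  have hdiag : ∀ i (z : 𝕜), T (single i i z) = T (single i₀ i₀ z) := by
    intro i z
    have h1 : single i i z = single i i₀ z * single i₀ i 1 := by
      rw [single_mul_single_same, mul_one]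
    have h2 : single i₀ i₀ z = single i₀ i 1 * single i i₀ z := by
      rw [single_mul_single_same, one_mul]
    rw [h1, hcomm, ← h2]
  have hre : ∀ z : 𝕜, T (single i₀ i₀ z) = RCLike.re z * T (single i₀ i₀ 1) := by
    intro z
    have h1 : T (single i₀ i₀ (Star.star z)) = T (single i₀ i₀ z) := by
      rw [← hstar (single i₀ i₀ z), conjTranspose_single]
    have h2 : T (single i₀ i₀ (z + Star.star z)) = 2 * T (single i₀ i₀ z) := by
      rw [single_add, map_add, h1]
      ring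
    have h3 : z + Star.star z = (2 * RCLike.re z : ℝ) • (1 : 𝕜) := by
      rw [RCLike.star_def, RCLike.add_conj, RCLike.real_smul_eq_coe_mul, mul_one]
      push_cast
      rfl
    rw [h3, ← smul_single, map_smul, smul_eq_mul] at h2
    linarith
  have hM : T M = ∑ i, T (single i₀ i₀ (M i i)) := by
    conv_lhs => rw [matrix_eq_sum_single M]
    rw [map_sum]
    refine Finset.sum_congr rfl fun i _ => ?_
    rw [map_sum, Finset.sum_eq_single i]
    · exact hdiag i _
    · intro j _ hj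
      exact hoff i j _ (Ne.symm hj)
    · intro h
      exact absurd (Finset.mem_univ i) h
  rw [← hT, hM, Finset.sum_congr rfl fun i _ => hre (M i i), ← Finset.sum_mul, ← map_sum,
    mul_comm]
  rfl

/-- A star representation on a nonzero space. -/
noncomputable def RRep.ofStar (ρ : Matrix m m 𝕜 →⋆ₐ[ℝ] Matrix ι ι ℝ) [Nonempty ι] (i₀ : m) :
    RRep 𝕜 m ι where
  ρ := ρ.toAlgHom.toRingHom
  smul c M := map_smul ρ c M
  star M := by
    have h2 : ρ (Star.star M) = Star.star (ρ M) := map_star ρ M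
    exact h2.trans (conjTranspose_eq_transpose_of_trivial (ρ M))
  κ := (ρ (single i₀ i₀ 1)).trace
  κ_pos := by
    have h1 := starRep_trace ρ i₀ 1
    rw [map_one, trace_one, trace_one] at h1
    have h2 : (0 : ℝ) < Fintype.card ι := by
      exact_mod_cast Fintype.card_pos
    rw [h1] at h2
    have h3 : (0 : ℝ) < RCLike.re ((Fintype.card m : ℕ) : 𝕜) := by
      rw [← map_natCast (algebraMap ℝ 𝕜)]
      have : 0 < Fintype.card m := Fintype.card_pos_iff.mpr ⟨i₀⟩
      simpa using this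
    exact pos_of_mul_pos_left h2 h3.le
  trace M := starRep_trace ρ i₀ M

end rep

/-! ### Fields with trivial conjugation -/

section triv

variable {𝕜 : Type*} [RCLike 𝕜] (htriv : ∀ z : 𝕜, Star.star z = z) {n : ℕ}

include htriv in
lemma ofReal_re_of_triv (z : 𝕜) : ((RCLike.re z : ℝ) : 𝕜) = z :=
  RCLike.conj_eq_iff_re.mp (htriv z)

/-- The real part of a matrix. -/
noncomputable def reM (𝕜 : Type*) [RCLike 𝕜] (n : ℕ) :
    Matrix (Fin n) (Fin 2) 𝕜 →ₗ[ℝ] Matrix (Fin n) (Fin 2) ℝ where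
  toFun Z := Z.map RCLike.re
  map_add' Z W := by ext; simp
  map_smul' c Z := by ext; simp [RCLike.smul_re]

include htriv in
lemma reM_inj : Function.Injective (reM 𝕜 n) := by
  intro Z W h
  ext i j
  have h1 : RCLike.re (Z i j) = RCLike.re (W i j) := congrFun (congrFun h i) j
  rw [← ofReal_re_of_triv htriv (Z i j), h1, ofReal_re_of_triv htriv]

include htriv in
lemma reM_gram (Z : Matrix (Fin n) (Fin 2) 𝕜) :
    (reM 𝕜 n Z)ᴴ * reM 𝕜 n Z = (Zᴴ * Z).map RCLike.re := by
  ext i j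
  rw [mul_apply, map_apply, mul_apply, map_sum]
  refine Finset.sum_congr rfl fun k _ => ?_
  rw [conjTranspose_apply, conjTranspose_apply, htriv, star_trivial]
  show RCLike.re (Z k i) * RCLike.re (Z k j) = RCLike.re (Z k i * Z k j)
  conv_rhs => rw [← ofReal_re_of_triv htriv (Z k i)]
  rw [RCLike.re_ofReal_mul]

include htriv in
lemma reM_NN (Z : Matrix (Fin n) (Fin 2) 𝕜) : NN (reM 𝕜 n Z) = NN Z := by
  rw [NN_col, NN_col, reM_gram htriv]
  rfl

include htriv in
lemma reM_QQ (Z : Matrix (Fin n) (Fin 2) 𝕜) : QQ (reM 𝕜 n Z) = QQ Z := by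
  rw [QQ_col, QQ_col, reM_gram htriv]
  have h : ‖((Zᴴ * Z).map RCLike.re) 0 1‖ = ‖(Zᴴ * Z) 0 1‖ := by
    rw [map_apply]
    conv_rhs => rw [← ofReal_re_of_triv htriv ((Zᴴ * Z) 0 1), RCLike.norm_ofReal]
    rfl
  rw [h]
  rfl

include htriv in
lemma finrank_of_triv : finrank ℝ 𝕜 = 1 := by
  let e : 𝕜 ≃ₗ[ℝ] ℝ :=
    { toFun := RCLike.re
      map_add' := fun x y => map_add _ x y
      map_smul' := fun c x => RCLike.smul_re c x
      invFun := fun r => (r : 𝕜)
      left_inv := fun z => ofReal_re_of_triv htriv z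
      right_inv := fun r => RCLike.ofReal_re r }
  rw [e.finrank_eq, Module.finrank_self]

include htriv in
theorem conf_triv (hn : 2 ≤ n) : Conf n 𝕜 := by
  intro S hS
  have h1 : finrank ℝ (S.map (reM 𝕜 n)) = finrank ℝ S :=
    (Submodule.equivMapOfInjective _ (reM_inj htriv) S).finrank_eq.symm
  rw [finrank_of_triv htriv, ← h1] at hS
  obtain ⟨_, ⟨Z, hZ, rfl⟩, h0, h2⟩ := conf_real hn (S.map (reM 𝕜 n)) (by
    rw [Module.finrank_self]; exact hS)
  refine ⟨Z, hZ, ?_, ?_⟩
  · rintro rfl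
    exact h0 (map_zero _)
  · rw [reM_QQ htriv, reM_NN htriv] at h2
    exact h2

include htriv in
lemma even_of_sq_triv (J : (Fin n → 𝕜) →ₗ[ℝ] (Fin n → 𝕜)) (hJ : ∀ x, J (J x) = -x) : Even n := by
  let a : (Fin n → ℝ) →ₗ[ℝ] (Fin n → 𝕜) :=
    { toFun := fun x i => (x i : 𝕜)
      map_add' := fun x y => by ext; simp
      map_smul' := fun c x => by ext; simp [RCLike.real_smul_eq_coe_mul] }
  let b : (Fin n → 𝕜) →ₗ[ℝ] (Fin n → ℝ) :=
    { toFun := fun x i => RCLike.re (x i)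
      map_add' := fun x y => by ext; simp
      map_smul' := fun c x => by ext; simp [RCLike.smul_re] }
  have hab : ∀ x, a (b x) = x := fun x => funext fun i => ofReal_re_of_triv htriv (x i)
  have hba : ∀ x, b (a x) = x := fun x => funext fun i => RCLike.ofReal_re (x i)
  refine even_of_sq (b ∘ₗ J ∘ₗ a) fun x => ?_
  show b (J (a (b (J (a x))))) = -x
  rw [hab, hJ, map_neg, hba]

include htriv in
lemma even_of_no_rank_one_triv (W : Submodule ℝ (Matrix (Fin n) (Fin 2) 𝕜))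
    (hW : finrank ℝ W = n * finrank ℝ 𝕜) (h : ∀ Z ∈ W, QQ Z = NN Z ^ 2 → Z = 0) : Even n := by
  have h1 : finrank ℝ (W.map (reM 𝕜 n)) = finrank ℝ W :=
    (Submodule.equivMapOfInjective _ (reM_inj htriv) W).finrank_eq.symm
  rw [hW, finrank_of_triv htriv, mul_one] at h1
  refine even_of_no_rank_one _ h1 ?_
  rintro _ ⟨Z, hZ, rfl⟩ hq
  rw [reM_QQ htriv, reM_NN htriv] at hq
  rw [h Z hZ hq, map_zero]

end triv

/-! ### The theorem -/

variable {𝕜 ι : Type*} [RCLike 𝕜] [Fintype ι] [DecidableEq ι] {n : ℕ}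

/-- **Local geometric fibrations for the reductive subgroups of `U(n, 2; 𝕜)`.** -/
theorem rank_two (hn : 3 ≤ n) (h𝕜 : Even n ∨ ∀ z : 𝕜, Star.star z = z)
    (ρ : Matrix (Fin n ⊕ Fin 2) (Fin n ⊕ Fin 2) 𝕜 →⋆ₐ[ℝ] Matrix ι ι ℝ) {G H : LinRed ι}
    (hG : ∀ X, X ∈ G.𝔭 ↔ ∃ Z : Matrix (Fin n) (Fin 2) 𝕜, X = ρ (off Z))
    (hHG : H.grp ≤ G.grp) (hne : H.𝔭 ≠ ⊥) (hne' : H.𝔭 ≠ G.𝔭)
    (F : LocalGeometricFibration G H) :
    Even n ∧ (IsLine {Z : Matrix (Fin n) (Fin 2) 𝕜 | ρ (off Z) ∈ H.𝔭} ∨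
      IsQuat {Z : Matrix (Fin n) (Fin 2) 𝕜 | ρ (off Z) ∈ H.𝔭}) := by
  have hne'' : Nonempty ι := by
    by_contra hcon
    rw [not_nonempty_iff] at hcon
    apply hne
    rw [Submodule.eq_bot_iff]
    intro X _
    ext i
    exact (hcon.false i).elim
  let R : RRep 𝕜 (Fin n ⊕ Fin 2) ι := RRep.ofStar ρ (Sum.inl ⟨0, by omega⟩)
  have hconf : Conf n 𝕜 := by
    rcases h𝕜 with h | h
    · exact conf_even h
    · exact conf_triv h (by omega)
  have h := classification (R := R) hG hn hconf hHG hne hne' F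
  rcases h with ⟨h1, W, hW, hW'⟩ | h
  · refine ⟨?_, Or.inl h1⟩
    rcases h𝕜 with h2 | h2
    · exact h2
    · exact even_of_no_rank_one_triv h2 W hW hW'
  · refine ⟨?_, Or.inr h⟩
    rcases h𝕜 with h2 | h2
    · exact h2
    · obtain ⟨J, -, hJ, -⟩ := h
      exact even_of_sq_triv h2 J hJ

/-- Complex matrices as real matrices of twice the size. -/
noncomputable def realifyStar (m : Type*) [Fintype m] [DecidableEq m] :
    Matrix m m ℂ →⋆ₐ[ℝ] Matrix (m × Fin 2) (m × Fin 2) ℝ where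
  toFun := realify
  map_one' := map_one realify
  map_mul' := map_mul realify
  map_zero' := map_zero realify
  map_add' := map_add realify
  commutes' r := by
    rw [Algebra.algebraMap_eq_smul_one, Algebra.algebraMap_eq_smul_one, realify_smul, map_one]
  map_star' M := by
    exact (realify_star M).trans (conjTranspose_eq_transpose_of_trivial (realify M)).symm

/-- The hypothesis on `G` holds for `O(n, 2)`. -/
theorem groupO_hyp (n : ℕ) (X : Matrix (Fin n ⊕ Fin 2) (Fin n ⊕ Fin 2) ℝ) :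
    X ∈ (groupO n).𝔭 ↔ ∃ Z : Matrix (Fin n) (Fin 2) ℝ,
      X = StarAlgHom.id ℝ (Matrix (Fin n ⊕ Fin 2) (Fin n ⊕ Fin 2) ℝ) (off Z) := groupO_p n X

/-- The hypothesis on `G` holds for `U(n, 2)`. -/
theorem groupU_hyp (n : ℕ)
    (X : Matrix ((Fin n ⊕ Fin 2) × Fin 2) ((Fin n ⊕ Fin 2) × Fin 2) ℝ) :
    X ∈ (groupU n).𝔭 ↔ ∃ Z : Matrix (Fin n) (Fin 2) ℂ,
      X = realifyStar (Fin n ⊕ Fin 2) (off Z) := groupU_p n X

end F31343
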